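import Pool.Agent.Gen.F5.X12CD3Cm5.S000
import Pool.Agent.Gen.F5.X12CD3Cm5.S001
import Pool.Agent.Gen.F5.X12CD3Cm5.S002
import Pool.Agent.Gen.F5.X12CD3Cm5.S003
import Pool.Agent.Gen.F5.X12CD3Cm5.S004
import Pool.Agent.Gen.F5.X12CD3Cm5.S005
import Pool.Agent.Gen.F5.X12CD3Cm5.S006
import Pool.Agent.Gen.F5.X12CD3Cm5.S007
import Pool.Agent.Gen.F5.X12CD3Cm5.S008
import Pool.Agent.Gen.F5.X12CD3Cm5.S009
import Pool.Agent.Gen.F5.X12CD3Cm5.S010
import Pool.Agent.Gen.F5.X12CD3Cm5.S011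
import Pool.Agent.Gen.F5.X12CD3Cm5.S012
import Pool.Agent.Gen.F5.X12CD3Cm5.S013
import Pool.Agent.Gen.F5.X12CD3Cm5.S014
import Pool.Agent.Gen.F5.X12CD3Cm5.S015
import Pool.Agent.Gen.F5.X12CD3Cm5.S016
import Pool.Agent.Gen.F5.X12CD3Cm5.S017
import Pool.Agent.Gen.F5.X12CD3Cm5.S018
import Pool.Agent.Gen.F5.X12CD3Cm5.S019
import Pool.Agent.Gen.F5.X12CD3Cm5.S020
import Pool.Agent.Gen.F5.X12CD3Cm5.S021
import Pool.Agent.Gen.F5.X12CD3Cm5.S022

set_option autoImplicit false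
set_option maxRecDepth 100000

namespace Pool.Agent.Gen.F5.X12CD3Cm5

open Pool.Agent.Helper72.F5

def n0 : Cl (O (nat_lit 5)) (R (nat_lit 14353))
    (p (nat_lit 0x10e8f8f0d8d1a) (nat_lit 0) (p (nat_lit 0xe0f0e8d0c9a) (nat_lit 0) (p (nat_lit 0x10d8d0e0c8c1a) (nat_lit 0) (p (nat_lit 0xd0c8d8c0b9a) (nat_lit 0) (p (nat_lit 0x2680d000002e8488c8d0b8b0a) (nat_lit 0) (p (nat_lit 0x100014) (nat_lit 0) (p (nat_lit 0x80004) (nat_lit 1) (p (nat_lit 0x10800c) (nat_lit 0) (p (nat_lit 0x100004) (nat_lit 0) (p (nat_lit 0x1fc014) (nat_lit 0) (p (nat_lit 0x1fc004) (nat_lit 0) (p (nat_lit 0xb000c) (nat_lit 1) (p (nat_lit 0x380c2) (nat_lit 1) (p (nat_lit 0x3c4aa) (nat_lit 7) (p (nat_lit 0xd1) (nat_lit 1) (p (nat_lit 0x111) (nat_lit 1) (p (nat_lit 0x109) (nat_lit 0) (p (nat_lit 0x101) (nat_lit 0) (p (nat_lit 0x119) (nat_lit 0) (p (nat_lit 0xc1) (nat_lit 0) (p (nat_lit 0x81) (nat_lit 1) (p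 (nat_lit 0x41) (nat_lit 1) (p (nat_lit 0x10a0b0a89089a) (nat_lit 0) (p (nat_lit 0x98a8a08881a) (nat_lit 0) (p (nat_lit 0x109088988079a) (nat_lit 0) (p (nat_lit 0x8880907871a) (nat_lit 0) (p (nat_lit 0x8000000000800080887068a) (nat_lit 0) (p (nat_lit 0x10888068602) (nat_lit 0) (p (nat_lit 0x807860582) (nat_lit 0) (p (nat_lit 0x10607058502) (nat_lit 0) (p (nat_lit 0x586850482) (nat_lit 0) (p (nat_lit 0x16000c) (nat_lit 0) (p (nat_lit 0x68612) (nat_lit 0) (p (nat_lit 0x50592) (nat_lit 0) (p (nat_lit 0x40512) (nat_lit 0) (p (nat_lit 0x50312) (nat_lit 0) (p (nat_lit 0x38292) (nat_lit 0) (p (nat_lit 0x28212) (nat_lit 0) (p (nat_lit 0x38112) (nat_lit 0) (p (nat_lit 0x20092) (nat_lit 0) (p (nat_lit 0x10012) (nat_lit 0) pn))))))))))))))))))))))))))))))))))))))))) :=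
  Cl.node (nat_lit 0xc9) (nat_lit 2) (by decide +kernel) (ClAll.succ (ClAll.succ ClAll.zero s1163) s1164)

def n1 : Cl (O (nat_lit 5)) (R (nat_lit 14353))
    (p (nat_lit 0xe0f0e8d0c9a) (nat_lit 0) (p (nat_lit 0x10d8d0e0c8c1a) (nat_lit 0) (p (nat_lit 0xd0c8d8c0b9a) (nat_lit 0) (p (nat_lit 0x2680d000002e8488c8d0b8b0a) (nat_lit 0) (p (nat_lit 0x100014) (nat_lit 0) (p (nat_lit 0x80004) (nat_lit 1) (p (nat_lit 0x10800c) (nat_lit 0) (p (nat_lit 0x100004) (nat_lit 0) (p (nat_lit 0x1fc014) (nat_lit 0) (p (nat_lit 0x1fc004) (nat_lit 0) (p (nat_lit 0xb000c) (nat_lit 1) (p (nat_lit 0x380c2) (nat_lit 1) (p (nat_lit 0x3c4aa) (nat_lit 7) (p (nat_lit 0xd1) (nat_lit 1) (p (nat_lit 0x111) (nat_lit 1) (p (nat_lit 0x109) (nat_lit 0) (p (nat_lit 0x101) (nat_lit 0) (p (nat_lit 0x119) (nat_lit 0) (p (nat_lit 0xc1) (nat_lit 0) (p (nat_lit 0x81) (nat_lit 1) (p (nat_lit 0x41) (nat_lit 1) (p (nat_lit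 0x10a0b0a89089a) (nat_lit 0) (p (nat_lit 0x98a8a08881a) (nat_lit 0) (p (nat_lit 0x109088988079a) (nat_lit 0) (p (nat_lit 0x8880907871a) (nat_lit 0) (p (nat_lit 0x8000000000800080887068a) (nat_lit 0) (p (nat_lit 0x10888068602) (nat_lit 0) (p (nat_lit 0x807860582) (nat_lit 0) (p (nat_lit 0x10607058502) (nat_lit 0) (p (nat_lit 0x586850482) (nat_lit 0) (p (nat_lit 0x16000c) (nat_lit 0) (p (nat_lit 0x68612) (nat_lit 0) (p (nat_lit 0x50592) (nat_lit 0) (p (nat_lit 0x40512) (nat_lit 0) (p (nat_lit 0x50312) (nat_lit 0) (p (nat_lit 0x38292) (nat_lit 0) (p (nat_lit 0x28212) (nat_lit 0) (p (nat_lit 0x38112) (nat_lit 0) (p (nat_lit 0x20092) (nat_lit 0) (p (nat_lit 0x10012) (nat_lit 0) pn)))))))))))))))))))))))))))))))))))))))) :=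
  Cl.node (nat_lit 0x10e8f8f0d8d1a) (nat_lit 1) (by decide +kernel) (ClAll.succ ClAll.zero n0)

def n2 : Cl (O (nat_lit 5)) (R (nat_lit 14353))
    (p (nat_lit 0x10d8d0e0c8c1a) (nat_lit 0) (p (nat_lit 0xd0c8d8c0b9a) (nat_lit 0) (p (nat_lit 0x2680d000002e8488c8d0b8b0a) (nat_lit 0) (p (nat_lit 0x100014) (nat_lit 0) (p (nat_lit 0x80004) (nat_lit 1) (p (nat_lit 0x10800c) (nat_lit 0) (p (nat_lit 0x100004) (nat_lit 0) (p (nat_lit 0x1fc014) (nat_lit 0) (p (nat_lit 0x1fc004) (nat_lit 0) (p (nat_lit 0xb000c) (nat_lit 1) (p (nat_lit 0x380c2) (nat_lit 1) (p (nat_lit 0x3c4aa) (nat_lit 7) (p (nat_lit 0xd1) (nat_lit 1) (p (nat_lit 0x111) (nat_lit 1) (p (nat_lit 0x109) (nat_lit 0) (p (nat_lit 0x101) (nat_lit 0) (p (nat_lit 0x119) (nat_lit 0) (p (nat_lit 0xc1) (nat_lit 0) (p (nat_lit 0x81) (nat_lit 1) (p (nat_lit 0x41) (nat_lit 1) (p (nat_lit 0x10a0b0a89089a) (nat_lit 0) (p (nat_lit 0x98a8a08881a)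 (nat_lit 0) (p (nat_lit 0x109088988079a) (nat_lit 0) (p (nat_lit 0x8880907871a) (nat_lit 0) (p (nat_lit 0x8000000000800080887068a) (nat_lit 0) (p (nat_lit 0x10888068602) (nat_lit 0) (p (nat_lit 0x807860582) (nat_lit 0) (p (nat_lit 0x10607058502) (nat_lit 0) (p (nat_lit 0x586850482) (nat_lit 0) (p (nat_lit 0x16000c) (nat_lit 0) (p (nat_lit 0x68612) (nat_lit 0) (p (nat_lit 0x50592) (nat_lit 0) (p (nat_lit 0x40512) (nat_lit 0) (p (nat_lit 0x50312) (nat_lit 0) (p (nat_lit 0x38292) (nat_lit 0) (p (nat_lit 0x28212) (nat_lit 0) (p (nat_lit 0x38112) (nat_lit 0) (p (nat_lit 0x20092) (nat_lit 0) (p (nat_lit 0x10012) (nat_lit 0) pn))))))))))))))))))))))))))))))))))))))) :=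
  Cl.node (nat_lit 0xe0f0e8d0c9a) (nat_lit 1) (by decide +kernel) (ClAll.succ ClAll.zero n1)

def n3 : Cl (O (nat_lit 5)) (R (nat_lit 14353))
    (p (nat_lit 0x10e8f8f0d8d1a) (nat_lit 0) (p (nat_lit 0xe0f0e8d0c9a) (nat_lit 0) (p (nat_lit 0x10d8d0e0c8c1a) (nat_lit 0) (p (nat_lit 0xd0c8d8c0b9a) (nat_lit 0) (p (nat_lit 0x2680d000002680d0c8d0b8b0a) (nat_lit 0) (p (nat_lit 0x100014) (nat_lit 0) (p (nat_lit 0x10800c) (nat_lit 0) (p (nat_lit 0x100004) (nat_lit 0) (p (nat_lit 0x1fc014) (nat_lit 0) (p (nat_lit 0x1fc004) (nat_lit 0) (p (nat_lit 0xb000c) (nat_lit 1) (p (nat_lit 0x380c2) (nat_lit 1) (p (nat_lit 0x3c4aa) (nat_lit 7) (p (nat_lit 0xd1) (nat_lit 1) (p (nat_lit 0xc9) (nat_lit 0) (p (nat_lit 0x101) (nat_lit 1) (p (nat_lit 0x119) (nat_lit 0) (p (nat_lit 0xc1) (nat_lit 0) (p (nat_lit 0x81) (nat_lit 1) (p (nat_lit 0x41) (nat_lit 1) (p (nat_lit 0x10a0b0a89089a) (nat_lit 0) (p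 (nat_lit 0x98a8a08881a) (nat_lit 0) (p (nat_lit 0x109088988079a) (nat_lit 0) (p (nat_lit 0x8880907871a) (nat_lit 0) (p (nat_lit 0x8000000000800080887068a) (nat_lit 0) (p (nat_lit 0x10888068602) (nat_lit 0) (p (nat_lit 0x807860582) (nat_lit 0) (p (nat_lit 0x10607058502) (nat_lit 0) (p (nat_lit 0x586850482) (nat_lit 0) (p (nat_lit 0x16000c) (nat_lit 0) (p (nat_lit 0x68612) (nat_lit 0) (p (nat_lit 0x50592) (nat_lit 0) (p (nat_lit 0x40512) (nat_lit 0) (p (nat_lit 0x50312) (nat_lit 0) (p (nat_lit 0x38292) (nat_lit 0) (p (nat_lit 0x28212) (nat_lit 0) (p (nat_lit 0x38112) (nat_lit 0) (p (nat_lit 0x20092) (nat_lit 0) (p (nat_lit 0x10012) (nat_lit 0) pn))))))))))))))))))))))))))))))))))))))) :=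
  Cl.node (nat_lit 0x111) (nat_lit 2) (by decide +kernel) (ClAll.succ (ClAll.succ ClAll.zero s1272) s1273)

def n4 : Cl (O (nat_lit 5)) (R (nat_lit 14353))
    (p (nat_lit 0x10e8f8f0d8d1a) (nat_lit 0) (p (nat_lit 0xe0f0e8d0c9a) (nat_lit 0) (p (nat_lit 0x10d8d0e0c8c1a) (nat_lit 0) (p (nat_lit 0xd0c8d8c0b9a) (nat_lit 0) (p (nat_lit 0x2a82580000228010c8d0b8b0a) (nat_lit 0) (p (nat_lit 0x80004) (nat_lit 0) (p (nat_lit 0x100004) (nat_lit 0) (p (nat_lit 0x1fc014) (nat_lit 0) (p (nat_lit 0x1fc004) (nat_lit 0) (p (nat_lit 0xb000c) (nat_lit 1) (p (nat_lit 0x380c2) (nat_lit 0) (p (nat_lit 0x444aa) (nat_lit 7) (p (nat_lit 0x111) (nat_lit 1) (p (nat_lit 0xd1) (nat_lit 1) (p (nat_lit 0xc1) (nat_lit 0) (p (nat_lit 0x119) (nat_lit 1) (p (nat_lit 0xc9) (nat_lit 0) (p (nat_lit 0x89) (nat_lit 1) (p (nat_lit 0x41) (nat_lit 0) (p (nat_lit 0x10a0b0a89089a) (nat_lit 0) (p (nat_lit 0x98a8a08881a)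 (nat_lit 0) (p (nat_lit 0x109088988079a) (nat_lit 0) (p (nat_lit 0x8880907871a) (nat_lit 0) (p (nat_lit 0x8000000000800080887068a) (nat_lit 0) (p (nat_lit 0x10888068602) (nat_lit 0) (p (nat_lit 0x807860582) (nat_lit 0) (p (nat_lit 0x10607058502) (nat_lit 0) (p (nat_lit 0x586850482) (nat_lit 0) (p (nat_lit 0x16000c) (nat_lit 0) (p (nat_lit 0x68612) (nat_lit 0) (p (nat_lit 0x50592) (nat_lit 0) (p (nat_lit 0x40512) (nat_lit 0) (p (nat_lit 0x50312) (nat_lit 0) (p (nat_lit 0x38292) (nat_lit 0) (p (nat_lit 0x28212) (nat_lit 0) (p (nat_lit 0x38112) (nat_lit 0) (p (nat_lit 0x20092) (nat_lit 0) (p (nat_lit 0x10012) (nat_lit 0) pn)))))))))))))))))))))))))))))))))))))) :=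
  Cl.node (nat_lit 0x101) (nat_lit 2) (by decide +kernel) (ClAll.succ (ClAll.succ ClAll.zero s496) s497)

def n5 : Cl (O (nat_lit 5)) (R (nat_lit 14353))
    (p (nat_lit 0xd0c8d8c0b9a) (nat_lit 0) (p (nat_lit 0x2680d000002e8488c8d0b8b0a) (nat_lit 0) (p (nat_lit 0x100014) (nat_lit 0) (p (nat_lit 0x80004) (nat_lit 1) (p (nat_lit 0x10800c) (nat_lit 0) (p (nat_lit 0x100004) (nat_lit 0) (p (nat_lit 0x1fc014) (nat_lit 0) (p (nat_lit 0x1fc004) (nat_lit 0) (p (nat_lit 0xb000c) (nat_lit 1) (p (nat_lit 0x380c2) (nat_lit 1) (p (nat_lit 0x3c4aa) (nat_lit 7) (p (nat_lit 0xd1) (nat_lit 1) (p (nat_lit 0x111) (nat_lit 1) (p (nat_lit 0x109) (nat_lit 0) (p (nat_lit 0x101) (nat_lit 0) (p (nat_lit 0x119) (nat_lit 0) (p (nat_lit 0xc1) (nat_lit 0) (p (nat_lit 0x81) (nat_lit 1) (p (nat_lit 0x41) (nat_lit 1) (p (nat_lit 0x10a0b0a89089a) (nat_lit 0) (p (nat_lit 0x98a8a08881a) (nat_lit 0) (p (nat_lit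 0x109088988079a) (nat_lit 0) (p (nat_lit 0x8880907871a) (nat_lit 0) (p (nat_lit 0x8000000000800080887068a) (nat_lit 0) (p (nat_lit 0x10888068602) (nat_lit 0) (p (nat_lit 0x807860582) (nat_lit 0) (p (nat_lit 0x10607058502) (nat_lit 0) (p (nat_lit 0x586850482) (nat_lit 0) (p (nat_lit 0x16000c) (nat_lit 0) (p (nat_lit 0x68612) (nat_lit 0) (p (nat_lit 0x50592) (nat_lit 0) (p (nat_lit 0x40512) (nat_lit 0) (p (nat_lit 0x50312) (nat_lit 0) (p (nat_lit 0x38292) (nat_lit 0) (p (nat_lit 0x28212) (nat_lit 0) (p (nat_lit 0x38112) (nat_lit 0) (p (nat_lit 0x20092) (nat_lit 0) (p (nat_lit 0x10012) (nat_lit 0) pn)))))))))))))))))))))))))))))))))))))) :=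
  Cl.node (nat_lit 0x10d8d0e0c8c1a) (nat_lit 1) (by decide +kernel) (ClAll.succ ClAll.zero n2)

def n6 : Cl (O (nat_lit 5)) (R (nat_lit 14353))
    (p (nat_lit 0xe0f0e8d0c9a) (nat_lit 0) (p (nat_lit 0x10d8d0e0c8c1a) (nat_lit 0) (p (nat_lit 0xd0c8d8c0b9a) (nat_lit 0) (p (nat_lit 0x2680d000002680d0c8d0b8b0a) (nat_lit 0) (p (nat_lit 0x100014) (nat_lit 0) (p (nat_lit 0x10800c) (nat_lit 0) (p (nat_lit 0x100004) (nat_lit 0) (p (nat_lit 0x1fc014) (nat_lit 0) (p (nat_lit 0x1fc004) (nat_lit 0) (p (nat_lit 0xb000c) (nat_lit 1) (p (nat_lit 0x380c2) (nat_lit 1) (p (nat_lit 0x3c4aa) (nat_lit 7) (p (nat_lit 0xd1) (nat_lit 1) (p (nat_lit 0xc9) (nat_lit 0) (p (nat_lit 0x101) (nat_lit 1) (p (nat_lit 0x119) (nat_lit 0) (p (nat_lit 0xc1) (nat_lit 0) (p (nat_lit 0x81) (nat_lit 1) (p (nat_lit 0x41) (nat_lit 1) (p (nat_lit 0x10a0b0a89089a) (nat_lit 0) (p (nat_lit 0x98a8a08881a) (nat_lit 0) (p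 (nat_lit 0x109088988079a) (nat_lit 0) (p (nat_lit 0x8880907871a) (nat_lit 0) (p (nat_lit 0x8000000000800080887068a) (nat_lit 0) (p (nat_lit 0x10888068602) (nat_lit 0) (p (nat_lit 0x807860582) (nat_lit 0) (p (nat_lit 0x10607058502) (nat_lit 0) (p (nat_lit 0x586850482) (nat_lit 0) (p (nat_lit 0x16000c) (nat_lit 0) (p (nat_lit 0x68612) (nat_lit 0) (p (nat_lit 0x50592) (nat_lit 0) (p (nat_lit 0x40512) (nat_lit 0) (p (nat_lit 0x50312) (nat_lit 0) (p (nat_lit 0x38292) (nat_lit 0) (p (nat_lit 0x28212) (nat_lit 0) (p (nat_lit 0x38112) (nat_lit 0) (p (nat_lit 0x20092) (nat_lit 0) (p (nat_lit 0x10012) (nat_lit 0) pn)))))))))))))))))))))))))))))))))))))) :=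
  Cl.node (nat_lit 0x10e8f8f0d8d1a) (nat_lit 1) (by decide +kernel) (ClAll.succ ClAll.zero n3)

def n7 : Cl (O (nat_lit 5)) (R (nat_lit 14353))
    (p (nat_lit 0xc1) (nat_lit 1) (p (nat_lit 0x200004) (nat_lit 0) (p (nat_lit 0x100014) (nat_lit 0) (p (nat_lit 0xb000c) (nat_lit 0) (p (nat_lit 0x380c2) (nat_lit 0) (p (nat_lit 0x444aa) (nat_lit 7) (p (nat_lit 0xc1) (nat_lit 1) (p (nat_lit 0x200014) (nat_lit 0) (p (nat_lit 0x380c2) (nat_lit 0) (p (nat_lit 0x4c42a) (nat_lit 2) (p (nat_lit 0x111) (nat_lit 0) (p (nat_lit 0xc9) (nat_lit 0) (p (nat_lit 0x81) (nat_lit 0) (p (nat_lit 0x101) (nat_lit 1) (p (nat_lit 0x119) (nat_lit 0) (p (nat_lit 0xd1) (nat_lit 0) (p (nat_lit 0x89) (nat_lit 0) (p (nat_lit 0x41) (nat_lit 0) (p (nat_lit 0x10a0b0a89089a) (nat_lit 0) (p (nat_lit 0x98a8a08881a) (nat_lit 0) (p (nat_lit 0x109088988079a) (nat_lit 0) (p (nat_lit 0x8880907871a) (nat_lit 0) (p (nat_lit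 0x8000000000800080887068a) (nat_lit 0) (p (nat_lit 0x10888068602) (nat_lit 0) (p (nat_lit 0x807860582) (nat_lit 0) (p (nat_lit 0x10607058502) (nat_lit 0) (p (nat_lit 0x586850482) (nat_lit 0) (p (nat_lit 0x16000c) (nat_lit 0) (p (nat_lit 0x68612) (nat_lit 0) (p (nat_lit 0x50592) (nat_lit 0) (p (nat_lit 0x40512) (nat_lit 0) (p (nat_lit 0x50312) (nat_lit 0) (p (nat_lit 0x38292) (nat_lit 0) (p (nat_lit 0x28212) (nat_lit 0) (p (nat_lit 0x38112) (nat_lit 0) (p (nat_lit 0x20092) (nat_lit 0) (p (nat_lit 0x10012) (nat_lit 0) pn))))))))))))))))))))))))))))))))))))) :=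
  Cl.node (nat_lit 0x81) (nat_lit 2) (by decide +kernel) (ClAll.succ (ClAll.succ ClAll.zero s38) s39)

def n8 : Cl (O (nat_lit 5)) (R (nat_lit 14353))
    (p (nat_lit 0xc1) (nat_lit 0) (p (nat_lit 0x100014) (nat_lit 0) (p (nat_lit 0x13400c) (nat_lit 0) (p (nat_lit 0x80004) (nat_lit 1) (p (nat_lit 0x100004) (nat_lit 0) (p (nat_lit 0x1fc014) (nat_lit 0) (p (nat_lit 0x1fc004) (nat_lit 0) (p (nat_lit 0xb000c) (nat_lit 1) (p (nat_lit 0x380c2) (nat_lit 0) (p (nat_lit 0x444aa) (nat_lit 7) (p (nat_lit 0xd1) (nat_lit 1) (p (nat_lit 0x111) (nat_lit 1) (p (nat_lit 0x109) (nat_lit 0) (p (nat_lit 0x101) (nat_lit 0) (p (nat_lit 0x119) (nat_lit 0) (p (nat_lit 0xc9) (nat_lit 0) (p (nat_lit 0x89) (nat_lit 1) (p (nat_lit 0x41) (nat_lit 0) (p (nat_lit 0x10a0b0a89089a) (nat_lit 0) (p (nat_lit 0x98a8a08881a) (nat_lit 0) (p (nat_lit 0x109088988079a) (nat_lit 0) (p (nat_lit 0x8880907871a) (nat_lit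 0) (p (nat_lit 0x8000000000800080887068a) (nat_lit 0) (p (nat_lit 0x10888068602) (nat_lit 0) (p (nat_lit 0x807860582) (nat_lit 0) (p (nat_lit 0x10607058502) (nat_lit 0) (p (nat_lit 0x586850482) (nat_lit 0) (p (nat_lit 0x16000c) (nat_lit 0) (p (nat_lit 0x68612) (nat_lit 0) (p (nat_lit 0x50592) (nat_lit 0) (p (nat_lit 0x40512) (nat_lit 0) (p (nat_lit 0x50312) (nat_lit 0) (p (nat_lit 0x38292) (nat_lit 0) (p (nat_lit 0x28212) (nat_lit 0) (p (nat_lit 0x38112) (nat_lit 0) (p (nat_lit 0x20092) (nat_lit 0) (p (nat_lit 0x10012) (nat_lit 0) pn))))))))))))))))))))))))))))))))))))) :=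
  Cl.node (nat_lit 0xf400c) (nat_lit 2) (by decide +kernel) (ClAll.succ (ClAll.succ ClAll.zero s368) s369)

def n9 : Cl (O (nat_lit 5)) (R (nat_lit 14353))
    (p (nat_lit 0x10e8f8f0d8d1a) (nat_lit 0) (p (nat_lit 0xe0f0e8d0c9a) (nat_lit 0) (p (nat_lit 0x10d8d0e0c8c1a) (nat_lit 0) (p (nat_lit 0xd0c8d8c0b9a) (nat_lit 0) (p (nat_lit 0x2a825800002680d0c8d0b8b0a) (nat_lit 0) (p (nat_lit 0x100004) (nat_lit 0) (p (nat_lit 0x1fc014) (nat_lit 0) (p (nat_lit 0x1fc004) (nat_lit 0) (p (nat_lit 0xb000c) (nat_lit 1) (p (nat_lit 0x380c2) (nat_lit 0) (p (nat_lit 0x444aa) (nat_lit 7) (p (nat_lit 0xd1) (nat_lit 1) (p (nat_lit 0x109) (nat_lit 1) (p (nat_lit 0x101) (nat_lit 0) (p (nat_lit 0x119) (nat_lit 0) (p (nat_lit 0xc9) (nat_lit 0) (p (nat_lit 0x89) (nat_lit 1) (p (nat_lit 0x41) (nat_lit 0) (p (nat_lit 0x10a0b0a89089a) (nat_lit 0) (p (nat_lit 0x98a8a08881a) (nat_lit 0) (p (nat_lit 0x109088988079a)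 (nat_lit 0) (p (nat_lit 0x8880907871a) (nat_lit 0) (p (nat_lit 0x8000000000800080887068a) (nat_lit 0) (p (nat_lit 0x10888068602) (nat_lit 0) (p (nat_lit 0x807860582) (nat_lit 0) (p (nat_lit 0x10607058502) (nat_lit 0) (p (nat_lit 0x586850482) (nat_lit 0) (p (nat_lit 0x16000c) (nat_lit 0) (p (nat_lit 0x68612) (nat_lit 0) (p (nat_lit 0x50592) (nat_lit 0) (p (nat_lit 0x40512) (nat_lit 0) (p (nat_lit 0x50312) (nat_lit 0) (p (nat_lit 0x38292) (nat_lit 0) (p (nat_lit 0x28212) (nat_lit 0) (p (nat_lit 0x38112) (nat_lit 0) (p (nat_lit 0x20092) (nat_lit 0) (p (nat_lit 0x10012) (nat_lit 0) pn))))))))))))))))))))))))))))))))))))) :=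
  Cl.node (nat_lit 0xc1) (nat_lit 2) (by decide +kernel) (ClAll.succ (ClAll.succ ClAll.zero s434) s435)

def n10 : Cl (O (nat_lit 5)) (R (nat_lit 14353))
    (p (nat_lit 0xe0f0e8d0c9a) (nat_lit 0) (p (nat_lit 0x10d8d0e0c8c1a) (nat_lit 0) (p (nat_lit 0xd0c8d8c0b9a) (nat_lit 0) (p (nat_lit 0x2a82580000228010c8d0b8b0a) (nat_lit 0) (p (nat_lit 0x80004) (nat_lit 0) (p (nat_lit 0x100004) (nat_lit 0) (p (nat_lit 0x1fc014) (nat_lit 0) (p (nat_lit 0x1fc004) (nat_lit 0) (p (nat_lit 0xb000c) (nat_lit 1) (p (nat_lit 0x380c2) (nat_lit 0) (p (nat_lit 0x444aa) (nat_lit 7) (p (nat_lit 0x111) (nat_lit 1) (p (nat_lit 0xd1) (nat_lit 1) (p (nat_lit 0xc1) (nat_lit 0) (p (nat_lit 0x119) (nat_lit 1) (p (nat_lit 0xc9) (nat_lit 0) (p (nat_lit 0x89) (nat_lit 1) (p (nat_lit 0x41) (nat_lit 0) (p (nat_lit 0x10a0b0a89089a) (nat_lit 0) (p (nat_lit 0x98a8a08881a) (nat_lit 0) (p (nat_lit 0x109088988079a)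 (nat_lit 0) (p (nat_lit 0x8880907871a) (nat_lit 0) (p (nat_lit 0x8000000000800080887068a) (nat_lit 0) (p (nat_lit 0x10888068602) (nat_lit 0) (p (nat_lit 0x807860582) (nat_lit 0) (p (nat_lit 0x10607058502) (nat_lit 0) (p (nat_lit 0x586850482) (nat_lit 0) (p (nat_lit 0x16000c) (nat_lit 0) (p (nat_lit 0x68612) (nat_lit 0) (p (nat_lit 0x50592) (nat_lit 0) (p (nat_lit 0x40512) (nat_lit 0) (p (nat_lit 0x50312) (nat_lit 0) (p (nat_lit 0x38292) (nat_lit 0) (p (nat_lit 0x28212) (nat_lit 0) (p (nat_lit 0x38112) (nat_lit 0) (p (nat_lit 0x20092) (nat_lit 0) (p (nat_lit 0x10012) (nat_lit 0) pn))))))))))))))))))))))))))))))))))))) :=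
  Cl.node (nat_lit 0x10e8f8f0d8d1a) (nat_lit 1) (by decide +kernel) (ClAll.succ ClAll.zero n4)

def n11 : Cl (O (nat_lit 5)) (R (nat_lit 14353))
    (p (nat_lit 0x10e8f8f0d8d1a) (nat_lit 0) (p (nat_lit 0xe0f0e8d0c9a) (nat_lit 0) (p (nat_lit 0x10d8d0e0c8c1a) (nat_lit 0) (p (nat_lit 0xd0c8d8c0b9a) (nat_lit 0) (p (nat_lit 0x2a825800002680d0c8d0b8b0a) (nat_lit 0) (p (nat_lit 0x1fc014) (nat_lit 0) (p (nat_lit 0xb000c) (nat_lit 1) (p (nat_lit 0x100004) (nat_lit 0) (p (nat_lit 0x200004) (nat_lit 0) (p (nat_lit 0x380c2) (nat_lit 1) (p (nat_lit 0x3c4aa) (nat_lit 7) (p (nat_lit 0x89) (nat_lit 1) (p (nat_lit 0x101) (nat_lit 1) (p (nat_lit 0xc1) (nat_lit 1) (p (nat_lit 0x119) (nat_lit 1) (p (nat_lit 0xd1) (nat_lit 0) (p (nat_lit 0x81) (nat_lit 0) (p (nat_lit 0x41) (nat_lit 1) (p (nat_lit 0x10a0b0a89089a) (nat_lit 0) (p (nat_lit 0x98a8a08881a) (nat_lit 0) (p (nat_lit 0x109088988079a)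 (nat_lit 0) (p (nat_lit 0x8880907871a) (nat_lit 0) (p (nat_lit 0x8000000000800080887068a) (nat_lit 0) (p (nat_lit 0x10888068602) (nat_lit 0) (p (nat_lit 0x807860582) (nat_lit 0) (p (nat_lit 0x10607058502) (nat_lit 0) (p (nat_lit 0x586850482) (nat_lit 0) (p (nat_lit 0x16000c) (nat_lit 0) (p (nat_lit 0x68612) (nat_lit 0) (p (nat_lit 0x50592) (nat_lit 0) (p (nat_lit 0x40512) (nat_lit 0) (p (nat_lit 0x50312) (nat_lit 0) (p (nat_lit 0x38292) (nat_lit 0) (p (nat_lit 0x28212) (nat_lit 0) (p (nat_lit 0x38112) (nat_lit 0) (p (nat_lit 0x20092) (nat_lit 0) (p (nat_lit 0x10012) (nat_lit 0) pn))))))))))))))))))))))))))))))))))))) :=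
  Cl.node (nat_lit 0x81) (nat_lit 2) (by decide +kernel) (ClAll.succ (ClAll.succ ClAll.zero s925) s926)

def n12 : Cl (O (nat_lit 5)) (R (nat_lit 14353))
    (p (nat_lit 0x111) (nat_lit 1) (p (nat_lit 0x100004) (nat_lit 0) (p (nat_lit 0x101) (nat_lit 0) (p (nat_lit 0x200004) (nat_lit 0) (p (nat_lit 0x380c2) (nat_lit 0) (p (nat_lit 0x3cc2a) (nat_lit 0) (p (nat_lit 0xc9) (nat_lit 0) (p (nat_lit 0xb000c) (nat_lit 0) (p (nat_lit 0x380c2) (nat_lit 1) (p (nat_lit 0x3c4aa) (nat_lit 7) (p (nat_lit 0xd1) (nat_lit 1) (p (nat_lit 0x111) (nat_lit 1) (p (nat_lit 0x109) (nat_lit 0) (p (nat_lit 0x101) (nat_lit 0) (p (nat_lit 0x119) (nat_lit 0) (p (nat_lit 0xc1) (nat_lit 0) (p (nat_lit 0x81) (nat_lit 1) (p (nat_lit 0x41) (nat_lit 1) (p (nat_lit 0x10a0b0a89089a) (nat_lit 0) (p (nat_lit 0x98a8a08881a) (nat_lit 0) (p (nat_lit 0x109088988079a) (nat_lit 0) (p (nat_lit 0x8880907871a) (nat_lit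 0) (p (nat_lit 0x8000000000800080887068a) (nat_lit 0) (p (nat_lit 0x10888068602) (nat_lit 0) (p (nat_lit 0x807860582) (nat_lit 0) (p (nat_lit 0x10607058502) (nat_lit 0) (p (nat_lit 0x586850482) (nat_lit 0) (p (nat_lit 0x16000c) (nat_lit 0) (p (nat_lit 0x68612) (nat_lit 0) (p (nat_lit 0x50592) (nat_lit 0) (p (nat_lit 0x40512) (nat_lit 0) (p (nat_lit 0x50312) (nat_lit 0) (p (nat_lit 0x38292) (nat_lit 0) (p (nat_lit 0x28212) (nat_lit 0) (p (nat_lit 0x38112) (nat_lit 0) (p (nat_lit 0x20092) (nat_lit 0) (p (nat_lit 0x10012) (nat_lit 0) pn))))))))))))))))))))))))))))))))))))) :=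
  Cl.node (nat_lit 0x101) (nat_lit 2) (by decide +kernel) (ClAll.succ (ClAll.succ ClAll.zero s1142) s1143)

def n13 : Cl (O (nat_lit 5)) (R (nat_lit 14353))
    (p (nat_lit 0x2680d000002e8488c8d0b8b0a) (nat_lit 0) (p (nat_lit 0x100014) (nat_lit 0) (p (nat_lit 0x80004) (nat_lit 1) (p (nat_lit 0x10800c) (nat_lit 0) (p (nat_lit 0x100004) (nat_lit 0) (p (nat_lit 0x1fc014) (nat_lit 0) (p (nat_lit 0x1fc004) (nat_lit 0) (p (nat_lit 0xb000c) (nat_lit 1) (p (nat_lit 0x380c2) (nat_lit 1) (p (nat_lit 0x3c4aa) (nat_lit 7) (p (nat_lit 0xd1) (nat_lit 1) (p (nat_lit 0x111) (nat_lit 1) (p (nat_lit 0x109) (nat_lit 0) (p (nat_lit 0x101) (nat_lit 0) (p (nat_lit 0x119) (nat_lit 0) (p (nat_lit 0xc1) (nat_lit 0) (p (nat_lit 0x81) (nat_lit 1) (p (nat_lit 0x41) (nat_lit 1) (p (nat_lit 0x10a0b0a89089a) (nat_lit 0) (p (nat_lit 0x98a8a08881a) (nat_lit 0) (p (nat_lit 0x109088988079a) (nat_lit 0) (p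 (nat_lit 0x8880907871a) (nat_lit 0) (p (nat_lit 0x8000000000800080887068a) (nat_lit 0) (p (nat_lit 0x10888068602) (nat_lit 0) (p (nat_lit 0x807860582) (nat_lit 0) (p (nat_lit 0x10607058502) (nat_lit 0) (p (nat_lit 0x586850482) (nat_lit 0) (p (nat_lit 0x16000c) (nat_lit 0) (p (nat_lit 0x68612) (nat_lit 0) (p (nat_lit 0x50592) (nat_lit 0) (p (nat_lit 0x40512) (nat_lit 0) (p (nat_lit 0x50312) (nat_lit 0) (p (nat_lit 0x38292) (nat_lit 0) (p (nat_lit 0x28212) (nat_lit 0) (p (nat_lit 0x38112) (nat_lit 0) (p (nat_lit 0x20092) (nat_lit 0) (p (nat_lit 0x10012) (nat_lit 0) pn))))))))))))))))))))))))))))))))))))) :=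
  Cl.node (nat_lit 0xd0c8d8c0b9a) (nat_lit 1) (by decide +kernel) (ClAll.succ ClAll.zero n5)

def n14 : Cl (O (nat_lit 5)) (R (nat_lit 14353))
    (p (nat_lit 0x10d8d0e0c8c1a) (nat_lit 0) (p (nat_lit 0xd0c8d8c0b9a) (nat_lit 0) (p (nat_lit 0x2680d000002680d0c8d0b8b0a) (nat_lit 0) (p (nat_lit 0x100014) (nat_lit 0) (p (nat_lit 0x10800c) (nat_lit 0) (p (nat_lit 0x100004) (nat_lit 0) (p (nat_lit 0x1fc014) (nat_lit 0) (p (nat_lit 0x1fc004) (nat_lit 0) (p (nat_lit 0xb000c) (nat_lit 1) (p (nat_lit 0x380c2) (nat_lit 1) (p (nat_lit 0x3c4aa) (nat_lit 7) (p (nat_lit 0xd1) (nat_lit 1) (p (nat_lit 0xc9) (nat_lit 0) (p (nat_lit 0x101) (nat_lit 1) (p (nat_lit 0x119) (nat_lit 0) (p (nat_lit 0xc1) (nat_lit 0) (p (nat_lit 0x81) (nat_lit 1) (p (nat_lit 0x41) (nat_lit 1) (p (nat_lit 0x10a0b0a89089a) (nat_lit 0) (p (nat_lit 0x98a8a08881a) (nat_lit 0) (p (nat_lit 0x109088988079a) (nat_lit 0) (p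 (nat_lit 0x8880907871a) (nat_lit 0) (p (nat_lit 0x8000000000800080887068a) (nat_lit 0) (p (nat_lit 0x10888068602) (nat_lit 0) (p (nat_lit 0x807860582) (nat_lit 0) (p (nat_lit 0x10607058502) (nat_lit 0) (p (nat_lit 0x586850482) (nat_lit 0) (p (nat_lit 0x16000c) (nat_lit 0) (p (nat_lit 0x68612) (nat_lit 0) (p (nat_lit 0x50592) (nat_lit 0) (p (nat_lit 0x40512) (nat_lit 0) (p (nat_lit 0x50312) (nat_lit 0) (p (nat_lit 0x38292) (nat_lit 0) (p (nat_lit 0x28212) (nat_lit 0) (p (nat_lit 0x38112) (nat_lit 0) (p (nat_lit 0x20092) (nat_lit 0) (p (nat_lit 0x10012) (nat_lit 0) pn))))))))))))))))))))))))))))))))))))) :=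
  Cl.node (nat_lit 0xe0f0e8d0c9a) (nat_lit 1) (by decide +kernel) (ClAll.succ ClAll.zero n6)

def n15 : Cl (O (nat_lit 5)) (R (nat_lit 14353))
    (p (nat_lit 0x200004) (nat_lit 0) (p (nat_lit 0x100014) (nat_lit 0) (p (nat_lit 0xb000c) (nat_lit 0) (p (nat_lit 0x380c2) (nat_lit 0) (p (nat_lit 0x444aa) (nat_lit 7) (p (nat_lit 0xc1) (nat_lit 1) (p (nat_lit 0x200014) (nat_lit 0) (p (nat_lit 0x380c2) (nat_lit 0) (p (nat_lit 0x4c42a) (nat_lit 2) (p (nat_lit 0x111) (nat_lit 0) (p (nat_lit 0xc9) (nat_lit 0) (p (nat_lit 0x81) (nat_lit 0) (p (nat_lit 0x101) (nat_lit 1) (p (nat_lit 0x119) (nat_lit 0) (p (nat_lit 0xd1) (nat_lit 0) (p (nat_lit 0x89) (nat_lit 0) (p (nat_lit 0x41) (nat_lit 0) (p (nat_lit 0x10a0b0a89089a) (nat_lit 0) (p (nat_lit 0x98a8a08881a) (nat_lit 0) (p (nat_lit 0x109088988079a) (nat_lit 0) (p (nat_lit 0x8880907871a) (nat_lit 0) (p (nat_lit 0x8000000000800080887068a)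 (nat_lit 0) (p (nat_lit 0x10888068602) (nat_lit 0) (p (nat_lit 0x807860582) (nat_lit 0) (p (nat_lit 0x10607058502) (nat_lit 0) (p (nat_lit 0x586850482) (nat_lit 0) (p (nat_lit 0x16000c) (nat_lit 0) (p (nat_lit 0x68612) (nat_lit 0) (p (nat_lit 0x50592) (nat_lit 0) (p (nat_lit 0x40512) (nat_lit 0) (p (nat_lit 0x50312) (nat_lit 0) (p (nat_lit 0x38292) (nat_lit 0) (p (nat_lit 0x28212) (nat_lit 0) (p (nat_lit 0x38112) (nat_lit 0) (p (nat_lit 0x20092) (nat_lit 0) (p (nat_lit 0x10012) (nat_lit 0) pn)))))))))))))))))))))))))))))))))))) :=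
  Cl.node (nat_lit 0xc1) (nat_lit 2) (by decide +kernel) (ClAll.succ (ClAll.succ ClAll.zero s37) n7)

def n16 : Cl (O (nat_lit 5)) (R (nat_lit 14353))
    (p (nat_lit 0x100014) (nat_lit 0) (p (nat_lit 0x13400c) (nat_lit 0) (p (nat_lit 0x80004) (nat_lit 1) (p (nat_lit 0x100004) (nat_lit 0) (p (nat_lit 0x1fc014) (nat_lit 0) (p (nat_lit 0x1fc004) (nat_lit 0) (p (nat_lit 0xb000c) (nat_lit 1) (p (nat_lit 0x380c2) (nat_lit 0) (p (nat_lit 0x444aa) (nat_lit 7) (p (nat_lit 0xd1) (nat_lit 1) (p (nat_lit 0x111) (nat_lit 1) (p (nat_lit 0x109) (nat_lit 0) (p (nat_lit 0x101) (nat_lit 0) (p (nat_lit 0x119) (nat_lit 0) (p (nat_lit 0xc9) (nat_lit 0) (p (nat_lit 0x89) (nat_lit 1) (p (nat_lit 0x41) (nat_lit 0) (p (nat_lit 0x10a0b0a89089a) (nat_lit 0) (p (nat_lit 0x98a8a08881a) (nat_lit 0) (p (nat_lit 0x109088988079a) (nat_lit 0) (p (nat_lit 0x8880907871a) (nat_lit 0) (p (nat_lit 0x8000000000800080887068a)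 (nat_lit 0) (p (nat_lit 0x10888068602) (nat_lit 0) (p (nat_lit 0x807860582) (nat_lit 0) (p (nat_lit 0x10607058502) (nat_lit 0) (p (nat_lit 0x586850482) (nat_lit 0) (p (nat_lit 0x16000c) (nat_lit 0) (p (nat_lit 0x68612) (nat_lit 0) (p (nat_lit 0x50592) (nat_lit 0) (p (nat_lit 0x40512) (nat_lit 0) (p (nat_lit 0x50312) (nat_lit 0) (p (nat_lit 0x38292) (nat_lit 0) (p (nat_lit 0x28212) (nat_lit 0) (p (nat_lit 0x38112) (nat_lit 0) (p (nat_lit 0x20092) (nat_lit 0) (p (nat_lit 0x10012) (nat_lit 0) pn)))))))))))))))))))))))))))))))))))) :=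
  Cl.node (nat_lit 0xc1) (nat_lit 2) (by decide +kernel) (ClAll.succ (ClAll.succ ClAll.zero n8) s370)

def n17 : Cl (O (nat_lit 5)) (R (nat_lit 14353))
    (p (nat_lit 0xe0f0e8d0c9a) (nat_lit 0) (p (nat_lit 0x10d8d0e0c8c1a) (nat_lit 0) (p (nat_lit 0xd0c8d8c0b9a) (nat_lit 0) (p (nat_lit 0x2a825800002680d0c8d0b8b0a) (nat_lit 0) (p (nat_lit 0x100004) (nat_lit 0) (p (nat_lit 0x1fc014) (nat_lit 0) (p (nat_lit 0x1fc004) (nat_lit 0) (p (nat_lit 0xb000c) (nat_lit 1) (p (nat_lit 0x380c2) (nat_lit 0) (p (nat_lit 0x444aa) (nat_lit 7) (p (nat_lit 0xd1) (nat_lit 1) (p (nat_lit 0x109) (nat_lit 1) (p (nat_lit 0x101) (nat_lit 0) (p (nat_lit 0x119) (nat_lit 0) (p (nat_lit 0xc9) (nat_lit 0) (p (nat_lit 0x89) (nat_lit 1) (p (nat_lit 0x41) (nat_lit 0) (p (nat_lit 0x10a0b0a89089a) (nat_lit 0) (p (nat_lit 0x98a8a08881a) (nat_lit 0) (p (nat_lit 0x109088988079a) (nat_lit 0) (p (nat_lit 0x8880907871a)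 (nat_lit 0) (p (nat_lit 0x8000000000800080887068a) (nat_lit 0) (p (nat_lit 0x10888068602) (nat_lit 0) (p (nat_lit 0x807860582) (nat_lit 0) (p (nat_lit 0x10607058502) (nat_lit 0) (p (nat_lit 0x586850482) (nat_lit 0) (p (nat_lit 0x16000c) (nat_lit 0) (p (nat_lit 0x68612) (nat_lit 0) (p (nat_lit 0x50592) (nat_lit 0) (p (nat_lit 0x40512) (nat_lit 0) (p (nat_lit 0x50312) (nat_lit 0) (p (nat_lit 0x38292) (nat_lit 0) (p (nat_lit 0x28212) (nat_lit 0) (p (nat_lit 0x38112) (nat_lit 0) (p (nat_lit 0x20092) (nat_lit 0) (p (nat_lit 0x10012) (nat_lit 0) pn)))))))))))))))))))))))))))))))))))) :=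
  Cl.node (nat_lit 0x10e8f8f0d8d1a) (nat_lit 1) (by decide +kernel) (ClAll.succ ClAll.zero n9)

def n18 : Cl (O (nat_lit 5)) (R (nat_lit 14353))
    (p (nat_lit 0x10d8d0e0c8c1a) (nat_lit 0) (p (nat_lit 0xd0c8d8c0b9a) (nat_lit 0) (p (nat_lit 0x2a82580000228010c8d0b8b0a) (nat_lit 0) (p (nat_lit 0x80004) (nat_lit 0) (p (nat_lit 0x100004) (nat_lit 0) (p (nat_lit 0x1fc014) (nat_lit 0) (p (nat_lit 0x1fc004) (nat_lit 0) (p (nat_lit 0xb000c) (nat_lit 1) (p (nat_lit 0x380c2) (nat_lit 0) (p (nat_lit 0x444aa) (nat_lit 7) (p (nat_lit 0x111) (nat_lit 1) (p (nat_lit 0xd1) (nat_lit 1) (p (nat_lit 0xc1) (nat_lit 0) (p (nat_lit 0x119) (nat_lit 1) (p (nat_lit 0xc9) (nat_lit 0) (p (nat_lit 0x89) (nat_lit 1) (p (nat_lit 0x41) (nat_lit 0) (p (nat_lit 0x10a0b0a89089a) (nat_lit 0) (p (nat_lit 0x98a8a08881a) (nat_lit 0) (p (nat_lit 0x109088988079a) (nat_lit 0) (p (nat_lit 0x8880907871a) (nat_lit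 0) (p (nat_lit 0x8000000000800080887068a) (nat_lit 0) (p (nat_lit 0x10888068602) (nat_lit 0) (p (nat_lit 0x807860582) (nat_lit 0) (p (nat_lit 0x10607058502) (nat_lit 0) (p (nat_lit 0x586850482) (nat_lit 0) (p (nat_lit 0x16000c) (nat_lit 0) (p (nat_lit 0x68612) (nat_lit 0) (p (nat_lit 0x50592) (nat_lit 0) (p (nat_lit 0x40512) (nat_lit 0) (p (nat_lit 0x50312) (nat_lit 0) (p (nat_lit 0x38292) (nat_lit 0) (p (nat_lit 0x28212) (nat_lit 0) (p (nat_lit 0x38112) (nat_lit 0) (p (nat_lit 0x20092) (nat_lit 0) (p (nat_lit 0x10012) (nat_lit 0) pn)))))))))))))))))))))))))))))))))))) :=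
  Cl.node (nat_lit 0xe0f0e8d0c9a) (nat_lit 1) (by decide +kernel) (ClAll.succ ClAll.zero n10)

def n19 : Cl (O (nat_lit 5)) (R (nat_lit 14353))
    (p (nat_lit 0x100004) (nat_lit 0) (p (nat_lit 0x200004) (nat_lit 0) (p (nat_lit 0x100014) (nat_lit 0) (p (nat_lit 0x111) (nat_lit 1) (p (nat_lit 0x200014) (nat_lit 0) (p (nat_lit 0x380c2) (nat_lit 0) (p (nat_lit 0x44c2a) (nat_lit 0) (p (nat_lit 0x380c2) (nat_lit 0) (p (nat_lit 0x4c42a) (nat_lit 2) (p (nat_lit 0xc9) (nat_lit 0) (p (nat_lit 0x89) (nat_lit 1) (p (nat_lit 0xc1) (nat_lit 0) (p (nat_lit 0x101) (nat_lit 1) (p (nat_lit 0x119) (nat_lit 0) (p (nat_lit 0xd1) (nat_lit 0) (p (nat_lit 0x81) (nat_lit 0) (p (nat_lit 0x41) (nat_lit 1) (p (nat_lit 0x10a0b0a89089a) (nat_lit 0) (p (nat_lit 0x98a8a08881a) (nat_lit 0) (p (nat_lit 0x109088988079a) (nat_lit 0) (p (nat_lit 0x8880907871a) (nat_lit 0) (p (nat_lit 0x8000000000800080887068a)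 (nat_lit 0) (p (nat_lit 0x10888068602) (nat_lit 0) (p (nat_lit 0x807860582) (nat_lit 0) (p (nat_lit 0x10607058502) (nat_lit 0) (p (nat_lit 0x586850482) (nat_lit 0) (p (nat_lit 0x16000c) (nat_lit 0) (p (nat_lit 0x68612) (nat_lit 0) (p (nat_lit 0x50592) (nat_lit 0) (p (nat_lit 0x40512) (nat_lit 0) (p (nat_lit 0x50312) (nat_lit 0) (p (nat_lit 0x38292) (nat_lit 0) (p (nat_lit 0x28212) (nat_lit 0) (p (nat_lit 0x38112) (nat_lit 0) (p (nat_lit 0x20092) (nat_lit 0) (p (nat_lit 0x10012) (nat_lit 0) pn)))))))))))))))))))))))))))))))))))) :=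
  Cl.node (nat_lit 0x80014) (nat_lit 2) (by decide +kernel) (ClAll.succ (ClAll.succ ClAll.zero s661) s662)

def n20 : Cl (O (nat_lit 5)) (R (nat_lit 14353))
    (p (nat_lit 0xe0f0e8d0c9a) (nat_lit 0) (p (nat_lit 0x10d8d0e0c8c1a) (nat_lit 0) (p (nat_lit 0xd0c8d8c0b9a) (nat_lit 0) (p (nat_lit 0x2a825800002680d0c8d0b8b0a) (nat_lit 0) (p (nat_lit 0x1fc014) (nat_lit 0) (p (nat_lit 0xb000c) (nat_lit 1) (p (nat_lit 0x100004) (nat_lit 0) (p (nat_lit 0x200004) (nat_lit 0) (p (nat_lit 0x380c2) (nat_lit 1) (p (nat_lit 0x3c4aa) (nat_lit 7) (p (nat_lit 0x89) (nat_lit 1) (p (nat_lit 0x101) (nat_lit 1) (p (nat_lit 0xc1) (nat_lit 1) (p (nat_lit 0x119) (nat_lit 1) (p (nat_lit 0xd1) (nat_lit 0) (p (nat_lit 0x81) (nat_lit 0) (p (nat_lit 0x41) (nat_lit 1) (p (nat_lit 0x10a0b0a89089a) (nat_lit 0) (p (nat_lit 0x98a8a08881a) (nat_lit 0) (p (nat_lit 0x109088988079a) (nat_lit 0) (p (nat_lit 0x8880907871a)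 (nat_lit 0) (p (nat_lit 0x8000000000800080887068a) (nat_lit 0) (p (nat_lit 0x10888068602) (nat_lit 0) (p (nat_lit 0x807860582) (nat_lit 0) (p (nat_lit 0x10607058502) (nat_lit 0) (p (nat_lit 0x586850482) (nat_lit 0) (p (nat_lit 0x16000c) (nat_lit 0) (p (nat_lit 0x68612) (nat_lit 0) (p (nat_lit 0x50592) (nat_lit 0) (p (nat_lit 0x40512) (nat_lit 0) (p (nat_lit 0x50312) (nat_lit 0) (p (nat_lit 0x38292) (nat_lit 0) (p (nat_lit 0x28212) (nat_lit 0) (p (nat_lit 0x38112) (nat_lit 0) (p (nat_lit 0x20092) (nat_lit 0) (p (nat_lit 0x10012) (nat_lit 0) pn)))))))))))))))))))))))))))))))))))) :=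
  Cl.node (nat_lit 0x10e8f8f0d8d1a) (nat_lit 1) (by decide +kernel) (ClAll.succ ClAll.zero n11)

def n21 : Cl (O (nat_lit 5)) (R (nat_lit 14353))
    (p (nat_lit 0x100004) (nat_lit 0) (p (nat_lit 0x101) (nat_lit 0) (p (nat_lit 0x200004) (nat_lit 0) (p (nat_lit 0x380c2) (nat_lit 0) (p (nat_lit 0x3cc2a) (nat_lit 0) (p (nat_lit 0xc9) (nat_lit 0) (p (nat_lit 0xb000c) (nat_lit 0) (p (nat_lit 0x380c2) (nat_lit 1) (p (nat_lit 0x3c4aa) (nat_lit 7) (p (nat_lit 0xd1) (nat_lit 1) (p (nat_lit 0x111) (nat_lit 1) (p (nat_lit 0x109) (nat_lit 0) (p (nat_lit 0x101) (nat_lit 0) (p (nat_lit 0x119) (nat_lit 0) (p (nat_lit 0xc1) (nat_lit 0) (p (nat_lit 0x81) (nat_lit 1) (p (nat_lit 0x41) (nat_lit 1) (p (nat_lit 0x10a0b0a89089a) (nat_lit 0) (p (nat_lit 0x98a8a08881a) (nat_lit 0) (p (nat_lit 0x109088988079a) (nat_lit 0) (p (nat_lit 0x8880907871a) (nat_lit 0) (p (nat_lit 0x8000000000800080887068a)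 (nat_lit 0) (p (nat_lit 0x10888068602) (nat_lit 0) (p (nat_lit 0x807860582) (nat_lit 0) (p (nat_lit 0x10607058502) (nat_lit 0) (p (nat_lit 0x586850482) (nat_lit 0) (p (nat_lit 0x16000c) (nat_lit 0) (p (nat_lit 0x68612) (nat_lit 0) (p (nat_lit 0x50592) (nat_lit 0) (p (nat_lit 0x40512) (nat_lit 0) (p (nat_lit 0x50312) (nat_lit 0) (p (nat_lit 0x38292) (nat_lit 0) (p (nat_lit 0x28212) (nat_lit 0) (p (nat_lit 0x38112) (nat_lit 0) (p (nat_lit 0x20092) (nat_lit 0) (p (nat_lit 0x10012) (nat_lit 0) pn)))))))))))))))))))))))))))))))))))) :=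
  Cl.node (nat_lit 0x111) (nat_lit 2) (by decide +kernel) (ClAll.succ (ClAll.succ ClAll.zero s1141) n12)

def n22 : Cl (O (nat_lit 5)) (R (nat_lit 14353))
    (p (nat_lit 0x100014) (nat_lit 0) (p (nat_lit 0x80004) (nat_lit 1) (p (nat_lit 0x10800c) (nat_lit 0) (p (nat_lit 0x100004) (nat_lit 0) (p (nat_lit 0x1fc014) (nat_lit 0) (p (nat_lit 0x1fc004) (nat_lit 0) (p (nat_lit 0xb000c) (nat_lit 1) (p (nat_lit 0x380c2) (nat_lit 1) (p (nat_lit 0x3c4aa) (nat_lit 7) (p (nat_lit 0xd1) (nat_lit 1) (p (nat_lit 0x111) (nat_lit 1) (p (nat_lit 0x109) (nat_lit 0) (p (nat_lit 0x101) (nat_lit 0) (p (nat_lit 0x119) (nat_lit 0) (p (nat_lit 0xc1) (nat_lit 0) (p (nat_lit 0x81) (nat_lit 1) (p (nat_lit 0x41) (nat_lit 1) (p (nat_lit 0x10a0b0a89089a) (nat_lit 0) (p (nat_lit 0x98a8a08881a) (nat_lit 0) (p (nat_lit 0x109088988079a) (nat_lit 0) (p (nat_lit 0x8880907871a) (nat_lit 0) (p (nat_lit 0x8000000000800080887068a)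 (nat_lit 0) (p (nat_lit 0x10888068602) (nat_lit 0) (p (nat_lit 0x807860582) (nat_lit 0) (p (nat_lit 0x10607058502) (nat_lit 0) (p (nat_lit 0x586850482) (nat_lit 0) (p (nat_lit 0x16000c) (nat_lit 0) (p (nat_lit 0x68612) (nat_lit 0) (p (nat_lit 0x50592) (nat_lit 0) (p (nat_lit 0x40512) (nat_lit 0) (p (nat_lit 0x50312) (nat_lit 0) (p (nat_lit 0x38292) (nat_lit 0) (p (nat_lit 0x28212) (nat_lit 0) (p (nat_lit 0x38112) (nat_lit 0) (p (nat_lit 0x20092) (nat_lit 0) (p (nat_lit 0x10012) (nat_lit 0) pn)))))))))))))))))))))))))))))))))))) :=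
  Cl.node (nat_lit 0x2680d000002e8488c8d0b8b0a) (nat_lit 1) (by decide +kernel) (ClAll.succ ClAll.zero n13)

def n23 : Cl (O (nat_lit 5)) (R (nat_lit 14353))
    (p (nat_lit 0xd0c8d8c0b9a) (nat_lit 0) (p (nat_lit 0x2680d000002680d0c8d0b8b0a) (nat_lit 0) (p (nat_lit 0x100014) (nat_lit 0) (p (nat_lit 0x10800c) (nat_lit 0) (p (nat_lit 0x100004) (nat_lit 0) (p (nat_lit 0x1fc014) (nat_lit 0) (p (nat_lit 0x1fc004) (nat_lit 0) (p (nat_lit 0xb000c) (nat_lit 1) (p (nat_lit 0x380c2) (nat_lit 1) (p (nat_lit 0x3c4aa) (nat_lit 7) (p (nat_lit 0xd1) (nat_lit 1) (p (nat_lit 0xc9) (nat_lit 0) (p (nat_lit 0x101) (nat_lit 1) (p (nat_lit 0x119) (nat_lit 0) (p (nat_lit 0xc1) (nat_lit 0) (p (nat_lit 0x81) (nat_lit 1) (p (nat_lit 0x41) (nat_lit 1) (p (nat_lit 0x10a0b0a89089a) (nat_lit 0) (p (nat_lit 0x98a8a08881a) (nat_lit 0) (p (nat_lit 0x109088988079a) (nat_lit 0) (p (nat_lit 0x8880907871a)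 (nat_lit 0) (p (nat_lit 0x8000000000800080887068a) (nat_lit 0) (p (nat_lit 0x10888068602) (nat_lit 0) (p (nat_lit 0x807860582) (nat_lit 0) (p (nat_lit 0x10607058502) (nat_lit 0) (p (nat_lit 0x586850482) (nat_lit 0) (p (nat_lit 0x16000c) (nat_lit 0) (p (nat_lit 0x68612) (nat_lit 0) (p (nat_lit 0x50592) (nat_lit 0) (p (nat_lit 0x40512) (nat_lit 0) (p (nat_lit 0x50312) (nat_lit 0) (p (nat_lit 0x38292) (nat_lit 0) (p (nat_lit 0x28212) (nat_lit 0) (p (nat_lit 0x38112) (nat_lit 0) (p (nat_lit 0x20092) (nat_lit 0) (p (nat_lit 0x10012) (nat_lit 0) pn)))))))))))))))))))))))))))))))))))) :=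
  Cl.node (nat_lit 0x10d8d0e0c8c1a) (nat_lit 1) (by decide +kernel) (ClAll.succ ClAll.zero n14)

def n24 : Cl (O (nat_lit 5)) (R (nat_lit 14353))
    (p (nat_lit 0x100014) (nat_lit 0) (p (nat_lit 0xb000c) (nat_lit 0) (p (nat_lit 0x380c2) (nat_lit 0) (p (nat_lit 0x444aa) (nat_lit 7) (p (nat_lit 0xc1) (nat_lit 1) (p (nat_lit 0x200014) (nat_lit 0) (p (nat_lit 0x380c2) (nat_lit 0) (p (nat_lit 0x4c42a) (nat_lit 2) (p (nat_lit 0x111) (nat_lit 0) (p (nat_lit 0xc9) (nat_lit 0) (p (nat_lit 0x81) (nat_lit 0) (p (nat_lit 0x101) (nat_lit 1) (p (nat_lit 0x119) (nat_lit 0) (p (nat_lit 0xd1) (nat_lit 0) (p (nat_lit 0x89) (nat_lit 0) (p (nat_lit 0x41) (nat_lit 0) (p (nat_lit 0x10a0b0a89089a) (nat_lit 0) (p (nat_lit 0x98a8a08881a) (nat_lit 0) (p (nat_lit 0x109088988079a) (nat_lit 0) (p (nat_lit 0x8880907871a) (nat_lit 0) (p (nat_lit 0x8000000000800080887068a) (nat_lit 0) (p (nat_lit 0x10888068602)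 (nat_lit 0) (p (nat_lit 0x807860582) (nat_lit 0) (p (nat_lit 0x10607058502) (nat_lit 0) (p (nat_lit 0x586850482) (nat_lit 0) (p (nat_lit 0x16000c) (nat_lit 0) (p (nat_lit 0x68612) (nat_lit 0) (p (nat_lit 0x50592) (nat_lit 0) (p (nat_lit 0x40512) (nat_lit 0) (p (nat_lit 0x50312) (nat_lit 0) (p (nat_lit 0x38292) (nat_lit 0) (p (nat_lit 0x28212) (nat_lit 0) (p (nat_lit 0x38112) (nat_lit 0) (p (nat_lit 0x20092) (nat_lit 0) (p (nat_lit 0x10012) (nat_lit 0) pn))))))))))))))))))))))))))))))))))) :=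
  Cl.node (nat_lit 0x200004) (nat_lit 2) (by decide +kernel) (ClAll.succ (ClAll.succ ClAll.zero n15) s40)

def n25 : Cl (O (nat_lit 5)) (R (nat_lit 14353))
    (p (nat_lit 0x13400c) (nat_lit 0) (p (nat_lit 0x80004) (nat_lit 1) (p (nat_lit 0x100004) (nat_lit 0) (p (nat_lit 0x1fc014) (nat_lit 0) (p (nat_lit 0x1fc004) (nat_lit 0) (p (nat_lit 0xb000c) (nat_lit 1) (p (nat_lit 0x380c2) (nat_lit 0) (p (nat_lit 0x444aa) (nat_lit 7) (p (nat_lit 0xd1) (nat_lit 1) (p (nat_lit 0x111) (nat_lit 1) (p (nat_lit 0x109) (nat_lit 0) (p (nat_lit 0x101) (nat_lit 0) (p (nat_lit 0x119) (nat_lit 0) (p (nat_lit 0xc9) (nat_lit 0) (p (nat_lit 0x89) (nat_lit 1) (p (nat_lit 0x41) (nat_lit 0) (p (nat_lit 0x10a0b0a89089a) (nat_lit 0) (p (nat_lit 0x98a8a08881a) (nat_lit 0) (p (nat_lit 0x109088988079a) (nat_lit 0) (p (nat_lit 0x8880907871a) (nat_lit 0) (p (nat_lit 0x8000000000800080887068a) (nat_lit 0)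 (p (nat_lit 0x10888068602) (nat_lit 0) (p (nat_lit 0x807860582) (nat_lit 0) (p (nat_lit 0x10607058502) (nat_lit 0) (p (nat_lit 0x586850482) (nat_lit 0) (p (nat_lit 0x16000c) (nat_lit 0) (p (nat_lit 0x68612) (nat_lit 0) (p (nat_lit 0x50592) (nat_lit 0) (p (nat_lit 0x40512) (nat_lit 0) (p (nat_lit 0x50312) (nat_lit 0) (p (nat_lit 0x38292) (nat_lit 0) (p (nat_lit 0x28212) (nat_lit 0) (p (nat_lit 0x38112) (nat_lit 0) (p (nat_lit 0x20092) (nat_lit 0) (p (nat_lit 0x10012) (nat_lit 0) pn))))))))))))))))))))))))))))))))))) :=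
  Cl.node (nat_lit 0x100014) (nat_lit 2) (by decide +kernel) (ClAll.succ (ClAll.succ ClAll.zero n16) s371)

def n26 : Cl (O (nat_lit 5)) (R (nat_lit 14353))
    (p (nat_lit 0x10d8d0e0c8c1a) (nat_lit 0) (p (nat_lit 0xd0c8d8c0b9a) (nat_lit 0) (p (nat_lit 0x2a825800002680d0c8d0b8b0a) (nat_lit 0) (p (nat_lit 0x100004) (nat_lit 0) (p (nat_lit 0x1fc014) (nat_lit 0) (p (nat_lit 0x1fc004) (nat_lit 0) (p (nat_lit 0xb000c) (nat_lit 1) (p (nat_lit 0x380c2) (nat_lit 0) (p (nat_lit 0x444aa) (nat_lit 7) (p (nat_lit 0xd1) (nat_lit 1) (p (nat_lit 0x109) (nat_lit 1) (p (nat_lit 0x101) (nat_lit 0) (p (nat_lit 0x119) (nat_lit 0) (p (nat_lit 0xc9) (nat_lit 0) (p (nat_lit 0x89) (nat_lit 1) (p (nat_lit 0x41) (nat_lit 0) (p (nat_lit 0x10a0b0a89089a) (nat_lit 0) (p (nat_lit 0x98a8a08881a) (nat_lit 0) (p (nat_lit 0x109088988079a) (nat_lit 0) (p (nat_lit 0x8880907871a) (nat_lit 0) (p (nat_lit 0x8000000000800080887068a)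 (nat_lit 0) (p (nat_lit 0x10888068602) (nat_lit 0) (p (nat_lit 0x807860582) (nat_lit 0) (p (nat_lit 0x10607058502) (nat_lit 0) (p (nat_lit 0x586850482) (nat_lit 0) (p (nat_lit 0x16000c) (nat_lit 0) (p (nat_lit 0x68612) (nat_lit 0) (p (nat_lit 0x50592) (nat_lit 0) (p (nat_lit 0x40512) (nat_lit 0) (p (nat_lit 0x50312) (nat_lit 0) (p (nat_lit 0x38292) (nat_lit 0) (p (nat_lit 0x28212) (nat_lit 0) (p (nat_lit 0x38112) (nat_lit 0) (p (nat_lit 0x20092) (nat_lit 0) (p (nat_lit 0x10012) (nat_lit 0) pn))))))))))))))))))))))))))))))))))) :=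
  Cl.node (nat_lit 0xe0f0e8d0c9a) (nat_lit 1) (by decide +kernel) (ClAll.succ ClAll.zero n17)

def n27 : Cl (O (nat_lit 5)) (R (nat_lit 14353))
    (p (nat_lit 0xd0c8d8c0b9a) (nat_lit 0) (p (nat_lit 0x2a82580000228010c8d0b8b0a) (nat_lit 0) (p (nat_lit 0x80004) (nat_lit 0) (p (nat_lit 0x100004) (nat_lit 0) (p (nat_lit 0x1fc014) (nat_lit 0) (p (nat_lit 0x1fc004) (nat_lit 0) (p (nat_lit 0xb000c) (nat_lit 1) (p (nat_lit 0x380c2) (nat_lit 0) (p (nat_lit 0x444aa) (nat_lit 7) (p (nat_lit 0x111) (nat_lit 1) (p (nat_lit 0xd1) (nat_lit 1) (p (nat_lit 0xc1) (nat_lit 0) (p (nat_lit 0x119) (nat_lit 1) (p (nat_lit 0xc9) (nat_lit 0) (p (nat_lit 0x89) (nat_lit 1) (p (nat_lit 0x41) (nat_lit 0) (p (nat_lit 0x10a0b0a89089a) (nat_lit 0) (p (nat_lit 0x98a8a08881a) (nat_lit 0) (p (nat_lit 0x109088988079a) (nat_lit 0) (p (nat_lit 0x8880907871a) (nat_lit 0) (p (nat_lit 0x8000000000800080887068a)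 (nat_lit 0) (p (nat_lit 0x10888068602) (nat_lit 0) (p (nat_lit 0x807860582) (nat_lit 0) (p (nat_lit 0x10607058502) (nat_lit 0) (p (nat_lit 0x586850482) (nat_lit 0) (p (nat_lit 0x16000c) (nat_lit 0) (p (nat_lit 0x68612) (nat_lit 0) (p (nat_lit 0x50592) (nat_lit 0) (p (nat_lit 0x40512) (nat_lit 0) (p (nat_lit 0x50312) (nat_lit 0) (p (nat_lit 0x38292) (nat_lit 0) (p (nat_lit 0x28212) (nat_lit 0) (p (nat_lit 0x38112) (nat_lit 0) (p (nat_lit 0x20092) (nat_lit 0) (p (nat_lit 0x10012) (nat_lit 0) pn))))))))))))))))))))))))))))))))))) :=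
  Cl.node (nat_lit 0x10d8d0e0c8c1a) (nat_lit 1) (by decide +kernel) (ClAll.succ ClAll.zero n18)

def n28 : Cl (O (nat_lit 5)) (R (nat_lit 14353))
    (p (nat_lit 0x81) (nat_lit 0) (p (nat_lit 0x100014) (nat_lit 0) (p (nat_lit 0x200014) (nat_lit 0) (p (nat_lit 0x380c2) (nat_lit 0) (p (nat_lit 0x44c2a) (nat_lit 1) (p (nat_lit 0x111) (nat_lit 1) (p (nat_lit 0x380c2) (nat_lit 0) (p (nat_lit 0x4c42a) (nat_lit 2) (p (nat_lit 0xc9) (nat_lit 0) (p (nat_lit 0x89) (nat_lit 1) (p (nat_lit 0x109) (nat_lit 1) (p (nat_lit 0x101) (nat_lit 0) (p (nat_lit 0x119) (nat_lit 0) (p (nat_lit 0xd1) (nat_lit 0) (p (nat_lit 0x81) (nat_lit 0) (p (nat_lit 0x41) (nat_lit 1) (p (nat_lit 0x10a0b0a89089a) (nat_lit 0) (p (nat_lit 0x98a8a08881a) (nat_lit 0) (p (nat_lit 0x109088988079a) (nat_lit 0) (p (nat_lit 0x8880907871a) (nat_lit 0) (p (nat_lit 0x8000000000800080887068a) (nat_lit 0) (p (nat_lit 0x10888068602)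 (nat_lit 0) (p (nat_lit 0x807860582) (nat_lit 0) (p (nat_lit 0x10607058502) (nat_lit 0) (p (nat_lit 0x586850482) (nat_lit 0) (p (nat_lit 0x16000c) (nat_lit 0) (p (nat_lit 0x68612) (nat_lit 0) (p (nat_lit 0x50592) (nat_lit 0) (p (nat_lit 0x40512) (nat_lit 0) (p (nat_lit 0x50312) (nat_lit 0) (p (nat_lit 0x38292) (nat_lit 0) (p (nat_lit 0x28212) (nat_lit 0) (p (nat_lit 0x38112) (nat_lit 0) (p (nat_lit 0x20092) (nat_lit 0) (p (nat_lit 0x10012) (nat_lit 0) pn))))))))))))))))))))))))))))))))))) :=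
  Cl.node (nat_lit 0xb000c) (nat_lit 2) (by decide +kernel) (ClAll.succ (ClAll.succ ClAll.zero s602) s603)

def n29 : Cl (O (nat_lit 5)) (R (nat_lit 14353))
    (p (nat_lit 0x100014) (nat_lit 0) (p (nat_lit 0x81) (nat_lit 0) (p (nat_lit 0x200014) (nat_lit 0) (p (nat_lit 0x380c2) (nat_lit 1) (p (nat_lit 0x44c2a) (nat_lit 1) (p (nat_lit 0x111) (nat_lit 1) (p (nat_lit 0x380c2) (nat_lit 0) (p (nat_lit 0x4c42a) (nat_lit 2) (p (nat_lit 0xc9) (nat_lit 0) (p (nat_lit 0x89) (nat_lit 1) (p (nat_lit 0x109) (nat_lit 1) (p (nat_lit 0x101) (nat_lit 0) (p (nat_lit 0x119) (nat_lit 0) (p (nat_lit 0xd1) (nat_lit 0) (p (nat_lit 0x81) (nat_lit 0) (p (nat_lit 0x41) (nat_lit 1) (p (nat_lit 0x10a0b0a89089a) (nat_lit 0) (p (nat_lit 0x98a8a08881a) (nat_lit 0) (p (nat_lit 0x109088988079a) (nat_lit 0) (p (nat_lit 0x8880907871a) (nat_lit 0) (p (nat_lit 0x8000000000800080887068a) (nat_lit 0) (p (nat_lit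 0x10888068602) (nat_lit 0) (p (nat_lit 0x807860582) (nat_lit 0) (p (nat_lit 0x10607058502) (nat_lit 0) (p (nat_lit 0x586850482) (nat_lit 0) (p (nat_lit 0x16000c) (nat_lit 0) (p (nat_lit 0x68612) (nat_lit 0) (p (nat_lit 0x50592) (nat_lit 0) (p (nat_lit 0x40512) (nat_lit 0) (p (nat_lit 0x50312) (nat_lit 0) (p (nat_lit 0x38292) (nat_lit 0) (p (nat_lit 0x28212) (nat_lit 0) (p (nat_lit 0x38112) (nat_lit 0) (p (nat_lit 0x20092) (nat_lit 0) (p (nat_lit 0x10012) (nat_lit 0) pn))))))))))))))))))))))))))))))))))) :=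
  Cl.node (nat_lit 0xb000c) (nat_lit 2) (by decide +kernel) (ClAll.succ (ClAll.succ ClAll.zero s607) s608)

def n30 : Cl (O (nat_lit 5)) (R (nat_lit 14353))
    (p (nat_lit 0x200004) (nat_lit 0) (p (nat_lit 0x100014) (nat_lit 0) (p (nat_lit 0x111) (nat_lit 1) (p (nat_lit 0x200014) (nat_lit 0) (p (nat_lit 0x380c2) (nat_lit 0) (p (nat_lit 0x44c2a) (nat_lit 0) (p (nat_lit 0x380c2) (nat_lit 0) (p (nat_lit 0x4c42a) (nat_lit 2) (p (nat_lit 0xc9) (nat_lit 0) (p (nat_lit 0x89) (nat_lit 1) (p (nat_lit 0xc1) (nat_lit 0) (p (nat_lit 0x101) (nat_lit 1) (p (nat_lit 0x119) (nat_lit 0) (p (nat_lit 0xd1) (nat_lit 0) (p (nat_lit 0x81) (nat_lit 0) (p (nat_lit 0x41) (nat_lit 1) (p (nat_lit 0x10a0b0a89089a) (nat_lit 0) (p (nat_lit 0x98a8a08881a) (nat_lit 0) (p (nat_lit 0x109088988079a) (nat_lit 0) (p (nat_lit 0x8880907871a) (nat_lit 0) (p (nat_lit 0x8000000000800080887068a) (nat_lit 0) (p (nat_lit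 0x10888068602) (nat_lit 0) (p (nat_lit 0x807860582) (nat_lit 0) (p (nat_lit 0x10607058502) (nat_lit 0) (p (nat_lit 0x586850482) (nat_lit 0) (p (nat_lit 0x16000c) (nat_lit 0) (p (nat_lit 0x68612) (nat_lit 0) (p (nat_lit 0x50592) (nat_lit 0) (p (nat_lit 0x40512) (nat_lit 0) (p (nat_lit 0x50312) (nat_lit 0) (p (nat_lit 0x38292) (nat_lit 0) (p (nat_lit 0x28212) (nat_lit 0) (p (nat_lit 0x38112) (nat_lit 0) (p (nat_lit 0x20092) (nat_lit 0) (p (nat_lit 0x10012) (nat_lit 0) pn))))))))))))))))))))))))))))))))))) :=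
  Cl.node (nat_lit 0x100004) (nat_lit 2) (by decide +kernel) (ClAll.succ (ClAll.succ ClAll.zero n19) s663)

def n31 : Cl (O (nat_lit 5)) (R (nat_lit 14353))
    (p (nat_lit 0x10d8d0e0c8c1a) (nat_lit 0) (p (nat_lit 0xd0c8d8c0b9a) (nat_lit 0) (p (nat_lit 0x2a825800002680d0c8d0b8b0a) (nat_lit 0) (p (nat_lit 0x1fc014) (nat_lit 0) (p (nat_lit 0xb000c) (nat_lit 1) (p (nat_lit 0x100004) (nat_lit 0) (p (nat_lit 0x200004) (nat_lit 0) (p (nat_lit 0x380c2) (nat_lit 1) (p (nat_lit 0x3c4aa) (nat_lit 7) (p (nat_lit 0x89) (nat_lit 1) (p (nat_lit 0x101) (nat_lit 1) (p (nat_lit 0xc1) (nat_lit 1) (p (nat_lit 0x119) (nat_lit 1) (p (nat_lit 0xd1) (nat_lit 0) (p (nat_lit 0x81) (nat_lit 0) (p (nat_lit 0x41) (nat_lit 1) (p (nat_lit 0x10a0b0a89089a) (nat_lit 0) (p (nat_lit 0x98a8a08881a) (nat_lit 0) (p (nat_lit 0x109088988079a) (nat_lit 0) (p (nat_lit 0x8880907871a) (nat_lit 0) (p (nat_lit 0x8000000000800080887068a)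 (nat_lit 0) (p (nat_lit 0x10888068602) (nat_lit 0) (p (nat_lit 0x807860582) (nat_lit 0) (p (nat_lit 0x10607058502) (nat_lit 0) (p (nat_lit 0x586850482) (nat_lit 0) (p (nat_lit 0x16000c) (nat_lit 0) (p (nat_lit 0x68612) (nat_lit 0) (p (nat_lit 0x50592) (nat_lit 0) (p (nat_lit 0x40512) (nat_lit 0) (p (nat_lit 0x50312) (nat_lit 0) (p (nat_lit 0x38292) (nat_lit 0) (p (nat_lit 0x28212) (nat_lit 0) (p (nat_lit 0x38112) (nat_lit 0) (p (nat_lit 0x20092) (nat_lit 0) (p (nat_lit 0x10012) (nat_lit 0) pn))))))))))))))))))))))))))))))))))) :=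
  Cl.node (nat_lit 0xe0f0e8d0c9a) (nat_lit 1) (by decide +kernel) (ClAll.succ ClAll.zero n20)

def n32 : Cl (O (nat_lit 5)) (R (nat_lit 14353))
    (p (nat_lit 0x119) (nat_lit 0) (p (nat_lit 0xc1) (nat_lit 1) (p (nat_lit 0x100004) (nat_lit 0) (p (nat_lit 0xc9) (nat_lit 0) (p (nat_lit 0x200004) (nat_lit 0) (p (nat_lit 0xb000c) (nat_lit 0) (p (nat_lit 0x380c2) (nat_lit 0) (p (nat_lit 0x3c4aa) (nat_lit 7) (p (nat_lit 0xd1) (nat_lit 1) (p (nat_lit 0x111) (nat_lit 1) (p (nat_lit 0x109) (nat_lit 0) (p (nat_lit 0x101) (nat_lit 0) (p (nat_lit 0x119) (nat_lit 0) (p (nat_lit 0xc1) (nat_lit 0) (p (nat_lit 0x81) (nat_lit 1) (p (nat_lit 0x41) (nat_lit 1) (p (nat_lit 0x10a0b0a89089a) (nat_lit 0) (p (nat_lit 0x98a8a08881a) (nat_lit 0) (p (nat_lit 0x109088988079a) (nat_lit 0) (p (nat_lit 0x8880907871a) (nat_lit 0) (p (nat_lit 0x8000000000800080887068a) (nat_lit 0) (p (nat_lit 0x10888068602)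 (nat_lit 0) (p (nat_lit 0x807860582) (nat_lit 0) (p (nat_lit 0x10607058502) (nat_lit 0) (p (nat_lit 0x586850482) (nat_lit 0) (p (nat_lit 0x16000c) (nat_lit 0) (p (nat_lit 0x68612) (nat_lit 0) (p (nat_lit 0x50592) (nat_lit 0) (p (nat_lit 0x40512) (nat_lit 0) (p (nat_lit 0x50312) (nat_lit 0) (p (nat_lit 0x38292) (nat_lit 0) (p (nat_lit 0x28212) (nat_lit 0) (p (nat_lit 0x38112) (nat_lit 0) (p (nat_lit 0x20092) (nat_lit 0) (p (nat_lit 0x10012) (nat_lit 0) pn))))))))))))))))))))))))))))))))))) :=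
  Cl.node (nat_lit 0x81) (nat_lit 2) (by decide +kernel) (ClAll.succ (ClAll.succ ClAll.zero s1131) s1132)

def n33 : Cl (O (nat_lit 5)) (R (nat_lit 14353))
    (p (nat_lit 0x101) (nat_lit 0) (p (nat_lit 0x200004) (nat_lit 0) (p (nat_lit 0x380c2) (nat_lit 0) (p (nat_lit 0x3cc2a) (nat_lit 0) (p (nat_lit 0xc9) (nat_lit 0) (p (nat_lit 0xb000c) (nat_lit 0) (p (nat_lit 0x380c2) (nat_lit 1) (p (nat_lit 0x3c4aa) (nat_lit 7) (p (nat_lit 0xd1) (nat_lit 1) (p (nat_lit 0x111) (nat_lit 1) (p (nat_lit 0x109) (nat_lit 0) (p (nat_lit 0x101) (nat_lit 0) (p (nat_lit 0x119) (nat_lit 0) (p (nat_lit 0xc1) (nat_lit 0) (p (nat_lit 0x81) (nat_lit 1) (p (nat_lit 0x41) (nat_lit 1) (p (nat_lit 0x10a0b0a89089a) (nat_lit 0) (p (nat_lit 0x98a8a08881a) (nat_lit 0) (p (nat_lit 0x109088988079a) (nat_lit 0) (p (nat_lit 0x8880907871a) (nat_lit 0) (p (nat_lit 0x8000000000800080887068a) (nat_lit 0) (p (nat_lit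 0x10888068602) (nat_lit 0) (p (nat_lit 0x807860582) (nat_lit 0) (p (nat_lit 0x10607058502) (nat_lit 0) (p (nat_lit 0x586850482) (nat_lit 0) (p (nat_lit 0x16000c) (nat_lit 0) (p (nat_lit 0x68612) (nat_lit 0) (p (nat_lit 0x50592) (nat_lit 0) (p (nat_lit 0x40512) (nat_lit 0) (p (nat_lit 0x50312) (nat_lit 0) (p (nat_lit 0x38292) (nat_lit 0) (p (nat_lit 0x28212) (nat_lit 0) (p (nat_lit 0x38112) (nat_lit 0) (p (nat_lit 0x20092) (nat_lit 0) (p (nat_lit 0x10012) (nat_lit 0) pn))))))))))))))))))))))))))))))))))) :=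
  Cl.node (nat_lit 0x100004) (nat_lit 2) (by decide +kernel) (ClAll.succ (ClAll.succ ClAll.zero n21) s1144)

def n34 : Cl (O (nat_lit 5)) (R (nat_lit 14353))
    (p (nat_lit 0x80004) (nat_lit 1) (p (nat_lit 0x10800c) (nat_lit 0) (p (nat_lit 0x100004) (nat_lit 0) (p (nat_lit 0x1fc014) (nat_lit 0) (p (nat_lit 0x1fc004) (nat_lit 0) (p (nat_lit 0xb000c) (nat_lit 1) (p (nat_lit 0x380c2) (nat_lit 1) (p (nat_lit 0x3c4aa) (nat_lit 7) (p (nat_lit 0xd1) (nat_lit 1) (p (nat_lit 0x111) (nat_lit 1) (p (nat_lit 0x109) (nat_lit 0) (p (nat_lit 0x101) (nat_lit 0) (p (nat_lit 0x119) (nat_lit 0) (p (nat_lit 0xc1) (nat_lit 0) (p (nat_lit 0x81) (nat_lit 1) (p (nat_lit 0x41) (nat_lit 1) (p (nat_lit 0x10a0b0a89089a) (nat_lit 0) (p (nat_lit 0x98a8a08881a) (nat_lit 0) (p (nat_lit 0x109088988079a) (nat_lit 0) (p (nat_lit 0x8880907871a) (nat_lit 0) (p (nat_lit 0x8000000000800080887068a) (nat_lit 0)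 (p (nat_lit 0x10888068602) (nat_lit 0) (p (nat_lit 0x807860582) (nat_lit 0) (p (nat_lit 0x10607058502) (nat_lit 0) (p (nat_lit 0x586850482) (nat_lit 0) (p (nat_lit 0x16000c) (nat_lit 0) (p (nat_lit 0x68612) (nat_lit 0) (p (nat_lit 0x50592) (nat_lit 0) (p (nat_lit 0x40512) (nat_lit 0) (p (nat_lit 0x50312) (nat_lit 0) (p (nat_lit 0x38292) (nat_lit 0) (p (nat_lit 0x28212) (nat_lit 0) (p (nat_lit 0x38112) (nat_lit 0) (p (nat_lit 0x20092) (nat_lit 0) (p (nat_lit 0x10012) (nat_lit 0) pn))))))))))))))))))))))))))))))))))) :=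
  Cl.node (nat_lit 0x100014) (nat_lit 2) (by decide +kernel) (ClAll.succ (ClAll.succ ClAll.zero n22) s1165)

def n35 : Cl (O (nat_lit 5)) (R (nat_lit 14353))
    (p (nat_lit 0x2680d000002680d0c8d0b8b0a) (nat_lit 0) (p (nat_lit 0x100014) (nat_lit 0) (p (nat_lit 0x10800c) (nat_lit 0) (p (nat_lit 0x100004) (nat_lit 0) (p (nat_lit 0x1fc014) (nat_lit 0) (p (nat_lit 0x1fc004) (nat_lit 0) (p (nat_lit 0xb000c) (nat_lit 1) (p (nat_lit 0x380c2) (nat_lit 1) (p (nat_lit 0x3c4aa) (nat_lit 7) (p (nat_lit 0xd1) (nat_lit 1) (p (nat_lit 0xc9) (nat_lit 0) (p (nat_lit 0x101) (nat_lit 1) (p (nat_lit 0x119) (nat_lit 0) (p (nat_lit 0xc1) (nat_lit 0) (p (nat_lit 0x81) (nat_lit 1) (p (nat_lit 0x41) (nat_lit 1) (p (nat_lit 0x10a0b0a89089a) (nat_lit 0) (p (nat_lit 0x98a8a08881a) (nat_lit 0) (p (nat_lit 0x109088988079a) (nat_lit 0) (p (nat_lit 0x8880907871a) (nat_lit 0) (p (nat_lit 0x8000000000800080887068a)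 (nat_lit 0) (p (nat_lit 0x10888068602) (nat_lit 0) (p (nat_lit 0x807860582) (nat_lit 0) (p (nat_lit 0x10607058502) (nat_lit 0) (p (nat_lit 0x586850482) (nat_lit 0) (p (nat_lit 0x16000c) (nat_lit 0) (p (nat_lit 0x68612) (nat_lit 0) (p (nat_lit 0x50592) (nat_lit 0) (p (nat_lit 0x40512) (nat_lit 0) (p (nat_lit 0x50312) (nat_lit 0) (p (nat_lit 0x38292) (nat_lit 0) (p (nat_lit 0x28212) (nat_lit 0) (p (nat_lit 0x38112) (nat_lit 0) (p (nat_lit 0x20092) (nat_lit 0) (p (nat_lit 0x10012) (nat_lit 0) pn))))))))))))))))))))))))))))))))))) :=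
  Cl.node (nat_lit 0xd0c8d8c0b9a) (nat_lit 1) (by decide +kernel) (ClAll.succ ClAll.zero n23)

def n36 : Cl (O (nat_lit 5)) (R (nat_lit 14353))
    (p (nat_lit 0x10800c) (nat_lit 0) (p (nat_lit 0x100004) (nat_lit 0) (p (nat_lit 0x1fc014) (nat_lit 0) (p (nat_lit 0x1fc004) (nat_lit 0) (p (nat_lit 0xb000c) (nat_lit 1) (p (nat_lit 0x380c2) (nat_lit 0) (p (nat_lit 0x444aa) (nat_lit 7) (p (nat_lit 0x81) (nat_lit 1) (p (nat_lit 0xc9) (nat_lit 1) (p (nat_lit 0x109) (nat_lit 1) (p (nat_lit 0x101) (nat_lit 0) (p (nat_lit 0x119) (nat_lit 0) (p (nat_lit 0xd1) (nat_lit 0) (p (nat_lit 0x89) (nat_lit 0) (p (nat_lit 0x41) (nat_lit 0) (p (nat_lit 0x10a0b0a89089a) (nat_lit 0) (p (nat_lit 0x98a8a08881a) (nat_lit 0) (p (nat_lit 0x109088988079a) (nat_lit 0) (p (nat_lit 0x8880907871a) (nat_lit 0) (p (nat_lit 0x8000000000800080887068a) (nat_lit 0) (p (nat_lit 0x10888068602) (nat_lit 0) (p (nat_lit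 0x807860582) (nat_lit 0) (p (nat_lit 0x10607058502) (nat_lit 0) (p (nat_lit 0x586850482) (nat_lit 0) (p (nat_lit 0x16000c) (nat_lit 0) (p (nat_lit 0x68612) (nat_lit 0) (p (nat_lit 0x50592) (nat_lit 0) (p (nat_lit 0x40512) (nat_lit 0) (p (nat_lit 0x50312) (nat_lit 0) (p (nat_lit 0x38292) (nat_lit 0) (p (nat_lit 0x28212) (nat_lit 0) (p (nat_lit 0x38112) (nat_lit 0) (p (nat_lit 0x20092) (nat_lit 0) (p (nat_lit 0x10012) (nat_lit 0) pn)))))))))))))))))))))))))))))))))) :=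
  Cl.node (nat_lit 0x80004) (nat_lit 2) (by decide +kernel) (ClAll.succ (ClAll.succ ClAll.zero s14) s15)

def n37 : Cl (O (nat_lit 5)) (R (nat_lit 14353))
    (p (nat_lit 0xb000c) (nat_lit 0) (p (nat_lit 0x380c2) (nat_lit 0) (p (nat_lit 0x444aa) (nat_lit 7) (p (nat_lit 0xc1) (nat_lit 1) (p (nat_lit 0x200014) (nat_lit 0) (p (nat_lit 0x380c2) (nat_lit 0) (p (nat_lit 0x4c42a) (nat_lit 2) (p (nat_lit 0x111) (nat_lit 0) (p (nat_lit 0xc9) (nat_lit 0) (p (nat_lit 0x81) (nat_lit 0) (p (nat_lit 0x101) (nat_lit 1) (p (nat_lit 0x119) (nat_lit 0) (p (nat_lit 0xd1) (nat_lit 0) (p (nat_lit 0x89) (nat_lit 0) (p (nat_lit 0x41) (nat_lit 0) (p (nat_lit 0x10a0b0a89089a) (nat_lit 0) (p (nat_lit 0x98a8a08881a) (nat_lit 0) (p (nat_lit 0x109088988079a) (nat_lit 0) (p (nat_lit 0x8880907871a) (nat_lit 0) (p (nat_lit 0x8000000000800080887068a) (nat_lit 0) (p (nat_lit 0x10888068602) (nat_lit 0) (p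 (nat_lit 0x807860582) (nat_lit 0) (p (nat_lit 0x10607058502) (nat_lit 0) (p (nat_lit 0x586850482) (nat_lit 0) (p (nat_lit 0x16000c) (nat_lit 0) (p (nat_lit 0x68612) (nat_lit 0) (p (nat_lit 0x50592) (nat_lit 0) (p (nat_lit 0x40512) (nat_lit 0) (p (nat_lit 0x50312) (nat_lit 0) (p (nat_lit 0x38292) (nat_lit 0) (p (nat_lit 0x28212) (nat_lit 0) (p (nat_lit 0x38112) (nat_lit 0) (p (nat_lit 0x20092) (nat_lit 0) (p (nat_lit 0x10012) (nat_lit 0) pn)))))))))))))))))))))))))))))))))) :=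
  Cl.node (nat_lit 0x100014) (nat_lit 2) (by decide +kernel) (ClAll.succ (ClAll.succ ClAll.zero n24) s41)

def n38 : Cl (O (nat_lit 5)) (R (nat_lit 14353))
    (p (nat_lit 0xc9) (nat_lit 0) (p (nat_lit 0x100004) (nat_lit 0) (p (nat_lit 0xc1) (nat_lit 0) (p (nat_lit 0x200004) (nat_lit 0) (p (nat_lit 0xb000c) (nat_lit 0) (p (nat_lit 0x380c2) (nat_lit 0) (p (nat_lit 0x444aa) (nat_lit 7) (p (nat_lit 0xd1) (nat_lit 1) (p (nat_lit 0x111) (nat_lit 1) (p (nat_lit 0x109) (nat_lit 0) (p (nat_lit 0x101) (nat_lit 0) (p (nat_lit 0x119) (nat_lit 0) (p (nat_lit 0xc9) (nat_lit 0) (p (nat_lit 0x89) (nat_lit 1) (p (nat_lit 0x41) (nat_lit 0) (p (nat_lit 0x10a0b0a89089a) (nat_lit 0) (p (nat_lit 0x98a8a08881a) (nat_lit 0) (p (nat_lit 0x109088988079a) (nat_lit 0) (p (nat_lit 0x8880907871a) (nat_lit 0) (p (nat_lit 0x8000000000800080887068a) (nat_lit 0) (p (nat_lit 0x10888068602) (nat_lit 0) (p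 (nat_lit 0x807860582) (nat_lit 0) (p (nat_lit 0x10607058502) (nat_lit 0) (p (nat_lit 0x586850482) (nat_lit 0) (p (nat_lit 0x16000c) (nat_lit 0) (p (nat_lit 0x68612) (nat_lit 0) (p (nat_lit 0x50592) (nat_lit 0) (p (nat_lit 0x40512) (nat_lit 0) (p (nat_lit 0x50312) (nat_lit 0) (p (nat_lit 0x38292) (nat_lit 0) (p (nat_lit 0x28212) (nat_lit 0) (p (nat_lit 0x38112) (nat_lit 0) (p (nat_lit 0x20092) (nat_lit 0) (p (nat_lit 0x10012) (nat_lit 0) pn)))))))))))))))))))))))))))))))))) :=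
  Cl.node (nat_lit 0x119) (nat_lit 2) (by decide +kernel) (ClAll.succ (ClAll.succ ClAll.zero s361) s362)

def n39 : Cl (O (nat_lit 5)) (R (nat_lit 14353))
    (p (nat_lit 0x80004) (nat_lit 1) (p (nat_lit 0x100004) (nat_lit 0) (p (nat_lit 0x1fc014) (nat_lit 0) (p (nat_lit 0x1fc004) (nat_lit 0) (p (nat_lit 0xb000c) (nat_lit 1) (p (nat_lit 0x380c2) (nat_lit 0) (p (nat_lit 0x444aa) (nat_lit 7) (p (nat_lit 0xd1) (nat_lit 1) (p (nat_lit 0x111) (nat_lit 1) (p (nat_lit 0x109) (nat_lit 0) (p (nat_lit 0x101) (nat_lit 0) (p (nat_lit 0x119) (nat_lit 0) (p (nat_lit 0xc9) (nat_lit 0) (p (nat_lit 0x89) (nat_lit 1) (p (nat_lit 0x41) (nat_lit 0) (p (nat_lit 0x10a0b0a89089a) (nat_lit 0) (p (nat_lit 0x98a8a08881a) (nat_lit 0) (p (nat_lit 0x109088988079a) (nat_lit 0) (p (nat_lit 0x8880907871a) (nat_lit 0) (p (nat_lit 0x8000000000800080887068a) (nat_lit 0) (p (nat_lit 0x10888068602) (nat_lit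 0) (p (nat_lit 0x807860582) (nat_lit 0) (p (nat_lit 0x10607058502) (nat_lit 0) (p (nat_lit 0x586850482) (nat_lit 0) (p (nat_lit 0x16000c) (nat_lit 0) (p (nat_lit 0x68612) (nat_lit 0) (p (nat_lit 0x50592) (nat_lit 0) (p (nat_lit 0x40512) (nat_lit 0) (p (nat_lit 0x50312) (nat_lit 0) (p (nat_lit 0x38292) (nat_lit 0) (p (nat_lit 0x28212) (nat_lit 0) (p (nat_lit 0x38112) (nat_lit 0) (p (nat_lit 0x20092) (nat_lit 0) (p (nat_lit 0x10012) (nat_lit 0) pn)))))))))))))))))))))))))))))))))) :=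
  Cl.node (nat_lit 0x13400c) (nat_lit 2) (by decide +kernel) (ClAll.succ (ClAll.succ ClAll.zero n25) s372)

def n40 : Cl (O (nat_lit 5)) (R (nat_lit 14353))
    (p (nat_lit 0x200004) (nat_lit 0) (p (nat_lit 0x5800c) (nat_lit 0) (p (nat_lit 0x300014) (nat_lit 1) (p (nat_lit 0x200014) (nat_lit 1) (p (nat_lit 0xb000c) (nat_lit 0) (p (nat_lit 0x380c2) (nat_lit 1) (p (nat_lit 0x444aa) (nat_lit 10) (p (nat_lit 0xd1) (nat_lit 1) (p (nat_lit 0x111) (nat_lit 1) (p (nat_lit 0x109) (nat_lit 0) (p (nat_lit 0x101) (nat_lit 0) (p (nat_lit 0x119) (nat_lit 0) (p (nat_lit 0xc9) (nat_lit 0) (p (nat_lit 0x89) (nat_lit 1) (p (nat_lit 0x41) (nat_lit 0) (p (nat_lit 0x10a0b0a89089a) (nat_lit 0) (p (nat_lit 0x98a8a08881a) (nat_lit 0) (p (nat_lit 0x109088988079a) (nat_lit 0) (p (nat_lit 0x8880907871a) (nat_lit 0) (p (nat_lit 0x8000000000800080887068a) (nat_lit 0) (p (nat_lit 0x10888068602) (nat_lit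 0) (p (nat_lit 0x807860582) (nat_lit 0) (p (nat_lit 0x10607058502) (nat_lit 0) (p (nat_lit 0x586850482) (nat_lit 0) (p (nat_lit 0x16000c) (nat_lit 0) (p (nat_lit 0x68612) (nat_lit 0) (p (nat_lit 0x50592) (nat_lit 0) (p (nat_lit 0x40512) (nat_lit 0) (p (nat_lit 0x50312) (nat_lit 0) (p (nat_lit 0x38292) (nat_lit 0) (p (nat_lit 0x28212) (nat_lit 0) (p (nat_lit 0x38112) (nat_lit 0) (p (nat_lit 0x20092) (nat_lit 0) (p (nat_lit 0x10012) (nat_lit 0) pn)))))))))))))))))))))))))))))))))) :=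
  Cl.node (nat_lit 0x380014) (nat_lit 2) (by decide +kernel) (ClAll.succ (ClAll.succ ClAll.zero s388) s389)

def n41 : Cl (O (nat_lit 5)) (R (nat_lit 14353))
    (p (nat_lit 0xd1) (nat_lit 0) (p (nat_lit 0xc9) (nat_lit 0) (p (nat_lit 0x100004) (nat_lit 0) (p (nat_lit 0x200004) (nat_lit 0) (p (nat_lit 0xc1) (nat_lit 0) (p (nat_lit 0xb000c) (nat_lit 0) (p (nat_lit 0x380c2) (nat_lit 0) (p (nat_lit 0x444aa) (nat_lit 7) (p (nat_lit 0xd1) (nat_lit 1) (p (nat_lit 0x109) (nat_lit 1) (p (nat_lit 0x101) (nat_lit 0) (p (nat_lit 0x119) (nat_lit 0) (p (nat_lit 0xc9) (nat_lit 0) (p (nat_lit 0x89) (nat_lit 1) (p (nat_lit 0x41) (nat_lit 0) (p (nat_lit 0x10a0b0a89089a) (nat_lit 0) (p (nat_lit 0x98a8a08881a) (nat_lit 0) (p (nat_lit 0x109088988079a) (nat_lit 0) (p (nat_lit 0x8880907871a) (nat_lit 0) (p (nat_lit 0x8000000000800080887068a) (nat_lit 0) (p (nat_lit 0x10888068602) (nat_lit 0) (p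 (nat_lit 0x807860582) (nat_lit 0) (p (nat_lit 0x10607058502) (nat_lit 0) (p (nat_lit 0x586850482) (nat_lit 0) (p (nat_lit 0x16000c) (nat_lit 0) (p (nat_lit 0x68612) (nat_lit 0) (p (nat_lit 0x50592) (nat_lit 0) (p (nat_lit 0x40512) (nat_lit 0) (p (nat_lit 0x50312) (nat_lit 0) (p (nat_lit 0x38292) (nat_lit 0) (p (nat_lit 0x28212) (nat_lit 0) (p (nat_lit 0x38112) (nat_lit 0) (p (nat_lit 0x20092) (nat_lit 0) (p (nat_lit 0x10012) (nat_lit 0) pn)))))))))))))))))))))))))))))))))) :=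
  Cl.node (nat_lit 0x4c42a) (nat_lit 12) (by decide +kernel) (ClAll.succ (ClAll.succ (ClAll.succ (ClAll.succ (ClAll.succ (ClAll.succ (ClAll.succ (ClAll.succ (ClAll.succ (ClAll.succ (ClAll.succ (ClAll.succ ClAll.zero s417) s418) s419) s420) s421) s422) s423) s424) s425) s426) s427) s428)

def n42 : Cl (O (nat_lit 5)) (R (nat_lit 14353))
    (p (nat_lit 0xd0c8d8c0b9a) (nat_lit 0) (p (nat_lit 0x2a825800002680d0c8d0b8b0a) (nat_lit 0) (p (nat_lit 0x100004) (nat_lit 0) (p (nat_lit 0x1fc014) (nat_lit 0) (p (nat_lit 0x1fc004) (nat_lit 0) (p (nat_lit 0xb000c) (nat_lit 1) (p (nat_lit 0x380c2) (nat_lit 0) (p (nat_lit 0x444aa) (nat_lit 7) (p (nat_lit 0xd1) (nat_lit 1) (p (nat_lit 0x109) (nat_lit 1) (p (nat_lit 0x101) (nat_lit 0) (p (nat_lit 0x119) (nat_lit 0) (p (nat_lit 0xc9) (nat_lit 0) (p (nat_lit 0x89) (nat_lit 1) (p (nat_lit 0x41) (nat_lit 0) (p (nat_lit 0x10a0b0a89089a) (nat_lit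 0) (p (nat_lit 0x98a8a08881a) (nat_lit 0) (p (nat_lit 0x109088988079a) (nat_lit 0) (p (nat_lit 0x8880907871a) (nat_lit 0) (p (nat_lit 0x8000000000800080887068a) (nat_lit 0) (p (nat_lit 0x10888068602) (nat_lit 0) (p (nat_lit 0x807860582) (nat_lit 0) (p (nat_lit 0x10607058502) (nat_lit 0) (p (nat_lit 0x586850482) (nat_lit 0) (p (nat_lit 0x16000c) (nat_lit 0) (p (nat_lit 0x68612) (nat_lit 0) (p (nat_lit 0x50592) (nat_lit 0) (p (nat_lit 0x40512) (nat_lit 0) (p (nat_lit 0x50312) (nat_lit 0) (p (nat_lit 0x38292) (nat_lit 0) (p (nat_lit 0x28212) (nat_lit 0) (p (nat_lit 0x38112) (nat_lit 0) (p (nat_lit 0x20092) (nat_lit 0) (p (nat_lit 0x10012) (nat_lit 0) pn)))))))))))))))))))))))))))))))))) :=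
  Cl.node (nat_lit 0x10d8d0e0c8c1a) (nat_lit 1) (by decide +kernel) (ClAll.succ ClAll.zero n26)

def n43 : Cl (O (nat_lit 5)) (R (nat_lit 14353))
    (p (nat_lit 0x2a82580000228010c8d0b8b0a) (nat_lit 0) (p (nat_lit 0x80004) (nat_lit 0) (p (nat_lit 0x100004) (nat_lit 0) (p (nat_lit 0x1fc014) (nat_lit 0) (p (nat_lit 0x1fc004) (nat_lit 0) (p (nat_lit 0xb000c) (nat_lit 1) (p (nat_lit 0x380c2) (nat_lit 0) (p (nat_lit 0x444aa) (nat_lit 7) (p (nat_lit 0x111) (nat_lit 1) (p (nat_lit 0xd1) (nat_lit 1) (p (nat_lit 0xc1) (nat_lit 0) (p (nat_lit 0x119) (nat_lit 1) (p (nat_lit 0xc9) (nat_lit 0) (p (nat_lit 0x89) (nat_lit 1) (p (nat_lit 0x41) (nat_lit 0) (p (nat_lit 0x10a0b0a89089a) (nat_lit 0) (p (nat_lit 0x98a8a08881a) (nat_lit 0) (p (nat_lit 0x109088988079a) (nat_lit 0) (p (nat_lit 0x8880907871a) (nat_lit 0) (p (nat_lit 0x8000000000800080887068a) (nat_lit 0) (p (nat_lit 0x10888068602)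 (nat_lit 0) (p (nat_lit 0x807860582) (nat_lit 0) (p (nat_lit 0x10607058502) (nat_lit 0) (p (nat_lit 0x586850482) (nat_lit 0) (p (nat_lit 0x16000c) (nat_lit 0) (p (nat_lit 0x68612) (nat_lit 0) (p (nat_lit 0x50592) (nat_lit 0) (p (nat_lit 0x40512) (nat_lit 0) (p (nat_lit 0x50312) (nat_lit 0) (p (nat_lit 0x38292) (nat_lit 0) (p (nat_lit 0x28212) (nat_lit 0) (p (nat_lit 0x38112) (nat_lit 0) (p (nat_lit 0x20092) (nat_lit 0) (p (nat_lit 0x10012) (nat_lit 0) pn)))))))))))))))))))))))))))))))))) :=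
  Cl.node (nat_lit 0xd0c8d8c0b9a) (nat_lit 1) (by decide +kernel) (ClAll.succ ClAll.zero n27)

def n44 : Cl (O (nat_lit 5)) (R (nat_lit 14353))
    (p (nat_lit 0x100014) (nat_lit 0) (p (nat_lit 0x200014) (nat_lit 0) (p (nat_lit 0x380c2) (nat_lit 0) (p (nat_lit 0x44c2a) (nat_lit 1) (p (nat_lit 0x111) (nat_lit 1) (p (nat_lit 0x380c2) (nat_lit 0) (p (nat_lit 0x4c42a) (nat_lit 2) (p (nat_lit 0xc9) (nat_lit 0) (p (nat_lit 0x89) (nat_lit 1) (p (nat_lit 0x109) (nat_lit 1) (p (nat_lit 0x101) (nat_lit 0) (p (nat_lit 0x119) (nat_lit 0) (p (nat_lit 0xd1) (nat_lit 0) (p (nat_lit 0x81) (nat_lit 0) (p (nat_lit 0x41) (nat_lit 1) (p (nat_lit 0x10a0b0a89089a) (nat_lit 0) (p (nat_lit 0x98a8a08881a) (nat_lit 0) (p (nat_lit 0x109088988079a) (nat_lit 0) (p (nat_lit 0x8880907871a) (nat_lit 0) (p (nat_lit 0x8000000000800080887068a) (nat_lit 0) (p (nat_lit 0x10888068602) (nat_lit 0) (p (nat_lit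 0x807860582) (nat_lit 0) (p (nat_lit 0x10607058502) (nat_lit 0) (p (nat_lit 0x586850482) (nat_lit 0) (p (nat_lit 0x16000c) (nat_lit 0) (p (nat_lit 0x68612) (nat_lit 0) (p (nat_lit 0x50592) (nat_lit 0) (p (nat_lit 0x40512) (nat_lit 0) (p (nat_lit 0x50312) (nat_lit 0) (p (nat_lit 0x38292) (nat_lit 0) (p (nat_lit 0x28212) (nat_lit 0) (p (nat_lit 0x38112) (nat_lit 0) (p (nat_lit 0x20092) (nat_lit 0) (p (nat_lit 0x10012) (nat_lit 0) pn)))))))))))))))))))))))))))))))))) :=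
  Cl.node (nat_lit 0x81) (nat_lit 2) (by decide +kernel) (ClAll.succ (ClAll.succ ClAll.zero n28) s604)

def n45 : Cl (O (nat_lit 5)) (R (nat_lit 14353))
    (p (nat_lit 0x81) (nat_lit 0) (p (nat_lit 0x200014) (nat_lit 0) (p (nat_lit 0x380c2) (nat_lit 1) (p (nat_lit 0x44c2a) (nat_lit 1) (p (nat_lit 0x111) (nat_lit 1) (p (nat_lit 0x380c2) (nat_lit 0) (p (nat_lit 0x4c42a) (nat_lit 2) (p (nat_lit 0xc9) (nat_lit 0) (p (nat_lit 0x89) (nat_lit 1) (p (nat_lit 0x109) (nat_lit 1) (p (nat_lit 0x101) (nat_lit 0) (p (nat_lit 0x119) (nat_lit 0) (p (nat_lit 0xd1) (nat_lit 0) (p (nat_lit 0x81) (nat_lit 0) (p (nat_lit 0x41) (nat_lit 1) (p (nat_lit 0x10a0b0a89089a) (nat_lit 0) (p (nat_lit 0x98a8a08881a) (nat_lit 0) (p (nat_lit 0x109088988079a) (nat_lit 0) (p (nat_lit 0x8880907871a) (nat_lit 0) (p (nat_lit 0x8000000000800080887068a) (nat_lit 0) (p (nat_lit 0x10888068602) (nat_lit 0) (p (nat_lit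 0x807860582) (nat_lit 0) (p (nat_lit 0x10607058502) (nat_lit 0) (p (nat_lit 0x586850482) (nat_lit 0) (p (nat_lit 0x16000c) (nat_lit 0) (p (nat_lit 0x68612) (nat_lit 0) (p (nat_lit 0x50592) (nat_lit 0) (p (nat_lit 0x40512) (nat_lit 0) (p (nat_lit 0x50312) (nat_lit 0) (p (nat_lit 0x38292) (nat_lit 0) (p (nat_lit 0x28212) (nat_lit 0) (p (nat_lit 0x38112) (nat_lit 0) (p (nat_lit 0x20092) (nat_lit 0) (p (nat_lit 0x10012) (nat_lit 0) pn)))))))))))))))))))))))))))))))))) :=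
  Cl.node (nat_lit 0x100014) (nat_lit 2) (by decide +kernel) (ClAll.succ (ClAll.succ ClAll.zero n29) s609)

def n46 : Cl (O (nat_lit 5)) (R (nat_lit 14353))
    (p (nat_lit 0x100014) (nat_lit 0) (p (nat_lit 0x111) (nat_lit 1) (p (nat_lit 0x200014) (nat_lit 0) (p (nat_lit 0x380c2) (nat_lit 0) (p (nat_lit 0x44c2a) (nat_lit 0) (p (nat_lit 0x380c2) (nat_lit 0) (p (nat_lit 0x4c42a) (nat_lit 2) (p (nat_lit 0xc9) (nat_lit 0) (p (nat_lit 0x89) (nat_lit 1) (p (nat_lit 0xc1) (nat_lit 0) (p (nat_lit 0x101) (nat_lit 1) (p (nat_lit 0x119) (nat_lit 0) (p (nat_lit 0xd1) (nat_lit 0) (p (nat_lit 0x81) (nat_lit 0) (p (nat_lit 0x41) (nat_lit 1) (p (nat_lit 0x10a0b0a89089a) (nat_lit 0) (p (nat_lit 0x98a8a08881a) (nat_lit 0) (p (nat_lit 0x109088988079a) (nat_lit 0) (p (nat_lit 0x8880907871a) (nat_lit 0) (p (nat_lit 0x8000000000800080887068a) (nat_lit 0) (p (nat_lit 0x10888068602) (nat_lit 0)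 (p (nat_lit 0x807860582) (nat_lit 0) (p (nat_lit 0x10607058502) (nat_lit 0) (p (nat_lit 0x586850482) (nat_lit 0) (p (nat_lit 0x16000c) (nat_lit 0) (p (nat_lit 0x68612) (nat_lit 0) (p (nat_lit 0x50592) (nat_lit 0) (p (nat_lit 0x40512) (nat_lit 0) (p (nat_lit 0x50312) (nat_lit 0) (p (nat_lit 0x38292) (nat_lit 0) (p (nat_lit 0x28212) (nat_lit 0) (p (nat_lit 0x38112) (nat_lit 0) (p (nat_lit 0x20092) (nat_lit 0) (p (nat_lit 0x10012) (nat_lit 0) pn)))))))))))))))))))))))))))))))))) :=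
  Cl.node (nat_lit 0x200004) (nat_lit 2) (by decide +kernel) (ClAll.succ (ClAll.succ ClAll.zero n30) s664)

def n47 : Cl (O (nat_lit 5)) (R (nat_lit 14353))
    (p (nat_lit 0x100014) (nat_lit 0) (p (nat_lit 0x111) (nat_lit 1) (p (nat_lit 0x200014) (nat_lit 0) (p (nat_lit 0x380c2) (nat_lit 1) (p (nat_lit 0x44c2a) (nat_lit 1) (p (nat_lit 0x380c2) (nat_lit 0) (p (nat_lit 0x4c42a) (nat_lit 2) (p (nat_lit 0xc9) (nat_lit 0) (p (nat_lit 0x89) (nat_lit 1) (p (nat_lit 0xc1) (nat_lit 0) (p (nat_lit 0x101) (nat_lit 1) (p (nat_lit 0x119) (nat_lit 0) (p (nat_lit 0xd1) (nat_lit 0) (p (nat_lit 0x81) (nat_lit 0) (p (nat_lit 0x41) (nat_lit 1) (p (nat_lit 0x10a0b0a89089a) (nat_lit 0) (p (nat_lit 0x98a8a08881a) (nat_lit 0) (p (nat_lit 0x109088988079a) (nat_lit 0) (p (nat_lit 0x8880907871a) (nat_lit 0) (p (nat_lit 0x8000000000800080887068a) (nat_lit 0) (p (nat_lit 0x10888068602) (nat_lit 0)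 (p (nat_lit 0x807860582) (nat_lit 0) (p (nat_lit 0x10607058502) (nat_lit 0) (p (nat_lit 0x586850482) (nat_lit 0) (p (nat_lit 0x16000c) (nat_lit 0) (p (nat_lit 0x68612) (nat_lit 0) (p (nat_lit 0x50592) (nat_lit 0) (p (nat_lit 0x40512) (nat_lit 0) (p (nat_lit 0x50312) (nat_lit 0) (p (nat_lit 0x38292) (nat_lit 0) (p (nat_lit 0x28212) (nat_lit 0) (p (nat_lit 0x38112) (nat_lit 0) (p (nat_lit 0x20092) (nat_lit 0) (p (nat_lit 0x10012) (nat_lit 0) pn)))))))))))))))))))))))))))))))))) :=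
  Cl.node (nat_lit 0xb000c) (nat_lit 2) (by decide +kernel) (ClAll.succ (ClAll.succ ClAll.zero s672) s673)

def n48 : Cl (O (nat_lit 5)) (R (nat_lit 14353))
    (p (nat_lit 0x100014) (nat_lit 0) (p (nat_lit 0x200014) (nat_lit 0) (p (nat_lit 0x100004) (nat_lit 0) (p (nat_lit 0x200004) (nat_lit 0) (p (nat_lit 0xb000c) (nat_lit 0) (p (nat_lit 0x380c2) (nat_lit 1) (p (nat_lit 0x3c4aa) (nat_lit 10) (p (nat_lit 0x109) (nat_lit 1) (p (nat_lit 0x89) (nat_lit 1) (p (nat_lit 0xc9) (nat_lit 1) (p (nat_lit 0xc1) (nat_lit 0) (p (nat_lit 0x119) (nat_lit 1) (p (nat_lit 0xd1) (nat_lit 0) (p (nat_lit 0x81) (nat_lit 0) (p (nat_lit 0x41) (nat_lit 1) (p (nat_lit 0x10a0b0a89089a) (nat_lit 0) (p (nat_lit 0x98a8a08881a) (nat_lit 0) (p (nat_lit 0x109088988079a) (nat_lit 0) (p (nat_lit 0x8880907871a) (nat_lit 0) (p (nat_lit 0x8000000000800080887068a) (nat_lit 0) (p (nat_lit 0x10888068602) (nat_lit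 0) (p (nat_lit 0x807860582) (nat_lit 0) (p (nat_lit 0x10607058502) (nat_lit 0) (p (nat_lit 0x586850482) (nat_lit 0) (p (nat_lit 0x16000c) (nat_lit 0) (p (nat_lit 0x68612) (nat_lit 0) (p (nat_lit 0x50592) (nat_lit 0) (p (nat_lit 0x40512) (nat_lit 0) (p (nat_lit 0x50312) (nat_lit 0) (p (nat_lit 0x38292) (nat_lit 0) (p (nat_lit 0x28212) (nat_lit 0) (p (nat_lit 0x38112) (nat_lit 0) (p (nat_lit 0x20092) (nat_lit 0) (p (nat_lit 0x10012) (nat_lit 0) pn)))))))))))))))))))))))))))))))))) :=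
  Cl.node (nat_lit 0x101) (nat_lit 2) (by decide +kernel) (ClAll.succ (ClAll.succ ClAll.zero s820) s821)

def n49 : Cl (O (nat_lit 5)) (R (nat_lit 14353))
    (p (nat_lit 0x100014) (nat_lit 0) (p (nat_lit 0x10800c) (nat_lit 0) (p (nat_lit 0x1fc014) (nat_lit 0) (p (nat_lit 0x1fc004) (nat_lit 0) (p (nat_lit 0xb000c) (nat_lit 1) (p (nat_lit 0x380c2) (nat_lit 1) (p (nat_lit 0x3c4aa) (nat_lit 7) (p (nat_lit 0x109) (nat_lit 1) (p (nat_lit 0x89) (nat_lit 1) (p (nat_lit 0x101) (nat_lit 0) (p (nat_lit 0xc1) (nat_lit 1) (p (nat_lit 0x119) (nat_lit 1) (p (nat_lit 0xd1) (nat_lit 0) (p (nat_lit 0x81) (nat_lit 0) (p (nat_lit 0x41) (nat_lit 1) (p (nat_lit 0x10a0b0a89089a) (nat_lit 0) (p (nat_lit 0x98a8a08881a) (nat_lit 0) (p (nat_lit 0x109088988079a) (nat_lit 0) (p (nat_lit 0x8880907871a) (nat_lit 0) (p (nat_lit 0x8000000000800080887068a) (nat_lit 0) (p (nat_lit 0x10888068602) (nat_lit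 0) (p (nat_lit 0x807860582) (nat_lit 0) (p (nat_lit 0x10607058502) (nat_lit 0) (p (nat_lit 0x586850482) (nat_lit 0) (p (nat_lit 0x16000c) (nat_lit 0) (p (nat_lit 0x68612) (nat_lit 0) (p (nat_lit 0x50592) (nat_lit 0) (p (nat_lit 0x40512) (nat_lit 0) (p (nat_lit 0x50312) (nat_lit 0) (p (nat_lit 0x38292) (nat_lit 0) (p (nat_lit 0x28212) (nat_lit 0) (p (nat_lit 0x38112) (nat_lit 0) (p (nat_lit 0x20092) (nat_lit 0) (p (nat_lit 0x10012) (nat_lit 0) pn)))))))))))))))))))))))))))))))))) :=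
  Cl.node (nat_lit 0x80014) (nat_lit 2) (by decide +kernel) (ClAll.succ (ClAll.succ ClAll.zero s877) s878)

def n50 : Cl (O (nat_lit 5)) (R (nat_lit 14353))
    (p (nat_lit 0xd0c8d8c0b9a) (nat_lit 0) (p (nat_lit 0x2a825800002680d0c8d0b8b0a) (nat_lit 0) (p (nat_lit 0x1fc014) (nat_lit 0) (p (nat_lit 0xb000c) (nat_lit 1) (p (nat_lit 0x100004) (nat_lit 0) (p (nat_lit 0x200004) (nat_lit 0) (p (nat_lit 0x380c2) (nat_lit 1) (p (nat_lit 0x3c4aa) (nat_lit 7) (p (nat_lit 0x89) (nat_lit 1) (p (nat_lit 0x101) (nat_lit 1) (p (nat_lit 0xc1) (nat_lit 1) (p (nat_lit 0x119) (nat_lit 1) (p (nat_lit 0xd1) (nat_lit 0) (p (nat_lit 0x81) (nat_lit 0) (p (nat_lit 0x41) (nat_lit 1) (p (nat_lit 0x10a0b0a89089a) (nat_lit 0) (p (nat_lit 0x98a8a08881a) (nat_lit 0) (p (nat_lit 0x109088988079a) (nat_lit 0) (p (nat_lit 0x8880907871a) (nat_lit 0) (p (nat_lit 0x8000000000800080887068a) (nat_lit 0) (p (nat_lit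 0x10888068602) (nat_lit 0) (p (nat_lit 0x807860582) (nat_lit 0) (p (nat_lit 0x10607058502) (nat_lit 0) (p (nat_lit 0x586850482) (nat_lit 0) (p (nat_lit 0x16000c) (nat_lit 0) (p (nat_lit 0x68612) (nat_lit 0) (p (nat_lit 0x50592) (nat_lit 0) (p (nat_lit 0x40512) (nat_lit 0) (p (nat_lit 0x50312) (nat_lit 0) (p (nat_lit 0x38292) (nat_lit 0) (p (nat_lit 0x28212) (nat_lit 0) (p (nat_lit 0x38112) (nat_lit 0) (p (nat_lit 0x20092) (nat_lit 0) (p (nat_lit 0x10012) (nat_lit 0) pn)))))))))))))))))))))))))))))))))) :=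
  Cl.node (nat_lit 0x10d8d0e0c8c1a) (nat_lit 1) (by decide +kernel) (ClAll.succ ClAll.zero n31)

def n51 : Cl (O (nat_lit 5)) (R (nat_lit 14353))
    (p (nat_lit 0xc1) (nat_lit 1) (p (nat_lit 0x100004) (nat_lit 0) (p (nat_lit 0xc9) (nat_lit 0) (p (nat_lit 0x200004) (nat_lit 0) (p (nat_lit 0xb000c) (nat_lit 0) (p (nat_lit 0x380c2) (nat_lit 0) (p (nat_lit 0x3c4aa) (nat_lit 7) (p (nat_lit 0xd1) (nat_lit 1) (p (nat_lit 0x111) (nat_lit 1) (p (nat_lit 0x109) (nat_lit 0) (p (nat_lit 0x101) (nat_lit 0) (p (nat_lit 0x119) (nat_lit 0) (p (nat_lit 0xc1) (nat_lit 0) (p (nat_lit 0x81) (nat_lit 1) (p (nat_lit 0x41) (nat_lit 1) (p (nat_lit 0x10a0b0a89089a) (nat_lit 0) (p (nat_lit 0x98a8a08881a) (nat_lit 0) (p (nat_lit 0x109088988079a) (nat_lit 0) (p (nat_lit 0x8880907871a) (nat_lit 0) (p (nat_lit 0x8000000000800080887068a) (nat_lit 0) (p (nat_lit 0x10888068602) (nat_lit 0) (p (nat_lit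 0x807860582) (nat_lit 0) (p (nat_lit 0x10607058502) (nat_lit 0) (p (nat_lit 0x586850482) (nat_lit 0) (p (nat_lit 0x16000c) (nat_lit 0) (p (nat_lit 0x68612) (nat_lit 0) (p (nat_lit 0x50592) (nat_lit 0) (p (nat_lit 0x40512) (nat_lit 0) (p (nat_lit 0x50312) (nat_lit 0) (p (nat_lit 0x38292) (nat_lit 0) (p (nat_lit 0x28212) (nat_lit 0) (p (nat_lit 0x38112) (nat_lit 0) (p (nat_lit 0x20092) (nat_lit 0) (p (nat_lit 0x10012) (nat_lit 0) pn)))))))))))))))))))))))))))))))))) :=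
  Cl.node (nat_lit 0x119) (nat_lit 2) (by decide +kernel) (ClAll.succ (ClAll.succ ClAll.zero n32) s1133)

def n52 : Cl (O (nat_lit 5)) (R (nat_lit 14353))
    (p (nat_lit 0x41) (nat_lit 1) (p (nat_lit 0x100004) (nat_lit 0) (p (nat_lit 0xc9) (nat_lit 1) (p (nat_lit 0x200004) (nat_lit 0) (p (nat_lit 0xb000c) (nat_lit 0) (p (nat_lit 0x380c2) (nat_lit 0) (p (nat_lit 0x3c4aa) (nat_lit 7) (p (nat_lit 0xd1) (nat_lit 1) (p (nat_lit 0x111) (nat_lit 1) (p (nat_lit 0x109) (nat_lit 0) (p (nat_lit 0x101) (nat_lit 0) (p (nat_lit 0x119) (nat_lit 0) (p (nat_lit 0xc1) (nat_lit 0) (p (nat_lit 0x81) (nat_lit 1) (p (nat_lit 0x41) (nat_lit 1) (p (nat_lit 0x10a0b0a89089a) (nat_lit 0) (p (nat_lit 0x98a8a08881a) (nat_lit 0) (p (nat_lit 0x109088988079a) (nat_lit 0) (p (nat_lit 0x8880907871a) (nat_lit 0) (p (nat_lit 0x8000000000800080887068a) (nat_lit 0) (p (nat_lit 0x10888068602) (nat_lit 0) (p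 (nat_lit 0x807860582) (nat_lit 0) (p (nat_lit 0x10607058502) (nat_lit 0) (p (nat_lit 0x586850482) (nat_lit 0) (p (nat_lit 0x16000c) (nat_lit 0) (p (nat_lit 0x68612) (nat_lit 0) (p (nat_lit 0x50592) (nat_lit 0) (p (nat_lit 0x40512) (nat_lit 0) (p (nat_lit 0x50312) (nat_lit 0) (p (nat_lit 0x38292) (nat_lit 0) (p (nat_lit 0x28212) (nat_lit 0) (p (nat_lit 0x38112) (nat_lit 0) (p (nat_lit 0x20092) (nat_lit 0) (p (nat_lit 0x10012) (nat_lit 0) pn)))))))))))))))))))))))))))))))))) :=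
  Cl.node (nat_lit 0x101) (nat_lit 2) (by decide +kernel) (ClAll.succ (ClAll.succ ClAll.zero s1136) s1137)

def n53 : Cl (O (nat_lit 5)) (R (nat_lit 14353))
    (p (nat_lit 0x200004) (nat_lit 0) (p (nat_lit 0x380c2) (nat_lit 0) (p (nat_lit 0x3cc2a) (nat_lit 0) (p (nat_lit 0xc9) (nat_lit 0) (p (nat_lit 0xb000c) (nat_lit 0) (p (nat_lit 0x380c2) (nat_lit 1) (p (nat_lit 0x3c4aa) (nat_lit 7) (p (nat_lit 0xd1) (nat_lit 1) (p (nat_lit 0x111) (nat_lit 1) (p (nat_lit 0x109) (nat_lit 0) (p (nat_lit 0x101) (nat_lit 0) (p (nat_lit 0x119) (nat_lit 0) (p (nat_lit 0xc1) (nat_lit 0) (p (nat_lit 0x81) (nat_lit 1) (p (nat_lit 0x41) (nat_lit 1) (p (nat_lit 0x10a0b0a89089a) (nat_lit 0) (p (nat_lit 0x98a8a08881a) (nat_lit 0) (p (nat_lit 0x109088988079a) (nat_lit 0) (p (nat_lit 0x8880907871a) (nat_lit 0) (p (nat_lit 0x8000000000800080887068a) (nat_lit 0) (p (nat_lit 0x10888068602) (nat_lit 0)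 (p (nat_lit 0x807860582) (nat_lit 0) (p (nat_lit 0x10607058502) (nat_lit 0) (p (nat_lit 0x586850482) (nat_lit 0) (p (nat_lit 0x16000c) (nat_lit 0) (p (nat_lit 0x68612) (nat_lit 0) (p (nat_lit 0x50592) (nat_lit 0) (p (nat_lit 0x40512) (nat_lit 0) (p (nat_lit 0x50312) (nat_lit 0) (p (nat_lit 0x38292) (nat_lit 0) (p (nat_lit 0x28212) (nat_lit 0) (p (nat_lit 0x38112) (nat_lit 0) (p (nat_lit 0x20092) (nat_lit 0) (p (nat_lit 0x10012) (nat_lit 0) pn)))))))))))))))))))))))))))))))))) :=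
  Cl.node (nat_lit 0x101) (nat_lit 2) (by decide +kernel) (ClAll.succ (ClAll.succ ClAll.zero n33) s1145)

def n54 : Cl (O (nat_lit 5)) (R (nat_lit 14353))
    (p (nat_lit 0x10800c) (nat_lit 0) (p (nat_lit 0x100004) (nat_lit 0) (p (nat_lit 0x1fc014) (nat_lit 0) (p (nat_lit 0x1fc004) (nat_lit 0) (p (nat_lit 0xb000c) (nat_lit 1) (p (nat_lit 0x380c2) (nat_lit 1) (p (nat_lit 0x3c4aa) (nat_lit 7) (p (nat_lit 0xd1) (nat_lit 1) (p (nat_lit 0x111) (nat_lit 1) (p (nat_lit 0x109) (nat_lit 0) (p (nat_lit 0x101) (nat_lit 0) (p (nat_lit 0x119) (nat_lit 0) (p (nat_lit 0xc1) (nat_lit 0) (p (nat_lit 0x81) (nat_lit 1) (p (nat_lit 0x41) (nat_lit 1) (p (nat_lit 0x10a0b0a89089a) (nat_lit 0) (p (nat_lit 0x98a8a08881a) (nat_lit 0) (p (nat_lit 0x109088988079a) (nat_lit 0) (p (nat_lit 0x8880907871a) (nat_lit 0) (p (nat_lit 0x8000000000800080887068a) (nat_lit 0) (p (nat_lit 0x10888068602) (nat_lit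 0) (p (nat_lit 0x807860582) (nat_lit 0) (p (nat_lit 0x10607058502) (nat_lit 0) (p (nat_lit 0x586850482) (nat_lit 0) (p (nat_lit 0x16000c) (nat_lit 0) (p (nat_lit 0x68612) (nat_lit 0) (p (nat_lit 0x50592) (nat_lit 0) (p (nat_lit 0x40512) (nat_lit 0) (p (nat_lit 0x50312) (nat_lit 0) (p (nat_lit 0x38292) (nat_lit 0) (p (nat_lit 0x28212) (nat_lit 0) (p (nat_lit 0x38112) (nat_lit 0) (p (nat_lit 0x20092) (nat_lit 0) (p (nat_lit 0x10012) (nat_lit 0) pn)))))))))))))))))))))))))))))))))) :=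
  Cl.node (nat_lit 0x80004) (nat_lit 2) (by decide +kernel) (ClAll.succ (ClAll.succ ClAll.zero s1162) n34)

def n55 : Cl (O (nat_lit 5)) (R (nat_lit 14353))
    (p (nat_lit 0x300014) (nat_lit 1) (p (nat_lit 0x5800c) (nat_lit 0) (p (nat_lit 0x200014) (nat_lit 1) (p (nat_lit 0x200004) (nat_lit 0) (p (nat_lit 0xb000c) (nat_lit 0) (p (nat_lit 0x380c2) (nat_lit 1) (p (nat_lit 0x3c4aa) (nat_lit 10) (p (nat_lit 0xd1) (nat_lit 1) (p (nat_lit 0x111) (nat_lit 1) (p (nat_lit 0x109) (nat_lit 0) (p (nat_lit 0x101) (nat_lit 0) (p (nat_lit 0x119) (nat_lit 0) (p (nat_lit 0xc1) (nat_lit 0) (p (nat_lit 0x81) (nat_lit 1) (p (nat_lit 0x41) (nat_lit 1) (p (nat_lit 0x10a0b0a89089a) (nat_lit 0) (p (nat_lit 0x98a8a08881a) (nat_lit 0) (p (nat_lit 0x109088988079a) (nat_lit 0) (p (nat_lit 0x8880907871a) (nat_lit 0) (p (nat_lit 0x8000000000800080887068a) (nat_lit 0) (p (nat_lit 0x10888068602) (nat_lit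 0) (p (nat_lit 0x807860582) (nat_lit 0) (p (nat_lit 0x10607058502) (nat_lit 0) (p (nat_lit 0x586850482) (nat_lit 0) (p (nat_lit 0x16000c) (nat_lit 0) (p (nat_lit 0x68612) (nat_lit 0) (p (nat_lit 0x50592) (nat_lit 0) (p (nat_lit 0x40512) (nat_lit 0) (p (nat_lit 0x50312) (nat_lit 0) (p (nat_lit 0x38292) (nat_lit 0) (p (nat_lit 0x28212) (nat_lit 0) (p (nat_lit 0x38112) (nat_lit 0) (p (nat_lit 0x20092) (nat_lit 0) (p (nat_lit 0x10012) (nat_lit 0) pn)))))))))))))))))))))))))))))))))) :=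
  Cl.node (nat_lit 0x380014) (nat_lit 2) (by decide +kernel) (ClAll.succ (ClAll.succ ClAll.zero s1175) s1176)

def n56 : Cl (O (nat_lit 5)) (R (nat_lit 14353))
    (p (nat_lit 0xc9) (nat_lit 0) (p (nat_lit 0xd1) (nat_lit 0) (p (nat_lit 0x100004) (nat_lit 0) (p (nat_lit 0x200004) (nat_lit 0) (p (nat_lit 0xc1) (nat_lit 0) (p (nat_lit 0xb000c) (nat_lit 0) (p (nat_lit 0x380c2) (nat_lit 1) (p (nat_lit 0x3c4aa) (nat_lit 7) (p (nat_lit 0xd1) (nat_lit 1) (p (nat_lit 0xc9) (nat_lit 0) (p (nat_lit 0x101) (nat_lit 1) (p (nat_lit 0x119) (nat_lit 0) (p (nat_lit 0xc1) (nat_lit 0) (p (nat_lit 0x81) (nat_lit 1) (p (nat_lit 0x41) (nat_lit 1) (p (nat_lit 0x10a0b0a89089a) (nat_lit 0) (p (nat_lit 0x98a8a08881a) (nat_lit 0) (p (nat_lit 0x109088988079a) (nat_lit 0) (p (nat_lit 0x8880907871a) (nat_lit 0) (p (nat_lit 0x8000000000800080887068a) (nat_lit 0) (p (nat_lit 0x10888068602) (nat_lit 0)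 (p (nat_lit 0x807860582) (nat_lit 0) (p (nat_lit 0x10607058502) (nat_lit 0) (p (nat_lit 0x586850482) (nat_lit 0) (p (nat_lit 0x16000c) (nat_lit 0) (p (nat_lit 0x68612) (nat_lit 0) (p (nat_lit 0x50592) (nat_lit 0) (p (nat_lit 0x40512) (nat_lit 0) (p (nat_lit 0x50312) (nat_lit 0) (p (nat_lit 0x38292) (nat_lit 0) (p (nat_lit 0x28212) (nat_lit 0) (p (nat_lit 0x38112) (nat_lit 0) (p (nat_lit 0x20092) (nat_lit 0) (p (nat_lit 0x10012) (nat_lit 0) pn)))))))))))))))))))))))))))))))))) :=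
  Cl.node (nat_lit 0x4c42a) (nat_lit 12) (by decide +kernel) (ClAll.succ (ClAll.succ (ClAll.succ (ClAll.succ (ClAll.succ (ClAll.succ (ClAll.succ (ClAll.succ (ClAll.succ (ClAll.succ (ClAll.succ (ClAll.succ ClAll.zero s1254) s1255) s1256) s1257) s1258) s1259) s1260) s1261) s1262) s1263) s1264) s1265)

def n57 : Cl (O (nat_lit 5)) (R (nat_lit 14353))
    (p (nat_lit 0x100014) (nat_lit 0) (p (nat_lit 0x10800c) (nat_lit 0) (p (nat_lit 0x100004) (nat_lit 0) (p (nat_lit 0x1fc014) (nat_lit 0) (p (nat_lit 0x1fc004) (nat_lit 0) (p (nat_lit 0xb000c) (nat_lit 1) (p (nat_lit 0x380c2) (nat_lit 1) (p (nat_lit 0x3c4aa) (nat_lit 7) (p (nat_lit 0xd1) (nat_lit 1) (p (nat_lit 0xc9) (nat_lit 0) (p (nat_lit 0x101) (nat_lit 1) (p (nat_lit 0x119) (nat_lit 0) (p (nat_lit 0xc1) (nat_lit 0) (p (nat_lit 0x81) (nat_lit 1) (p (nat_lit 0x41) (nat_lit 1) (p (nat_lit 0x10a0b0a89089a) (nat_lit 0) (p (nat_lit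 0x98a8a08881a) (nat_lit 0) (p (nat_lit 0x109088988079a) (nat_lit 0) (p (nat_lit 0x8880907871a) (nat_lit 0) (p (nat_lit 0x8000000000800080887068a) (nat_lit 0) (p (nat_lit 0x10888068602) (nat_lit 0) (p (nat_lit 0x807860582) (nat_lit 0) (p (nat_lit 0x10607058502) (nat_lit 0) (p (nat_lit 0x586850482) (nat_lit 0) (p (nat_lit 0x16000c) (nat_lit 0) (p (nat_lit 0x68612) (nat_lit 0) (p (nat_lit 0x50592) (nat_lit 0) (p (nat_lit 0x40512) (nat_lit 0) (p (nat_lit 0x50312) (nat_lit 0) (p (nat_lit 0x38292) (nat_lit 0) (p (nat_lit 0x28212) (nat_lit 0) (p (nat_lit 0x38112) (nat_lit 0) (p (nat_lit 0x20092) (nat_lit 0) (p (nat_lit 0x10012) (nat_lit 0) pn)))))))))))))))))))))))))))))))))) :=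
  Cl.node (nat_lit 0x2680d000002680d0c8d0b8b0a) (nat_lit 1) (by decide +kernel) (ClAll.succ ClAll.zero n35)

def n58 : Cl (O (nat_lit 5)) (R (nat_lit 14353))
    (p (nat_lit 0x100004) (nat_lit 0) (p (nat_lit 0x1fc014) (nat_lit 0) (p (nat_lit 0x1fc004) (nat_lit 0) (p (nat_lit 0xb000c) (nat_lit 1) (p (nat_lit 0x380c2) (nat_lit 0) (p (nat_lit 0x444aa) (nat_lit 7) (p (nat_lit 0x81) (nat_lit 1) (p (nat_lit 0xc9) (nat_lit 1) (p (nat_lit 0x109) (nat_lit 1) (p (nat_lit 0x101) (nat_lit 0) (p (nat_lit 0x119) (nat_lit 0) (p (nat_lit 0xd1) (nat_lit 0) (p (nat_lit 0x89) (nat_lit 0) (p (nat_lit 0x41) (nat_lit 0) (p (nat_lit 0x10a0b0a89089a) (nat_lit 0) (p (nat_lit 0x98a8a08881a) (nat_lit 0) (p (nat_lit 0x109088988079a) (nat_lit 0) (p (nat_lit 0x8880907871a) (nat_lit 0) (p (nat_lit 0x8000000000800080887068a) (nat_lit 0) (p (nat_lit 0x10888068602) (nat_lit 0) (p (nat_lit 0x807860582) (nat_lit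 0) (p (nat_lit 0x10607058502) (nat_lit 0) (p (nat_lit 0x586850482) (nat_lit 0) (p (nat_lit 0x16000c) (nat_lit 0) (p (nat_lit 0x68612) (nat_lit 0) (p (nat_lit 0x50592) (nat_lit 0) (p (nat_lit 0x40512) (nat_lit 0) (p (nat_lit 0x50312) (nat_lit 0) (p (nat_lit 0x38292) (nat_lit 0) (p (nat_lit 0x28212) (nat_lit 0) (p (nat_lit 0x38112) (nat_lit 0) (p (nat_lit 0x20092) (nat_lit 0) (p (nat_lit 0x10012) (nat_lit 0) pn))))))))))))))))))))))))))))))))) :=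
  Cl.node (nat_lit 0x10800c) (nat_lit 2) (by decide +kernel) (ClAll.succ (ClAll.succ ClAll.zero n36) s16)

def n59 : Cl (O (nat_lit 5)) (R (nat_lit 14353))
    (p (nat_lit 0x380c2) (nat_lit 0) (p (nat_lit 0x444aa) (nat_lit 7) (p (nat_lit 0xc1) (nat_lit 1) (p (nat_lit 0x200014) (nat_lit 0) (p (nat_lit 0x380c2) (nat_lit 0) (p (nat_lit 0x4c42a) (nat_lit 2) (p (nat_lit 0x111) (nat_lit 0) (p (nat_lit 0xc9) (nat_lit 0) (p (nat_lit 0x81) (nat_lit 0) (p (nat_lit 0x101) (nat_lit 1) (p (nat_lit 0x119) (nat_lit 0) (p (nat_lit 0xd1) (nat_lit 0) (p (nat_lit 0x89) (nat_lit 0) (p (nat_lit 0x41) (nat_lit 0) (p (nat_lit 0x10a0b0a89089a) (nat_lit 0) (p (nat_lit 0x98a8a08881a) (nat_lit 0) (p (nat_lit 0x109088988079a) (nat_lit 0) (p (nat_lit 0x8880907871a) (nat_lit 0) (p (nat_lit 0x8000000000800080887068a) (nat_lit 0) (p (nat_lit 0x10888068602) (nat_lit 0) (p (nat_lit 0x807860582) (nat_lit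 0) (p (nat_lit 0x10607058502) (nat_lit 0) (p (nat_lit 0x586850482) (nat_lit 0) (p (nat_lit 0x16000c) (nat_lit 0) (p (nat_lit 0x68612) (nat_lit 0) (p (nat_lit 0x50592) (nat_lit 0) (p (nat_lit 0x40512) (nat_lit 0) (p (nat_lit 0x50312) (nat_lit 0) (p (nat_lit 0x38292) (nat_lit 0) (p (nat_lit 0x28212) (nat_lit 0) (p (nat_lit 0x38112) (nat_lit 0) (p (nat_lit 0x20092) (nat_lit 0) (p (nat_lit 0x10012) (nat_lit 0) pn))))))))))))))))))))))))))))))))) :=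
  Cl.node (nat_lit 0xb000c) (nat_lit 2) (by decide +kernel) (ClAll.succ (ClAll.succ ClAll.zero n37) s42)

def n60 : Cl (O (nat_lit 5)) (R (nat_lit 14353))
    (p (nat_lit 0x119) (nat_lit 0) (p (nat_lit 0x100004) (nat_lit 0) (p (nat_lit 0x200004) (nat_lit 0) (p (nat_lit 0xb000c) (nat_lit 0) (p (nat_lit 0x380c2) (nat_lit 0) (p (nat_lit 0x444aa) (nat_lit 7) (p (nat_lit 0x109) (nat_lit 1) (p (nat_lit 0x101) (nat_lit 0) (p (nat_lit 0x81) (nat_lit 1) (p (nat_lit 0xc1) (nat_lit 1) (p (nat_lit 0x119) (nat_lit 1) (p (nat_lit 0xd1) (nat_lit 0) (p (nat_lit 0x89) (nat_lit 0) (p (nat_lit 0x41) (nat_lit 0) (p (nat_lit 0x10a0b0a89089a) (nat_lit 0) (p (nat_lit 0x98a8a08881a) (nat_lit 0) (p (nat_lit 0x109088988079a) (nat_lit 0) (p (nat_lit 0x8880907871a) (nat_lit 0) (p (nat_lit 0x8000000000800080887068a) (nat_lit 0) (p (nat_lit 0x10888068602) (nat_lit 0) (p (nat_lit 0x807860582) (nat_lit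 0) (p (nat_lit 0x10607058502) (nat_lit 0) (p (nat_lit 0x586850482) (nat_lit 0) (p (nat_lit 0x16000c) (nat_lit 0) (p (nat_lit 0x68612) (nat_lit 0) (p (nat_lit 0x50592) (nat_lit 0) (p (nat_lit 0x40512) (nat_lit 0) (p (nat_lit 0x50312) (nat_lit 0) (p (nat_lit 0x38292) (nat_lit 0) (p (nat_lit 0x28212) (nat_lit 0) (p (nat_lit 0x38112) (nat_lit 0) (p (nat_lit 0x20092) (nat_lit 0) (p (nat_lit 0x10012) (nat_lit 0) pn))))))))))))))))))))))))))))))))) :=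
  Cl.node (nat_lit 0x101) (nat_lit 2) (by decide +kernel) (ClAll.succ (ClAll.succ ClAll.zero s208) s209)

def n61 : Cl (O (nat_lit 5)) (R (nat_lit 14353))
    (p (nat_lit 0x119) (nat_lit 0) (p (nat_lit 0x100004) (nat_lit 0) (p (nat_lit 0x200004) (nat_lit 0) (p (nat_lit 0xb000c) (nat_lit 0) (p (nat_lit 0x380c2) (nat_lit 1) (p (nat_lit 0x444aa) (nat_lit 7) (p (nat_lit 0x109) (nat_lit 1) (p (nat_lit 0x101) (nat_lit 0) (p (nat_lit 0x81) (nat_lit 1) (p (nat_lit 0xc1) (nat_lit 1) (p (nat_lit 0x119) (nat_lit 1) (p (nat_lit 0xd1) (nat_lit 0) (p (nat_lit 0x89) (nat_lit 0) (p (nat_lit 0x41) (nat_lit 0) (p (nat_lit 0x10a0b0a89089a) (nat_lit 0) (p (nat_lit 0x98a8a08881a) (nat_lit 0) (p (nat_lit 0x109088988079a) (nat_lit 0) (p (nat_lit 0x8880907871a) (nat_lit 0) (p (nat_lit 0x8000000000800080887068a) (nat_lit 0) (p (nat_lit 0x10888068602) (nat_lit 0) (p (nat_lit 0x807860582) (nat_lit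 0) (p (nat_lit 0x10607058502) (nat_lit 0) (p (nat_lit 0x586850482) (nat_lit 0) (p (nat_lit 0x16000c) (nat_lit 0) (p (nat_lit 0x68612) (nat_lit 0) (p (nat_lit 0x50592) (nat_lit 0) (p (nat_lit 0x40512) (nat_lit 0) (p (nat_lit 0x50312) (nat_lit 0) (p (nat_lit 0x38292) (nat_lit 0) (p (nat_lit 0x28212) (nat_lit 0) (p (nat_lit 0x38112) (nat_lit 0) (p (nat_lit 0x20092) (nat_lit 0) (p (nat_lit 0x10012) (nat_lit 0) pn))))))))))))))))))))))))))))))))) :=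
  Cl.node (nat_lit 0x101) (nat_lit 2) (by decide +kernel) (ClAll.succ (ClAll.succ ClAll.zero s214) s215)

def n62 : Cl (O (nat_lit 5)) (R (nat_lit 14353))
    (p (nat_lit 0xb000c) (nat_lit 0) (p (nat_lit 0x100014) (nat_lit 0) (p (nat_lit 0x380c2) (nat_lit 0) (p (nat_lit 0x3cc2a) (nat_lit 0) (p (nat_lit 0x41) (nat_lit 0) (p (nat_lit 0x200014) (nat_lit 0) (p (nat_lit 0x200004) (nat_lit 0) (p (nat_lit 0xc1) (nat_lit 1) (p (nat_lit 0x109) (nat_lit 1) (p (nat_lit 0x101) (nat_lit 0) (p (nat_lit 0x111) (nat_lit 0) (p (nat_lit 0xd1) (nat_lit 1) (p (nat_lit 0x89) (nat_lit 0) (p (nat_lit 0x41) (nat_lit 0) (p (nat_lit 0x10a0b0a89089a) (nat_lit 0) (p (nat_lit 0x98a8a08881a) (nat_lit 0) (p (nat_lit 0x109088988079a) (nat_lit 0) (p (nat_lit 0x8880907871a) (nat_lit 0) (p (nat_lit 0x8000000000800080887068a) (nat_lit 0) (p (nat_lit 0x10888068602) (nat_lit 0) (p (nat_lit 0x807860582) (nat_lit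 0) (p (nat_lit 0x10607058502) (nat_lit 0) (p (nat_lit 0x586850482) (nat_lit 0) (p (nat_lit 0x16000c) (nat_lit 0) (p (nat_lit 0x68612) (nat_lit 0) (p (nat_lit 0x50592) (nat_lit 0) (p (nat_lit 0x40512) (nat_lit 0) (p (nat_lit 0x50312) (nat_lit 0) (p (nat_lit 0x38292) (nat_lit 0) (p (nat_lit 0x28212) (nat_lit 0) (p (nat_lit 0x38112) (nat_lit 0) (p (nat_lit 0x20092) (nat_lit 0) (p (nat_lit 0x10012) (nat_lit 0) pn))))))))))))))))))))))))))))))))) :=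
  Cl.node (nat_lit 0x5800c) (nat_lit 2) (by decide +kernel) (ClAll.succ (ClAll.succ ClAll.zero s238) s239)

def n63 : Cl (O (nat_lit 5)) (R (nat_lit 14353))
    (p (nat_lit 0xb000c) (nat_lit 0) (p (nat_lit 0x100014) (nat_lit 0) (p (nat_lit 0x380c2) (nat_lit 0) (p (nat_lit 0x3cc2a) (nat_lit 0) (p (nat_lit 0x109) (nat_lit 1) (p (nat_lit 0x200014) (nat_lit 0) (p (nat_lit 0x200004) (nat_lit 0) (p (nat_lit 0x119) (nat_lit 0) (p (nat_lit 0x81) (nat_lit 0) (p (nat_lit 0x101) (nat_lit 1) (p (nat_lit 0x111) (nat_lit 0) (p (nat_lit 0xd1) (nat_lit 1) (p (nat_lit 0x89) (nat_lit 0) (p (nat_lit 0x41) (nat_lit 0) (p (nat_lit 0x10a0b0a89089a) (nat_lit 0) (p (nat_lit 0x98a8a08881a) (nat_lit 0) (p (nat_lit 0x109088988079a) (nat_lit 0) (p (nat_lit 0x8880907871a) (nat_lit 0) (p (nat_lit 0x8000000000800080887068a) (nat_lit 0) (p (nat_lit 0x10888068602) (nat_lit 0) (p (nat_lit 0x807860582) (nat_lit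 0) (p (nat_lit 0x10607058502) (nat_lit 0) (p (nat_lit 0x586850482) (nat_lit 0) (p (nat_lit 0x16000c) (nat_lit 0) (p (nat_lit 0x68612) (nat_lit 0) (p (nat_lit 0x50592) (nat_lit 0) (p (nat_lit 0x40512) (nat_lit 0) (p (nat_lit 0x50312) (nat_lit 0) (p (nat_lit 0x38292) (nat_lit 0) (p (nat_lit 0x28212) (nat_lit 0) (p (nat_lit 0x38112) (nat_lit 0) (p (nat_lit 0x20092) (nat_lit 0) (p (nat_lit 0x10012) (nat_lit 0) pn))))))))))))))))))))))))))))))))) :=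
  Cl.node (nat_lit 0x5800c) (nat_lit 2) (by decide +kernel) (ClAll.succ (ClAll.succ ClAll.zero s269) s270)

def n64 : Cl (O (nat_lit 5)) (R (nat_lit 14353))
    (p (nat_lit 0x100004) (nat_lit 0) (p (nat_lit 0xc1) (nat_lit 0) (p (nat_lit 0x200004) (nat_lit 0) (p (nat_lit 0xb000c) (nat_lit 0) (p (nat_lit 0x380c2) (nat_lit 0) (p (nat_lit 0x444aa) (nat_lit 7) (p (nat_lit 0xd1) (nat_lit 1) (p (nat_lit 0x111) (nat_lit 1) (p (nat_lit 0x109) (nat_lit 0) (p (nat_lit 0x101) (nat_lit 0) (p (nat_lit 0x119) (nat_lit 0) (p (nat_lit 0xc9) (nat_lit 0) (p (nat_lit 0x89) (nat_lit 1) (p (nat_lit 0x41) (nat_lit 0) (p (nat_lit 0x10a0b0a89089a) (nat_lit 0) (p (nat_lit 0x98a8a08881a) (nat_lit 0) (p (nat_lit 0x109088988079a) (nat_lit 0) (p (nat_lit 0x8880907871a) (nat_lit 0) (p (nat_lit 0x8000000000800080887068a) (nat_lit 0) (p (nat_lit 0x10888068602) (nat_lit 0) (p (nat_lit 0x807860582) (nat_lit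 0) (p (nat_lit 0x10607058502) (nat_lit 0) (p (nat_lit 0x586850482) (nat_lit 0) (p (nat_lit 0x16000c) (nat_lit 0) (p (nat_lit 0x68612) (nat_lit 0) (p (nat_lit 0x50592) (nat_lit 0) (p (nat_lit 0x40512) (nat_lit 0) (p (nat_lit 0x50312) (nat_lit 0) (p (nat_lit 0x38292) (nat_lit 0) (p (nat_lit 0x28212) (nat_lit 0) (p (nat_lit 0x38112) (nat_lit 0) (p (nat_lit 0x20092) (nat_lit 0) (p (nat_lit 0x10012) (nat_lit 0) pn))))))))))))))))))))))))))))))))) :=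
  Cl.node (nat_lit 0xc9) (nat_lit 2) (by decide +kernel) (ClAll.succ (ClAll.succ ClAll.zero n38) s363)

def n65 : Cl (O (nat_lit 5)) (R (nat_lit 14353))
    (p (nat_lit 0x100004) (nat_lit 0) (p (nat_lit 0x1fc014) (nat_lit 0) (p (nat_lit 0x1fc004) (nat_lit 0) (p (nat_lit 0xb000c) (nat_lit 1) (p (nat_lit 0x380c2) (nat_lit 0) (p (nat_lit 0x444aa) (nat_lit 7) (p (nat_lit 0xd1) (nat_lit 1) (p (nat_lit 0x111) (nat_lit 1) (p (nat_lit 0x109) (nat_lit 0) (p (nat_lit 0x101) (nat_lit 0) (p (nat_lit 0x119) (nat_lit 0) (p (nat_lit 0xc9) (nat_lit 0) (p (nat_lit 0x89) (nat_lit 1) (p (nat_lit 0x41) (nat_lit 0) (p (nat_lit 0x10a0b0a89089a) (nat_lit 0) (p (nat_lit 0x98a8a08881a) (nat_lit 0) (p (nat_lit 0x109088988079a) (nat_lit 0) (p (nat_lit 0x8880907871a) (nat_lit 0) (p (nat_lit 0x8000000000800080887068a) (nat_lit 0) (p (nat_lit 0x10888068602) (nat_lit 0) (p (nat_lit 0x807860582) (nat_lit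 0) (p (nat_lit 0x10607058502) (nat_lit 0) (p (nat_lit 0x586850482) (nat_lit 0) (p (nat_lit 0x16000c) (nat_lit 0) (p (nat_lit 0x68612) (nat_lit 0) (p (nat_lit 0x50592) (nat_lit 0) (p (nat_lit 0x40512) (nat_lit 0) (p (nat_lit 0x50312) (nat_lit 0) (p (nat_lit 0x38292) (nat_lit 0) (p (nat_lit 0x28212) (nat_lit 0) (p (nat_lit 0x38112) (nat_lit 0) (p (nat_lit 0x20092) (nat_lit 0) (p (nat_lit 0x10012) (nat_lit 0) pn))))))))))))))))))))))))))))))))) :=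
  Cl.node (nat_lit 0x80004) (nat_lit 2) (by decide +kernel) (ClAll.succ (ClAll.succ ClAll.zero s367) n39)

def n66 : Cl (O (nat_lit 5)) (R (nat_lit 14353))
    (p (nat_lit 0xc1) (nat_lit 0) (p (nat_lit 0x100004) (nat_lit 0) (p (nat_lit 0xb000c) (nat_lit 0) (p (nat_lit 0x200004) (nat_lit 0) (p (nat_lit 0x380c2) (nat_lit 1) (p (nat_lit 0x444aa) (nat_lit 7) (p (nat_lit 0xd1) (nat_lit 1) (p (nat_lit 0x111) (nat_lit 1) (p (nat_lit 0x109) (nat_lit 0) (p (nat_lit 0x101) (nat_lit 0) (p (nat_lit 0x119) (nat_lit 0) (p (nat_lit 0xc9) (nat_lit 0) (p (nat_lit 0x89) (nat_lit 1) (p (nat_lit 0x41) (nat_lit 0) (p (nat_lit 0x10a0b0a89089a) (nat_lit 0) (p (nat_lit 0x98a8a08881a) (nat_lit 0) (p (nat_lit 0x109088988079a) (nat_lit 0) (p (nat_lit 0x8880907871a) (nat_lit 0) (p (nat_lit 0x8000000000800080887068a) (nat_lit 0) (p (nat_lit 0x10888068602) (nat_lit 0) (p (nat_lit 0x807860582) (nat_lit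 0) (p (nat_lit 0x10607058502) (nat_lit 0) (p (nat_lit 0x586850482) (nat_lit 0) (p (nat_lit 0x16000c) (nat_lit 0) (p (nat_lit 0x68612) (nat_lit 0) (p (nat_lit 0x50592) (nat_lit 0) (p (nat_lit 0x40512) (nat_lit 0) (p (nat_lit 0x50312) (nat_lit 0) (p (nat_lit 0x38292) (nat_lit 0) (p (nat_lit 0x28212) (nat_lit 0) (p (nat_lit 0x38112) (nat_lit 0) (p (nat_lit 0x20092) (nat_lit 0) (p (nat_lit 0x10012) (nat_lit 0) pn))))))))))))))))))))))))))))))))) :=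
  Cl.node (nat_lit 0xc9) (nat_lit 2) (by decide +kernel) (ClAll.succ (ClAll.succ ClAll.zero s376) s377)

def n67 : Cl (O (nat_lit 5)) (R (nat_lit 14353))
    (p (nat_lit 0xc1) (nat_lit 1) (p (nat_lit 0x100004) (nat_lit 0) (p (nat_lit 0xb000c) (nat_lit 0) (p (nat_lit 0x200004) (nat_lit 0) (p (nat_lit 0x380c2) (nat_lit 1) (p (nat_lit 0x444aa) (nat_lit 7) (p (nat_lit 0xd1) (nat_lit 1) (p (nat_lit 0x111) (nat_lit 1) (p (nat_lit 0x109) (nat_lit 0) (p (nat_lit 0x101) (nat_lit 0) (p (nat_lit 0x119) (nat_lit 0) (p (nat_lit 0xc9) (nat_lit 0) (p (nat_lit 0x89) (nat_lit 1) (p (nat_lit 0x41) (nat_lit 0) (p (nat_lit 0x10a0b0a89089a) (nat_lit 0) (p (nat_lit 0x98a8a08881a) (nat_lit 0) (p (nat_lit 0x109088988079a) (nat_lit 0) (p (nat_lit 0x8880907871a) (nat_lit 0) (p (nat_lit 0x8000000000800080887068a) (nat_lit 0) (p (nat_lit 0x10888068602) (nat_lit 0) (p (nat_lit 0x807860582) (nat_lit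 0) (p (nat_lit 0x10607058502) (nat_lit 0) (p (nat_lit 0x586850482) (nat_lit 0) (p (nat_lit 0x16000c) (nat_lit 0) (p (nat_lit 0x68612) (nat_lit 0) (p (nat_lit 0x50592) (nat_lit 0) (p (nat_lit 0x40512) (nat_lit 0) (p (nat_lit 0x50312) (nat_lit 0) (p (nat_lit 0x38292) (nat_lit 0) (p (nat_lit 0x28212) (nat_lit 0) (p (nat_lit 0x38112) (nat_lit 0) (p (nat_lit 0x20092) (nat_lit 0) (p (nat_lit 0x10012) (nat_lit 0) pn))))))))))))))))))))))))))))))))) :=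
  Cl.node (nat_lit 0x41) (nat_lit 2) (by decide +kernel) (ClAll.succ (ClAll.succ ClAll.zero s378) s379)

def n68 : Cl (O (nat_lit 5)) (R (nat_lit 14353))
    (p (nat_lit 0x5800c) (nat_lit 0) (p (nat_lit 0x300014) (nat_lit 1) (p (nat_lit 0x200014) (nat_lit 1) (p (nat_lit 0xb000c) (nat_lit 0) (p (nat_lit 0x380c2) (nat_lit 1) (p (nat_lit 0x444aa) (nat_lit 10) (p (nat_lit 0xd1) (nat_lit 1) (p (nat_lit 0x111) (nat_lit 1) (p (nat_lit 0x109) (nat_lit 0) (p (nat_lit 0x101) (nat_lit 0) (p (nat_lit 0x119) (nat_lit 0) (p (nat_lit 0xc9) (nat_lit 0) (p (nat_lit 0x89) (nat_lit 1) (p (nat_lit 0x41) (nat_lit 0) (p (nat_lit 0x10a0b0a89089a) (nat_lit 0) (p (nat_lit 0x98a8a08881a) (nat_lit 0) (p (nat_lit 0x109088988079a) (nat_lit 0) (p (nat_lit 0x8880907871a) (nat_lit 0) (p (nat_lit 0x8000000000800080887068a) (nat_lit 0) (p (nat_lit 0x10888068602) (nat_lit 0) (p (nat_lit 0x807860582) (nat_lit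 0) (p (nat_lit 0x10607058502) (nat_lit 0) (p (nat_lit 0x586850482) (nat_lit 0) (p (nat_lit 0x16000c) (nat_lit 0) (p (nat_lit 0x68612) (nat_lit 0) (p (nat_lit 0x50592) (nat_lit 0) (p (nat_lit 0x40512) (nat_lit 0) (p (nat_lit 0x50312) (nat_lit 0) (p (nat_lit 0x38292) (nat_lit 0) (p (nat_lit 0x28212) (nat_lit 0) (p (nat_lit 0x38112) (nat_lit 0) (p (nat_lit 0x20092) (nat_lit 0) (p (nat_lit 0x10012) (nat_lit 0) pn))))))))))))))))))))))))))))))))) :=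
  Cl.node (nat_lit 0x200004) (nat_lit 2) (by decide +kernel) (ClAll.succ (ClAll.succ ClAll.zero n40) s390)

def n69 : Cl (O (nat_lit 5)) (R (nat_lit 14353))
    (p (nat_lit 0xc9) (nat_lit 0) (p (nat_lit 0x100004) (nat_lit 0) (p (nat_lit 0x200004) (nat_lit 0) (p (nat_lit 0xc1) (nat_lit 0) (p (nat_lit 0xb000c) (nat_lit 0) (p (nat_lit 0x380c2) (nat_lit 0) (p (nat_lit 0x444aa) (nat_lit 7) (p (nat_lit 0xd1) (nat_lit 1) (p (nat_lit 0x109) (nat_lit 1) (p (nat_lit 0x101) (nat_lit 0) (p (nat_lit 0x119) (nat_lit 0) (p (nat_lit 0xc9) (nat_lit 0) (p (nat_lit 0x89) (nat_lit 1) (p (nat_lit 0x41) (nat_lit 0) (p (nat_lit 0x10a0b0a89089a) (nat_lit 0) (p (nat_lit 0x98a8a08881a) (nat_lit 0) (p (nat_lit 0x109088988079a) (nat_lit 0) (p (nat_lit 0x8880907871a) (nat_lit 0) (p (nat_lit 0x8000000000800080887068a) (nat_lit 0) (p (nat_lit 0x10888068602) (nat_lit 0) (p (nat_lit 0x807860582) (nat_lit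 0) (p (nat_lit 0x10607058502) (nat_lit 0) (p (nat_lit 0x586850482) (nat_lit 0) (p (nat_lit 0x16000c) (nat_lit 0) (p (nat_lit 0x68612) (nat_lit 0) (p (nat_lit 0x50592) (nat_lit 0) (p (nat_lit 0x40512) (nat_lit 0) (p (nat_lit 0x50312) (nat_lit 0) (p (nat_lit 0x38292) (nat_lit 0) (p (nat_lit 0x28212) (nat_lit 0) (p (nat_lit 0x38112) (nat_lit 0) (p (nat_lit 0x20092) (nat_lit 0) (p (nat_lit 0x10012) (nat_lit 0) pn))))))))))))))))))))))))))))))))) :=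
  Cl.node (nat_lit 0xd1) (nat_lit 2) (by decide +kernel) (ClAll.succ (ClAll.succ ClAll.zero n41) s429)

def n70 : Cl (O (nat_lit 5)) (R (nat_lit 14353))
    (p (nat_lit 0x2a825800002680d0c8d0b8b0a) (nat_lit 0) (p (nat_lit 0x100004) (nat_lit 0) (p (nat_lit 0x1fc014) (nat_lit 0) (p (nat_lit 0x1fc004) (nat_lit 0) (p (nat_lit 0xb000c) (nat_lit 1) (p (nat_lit 0x380c2) (nat_lit 0) (p (nat_lit 0x444aa) (nat_lit 7) (p (nat_lit 0xd1) (nat_lit 1) (p (nat_lit 0x109) (nat_lit 1) (p (nat_lit 0x101) (nat_lit 0) (p (nat_lit 0x119) (nat_lit 0) (p (nat_lit 0xc9) (nat_lit 0) (p (nat_lit 0x89) (nat_lit 1) (p (nat_lit 0x41) (nat_lit 0) (p (nat_lit 0x10a0b0a89089a) (nat_lit 0) (p (nat_lit 0x98a8a08881a) (nat_lit 0) (p (nat_lit 0x109088988079a) (nat_lit 0) (p (nat_lit 0x8880907871a) (nat_lit 0) (p (nat_lit 0x8000000000800080887068a) (nat_lit 0) (p (nat_lit 0x10888068602) (nat_lit 0) (p (nat_lit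 0x807860582) (nat_lit 0) (p (nat_lit 0x10607058502) (nat_lit 0) (p (nat_lit 0x586850482) (nat_lit 0) (p (nat_lit 0x16000c) (nat_lit 0) (p (nat_lit 0x68612) (nat_lit 0) (p (nat_lit 0x50592) (nat_lit 0) (p (nat_lit 0x40512) (nat_lit 0) (p (nat_lit 0x50312) (nat_lit 0) (p (nat_lit 0x38292) (nat_lit 0) (p (nat_lit 0x28212) (nat_lit 0) (p (nat_lit 0x38112) (nat_lit 0) (p (nat_lit 0x20092) (nat_lit 0) (p (nat_lit 0x10012) (nat_lit 0) pn))))))))))))))))))))))))))))))))) :=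
  Cl.node (nat_lit 0xd0c8d8c0b9a) (nat_lit 1) (by decide +kernel) (ClAll.succ ClAll.zero n42)

def n71 : Cl (O (nat_lit 5)) (R (nat_lit 14353))
    (p (nat_lit 0xc9) (nat_lit 0) (p (nat_lit 0x100004) (nat_lit 0) (p (nat_lit 0xc1) (nat_lit 0) (p (nat_lit 0x200004) (nat_lit 0) (p (nat_lit 0xb000c) (nat_lit 0) (p (nat_lit 0x380c2) (nat_lit 1) (p (nat_lit 0x444aa) (nat_lit 7) (p (nat_lit 0xd1) (nat_lit 1) (p (nat_lit 0x109) (nat_lit 1) (p (nat_lit 0x101) (nat_lit 0) (p (nat_lit 0x119) (nat_lit 0) (p (nat_lit 0xc9) (nat_lit 0) (p (nat_lit 0x89) (nat_lit 1) (p (nat_lit 0x41) (nat_lit 0) (p (nat_lit 0x10a0b0a89089a) (nat_lit 0) (p (nat_lit 0x98a8a08881a) (nat_lit 0) (p (nat_lit 0x109088988079a) (nat_lit 0) (p (nat_lit 0x8880907871a) (nat_lit 0) (p (nat_lit 0x8000000000800080887068a) (nat_lit 0) (p (nat_lit 0x10888068602) (nat_lit 0) (p (nat_lit 0x807860582) (nat_lit 0) (p (nat_lit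 0x10607058502) (nat_lit 0) (p (nat_lit 0x586850482) (nat_lit 0) (p (nat_lit 0x16000c) (nat_lit 0) (p (nat_lit 0x68612) (nat_lit 0) (p (nat_lit 0x50592) (nat_lit 0) (p (nat_lit 0x40512) (nat_lit 0) (p (nat_lit 0x50312) (nat_lit 0) (p (nat_lit 0x38292) (nat_lit 0) (p (nat_lit 0x28212) (nat_lit 0) (p (nat_lit 0x38112) (nat_lit 0) (p (nat_lit 0x20092) (nat_lit 0) (p (nat_lit 0x10012) (nat_lit 0) pn))))))))))))))))))))))))))))))))) :=
  Cl.node (nat_lit 0xd1) (nat_lit 2) (by decide +kernel) (ClAll.succ (ClAll.succ ClAll.zero s439) s440)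

def n72 : Cl (O (nat_lit 5)) (R (nat_lit 14353))
    (p (nat_lit 0x80004) (nat_lit 0) (p (nat_lit 0x100004) (nat_lit 0) (p (nat_lit 0x1fc014) (nat_lit 0) (p (nat_lit 0x1fc004) (nat_lit 0) (p (nat_lit 0xb000c) (nat_lit 1) (p (nat_lit 0x380c2) (nat_lit 0) (p (nat_lit 0x444aa) (nat_lit 7) (p (nat_lit 0x111) (nat_lit 1) (p (nat_lit 0xd1) (nat_lit 1) (p (nat_lit 0xc1) (nat_lit 0) (p (nat_lit 0x119) (nat_lit 1) (p (nat_lit 0xc9) (nat_lit 0) (p (nat_lit 0x89) (nat_lit 1) (p (nat_lit 0x41) (nat_lit 0) (p (nat_lit 0x10a0b0a89089a) (nat_lit 0) (p (nat_lit 0x98a8a08881a) (nat_lit 0) (p (nat_lit 0x109088988079a) (nat_lit 0) (p (nat_lit 0x8880907871a) (nat_lit 0) (p (nat_lit 0x8000000000800080887068a) (nat_lit 0) (p (nat_lit 0x10888068602) (nat_lit 0) (p (nat_lit 0x807860582) (nat_lit 0) (p (nat_lit 0x10607058502) (nat_lit 0) (p (nat_lit 0x586850482) (nat_lit 0) (p (nat_lit 0x16000c)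 (nat_lit 0) (p (nat_lit 0x68612) (nat_lit 0) (p (nat_lit 0x50592) (nat_lit 0) (p (nat_lit 0x40512) (nat_lit 0) (p (nat_lit 0x50312) (nat_lit 0) (p (nat_lit 0x38292) (nat_lit 0) (p (nat_lit 0x28212) (nat_lit 0) (p (nat_lit 0x38112) (nat_lit 0) (p (nat_lit 0x20092) (nat_lit 0) (p (nat_lit 0x10012) (nat_lit 0) pn))))))))))))))))))))))))))))))))) :=
  Cl.node (nat_lit 0x2a82580000228010c8d0b8b0a) (nat_lit 1) (by decide +kernel) (ClAll.succ ClAll.zero n43)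

def n73 : Cl (O (nat_lit 5)) (R (nat_lit 14353))
    (p (nat_lit 0x119) (nat_lit 0) (p (nat_lit 0x100004) (nat_lit 0) (p (nat_lit 0x200004) (nat_lit 0) (p (nat_lit 0x109) (nat_lit 0) (p (nat_lit 0xb000c) (nat_lit 0) (p (nat_lit 0x380c2) (nat_lit 1) (p (nat_lit 0x444aa) (nat_lit 7) (p (nat_lit 0x111) (nat_lit 1) (p (nat_lit 0x101) (nat_lit 0) (p (nat_lit 0xc1) (nat_lit 1) (p (nat_lit 0x119) (nat_lit 1) (p (nat_lit 0xc9) (nat_lit 0) (p (nat_lit 0x89) (nat_lit 1) (p (nat_lit 0x41) (nat_lit 0) (p (nat_lit 0x10a0b0a89089a) (nat_lit 0) (p (nat_lit 0x98a8a08881a) (nat_lit 0) (p (nat_lit 0x109088988079a) (nat_lit 0) (p (nat_lit 0x8880907871a) (nat_lit 0) (p (nat_lit 0x8000000000800080887068a) (nat_lit 0) (p (nat_lit 0x10888068602) (nat_lit 0) (p (nat_lit 0x807860582) (nat_lit 0) (p (nat_lit 0x10607058502) (nat_lit 0) (p (nat_lit 0x586850482) (nat_lit 0) (p (nat_lit 0x16000c) (nat_lit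 0) (p (nat_lit 0x68612) (nat_lit 0) (p (nat_lit 0x50592) (nat_lit 0) (p (nat_lit 0x40512) (nat_lit 0) (p (nat_lit 0x50312) (nat_lit 0) (p (nat_lit 0x38292) (nat_lit 0) (p (nat_lit 0x28212) (nat_lit 0) (p (nat_lit 0x38112) (nat_lit 0) (p (nat_lit 0x20092) (nat_lit 0) (p (nat_lit 0x10012) (nat_lit 0) pn))))))))))))))))))))))))))))))))) :=
  Cl.node (nat_lit 0x101) (nat_lit 2) (by decide +kernel) (ClAll.succ (ClAll.succ ClAll.zero s534) s535)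

def n74 : Cl (O (nat_lit 5)) (R (nat_lit 14353))
    (p (nat_lit 0x200014) (nat_lit 0) (p (nat_lit 0x380c2) (nat_lit 0) (p (nat_lit 0x44c2a) (nat_lit 1) (p (nat_lit 0x111) (nat_lit 1) (p (nat_lit 0x380c2) (nat_lit 0) (p (nat_lit 0x4c42a) (nat_lit 2) (p (nat_lit 0xc9) (nat_lit 0) (p (nat_lit 0x89) (nat_lit 1) (p (nat_lit 0x109) (nat_lit 1) (p (nat_lit 0x101) (nat_lit 0) (p (nat_lit 0x119) (nat_lit 0) (p (nat_lit 0xd1) (nat_lit 0) (p (nat_lit 0x81) (nat_lit 0) (p (nat_lit 0x41) (nat_lit 1) (p (nat_lit 0x10a0b0a89089a) (nat_lit 0) (p (nat_lit 0x98a8a08881a) (nat_lit 0) (p (nat_lit 0x109088988079a) (nat_lit 0) (p (nat_lit 0x8880907871a) (nat_lit 0) (p (nat_lit 0x8000000000800080887068a) (nat_lit 0) (p (nat_lit 0x10888068602) (nat_lit 0) (p (nat_lit 0x807860582) (nat_lit 0) (p (nat_lit 0x10607058502) (nat_lit 0) (p (nat_lit 0x586850482) (nat_lit 0) (p (nat_lit 0x16000c) (nat_lit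 0) (p (nat_lit 0x68612) (nat_lit 0) (p (nat_lit 0x50592) (nat_lit 0) (p (nat_lit 0x40512) (nat_lit 0) (p (nat_lit 0x50312) (nat_lit 0) (p (nat_lit 0x38292) (nat_lit 0) (p (nat_lit 0x28212) (nat_lit 0) (p (nat_lit 0x38112) (nat_lit 0) (p (nat_lit 0x20092) (nat_lit 0) (p (nat_lit 0x10012) (nat_lit 0) pn))))))))))))))))))))))))))))))))) :=
  Cl.node (nat_lit 0x100014) (nat_lit 2) (by decide +kernel) (ClAll.succ (ClAll.succ ClAll.zero n44) s605)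

def n75 : Cl (O (nat_lit 5)) (R (nat_lit 14353))
    (p (nat_lit 0x200014) (nat_lit 0) (p (nat_lit 0x380c2) (nat_lit 1) (p (nat_lit 0x44c2a) (nat_lit 1) (p (nat_lit 0x111) (nat_lit 1) (p (nat_lit 0x380c2) (nat_lit 0) (p (nat_lit 0x4c42a) (nat_lit 2) (p (nat_lit 0xc9) (nat_lit 0) (p (nat_lit 0x89) (nat_lit 1) (p (nat_lit 0x109) (nat_lit 1) (p (nat_lit 0x101) (nat_lit 0) (p (nat_lit 0x119) (nat_lit 0) (p (nat_lit 0xd1) (nat_lit 0) (p (nat_lit 0x81) (nat_lit 0) (p (nat_lit 0x41) (nat_lit 1) (p (nat_lit 0x10a0b0a89089a) (nat_lit 0) (p (nat_lit 0x98a8a08881a) (nat_lit 0) (p (nat_lit 0x109088988079a) (nat_lit 0) (p (nat_lit 0x8880907871a) (nat_lit 0) (p (nat_lit 0x8000000000800080887068a) (nat_lit 0) (p (nat_lit 0x10888068602) (nat_lit 0) (p (nat_lit 0x807860582) (nat_lit 0) (p (nat_lit 0x10607058502) (nat_lit 0) (p (nat_lit 0x586850482) (nat_lit 0) (p (nat_lit 0x16000c) (nat_lit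 0) (p (nat_lit 0x68612) (nat_lit 0) (p (nat_lit 0x50592) (nat_lit 0) (p (nat_lit 0x40512) (nat_lit 0) (p (nat_lit 0x50312) (nat_lit 0) (p (nat_lit 0x38292) (nat_lit 0) (p (nat_lit 0x28212) (nat_lit 0) (p (nat_lit 0x38112) (nat_lit 0) (p (nat_lit 0x20092) (nat_lit 0) (p (nat_lit 0x10012) (nat_lit 0) pn))))))))))))))))))))))))))))))))) :=
  Cl.node (nat_lit 0x81) (nat_lit 2) (by decide +kernel) (ClAll.succ (ClAll.succ ClAll.zero n45) s610)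

def n76 : Cl (O (nat_lit 5)) (R (nat_lit 14353))
    (p (nat_lit 0x111) (nat_lit 1) (p (nat_lit 0x200014) (nat_lit 0) (p (nat_lit 0x380c2) (nat_lit 0) (p (nat_lit 0x44c2a) (nat_lit 0) (p (nat_lit 0x380c2) (nat_lit 0) (p (nat_lit 0x4c42a) (nat_lit 2) (p (nat_lit 0xc9) (nat_lit 0) (p (nat_lit 0x89) (nat_lit 1) (p (nat_lit 0xc1) (nat_lit 0) (p (nat_lit 0x101) (nat_lit 1) (p (nat_lit 0x119) (nat_lit 0) (p (nat_lit 0xd1) (nat_lit 0) (p (nat_lit 0x81) (nat_lit 0) (p (nat_lit 0x41) (nat_lit 1) (p (nat_lit 0x10a0b0a89089a) (nat_lit 0) (p (nat_lit 0x98a8a08881a) (nat_lit 0) (p (nat_lit 0x109088988079a) (nat_lit 0) (p (nat_lit 0x8880907871a) (nat_lit 0) (p (nat_lit 0x8000000000800080887068a) (nat_lit 0) (p (nat_lit 0x10888068602) (nat_lit 0) (p (nat_lit 0x807860582) (nat_lit 0) (p (nat_lit 0x10607058502) (nat_lit 0) (p (nat_lit 0x586850482) (nat_lit 0) (p (nat_lit 0x16000c) (nat_lit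 0) (p (nat_lit 0x68612) (nat_lit 0) (p (nat_lit 0x50592) (nat_lit 0) (p (nat_lit 0x40512) (nat_lit 0) (p (nat_lit 0x50312) (nat_lit 0) (p (nat_lit 0x38292) (nat_lit 0) (p (nat_lit 0x28212) (nat_lit 0) (p (nat_lit 0x38112) (nat_lit 0) (p (nat_lit 0x20092) (nat_lit 0) (p (nat_lit 0x10012) (nat_lit 0) pn))))))))))))))))))))))))))))))))) :=
  Cl.node (nat_lit 0x100014) (nat_lit 2) (by decide +kernel) (ClAll.succ (ClAll.succ ClAll.zero n46) s665)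

def n77 : Cl (O (nat_lit 5)) (R (nat_lit 14353))
    (p (nat_lit 0x111) (nat_lit 1) (p (nat_lit 0x200014) (nat_lit 0) (p (nat_lit 0x380c2) (nat_lit 0) (p (nat_lit 0x44c2a) (nat_lit 1) (p (nat_lit 0x380c2) (nat_lit 0) (p (nat_lit 0x4c42a) (nat_lit 2) (p (nat_lit 0xc9) (nat_lit 0) (p (nat_lit 0x89) (nat_lit 1) (p (nat_lit 0xc1) (nat_lit 0) (p (nat_lit 0x101) (nat_lit 1) (p (nat_lit 0x119) (nat_lit 0) (p (nat_lit 0xd1) (nat_lit 0) (p (nat_lit 0x81) (nat_lit 0) (p (nat_lit 0x41) (nat_lit 1) (p (nat_lit 0x10a0b0a89089a) (nat_lit 0) (p (nat_lit 0x98a8a08881a) (nat_lit 0) (p (nat_lit 0x109088988079a) (nat_lit 0) (p (nat_lit 0x8880907871a) (nat_lit 0) (p (nat_lit 0x8000000000800080887068a) (nat_lit 0) (p (nat_lit 0x10888068602) (nat_lit 0) (p (nat_lit 0x807860582) (nat_lit 0) (p (nat_lit 0x10607058502) (nat_lit 0) (p (nat_lit 0x586850482) (nat_lit 0) (p (nat_lit 0x16000c) (nat_lit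 0) (p (nat_lit 0x68612) (nat_lit 0) (p (nat_lit 0x50592) (nat_lit 0) (p (nat_lit 0x40512) (nat_lit 0) (p (nat_lit 0x50312) (nat_lit 0) (p (nat_lit 0x38292) (nat_lit 0) (p (nat_lit 0x28212) (nat_lit 0) (p (nat_lit 0x38112) (nat_lit 0) (p (nat_lit 0x20092) (nat_lit 0) (p (nat_lit 0x10012) (nat_lit 0) pn))))))))))))))))))))))))))))))))) :=
  Cl.node (nat_lit 0xb000c) (nat_lit 2) (by decide +kernel) (ClAll.succ (ClAll.succ ClAll.zero s668) s669)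

def n78 : Cl (O (nat_lit 5)) (R (nat_lit 14353))
    (p (nat_lit 0x111) (nat_lit 1) (p (nat_lit 0x200014) (nat_lit 0) (p (nat_lit 0x380c2) (nat_lit 1) (p (nat_lit 0x44c2a) (nat_lit 1) (p (nat_lit 0x380c2) (nat_lit 0) (p (nat_lit 0x4c42a) (nat_lit 2) (p (nat_lit 0xc9) (nat_lit 0) (p (nat_lit 0x89) (nat_lit 1) (p (nat_lit 0xc1) (nat_lit 0) (p (nat_lit 0x101) (nat_lit 1) (p (nat_lit 0x119) (nat_lit 0) (p (nat_lit 0xd1) (nat_lit 0) (p (nat_lit 0x81) (nat_lit 0) (p (nat_lit 0x41) (nat_lit 1) (p (nat_lit 0x10a0b0a89089a) (nat_lit 0) (p (nat_lit 0x98a8a08881a) (nat_lit 0) (p (nat_lit 0x109088988079a) (nat_lit 0) (p (nat_lit 0x8880907871a) (nat_lit 0) (p (nat_lit 0x8000000000800080887068a) (nat_lit 0) (p (nat_lit 0x10888068602) (nat_lit 0) (p (nat_lit 0x807860582) (nat_lit 0) (p (nat_lit 0x10607058502) (nat_lit 0) (p (nat_lit 0x586850482) (nat_lit 0) (p (nat_lit 0x16000c) (nat_lit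 0) (p (nat_lit 0x68612) (nat_lit 0) (p (nat_lit 0x50592) (nat_lit 0) (p (nat_lit 0x40512) (nat_lit 0) (p (nat_lit 0x50312) (nat_lit 0) (p (nat_lit 0x38292) (nat_lit 0) (p (nat_lit 0x28212) (nat_lit 0) (p (nat_lit 0x38112) (nat_lit 0) (p (nat_lit 0x20092) (nat_lit 0) (p (nat_lit 0x10012) (nat_lit 0) pn))))))))))))))))))))))))))))))))) :=
  Cl.node (nat_lit 0x100014) (nat_lit 2) (by decide +kernel) (ClAll.succ (ClAll.succ ClAll.zero n47) s674)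

def n79 : Cl (O (nat_lit 5)) (R (nat_lit 14353))
    (p (nat_lit 0x100004) (nat_lit 0) (p (nat_lit 0xc1) (nat_lit 0) (p (nat_lit 0xc9) (nat_lit 0) (p (nat_lit 0x200004) (nat_lit 0) (p (nat_lit 0xb000c) (nat_lit 0) (p (nat_lit 0x380c2) (nat_lit 1) (p (nat_lit 0x3c4aa) (nat_lit 7) (p (nat_lit 0x89) (nat_lit 1) (p (nat_lit 0xc1) (nat_lit 1) (p (nat_lit 0x101) (nat_lit 1) (p (nat_lit 0x119) (nat_lit 0) (p (nat_lit 0xd1) (nat_lit 0) (p (nat_lit 0x81) (nat_lit 0) (p (nat_lit 0x41) (nat_lit 1) (p (nat_lit 0x10a0b0a89089a) (nat_lit 0) (p (nat_lit 0x98a8a08881a) (nat_lit 0) (p (nat_lit 0x109088988079a) (nat_lit 0) (p (nat_lit 0x8880907871a) (nat_lit 0) (p (nat_lit 0x8000000000800080887068a) (nat_lit 0) (p (nat_lit 0x10888068602) (nat_lit 0) (p (nat_lit 0x807860582) (nat_lit 0) (p (nat_lit 0x10607058502) (nat_lit 0) (p (nat_lit 0x586850482) (nat_lit 0) (p (nat_lit 0x16000c) (nat_lit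 0) (p (nat_lit 0x68612) (nat_lit 0) (p (nat_lit 0x50592) (nat_lit 0) (p (nat_lit 0x40512) (nat_lit 0) (p (nat_lit 0x50312) (nat_lit 0) (p (nat_lit 0x38292) (nat_lit 0) (p (nat_lit 0x28212) (nat_lit 0) (p (nat_lit 0x38112) (nat_lit 0) (p (nat_lit 0x20092) (nat_lit 0) (p (nat_lit 0x10012) (nat_lit 0) pn))))))))))))))))))))))))))))))))) :=
  Cl.node (nat_lit 0xc9) (nat_lit 2) (by decide +kernel) (ClAll.succ (ClAll.succ ClAll.zero s742) s743)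

def n80 : Cl (O (nat_lit 5)) (R (nat_lit 14353))
    (p (nat_lit 0x200014) (nat_lit 0) (p (nat_lit 0x100004) (nat_lit 0) (p (nat_lit 0x200004) (nat_lit 0) (p (nat_lit 0xb000c) (nat_lit 0) (p (nat_lit 0x380c2) (nat_lit 1) (p (nat_lit 0x3c4aa) (nat_lit 10) (p (nat_lit 0x109) (nat_lit 1) (p (nat_lit 0x89) (nat_lit 1) (p (nat_lit 0xc9) (nat_lit 1) (p (nat_lit 0xc1) (nat_lit 0) (p (nat_lit 0x119) (nat_lit 1) (p (nat_lit 0xd1) (nat_lit 0) (p (nat_lit 0x81) (nat_lit 0) (p (nat_lit 0x41) (nat_lit 1) (p (nat_lit 0x10a0b0a89089a) (nat_lit 0) (p (nat_lit 0x98a8a08881a) (nat_lit 0) (p (nat_lit 0x109088988079a) (nat_lit 0) (p (nat_lit 0x8880907871a) (nat_lit 0) (p (nat_lit 0x8000000000800080887068a) (nat_lit 0) (p (nat_lit 0x10888068602) (nat_lit 0) (p (nat_lit 0x807860582) (nat_lit 0) (p (nat_lit 0x10607058502) (nat_lit 0) (p (nat_lit 0x586850482) (nat_lit 0) (p (nat_lit 0x16000c)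 (nat_lit 0) (p (nat_lit 0x68612) (nat_lit 0) (p (nat_lit 0x50592) (nat_lit 0) (p (nat_lit 0x40512) (nat_lit 0) (p (nat_lit 0x50312) (nat_lit 0) (p (nat_lit 0x38292) (nat_lit 0) (p (nat_lit 0x28212) (nat_lit 0) (p (nat_lit 0x38112) (nat_lit 0) (p (nat_lit 0x20092) (nat_lit 0) (p (nat_lit 0x10012) (nat_lit 0) pn))))))))))))))))))))))))))))))))) :=
  Cl.node (nat_lit 0x100014) (nat_lit 2) (by decide +kernel) (ClAll.succ (ClAll.succ ClAll.zero n48) s822)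

def n81 : Cl (O (nat_lit 5)) (R (nat_lit 14353))
    (p (nat_lit 0x100004) (nat_lit 0) (p (nat_lit 0x1fc014) (nat_lit 0) (p (nat_lit 0x1fc004) (nat_lit 0) (p (nat_lit 0xb000c) (nat_lit 1) (p (nat_lit 0x380c2) (nat_lit 1) (p (nat_lit 0x3c4aa) (nat_lit 10) (p (nat_lit 0x109) (nat_lit 1) (p (nat_lit 0x89) (nat_lit 1) (p (nat_lit 0xc9) (nat_lit 1) (p (nat_lit 0xc1) (nat_lit 0) (p (nat_lit 0x119) (nat_lit 1) (p (nat_lit 0xd1) (nat_lit 0) (p (nat_lit 0x81) (nat_lit 0) (p (nat_lit 0x41) (nat_lit 1) (p (nat_lit 0x10a0b0a89089a) (nat_lit 0) (p (nat_lit 0x98a8a08881a) (nat_lit 0) (p (nat_lit 0x109088988079a) (nat_lit 0) (p (nat_lit 0x8880907871a) (nat_lit 0) (p (nat_lit 0x8000000000800080887068a) (nat_lit 0) (p (nat_lit 0x10888068602) (nat_lit 0) (p (nat_lit 0x807860582) (nat_lit 0) (p (nat_lit 0x10607058502) (nat_lit 0) (p (nat_lit 0x586850482) (nat_lit 0) (p (nat_lit 0x16000c)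 (nat_lit 0) (p (nat_lit 0x68612) (nat_lit 0) (p (nat_lit 0x50592) (nat_lit 0) (p (nat_lit 0x40512) (nat_lit 0) (p (nat_lit 0x50312) (nat_lit 0) (p (nat_lit 0x38292) (nat_lit 0) (p (nat_lit 0x28212) (nat_lit 0) (p (nat_lit 0x38112) (nat_lit 0) (p (nat_lit 0x20092) (nat_lit 0) (p (nat_lit 0x10012) (nat_lit 0) pn))))))))))))))))))))))))))))))))) :=
  Cl.node (nat_lit 0x100014) (nat_lit 2) (by decide +kernel) (ClAll.succ (ClAll.succ ClAll.zero s826) s827)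

def n82 : Cl (O (nat_lit 5)) (R (nat_lit 14353))
    (p (nat_lit 0x10800c) (nat_lit 0) (p (nat_lit 0x1fc014) (nat_lit 0) (p (nat_lit 0x1fc004) (nat_lit 0) (p (nat_lit 0xb000c) (nat_lit 1) (p (nat_lit 0x380c2) (nat_lit 1) (p (nat_lit 0x3c4aa) (nat_lit 7) (p (nat_lit 0x109) (nat_lit 1) (p (nat_lit 0x89) (nat_lit 1) (p (nat_lit 0x101) (nat_lit 0) (p (nat_lit 0xc1) (nat_lit 1) (p (nat_lit 0x119) (nat_lit 1) (p (nat_lit 0xd1) (nat_lit 0) (p (nat_lit 0x81) (nat_lit 0) (p (nat_lit 0x41) (nat_lit 1) (p (nat_lit 0x10a0b0a89089a) (nat_lit 0) (p (nat_lit 0x98a8a08881a) (nat_lit 0) (p (nat_lit 0x109088988079a) (nat_lit 0) (p (nat_lit 0x8880907871a) (nat_lit 0) (p (nat_lit 0x8000000000800080887068a) (nat_lit 0) (p (nat_lit 0x10888068602) (nat_lit 0) (p (nat_lit 0x807860582) (nat_lit 0) (p (nat_lit 0x10607058502) (nat_lit 0) (p (nat_lit 0x586850482) (nat_lit 0) (p (nat_lit 0x16000c)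 (nat_lit 0) (p (nat_lit 0x68612) (nat_lit 0) (p (nat_lit 0x50592) (nat_lit 0) (p (nat_lit 0x40512) (nat_lit 0) (p (nat_lit 0x50312) (nat_lit 0) (p (nat_lit 0x38292) (nat_lit 0) (p (nat_lit 0x28212) (nat_lit 0) (p (nat_lit 0x38112) (nat_lit 0) (p (nat_lit 0x20092) (nat_lit 0) (p (nat_lit 0x10012) (nat_lit 0) pn))))))))))))))))))))))))))))))))) :=
  Cl.node (nat_lit 0x100014) (nat_lit 2) (by decide +kernel) (ClAll.succ (ClAll.succ ClAll.zero n49) s879)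

def n83 : Cl (O (nat_lit 5)) (R (nat_lit 14353))
    (p (nat_lit 0x200004) (nat_lit 0) (p (nat_lit 0x100014) (nat_lit 0) (p (nat_lit 0x200014) (nat_lit 0) (p (nat_lit 0xb000c) (nat_lit 0) (p (nat_lit 0x380c2) (nat_lit 1) (p (nat_lit 0x3c4aa) (nat_lit 10) (p (nat_lit 0x109) (nat_lit 1) (p (nat_lit 0x89) (nat_lit 1) (p (nat_lit 0x101) (nat_lit 0) (p (nat_lit 0xc1) (nat_lit 1) (p (nat_lit 0x119) (nat_lit 1) (p (nat_lit 0xd1) (nat_lit 0) (p (nat_lit 0x81) (nat_lit 0) (p (nat_lit 0x41) (nat_lit 1) (p (nat_lit 0x10a0b0a89089a) (nat_lit 0) (p (nat_lit 0x98a8a08881a) (nat_lit 0) (p (nat_lit 0x109088988079a) (nat_lit 0) (p (nat_lit 0x8880907871a) (nat_lit 0) (p (nat_lit 0x8000000000800080887068a) (nat_lit 0) (p (nat_lit 0x10888068602) (nat_lit 0) (p (nat_lit 0x807860582) (nat_lit 0) (p (nat_lit 0x10607058502) (nat_lit 0) (p (nat_lit 0x586850482) (nat_lit 0) (p (nat_lit 0x16000c)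 (nat_lit 0) (p (nat_lit 0x68612) (nat_lit 0) (p (nat_lit 0x50592) (nat_lit 0) (p (nat_lit 0x40512) (nat_lit 0) (p (nat_lit 0x50312) (nat_lit 0) (p (nat_lit 0x38292) (nat_lit 0) (p (nat_lit 0x28212) (nat_lit 0) (p (nat_lit 0x38112) (nat_lit 0) (p (nat_lit 0x20092) (nat_lit 0) (p (nat_lit 0x10012) (nat_lit 0) pn))))))))))))))))))))))))))))))))) :=
  Cl.node (nat_lit 0x5800c) (nat_lit 2) (by decide +kernel) (ClAll.succ (ClAll.succ ClAll.zero s886) s887)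

def n84 : Cl (O (nat_lit 5)) (R (nat_lit 14353))
    (p (nat_lit 0x109) (nat_lit 1) (p (nat_lit 0x101) (nat_lit 0) (p (nat_lit 0xb000c) (nat_lit 0) (p (nat_lit 0x100004) (nat_lit 0) (p (nat_lit 0x200004) (nat_lit 0) (p (nat_lit 0x380c2) (nat_lit 1) (p (nat_lit 0x3c4aa) (nat_lit 7) (p (nat_lit 0x89) (nat_lit 1) (p (nat_lit 0x101) (nat_lit 1) (p (nat_lit 0xc1) (nat_lit 1) (p (nat_lit 0x119) (nat_lit 1) (p (nat_lit 0xd1) (nat_lit 0) (p (nat_lit 0x81) (nat_lit 0) (p (nat_lit 0x41) (nat_lit 1) (p (nat_lit 0x10a0b0a89089a) (nat_lit 0) (p (nat_lit 0x98a8a08881a) (nat_lit 0) (p (nat_lit 0x109088988079a) (nat_lit 0) (p (nat_lit 0x8880907871a) (nat_lit 0) (p (nat_lit 0x8000000000800080887068a) (nat_lit 0) (p (nat_lit 0x10888068602) (nat_lit 0) (p (nat_lit 0x807860582) (nat_lit 0) (p (nat_lit 0x10607058502) (nat_lit 0) (p (nat_lit 0x586850482) (nat_lit 0) (p (nat_lit 0x16000c) (nat_lit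 0) (p (nat_lit 0x68612) (nat_lit 0) (p (nat_lit 0x50592) (nat_lit 0) (p (nat_lit 0x40512) (nat_lit 0) (p (nat_lit 0x50312) (nat_lit 0) (p (nat_lit 0x38292) (nat_lit 0) (p (nat_lit 0x28212) (nat_lit 0) (p (nat_lit 0x38112) (nat_lit 0) (p (nat_lit 0x20092) (nat_lit 0) (p (nat_lit 0x10012) (nat_lit 0) pn))))))))))))))))))))))))))))))))) :=
  Cl.node (nat_lit 0x119) (nat_lit 2) (by decide +kernel) (ClAll.succ (ClAll.succ ClAll.zero s921) s922)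

def n85 : Cl (O (nat_lit 5)) (R (nat_lit 14353))
    (p (nat_lit 0x2a825800002680d0c8d0b8b0a) (nat_lit 0) (p (nat_lit 0x1fc014) (nat_lit 0) (p (nat_lit 0xb000c) (nat_lit 1) (p (nat_lit 0x100004) (nat_lit 0) (p (nat_lit 0x200004) (nat_lit 0) (p (nat_lit 0x380c2) (nat_lit 1) (p (nat_lit 0x3c4aa) (nat_lit 7) (p (nat_lit 0x89) (nat_lit 1) (p (nat_lit 0x101) (nat_lit 1) (p (nat_lit 0xc1) (nat_lit 1) (p (nat_lit 0x119) (nat_lit 1) (p (nat_lit 0xd1) (nat_lit 0) (p (nat_lit 0x81) (nat_lit 0) (p (nat_lit 0x41) (nat_lit 1) (p (nat_lit 0x10a0b0a89089a) (nat_lit 0) (p (nat_lit 0x98a8a08881a) (nat_lit 0) (p (nat_lit 0x109088988079a) (nat_lit 0) (p (nat_lit 0x8880907871a) (nat_lit 0) (p (nat_lit 0x8000000000800080887068a) (nat_lit 0) (p (nat_lit 0x10888068602) (nat_lit 0) (p (nat_lit 0x807860582) (nat_lit 0) (p (nat_lit 0x10607058502) (nat_lit 0) (p (nat_lit 0x586850482) (nat_lit 0)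 (p (nat_lit 0x16000c) (nat_lit 0) (p (nat_lit 0x68612) (nat_lit 0) (p (nat_lit 0x50592) (nat_lit 0) (p (nat_lit 0x40512) (nat_lit 0) (p (nat_lit 0x50312) (nat_lit 0) (p (nat_lit 0x38292) (nat_lit 0) (p (nat_lit 0x28212) (nat_lit 0) (p (nat_lit 0x38112) (nat_lit 0) (p (nat_lit 0x20092) (nat_lit 0) (p (nat_lit 0x10012) (nat_lit 0) pn))))))))))))))))))))))))))))))))) :=
  Cl.node (nat_lit 0xd0c8d8c0b9a) (nat_lit 1) (by decide +kernel) (ClAll.succ ClAll.zero n50)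

def n86 : Cl (O (nat_lit 5)) (R (nat_lit 14353))
    (p (nat_lit 0x100004) (nat_lit 0) (p (nat_lit 0xc9) (nat_lit 0) (p (nat_lit 0x200004) (nat_lit 0) (p (nat_lit 0xb000c) (nat_lit 0) (p (nat_lit 0x380c2) (nat_lit 0) (p (nat_lit 0x3c4aa) (nat_lit 7) (p (nat_lit 0xd1) (nat_lit 1) (p (nat_lit 0x111) (nat_lit 1) (p (nat_lit 0x109) (nat_lit 0) (p (nat_lit 0x101) (nat_lit 0) (p (nat_lit 0x119) (nat_lit 0) (p (nat_lit 0xc1) (nat_lit 0) (p (nat_lit 0x81) (nat_lit 1) (p (nat_lit 0x41) (nat_lit 1) (p (nat_lit 0x10a0b0a89089a) (nat_lit 0) (p (nat_lit 0x98a8a08881a) (nat_lit 0) (p (nat_lit 0x109088988079a) (nat_lit 0) (p (nat_lit 0x8880907871a) (nat_lit 0) (p (nat_lit 0x8000000000800080887068a) (nat_lit 0) (p (nat_lit 0x10888068602) (nat_lit 0) (p (nat_lit 0x807860582) (nat_lit 0) (p (nat_lit 0x10607058502) (nat_lit 0) (p (nat_lit 0x586850482) (nat_lit 0) (p (nat_lit 0x16000c) (nat_lit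 0) (p (nat_lit 0x68612) (nat_lit 0) (p (nat_lit 0x50592) (nat_lit 0) (p (nat_lit 0x40512) (nat_lit 0) (p (nat_lit 0x50312) (nat_lit 0) (p (nat_lit 0x38292) (nat_lit 0) (p (nat_lit 0x28212) (nat_lit 0) (p (nat_lit 0x38112) (nat_lit 0) (p (nat_lit 0x20092) (nat_lit 0) (p (nat_lit 0x10012) (nat_lit 0) pn))))))))))))))))))))))))))))))))) :=
  Cl.node (nat_lit 0xc1) (nat_lit 2) (by decide +kernel) (ClAll.succ (ClAll.succ ClAll.zero s1130) n51)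

def n87 : Cl (O (nat_lit 5)) (R (nat_lit 14353))
    (p (nat_lit 0x100004) (nat_lit 0) (p (nat_lit 0xc9) (nat_lit 1) (p (nat_lit 0x200004) (nat_lit 0) (p (nat_lit 0xb000c) (nat_lit 0) (p (nat_lit 0x380c2) (nat_lit 0) (p (nat_lit 0x3c4aa) (nat_lit 7) (p (nat_lit 0xd1) (nat_lit 1) (p (nat_lit 0x111) (nat_lit 1) (p (nat_lit 0x109) (nat_lit 0) (p (nat_lit 0x101) (nat_lit 0) (p (nat_lit 0x119) (nat_lit 0) (p (nat_lit 0xc1) (nat_lit 0) (p (nat_lit 0x81) (nat_lit 1) (p (nat_lit 0x41) (nat_lit 1) (p (nat_lit 0x10a0b0a89089a) (nat_lit 0) (p (nat_lit 0x98a8a08881a) (nat_lit 0) (p (nat_lit 0x109088988079a) (nat_lit 0) (p (nat_lit 0x8880907871a) (nat_lit 0) (p (nat_lit 0x8000000000800080887068a) (nat_lit 0) (p (nat_lit 0x10888068602) (nat_lit 0) (p (nat_lit 0x807860582) (nat_lit 0) (p (nat_lit 0x10607058502) (nat_lit 0) (p (nat_lit 0x586850482) (nat_lit 0) (p (nat_lit 0x16000c) (nat_lit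 0) (p (nat_lit 0x68612) (nat_lit 0) (p (nat_lit 0x50592) (nat_lit 0) (p (nat_lit 0x40512) (nat_lit 0) (p (nat_lit 0x50312) (nat_lit 0) (p (nat_lit 0x38292) (nat_lit 0) (p (nat_lit 0x28212) (nat_lit 0) (p (nat_lit 0x38112) (nat_lit 0) (p (nat_lit 0x20092) (nat_lit 0) (p (nat_lit 0x10012) (nat_lit 0) pn))))))))))))))))))))))))))))))))) :=
  Cl.node (nat_lit 0x41) (nat_lit 2) (by decide +kernel) (ClAll.succ (ClAll.succ ClAll.zero s1135) n52)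

def n88 : Cl (O (nat_lit 5)) (R (nat_lit 14353))
    (p (nat_lit 0x380c2) (nat_lit 0) (p (nat_lit 0x3cc2a) (nat_lit 0) (p (nat_lit 0xc9) (nat_lit 0) (p (nat_lit 0xb000c) (nat_lit 0) (p (nat_lit 0x380c2) (nat_lit 1) (p (nat_lit 0x3c4aa) (nat_lit 7) (p (nat_lit 0xd1) (nat_lit 1) (p (nat_lit 0x111) (nat_lit 1) (p (nat_lit 0x109) (nat_lit 0) (p (nat_lit 0x101) (nat_lit 0) (p (nat_lit 0x119) (nat_lit 0) (p (nat_lit 0xc1) (nat_lit 0) (p (nat_lit 0x81) (nat_lit 1) (p (nat_lit 0x41) (nat_lit 1) (p (nat_lit 0x10a0b0a89089a) (nat_lit 0) (p (nat_lit 0x98a8a08881a) (nat_lit 0) (p (nat_lit 0x109088988079a) (nat_lit 0) (p (nat_lit 0x8880907871a) (nat_lit 0) (p (nat_lit 0x8000000000800080887068a) (nat_lit 0) (p (nat_lit 0x10888068602) (nat_lit 0) (p (nat_lit 0x807860582) (nat_lit 0) (p (nat_lit 0x10607058502) (nat_lit 0) (p (nat_lit 0x586850482) (nat_lit 0) (p (nat_lit 0x16000c) (nat_lit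 0) (p (nat_lit 0x68612) (nat_lit 0) (p (nat_lit 0x50592) (nat_lit 0) (p (nat_lit 0x40512) (nat_lit 0) (p (nat_lit 0x50312) (nat_lit 0) (p (nat_lit 0x38292) (nat_lit 0) (p (nat_lit 0x28212) (nat_lit 0) (p (nat_lit 0x38112) (nat_lit 0) (p (nat_lit 0x20092) (nat_lit 0) (p (nat_lit 0x10012) (nat_lit 0) pn))))))))))))))))))))))))))))))))) :=
  Cl.node (nat_lit 0x200004) (nat_lit 2) (by decide +kernel) (ClAll.succ (ClAll.succ ClAll.zero n53) s1146)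

def n89 : Cl (O (nat_lit 5)) (R (nat_lit 14353))
    (p (nat_lit 0x100004) (nat_lit 0) (p (nat_lit 0x200004) (nat_lit 0) (p (nat_lit 0xc9) (nat_lit 1) (p (nat_lit 0xb000c) (nat_lit 0) (p (nat_lit 0x380c2) (nat_lit 1) (p (nat_lit 0x3c4aa) (nat_lit 7) (p (nat_lit 0xd1) (nat_lit 1) (p (nat_lit 0x111) (nat_lit 1) (p (nat_lit 0x109) (nat_lit 0) (p (nat_lit 0x101) (nat_lit 0) (p (nat_lit 0x119) (nat_lit 0) (p (nat_lit 0xc1) (nat_lit 0) (p (nat_lit 0x81) (nat_lit 1) (p (nat_lit 0x41) (nat_lit 1) (p (nat_lit 0x10a0b0a89089a) (nat_lit 0) (p (nat_lit 0x98a8a08881a) (nat_lit 0) (p (nat_lit 0x109088988079a) (nat_lit 0) (p (nat_lit 0x8880907871a) (nat_lit 0) (p (nat_lit 0x8000000000800080887068a) (nat_lit 0) (p (nat_lit 0x10888068602) (nat_lit 0) (p (nat_lit 0x807860582) (nat_lit 0) (p (nat_lit 0x10607058502) (nat_lit 0) (p (nat_lit 0x586850482) (nat_lit 0) (p (nat_lit 0x16000c) (nat_lit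 0) (p (nat_lit 0x68612) (nat_lit 0) (p (nat_lit 0x50592) (nat_lit 0) (p (nat_lit 0x40512) (nat_lit 0) (p (nat_lit 0x50312) (nat_lit 0) (p (nat_lit 0x38292) (nat_lit 0) (p (nat_lit 0x28212) (nat_lit 0) (p (nat_lit 0x38112) (nat_lit 0) (p (nat_lit 0x20092) (nat_lit 0) (p (nat_lit 0x10012) (nat_lit 0) pn))))))))))))))))))))))))))))))))) :=
  Cl.node (nat_lit 0x101) (nat_lit 2) (by decide +kernel) (ClAll.succ (ClAll.succ ClAll.zero s1158) s1159)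

def n90 : Cl (O (nat_lit 5)) (R (nat_lit 14353))
    (p (nat_lit 0x100004) (nat_lit 0) (p (nat_lit 0x1fc014) (nat_lit 0) (p (nat_lit 0x1fc004) (nat_lit 0) (p (nat_lit 0xb000c) (nat_lit 1) (p (nat_lit 0x380c2) (nat_lit 1) (p (nat_lit 0x3c4aa) (nat_lit 7) (p (nat_lit 0xd1) (nat_lit 1) (p (nat_lit 0x111) (nat_lit 1) (p (nat_lit 0x109) (nat_lit 0) (p (nat_lit 0x101) (nat_lit 0) (p (nat_lit 0x119) (nat_lit 0) (p (nat_lit 0xc1) (nat_lit 0) (p (nat_lit 0x81) (nat_lit 1) (p (nat_lit 0x41) (nat_lit 1) (p (nat_lit 0x10a0b0a89089a) (nat_lit 0) (p (nat_lit 0x98a8a08881a) (nat_lit 0) (p (nat_lit 0x109088988079a) (nat_lit 0) (p (nat_lit 0x8880907871a) (nat_lit 0) (p (nat_lit 0x8000000000800080887068a) (nat_lit 0) (p (nat_lit 0x10888068602) (nat_lit 0) (p (nat_lit 0x807860582) (nat_lit 0) (p (nat_lit 0x10607058502) (nat_lit 0) (p (nat_lit 0x586850482) (nat_lit 0) (p (nat_lit 0x16000c)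 (nat_lit 0) (p (nat_lit 0x68612) (nat_lit 0) (p (nat_lit 0x50592) (nat_lit 0) (p (nat_lit 0x40512) (nat_lit 0) (p (nat_lit 0x50312) (nat_lit 0) (p (nat_lit 0x38292) (nat_lit 0) (p (nat_lit 0x28212) (nat_lit 0) (p (nat_lit 0x38112) (nat_lit 0) (p (nat_lit 0x20092) (nat_lit 0) (p (nat_lit 0x10012) (nat_lit 0) pn))))))))))))))))))))))))))))))))) :=
  Cl.node (nat_lit 0x10800c) (nat_lit 2) (by decide +kernel) (ClAll.succ (ClAll.succ ClAll.zero n54) s1166)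

def n91 : Cl (O (nat_lit 5)) (R (nat_lit 14353))
    (p (nat_lit 0x5800c) (nat_lit 0) (p (nat_lit 0x200014) (nat_lit 1) (p (nat_lit 0x200004) (nat_lit 0) (p (nat_lit 0xb000c) (nat_lit 0) (p (nat_lit 0x380c2) (nat_lit 1) (p (nat_lit 0x3c4aa) (nat_lit 10) (p (nat_lit 0xd1) (nat_lit 1) (p (nat_lit 0x111) (nat_lit 1) (p (nat_lit 0x109) (nat_lit 0) (p (nat_lit 0x101) (nat_lit 0) (p (nat_lit 0x119) (nat_lit 0) (p (nat_lit 0xc1) (nat_lit 0) (p (nat_lit 0x81) (nat_lit 1) (p (nat_lit 0x41) (nat_lit 1) (p (nat_lit 0x10a0b0a89089a) (nat_lit 0) (p (nat_lit 0x98a8a08881a) (nat_lit 0) (p (nat_lit 0x109088988079a) (nat_lit 0) (p (nat_lit 0x8880907871a) (nat_lit 0) (p (nat_lit 0x8000000000800080887068a) (nat_lit 0) (p (nat_lit 0x10888068602) (nat_lit 0) (p (nat_lit 0x807860582) (nat_lit 0) (p (nat_lit 0x10607058502) (nat_lit 0) (p (nat_lit 0x586850482) (nat_lit 0) (p (nat_lit 0x16000c)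 (nat_lit 0) (p (nat_lit 0x68612) (nat_lit 0) (p (nat_lit 0x50592) (nat_lit 0) (p (nat_lit 0x40512) (nat_lit 0) (p (nat_lit 0x50312) (nat_lit 0) (p (nat_lit 0x38292) (nat_lit 0) (p (nat_lit 0x28212) (nat_lit 0) (p (nat_lit 0x38112) (nat_lit 0) (p (nat_lit 0x20092) (nat_lit 0) (p (nat_lit 0x10012) (nat_lit 0) pn))))))))))))))))))))))))))))))))) :=
  Cl.node (nat_lit 0x300014) (nat_lit 2) (by decide +kernel) (ClAll.succ (ClAll.succ ClAll.zero s1174) n55)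

def n92 : Cl (O (nat_lit 5)) (R (nat_lit 14353))
    (p (nat_lit 0x100004) (nat_lit 0) (p (nat_lit 0x200004) (nat_lit 0) (p (nat_lit 0x119) (nat_lit 1) (p (nat_lit 0xb000c) (nat_lit 0) (p (nat_lit 0x380c2) (nat_lit 0) (p (nat_lit 0x3c4aa) (nat_lit 7) (p (nat_lit 0xd1) (nat_lit 1) (p (nat_lit 0xc9) (nat_lit 0) (p (nat_lit 0x109) (nat_lit 1) (p (nat_lit 0x101) (nat_lit 0) (p (nat_lit 0x119) (nat_lit 0) (p (nat_lit 0xc1) (nat_lit 0) (p (nat_lit 0x81) (nat_lit 1) (p (nat_lit 0x41) (nat_lit 1) (p (nat_lit 0x10a0b0a89089a) (nat_lit 0) (p (nat_lit 0x98a8a08881a) (nat_lit 0) (p (nat_lit 0x109088988079a) (nat_lit 0) (p (nat_lit 0x8880907871a) (nat_lit 0) (p (nat_lit 0x8000000000800080887068a) (nat_lit 0) (p (nat_lit 0x10888068602) (nat_lit 0) (p (nat_lit 0x807860582) (nat_lit 0) (p (nat_lit 0x10607058502) (nat_lit 0) (p (nat_lit 0x586850482) (nat_lit 0) (p (nat_lit 0x16000c) (nat_lit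 0) (p (nat_lit 0x68612) (nat_lit 0) (p (nat_lit 0x50592) (nat_lit 0) (p (nat_lit 0x40512) (nat_lit 0) (p (nat_lit 0x50312) (nat_lit 0) (p (nat_lit 0x38292) (nat_lit 0) (p (nat_lit 0x28212) (nat_lit 0) (p (nat_lit 0x38112) (nat_lit 0) (p (nat_lit 0x20092) (nat_lit 0) (p (nat_lit 0x10012) (nat_lit 0) pn))))))))))))))))))))))))))))))))) :=
  Cl.node (nat_lit 0xc1) (nat_lit 2) (by decide +kernel) (ClAll.succ (ClAll.succ ClAll.zero s1190) s1191)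

def n93 : Cl (O (nat_lit 5)) (R (nat_lit 14353))
    (p (nat_lit 0x100004) (nat_lit 0) (p (nat_lit 0x1fc014) (nat_lit 0) (p (nat_lit 0x1fc004) (nat_lit 0) (p (nat_lit 0xb000c) (nat_lit 1) (p (nat_lit 0x380c2) (nat_lit 1) (p (nat_lit 0x3c4aa) (nat_lit 7) (p (nat_lit 0xd1) (nat_lit 1) (p (nat_lit 0xc9) (nat_lit 0) (p (nat_lit 0x109) (nat_lit 1) (p (nat_lit 0x101) (nat_lit 0) (p (nat_lit 0x119) (nat_lit 0) (p (nat_lit 0xc1) (nat_lit 0) (p (nat_lit 0x81) (nat_lit 1) (p (nat_lit 0x41) (nat_lit 1) (p (nat_lit 0x10a0b0a89089a) (nat_lit 0) (p (nat_lit 0x98a8a08881a) (nat_lit 0) (p (nat_lit 0x109088988079a) (nat_lit 0) (p (nat_lit 0x8880907871a) (nat_lit 0) (p (nat_lit 0x8000000000800080887068a) (nat_lit 0) (p (nat_lit 0x10888068602) (nat_lit 0) (p (nat_lit 0x807860582) (nat_lit 0) (p (nat_lit 0x10607058502) (nat_lit 0) (p (nat_lit 0x586850482) (nat_lit 0) (p (nat_lit 0x16000c)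 (nat_lit 0) (p (nat_lit 0x68612) (nat_lit 0) (p (nat_lit 0x50592) (nat_lit 0) (p (nat_lit 0x40512) (nat_lit 0) (p (nat_lit 0x50312) (nat_lit 0) (p (nat_lit 0x38292) (nat_lit 0) (p (nat_lit 0x28212) (nat_lit 0) (p (nat_lit 0x38112) (nat_lit 0) (p (nat_lit 0x20092) (nat_lit 0) (p (nat_lit 0x10012) (nat_lit 0) pn))))))))))))))))))))))))))))))))) :=
  Cl.node (nat_lit 0x10800c) (nat_lit 2) (by decide +kernel) (ClAll.succ (ClAll.succ ClAll.zero s1199) s1200)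

def n94 : Cl (O (nat_lit 5)) (R (nat_lit 14353))
    (p (nat_lit 0x200004) (nat_lit 0) (p (nat_lit 0xb000c) (nat_lit 0) (p (nat_lit 0x380c2) (nat_lit 1) (p (nat_lit 0x3c4aa) (nat_lit 7) (p (nat_lit 0xc9) (nat_lit 1) (p (nat_lit 0x380c2) (nat_lit 0) (p (nat_lit 0x44c2a) (nat_lit 0) (p (nat_lit 0xd1) (nat_lit 0) (p (nat_lit 0xc9) (nat_lit 0) (p (nat_lit 0x101) (nat_lit 1) (p (nat_lit 0x119) (nat_lit 0) (p (nat_lit 0xc1) (nat_lit 0) (p (nat_lit 0x81) (nat_lit 1) (p (nat_lit 0x41) (nat_lit 1) (p (nat_lit 0x10a0b0a89089a) (nat_lit 0) (p (nat_lit 0x98a8a08881a) (nat_lit 0) (p (nat_lit 0x109088988079a) (nat_lit 0) (p (nat_lit 0x8880907871a) (nat_lit 0) (p (nat_lit 0x8000000000800080887068a) (nat_lit 0) (p (nat_lit 0x10888068602) (nat_lit 0) (p (nat_lit 0x807860582) (nat_lit 0) (p (nat_lit 0x10607058502) (nat_lit 0) (p (nat_lit 0x586850482) (nat_lit 0) (p (nat_lit 0x16000c) (nat_lit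 0) (p (nat_lit 0x68612) (nat_lit 0) (p (nat_lit 0x50592) (nat_lit 0) (p (nat_lit 0x40512) (nat_lit 0) (p (nat_lit 0x50312) (nat_lit 0) (p (nat_lit 0x38292) (nat_lit 0) (p (nat_lit 0x28212) (nat_lit 0) (p (nat_lit 0x38112) (nat_lit 0) (p (nat_lit 0x20092) (nat_lit 0) (p (nat_lit 0x10012) (nat_lit 0) pn))))))))))))))))))))))))))))))))) :=
  Cl.node (nat_lit 0x100004) (nat_lit 2) (by decide +kernel) (ClAll.succ (ClAll.succ ClAll.zero s1218) s1219)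

def n95 : Cl (O (nat_lit 5)) (R (nat_lit 14353))
    (p (nat_lit 0xd1) (nat_lit 0) (p (nat_lit 0x100004) (nat_lit 0) (p (nat_lit 0x200004) (nat_lit 0) (p (nat_lit 0xc1) (nat_lit 0) (p (nat_lit 0xb000c) (nat_lit 0) (p (nat_lit 0x380c2) (nat_lit 1) (p (nat_lit 0x3c4aa) (nat_lit 7) (p (nat_lit 0xd1) (nat_lit 1) (p (nat_lit 0xc9) (nat_lit 0) (p (nat_lit 0x101) (nat_lit 1) (p (nat_lit 0x119) (nat_lit 0) (p (nat_lit 0xc1) (nat_lit 0) (p (nat_lit 0x81) (nat_lit 1) (p (nat_lit 0x41) (nat_lit 1) (p (nat_lit 0x10a0b0a89089a) (nat_lit 0) (p (nat_lit 0x98a8a08881a) (nat_lit 0) (p (nat_lit 0x109088988079a) (nat_lit 0) (p (nat_lit 0x8880907871a) (nat_lit 0) (p (nat_lit 0x8000000000800080887068a) (nat_lit 0) (p (nat_lit 0x10888068602) (nat_lit 0) (p (nat_lit 0x807860582) (nat_lit 0) (p (nat_lit 0x10607058502) (nat_lit 0) (p (nat_lit 0x586850482) (nat_lit 0) (p (nat_lit 0x16000c) (nat_lit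 0) (p (nat_lit 0x68612) (nat_lit 0) (p (nat_lit 0x50592) (nat_lit 0) (p (nat_lit 0x40512) (nat_lit 0) (p (nat_lit 0x50312) (nat_lit 0) (p (nat_lit 0x38292) (nat_lit 0) (p (nat_lit 0x28212) (nat_lit 0) (p (nat_lit 0x38112) (nat_lit 0) (p (nat_lit 0x20092) (nat_lit 0) (p (nat_lit 0x10012) (nat_lit 0) pn))))))))))))))))))))))))))))))))) :=
  Cl.node (nat_lit 0xc9) (nat_lit 2) (by decide +kernel) (ClAll.succ (ClAll.succ ClAll.zero n56) s1266)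

def n96 : Cl (O (nat_lit 5)) (R (nat_lit 14353))
    (p (nat_lit 0xd1) (nat_lit 1) (p (nat_lit 0x100004) (nat_lit 0) (p (nat_lit 0x200004) (nat_lit 0) (p (nat_lit 0xc1) (nat_lit 0) (p (nat_lit 0xb000c) (nat_lit 0) (p (nat_lit 0x380c2) (nat_lit 1) (p (nat_lit 0x3c4aa) (nat_lit 7) (p (nat_lit 0xd1) (nat_lit 1) (p (nat_lit 0xc9) (nat_lit 0) (p (nat_lit 0x101) (nat_lit 1) (p (nat_lit 0x119) (nat_lit 0) (p (nat_lit 0xc1) (nat_lit 0) (p (nat_lit 0x81) (nat_lit 1) (p (nat_lit 0x41) (nat_lit 1) (p (nat_lit 0x10a0b0a89089a) (nat_lit 0) (p (nat_lit 0x98a8a08881a) (nat_lit 0) (p (nat_lit 0x109088988079a) (nat_lit 0) (p (nat_lit 0x8880907871a) (nat_lit 0) (p (nat_lit 0x8000000000800080887068a) (nat_lit 0) (p (nat_lit 0x10888068602) (nat_lit 0) (p (nat_lit 0x807860582) (nat_lit 0) (p (nat_lit 0x10607058502) (nat_lit 0) (p (nat_lit 0x586850482) (nat_lit 0) (p (nat_lit 0x16000c) (nat_lit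 0) (p (nat_lit 0x68612) (nat_lit 0) (p (nat_lit 0x50592) (nat_lit 0) (p (nat_lit 0x40512) (nat_lit 0) (p (nat_lit 0x50312) (nat_lit 0) (p (nat_lit 0x38292) (nat_lit 0) (p (nat_lit 0x28212) (nat_lit 0) (p (nat_lit 0x38112) (nat_lit 0) (p (nat_lit 0x20092) (nat_lit 0) (p (nat_lit 0x10012) (nat_lit 0) pn))))))))))))))))))))))))))))))))) :=
  Cl.node (nat_lit 0x111) (nat_lit 2) (by decide +kernel) (ClAll.succ (ClAll.succ ClAll.zero s1267) s1268)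

def n97 : Cl (O (nat_lit 5)) (R (nat_lit 14353))
    (p (nat_lit 0x10800c) (nat_lit 0) (p (nat_lit 0x100004) (nat_lit 0) (p (nat_lit 0x1fc014) (nat_lit 0) (p (nat_lit 0x1fc004) (nat_lit 0) (p (nat_lit 0xb000c) (nat_lit 1) (p (nat_lit 0x380c2) (nat_lit 1) (p (nat_lit 0x3c4aa) (nat_lit 7) (p (nat_lit 0xd1) (nat_lit 1) (p (nat_lit 0xc9) (nat_lit 0) (p (nat_lit 0x101) (nat_lit 1) (p (nat_lit 0x119) (nat_lit 0) (p (nat_lit 0xc1) (nat_lit 0) (p (nat_lit 0x81) (nat_lit 1) (p (nat_lit 0x41) (nat_lit 1) (p (nat_lit 0x10a0b0a89089a) (nat_lit 0) (p (nat_lit 0x98a8a08881a) (nat_lit 0) (p (nat_lit 0x109088988079a) (nat_lit 0) (p (nat_lit 0x8880907871a) (nat_lit 0) (p (nat_lit 0x8000000000800080887068a) (nat_lit 0) (p (nat_lit 0x10888068602) (nat_lit 0) (p (nat_lit 0x807860582) (nat_lit 0) (p (nat_lit 0x10607058502) (nat_lit 0) (p (nat_lit 0x586850482) (nat_lit 0) (p (nat_lit 0x16000c)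 (nat_lit 0) (p (nat_lit 0x68612) (nat_lit 0) (p (nat_lit 0x50592) (nat_lit 0) (p (nat_lit 0x40512) (nat_lit 0) (p (nat_lit 0x50312) (nat_lit 0) (p (nat_lit 0x38292) (nat_lit 0) (p (nat_lit 0x28212) (nat_lit 0) (p (nat_lit 0x38112) (nat_lit 0) (p (nat_lit 0x20092) (nat_lit 0) (p (nat_lit 0x10012) (nat_lit 0) pn))))))))))))))))))))))))))))))))) :=
  Cl.node (nat_lit 0x100014) (nat_lit 2) (by decide +kernel) (ClAll.succ (ClAll.succ ClAll.zero n57) s1274)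

def n98 : Cl (O (nat_lit 5)) (R (nat_lit 14353))
    (p (nat_lit 0x111) (nat_lit 1) (p (nat_lit 0x100004) (nat_lit 0) (p (nat_lit 0x200004) (nat_lit 0) (p (nat_lit 0x101) (nat_lit 0) (p (nat_lit 0xb000c) (nat_lit 0) (p (nat_lit 0x380c2) (nat_lit 1) (p (nat_lit 0x3c4aa) (nat_lit 7) (p (nat_lit 0x111) (nat_lit 1) (p (nat_lit 0xd1) (nat_lit 1) (p (nat_lit 0xc9) (nat_lit 0) (p (nat_lit 0x119) (nat_lit 1) (p (nat_lit 0xc1) (nat_lit 0) (p (nat_lit 0x81) (nat_lit 1) (p (nat_lit 0x41) (nat_lit 1) (p (nat_lit 0x10a0b0a89089a) (nat_lit 0) (p (nat_lit 0x98a8a08881a) (nat_lit 0) (p (nat_lit 0x109088988079a) (nat_lit 0) (p (nat_lit 0x8880907871a) (nat_lit 0) (p (nat_lit 0x8000000000800080887068a) (nat_lit 0) (p (nat_lit 0x10888068602) (nat_lit 0) (p (nat_lit 0x807860582) (nat_lit 0) (p (nat_lit 0x10607058502) (nat_lit 0) (p (nat_lit 0x586850482) (nat_lit 0) (p (nat_lit 0x16000c) (nat_lit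 0) (p (nat_lit 0x68612) (nat_lit 0) (p (nat_lit 0x50592) (nat_lit 0) (p (nat_lit 0x40512) (nat_lit 0) (p (nat_lit 0x50312) (nat_lit 0) (p (nat_lit 0x38292) (nat_lit 0) (p (nat_lit 0x28212) (nat_lit 0) (p (nat_lit 0x38112) (nat_lit 0) (p (nat_lit 0x20092) (nat_lit 0) (p (nat_lit 0x10012) (nat_lit 0) pn))))))))))))))))))))))))))))))))) :=
  Cl.node (nat_lit 0x119) (nat_lit 2) (by decide +kernel) (ClAll.succ (ClAll.succ ClAll.zero s1300) s1301)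

def n99 : Cl (O (nat_lit 5)) (R (nat_lit 14353))
    (p (nat_lit 0x100004) (nat_lit 0) (p (nat_lit 0x200004) (nat_lit 0) (p (nat_lit 0xb000c) (nat_lit 0) (p (nat_lit 0x380c2) (nat_lit 0) (p (nat_lit 0x444aa) (nat_lit 7) (p (nat_lit 0x81) (nat_lit 1) (p (nat_lit 0xc9) (nat_lit 1) (p (nat_lit 0x109) (nat_lit 1) (p (nat_lit 0x101) (nat_lit 0) (p (nat_lit 0x119) (nat_lit 0) (p (nat_lit 0xd1) (nat_lit 0) (p (nat_lit 0x89) (nat_lit 0) (p (nat_lit 0x41) (nat_lit 0) (p (nat_lit 0x10a0b0a89089a) (nat_lit 0) (p (nat_lit 0x98a8a08881a) (nat_lit 0) (p (nat_lit 0x109088988079a) (nat_lit 0) (p (nat_lit 0x8880907871a) (nat_lit 0) (p (nat_lit 0x8000000000800080887068a) (nat_lit 0) (p (nat_lit 0x10888068602) (nat_lit 0) (p (nat_lit 0x807860582) (nat_lit 0) (p (nat_lit 0x10607058502) (nat_lit 0) (p (nat_lit 0x586850482) (nat_lit 0) (p (nat_lit 0x16000c) (nat_lit 0) (p (nat_lit 0x68612) (nat_lit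 0) (p (nat_lit 0x50592) (nat_lit 0) (p (nat_lit 0x40512) (nat_lit 0) (p (nat_lit 0x50312) (nat_lit 0) (p (nat_lit 0x38292) (nat_lit 0) (p (nat_lit 0x28212) (nat_lit 0) (p (nat_lit 0x38112) (nat_lit 0) (p (nat_lit 0x20092) (nat_lit 0) (p (nat_lit 0x10012) (nat_lit 0) pn)))))))))))))))))))))))))))))))) :=
  Cl.node (nat_lit 0x89) (nat_lit 2) (by decide +kernel) (ClAll.succ (ClAll.succ ClAll.zero s10) s11)

def n100 : Cl (O (nat_lit 5)) (R (nat_lit 14353))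
    (p (nat_lit 0x1fc014) (nat_lit 0) (p (nat_lit 0x1fc004) (nat_lit 0) (p (nat_lit 0xb000c) (nat_lit 1) (p (nat_lit 0x380c2) (nat_lit 0) (p (nat_lit 0x444aa) (nat_lit 7) (p (nat_lit 0x81) (nat_lit 1) (p (nat_lit 0xc9) (nat_lit 1) (p (nat_lit 0x109) (nat_lit 1) (p (nat_lit 0x101) (nat_lit 0) (p (nat_lit 0x119) (nat_lit 0) (p (nat_lit 0xd1) (nat_lit 0) (p (nat_lit 0x89) (nat_lit 0) (p (nat_lit 0x41) (nat_lit 0) (p (nat_lit 0x10a0b0a89089a) (nat_lit 0) (p (nat_lit 0x98a8a08881a) (nat_lit 0) (p (nat_lit 0x109088988079a) (nat_lit 0) (p (nat_lit 0x8880907871a) (nat_lit 0) (p (nat_lit 0x8000000000800080887068a) (nat_lit 0) (p (nat_lit 0x10888068602) (nat_lit 0) (p (nat_lit 0x807860582) (nat_lit 0) (p (nat_lit 0x10607058502) (nat_lit 0) (p (nat_lit 0x586850482) (nat_lit 0) (p (nat_lit 0x16000c) (nat_lit 0) (p (nat_lit 0x68612) (nat_lit 0) (p (nat_lit 0x50592) (nat_lit 0) (p (nat_lit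 0x40512) (nat_lit 0) (p (nat_lit 0x50312) (nat_lit 0) (p (nat_lit 0x38292) (nat_lit 0) (p (nat_lit 0x28212) (nat_lit 0) (p (nat_lit 0x38112) (nat_lit 0) (p (nat_lit 0x20092) (nat_lit 0) (p (nat_lit 0x10012) (nat_lit 0) pn)))))))))))))))))))))))))))))))) :=
  Cl.node (nat_lit 0x100004) (nat_lit 2) (by decide +kernel) (ClAll.succ (ClAll.succ ClAll.zero n58) s17)

def n101 : Cl (O (nat_lit 5)) (R (nat_lit 14353))
    (p (nat_lit 0x444aa) (nat_lit 7) (p (nat_lit 0xc1) (nat_lit 1) (p (nat_lit 0x200014) (nat_lit 0) (p (nat_lit 0x380c2) (nat_lit 0) (p (nat_lit 0x4c42a) (nat_lit 2) (p (nat_lit 0x111) (nat_lit 0) (p (nat_lit 0xc9) (nat_lit 0) (p (nat_lit 0x81) (nat_lit 0) (p (nat_lit 0x101) (nat_lit 1) (p (nat_lit 0x119) (nat_lit 0) (p (nat_lit 0xd1) (nat_lit 0) (p (nat_lit 0x89) (nat_lit 0) (p (nat_lit 0x41) (nat_lit 0) (p (nat_lit 0x10a0b0a89089a) (nat_lit 0) (p (nat_lit 0x98a8a08881a)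 (nat_lit 0) (p (nat_lit 0x109088988079a) (nat_lit 0) (p (nat_lit 0x8880907871a) (nat_lit 0) (p (nat_lit 0x8000000000800080887068a) (nat_lit 0) (p (nat_lit 0x10888068602) (nat_lit 0) (p (nat_lit 0x807860582) (nat_lit 0) (p (nat_lit 0x10607058502) (nat_lit 0) (p (nat_lit 0x586850482) (nat_lit 0) (p (nat_lit 0x16000c) (nat_lit 0) (p (nat_lit 0x68612) (nat_lit 0) (p (nat_lit 0x50592) (nat_lit 0) (p (nat_lit 0x40512) (nat_lit 0) (p (nat_lit 0x50312) (nat_lit 0) (p (nat_lit 0x38292) (nat_lit 0) (p (nat_lit 0x28212) (nat_lit 0) (p (nat_lit 0x38112) (nat_lit 0) (p (nat_lit 0x20092) (nat_lit 0) (p (nat_lit 0x10012) (nat_lit 0) pn)))))))))))))))))))))))))))))))) :=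
  Cl.node (nat_lit 0x380c2) (nat_lit 2) (by decide +kernel) (ClAll.succ (ClAll.succ ClAll.zero n59) s43)

def n102 : Cl (O (nat_lit 5)) (R (nat_lit 14353))
    (p (nat_lit 0x100004) (nat_lit 0) (p (nat_lit 0x200004) (nat_lit 0) (p (nat_lit 0xb000c) (nat_lit 0) (p (nat_lit 0x380c2) (nat_lit 0) (p (nat_lit 0x444aa) (nat_lit 7) (p (nat_lit 0x109) (nat_lit 1) (p (nat_lit 0x101) (nat_lit 0) (p (nat_lit 0x81) (nat_lit 1) (p (nat_lit 0xc1) (nat_lit 1) (p (nat_lit 0x119) (nat_lit 1) (p (nat_lit 0xd1) (nat_lit 0) (p (nat_lit 0x89) (nat_lit 0) (p (nat_lit 0x41) (nat_lit 0) (p (nat_lit 0x10a0b0a89089a) (nat_lit 0) (p (nat_lit 0x98a8a08881a) (nat_lit 0) (p (nat_lit 0x109088988079a) (nat_lit 0) (p (nat_lit 0x8880907871a) (nat_lit 0) (p (nat_lit 0x8000000000800080887068a) (nat_lit 0) (p (nat_lit 0x10888068602) (nat_lit 0) (p (nat_lit 0x807860582) (nat_lit 0) (p (nat_lit 0x10607058502)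 (nat_lit 0) (p (nat_lit 0x586850482) (nat_lit 0) (p (nat_lit 0x16000c) (nat_lit 0) (p (nat_lit 0x68612) (nat_lit 0) (p (nat_lit 0x50592) (nat_lit 0) (p (nat_lit 0x40512) (nat_lit 0) (p (nat_lit 0x50312) (nat_lit 0) (p (nat_lit 0x38292) (nat_lit 0) (p (nat_lit 0x28212) (nat_lit 0) (p (nat_lit 0x38112) (nat_lit 0) (p (nat_lit 0x20092) (nat_lit 0) (p (nat_lit 0x10012) (nat_lit 0) pn)))))))))))))))))))))))))))))))) :=
  Cl.node (nat_lit 0x119) (nat_lit 2) (by decide +kernel) (ClAll.succ (ClAll.succ ClAll.zero n60) s210)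

def n103 : Cl (O (nat_lit 5)) (R (nat_lit 14353))
    (p (nat_lit 0x100004) (nat_lit 0) (p (nat_lit 0x200004) (nat_lit 0) (p (nat_lit 0xb000c) (nat_lit 0) (p (nat_lit 0x380c2) (nat_lit 1) (p (nat_lit 0x444aa) (nat_lit 7) (p (nat_lit 0x109) (nat_lit 1) (p (nat_lit 0x101) (nat_lit 0) (p (nat_lit 0x81) (nat_lit 1) (p (nat_lit 0xc1) (nat_lit 1) (p (nat_lit 0x119) (nat_lit 1) (p (nat_lit 0xd1) (nat_lit 0) (p (nat_lit 0x89) (nat_lit 0) (p (nat_lit 0x41) (nat_lit 0) (p (nat_lit 0x10a0b0a89089a) (nat_lit 0) (p (nat_lit 0x98a8a08881a) (nat_lit 0) (p (nat_lit 0x109088988079a) (nat_lit 0) (p (nat_lit 0x8880907871a) (nat_lit 0) (p (nat_lit 0x8000000000800080887068a) (nat_lit 0) (p (nat_lit 0x10888068602) (nat_lit 0) (p (nat_lit 0x807860582) (nat_lit 0) (p (nat_lit 0x10607058502) (nat_lit 0) (p (nat_lit 0x586850482) (nat_lit 0) (p (nat_lit 0x16000c) (nat_lit 0) (p (nat_lit 0x68612)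 (nat_lit 0) (p (nat_lit 0x50592) (nat_lit 0) (p (nat_lit 0x40512) (nat_lit 0) (p (nat_lit 0x50312) (nat_lit 0) (p (nat_lit 0x38292) (nat_lit 0) (p (nat_lit 0x28212) (nat_lit 0) (p (nat_lit 0x38112) (nat_lit 0) (p (nat_lit 0x20092) (nat_lit 0) (p (nat_lit 0x10012) (nat_lit 0) pn)))))))))))))))))))))))))))))))) :=
  Cl.node (nat_lit 0x119) (nat_lit 2) (by decide +kernel) (ClAll.succ (ClAll.succ ClAll.zero n61) s216)

def n104 : Cl (O (nat_lit 5)) (R (nat_lit 14353))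
    (p (nat_lit 0x100014) (nat_lit 0) (p (nat_lit 0x380c2) (nat_lit 0) (p (nat_lit 0x3cc2a) (nat_lit 0) (p (nat_lit 0x41) (nat_lit 0) (p (nat_lit 0x200014) (nat_lit 0) (p (nat_lit 0x200004) (nat_lit 0) (p (nat_lit 0xc1) (nat_lit 1) (p (nat_lit 0x109) (nat_lit 1) (p (nat_lit 0x101) (nat_lit 0) (p (nat_lit 0x111) (nat_lit 0) (p (nat_lit 0xd1) (nat_lit 1) (p (nat_lit 0x89) (nat_lit 0) (p (nat_lit 0x41) (nat_lit 0) (p (nat_lit 0x10a0b0a89089a) (nat_lit 0) (p (nat_lit 0x98a8a08881a) (nat_lit 0) (p (nat_lit 0x109088988079a) (nat_lit 0) (p (nat_lit 0x8880907871a) (nat_lit 0) (p (nat_lit 0x8000000000800080887068a) (nat_lit 0) (p (nat_lit 0x10888068602) (nat_lit 0) (p (nat_lit 0x807860582) (nat_lit 0) (p (nat_lit 0x10607058502) (nat_lit 0) (p (nat_lit 0x586850482) (nat_lit 0) (p (nat_lit 0x16000c) (nat_lit 0) (p (nat_lit 0x68612) (nat_lit 0) (p (nat_lit 0x50592) (nat_lit 0) (p (nat_lit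 0x40512) (nat_lit 0) (p (nat_lit 0x50312) (nat_lit 0) (p (nat_lit 0x38292) (nat_lit 0) (p (nat_lit 0x28212) (nat_lit 0) (p (nat_lit 0x38112) (nat_lit 0) (p (nat_lit 0x20092) (nat_lit 0) (p (nat_lit 0x10012) (nat_lit 0) pn)))))))))))))))))))))))))))))))) :=
  Cl.node (nat_lit 0xb000c) (nat_lit 2) (by decide +kernel) (ClAll.succ (ClAll.succ ClAll.zero n62) s240)

def n105 : Cl (O (nat_lit 5)) (R (nat_lit 14353))
    (p (nat_lit 0x100014) (nat_lit 0) (p (nat_lit 0x380c2) (nat_lit 0) (p (nat_lit 0x3cc2a) (nat_lit 0) (p (nat_lit 0x109) (nat_lit 1) (p (nat_lit 0x200014) (nat_lit 0) (p (nat_lit 0x200004) (nat_lit 0) (p (nat_lit 0x119) (nat_lit 0) (p (nat_lit 0x81) (nat_lit 0) (p (nat_lit 0x101) (nat_lit 1) (p (nat_lit 0x111) (nat_lit 0) (p (nat_lit 0xd1) (nat_lit 1) (p (nat_lit 0x89) (nat_lit 0) (p (nat_lit 0x41) (nat_lit 0) (p (nat_lit 0x10a0b0a89089a) (nat_lit 0) (p (nat_lit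 0x98a8a08881a) (nat_lit 0) (p (nat_lit 0x109088988079a) (nat_lit 0) (p (nat_lit 0x8880907871a) (nat_lit 0) (p (nat_lit 0x8000000000800080887068a) (nat_lit 0) (p (nat_lit 0x10888068602) (nat_lit 0) (p (nat_lit 0x807860582) (nat_lit 0) (p (nat_lit 0x10607058502) (nat_lit 0) (p (nat_lit 0x586850482) (nat_lit 0) (p (nat_lit 0x16000c) (nat_lit 0) (p (nat_lit 0x68612) (nat_lit 0) (p (nat_lit 0x50592) (nat_lit 0) (p (nat_lit 0x40512) (nat_lit 0) (p (nat_lit 0x50312) (nat_lit 0) (p (nat_lit 0x38292) (nat_lit 0) (p (nat_lit 0x28212) (nat_lit 0) (p (nat_lit 0x38112) (nat_lit 0) (p (nat_lit 0x20092) (nat_lit 0) (p (nat_lit 0x10012) (nat_lit 0) pn)))))))))))))))))))))))))))))))) :=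
  Cl.node (nat_lit 0xb000c) (nat_lit 2) (by decide +kernel) (ClAll.succ (ClAll.succ ClAll.zero n63) s271)

def n106 : Cl (O (nat_lit 5)) (R (nat_lit 14353))
    (p (nat_lit 0xc1) (nat_lit 0) (p (nat_lit 0x200004) (nat_lit 0) (p (nat_lit 0xb000c) (nat_lit 0) (p (nat_lit 0x380c2) (nat_lit 0) (p (nat_lit 0x444aa) (nat_lit 7) (p (nat_lit 0xd1) (nat_lit 1) (p (nat_lit 0x111) (nat_lit 1) (p (nat_lit 0x109) (nat_lit 0) (p (nat_lit 0x101) (nat_lit 0) (p (nat_lit 0x119) (nat_lit 0) (p (nat_lit 0xc9) (nat_lit 0) (p (nat_lit 0x89) (nat_lit 1) (p (nat_lit 0x41) (nat_lit 0) (p (nat_lit 0x10a0b0a89089a) (nat_lit 0) (p (nat_lit 0x98a8a08881a) (nat_lit 0) (p (nat_lit 0x109088988079a) (nat_lit 0) (p (nat_lit 0x8880907871a) (nat_lit 0) (p (nat_lit 0x8000000000800080887068a) (nat_lit 0) (p (nat_lit 0x10888068602) (nat_lit 0) (p (nat_lit 0x807860582) (nat_lit 0) (p (nat_lit 0x10607058502) (nat_lit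 0) (p (nat_lit 0x586850482) (nat_lit 0) (p (nat_lit 0x16000c) (nat_lit 0) (p (nat_lit 0x68612) (nat_lit 0) (p (nat_lit 0x50592) (nat_lit 0) (p (nat_lit 0x40512) (nat_lit 0) (p (nat_lit 0x50312) (nat_lit 0) (p (nat_lit 0x38292) (nat_lit 0) (p (nat_lit 0x28212) (nat_lit 0) (p (nat_lit 0x38112) (nat_lit 0) (p (nat_lit 0x20092) (nat_lit 0) (p (nat_lit 0x10012) (nat_lit 0) pn)))))))))))))))))))))))))))))))) :=
  Cl.node (nat_lit 0x100004) (nat_lit 2) (by decide +kernel) (ClAll.succ (ClAll.succ ClAll.zero n64) s364)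

def n107 : Cl (O (nat_lit 5)) (R (nat_lit 14353))
    (p (nat_lit 0x1fc014) (nat_lit 0) (p (nat_lit 0x1fc004) (nat_lit 0) (p (nat_lit 0xb000c) (nat_lit 1) (p (nat_lit 0x380c2) (nat_lit 0) (p (nat_lit 0x444aa) (nat_lit 7) (p (nat_lit 0xd1) (nat_lit 1) (p (nat_lit 0x111) (nat_lit 1) (p (nat_lit 0x109) (nat_lit 0) (p (nat_lit 0x101) (nat_lit 0) (p (nat_lit 0x119) (nat_lit 0) (p (nat_lit 0xc9) (nat_lit 0) (p (nat_lit 0x89) (nat_lit 1) (p (nat_lit 0x41) (nat_lit 0) (p (nat_lit 0x10a0b0a89089a) (nat_lit 0) (p (nat_lit 0x98a8a08881a) (nat_lit 0) (p (nat_lit 0x109088988079a) (nat_lit 0) (p (nat_lit 0x8880907871a) (nat_lit 0) (p (nat_lit 0x8000000000800080887068a) (nat_lit 0) (p (nat_lit 0x10888068602) (nat_lit 0) (p (nat_lit 0x807860582) (nat_lit 0) (p (nat_lit 0x10607058502) (nat_lit 0) (p (nat_lit 0x586850482) (nat_lit 0) (p (nat_lit 0x16000c) (nat_lit 0) (p (nat_lit 0x68612)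 (nat_lit 0) (p (nat_lit 0x50592) (nat_lit 0) (p (nat_lit 0x40512) (nat_lit 0) (p (nat_lit 0x50312) (nat_lit 0) (p (nat_lit 0x38292) (nat_lit 0) (p (nat_lit 0x28212) (nat_lit 0) (p (nat_lit 0x38112) (nat_lit 0) (p (nat_lit 0x20092) (nat_lit 0) (p (nat_lit 0x10012) (nat_lit 0) pn)))))))))))))))))))))))))))))))) :=
  Cl.node (nat_lit 0x100004) (nat_lit 2) (by decide +kernel) (ClAll.succ (ClAll.succ ClAll.zero n65) s373)

def n108 : Cl (O (nat_lit 5)) (R (nat_lit 14353))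
    (p (nat_lit 0x100004) (nat_lit 0) (p (nat_lit 0xb000c) (nat_lit 0) (p (nat_lit 0x200004) (nat_lit 0) (p (nat_lit 0x380c2) (nat_lit 1) (p (nat_lit 0x444aa) (nat_lit 7) (p (nat_lit 0xd1) (nat_lit 1) (p (nat_lit 0x111) (nat_lit 1) (p (nat_lit 0x109) (nat_lit 0) (p (nat_lit 0x101) (nat_lit 0) (p (nat_lit 0x119) (nat_lit 0) (p (nat_lit 0xc9) (nat_lit 0) (p (nat_lit 0x89) (nat_lit 1) (p (nat_lit 0x41) (nat_lit 0) (p (nat_lit 0x10a0b0a89089a) (nat_lit 0) (p (nat_lit 0x98a8a08881a) (nat_lit 0) (p (nat_lit 0x109088988079a) (nat_lit 0) (p (nat_lit 0x8880907871a) (nat_lit 0) (p (nat_lit 0x8000000000800080887068a) (nat_lit 0) (p (nat_lit 0x10888068602) (nat_lit 0) (p (nat_lit 0x807860582) (nat_lit 0) (p (nat_lit 0x10607058502) (nat_lit 0) (p (nat_lit 0x586850482) (nat_lit 0) (p (nat_lit 0x16000c) (nat_lit 0) (p (nat_lit 0x68612) (nat_lit 0) (p (nat_lit 0x50592) (nat_lit 0) (p (nat_lit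 0x40512) (nat_lit 0) (p (nat_lit 0x50312) (nat_lit 0) (p (nat_lit 0x38292) (nat_lit 0) (p (nat_lit 0x28212) (nat_lit 0) (p (nat_lit 0x38112) (nat_lit 0) (p (nat_lit 0x20092) (nat_lit 0) (p (nat_lit 0x10012) (nat_lit 0) pn)))))))))))))))))))))))))))))))) :=
  Cl.node (nat_lit 0xc1) (nat_lit 2) (by decide +kernel) (ClAll.succ (ClAll.succ ClAll.zero n66) n67)

def n109 : Cl (O (nat_lit 5)) (R (nat_lit 14353))
    (p (nat_lit 0x300014) (nat_lit 1) (p (nat_lit 0x200014) (nat_lit 1) (p (nat_lit 0xb000c) (nat_lit 0) (p (nat_lit 0x380c2) (nat_lit 1) (p (nat_lit 0x444aa) (nat_lit 10) (p (nat_lit 0xd1) (nat_lit 1) (p (nat_lit 0x111) (nat_lit 1) (p (nat_lit 0x109) (nat_lit 0) (p (nat_lit 0x101) (nat_lit 0) (p (nat_lit 0x119) (nat_lit 0) (p (nat_lit 0xc9) (nat_lit 0) (p (nat_lit 0x89) (nat_lit 1) (p (nat_lit 0x41) (nat_lit 0) (p (nat_lit 0x10a0b0a89089a) (nat_lit 0) (p (nat_lit 0x98a8a08881a)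 (nat_lit 0) (p (nat_lit 0x109088988079a) (nat_lit 0) (p (nat_lit 0x8880907871a) (nat_lit 0) (p (nat_lit 0x8000000000800080887068a) (nat_lit 0) (p (nat_lit 0x10888068602) (nat_lit 0) (p (nat_lit 0x807860582) (nat_lit 0) (p (nat_lit 0x10607058502) (nat_lit 0) (p (nat_lit 0x586850482) (nat_lit 0) (p (nat_lit 0x16000c) (nat_lit 0) (p (nat_lit 0x68612) (nat_lit 0) (p (nat_lit 0x50592) (nat_lit 0) (p (nat_lit 0x40512) (nat_lit 0) (p (nat_lit 0x50312) (nat_lit 0) (p (nat_lit 0x38292) (nat_lit 0) (p (nat_lit 0x28212) (nat_lit 0) (p (nat_lit 0x38112) (nat_lit 0) (p (nat_lit 0x20092) (nat_lit 0) (p (nat_lit 0x10012) (nat_lit 0) pn)))))))))))))))))))))))))))))))) :=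
  Cl.node (nat_lit 0x5800c) (nat_lit 2) (by decide +kernel) (ClAll.succ (ClAll.succ ClAll.zero n68) s391)

def n110 : Cl (O (nat_lit 5)) (R (nat_lit 14353))
    (p (nat_lit 0x100004) (nat_lit 0) (p (nat_lit 0x200004) (nat_lit 0) (p (nat_lit 0xc1) (nat_lit 0) (p (nat_lit 0xb000c) (nat_lit 0) (p (nat_lit 0x380c2) (nat_lit 0) (p (nat_lit 0x444aa) (nat_lit 7) (p (nat_lit 0xd1) (nat_lit 1) (p (nat_lit 0x109) (nat_lit 1) (p (nat_lit 0x101) (nat_lit 0) (p (nat_lit 0x119) (nat_lit 0) (p (nat_lit 0xc9) (nat_lit 0) (p (nat_lit 0x89) (nat_lit 1) (p (nat_lit 0x41) (nat_lit 0) (p (nat_lit 0x10a0b0a89089a) (nat_lit 0) (p (nat_lit 0x98a8a08881a) (nat_lit 0) (p (nat_lit 0x109088988079a) (nat_lit 0) (p (nat_lit 0x8880907871a) (nat_lit 0) (p (nat_lit 0x8000000000800080887068a) (nat_lit 0) (p (nat_lit 0x10888068602) (nat_lit 0) (p (nat_lit 0x807860582) (nat_lit 0) (p (nat_lit 0x10607058502)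 (nat_lit 0) (p (nat_lit 0x586850482) (nat_lit 0) (p (nat_lit 0x16000c) (nat_lit 0) (p (nat_lit 0x68612) (nat_lit 0) (p (nat_lit 0x50592) (nat_lit 0) (p (nat_lit 0x40512) (nat_lit 0) (p (nat_lit 0x50312) (nat_lit 0) (p (nat_lit 0x38292) (nat_lit 0) (p (nat_lit 0x28212) (nat_lit 0) (p (nat_lit 0x38112) (nat_lit 0) (p (nat_lit 0x20092) (nat_lit 0) (p (nat_lit 0x10012) (nat_lit 0) pn)))))))))))))))))))))))))))))))) :=
  Cl.node (nat_lit 0xc9) (nat_lit 2) (by decide +kernel) (ClAll.succ (ClAll.succ ClAll.zero n69) s430)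

def n111 : Cl (O (nat_lit 5)) (R (nat_lit 14353))
    (p (nat_lit 0x100004) (nat_lit 0) (p (nat_lit 0x1fc014) (nat_lit 0) (p (nat_lit 0x1fc004) (nat_lit 0) (p (nat_lit 0xb000c) (nat_lit 1) (p (nat_lit 0x380c2) (nat_lit 0) (p (nat_lit 0x444aa) (nat_lit 7) (p (nat_lit 0xd1) (nat_lit 1) (p (nat_lit 0x109) (nat_lit 1) (p (nat_lit 0x101) (nat_lit 0) (p (nat_lit 0x119) (nat_lit 0) (p (nat_lit 0xc9) (nat_lit 0) (p (nat_lit 0x89) (nat_lit 1) (p (nat_lit 0x41) (nat_lit 0) (p (nat_lit 0x10a0b0a89089a) (nat_lit 0) (p (nat_lit 0x98a8a08881a) (nat_lit 0) (p (nat_lit 0x109088988079a) (nat_lit 0) (p (nat_lit 0x8880907871a) (nat_lit 0) (p (nat_lit 0x8000000000800080887068a) (nat_lit 0) (p (nat_lit 0x10888068602) (nat_lit 0) (p (nat_lit 0x807860582) (nat_lit 0) (p (nat_lit 0x10607058502) (nat_lit 0) (p (nat_lit 0x586850482) (nat_lit 0) (p (nat_lit 0x16000c) (nat_lit 0) (p (nat_lit 0x68612)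 (nat_lit 0) (p (nat_lit 0x50592) (nat_lit 0) (p (nat_lit 0x40512) (nat_lit 0) (p (nat_lit 0x50312) (nat_lit 0) (p (nat_lit 0x38292) (nat_lit 0) (p (nat_lit 0x28212) (nat_lit 0) (p (nat_lit 0x38112) (nat_lit 0) (p (nat_lit 0x20092) (nat_lit 0) (p (nat_lit 0x10012) (nat_lit 0) pn)))))))))))))))))))))))))))))))) :=
  Cl.node (nat_lit 0x2a825800002680d0c8d0b8b0a) (nat_lit 1) (by decide +kernel) (ClAll.succ ClAll.zero n70)

def n112 : Cl (O (nat_lit 5)) (R (nat_lit 14353))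
    (p (nat_lit 0x100004) (nat_lit 0) (p (nat_lit 0xc1) (nat_lit 0) (p (nat_lit 0x200004) (nat_lit 0) (p (nat_lit 0xb000c) (nat_lit 0) (p (nat_lit 0x380c2) (nat_lit 1) (p (nat_lit 0x444aa) (nat_lit 7) (p (nat_lit 0xd1) (nat_lit 1) (p (nat_lit 0x109) (nat_lit 1) (p (nat_lit 0x101) (nat_lit 0) (p (nat_lit 0x119) (nat_lit 0) (p (nat_lit 0xc9) (nat_lit 0) (p (nat_lit 0x89) (nat_lit 1) (p (nat_lit 0x41) (nat_lit 0) (p (nat_lit 0x10a0b0a89089a) (nat_lit 0) (p (nat_lit 0x98a8a08881a) (nat_lit 0) (p (nat_lit 0x109088988079a) (nat_lit 0) (p (nat_lit 0x8880907871a) (nat_lit 0) (p (nat_lit 0x8000000000800080887068a) (nat_lit 0) (p (nat_lit 0x10888068602) (nat_lit 0) (p (nat_lit 0x807860582) (nat_lit 0) (p (nat_lit 0x10607058502) (nat_lit 0) (p (nat_lit 0x586850482) (nat_lit 0) (p (nat_lit 0x16000c) (nat_lit 0) (p (nat_lit 0x68612) (nat_lit 0) (p (nat_lit 0x50592) (nat_lit 0) (p (nat_lit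 0x40512) (nat_lit 0) (p (nat_lit 0x50312) (nat_lit 0) (p (nat_lit 0x38292) (nat_lit 0) (p (nat_lit 0x28212) (nat_lit 0) (p (nat_lit 0x38112) (nat_lit 0) (p (nat_lit 0x20092) (nat_lit 0) (p (nat_lit 0x10012) (nat_lit 0) pn)))))))))))))))))))))))))))))))) :=
  Cl.node (nat_lit 0xc9) (nat_lit 2) (by decide +kernel) (ClAll.succ (ClAll.succ ClAll.zero n71) s441)

def n113 : Cl (O (nat_lit 5)) (R (nat_lit 14353))
    (p (nat_lit 0x100004) (nat_lit 0) (p (nat_lit 0x200004) (nat_lit 0) (p (nat_lit 0x109) (nat_lit 0) (p (nat_lit 0xb000c) (nat_lit 0) (p (nat_lit 0x380c2) (nat_lit 0) (p (nat_lit 0x444aa) (nat_lit 7) (p (nat_lit 0x111) (nat_lit 1) (p (nat_lit 0xd1) (nat_lit 1) (p (nat_lit 0xc1) (nat_lit 0) (p (nat_lit 0x119) (nat_lit 1) (p (nat_lit 0xc9) (nat_lit 0) (p (nat_lit 0x89) (nat_lit 1) (p (nat_lit 0x41) (nat_lit 0) (p (nat_lit 0x10a0b0a89089a) (nat_lit 0) (p (nat_lit 0x98a8a08881a)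 (nat_lit 0) (p (nat_lit 0x109088988079a) (nat_lit 0) (p (nat_lit 0x8880907871a) (nat_lit 0) (p (nat_lit 0x8000000000800080887068a) (nat_lit 0) (p (nat_lit 0x10888068602) (nat_lit 0) (p (nat_lit 0x807860582) (nat_lit 0) (p (nat_lit 0x10607058502) (nat_lit 0) (p (nat_lit 0x586850482) (nat_lit 0) (p (nat_lit 0x16000c) (nat_lit 0) (p (nat_lit 0x68612) (nat_lit 0) (p (nat_lit 0x50592) (nat_lit 0) (p (nat_lit 0x40512) (nat_lit 0) (p (nat_lit 0x50312) (nat_lit 0) (p (nat_lit 0x38292) (nat_lit 0) (p (nat_lit 0x28212) (nat_lit 0) (p (nat_lit 0x38112) (nat_lit 0) (p (nat_lit 0x20092) (nat_lit 0) (p (nat_lit 0x10012) (nat_lit 0) pn)))))))))))))))))))))))))))))))) :=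
  Cl.node (nat_lit 0x101) (nat_lit 2) (by decide +kernel) (ClAll.succ (ClAll.succ ClAll.zero s491) s492)

def n114 : Cl (O (nat_lit 5)) (R (nat_lit 14353))
    (p (nat_lit 0x100004) (nat_lit 0) (p (nat_lit 0x1fc014) (nat_lit 0) (p (nat_lit 0x1fc004) (nat_lit 0) (p (nat_lit 0xb000c) (nat_lit 1) (p (nat_lit 0x380c2) (nat_lit 0) (p (nat_lit 0x444aa) (nat_lit 7) (p (nat_lit 0x111) (nat_lit 1) (p (nat_lit 0xd1) (nat_lit 1) (p (nat_lit 0xc1) (nat_lit 0) (p (nat_lit 0x119) (nat_lit 1) (p (nat_lit 0xc9) (nat_lit 0) (p (nat_lit 0x89) (nat_lit 1) (p (nat_lit 0x41) (nat_lit 0) (p (nat_lit 0x10a0b0a89089a) (nat_lit 0) (p (nat_lit 0x98a8a08881a) (nat_lit 0) (p (nat_lit 0x109088988079a) (nat_lit 0) (p (nat_lit 0x8880907871a) (nat_lit 0) (p (nat_lit 0x8000000000800080887068a) (nat_lit 0) (p (nat_lit 0x10888068602) (nat_lit 0) (p (nat_lit 0x807860582) (nat_lit 0) (p (nat_lit 0x10607058502)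 (nat_lit 0) (p (nat_lit 0x586850482) (nat_lit 0) (p (nat_lit 0x16000c) (nat_lit 0) (p (nat_lit 0x68612) (nat_lit 0) (p (nat_lit 0x50592) (nat_lit 0) (p (nat_lit 0x40512) (nat_lit 0) (p (nat_lit 0x50312) (nat_lit 0) (p (nat_lit 0x38292) (nat_lit 0) (p (nat_lit 0x28212) (nat_lit 0) (p (nat_lit 0x38112) (nat_lit 0) (p (nat_lit 0x20092) (nat_lit 0) (p (nat_lit 0x10012) (nat_lit 0) pn)))))))))))))))))))))))))))))))) :=
  Cl.node (nat_lit 0x80004) (nat_lit 2) (by decide +kernel) (ClAll.succ (ClAll.succ ClAll.zero n72) s498)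

def n115 : Cl (O (nat_lit 5)) (R (nat_lit 14353))
    (p (nat_lit 0x100004) (nat_lit 0) (p (nat_lit 0x200004) (nat_lit 0) (p (nat_lit 0x109) (nat_lit 0) (p (nat_lit 0xb000c) (nat_lit 0) (p (nat_lit 0x380c2) (nat_lit 1) (p (nat_lit 0x444aa) (nat_lit 7) (p (nat_lit 0x111) (nat_lit 1) (p (nat_lit 0x101) (nat_lit 0) (p (nat_lit 0xc1) (nat_lit 1) (p (nat_lit 0x119) (nat_lit 1) (p (nat_lit 0xc9) (nat_lit 0) (p (nat_lit 0x89) (nat_lit 1) (p (nat_lit 0x41) (nat_lit 0) (p (nat_lit 0x10a0b0a89089a) (nat_lit 0) (p (nat_lit 0x98a8a08881a) (nat_lit 0) (p (nat_lit 0x109088988079a) (nat_lit 0) (p (nat_lit 0x8880907871a) (nat_lit 0) (p (nat_lit 0x8000000000800080887068a) (nat_lit 0) (p (nat_lit 0x10888068602) (nat_lit 0) (p (nat_lit 0x807860582) (nat_lit 0) (p (nat_lit 0x10607058502) (nat_lit 0) (p (nat_lit 0x586850482) (nat_lit 0) (p (nat_lit 0x16000c) (nat_lit 0) (p (nat_lit 0x68612)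 (nat_lit 0) (p (nat_lit 0x50592) (nat_lit 0) (p (nat_lit 0x40512) (nat_lit 0) (p (nat_lit 0x50312) (nat_lit 0) (p (nat_lit 0x38292) (nat_lit 0) (p (nat_lit 0x28212) (nat_lit 0) (p (nat_lit 0x38112) (nat_lit 0) (p (nat_lit 0x20092) (nat_lit 0) (p (nat_lit 0x10012) (nat_lit 0) pn)))))))))))))))))))))))))))))))) :=
  Cl.node (nat_lit 0x119) (nat_lit 2) (by decide +kernel) (ClAll.succ (ClAll.succ ClAll.zero n73) s536)

def n116 : Cl (O (nat_lit 5)) (R (nat_lit 14353))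
    (p (nat_lit 0x380c2) (nat_lit 0) (p (nat_lit 0x44c2a) (nat_lit 1) (p (nat_lit 0x111) (nat_lit 1) (p (nat_lit 0x380c2) (nat_lit 0) (p (nat_lit 0x4c42a) (nat_lit 2) (p (nat_lit 0xc9) (nat_lit 0) (p (nat_lit 0x89) (nat_lit 1) (p (nat_lit 0x109) (nat_lit 1) (p (nat_lit 0x101) (nat_lit 0) (p (nat_lit 0x119) (nat_lit 0) (p (nat_lit 0xd1) (nat_lit 0) (p (nat_lit 0x81) (nat_lit 0) (p (nat_lit 0x41) (nat_lit 1) (p (nat_lit 0x10a0b0a89089a) (nat_lit 0) (p (nat_lit 0x98a8a08881a) (nat_lit 0) (p (nat_lit 0x109088988079a) (nat_lit 0) (p (nat_lit 0x8880907871a) (nat_lit 0) (p (nat_lit 0x8000000000800080887068a) (nat_lit 0) (p (nat_lit 0x10888068602) (nat_lit 0) (p (nat_lit 0x807860582) (nat_lit 0) (p (nat_lit 0x10607058502) (nat_lit 0) (p (nat_lit 0x586850482) (nat_lit 0) (p (nat_lit 0x16000c) (nat_lit 0) (p (nat_lit 0x68612) (nat_lit 0) (p (nat_lit 0x50592) (nat_lit 0) (p (nat_lit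 0x40512) (nat_lit 0) (p (nat_lit 0x50312) (nat_lit 0) (p (nat_lit 0x38292) (nat_lit 0) (p (nat_lit 0x28212) (nat_lit 0) (p (nat_lit 0x38112) (nat_lit 0) (p (nat_lit 0x20092) (nat_lit 0) (p (nat_lit 0x10012) (nat_lit 0) pn)))))))))))))))))))))))))))))))) :=
  Cl.node (nat_lit 0x200014) (nat_lit 2) (by decide +kernel) (ClAll.succ (ClAll.succ ClAll.zero n74) s606)

def n117 : Cl (O (nat_lit 5)) (R (nat_lit 14353))
    (p (nat_lit 0x380c2) (nat_lit 1) (p (nat_lit 0x44c2a) (nat_lit 1) (p (nat_lit 0x111) (nat_lit 1) (p (nat_lit 0x380c2) (nat_lit 0) (p (nat_lit 0x4c42a) (nat_lit 2) (p (nat_lit 0xc9) (nat_lit 0) (p (nat_lit 0x89) (nat_lit 1) (p (nat_lit 0x109) (nat_lit 1) (p (nat_lit 0x101) (nat_lit 0) (p (nat_lit 0x119) (nat_lit 0) (p (nat_lit 0xd1) (nat_lit 0) (p (nat_lit 0x81) (nat_lit 0) (p (nat_lit 0x41) (nat_lit 1) (p (nat_lit 0x10a0b0a89089a) (nat_lit 0) (p (nat_lit 0x98a8a08881a)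 (nat_lit 0) (p (nat_lit 0x109088988079a) (nat_lit 0) (p (nat_lit 0x8880907871a) (nat_lit 0) (p (nat_lit 0x8000000000800080887068a) (nat_lit 0) (p (nat_lit 0x10888068602) (nat_lit 0) (p (nat_lit 0x807860582) (nat_lit 0) (p (nat_lit 0x10607058502) (nat_lit 0) (p (nat_lit 0x586850482) (nat_lit 0) (p (nat_lit 0x16000c) (nat_lit 0) (p (nat_lit 0x68612) (nat_lit 0) (p (nat_lit 0x50592) (nat_lit 0) (p (nat_lit 0x40512) (nat_lit 0) (p (nat_lit 0x50312) (nat_lit 0) (p (nat_lit 0x38292) (nat_lit 0) (p (nat_lit 0x28212) (nat_lit 0) (p (nat_lit 0x38112) (nat_lit 0) (p (nat_lit 0x20092) (nat_lit 0) (p (nat_lit 0x10012) (nat_lit 0) pn)))))))))))))))))))))))))))))))) :=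
  Cl.node (nat_lit 0x200014) (nat_lit 2) (by decide +kernel) (ClAll.succ (ClAll.succ ClAll.zero n75) s611)

def n118 : Cl (O (nat_lit 5)) (R (nat_lit 14353))
    (p (nat_lit 0x200014) (nat_lit 0) (p (nat_lit 0x380c2) (nat_lit 0) (p (nat_lit 0x44c2a) (nat_lit 0) (p (nat_lit 0x380c2) (nat_lit 0) (p (nat_lit 0x4c42a) (nat_lit 2) (p (nat_lit 0xc9) (nat_lit 0) (p (nat_lit 0x89) (nat_lit 1) (p (nat_lit 0xc1) (nat_lit 0) (p (nat_lit 0x101) (nat_lit 1) (p (nat_lit 0x119) (nat_lit 0) (p (nat_lit 0xd1) (nat_lit 0) (p (nat_lit 0x81) (nat_lit 0) (p (nat_lit 0x41) (nat_lit 1) (p (nat_lit 0x10a0b0a89089a) (nat_lit 0) (p (nat_lit 0x98a8a08881a) (nat_lit 0) (p (nat_lit 0x109088988079a) (nat_lit 0) (p (nat_lit 0x8880907871a) (nat_lit 0) (p (nat_lit 0x8000000000800080887068a) (nat_lit 0) (p (nat_lit 0x10888068602) (nat_lit 0) (p (nat_lit 0x807860582) (nat_lit 0) (p (nat_lit 0x10607058502)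 (nat_lit 0) (p (nat_lit 0x586850482) (nat_lit 0) (p (nat_lit 0x16000c) (nat_lit 0) (p (nat_lit 0x68612) (nat_lit 0) (p (nat_lit 0x50592) (nat_lit 0) (p (nat_lit 0x40512) (nat_lit 0) (p (nat_lit 0x50312) (nat_lit 0) (p (nat_lit 0x38292) (nat_lit 0) (p (nat_lit 0x28212) (nat_lit 0) (p (nat_lit 0x38112) (nat_lit 0) (p (nat_lit 0x20092) (nat_lit 0) (p (nat_lit 0x10012) (nat_lit 0) pn)))))))))))))))))))))))))))))))) :=
  Cl.node (nat_lit 0x111) (nat_lit 2) (by decide +kernel) (ClAll.succ (ClAll.succ ClAll.zero s660) n76)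

def n119 : Cl (O (nat_lit 5)) (R (nat_lit 14353))
    (p (nat_lit 0x200014) (nat_lit 0) (p (nat_lit 0x380c2) (nat_lit 0) (p (nat_lit 0x44c2a) (nat_lit 1) (p (nat_lit 0x380c2) (nat_lit 0) (p (nat_lit 0x4c42a) (nat_lit 2) (p (nat_lit 0xc9) (nat_lit 0) (p (nat_lit 0x89) (nat_lit 1) (p (nat_lit 0xc1) (nat_lit 0) (p (nat_lit 0x101) (nat_lit 1) (p (nat_lit 0x119) (nat_lit 0) (p (nat_lit 0xd1) (nat_lit 0) (p (nat_lit 0x81) (nat_lit 0) (p (nat_lit 0x41) (nat_lit 1) (p (nat_lit 0x10a0b0a89089a) (nat_lit 0) (p (nat_lit 0x98a8a08881a) (nat_lit 0) (p (nat_lit 0x109088988079a) (nat_lit 0) (p (nat_lit 0x8880907871a) (nat_lit 0) (p (nat_lit 0x8000000000800080887068a) (nat_lit 0) (p (nat_lit 0x10888068602) (nat_lit 0) (p (nat_lit 0x807860582) (nat_lit 0) (p (nat_lit 0x10607058502) (nat_lit 0) (p (nat_lit 0x586850482) (nat_lit 0) (p (nat_lit 0x16000c) (nat_lit 0) (p (nat_lit 0x68612) (nat_lit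 0) (p (nat_lit 0x50592) (nat_lit 0) (p (nat_lit 0x40512) (nat_lit 0) (p (nat_lit 0x50312) (nat_lit 0) (p (nat_lit 0x38292) (nat_lit 0) (p (nat_lit 0x28212) (nat_lit 0) (p (nat_lit 0x38112) (nat_lit 0) (p (nat_lit 0x20092) (nat_lit 0) (p (nat_lit 0x10012) (nat_lit 0) pn)))))))))))))))))))))))))))))))) :=
  Cl.node (nat_lit 0x111) (nat_lit 2) (by decide +kernel) (ClAll.succ (ClAll.succ ClAll.zero s667) n77)

def n120 : Cl (O (nat_lit 5)) (R (nat_lit 14353))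
    (p (nat_lit 0x200014) (nat_lit 0) (p (nat_lit 0x380c2) (nat_lit 1) (p (nat_lit 0x44c2a) (nat_lit 1) (p (nat_lit 0x380c2) (nat_lit 0) (p (nat_lit 0x4c42a) (nat_lit 2) (p (nat_lit 0xc9) (nat_lit 0) (p (nat_lit 0x89) (nat_lit 1) (p (nat_lit 0xc1) (nat_lit 0) (p (nat_lit 0x101) (nat_lit 1) (p (nat_lit 0x119) (nat_lit 0) (p (nat_lit 0xd1) (nat_lit 0) (p (nat_lit 0x81) (nat_lit 0) (p (nat_lit 0x41) (nat_lit 1) (p (nat_lit 0x10a0b0a89089a) (nat_lit 0) (p (nat_lit 0x98a8a08881a) (nat_lit 0) (p (nat_lit 0x109088988079a) (nat_lit 0) (p (nat_lit 0x8880907871a) (nat_lit 0) (p (nat_lit 0x8000000000800080887068a) (nat_lit 0) (p (nat_lit 0x10888068602) (nat_lit 0) (p (nat_lit 0x807860582) (nat_lit 0) (p (nat_lit 0x10607058502) (nat_lit 0) (p (nat_lit 0x586850482) (nat_lit 0) (p (nat_lit 0x16000c) (nat_lit 0) (p (nat_lit 0x68612) (nat_lit 0) (p (nat_lit 0x50592) (nat_lit 0) (p (nat_lit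 0x40512) (nat_lit 0) (p (nat_lit 0x50312) (nat_lit 0) (p (nat_lit 0x38292) (nat_lit 0) (p (nat_lit 0x28212) (nat_lit 0) (p (nat_lit 0x38112) (nat_lit 0) (p (nat_lit 0x20092) (nat_lit 0) (p (nat_lit 0x10012) (nat_lit 0) pn)))))))))))))))))))))))))))))))) :=
  Cl.node (nat_lit 0x111) (nat_lit 2) (by decide +kernel) (ClAll.succ (ClAll.succ ClAll.zero s671) n78)

def n121 : Cl (O (nat_lit 5)) (R (nat_lit 14353))
    (p (nat_lit 0x200014) (nat_lit 0) (p (nat_lit 0x380c2) (nat_lit 1) (p (nat_lit 0x3c4aa) (nat_lit 7) (p (nat_lit 0x380c2) (nat_lit 0) (p (nat_lit 0x4c42a) (nat_lit 2) (p (nat_lit 0xc9) (nat_lit 1) (p (nat_lit 0x89) (nat_lit 1) (p (nat_lit 0xc1) (nat_lit 0) (p (nat_lit 0x101) (nat_lit 1) (p (nat_lit 0x119) (nat_lit 0) (p (nat_lit 0xd1) (nat_lit 0) (p (nat_lit 0x81) (nat_lit 0) (p (nat_lit 0x41) (nat_lit 1) (p (nat_lit 0x10a0b0a89089a) (nat_lit 0) (p (nat_lit 0x98a8a08881a)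 (nat_lit 0) (p (nat_lit 0x109088988079a) (nat_lit 0) (p (nat_lit 0x8880907871a) (nat_lit 0) (p (nat_lit 0x8000000000800080887068a) (nat_lit 0) (p (nat_lit 0x10888068602) (nat_lit 0) (p (nat_lit 0x807860582) (nat_lit 0) (p (nat_lit 0x10607058502) (nat_lit 0) (p (nat_lit 0x586850482) (nat_lit 0) (p (nat_lit 0x16000c) (nat_lit 0) (p (nat_lit 0x68612) (nat_lit 0) (p (nat_lit 0x50592) (nat_lit 0) (p (nat_lit 0x40512) (nat_lit 0) (p (nat_lit 0x50312) (nat_lit 0) (p (nat_lit 0x38292) (nat_lit 0) (p (nat_lit 0x28212) (nat_lit 0) (p (nat_lit 0x38112) (nat_lit 0) (p (nat_lit 0x20092) (nat_lit 0) (p (nat_lit 0x10012) (nat_lit 0) pn)))))))))))))))))))))))))))))))) :=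
  Cl.node (nat_lit 0xb000c) (nat_lit 2) (by decide +kernel) (ClAll.succ (ClAll.succ ClAll.zero s705) s706)

def n122 : Cl (O (nat_lit 5)) (R (nat_lit 14353))
    (p (nat_lit 0xc1) (nat_lit 0) (p (nat_lit 0xc9) (nat_lit 0) (p (nat_lit 0x200004) (nat_lit 0) (p (nat_lit 0xb000c) (nat_lit 0) (p (nat_lit 0x380c2) (nat_lit 1) (p (nat_lit 0x3c4aa) (nat_lit 7) (p (nat_lit 0x89) (nat_lit 1) (p (nat_lit 0xc1) (nat_lit 1) (p (nat_lit 0x101) (nat_lit 1) (p (nat_lit 0x119) (nat_lit 0) (p (nat_lit 0xd1) (nat_lit 0) (p (nat_lit 0x81) (nat_lit 0) (p (nat_lit 0x41) (nat_lit 1) (p (nat_lit 0x10a0b0a89089a) (nat_lit 0) (p (nat_lit 0x98a8a08881a) (nat_lit 0) (p (nat_lit 0x109088988079a) (nat_lit 0) (p (nat_lit 0x8880907871a) (nat_lit 0) (p (nat_lit 0x8000000000800080887068a) (nat_lit 0) (p (nat_lit 0x10888068602) (nat_lit 0) (p (nat_lit 0x807860582) (nat_lit 0) (p (nat_lit 0x10607058502) (nat_lit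 0) (p (nat_lit 0x586850482) (nat_lit 0) (p (nat_lit 0x16000c) (nat_lit 0) (p (nat_lit 0x68612) (nat_lit 0) (p (nat_lit 0x50592) (nat_lit 0) (p (nat_lit 0x40512) (nat_lit 0) (p (nat_lit 0x50312) (nat_lit 0) (p (nat_lit 0x38292) (nat_lit 0) (p (nat_lit 0x28212) (nat_lit 0) (p (nat_lit 0x38112) (nat_lit 0) (p (nat_lit 0x20092) (nat_lit 0) (p (nat_lit 0x10012) (nat_lit 0) pn)))))))))))))))))))))))))))))))) :=
  Cl.node (nat_lit 0x100004) (nat_lit 2) (by decide +kernel) (ClAll.succ (ClAll.succ ClAll.zero n79) s744)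

def n123 : Cl (O (nat_lit 5)) (R (nat_lit 14353))
    (p (nat_lit 0x100004) (nat_lit 0) (p (nat_lit 0x200004) (nat_lit 0) (p (nat_lit 0xb000c) (nat_lit 0) (p (nat_lit 0x380c2) (nat_lit 1) (p (nat_lit 0x3c4aa) (nat_lit 10) (p (nat_lit 0x109) (nat_lit 1) (p (nat_lit 0x89) (nat_lit 1) (p (nat_lit 0xc9) (nat_lit 1) (p (nat_lit 0xc1) (nat_lit 0) (p (nat_lit 0x119) (nat_lit 1) (p (nat_lit 0xd1) (nat_lit 0) (p (nat_lit 0x81) (nat_lit 0) (p (nat_lit 0x41) (nat_lit 1) (p (nat_lit 0x10a0b0a89089a) (nat_lit 0) (p (nat_lit 0x98a8a08881a) (nat_lit 0) (p (nat_lit 0x109088988079a) (nat_lit 0) (p (nat_lit 0x8880907871a) (nat_lit 0) (p (nat_lit 0x8000000000800080887068a) (nat_lit 0) (p (nat_lit 0x10888068602) (nat_lit 0) (p (nat_lit 0x807860582) (nat_lit 0) (p (nat_lit 0x10607058502) (nat_lit 0) (p (nat_lit 0x586850482) (nat_lit 0) (p (nat_lit 0x16000c) (nat_lit 0) (p (nat_lit 0x68612)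 (nat_lit 0) (p (nat_lit 0x50592) (nat_lit 0) (p (nat_lit 0x40512) (nat_lit 0) (p (nat_lit 0x50312) (nat_lit 0) (p (nat_lit 0x38292) (nat_lit 0) (p (nat_lit 0x28212) (nat_lit 0) (p (nat_lit 0x38112) (nat_lit 0) (p (nat_lit 0x20092) (nat_lit 0) (p (nat_lit 0x10012) (nat_lit 0) pn)))))))))))))))))))))))))))))))) :=
  Cl.node (nat_lit 0x200014) (nat_lit 2) (by decide +kernel) (ClAll.succ (ClAll.succ ClAll.zero n80) s823)

def n124 : Cl (O (nat_lit 5)) (R (nat_lit 14353))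
    (p (nat_lit 0x1fc014) (nat_lit 0) (p (nat_lit 0x1fc004) (nat_lit 0) (p (nat_lit 0xb000c) (nat_lit 1) (p (nat_lit 0x380c2) (nat_lit 1) (p (nat_lit 0x3c4aa) (nat_lit 10) (p (nat_lit 0x109) (nat_lit 1) (p (nat_lit 0x89) (nat_lit 1) (p (nat_lit 0xc9) (nat_lit 1) (p (nat_lit 0xc1) (nat_lit 0) (p (nat_lit 0x119) (nat_lit 1) (p (nat_lit 0xd1) (nat_lit 0) (p (nat_lit 0x81) (nat_lit 0) (p (nat_lit 0x41) (nat_lit 1) (p (nat_lit 0x10a0b0a89089a) (nat_lit 0) (p (nat_lit 0x98a8a08881a) (nat_lit 0) (p (nat_lit 0x109088988079a) (nat_lit 0) (p (nat_lit 0x8880907871a) (nat_lit 0) (p (nat_lit 0x8000000000800080887068a) (nat_lit 0) (p (nat_lit 0x10888068602) (nat_lit 0) (p (nat_lit 0x807860582) (nat_lit 0) (p (nat_lit 0x10607058502) (nat_lit 0) (p (nat_lit 0x586850482) (nat_lit 0) (p (nat_lit 0x16000c) (nat_lit 0) (p (nat_lit 0x68612) (nat_lit 0) (p (nat_lit 0x50592) (nat_lit 0) (p (nat_lit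 0x40512) (nat_lit 0) (p (nat_lit 0x50312) (nat_lit 0) (p (nat_lit 0x38292) (nat_lit 0) (p (nat_lit 0x28212) (nat_lit 0) (p (nat_lit 0x38112) (nat_lit 0) (p (nat_lit 0x20092) (nat_lit 0) (p (nat_lit 0x10012) (nat_lit 0) pn)))))))))))))))))))))))))))))))) :=
  Cl.node (nat_lit 0x100004) (nat_lit 2) (by decide +kernel) (ClAll.succ (ClAll.succ ClAll.zero n81) s828)

def n125 : Cl (O (nat_lit 5)) (R (nat_lit 14353))
    (p (nat_lit 0x81) (nat_lit 1) (p (nat_lit 0x200004) (nat_lit 0) (p (nat_lit 0xb000c) (nat_lit 0) (p (nat_lit 0x380c2) (nat_lit 1) (p (nat_lit 0x3c4aa) (nat_lit 7) (p (nat_lit 0x109) (nat_lit 1) (p (nat_lit 0x89) (nat_lit 1) (p (nat_lit 0x101) (nat_lit 0) (p (nat_lit 0xc1) (nat_lit 1) (p (nat_lit 0x119) (nat_lit 1) (p (nat_lit 0xd1) (nat_lit 0) (p (nat_lit 0x81) (nat_lit 0) (p (nat_lit 0x41) (nat_lit 1) (p (nat_lit 0x10a0b0a89089a) (nat_lit 0) (p (nat_lit 0x98a8a08881a)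 (nat_lit 0) (p (nat_lit 0x109088988079a) (nat_lit 0) (p (nat_lit 0x8880907871a) (nat_lit 0) (p (nat_lit 0x8000000000800080887068a) (nat_lit 0) (p (nat_lit 0x10888068602) (nat_lit 0) (p (nat_lit 0x807860582) (nat_lit 0) (p (nat_lit 0x10607058502) (nat_lit 0) (p (nat_lit 0x586850482) (nat_lit 0) (p (nat_lit 0x16000c) (nat_lit 0) (p (nat_lit 0x68612) (nat_lit 0) (p (nat_lit 0x50592) (nat_lit 0) (p (nat_lit 0x40512) (nat_lit 0) (p (nat_lit 0x50312) (nat_lit 0) (p (nat_lit 0x38292) (nat_lit 0) (p (nat_lit 0x28212) (nat_lit 0) (p (nat_lit 0x38112) (nat_lit 0) (p (nat_lit 0x20092) (nat_lit 0) (p (nat_lit 0x10012) (nat_lit 0) pn)))))))))))))))))))))))))))))))) :=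
  Cl.node (nat_lit 0xc1) (nat_lit 2) (by decide +kernel) (ClAll.succ (ClAll.succ ClAll.zero s874) s875)

def n126 : Cl (O (nat_lit 5)) (R (nat_lit 14353))
    (p (nat_lit 0x1fc014) (nat_lit 0) (p (nat_lit 0x1fc004) (nat_lit 0) (p (nat_lit 0xb000c) (nat_lit 1) (p (nat_lit 0x380c2) (nat_lit 1) (p (nat_lit 0x3c4aa) (nat_lit 7) (p (nat_lit 0x109) (nat_lit 1) (p (nat_lit 0x89) (nat_lit 1) (p (nat_lit 0x101) (nat_lit 0) (p (nat_lit 0xc1) (nat_lit 1) (p (nat_lit 0x119) (nat_lit 1) (p (nat_lit 0xd1) (nat_lit 0) (p (nat_lit 0x81) (nat_lit 0) (p (nat_lit 0x41) (nat_lit 1) (p (nat_lit 0x10a0b0a89089a) (nat_lit 0) (p (nat_lit 0x98a8a08881a) (nat_lit 0) (p (nat_lit 0x109088988079a) (nat_lit 0) (p (nat_lit 0x8880907871a) (nat_lit 0) (p (nat_lit 0x8000000000800080887068a) (nat_lit 0) (p (nat_lit 0x10888068602) (nat_lit 0) (p (nat_lit 0x807860582) (nat_lit 0) (p (nat_lit 0x10607058502)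 (nat_lit 0) (p (nat_lit 0x586850482) (nat_lit 0) (p (nat_lit 0x16000c) (nat_lit 0) (p (nat_lit 0x68612) (nat_lit 0) (p (nat_lit 0x50592) (nat_lit 0) (p (nat_lit 0x40512) (nat_lit 0) (p (nat_lit 0x50312) (nat_lit 0) (p (nat_lit 0x38292) (nat_lit 0) (p (nat_lit 0x28212) (nat_lit 0) (p (nat_lit 0x38112) (nat_lit 0) (p (nat_lit 0x20092) (nat_lit 0) (p (nat_lit 0x10012) (nat_lit 0) pn)))))))))))))))))))))))))))))))) :=
  Cl.node (nat_lit 0x10800c) (nat_lit 2) (by decide +kernel) (ClAll.succ (ClAll.succ ClAll.zero n82) s880)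

def n127 : Cl (O (nat_lit 5)) (R (nat_lit 14353))
    (p (nat_lit 0x100014) (nat_lit 0) (p (nat_lit 0x200014) (nat_lit 0) (p (nat_lit 0xb000c) (nat_lit 0) (p (nat_lit 0x380c2) (nat_lit 1) (p (nat_lit 0x3c4aa) (nat_lit 10) (p (nat_lit 0x109) (nat_lit 1) (p (nat_lit 0x89) (nat_lit 1) (p (nat_lit 0x101) (nat_lit 0) (p (nat_lit 0xc1) (nat_lit 1) (p (nat_lit 0x119) (nat_lit 1) (p (nat_lit 0xd1) (nat_lit 0) (p (nat_lit 0x81) (nat_lit 0) (p (nat_lit 0x41) (nat_lit 1) (p (nat_lit 0x10a0b0a89089a) (nat_lit 0) (p (nat_lit 0x98a8a08881a) (nat_lit 0) (p (nat_lit 0x109088988079a) (nat_lit 0) (p (nat_lit 0x8880907871a) (nat_lit 0) (p (nat_lit 0x8000000000800080887068a) (nat_lit 0) (p (nat_lit 0x10888068602) (nat_lit 0) (p (nat_lit 0x807860582) (nat_lit 0) (p (nat_lit 0x10607058502) (nat_lit 0) (p (nat_lit 0x586850482) (nat_lit 0) (p (nat_lit 0x16000c) (nat_lit 0) (p (nat_lit 0x68612)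 (nat_lit 0) (p (nat_lit 0x50592) (nat_lit 0) (p (nat_lit 0x40512) (nat_lit 0) (p (nat_lit 0x50312) (nat_lit 0) (p (nat_lit 0x38292) (nat_lit 0) (p (nat_lit 0x28212) (nat_lit 0) (p (nat_lit 0x38112) (nat_lit 0) (p (nat_lit 0x20092) (nat_lit 0) (p (nat_lit 0x10012) (nat_lit 0) pn)))))))))))))))))))))))))))))))) :=
  Cl.node (nat_lit 0x200004) (nat_lit 2) (by decide +kernel) (ClAll.succ (ClAll.succ ClAll.zero n83) s888)

def n128 : Cl (O (nat_lit 5)) (R (nat_lit 14353))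
    (p (nat_lit 0x101) (nat_lit 0) (p (nat_lit 0xb000c) (nat_lit 0) (p (nat_lit 0x100004) (nat_lit 0) (p (nat_lit 0x200004) (nat_lit 0) (p (nat_lit 0x380c2) (nat_lit 1) (p (nat_lit 0x3c4aa) (nat_lit 7) (p (nat_lit 0x89) (nat_lit 1) (p (nat_lit 0x101) (nat_lit 1) (p (nat_lit 0xc1) (nat_lit 1) (p (nat_lit 0x119) (nat_lit 1) (p (nat_lit 0xd1) (nat_lit 0) (p (nat_lit 0x81) (nat_lit 0) (p (nat_lit 0x41) (nat_lit 1) (p (nat_lit 0x10a0b0a89089a) (nat_lit 0) (p (nat_lit 0x98a8a08881a) (nat_lit 0) (p (nat_lit 0x109088988079a) (nat_lit 0) (p (nat_lit 0x8880907871a) (nat_lit 0) (p (nat_lit 0x8000000000800080887068a) (nat_lit 0) (p (nat_lit 0x10888068602) (nat_lit 0) (p (nat_lit 0x807860582) (nat_lit 0) (p (nat_lit 0x10607058502) (nat_lit 0) (p (nat_lit 0x586850482) (nat_lit 0) (p (nat_lit 0x16000c) (nat_lit 0) (p (nat_lit 0x68612) (nat_lit 0) (p (nat_lit 0x50592) (nat_lit 0) (p (nat_lit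 0x40512) (nat_lit 0) (p (nat_lit 0x50312) (nat_lit 0) (p (nat_lit 0x38292) (nat_lit 0) (p (nat_lit 0x28212) (nat_lit 0) (p (nat_lit 0x38112) (nat_lit 0) (p (nat_lit 0x20092) (nat_lit 0) (p (nat_lit 0x10012) (nat_lit 0) pn)))))))))))))))))))))))))))))))) :=
  Cl.node (nat_lit 0x109) (nat_lit 2) (by decide +kernel) (ClAll.succ (ClAll.succ ClAll.zero s920) n84)

def n129 : Cl (O (nat_lit 5)) (R (nat_lit 14353))
    (p (nat_lit 0x101) (nat_lit 1) (p (nat_lit 0xb000c) (nat_lit 0) (p (nat_lit 0x100004) (nat_lit 0) (p (nat_lit 0x200004) (nat_lit 0) (p (nat_lit 0x380c2) (nat_lit 1) (p (nat_lit 0x3c4aa) (nat_lit 7) (p (nat_lit 0x89) (nat_lit 1) (p (nat_lit 0x101) (nat_lit 1) (p (nat_lit 0xc1) (nat_lit 1) (p (nat_lit 0x119) (nat_lit 1) (p (nat_lit 0xd1) (nat_lit 0) (p (nat_lit 0x81) (nat_lit 0) (p (nat_lit 0x41) (nat_lit 1) (p (nat_lit 0x10a0b0a89089a) (nat_lit 0) (p (nat_lit 0x98a8a08881a)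 (nat_lit 0) (p (nat_lit 0x109088988079a) (nat_lit 0) (p (nat_lit 0x8880907871a) (nat_lit 0) (p (nat_lit 0x8000000000800080887068a) (nat_lit 0) (p (nat_lit 0x10888068602) (nat_lit 0) (p (nat_lit 0x807860582) (nat_lit 0) (p (nat_lit 0x10607058502) (nat_lit 0) (p (nat_lit 0x586850482) (nat_lit 0) (p (nat_lit 0x16000c) (nat_lit 0) (p (nat_lit 0x68612) (nat_lit 0) (p (nat_lit 0x50592) (nat_lit 0) (p (nat_lit 0x40512) (nat_lit 0) (p (nat_lit 0x50312) (nat_lit 0) (p (nat_lit 0x38292) (nat_lit 0) (p (nat_lit 0x28212) (nat_lit 0) (p (nat_lit 0x38112) (nat_lit 0) (p (nat_lit 0x20092) (nat_lit 0) (p (nat_lit 0x10012) (nat_lit 0) pn)))))))))))))))))))))))))))))))) :=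
  Cl.node (nat_lit 0xc1) (nat_lit 2) (by decide +kernel) (ClAll.succ (ClAll.succ ClAll.zero s923) s924)

def n130 : Cl (O (nat_lit 5)) (R (nat_lit 14353))
    (p (nat_lit 0x1fc014) (nat_lit 0) (p (nat_lit 0xb000c) (nat_lit 1) (p (nat_lit 0x100004) (nat_lit 0) (p (nat_lit 0x200004) (nat_lit 0) (p (nat_lit 0x380c2) (nat_lit 1) (p (nat_lit 0x3c4aa) (nat_lit 7) (p (nat_lit 0x89) (nat_lit 1) (p (nat_lit 0x101) (nat_lit 1) (p (nat_lit 0xc1) (nat_lit 1) (p (nat_lit 0x119) (nat_lit 1) (p (nat_lit 0xd1) (nat_lit 0) (p (nat_lit 0x81) (nat_lit 0) (p (nat_lit 0x41) (nat_lit 1) (p (nat_lit 0x10a0b0a89089a) (nat_lit 0) (p (nat_lit 0x98a8a08881a) (nat_lit 0) (p (nat_lit 0x109088988079a) (nat_lit 0) (p (nat_lit 0x8880907871a) (nat_lit 0) (p (nat_lit 0x8000000000800080887068a) (nat_lit 0) (p (nat_lit 0x10888068602) (nat_lit 0) (p (nat_lit 0x807860582) (nat_lit 0) (p (nat_lit 0x10607058502)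 (nat_lit 0) (p (nat_lit 0x586850482) (nat_lit 0) (p (nat_lit 0x16000c) (nat_lit 0) (p (nat_lit 0x68612) (nat_lit 0) (p (nat_lit 0x50592) (nat_lit 0) (p (nat_lit 0x40512) (nat_lit 0) (p (nat_lit 0x50312) (nat_lit 0) (p (nat_lit 0x38292) (nat_lit 0) (p (nat_lit 0x28212) (nat_lit 0) (p (nat_lit 0x38112) (nat_lit 0) (p (nat_lit 0x20092) (nat_lit 0) (p (nat_lit 0x10012) (nat_lit 0) pn)))))))))))))))))))))))))))))))) :=
  Cl.node (nat_lit 0x2a825800002680d0c8d0b8b0a) (nat_lit 1) (by decide +kernel) (ClAll.succ ClAll.zero n85)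

def n131 : Cl (O (nat_lit 5)) (R (nat_lit 14353))
    (p (nat_lit 0x100014) (nat_lit 0) (p (nat_lit 0x1fc014) (nat_lit 0) (p (nat_lit 0x1fc004) (nat_lit 0) (p (nat_lit 0xb000c) (nat_lit 1) (p (nat_lit 0x380c2) (nat_lit 1) (p (nat_lit 0x3c4aa) (nat_lit 10) (p (nat_lit 0x89) (nat_lit 1) (p (nat_lit 0x101) (nat_lit 1) (p (nat_lit 0xc1) (nat_lit 1) (p (nat_lit 0x119) (nat_lit 1) (p (nat_lit 0xd1) (nat_lit 0) (p (nat_lit 0x81) (nat_lit 0) (p (nat_lit 0x41) (nat_lit 1) (p (nat_lit 0x10a0b0a89089a) (nat_lit 0) (p (nat_lit 0x98a8a08881a) (nat_lit 0) (p (nat_lit 0x109088988079a) (nat_lit 0) (p (nat_lit 0x8880907871a) (nat_lit 0) (p (nat_lit 0x8000000000800080887068a) (nat_lit 0) (p (nat_lit 0x10888068602) (nat_lit 0) (p (nat_lit 0x807860582) (nat_lit 0) (p (nat_lit 0x10607058502) (nat_lit 0) (p (nat_lit 0x586850482) (nat_lit 0) (p (nat_lit 0x16000c) (nat_lit 0) (p (nat_lit 0x68612)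 (nat_lit 0) (p (nat_lit 0x50592) (nat_lit 0) (p (nat_lit 0x40512) (nat_lit 0) (p (nat_lit 0x50312) (nat_lit 0) (p (nat_lit 0x38292) (nat_lit 0) (p (nat_lit 0x28212) (nat_lit 0) (p (nat_lit 0x38112) (nat_lit 0) (p (nat_lit 0x20092) (nat_lit 0) (p (nat_lit 0x10012) (nat_lit 0) pn)))))))))))))))))))))))))))))))) :=
  Cl.node (nat_lit 0x100004) (nat_lit 2) (by decide +kernel) (ClAll.succ (ClAll.succ ClAll.zero s938) s939)

def n132 : Cl (O (nat_lit 5)) (R (nat_lit 14353))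
    (p (nat_lit 0xc9) (nat_lit 0) (p (nat_lit 0x200004) (nat_lit 0) (p (nat_lit 0xb000c) (nat_lit 0) (p (nat_lit 0x380c2) (nat_lit 0) (p (nat_lit 0x3c4aa) (nat_lit 7) (p (nat_lit 0xd1) (nat_lit 1) (p (nat_lit 0x111) (nat_lit 1) (p (nat_lit 0x109) (nat_lit 0) (p (nat_lit 0x101) (nat_lit 0) (p (nat_lit 0x119) (nat_lit 0) (p (nat_lit 0xc1) (nat_lit 0) (p (nat_lit 0x81) (nat_lit 1) (p (nat_lit 0x41) (nat_lit 1) (p (nat_lit 0x10a0b0a89089a) (nat_lit 0) (p (nat_lit 0x98a8a08881a) (nat_lit 0) (p (nat_lit 0x109088988079a) (nat_lit 0) (p (nat_lit 0x8880907871a) (nat_lit 0) (p (nat_lit 0x8000000000800080887068a) (nat_lit 0) (p (nat_lit 0x10888068602) (nat_lit 0) (p (nat_lit 0x807860582) (nat_lit 0) (p (nat_lit 0x10607058502) (nat_lit 0) (p (nat_lit 0x586850482) (nat_lit 0) (p (nat_lit 0x16000c) (nat_lit 0) (p (nat_lit 0x68612) (nat_lit 0) (p (nat_lit 0x50592) (nat_lit 0) (p (nat_lit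 0x40512) (nat_lit 0) (p (nat_lit 0x50312) (nat_lit 0) (p (nat_lit 0x38292) (nat_lit 0) (p (nat_lit 0x28212) (nat_lit 0) (p (nat_lit 0x38112) (nat_lit 0) (p (nat_lit 0x20092) (nat_lit 0) (p (nat_lit 0x10012) (nat_lit 0) pn)))))))))))))))))))))))))))))))) :=
  Cl.node (nat_lit 0x100004) (nat_lit 2) (by decide +kernel) (ClAll.succ (ClAll.succ ClAll.zero n86) s1134)

def n133 : Cl (O (nat_lit 5)) (R (nat_lit 14353))
    (p (nat_lit 0xc9) (nat_lit 1) (p (nat_lit 0x200004) (nat_lit 0) (p (nat_lit 0xb000c) (nat_lit 0) (p (nat_lit 0x380c2) (nat_lit 0) (p (nat_lit 0x3c4aa) (nat_lit 7) (p (nat_lit 0xd1) (nat_lit 1) (p (nat_lit 0x111) (nat_lit 1) (p (nat_lit 0x109) (nat_lit 0) (p (nat_lit 0x101) (nat_lit 0) (p (nat_lit 0x119) (nat_lit 0) (p (nat_lit 0xc1) (nat_lit 0) (p (nat_lit 0x81) (nat_lit 1) (p (nat_lit 0x41) (nat_lit 1) (p (nat_lit 0x10a0b0a89089a) (nat_lit 0) (p (nat_lit 0x98a8a08881a)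 (nat_lit 0) (p (nat_lit 0x109088988079a) (nat_lit 0) (p (nat_lit 0x8880907871a) (nat_lit 0) (p (nat_lit 0x8000000000800080887068a) (nat_lit 0) (p (nat_lit 0x10888068602) (nat_lit 0) (p (nat_lit 0x807860582) (nat_lit 0) (p (nat_lit 0x10607058502) (nat_lit 0) (p (nat_lit 0x586850482) (nat_lit 0) (p (nat_lit 0x16000c) (nat_lit 0) (p (nat_lit 0x68612) (nat_lit 0) (p (nat_lit 0x50592) (nat_lit 0) (p (nat_lit 0x40512) (nat_lit 0) (p (nat_lit 0x50312) (nat_lit 0) (p (nat_lit 0x38292) (nat_lit 0) (p (nat_lit 0x28212) (nat_lit 0) (p (nat_lit 0x38112) (nat_lit 0) (p (nat_lit 0x20092) (nat_lit 0) (p (nat_lit 0x10012) (nat_lit 0) pn)))))))))))))))))))))))))))))))) :=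
  Cl.node (nat_lit 0x100004) (nat_lit 2) (by decide +kernel) (ClAll.succ (ClAll.succ ClAll.zero n87) s1138)

def n134 : Cl (O (nat_lit 5)) (R (nat_lit 14353))
    (p (nat_lit 0x3cc2a) (nat_lit 0) (p (nat_lit 0xc9) (nat_lit 0) (p (nat_lit 0xb000c) (nat_lit 0) (p (nat_lit 0x380c2) (nat_lit 1) (p (nat_lit 0x3c4aa) (nat_lit 7) (p (nat_lit 0xd1) (nat_lit 1) (p (nat_lit 0x111) (nat_lit 1) (p (nat_lit 0x109) (nat_lit 0) (p (nat_lit 0x101) (nat_lit 0) (p (nat_lit 0x119) (nat_lit 0) (p (nat_lit 0xc1) (nat_lit 0) (p (nat_lit 0x81) (nat_lit 1) (p (nat_lit 0x41) (nat_lit 1) (p (nat_lit 0x10a0b0a89089a) (nat_lit 0) (p (nat_lit 0x98a8a08881a) (nat_lit 0) (p (nat_lit 0x109088988079a) (nat_lit 0) (p (nat_lit 0x8880907871a) (nat_lit 0) (p (nat_lit 0x8000000000800080887068a) (nat_lit 0) (p (nat_lit 0x10888068602) (nat_lit 0) (p (nat_lit 0x807860582) (nat_lit 0) (p (nat_lit 0x10607058502)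 (nat_lit 0) (p (nat_lit 0x586850482) (nat_lit 0) (p (nat_lit 0x16000c) (nat_lit 0) (p (nat_lit 0x68612) (nat_lit 0) (p (nat_lit 0x50592) (nat_lit 0) (p (nat_lit 0x40512) (nat_lit 0) (p (nat_lit 0x50312) (nat_lit 0) (p (nat_lit 0x38292) (nat_lit 0) (p (nat_lit 0x28212) (nat_lit 0) (p (nat_lit 0x38112) (nat_lit 0) (p (nat_lit 0x20092) (nat_lit 0) (p (nat_lit 0x10012) (nat_lit 0) pn)))))))))))))))))))))))))))))))) :=
  Cl.node (nat_lit 0x380c2) (nat_lit 1) (by decide +kernel) (ClAll.succ ClAll.zero n88)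

def n135 : Cl (O (nat_lit 5)) (R (nat_lit 14353))
    (p (nat_lit 0x200004) (nat_lit 0) (p (nat_lit 0xc9) (nat_lit 1) (p (nat_lit 0xb000c) (nat_lit 0) (p (nat_lit 0x380c2) (nat_lit 1) (p (nat_lit 0x3c4aa) (nat_lit 7) (p (nat_lit 0xd1) (nat_lit 1) (p (nat_lit 0x111) (nat_lit 1) (p (nat_lit 0x109) (nat_lit 0) (p (nat_lit 0x101) (nat_lit 0) (p (nat_lit 0x119) (nat_lit 0) (p (nat_lit 0xc1) (nat_lit 0) (p (nat_lit 0x81) (nat_lit 1) (p (nat_lit 0x41) (nat_lit 1) (p (nat_lit 0x10a0b0a89089a) (nat_lit 0) (p (nat_lit 0x98a8a08881a) (nat_lit 0) (p (nat_lit 0x109088988079a) (nat_lit 0) (p (nat_lit 0x8880907871a) (nat_lit 0) (p (nat_lit 0x8000000000800080887068a) (nat_lit 0) (p (nat_lit 0x10888068602) (nat_lit 0) (p (nat_lit 0x807860582) (nat_lit 0) (p (nat_lit 0x10607058502) (nat_lit 0) (p (nat_lit 0x586850482) (nat_lit 0) (p (nat_lit 0x16000c) (nat_lit 0) (p (nat_lit 0x68612) (nat_lit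 0) (p (nat_lit 0x50592) (nat_lit 0) (p (nat_lit 0x40512) (nat_lit 0) (p (nat_lit 0x50312) (nat_lit 0) (p (nat_lit 0x38292) (nat_lit 0) (p (nat_lit 0x28212) (nat_lit 0) (p (nat_lit 0x38112) (nat_lit 0) (p (nat_lit 0x20092) (nat_lit 0) (p (nat_lit 0x10012) (nat_lit 0) pn)))))))))))))))))))))))))))))))) :=
  Cl.node (nat_lit 0x100004) (nat_lit 2) (by decide +kernel) (ClAll.succ (ClAll.succ ClAll.zero n89) s1160)

def n136 : Cl (O (nat_lit 5)) (R (nat_lit 14353))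
    (p (nat_lit 0x1fc014) (nat_lit 0) (p (nat_lit 0x1fc004) (nat_lit 0) (p (nat_lit 0xb000c) (nat_lit 1) (p (nat_lit 0x380c2) (nat_lit 1) (p (nat_lit 0x3c4aa) (nat_lit 7) (p (nat_lit 0xd1) (nat_lit 1) (p (nat_lit 0x111) (nat_lit 1) (p (nat_lit 0x109) (nat_lit 0) (p (nat_lit 0x101) (nat_lit 0) (p (nat_lit 0x119) (nat_lit 0) (p (nat_lit 0xc1) (nat_lit 0) (p (nat_lit 0x81) (nat_lit 1) (p (nat_lit 0x41) (nat_lit 1) (p (nat_lit 0x10a0b0a89089a) (nat_lit 0) (p (nat_lit 0x98a8a08881a) (nat_lit 0) (p (nat_lit 0x109088988079a) (nat_lit 0) (p (nat_lit 0x8880907871a) (nat_lit 0) (p (nat_lit 0x8000000000800080887068a) (nat_lit 0) (p (nat_lit 0x10888068602) (nat_lit 0) (p (nat_lit 0x807860582) (nat_lit 0) (p (nat_lit 0x10607058502) (nat_lit 0) (p (nat_lit 0x586850482) (nat_lit 0) (p (nat_lit 0x16000c) (nat_lit 0) (p (nat_lit 0x68612) (nat_lit 0) (p (nat_lit 0x50592) (nat_lit 0) (p (nat_lit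 0x40512) (nat_lit 0) (p (nat_lit 0x50312) (nat_lit 0) (p (nat_lit 0x38292) (nat_lit 0) (p (nat_lit 0x28212) (nat_lit 0) (p (nat_lit 0x38112) (nat_lit 0) (p (nat_lit 0x20092) (nat_lit 0) (p (nat_lit 0x10012) (nat_lit 0) pn)))))))))))))))))))))))))))))))) :=
  Cl.node (nat_lit 0x100004) (nat_lit 2) (by decide +kernel) (ClAll.succ (ClAll.succ ClAll.zero n90) s1167)

def n137 : Cl (O (nat_lit 5)) (R (nat_lit 14353))
    (p (nat_lit 0x200014) (nat_lit 1) (p (nat_lit 0x200004) (nat_lit 0) (p (nat_lit 0xb000c) (nat_lit 0) (p (nat_lit 0x380c2) (nat_lit 1) (p (nat_lit 0x3c4aa) (nat_lit 10) (p (nat_lit 0xd1) (nat_lit 1) (p (nat_lit 0x111) (nat_lit 1) (p (nat_lit 0x109) (nat_lit 0) (p (nat_lit 0x101) (nat_lit 0) (p (nat_lit 0x119) (nat_lit 0) (p (nat_lit 0xc1) (nat_lit 0) (p (nat_lit 0x81) (nat_lit 1) (p (nat_lit 0x41) (nat_lit 1) (p (nat_lit 0x10a0b0a89089a) (nat_lit 0) (p (nat_lit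 0x98a8a08881a) (nat_lit 0) (p (nat_lit 0x109088988079a) (nat_lit 0) (p (nat_lit 0x8880907871a) (nat_lit 0) (p (nat_lit 0x8000000000800080887068a) (nat_lit 0) (p (nat_lit 0x10888068602) (nat_lit 0) (p (nat_lit 0x807860582) (nat_lit 0) (p (nat_lit 0x10607058502) (nat_lit 0) (p (nat_lit 0x586850482) (nat_lit 0) (p (nat_lit 0x16000c) (nat_lit 0) (p (nat_lit 0x68612) (nat_lit 0) (p (nat_lit 0x50592) (nat_lit 0) (p (nat_lit 0x40512) (nat_lit 0) (p (nat_lit 0x50312) (nat_lit 0) (p (nat_lit 0x38292) (nat_lit 0) (p (nat_lit 0x28212) (nat_lit 0) (p (nat_lit 0x38112) (nat_lit 0) (p (nat_lit 0x20092) (nat_lit 0) (p (nat_lit 0x10012) (nat_lit 0) pn)))))))))))))))))))))))))))))))) :=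
  Cl.node (nat_lit 0x5800c) (nat_lit 2) (by decide +kernel) (ClAll.succ (ClAll.succ ClAll.zero n91) s1177)

def n138 : Cl (O (nat_lit 5)) (R (nat_lit 14353))
    (p (nat_lit 0x200004) (nat_lit 0) (p (nat_lit 0x119) (nat_lit 1) (p (nat_lit 0xb000c) (nat_lit 0) (p (nat_lit 0x380c2) (nat_lit 0) (p (nat_lit 0x3c4aa) (nat_lit 7) (p (nat_lit 0xd1) (nat_lit 1) (p (nat_lit 0xc9) (nat_lit 0) (p (nat_lit 0x109) (nat_lit 1) (p (nat_lit 0x101) (nat_lit 0) (p (nat_lit 0x119) (nat_lit 0) (p (nat_lit 0xc1) (nat_lit 0) (p (nat_lit 0x81) (nat_lit 1) (p (nat_lit 0x41) (nat_lit 1) (p (nat_lit 0x10a0b0a89089a) (nat_lit 0) (p (nat_lit 0x98a8a08881a) (nat_lit 0) (p (nat_lit 0x109088988079a) (nat_lit 0) (p (nat_lit 0x8880907871a) (nat_lit 0) (p (nat_lit 0x8000000000800080887068a) (nat_lit 0) (p (nat_lit 0x10888068602) (nat_lit 0) (p (nat_lit 0x807860582) (nat_lit 0) (p (nat_lit 0x10607058502)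 (nat_lit 0) (p (nat_lit 0x586850482) (nat_lit 0) (p (nat_lit 0x16000c) (nat_lit 0) (p (nat_lit 0x68612) (nat_lit 0) (p (nat_lit 0x50592) (nat_lit 0) (p (nat_lit 0x40512) (nat_lit 0) (p (nat_lit 0x50312) (nat_lit 0) (p (nat_lit 0x38292) (nat_lit 0) (p (nat_lit 0x28212) (nat_lit 0) (p (nat_lit 0x38112) (nat_lit 0) (p (nat_lit 0x20092) (nat_lit 0) (p (nat_lit 0x10012) (nat_lit 0) pn)))))))))))))))))))))))))))))))) :=
  Cl.node (nat_lit 0x100004) (nat_lit 2) (by decide +kernel) (ClAll.succ (ClAll.succ ClAll.zero n92) s1192)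

def n139 : Cl (O (nat_lit 5)) (R (nat_lit 14353))
    (p (nat_lit 0x119) (nat_lit 1) (p (nat_lit 0x200004) (nat_lit 0) (p (nat_lit 0xb000c) (nat_lit 0) (p (nat_lit 0x380c2) (nat_lit 1) (p (nat_lit 0x3c4aa) (nat_lit 7) (p (nat_lit 0xd1) (nat_lit 1) (p (nat_lit 0xc9) (nat_lit 0) (p (nat_lit 0x109) (nat_lit 1) (p (nat_lit 0x101) (nat_lit 0) (p (nat_lit 0x119) (nat_lit 0) (p (nat_lit 0xc1) (nat_lit 0) (p (nat_lit 0x81) (nat_lit 1) (p (nat_lit 0x41) (nat_lit 1) (p (nat_lit 0x10a0b0a89089a) (nat_lit 0) (p (nat_lit 0x98a8a08881a) (nat_lit 0) (p (nat_lit 0x109088988079a) (nat_lit 0) (p (nat_lit 0x8880907871a) (nat_lit 0) (p (nat_lit 0x8000000000800080887068a) (nat_lit 0) (p (nat_lit 0x10888068602) (nat_lit 0) (p (nat_lit 0x807860582) (nat_lit 0) (p (nat_lit 0x10607058502) (nat_lit 0) (p (nat_lit 0x586850482) (nat_lit 0) (p (nat_lit 0x16000c) (nat_lit 0) (p (nat_lit 0x68612) (nat_lit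 0) (p (nat_lit 0x50592) (nat_lit 0) (p (nat_lit 0x40512) (nat_lit 0) (p (nat_lit 0x50312) (nat_lit 0) (p (nat_lit 0x38292) (nat_lit 0) (p (nat_lit 0x28212) (nat_lit 0) (p (nat_lit 0x38112) (nat_lit 0) (p (nat_lit 0x20092) (nat_lit 0) (p (nat_lit 0x10012) (nat_lit 0) pn)))))))))))))))))))))))))))))))) :=
  Cl.node (nat_lit 0x100004) (nat_lit 2) (by decide +kernel) (ClAll.succ (ClAll.succ ClAll.zero s1196) s1197)

def n140 : Cl (O (nat_lit 5)) (R (nat_lit 14353))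
    (p (nat_lit 0x1fc014) (nat_lit 0) (p (nat_lit 0x1fc004) (nat_lit 0) (p (nat_lit 0xb000c) (nat_lit 1) (p (nat_lit 0x380c2) (nat_lit 1) (p (nat_lit 0x3c4aa) (nat_lit 7) (p (nat_lit 0xd1) (nat_lit 1) (p (nat_lit 0xc9) (nat_lit 0) (p (nat_lit 0x109) (nat_lit 1) (p (nat_lit 0x101) (nat_lit 0) (p (nat_lit 0x119) (nat_lit 0) (p (nat_lit 0xc1) (nat_lit 0) (p (nat_lit 0x81) (nat_lit 1) (p (nat_lit 0x41) (nat_lit 1) (p (nat_lit 0x10a0b0a89089a) (nat_lit 0) (p (nat_lit 0x98a8a08881a) (nat_lit 0) (p (nat_lit 0x109088988079a) (nat_lit 0) (p (nat_lit 0x8880907871a) (nat_lit 0) (p (nat_lit 0x8000000000800080887068a) (nat_lit 0) (p (nat_lit 0x10888068602) (nat_lit 0) (p (nat_lit 0x807860582) (nat_lit 0) (p (nat_lit 0x10607058502) (nat_lit 0) (p (nat_lit 0x586850482) (nat_lit 0) (p (nat_lit 0x16000c) (nat_lit 0) (p (nat_lit 0x68612) (nat_lit 0) (p (nat_lit 0x50592) (nat_lit 0) (p (nat_lit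 0x40512) (nat_lit 0) (p (nat_lit 0x50312) (nat_lit 0) (p (nat_lit 0x38292) (nat_lit 0) (p (nat_lit 0x28212) (nat_lit 0) (p (nat_lit 0x38112) (nat_lit 0) (p (nat_lit 0x20092) (nat_lit 0) (p (nat_lit 0x10012) (nat_lit 0) pn)))))))))))))))))))))))))))))))) :=
  Cl.node (nat_lit 0x100004) (nat_lit 2) (by decide +kernel) (ClAll.succ (ClAll.succ ClAll.zero n93) s1201)

def n141 : Cl (O (nat_lit 5)) (R (nat_lit 14353))
    (p (nat_lit 0xb000c) (nat_lit 0) (p (nat_lit 0x380c2) (nat_lit 1) (p (nat_lit 0x3c4aa) (nat_lit 7) (p (nat_lit 0xc9) (nat_lit 1) (p (nat_lit 0x380c2) (nat_lit 0) (p (nat_lit 0x44c2a) (nat_lit 0) (p (nat_lit 0xd1) (nat_lit 0) (p (nat_lit 0xc9) (nat_lit 0) (p (nat_lit 0x101) (nat_lit 1) (p (nat_lit 0x119) (nat_lit 0) (p (nat_lit 0xc1) (nat_lit 0) (p (nat_lit 0x81) (nat_lit 1) (p (nat_lit 0x41) (nat_lit 1) (p (nat_lit 0x10a0b0a89089a) (nat_lit 0) (p (nat_lit 0x98a8a08881a)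 (nat_lit 0) (p (nat_lit 0x109088988079a) (nat_lit 0) (p (nat_lit 0x8880907871a) (nat_lit 0) (p (nat_lit 0x8000000000800080887068a) (nat_lit 0) (p (nat_lit 0x10888068602) (nat_lit 0) (p (nat_lit 0x807860582) (nat_lit 0) (p (nat_lit 0x10607058502) (nat_lit 0) (p (nat_lit 0x586850482) (nat_lit 0) (p (nat_lit 0x16000c) (nat_lit 0) (p (nat_lit 0x68612) (nat_lit 0) (p (nat_lit 0x50592) (nat_lit 0) (p (nat_lit 0x40512) (nat_lit 0) (p (nat_lit 0x50312) (nat_lit 0) (p (nat_lit 0x38292) (nat_lit 0) (p (nat_lit 0x28212) (nat_lit 0) (p (nat_lit 0x38112) (nat_lit 0) (p (nat_lit 0x20092) (nat_lit 0) (p (nat_lit 0x10012) (nat_lit 0) pn)))))))))))))))))))))))))))))))) :=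
  Cl.node (nat_lit 0x200004) (nat_lit 2) (by decide +kernel) (ClAll.succ (ClAll.succ ClAll.zero n94) s1220)

def n142 : Cl (O (nat_lit 5)) (R (nat_lit 14353))
    (p (nat_lit 0x100004) (nat_lit 0) (p (nat_lit 0x200004) (nat_lit 0) (p (nat_lit 0xc1) (nat_lit 0) (p (nat_lit 0xb000c) (nat_lit 0) (p (nat_lit 0x380c2) (nat_lit 0) (p (nat_lit 0x3c4aa) (nat_lit 7) (p (nat_lit 0xd1) (nat_lit 1) (p (nat_lit 0xc9) (nat_lit 0) (p (nat_lit 0x101) (nat_lit 1) (p (nat_lit 0x119) (nat_lit 0) (p (nat_lit 0xc1) (nat_lit 0) (p (nat_lit 0x81) (nat_lit 1) (p (nat_lit 0x41) (nat_lit 1) (p (nat_lit 0x10a0b0a89089a) (nat_lit 0) (p (nat_lit 0x98a8a08881a) (nat_lit 0) (p (nat_lit 0x109088988079a) (nat_lit 0) (p (nat_lit 0x8880907871a) (nat_lit 0) (p (nat_lit 0x8000000000800080887068a) (nat_lit 0) (p (nat_lit 0x10888068602) (nat_lit 0) (p (nat_lit 0x807860582) (nat_lit 0) (p (nat_lit 0x10607058502)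 (nat_lit 0) (p (nat_lit 0x586850482) (nat_lit 0) (p (nat_lit 0x16000c) (nat_lit 0) (p (nat_lit 0x68612) (nat_lit 0) (p (nat_lit 0x50592) (nat_lit 0) (p (nat_lit 0x40512) (nat_lit 0) (p (nat_lit 0x50312) (nat_lit 0) (p (nat_lit 0x38292) (nat_lit 0) (p (nat_lit 0x28212) (nat_lit 0) (p (nat_lit 0x38112) (nat_lit 0) (p (nat_lit 0x20092) (nat_lit 0) (p (nat_lit 0x10012) (nat_lit 0) pn)))))))))))))))))))))))))))))))) :=
  Cl.node (nat_lit 0xd1) (nat_lit 2) (by decide +kernel) (ClAll.succ (ClAll.succ ClAll.zero s1248) s1249)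

def n143 : Cl (O (nat_lit 5)) (R (nat_lit 14353))
    (p (nat_lit 0x100004) (nat_lit 0) (p (nat_lit 0x200004) (nat_lit 0) (p (nat_lit 0xc1) (nat_lit 0) (p (nat_lit 0xb000c) (nat_lit 0) (p (nat_lit 0x380c2) (nat_lit 1) (p (nat_lit 0x3c4aa) (nat_lit 7) (p (nat_lit 0xd1) (nat_lit 1) (p (nat_lit 0xc9) (nat_lit 0) (p (nat_lit 0x101) (nat_lit 1) (p (nat_lit 0x119) (nat_lit 0) (p (nat_lit 0xc1) (nat_lit 0) (p (nat_lit 0x81) (nat_lit 1) (p (nat_lit 0x41) (nat_lit 1) (p (nat_lit 0x10a0b0a89089a) (nat_lit 0) (p (nat_lit 0x98a8a08881a) (nat_lit 0) (p (nat_lit 0x109088988079a) (nat_lit 0) (p (nat_lit 0x8880907871a) (nat_lit 0) (p (nat_lit 0x8000000000800080887068a) (nat_lit 0) (p (nat_lit 0x10888068602) (nat_lit 0) (p (nat_lit 0x807860582) (nat_lit 0) (p (nat_lit 0x10607058502) (nat_lit 0) (p (nat_lit 0x586850482) (nat_lit 0) (p (nat_lit 0x16000c) (nat_lit 0) (p (nat_lit 0x68612) (nat_lit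 0) (p (nat_lit 0x50592) (nat_lit 0) (p (nat_lit 0x40512) (nat_lit 0) (p (nat_lit 0x50312) (nat_lit 0) (p (nat_lit 0x38292) (nat_lit 0) (p (nat_lit 0x28212) (nat_lit 0) (p (nat_lit 0x38112) (nat_lit 0) (p (nat_lit 0x20092) (nat_lit 0) (p (nat_lit 0x10012) (nat_lit 0) pn)))))))))))))))))))))))))))))))) :=
  Cl.node (nat_lit 0xd1) (nat_lit 2) (by decide +kernel) (ClAll.succ (ClAll.succ ClAll.zero n95) n96)

def n144 : Cl (O (nat_lit 5)) (R (nat_lit 14353))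
    (p (nat_lit 0x100004) (nat_lit 0) (p (nat_lit 0x1fc014) (nat_lit 0) (p (nat_lit 0x1fc004) (nat_lit 0) (p (nat_lit 0xb000c) (nat_lit 1) (p (nat_lit 0x380c2) (nat_lit 1) (p (nat_lit 0x3c4aa) (nat_lit 7) (p (nat_lit 0xd1) (nat_lit 1) (p (nat_lit 0xc9) (nat_lit 0) (p (nat_lit 0x101) (nat_lit 1) (p (nat_lit 0x119) (nat_lit 0) (p (nat_lit 0xc1) (nat_lit 0) (p (nat_lit 0x81) (nat_lit 1) (p (nat_lit 0x41) (nat_lit 1) (p (nat_lit 0x10a0b0a89089a) (nat_lit 0) (p (nat_lit 0x98a8a08881a) (nat_lit 0) (p (nat_lit 0x109088988079a) (nat_lit 0) (p (nat_lit 0x8880907871a) (nat_lit 0) (p (nat_lit 0x8000000000800080887068a) (nat_lit 0) (p (nat_lit 0x10888068602) (nat_lit 0) (p (nat_lit 0x807860582) (nat_lit 0) (p (nat_lit 0x10607058502) (nat_lit 0) (p (nat_lit 0x586850482) (nat_lit 0) (p (nat_lit 0x16000c) (nat_lit 0) (p (nat_lit 0x68612) (nat_lit 0) (p (nat_lit 0x50592) (nat_lit 0) (p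 (nat_lit 0x40512) (nat_lit 0) (p (nat_lit 0x50312) (nat_lit 0) (p (nat_lit 0x38292) (nat_lit 0) (p (nat_lit 0x28212) (nat_lit 0) (p (nat_lit 0x38112) (nat_lit 0) (p (nat_lit 0x20092) (nat_lit 0) (p (nat_lit 0x10012) (nat_lit 0) pn)))))))))))))))))))))))))))))))) :=
  Cl.node (nat_lit 0x10800c) (nat_lit 2) (by decide +kernel) (ClAll.succ (ClAll.succ ClAll.zero n97) s1275)

def n145 : Cl (O (nat_lit 5)) (R (nat_lit 14353))
    (p (nat_lit 0x100004) (nat_lit 0) (p (nat_lit 0x200004) (nat_lit 0) (p (nat_lit 0x101) (nat_lit 0) (p (nat_lit 0xb000c) (nat_lit 0) (p (nat_lit 0x380c2) (nat_lit 0) (p (nat_lit 0x3c4aa) (nat_lit 7) (p (nat_lit 0x111) (nat_lit 1) (p (nat_lit 0xd1) (nat_lit 1) (p (nat_lit 0xc9) (nat_lit 0) (p (nat_lit 0x119) (nat_lit 1) (p (nat_lit 0xc1) (nat_lit 0) (p (nat_lit 0x81) (nat_lit 1) (p (nat_lit 0x41) (nat_lit 1) (p (nat_lit 0x10a0b0a89089a) (nat_lit 0) (p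 (nat_lit 0x98a8a08881a) (nat_lit 0) (p (nat_lit 0x109088988079a) (nat_lit 0) (p (nat_lit 0x8880907871a) (nat_lit 0) (p (nat_lit 0x8000000000800080887068a) (nat_lit 0) (p (nat_lit 0x10888068602) (nat_lit 0) (p (nat_lit 0x807860582) (nat_lit 0) (p (nat_lit 0x10607058502) (nat_lit 0) (p (nat_lit 0x586850482) (nat_lit 0) (p (nat_lit 0x16000c) (nat_lit 0) (p (nat_lit 0x68612) (nat_lit 0) (p (nat_lit 0x50592) (nat_lit 0) (p (nat_lit 0x40512) (nat_lit 0) (p (nat_lit 0x50312) (nat_lit 0) (p (nat_lit 0x38292) (nat_lit 0) (p (nat_lit 0x28212) (nat_lit 0) (p (nat_lit 0x38112) (nat_lit 0) (p (nat_lit 0x20092) (nat_lit 0) (p (nat_lit 0x10012) (nat_lit 0) pn)))))))))))))))))))))))))))))))) :=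
  Cl.node (nat_lit 0x109) (nat_lit 2) (by decide +kernel) (ClAll.succ (ClAll.succ ClAll.zero s1293) s1294)

def n146 : Cl (O (nat_lit 5)) (R (nat_lit 14353))
    (p (nat_lit 0x100004) (nat_lit 0) (p (nat_lit 0x200004) (nat_lit 0) (p (nat_lit 0x101) (nat_lit 0) (p (nat_lit 0xb000c) (nat_lit 0) (p (nat_lit 0x380c2) (nat_lit 1) (p (nat_lit 0x3c4aa) (nat_lit 7) (p (nat_lit 0x111) (nat_lit 1) (p (nat_lit 0xd1) (nat_lit 1) (p (nat_lit 0xc9) (nat_lit 0) (p (nat_lit 0x119) (nat_lit 1) (p (nat_lit 0xc1) (nat_lit 0) (p (nat_lit 0x81) (nat_lit 1) (p (nat_lit 0x41) (nat_lit 1) (p (nat_lit 0x10a0b0a89089a) (nat_lit 0) (p (nat_lit 0x98a8a08881a) (nat_lit 0) (p (nat_lit 0x109088988079a) (nat_lit 0) (p (nat_lit 0x8880907871a) (nat_lit 0) (p (nat_lit 0x8000000000800080887068a) (nat_lit 0) (p (nat_lit 0x10888068602) (nat_lit 0) (p (nat_lit 0x807860582) (nat_lit 0) (p (nat_lit 0x10607058502)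 (nat_lit 0) (p (nat_lit 0x586850482) (nat_lit 0) (p (nat_lit 0x16000c) (nat_lit 0) (p (nat_lit 0x68612) (nat_lit 0) (p (nat_lit 0x50592) (nat_lit 0) (p (nat_lit 0x40512) (nat_lit 0) (p (nat_lit 0x50312) (nat_lit 0) (p (nat_lit 0x38292) (nat_lit 0) (p (nat_lit 0x28212) (nat_lit 0) (p (nat_lit 0x38112) (nat_lit 0) (p (nat_lit 0x20092) (nat_lit 0) (p (nat_lit 0x10012) (nat_lit 0) pn)))))))))))))))))))))))))))))))) :=
  Cl.node (nat_lit 0x111) (nat_lit 2) (by decide +kernel) (ClAll.succ (ClAll.succ ClAll.zero s1299) n98)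

def n147 : Cl (O (nat_lit 5)) (R (nat_lit 14353))
    (p (nat_lit 0x100004) (nat_lit 0) (p (nat_lit 0x1fc014) (nat_lit 0) (p (nat_lit 0x1fc004) (nat_lit 0) (p (nat_lit 0xb000c) (nat_lit 1) (p (nat_lit 0x380c2) (nat_lit 1) (p (nat_lit 0x3c4aa) (nat_lit 7) (p (nat_lit 0x111) (nat_lit 1) (p (nat_lit 0xd1) (nat_lit 1) (p (nat_lit 0xc9) (nat_lit 0) (p (nat_lit 0x119) (nat_lit 1) (p (nat_lit 0xc1) (nat_lit 0) (p (nat_lit 0x81) (nat_lit 1) (p (nat_lit 0x41) (nat_lit 1) (p (nat_lit 0x10a0b0a89089a) (nat_lit 0) (p (nat_lit 0x98a8a08881a) (nat_lit 0) (p (nat_lit 0x109088988079a) (nat_lit 0) (p (nat_lit 0x8880907871a) (nat_lit 0) (p (nat_lit 0x8000000000800080887068a) (nat_lit 0) (p (nat_lit 0x10888068602) (nat_lit 0) (p (nat_lit 0x807860582) (nat_lit 0) (p (nat_lit 0x10607058502) (nat_lit 0) (p (nat_lit 0x586850482) (nat_lit 0) (p (nat_lit 0x16000c) (nat_lit 0) (p (nat_lit 0x68612)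 (nat_lit 0) (p (nat_lit 0x50592) (nat_lit 0) (p (nat_lit 0x40512) (nat_lit 0) (p (nat_lit 0x50312) (nat_lit 0) (p (nat_lit 0x38292) (nat_lit 0) (p (nat_lit 0x28212) (nat_lit 0) (p (nat_lit 0x38112) (nat_lit 0) (p (nat_lit 0x20092) (nat_lit 0) (p (nat_lit 0x10012) (nat_lit 0) pn)))))))))))))))))))))))))))))))) :=
  Cl.node (nat_lit 0x100014) (nat_lit 2) (by decide +kernel) (ClAll.succ (ClAll.succ ClAll.zero s1305) s1306)

def n148 : Cl (O (nat_lit 5)) (R (nat_lit 14353))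
    (p (nat_lit 0x100004) (nat_lit 0) (p (nat_lit 0x1fc014) (nat_lit 0) (p (nat_lit 0x1fc004) (nat_lit 0) (p (nat_lit 0xb000c) (nat_lit 1) (p (nat_lit 0x380c2) (nat_lit 1) (p (nat_lit 0x3c4aa) (nat_lit 7) (p (nat_lit 0x111) (nat_lit 1) (p (nat_lit 0x109) (nat_lit 0) (p (nat_lit 0xc9) (nat_lit 1) (p (nat_lit 0x119) (nat_lit 1) (p (nat_lit 0xc1) (nat_lit 0) (p (nat_lit 0x81) (nat_lit 1) (p (nat_lit 0x41) (nat_lit 1) (p (nat_lit 0x10a0b0a89089a) (nat_lit 0) (p (nat_lit 0x98a8a08881a) (nat_lit 0) (p (nat_lit 0x109088988079a) (nat_lit 0) (p (nat_lit 0x8880907871a) (nat_lit 0) (p (nat_lit 0x8000000000800080887068a) (nat_lit 0) (p (nat_lit 0x10888068602) (nat_lit 0) (p (nat_lit 0x807860582) (nat_lit 0) (p (nat_lit 0x10607058502) (nat_lit 0) (p (nat_lit 0x586850482) (nat_lit 0) (p (nat_lit 0x16000c) (nat_lit 0) (p (nat_lit 0x68612) (nat_lit 0) (p (nat_lit 0x50592) (nat_lit 0) (p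 (nat_lit 0x40512) (nat_lit 0) (p (nat_lit 0x50312) (nat_lit 0) (p (nat_lit 0x38292) (nat_lit 0) (p (nat_lit 0x28212) (nat_lit 0) (p (nat_lit 0x38112) (nat_lit 0) (p (nat_lit 0x20092) (nat_lit 0) (p (nat_lit 0x10012) (nat_lit 0) pn)))))))))))))))))))))))))))))))) :=
  Cl.node (nat_lit 0x10800c) (nat_lit 2) (by decide +kernel) (ClAll.succ (ClAll.succ ClAll.zero s1356) s1357)

def n149 : Cl (O (nat_lit 5)) (R (nat_lit 14353))
    (p (nat_lit 0x200004) (nat_lit 0) (p (nat_lit 0xb000c) (nat_lit 0) (p (nat_lit 0x380c2) (nat_lit 0) (p (nat_lit 0x444aa) (nat_lit 7) (p (nat_lit 0x81) (nat_lit 1) (p (nat_lit 0xc9) (nat_lit 1) (p (nat_lit 0x109) (nat_lit 1) (p (nat_lit 0x101) (nat_lit 0) (p (nat_lit 0x119) (nat_lit 0) (p (nat_lit 0xd1) (nat_lit 0) (p (nat_lit 0x89) (nat_lit 0) (p (nat_lit 0x41) (nat_lit 0) (p (nat_lit 0x10a0b0a89089a) (nat_lit 0) (p (nat_lit 0x98a8a08881a) (nat_lit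 0) (p (nat_lit 0x109088988079a) (nat_lit 0) (p (nat_lit 0x8880907871a) (nat_lit 0) (p (nat_lit 0x8000000000800080887068a) (nat_lit 0) (p (nat_lit 0x10888068602) (nat_lit 0) (p (nat_lit 0x807860582) (nat_lit 0) (p (nat_lit 0x10607058502) (nat_lit 0) (p (nat_lit 0x586850482) (nat_lit 0) (p (nat_lit 0x16000c) (nat_lit 0) (p (nat_lit 0x68612) (nat_lit 0) (p (nat_lit 0x50592) (nat_lit 0) (p (nat_lit 0x40512) (nat_lit 0) (p (nat_lit 0x50312) (nat_lit 0) (p (nat_lit 0x38292) (nat_lit 0) (p (nat_lit 0x28212) (nat_lit 0) (p (nat_lit 0x38112) (nat_lit 0) (p (nat_lit 0x20092) (nat_lit 0) (p (nat_lit 0x10012) (nat_lit 0) pn))))))))))))))))))))))))))))))) :=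
  Cl.node (nat_lit 0x100004) (nat_lit 2) (by decide +kernel) (ClAll.succ (ClAll.succ ClAll.zero n99) s12)

def n150 : Cl (O (nat_lit 5)) (R (nat_lit 14353))
    (p (nat_lit 0x1fc004) (nat_lit 0) (p (nat_lit 0xb000c) (nat_lit 1) (p (nat_lit 0x380c2) (nat_lit 0) (p (nat_lit 0x444aa) (nat_lit 7) (p (nat_lit 0x81) (nat_lit 1) (p (nat_lit 0xc9) (nat_lit 1) (p (nat_lit 0x109) (nat_lit 1) (p (nat_lit 0x101) (nat_lit 0) (p (nat_lit 0x119) (nat_lit 0) (p (nat_lit 0xd1) (nat_lit 0) (p (nat_lit 0x89) (nat_lit 0) (p (nat_lit 0x41) (nat_lit 0) (p (nat_lit 0x10a0b0a89089a) (nat_lit 0) (p (nat_lit 0x98a8a08881a) (nat_lit 0) (p (nat_lit 0x109088988079a) (nat_lit 0) (p (nat_lit 0x8880907871a) (nat_lit 0) (p (nat_lit 0x8000000000800080887068a) (nat_lit 0) (p (nat_lit 0x10888068602) (nat_lit 0) (p (nat_lit 0x807860582) (nat_lit 0) (p (nat_lit 0x10607058502) (nat_lit 0) (p (nat_lit 0x586850482)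 (nat_lit 0) (p (nat_lit 0x16000c) (nat_lit 0) (p (nat_lit 0x68612) (nat_lit 0) (p (nat_lit 0x50592) (nat_lit 0) (p (nat_lit 0x40512) (nat_lit 0) (p (nat_lit 0x50312) (nat_lit 0) (p (nat_lit 0x38292) (nat_lit 0) (p (nat_lit 0x28212) (nat_lit 0) (p (nat_lit 0x38112) (nat_lit 0) (p (nat_lit 0x20092) (nat_lit 0) (p (nat_lit 0x10012) (nat_lit 0) pn))))))))))))))))))))))))))))))) :=
  Cl.node (nat_lit 0x1fc014) (nat_lit 2) (by decide +kernel) (ClAll.succ (ClAll.succ ClAll.zero n100) s18)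

def n151 : Cl (O (nat_lit 5)) (R (nat_lit 14353))
    (p (nat_lit 0xc1) (nat_lit 1) (p (nat_lit 0x200014) (nat_lit 0) (p (nat_lit 0x380c2) (nat_lit 0) (p (nat_lit 0x4c42a) (nat_lit 2) (p (nat_lit 0x111) (nat_lit 0) (p (nat_lit 0xc9) (nat_lit 0) (p (nat_lit 0x81) (nat_lit 0) (p (nat_lit 0x101) (nat_lit 1) (p (nat_lit 0x119) (nat_lit 0) (p (nat_lit 0xd1) (nat_lit 0) (p (nat_lit 0x89) (nat_lit 0) (p (nat_lit 0x41) (nat_lit 0) (p (nat_lit 0x10a0b0a89089a) (nat_lit 0) (p (nat_lit 0x98a8a08881a) (nat_lit 0) (p (nat_lit 0x109088988079a) (nat_lit 0) (p (nat_lit 0x8880907871a) (nat_lit 0) (p (nat_lit 0x8000000000800080887068a) (nat_lit 0) (p (nat_lit 0x10888068602) (nat_lit 0) (p (nat_lit 0x807860582) (nat_lit 0) (p (nat_lit 0x10607058502) (nat_lit 0) (p (nat_lit 0x586850482) (nat_lit 0) (p (nat_lit 0x16000c) (nat_lit 0) (p (nat_lit 0x68612) (nat_lit 0) (p (nat_lit 0x50592) (nat_lit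 0) (p (nat_lit 0x40512) (nat_lit 0) (p (nat_lit 0x50312) (nat_lit 0) (p (nat_lit 0x38292) (nat_lit 0) (p (nat_lit 0x28212) (nat_lit 0) (p (nat_lit 0x38112) (nat_lit 0) (p (nat_lit 0x20092) (nat_lit 0) (p (nat_lit 0x10012) (nat_lit 0) pn))))))))))))))))))))))))))))))) :=
  Cl.node (nat_lit 0x444aa) (nat_lit 12) (by decide +kernel) (ClAll.succ (ClAll.succ (ClAll.succ (ClAll.succ (ClAll.succ (ClAll.succ (ClAll.succ (ClAll.succ (ClAll.succ (ClAll.succ (ClAll.succ (ClAll.succ ClAll.zero s30) s31) s32) s33) s34) s35) s36) n101) s44) s45) s46) s47)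

def n152 : Cl (O (nat_lit 5)) (R (nat_lit 14353))
    (p (nat_lit 0x89) (nat_lit 1) (p (nat_lit 0xb000c) (nat_lit 0) (p (nat_lit 0x380c2) (nat_lit 0) (p (nat_lit 0x444aa) (nat_lit 7) (p (nat_lit 0x111) (nat_lit 0) (p (nat_lit 0xc9) (nat_lit 1) (p (nat_lit 0x81) (nat_lit 0) (p (nat_lit 0x101) (nat_lit 1) (p (nat_lit 0x119) (nat_lit 0) (p (nat_lit 0xd1) (nat_lit 0) (p (nat_lit 0x89) (nat_lit 0) (p (nat_lit 0x41) (nat_lit 0) (p (nat_lit 0x10a0b0a89089a) (nat_lit 0) (p (nat_lit 0x98a8a08881a) (nat_lit 0) (p (nat_lit 0x109088988079a) (nat_lit 0) (p (nat_lit 0x8880907871a) (nat_lit 0) (p (nat_lit 0x8000000000800080887068a) (nat_lit 0) (p (nat_lit 0x10888068602) (nat_lit 0) (p (nat_lit 0x807860582) (nat_lit 0) (p (nat_lit 0x10607058502) (nat_lit 0) (p (nat_lit 0x586850482) (nat_lit 0) (p (nat_lit 0x16000c) (nat_lit 0) (p (nat_lit 0x68612) (nat_lit 0) (p (nat_lit 0x50592) (nat_lit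 0) (p (nat_lit 0x40512) (nat_lit 0) (p (nat_lit 0x50312) (nat_lit 0) (p (nat_lit 0x38292) (nat_lit 0) (p (nat_lit 0x28212) (nat_lit 0) (p (nat_lit 0x38112) (nat_lit 0) (p (nat_lit 0x20092) (nat_lit 0) (p (nat_lit 0x10012) (nat_lit 0) pn))))))))))))))))))))))))))))))) :=
  Cl.node (nat_lit 0xc9) (nat_lit 2) (by decide +kernel) (ClAll.succ (ClAll.succ ClAll.zero s67) s68)

def n153 : Cl (O (nat_lit 5)) (R (nat_lit 14353))
    (p (nat_lit 0x200004) (nat_lit 0) (p (nat_lit 0xb000c) (nat_lit 0) (p (nat_lit 0x380c2) (nat_lit 1) (p (nat_lit 0x444aa) (nat_lit 7) (p (nat_lit 0x111) (nat_lit 0) (p (nat_lit 0xc9) (nat_lit 1) (p (nat_lit 0x81) (nat_lit 0) (p (nat_lit 0x101) (nat_lit 1) (p (nat_lit 0x119) (nat_lit 0) (p (nat_lit 0xd1) (nat_lit 0) (p (nat_lit 0x89) (nat_lit 0) (p (nat_lit 0x41) (nat_lit 0) (p (nat_lit 0x10a0b0a89089a) (nat_lit 0) (p (nat_lit 0x98a8a08881a) (nat_lit 0)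 (p (nat_lit 0x109088988079a) (nat_lit 0) (p (nat_lit 0x8880907871a) (nat_lit 0) (p (nat_lit 0x8000000000800080887068a) (nat_lit 0) (p (nat_lit 0x10888068602) (nat_lit 0) (p (nat_lit 0x807860582) (nat_lit 0) (p (nat_lit 0x10607058502) (nat_lit 0) (p (nat_lit 0x586850482) (nat_lit 0) (p (nat_lit 0x16000c) (nat_lit 0) (p (nat_lit 0x68612) (nat_lit 0) (p (nat_lit 0x50592) (nat_lit 0) (p (nat_lit 0x40512) (nat_lit 0) (p (nat_lit 0x50312) (nat_lit 0) (p (nat_lit 0x38292) (nat_lit 0) (p (nat_lit 0x28212) (nat_lit 0) (p (nat_lit 0x38112) (nat_lit 0) (p (nat_lit 0x20092) (nat_lit 0) (p (nat_lit 0x10012) (nat_lit 0) pn))))))))))))))))))))))))))))))) :=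
  Cl.node (nat_lit 0x89) (nat_lit 2) (by decide +kernel) (ClAll.succ (ClAll.succ ClAll.zero s70) s71)

def n154 : Cl (O (nat_lit 5)) (R (nat_lit 14353))
    (p (nat_lit 0x111) (nat_lit 1) (p (nat_lit 0x200014) (nat_lit 0) (p (nat_lit 0x380c2) (nat_lit 0) (p (nat_lit 0x4c42a) (nat_lit 2) (p (nat_lit 0xc9) (nat_lit 0) (p (nat_lit 0xc1) (nat_lit 0) (p (nat_lit 0x81) (nat_lit 1) (p (nat_lit 0x101) (nat_lit 1) (p (nat_lit 0x119) (nat_lit 0) (p (nat_lit 0xd1) (nat_lit 0) (p (nat_lit 0x89) (nat_lit 0) (p (nat_lit 0x41) (nat_lit 0) (p (nat_lit 0x10a0b0a89089a) (nat_lit 0) (p (nat_lit 0x98a8a08881a) (nat_lit 0) (p (nat_lit 0x109088988079a) (nat_lit 0) (p (nat_lit 0x8880907871a) (nat_lit 0) (p (nat_lit 0x8000000000800080887068a) (nat_lit 0) (p (nat_lit 0x10888068602) (nat_lit 0) (p (nat_lit 0x807860582) (nat_lit 0) (p (nat_lit 0x10607058502) (nat_lit 0) (p (nat_lit 0x586850482) (nat_lit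 0) (p (nat_lit 0x16000c) (nat_lit 0) (p (nat_lit 0x68612) (nat_lit 0) (p (nat_lit 0x50592) (nat_lit 0) (p (nat_lit 0x40512) (nat_lit 0) (p (nat_lit 0x50312) (nat_lit 0) (p (nat_lit 0x38292) (nat_lit 0) (p (nat_lit 0x28212) (nat_lit 0) (p (nat_lit 0x38112) (nat_lit 0) (p (nat_lit 0x20092) (nat_lit 0) (p (nat_lit 0x10012) (nat_lit 0) pn))))))))))))))))))))))))))))))) :=
  Cl.node (nat_lit 0xd1) (nat_lit 2) (by decide +kernel) (ClAll.succ (ClAll.succ ClAll.zero s84) s85)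

def n155 : Cl (O (nat_lit 5)) (R (nat_lit 14353))
    (p (nat_lit 0x444aa) (nat_lit 7) (p (nat_lit 0x101) (nat_lit 1) (p (nat_lit 0x81) (nat_lit 1) (p (nat_lit 0x380c2) (nat_lit 1) (p (nat_lit 0x3cc2a) (nat_lit 11) (p (nat_lit 0x109) (nat_lit 1) (p (nat_lit 0xc9) (nat_lit 1) (p (nat_lit 0xc1) (nat_lit 0) (p (nat_lit 0x119) (nat_lit 1) (p (nat_lit 0xd1) (nat_lit 0) (p (nat_lit 0x89) (nat_lit 0) (p (nat_lit 0x41) (nat_lit 0) (p (nat_lit 0x10a0b0a89089a) (nat_lit 0) (p (nat_lit 0x98a8a08881a) (nat_lit 0) (p (nat_lit 0x109088988079a) (nat_lit 0) (p (nat_lit 0x8880907871a) (nat_lit 0) (p (nat_lit 0x8000000000800080887068a) (nat_lit 0) (p (nat_lit 0x10888068602) (nat_lit 0) (p (nat_lit 0x807860582) (nat_lit 0) (p (nat_lit 0x10607058502) (nat_lit 0) (p (nat_lit 0x586850482) (nat_lit 0) (p (nat_lit 0x16000c) (nat_lit 0) (p (nat_lit 0x68612) (nat_lit 0) (p (nat_lit 0x50592) (nat_lit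 0) (p (nat_lit 0x40512) (nat_lit 0) (p (nat_lit 0x50312) (nat_lit 0) (p (nat_lit 0x38292) (nat_lit 0) (p (nat_lit 0x28212) (nat_lit 0) (p (nat_lit 0x38112) (nat_lit 0) (p (nat_lit 0x20092) (nat_lit 0) (p (nat_lit 0x10012) (nat_lit 0) pn))))))))))))))))))))))))))))))) :=
  Cl.node (nat_lit 0x380c2) (nat_lit 2) (by decide +kernel) (ClAll.succ (ClAll.succ ClAll.zero s140) s141)

def n156 : Cl (O (nat_lit 5)) (R (nat_lit 14353))
    (p (nat_lit 0x41) (nat_lit 1) (p (nat_lit 0xb000c) (nat_lit 0) (p (nat_lit 0x380c2) (nat_lit 0) (p (nat_lit 0x44c2a) (nat_lit 2) (p (nat_lit 0x109) (nat_lit 0) (p (nat_lit 0x101) (nat_lit 0) (p (nat_lit 0x81) (nat_lit 1) (p (nat_lit 0xc1) (nat_lit 1) (p (nat_lit 0x119) (nat_lit 1) (p (nat_lit 0xd1) (nat_lit 0) (p (nat_lit 0x89) (nat_lit 0) (p (nat_lit 0x41) (nat_lit 0) (p (nat_lit 0x10a0b0a89089a) (nat_lit 0) (p (nat_lit 0x98a8a08881a) (nat_lit 0)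 (p (nat_lit 0x109088988079a) (nat_lit 0) (p (nat_lit 0x8880907871a) (nat_lit 0) (p (nat_lit 0x8000000000800080887068a) (nat_lit 0) (p (nat_lit 0x10888068602) (nat_lit 0) (p (nat_lit 0x807860582) (nat_lit 0) (p (nat_lit 0x10607058502) (nat_lit 0) (p (nat_lit 0x586850482) (nat_lit 0) (p (nat_lit 0x16000c) (nat_lit 0) (p (nat_lit 0x68612) (nat_lit 0) (p (nat_lit 0x50592) (nat_lit 0) (p (nat_lit 0x40512) (nat_lit 0) (p (nat_lit 0x50312) (nat_lit 0) (p (nat_lit 0x38292) (nat_lit 0) (p (nat_lit 0x28212) (nat_lit 0) (p (nat_lit 0x38112) (nat_lit 0) (p (nat_lit 0x20092) (nat_lit 0) (p (nat_lit 0x10012) (nat_lit 0) pn))))))))))))))))))))))))))))))) :=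
  Cl.node (nat_lit 0x81) (nat_lit 2) (by decide +kernel) (ClAll.succ (ClAll.succ ClAll.zero s189) s190)

def n157 : Cl (O (nat_lit 5)) (R (nat_lit 14353))
    (p (nat_lit 0x200004) (nat_lit 0) (p (nat_lit 0xb000c) (nat_lit 0) (p (nat_lit 0x380c2) (nat_lit 0) (p (nat_lit 0x444aa) (nat_lit 7) (p (nat_lit 0x109) (nat_lit 1) (p (nat_lit 0x101) (nat_lit 0) (p (nat_lit 0x81) (nat_lit 1) (p (nat_lit 0xc1) (nat_lit 1) (p (nat_lit 0x119) (nat_lit 1) (p (nat_lit 0xd1) (nat_lit 0) (p (nat_lit 0x89) (nat_lit 0) (p (nat_lit 0x41) (nat_lit 0) (p (nat_lit 0x10a0b0a89089a) (nat_lit 0) (p (nat_lit 0x98a8a08881a) (nat_lit 0) (p (nat_lit 0x109088988079a) (nat_lit 0) (p (nat_lit 0x8880907871a) (nat_lit 0) (p (nat_lit 0x8000000000800080887068a) (nat_lit 0) (p (nat_lit 0x10888068602) (nat_lit 0) (p (nat_lit 0x807860582) (nat_lit 0) (p (nat_lit 0x10607058502) (nat_lit 0) (p (nat_lit 0x586850482)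 (nat_lit 0) (p (nat_lit 0x16000c) (nat_lit 0) (p (nat_lit 0x68612) (nat_lit 0) (p (nat_lit 0x50592) (nat_lit 0) (p (nat_lit 0x40512) (nat_lit 0) (p (nat_lit 0x50312) (nat_lit 0) (p (nat_lit 0x38292) (nat_lit 0) (p (nat_lit 0x28212) (nat_lit 0) (p (nat_lit 0x38112) (nat_lit 0) (p (nat_lit 0x20092) (nat_lit 0) (p (nat_lit 0x10012) (nat_lit 0) pn))))))))))))))))))))))))))))))) :=
  Cl.node (nat_lit 0x100004) (nat_lit 2) (by decide +kernel) (ClAll.succ (ClAll.succ ClAll.zero n102) s211)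

def n158 : Cl (O (nat_lit 5)) (R (nat_lit 14353))
    (p (nat_lit 0x200004) (nat_lit 0) (p (nat_lit 0xb000c) (nat_lit 0) (p (nat_lit 0x380c2) (nat_lit 1) (p (nat_lit 0x444aa) (nat_lit 7) (p (nat_lit 0x109) (nat_lit 1) (p (nat_lit 0x101) (nat_lit 0) (p (nat_lit 0x81) (nat_lit 1) (p (nat_lit 0xc1) (nat_lit 1) (p (nat_lit 0x119) (nat_lit 1) (p (nat_lit 0xd1) (nat_lit 0) (p (nat_lit 0x89) (nat_lit 0) (p (nat_lit 0x41) (nat_lit 0) (p (nat_lit 0x10a0b0a89089a) (nat_lit 0) (p (nat_lit 0x98a8a08881a) (nat_lit 0) (p (nat_lit 0x109088988079a) (nat_lit 0) (p (nat_lit 0x8880907871a) (nat_lit 0) (p (nat_lit 0x8000000000800080887068a) (nat_lit 0) (p (nat_lit 0x10888068602) (nat_lit 0) (p (nat_lit 0x807860582) (nat_lit 0) (p (nat_lit 0x10607058502) (nat_lit 0) (p (nat_lit 0x586850482) (nat_lit 0) (p (nat_lit 0x16000c) (nat_lit 0) (p (nat_lit 0x68612) (nat_lit 0) (p (nat_lit 0x50592) (nat_lit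 0) (p (nat_lit 0x40512) (nat_lit 0) (p (nat_lit 0x50312) (nat_lit 0) (p (nat_lit 0x38292) (nat_lit 0) (p (nat_lit 0x28212) (nat_lit 0) (p (nat_lit 0x38112) (nat_lit 0) (p (nat_lit 0x20092) (nat_lit 0) (p (nat_lit 0x10012) (nat_lit 0) pn))))))))))))))))))))))))))))))) :=
  Cl.node (nat_lit 0x100004) (nat_lit 2) (by decide +kernel) (ClAll.succ (ClAll.succ ClAll.zero n103) s217)

def n159 : Cl (O (nat_lit 5)) (R (nat_lit 14353))
    (p (nat_lit 0x380c2) (nat_lit 0) (p (nat_lit 0x3cc2a) (nat_lit 0) (p (nat_lit 0x41) (nat_lit 0) (p (nat_lit 0x200014) (nat_lit 0) (p (nat_lit 0x200004) (nat_lit 0) (p (nat_lit 0xc1) (nat_lit 1) (p (nat_lit 0x109) (nat_lit 1) (p (nat_lit 0x101) (nat_lit 0) (p (nat_lit 0x111) (nat_lit 0) (p (nat_lit 0xd1) (nat_lit 1) (p (nat_lit 0x89) (nat_lit 0) (p (nat_lit 0x41) (nat_lit 0) (p (nat_lit 0x10a0b0a89089a) (nat_lit 0) (p (nat_lit 0x98a8a08881a) (nat_lit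 0) (p (nat_lit 0x109088988079a) (nat_lit 0) (p (nat_lit 0x8880907871a) (nat_lit 0) (p (nat_lit 0x8000000000800080887068a) (nat_lit 0) (p (nat_lit 0x10888068602) (nat_lit 0) (p (nat_lit 0x807860582) (nat_lit 0) (p (nat_lit 0x10607058502) (nat_lit 0) (p (nat_lit 0x586850482) (nat_lit 0) (p (nat_lit 0x16000c) (nat_lit 0) (p (nat_lit 0x68612) (nat_lit 0) (p (nat_lit 0x50592) (nat_lit 0) (p (nat_lit 0x40512) (nat_lit 0) (p (nat_lit 0x50312) (nat_lit 0) (p (nat_lit 0x38292) (nat_lit 0) (p (nat_lit 0x28212) (nat_lit 0) (p (nat_lit 0x38112) (nat_lit 0) (p (nat_lit 0x20092) (nat_lit 0) (p (nat_lit 0x10012) (nat_lit 0) pn))))))))))))))))))))))))))))))) :=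
  Cl.node (nat_lit 0x100014) (nat_lit 2) (by decide +kernel) (ClAll.succ (ClAll.succ ClAll.zero n104) s241)

def n160 : Cl (O (nat_lit 5)) (R (nat_lit 14353))
    (p (nat_lit 0x380c2) (nat_lit 0) (p (nat_lit 0x4c42a) (nat_lit 2) (p (nat_lit 0x109) (nat_lit 0) (p (nat_lit 0x200014) (nat_lit 0) (p (nat_lit 0x200004) (nat_lit 0) (p (nat_lit 0x119) (nat_lit 0) (p (nat_lit 0x81) (nat_lit 0) (p (nat_lit 0x101) (nat_lit 1) (p (nat_lit 0x111) (nat_lit 0) (p (nat_lit 0xd1) (nat_lit 1) (p (nat_lit 0x89) (nat_lit 0) (p (nat_lit 0x41) (nat_lit 0) (p (nat_lit 0x10a0b0a89089a) (nat_lit 0) (p (nat_lit 0x98a8a08881a) (nat_lit 0) (p (nat_lit 0x109088988079a) (nat_lit 0) (p (nat_lit 0x8880907871a) (nat_lit 0) (p (nat_lit 0x8000000000800080887068a) (nat_lit 0) (p (nat_lit 0x10888068602) (nat_lit 0) (p (nat_lit 0x807860582) (nat_lit 0) (p (nat_lit 0x10607058502) (nat_lit 0) (p (nat_lit 0x586850482)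 (nat_lit 0) (p (nat_lit 0x16000c) (nat_lit 0) (p (nat_lit 0x68612) (nat_lit 0) (p (nat_lit 0x50592) (nat_lit 0) (p (nat_lit 0x40512) (nat_lit 0) (p (nat_lit 0x50312) (nat_lit 0) (p (nat_lit 0x38292) (nat_lit 0) (p (nat_lit 0x28212) (nat_lit 0) (p (nat_lit 0x38112) (nat_lit 0) (p (nat_lit 0x20092) (nat_lit 0) (p (nat_lit 0x10012) (nat_lit 0) pn))))))))))))))))))))))))))))))) :=
  Cl.node (nat_lit 0x100004) (nat_lit 2) (by decide +kernel) (ClAll.succ (ClAll.succ ClAll.zero s258) s259)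

def n161 : Cl (O (nat_lit 5)) (R (nat_lit 14353))
    (p (nat_lit 0x380c2) (nat_lit 0) (p (nat_lit 0x3cc2a) (nat_lit 0) (p (nat_lit 0x109) (nat_lit 1) (p (nat_lit 0x200014) (nat_lit 0) (p (nat_lit 0x200004) (nat_lit 0) (p (nat_lit 0x119) (nat_lit 0) (p (nat_lit 0x81) (nat_lit 0) (p (nat_lit 0x101) (nat_lit 1) (p (nat_lit 0x111) (nat_lit 0) (p (nat_lit 0xd1) (nat_lit 1) (p (nat_lit 0x89) (nat_lit 0) (p (nat_lit 0x41) (nat_lit 0) (p (nat_lit 0x10a0b0a89089a) (nat_lit 0) (p (nat_lit 0x98a8a08881a) (nat_lit 0) (p (nat_lit 0x109088988079a) (nat_lit 0) (p (nat_lit 0x8880907871a) (nat_lit 0) (p (nat_lit 0x8000000000800080887068a) (nat_lit 0) (p (nat_lit 0x10888068602) (nat_lit 0) (p (nat_lit 0x807860582) (nat_lit 0) (p (nat_lit 0x10607058502) (nat_lit 0) (p (nat_lit 0x586850482) (nat_lit 0) (p (nat_lit 0x16000c) (nat_lit 0) (p (nat_lit 0x68612) (nat_lit 0) (p (nat_lit 0x50592)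 (nat_lit 0) (p (nat_lit 0x40512) (nat_lit 0) (p (nat_lit 0x50312) (nat_lit 0) (p (nat_lit 0x38292) (nat_lit 0) (p (nat_lit 0x28212) (nat_lit 0) (p (nat_lit 0x38112) (nat_lit 0) (p (nat_lit 0x20092) (nat_lit 0) (p (nat_lit 0x10012) (nat_lit 0) pn))))))))))))))))))))))))))))))) :=
  Cl.node (nat_lit 0x100014) (nat_lit 2) (by decide +kernel) (ClAll.succ (ClAll.succ ClAll.zero n105) s272)

def n162 : Cl (O (nat_lit 5)) (R (nat_lit 14353))
    (p (nat_lit 0x200004) (nat_lit 0) (p (nat_lit 0xb000c) (nat_lit 0) (p (nat_lit 0x380c2) (nat_lit 0) (p (nat_lit 0x444aa) (nat_lit 7) (p (nat_lit 0xd1) (nat_lit 1) (p (nat_lit 0x111) (nat_lit 1) (p (nat_lit 0x109) (nat_lit 0) (p (nat_lit 0x101) (nat_lit 0) (p (nat_lit 0x119) (nat_lit 0) (p (nat_lit 0xc9) (nat_lit 0) (p (nat_lit 0x89) (nat_lit 1) (p (nat_lit 0x41) (nat_lit 0) (p (nat_lit 0x10a0b0a89089a) (nat_lit 0) (p (nat_lit 0x98a8a08881a)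 (nat_lit 0) (p (nat_lit 0x109088988079a) (nat_lit 0) (p (nat_lit 0x8880907871a) (nat_lit 0) (p (nat_lit 0x8000000000800080887068a) (nat_lit 0) (p (nat_lit 0x10888068602) (nat_lit 0) (p (nat_lit 0x807860582) (nat_lit 0) (p (nat_lit 0x10607058502) (nat_lit 0) (p (nat_lit 0x586850482) (nat_lit 0) (p (nat_lit 0x16000c) (nat_lit 0) (p (nat_lit 0x68612) (nat_lit 0) (p (nat_lit 0x50592) (nat_lit 0) (p (nat_lit 0x40512) (nat_lit 0) (p (nat_lit 0x50312) (nat_lit 0) (p (nat_lit 0x38292) (nat_lit 0) (p (nat_lit 0x28212) (nat_lit 0) (p (nat_lit 0x38112) (nat_lit 0) (p (nat_lit 0x20092) (nat_lit 0) (p (nat_lit 0x10012) (nat_lit 0) pn))))))))))))))))))))))))))))))) :=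
  Cl.node (nat_lit 0xc1) (nat_lit 2) (by decide +kernel) (ClAll.succ (ClAll.succ ClAll.zero n106) s365)

def n163 : Cl (O (nat_lit 5)) (R (nat_lit 14353))
    (p (nat_lit 0x1fc004) (nat_lit 0) (p (nat_lit 0xb000c) (nat_lit 1) (p (nat_lit 0x380c2) (nat_lit 0) (p (nat_lit 0x444aa) (nat_lit 7) (p (nat_lit 0xd1) (nat_lit 1) (p (nat_lit 0x111) (nat_lit 1) (p (nat_lit 0x109) (nat_lit 0) (p (nat_lit 0x101) (nat_lit 0) (p (nat_lit 0x119) (nat_lit 0) (p (nat_lit 0xc9) (nat_lit 0) (p (nat_lit 0x89) (nat_lit 1) (p (nat_lit 0x41) (nat_lit 0) (p (nat_lit 0x10a0b0a89089a) (nat_lit 0) (p (nat_lit 0x98a8a08881a) (nat_lit 0) (p (nat_lit 0x109088988079a) (nat_lit 0) (p (nat_lit 0x8880907871a) (nat_lit 0) (p (nat_lit 0x8000000000800080887068a) (nat_lit 0) (p (nat_lit 0x10888068602) (nat_lit 0) (p (nat_lit 0x807860582) (nat_lit 0) (p (nat_lit 0x10607058502) (nat_lit 0) (p (nat_lit 0x586850482)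 (nat_lit 0) (p (nat_lit 0x16000c) (nat_lit 0) (p (nat_lit 0x68612) (nat_lit 0) (p (nat_lit 0x50592) (nat_lit 0) (p (nat_lit 0x40512) (nat_lit 0) (p (nat_lit 0x50312) (nat_lit 0) (p (nat_lit 0x38292) (nat_lit 0) (p (nat_lit 0x28212) (nat_lit 0) (p (nat_lit 0x38112) (nat_lit 0) (p (nat_lit 0x20092) (nat_lit 0) (p (nat_lit 0x10012) (nat_lit 0) pn))))))))))))))))))))))))))))))) :=
  Cl.node (nat_lit 0x1fc014) (nat_lit 2) (by decide +kernel) (ClAll.succ (ClAll.succ ClAll.zero n107) s374)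

def n164 : Cl (O (nat_lit 5)) (R (nat_lit 14353))
    (p (nat_lit 0xb000c) (nat_lit 0) (p (nat_lit 0x200004) (nat_lit 0) (p (nat_lit 0x380c2) (nat_lit 1) (p (nat_lit 0x444aa) (nat_lit 7) (p (nat_lit 0xd1) (nat_lit 1) (p (nat_lit 0x111) (nat_lit 1) (p (nat_lit 0x109) (nat_lit 0) (p (nat_lit 0x101) (nat_lit 0) (p (nat_lit 0x119) (nat_lit 0) (p (nat_lit 0xc9) (nat_lit 0) (p (nat_lit 0x89) (nat_lit 1) (p (nat_lit 0x41) (nat_lit 0) (p (nat_lit 0x10a0b0a89089a) (nat_lit 0) (p (nat_lit 0x98a8a08881a) (nat_lit 0) (p (nat_lit 0x109088988079a) (nat_lit 0) (p (nat_lit 0x8880907871a) (nat_lit 0) (p (nat_lit 0x8000000000800080887068a) (nat_lit 0) (p (nat_lit 0x10888068602) (nat_lit 0) (p (nat_lit 0x807860582) (nat_lit 0) (p (nat_lit 0x10607058502) (nat_lit 0) (p (nat_lit 0x586850482) (nat_lit 0) (p (nat_lit 0x16000c) (nat_lit 0) (p (nat_lit 0x68612) (nat_lit 0) (p (nat_lit 0x50592)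 (nat_lit 0) (p (nat_lit 0x40512) (nat_lit 0) (p (nat_lit 0x50312) (nat_lit 0) (p (nat_lit 0x38292) (nat_lit 0) (p (nat_lit 0x28212) (nat_lit 0) (p (nat_lit 0x38112) (nat_lit 0) (p (nat_lit 0x20092) (nat_lit 0) (p (nat_lit 0x10012) (nat_lit 0) pn))))))))))))))))))))))))))))))) :=
  Cl.node (nat_lit 0x100004) (nat_lit 2) (by decide +kernel) (ClAll.succ (ClAll.succ ClAll.zero n108) s380)

def n165 : Cl (O (nat_lit 5)) (R (nat_lit 14353))
    (p (nat_lit 0x200014) (nat_lit 1) (p (nat_lit 0xb000c) (nat_lit 0) (p (nat_lit 0x380c2) (nat_lit 1) (p (nat_lit 0x444aa) (nat_lit 10) (p (nat_lit 0xd1) (nat_lit 1) (p (nat_lit 0x111) (nat_lit 1) (p (nat_lit 0x109) (nat_lit 0) (p (nat_lit 0x101) (nat_lit 0) (p (nat_lit 0x119) (nat_lit 0) (p (nat_lit 0xc9) (nat_lit 0) (p (nat_lit 0x89) (nat_lit 1) (p (nat_lit 0x41) (nat_lit 0) (p (nat_lit 0x10a0b0a89089a) (nat_lit 0) (p (nat_lit 0x98a8a08881a)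 (nat_lit 0) (p (nat_lit 0x109088988079a) (nat_lit 0) (p (nat_lit 0x8880907871a) (nat_lit 0) (p (nat_lit 0x8000000000800080887068a) (nat_lit 0) (p (nat_lit 0x10888068602) (nat_lit 0) (p (nat_lit 0x807860582) (nat_lit 0) (p (nat_lit 0x10607058502) (nat_lit 0) (p (nat_lit 0x586850482) (nat_lit 0) (p (nat_lit 0x16000c) (nat_lit 0) (p (nat_lit 0x68612) (nat_lit 0) (p (nat_lit 0x50592) (nat_lit 0) (p (nat_lit 0x40512) (nat_lit 0) (p (nat_lit 0x50312) (nat_lit 0) (p (nat_lit 0x38292) (nat_lit 0) (p (nat_lit 0x28212) (nat_lit 0) (p (nat_lit 0x38112) (nat_lit 0) (p (nat_lit 0x20092) (nat_lit 0) (p (nat_lit 0x10012) (nat_lit 0) pn))))))))))))))))))))))))))))))) :=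
  Cl.node (nat_lit 0x300014) (nat_lit 2) (by decide +kernel) (ClAll.succ (ClAll.succ ClAll.zero s387) n109)

def n166 : Cl (O (nat_lit 5)) (R (nat_lit 14353))
    (p (nat_lit 0x200004) (nat_lit 0) (p (nat_lit 0xc1) (nat_lit 0) (p (nat_lit 0xb000c) (nat_lit 0) (p (nat_lit 0x380c2) (nat_lit 0) (p (nat_lit 0x444aa) (nat_lit 7) (p (nat_lit 0xd1) (nat_lit 1) (p (nat_lit 0x109) (nat_lit 1) (p (nat_lit 0x101) (nat_lit 0) (p (nat_lit 0x119) (nat_lit 0) (p (nat_lit 0xc9) (nat_lit 0) (p (nat_lit 0x89) (nat_lit 1) (p (nat_lit 0x41) (nat_lit 0) (p (nat_lit 0x10a0b0a89089a) (nat_lit 0) (p (nat_lit 0x98a8a08881a) (nat_lit 0) (p (nat_lit 0x109088988079a) (nat_lit 0) (p (nat_lit 0x8880907871a) (nat_lit 0) (p (nat_lit 0x8000000000800080887068a) (nat_lit 0) (p (nat_lit 0x10888068602) (nat_lit 0) (p (nat_lit 0x807860582) (nat_lit 0) (p (nat_lit 0x10607058502) (nat_lit 0) (p (nat_lit 0x586850482)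 (nat_lit 0) (p (nat_lit 0x16000c) (nat_lit 0) (p (nat_lit 0x68612) (nat_lit 0) (p (nat_lit 0x50592) (nat_lit 0) (p (nat_lit 0x40512) (nat_lit 0) (p (nat_lit 0x50312) (nat_lit 0) (p (nat_lit 0x38292) (nat_lit 0) (p (nat_lit 0x28212) (nat_lit 0) (p (nat_lit 0x38112) (nat_lit 0) (p (nat_lit 0x20092) (nat_lit 0) (p (nat_lit 0x10012) (nat_lit 0) pn))))))))))))))))))))))))))))))) :=
  Cl.node (nat_lit 0x100004) (nat_lit 2) (by decide +kernel) (ClAll.succ (ClAll.succ ClAll.zero n110) s431)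

def n167 : Cl (O (nat_lit 5)) (R (nat_lit 14353))
    (p (nat_lit 0x1fc014) (nat_lit 0) (p (nat_lit 0x1fc004) (nat_lit 0) (p (nat_lit 0xb000c) (nat_lit 1) (p (nat_lit 0x380c2) (nat_lit 0) (p (nat_lit 0x444aa) (nat_lit 7) (p (nat_lit 0xd1) (nat_lit 1) (p (nat_lit 0x109) (nat_lit 1) (p (nat_lit 0x101) (nat_lit 0) (p (nat_lit 0x119) (nat_lit 0) (p (nat_lit 0xc9) (nat_lit 0) (p (nat_lit 0x89) (nat_lit 1) (p (nat_lit 0x41) (nat_lit 0) (p (nat_lit 0x10a0b0a89089a) (nat_lit 0) (p (nat_lit 0x98a8a08881a) (nat_lit 0) (p (nat_lit 0x109088988079a) (nat_lit 0) (p (nat_lit 0x8880907871a) (nat_lit 0) (p (nat_lit 0x8000000000800080887068a) (nat_lit 0) (p (nat_lit 0x10888068602) (nat_lit 0) (p (nat_lit 0x807860582) (nat_lit 0) (p (nat_lit 0x10607058502) (nat_lit 0) (p (nat_lit 0x586850482) (nat_lit 0) (p (nat_lit 0x16000c) (nat_lit 0) (p (nat_lit 0x68612) (nat_lit 0) (p (nat_lit 0x50592)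 (nat_lit 0) (p (nat_lit 0x40512) (nat_lit 0) (p (nat_lit 0x50312) (nat_lit 0) (p (nat_lit 0x38292) (nat_lit 0) (p (nat_lit 0x28212) (nat_lit 0) (p (nat_lit 0x38112) (nat_lit 0) (p (nat_lit 0x20092) (nat_lit 0) (p (nat_lit 0x10012) (nat_lit 0) pn))))))))))))))))))))))))))))))) :=
  Cl.node (nat_lit 0x100004) (nat_lit 2) (by decide +kernel) (ClAll.succ (ClAll.succ ClAll.zero n111) s436)

def n168 : Cl (O (nat_lit 5)) (R (nat_lit 14353))
    (p (nat_lit 0xc1) (nat_lit 0) (p (nat_lit 0x200004) (nat_lit 0) (p (nat_lit 0xb000c) (nat_lit 0) (p (nat_lit 0x380c2) (nat_lit 1) (p (nat_lit 0x444aa) (nat_lit 7) (p (nat_lit 0xd1) (nat_lit 1) (p (nat_lit 0x109) (nat_lit 1) (p (nat_lit 0x101) (nat_lit 0) (p (nat_lit 0x119) (nat_lit 0) (p (nat_lit 0xc9) (nat_lit 0) (p (nat_lit 0x89) (nat_lit 1) (p (nat_lit 0x41) (nat_lit 0) (p (nat_lit 0x10a0b0a89089a) (nat_lit 0) (p (nat_lit 0x98a8a08881a)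 (nat_lit 0) (p (nat_lit 0x109088988079a) (nat_lit 0) (p (nat_lit 0x8880907871a) (nat_lit 0) (p (nat_lit 0x8000000000800080887068a) (nat_lit 0) (p (nat_lit 0x10888068602) (nat_lit 0) (p (nat_lit 0x807860582) (nat_lit 0) (p (nat_lit 0x10607058502) (nat_lit 0) (p (nat_lit 0x586850482) (nat_lit 0) (p (nat_lit 0x16000c) (nat_lit 0) (p (nat_lit 0x68612) (nat_lit 0) (p (nat_lit 0x50592) (nat_lit 0) (p (nat_lit 0x40512) (nat_lit 0) (p (nat_lit 0x50312) (nat_lit 0) (p (nat_lit 0x38292) (nat_lit 0) (p (nat_lit 0x28212) (nat_lit 0) (p (nat_lit 0x38112) (nat_lit 0) (p (nat_lit 0x20092) (nat_lit 0) (p (nat_lit 0x10012) (nat_lit 0) pn))))))))))))))))))))))))))))))) :=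
  Cl.node (nat_lit 0x100004) (nat_lit 2) (by decide +kernel) (ClAll.succ (ClAll.succ ClAll.zero n112) s442)

def n169 : Cl (O (nat_lit 5)) (R (nat_lit 14353))
    (p (nat_lit 0x380c2) (nat_lit 0) (p (nat_lit 0x44c2a) (nat_lit 0) (p (nat_lit 0x109) (nat_lit 1) (p (nat_lit 0x200014) (nat_lit 0) (p (nat_lit 0x200004) (nat_lit 0) (p (nat_lit 0xd1) (nat_lit 0) (p (nat_lit 0xc1) (nat_lit 0) (p (nat_lit 0x101) (nat_lit 1) (p (nat_lit 0x119) (nat_lit 0) (p (nat_lit 0xc9) (nat_lit 0) (p (nat_lit 0x89) (nat_lit 1) (p (nat_lit 0x41) (nat_lit 0) (p (nat_lit 0x10a0b0a89089a) (nat_lit 0) (p (nat_lit 0x98a8a08881a) (nat_lit 0) (p (nat_lit 0x109088988079a) (nat_lit 0) (p (nat_lit 0x8880907871a) (nat_lit 0) (p (nat_lit 0x8000000000800080887068a) (nat_lit 0) (p (nat_lit 0x10888068602) (nat_lit 0) (p (nat_lit 0x807860582) (nat_lit 0) (p (nat_lit 0x10607058502) (nat_lit 0) (p (nat_lit 0x586850482)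 (nat_lit 0) (p (nat_lit 0x16000c) (nat_lit 0) (p (nat_lit 0x68612) (nat_lit 0) (p (nat_lit 0x50592) (nat_lit 0) (p (nat_lit 0x40512) (nat_lit 0) (p (nat_lit 0x50312) (nat_lit 0) (p (nat_lit 0x38292) (nat_lit 0) (p (nat_lit 0x28212) (nat_lit 0) (p (nat_lit 0x38112) (nat_lit 0) (p (nat_lit 0x20092) (nat_lit 0) (p (nat_lit 0x10012) (nat_lit 0) pn))))))))))))))))))))))))))))))) :=
  Cl.node (nat_lit 0xb000c) (nat_lit 2) (by decide +kernel) (ClAll.succ (ClAll.succ ClAll.zero s451) s452)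

def n170 : Cl (O (nat_lit 5)) (R (nat_lit 14353))
    (p (nat_lit 0x200004) (nat_lit 0) (p (nat_lit 0x109) (nat_lit 0) (p (nat_lit 0xb000c) (nat_lit 0) (p (nat_lit 0x380c2) (nat_lit 0) (p (nat_lit 0x444aa) (nat_lit 7) (p (nat_lit 0x111) (nat_lit 1) (p (nat_lit 0xd1) (nat_lit 1) (p (nat_lit 0xc1) (nat_lit 0) (p (nat_lit 0x119) (nat_lit 1) (p (nat_lit 0xc9) (nat_lit 0) (p (nat_lit 0x89) (nat_lit 1) (p (nat_lit 0x41) (nat_lit 0) (p (nat_lit 0x10a0b0a89089a) (nat_lit 0) (p (nat_lit 0x98a8a08881a) (nat_lit 0) (p (nat_lit 0x109088988079a) (nat_lit 0) (p (nat_lit 0x8880907871a) (nat_lit 0) (p (nat_lit 0x8000000000800080887068a) (nat_lit 0) (p (nat_lit 0x10888068602) (nat_lit 0) (p (nat_lit 0x807860582) (nat_lit 0) (p (nat_lit 0x10607058502) (nat_lit 0) (p (nat_lit 0x586850482) (nat_lit 0) (p (nat_lit 0x16000c) (nat_lit 0) (p (nat_lit 0x68612) (nat_lit 0) (p (nat_lit 0x50592) (nat_lit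 0) (p (nat_lit 0x40512) (nat_lit 0) (p (nat_lit 0x50312) (nat_lit 0) (p (nat_lit 0x38292) (nat_lit 0) (p (nat_lit 0x28212) (nat_lit 0) (p (nat_lit 0x38112) (nat_lit 0) (p (nat_lit 0x20092) (nat_lit 0) (p (nat_lit 0x10012) (nat_lit 0) pn))))))))))))))))))))))))))))))) :=
  Cl.node (nat_lit 0x100004) (nat_lit 2) (by decide +kernel) (ClAll.succ (ClAll.succ ClAll.zero n113) s493)

def n171 : Cl (O (nat_lit 5)) (R (nat_lit 14353))
    (p (nat_lit 0x1fc014) (nat_lit 0) (p (nat_lit 0x1fc004) (nat_lit 0) (p (nat_lit 0xb000c) (nat_lit 1) (p (nat_lit 0x380c2) (nat_lit 0) (p (nat_lit 0x444aa) (nat_lit 7) (p (nat_lit 0x111) (nat_lit 1) (p (nat_lit 0xd1) (nat_lit 1) (p (nat_lit 0xc1) (nat_lit 0) (p (nat_lit 0x119) (nat_lit 1) (p (nat_lit 0xc9) (nat_lit 0) (p (nat_lit 0x89) (nat_lit 1) (p (nat_lit 0x41) (nat_lit 0) (p (nat_lit 0x10a0b0a89089a) (nat_lit 0) (p (nat_lit 0x98a8a08881a) (nat_lit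 0) (p (nat_lit 0x109088988079a) (nat_lit 0) (p (nat_lit 0x8880907871a) (nat_lit 0) (p (nat_lit 0x8000000000800080887068a) (nat_lit 0) (p (nat_lit 0x10888068602) (nat_lit 0) (p (nat_lit 0x807860582) (nat_lit 0) (p (nat_lit 0x10607058502) (nat_lit 0) (p (nat_lit 0x586850482) (nat_lit 0) (p (nat_lit 0x16000c) (nat_lit 0) (p (nat_lit 0x68612) (nat_lit 0) (p (nat_lit 0x50592) (nat_lit 0) (p (nat_lit 0x40512) (nat_lit 0) (p (nat_lit 0x50312) (nat_lit 0) (p (nat_lit 0x38292) (nat_lit 0) (p (nat_lit 0x28212) (nat_lit 0) (p (nat_lit 0x38112) (nat_lit 0) (p (nat_lit 0x20092) (nat_lit 0) (p (nat_lit 0x10012) (nat_lit 0) pn))))))))))))))))))))))))))))))) :=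
  Cl.node (nat_lit 0x100004) (nat_lit 2) (by decide +kernel) (ClAll.succ (ClAll.succ ClAll.zero n114) s499)

def n172 : Cl (O (nat_lit 5)) (R (nat_lit 14353))
    (p (nat_lit 0x200004) (nat_lit 0) (p (nat_lit 0x109) (nat_lit 0) (p (nat_lit 0xb000c) (nat_lit 0) (p (nat_lit 0x380c2) (nat_lit 1) (p (nat_lit 0x444aa) (nat_lit 7) (p (nat_lit 0x111) (nat_lit 1) (p (nat_lit 0xd1) (nat_lit 1) (p (nat_lit 0xc1) (nat_lit 0) (p (nat_lit 0x119) (nat_lit 1) (p (nat_lit 0xc9) (nat_lit 0) (p (nat_lit 0x89) (nat_lit 1) (p (nat_lit 0x41) (nat_lit 0) (p (nat_lit 0x10a0b0a89089a) (nat_lit 0) (p (nat_lit 0x98a8a08881a) (nat_lit 0) (p (nat_lit 0x109088988079a) (nat_lit 0) (p (nat_lit 0x8880907871a) (nat_lit 0) (p (nat_lit 0x8000000000800080887068a) (nat_lit 0) (p (nat_lit 0x10888068602) (nat_lit 0) (p (nat_lit 0x807860582) (nat_lit 0) (p (nat_lit 0x10607058502) (nat_lit 0) (p (nat_lit 0x586850482)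 (nat_lit 0) (p (nat_lit 0x16000c) (nat_lit 0) (p (nat_lit 0x68612) (nat_lit 0) (p (nat_lit 0x50592) (nat_lit 0) (p (nat_lit 0x40512) (nat_lit 0) (p (nat_lit 0x50312) (nat_lit 0) (p (nat_lit 0x38292) (nat_lit 0) (p (nat_lit 0x28212) (nat_lit 0) (p (nat_lit 0x38112) (nat_lit 0) (p (nat_lit 0x20092) (nat_lit 0) (p (nat_lit 0x10012) (nat_lit 0) pn))))))))))))))))))))))))))))))) :=
  Cl.node (nat_lit 0x100004) (nat_lit 2) (by decide +kernel) (ClAll.succ (ClAll.succ ClAll.zero s502) s503)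

def n173 : Cl (O (nat_lit 5)) (R (nat_lit 14353))
    (p (nat_lit 0x200004) (nat_lit 0) (p (nat_lit 0x109) (nat_lit 0) (p (nat_lit 0xb000c) (nat_lit 0) (p (nat_lit 0x380c2) (nat_lit 1) (p (nat_lit 0x444aa) (nat_lit 7) (p (nat_lit 0x111) (nat_lit 1) (p (nat_lit 0x101) (nat_lit 0) (p (nat_lit 0xc1) (nat_lit 1) (p (nat_lit 0x119) (nat_lit 1) (p (nat_lit 0xc9) (nat_lit 0) (p (nat_lit 0x89) (nat_lit 1) (p (nat_lit 0x41) (nat_lit 0) (p (nat_lit 0x10a0b0a89089a) (nat_lit 0) (p (nat_lit 0x98a8a08881a) (nat_lit 0) (p (nat_lit 0x109088988079a) (nat_lit 0) (p (nat_lit 0x8880907871a) (nat_lit 0) (p (nat_lit 0x8000000000800080887068a) (nat_lit 0) (p (nat_lit 0x10888068602) (nat_lit 0) (p (nat_lit 0x807860582) (nat_lit 0) (p (nat_lit 0x10607058502) (nat_lit 0) (p (nat_lit 0x586850482) (nat_lit 0) (p (nat_lit 0x16000c) (nat_lit 0) (p (nat_lit 0x68612) (nat_lit 0) (p (nat_lit 0x50592)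 (nat_lit 0) (p (nat_lit 0x40512) (nat_lit 0) (p (nat_lit 0x50312) (nat_lit 0) (p (nat_lit 0x38292) (nat_lit 0) (p (nat_lit 0x28212) (nat_lit 0) (p (nat_lit 0x38112) (nat_lit 0) (p (nat_lit 0x20092) (nat_lit 0) (p (nat_lit 0x10012) (nat_lit 0) pn))))))))))))))))))))))))))))))) :=
  Cl.node (nat_lit 0x100004) (nat_lit 2) (by decide +kernel) (ClAll.succ (ClAll.succ ClAll.zero n115) s537)

def n174 : Cl (O (nat_lit 5)) (R (nat_lit 14353))
    (p (nat_lit 0x44c2a) (nat_lit 1) (p (nat_lit 0x111) (nat_lit 1) (p (nat_lit 0x380c2) (nat_lit 0) (p (nat_lit 0x4c42a) (nat_lit 2) (p (nat_lit 0xc9) (nat_lit 0) (p (nat_lit 0x89) (nat_lit 1) (p (nat_lit 0x109) (nat_lit 1) (p (nat_lit 0x101) (nat_lit 0) (p (nat_lit 0x119) (nat_lit 0) (p (nat_lit 0xd1) (nat_lit 0) (p (nat_lit 0x81) (nat_lit 0) (p (nat_lit 0x41) (nat_lit 1) (p (nat_lit 0x10a0b0a89089a) (nat_lit 0) (p (nat_lit 0x98a8a08881a)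 (nat_lit 0) (p (nat_lit 0x109088988079a) (nat_lit 0) (p (nat_lit 0x8880907871a) (nat_lit 0) (p (nat_lit 0x8000000000800080887068a) (nat_lit 0) (p (nat_lit 0x10888068602) (nat_lit 0) (p (nat_lit 0x807860582) (nat_lit 0) (p (nat_lit 0x10607058502) (nat_lit 0) (p (nat_lit 0x586850482) (nat_lit 0) (p (nat_lit 0x16000c) (nat_lit 0) (p (nat_lit 0x68612) (nat_lit 0) (p (nat_lit 0x50592) (nat_lit 0) (p (nat_lit 0x40512) (nat_lit 0) (p (nat_lit 0x50312) (nat_lit 0) (p (nat_lit 0x38292) (nat_lit 0) (p (nat_lit 0x28212) (nat_lit 0) (p (nat_lit 0x38112) (nat_lit 0) (p (nat_lit 0x20092) (nat_lit 0) (p (nat_lit 0x10012) (nat_lit 0) pn))))))))))))))))))))))))))))))) :=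
  Cl.node (nat_lit 0x380c2) (nat_lit 2) (by decide +kernel) (ClAll.succ (ClAll.succ ClAll.zero n116) n117)

def n175 : Cl (O (nat_lit 5)) (R (nat_lit 14353))
    (p (nat_lit 0x380c2) (nat_lit 0) (p (nat_lit 0x44c2a) (nat_lit 0) (p (nat_lit 0x380c2) (nat_lit 0) (p (nat_lit 0x4c42a) (nat_lit 2) (p (nat_lit 0xc9) (nat_lit 0) (p (nat_lit 0x89) (nat_lit 1) (p (nat_lit 0xc1) (nat_lit 0) (p (nat_lit 0x101) (nat_lit 1) (p (nat_lit 0x119) (nat_lit 0) (p (nat_lit 0xd1) (nat_lit 0) (p (nat_lit 0x81) (nat_lit 0) (p (nat_lit 0x41) (nat_lit 1) (p (nat_lit 0x10a0b0a89089a) (nat_lit 0) (p (nat_lit 0x98a8a08881a) (nat_lit 0) (p (nat_lit 0x109088988079a) (nat_lit 0) (p (nat_lit 0x8880907871a) (nat_lit 0) (p (nat_lit 0x8000000000800080887068a) (nat_lit 0) (p (nat_lit 0x10888068602) (nat_lit 0) (p (nat_lit 0x807860582) (nat_lit 0) (p (nat_lit 0x10607058502) (nat_lit 0) (p (nat_lit 0x586850482)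 (nat_lit 0) (p (nat_lit 0x16000c) (nat_lit 0) (p (nat_lit 0x68612) (nat_lit 0) (p (nat_lit 0x50592) (nat_lit 0) (p (nat_lit 0x40512) (nat_lit 0) (p (nat_lit 0x50312) (nat_lit 0) (p (nat_lit 0x38292) (nat_lit 0) (p (nat_lit 0x28212) (nat_lit 0) (p (nat_lit 0x38112) (nat_lit 0) (p (nat_lit 0x20092) (nat_lit 0) (p (nat_lit 0x10012) (nat_lit 0) pn))))))))))))))))))))))))))))))) :=
  Cl.node (nat_lit 0x200014) (nat_lit 2) (by decide +kernel) (ClAll.succ (ClAll.succ ClAll.zero n118) s666)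

def n176 : Cl (O (nat_lit 5)) (R (nat_lit 14353))
    (p (nat_lit 0x380c2) (nat_lit 0) (p (nat_lit 0x44c2a) (nat_lit 1) (p (nat_lit 0x380c2) (nat_lit 0) (p (nat_lit 0x4c42a) (nat_lit 2) (p (nat_lit 0xc9) (nat_lit 0) (p (nat_lit 0x89) (nat_lit 1) (p (nat_lit 0xc1) (nat_lit 0) (p (nat_lit 0x101) (nat_lit 1) (p (nat_lit 0x119) (nat_lit 0) (p (nat_lit 0xd1) (nat_lit 0) (p (nat_lit 0x81) (nat_lit 0) (p (nat_lit 0x41) (nat_lit 1) (p (nat_lit 0x10a0b0a89089a) (nat_lit 0) (p (nat_lit 0x98a8a08881a) (nat_lit 0) (p (nat_lit 0x109088988079a) (nat_lit 0) (p (nat_lit 0x8880907871a) (nat_lit 0) (p (nat_lit 0x8000000000800080887068a) (nat_lit 0) (p (nat_lit 0x10888068602) (nat_lit 0) (p (nat_lit 0x807860582) (nat_lit 0) (p (nat_lit 0x10607058502) (nat_lit 0) (p (nat_lit 0x586850482) (nat_lit 0) (p (nat_lit 0x16000c) (nat_lit 0) (p (nat_lit 0x68612) (nat_lit 0) (p (nat_lit 0x50592) (nat_lit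 0) (p (nat_lit 0x40512) (nat_lit 0) (p (nat_lit 0x50312) (nat_lit 0) (p (nat_lit 0x38292) (nat_lit 0) (p (nat_lit 0x28212) (nat_lit 0) (p (nat_lit 0x38112) (nat_lit 0) (p (nat_lit 0x20092) (nat_lit 0) (p (nat_lit 0x10012) (nat_lit 0) pn))))))))))))))))))))))))))))))) :=
  Cl.node (nat_lit 0x200014) (nat_lit 2) (by decide +kernel) (ClAll.succ (ClAll.succ ClAll.zero n119) s670)

def n177 : Cl (O (nat_lit 5)) (R (nat_lit 14353))
    (p (nat_lit 0x380c2) (nat_lit 1) (p (nat_lit 0x44c2a) (nat_lit 1) (p (nat_lit 0x380c2) (nat_lit 0) (p (nat_lit 0x4c42a) (nat_lit 2) (p (nat_lit 0xc9) (nat_lit 0) (p (nat_lit 0x89) (nat_lit 1) (p (nat_lit 0xc1) (nat_lit 0) (p (nat_lit 0x101) (nat_lit 1) (p (nat_lit 0x119) (nat_lit 0) (p (nat_lit 0xd1) (nat_lit 0) (p (nat_lit 0x81) (nat_lit 0) (p (nat_lit 0x41) (nat_lit 1) (p (nat_lit 0x10a0b0a89089a) (nat_lit 0) (p (nat_lit 0x98a8a08881a) (nat_lit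 0) (p (nat_lit 0x109088988079a) (nat_lit 0) (p (nat_lit 0x8880907871a) (nat_lit 0) (p (nat_lit 0x8000000000800080887068a) (nat_lit 0) (p (nat_lit 0x10888068602) (nat_lit 0) (p (nat_lit 0x807860582) (nat_lit 0) (p (nat_lit 0x10607058502) (nat_lit 0) (p (nat_lit 0x586850482) (nat_lit 0) (p (nat_lit 0x16000c) (nat_lit 0) (p (nat_lit 0x68612) (nat_lit 0) (p (nat_lit 0x50592) (nat_lit 0) (p (nat_lit 0x40512) (nat_lit 0) (p (nat_lit 0x50312) (nat_lit 0) (p (nat_lit 0x38292) (nat_lit 0) (p (nat_lit 0x28212) (nat_lit 0) (p (nat_lit 0x38112) (nat_lit 0) (p (nat_lit 0x20092) (nat_lit 0) (p (nat_lit 0x10012) (nat_lit 0) pn))))))))))))))))))))))))))))))) :=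
  Cl.node (nat_lit 0x200014) (nat_lit 2) (by decide +kernel) (ClAll.succ (ClAll.succ ClAll.zero n120) s675)

def n178 : Cl (O (nat_lit 5)) (R (nat_lit 14353))
    (p (nat_lit 0x380c2) (nat_lit 1) (p (nat_lit 0x3c4aa) (nat_lit 7) (p (nat_lit 0x380c2) (nat_lit 0) (p (nat_lit 0x4c42a) (nat_lit 2) (p (nat_lit 0xc9) (nat_lit 1) (p (nat_lit 0x89) (nat_lit 1) (p (nat_lit 0xc1) (nat_lit 0) (p (nat_lit 0x101) (nat_lit 1) (p (nat_lit 0x119) (nat_lit 0) (p (nat_lit 0xd1) (nat_lit 0) (p (nat_lit 0x81) (nat_lit 0) (p (nat_lit 0x41) (nat_lit 1) (p (nat_lit 0x10a0b0a89089a) (nat_lit 0) (p (nat_lit 0x98a8a08881a) (nat_lit 0) (p (nat_lit 0x109088988079a) (nat_lit 0) (p (nat_lit 0x8880907871a) (nat_lit 0) (p (nat_lit 0x8000000000800080887068a) (nat_lit 0) (p (nat_lit 0x10888068602) (nat_lit 0) (p (nat_lit 0x807860582) (nat_lit 0) (p (nat_lit 0x10607058502) (nat_lit 0) (p (nat_lit 0x586850482)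 (nat_lit 0) (p (nat_lit 0x16000c) (nat_lit 0) (p (nat_lit 0x68612) (nat_lit 0) (p (nat_lit 0x50592) (nat_lit 0) (p (nat_lit 0x40512) (nat_lit 0) (p (nat_lit 0x50312) (nat_lit 0) (p (nat_lit 0x38292) (nat_lit 0) (p (nat_lit 0x28212) (nat_lit 0) (p (nat_lit 0x38112) (nat_lit 0) (p (nat_lit 0x20092) (nat_lit 0) (p (nat_lit 0x10012) (nat_lit 0) pn))))))))))))))))))))))))))))))) :=
  Cl.node (nat_lit 0x200014) (nat_lit 2) (by decide +kernel) (ClAll.succ (ClAll.succ ClAll.zero n121) s707)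

def n179 : Cl (O (nat_lit 5)) (R (nat_lit 14353))
    (p (nat_lit 0xc9) (nat_lit 0) (p (nat_lit 0x200004) (nat_lit 0) (p (nat_lit 0xb000c) (nat_lit 0) (p (nat_lit 0x380c2) (nat_lit 1) (p (nat_lit 0x3c4aa) (nat_lit 7) (p (nat_lit 0x89) (nat_lit 1) (p (nat_lit 0xc1) (nat_lit 1) (p (nat_lit 0x101) (nat_lit 1) (p (nat_lit 0x119) (nat_lit 0) (p (nat_lit 0xd1) (nat_lit 0) (p (nat_lit 0x81) (nat_lit 0) (p (nat_lit 0x41) (nat_lit 1) (p (nat_lit 0x10a0b0a89089a) (nat_lit 0) (p (nat_lit 0x98a8a08881a) (nat_lit 0) (p (nat_lit 0x109088988079a) (nat_lit 0) (p (nat_lit 0x8880907871a) (nat_lit 0) (p (nat_lit 0x8000000000800080887068a) (nat_lit 0) (p (nat_lit 0x10888068602) (nat_lit 0) (p (nat_lit 0x807860582) (nat_lit 0) (p (nat_lit 0x10607058502) (nat_lit 0) (p (nat_lit 0x586850482) (nat_lit 0) (p (nat_lit 0x16000c) (nat_lit 0) (p (nat_lit 0x68612) (nat_lit 0) (p (nat_lit 0x50592) (nat_lit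 0) (p (nat_lit 0x40512) (nat_lit 0) (p (nat_lit 0x50312) (nat_lit 0) (p (nat_lit 0x38292) (nat_lit 0) (p (nat_lit 0x28212) (nat_lit 0) (p (nat_lit 0x38112) (nat_lit 0) (p (nat_lit 0x20092) (nat_lit 0) (p (nat_lit 0x10012) (nat_lit 0) pn))))))))))))))))))))))))))))))) :=
  Cl.node (nat_lit 0xc1) (nat_lit 2) (by decide +kernel) (ClAll.succ (ClAll.succ ClAll.zero n122) s745)

def n180 : Cl (O (nat_lit 5)) (R (nat_lit 14353))
    (p (nat_lit 0x109) (nat_lit 1) (p (nat_lit 0x200004) (nat_lit 0) (p (nat_lit 0x380c2) (nat_lit 0) (p (nat_lit 0x44c2a) (nat_lit 0) (p (nat_lit 0x109) (nat_lit 0) (p (nat_lit 0x89) (nat_lit 1) (p (nat_lit 0xc9) (nat_lit 1) (p (nat_lit 0xc1) (nat_lit 0) (p (nat_lit 0x119) (nat_lit 1) (p (nat_lit 0xd1) (nat_lit 0) (p (nat_lit 0x81) (nat_lit 0) (p (nat_lit 0x41) (nat_lit 1) (p (nat_lit 0x10a0b0a89089a) (nat_lit 0) (p (nat_lit 0x98a8a08881a) (nat_lit 0)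 (p (nat_lit 0x109088988079a) (nat_lit 0) (p (nat_lit 0x8880907871a) (nat_lit 0) (p (nat_lit 0x8000000000800080887068a) (nat_lit 0) (p (nat_lit 0x10888068602) (nat_lit 0) (p (nat_lit 0x807860582) (nat_lit 0) (p (nat_lit 0x10607058502) (nat_lit 0) (p (nat_lit 0x586850482) (nat_lit 0) (p (nat_lit 0x16000c) (nat_lit 0) (p (nat_lit 0x68612) (nat_lit 0) (p (nat_lit 0x50592) (nat_lit 0) (p (nat_lit 0x40512) (nat_lit 0) (p (nat_lit 0x50312) (nat_lit 0) (p (nat_lit 0x38292) (nat_lit 0) (p (nat_lit 0x28212) (nat_lit 0) (p (nat_lit 0x38112) (nat_lit 0) (p (nat_lit 0x20092) (nat_lit 0) (p (nat_lit 0x10012) (nat_lit 0) pn))))))))))))))))))))))))))))))) :=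
  Cl.node (nat_lit 0x3c4aa) (nat_lit 12) (by decide +kernel) (ClAll.succ (ClAll.succ (ClAll.succ (ClAll.succ (ClAll.succ (ClAll.succ (ClAll.succ (ClAll.succ (ClAll.succ (ClAll.succ (ClAll.succ (ClAll.succ ClAll.zero s769) s770) s771) s772) s773) s774) s775) s776) s777) s778) s779) s780)

def n181 : Cl (O (nat_lit 5)) (R (nat_lit 14353))
    (p (nat_lit 0x200004) (nat_lit 0) (p (nat_lit 0xb000c) (nat_lit 0) (p (nat_lit 0x380c2) (nat_lit 1) (p (nat_lit 0x3c4aa) (nat_lit 10) (p (nat_lit 0x109) (nat_lit 1) (p (nat_lit 0x89) (nat_lit 1) (p (nat_lit 0xc9) (nat_lit 1) (p (nat_lit 0xc1) (nat_lit 0) (p (nat_lit 0x119) (nat_lit 1) (p (nat_lit 0xd1) (nat_lit 0) (p (nat_lit 0x81) (nat_lit 0) (p (nat_lit 0x41) (nat_lit 1) (p (nat_lit 0x10a0b0a89089a) (nat_lit 0) (p (nat_lit 0x98a8a08881a) (nat_lit 0) (p (nat_lit 0x109088988079a) (nat_lit 0) (p (nat_lit 0x8880907871a) (nat_lit 0) (p (nat_lit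 0x8000000000800080887068a) (nat_lit 0) (p (nat_lit 0x10888068602) (nat_lit 0) (p (nat_lit 0x807860582) (nat_lit 0) (p (nat_lit 0x10607058502) (nat_lit 0) (p (nat_lit 0x586850482) (nat_lit 0) (p (nat_lit 0x16000c) (nat_lit 0) (p (nat_lit 0x68612) (nat_lit 0) (p (nat_lit 0x50592) (nat_lit 0) (p (nat_lit 0x40512) (nat_lit 0) (p (nat_lit 0x50312) (nat_lit 0) (p (nat_lit 0x38292) (nat_lit 0) (p (nat_lit 0x28212) (nat_lit 0) (p (nat_lit 0x38112) (nat_lit 0) (p (nat_lit 0x20092) (nat_lit 0) (p (nat_lit 0x10012) (nat_lit 0) pn))))))))))))))))))))))))))))))) :=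
  Cl.node (nat_lit 0x100004) (nat_lit 2) (by decide +kernel) (ClAll.succ (ClAll.succ ClAll.zero n123) s824)

def n182 : Cl (O (nat_lit 5)) (R (nat_lit 14353))
    (p (nat_lit 0x1fc004) (nat_lit 0) (p (nat_lit 0xb000c) (nat_lit 1) (p (nat_lit 0x380c2) (nat_lit 1) (p (nat_lit 0x3c4aa) (nat_lit 10) (p (nat_lit 0x109) (nat_lit 1) (p (nat_lit 0x89) (nat_lit 1) (p (nat_lit 0xc9) (nat_lit 1) (p (nat_lit 0xc1) (nat_lit 0) (p (nat_lit 0x119) (nat_lit 1) (p (nat_lit 0xd1) (nat_lit 0) (p (nat_lit 0x81) (nat_lit 0) (p (nat_lit 0x41) (nat_lit 1) (p (nat_lit 0x10a0b0a89089a) (nat_lit 0) (p (nat_lit 0x98a8a08881a) (nat_lit 0) (p (nat_lit 0x109088988079a) (nat_lit 0) (p (nat_lit 0x8880907871a) (nat_lit 0) (p (nat_lit 0x8000000000800080887068a) (nat_lit 0) (p (nat_lit 0x10888068602) (nat_lit 0) (p (nat_lit 0x807860582) (nat_lit 0) (p (nat_lit 0x10607058502) (nat_lit 0) (p (nat_lit 0x586850482)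 (nat_lit 0) (p (nat_lit 0x16000c) (nat_lit 0) (p (nat_lit 0x68612) (nat_lit 0) (p (nat_lit 0x50592) (nat_lit 0) (p (nat_lit 0x40512) (nat_lit 0) (p (nat_lit 0x50312) (nat_lit 0) (p (nat_lit 0x38292) (nat_lit 0) (p (nat_lit 0x28212) (nat_lit 0) (p (nat_lit 0x38112) (nat_lit 0) (p (nat_lit 0x20092) (nat_lit 0) (p (nat_lit 0x10012) (nat_lit 0) pn))))))))))))))))))))))))))))))) :=
  Cl.node (nat_lit 0x1fc014) (nat_lit 2) (by decide +kernel) (ClAll.succ (ClAll.succ ClAll.zero n124) s829)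

def n183 : Cl (O (nat_lit 5)) (R (nat_lit 14353))
    (p (nat_lit 0xb000c) (nat_lit 0) (p (nat_lit 0x200004) (nat_lit 0) (p (nat_lit 0x380c2) (nat_lit 0) (p (nat_lit 0x3c4aa) (nat_lit 7) (p (nat_lit 0x109) (nat_lit 1) (p (nat_lit 0x89) (nat_lit 1) (p (nat_lit 0x101) (nat_lit 0) (p (nat_lit 0xc1) (nat_lit 1) (p (nat_lit 0x119) (nat_lit 1) (p (nat_lit 0xd1) (nat_lit 0) (p (nat_lit 0x81) (nat_lit 0) (p (nat_lit 0x41) (nat_lit 1) (p (nat_lit 0x10a0b0a89089a) (nat_lit 0) (p (nat_lit 0x98a8a08881a) (nat_lit 0) (p (nat_lit 0x109088988079a) (nat_lit 0) (p (nat_lit 0x8880907871a) (nat_lit 0) (p (nat_lit 0x8000000000800080887068a) (nat_lit 0) (p (nat_lit 0x10888068602) (nat_lit 0) (p (nat_lit 0x807860582) (nat_lit 0) (p (nat_lit 0x10607058502) (nat_lit 0) (p (nat_lit 0x586850482) (nat_lit 0) (p (nat_lit 0x16000c) (nat_lit 0) (p (nat_lit 0x68612) (nat_lit 0) (p (nat_lit 0x50592) (nat_lit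 0) (p (nat_lit 0x40512) (nat_lit 0) (p (nat_lit 0x50312) (nat_lit 0) (p (nat_lit 0x38292) (nat_lit 0) (p (nat_lit 0x28212) (nat_lit 0) (p (nat_lit 0x38112) (nat_lit 0) (p (nat_lit 0x20092) (nat_lit 0) (p (nat_lit 0x10012) (nat_lit 0) pn))))))))))))))))))))))))))))))) :=
  Cl.node (nat_lit 0x81) (nat_lit 2) (by decide +kernel) (ClAll.succ (ClAll.succ ClAll.zero s869) s870)

def n184 : Cl (O (nat_lit 5)) (R (nat_lit 14353))
    (p (nat_lit 0x200004) (nat_lit 0) (p (nat_lit 0xb000c) (nat_lit 0) (p (nat_lit 0x380c2) (nat_lit 1) (p (nat_lit 0x3c4aa) (nat_lit 7) (p (nat_lit 0x109) (nat_lit 1) (p (nat_lit 0x89) (nat_lit 1) (p (nat_lit 0x101) (nat_lit 0) (p (nat_lit 0xc1) (nat_lit 1) (p (nat_lit 0x119) (nat_lit 1) (p (nat_lit 0xd1) (nat_lit 0) (p (nat_lit 0x81) (nat_lit 0) (p (nat_lit 0x41) (nat_lit 1) (p (nat_lit 0x10a0b0a89089a) (nat_lit 0) (p (nat_lit 0x98a8a08881a) (nat_lit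 0) (p (nat_lit 0x109088988079a) (nat_lit 0) (p (nat_lit 0x8880907871a) (nat_lit 0) (p (nat_lit 0x8000000000800080887068a) (nat_lit 0) (p (nat_lit 0x10888068602) (nat_lit 0) (p (nat_lit 0x807860582) (nat_lit 0) (p (nat_lit 0x10607058502) (nat_lit 0) (p (nat_lit 0x586850482) (nat_lit 0) (p (nat_lit 0x16000c) (nat_lit 0) (p (nat_lit 0x68612) (nat_lit 0) (p (nat_lit 0x50592) (nat_lit 0) (p (nat_lit 0x40512) (nat_lit 0) (p (nat_lit 0x50312) (nat_lit 0) (p (nat_lit 0x38292) (nat_lit 0) (p (nat_lit 0x28212) (nat_lit 0) (p (nat_lit 0x38112) (nat_lit 0) (p (nat_lit 0x20092) (nat_lit 0) (p (nat_lit 0x10012) (nat_lit 0) pn))))))))))))))))))))))))))))))) :=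
  Cl.node (nat_lit 0x81) (nat_lit 2) (by decide +kernel) (ClAll.succ (ClAll.succ ClAll.zero s873) n125)

def n185 : Cl (O (nat_lit 5)) (R (nat_lit 14353))
    (p (nat_lit 0x1fc004) (nat_lit 0) (p (nat_lit 0xb000c) (nat_lit 1) (p (nat_lit 0x380c2) (nat_lit 1) (p (nat_lit 0x3c4aa) (nat_lit 7) (p (nat_lit 0x109) (nat_lit 1) (p (nat_lit 0x89) (nat_lit 1) (p (nat_lit 0x101) (nat_lit 0) (p (nat_lit 0xc1) (nat_lit 1) (p (nat_lit 0x119) (nat_lit 1) (p (nat_lit 0xd1) (nat_lit 0) (p (nat_lit 0x81) (nat_lit 0) (p (nat_lit 0x41) (nat_lit 1) (p (nat_lit 0x10a0b0a89089a) (nat_lit 0) (p (nat_lit 0x98a8a08881a) (nat_lit 0) (p (nat_lit 0x109088988079a) (nat_lit 0) (p (nat_lit 0x8880907871a) (nat_lit 0) (p (nat_lit 0x8000000000800080887068a) (nat_lit 0) (p (nat_lit 0x10888068602) (nat_lit 0) (p (nat_lit 0x807860582) (nat_lit 0) (p (nat_lit 0x10607058502) (nat_lit 0) (p (nat_lit 0x586850482)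 (nat_lit 0) (p (nat_lit 0x16000c) (nat_lit 0) (p (nat_lit 0x68612) (nat_lit 0) (p (nat_lit 0x50592) (nat_lit 0) (p (nat_lit 0x40512) (nat_lit 0) (p (nat_lit 0x50312) (nat_lit 0) (p (nat_lit 0x38292) (nat_lit 0) (p (nat_lit 0x28212) (nat_lit 0) (p (nat_lit 0x38112) (nat_lit 0) (p (nat_lit 0x20092) (nat_lit 0) (p (nat_lit 0x10012) (nat_lit 0) pn))))))))))))))))))))))))))))))) :=
  Cl.node (nat_lit 0x1fc014) (nat_lit 2) (by decide +kernel) (ClAll.succ (ClAll.succ ClAll.zero n126) s881)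

def n186 : Cl (O (nat_lit 5)) (R (nat_lit 14353))
    (p (nat_lit 0x200014) (nat_lit 0) (p (nat_lit 0xb000c) (nat_lit 0) (p (nat_lit 0x380c2) (nat_lit 1) (p (nat_lit 0x3c4aa) (nat_lit 10) (p (nat_lit 0x109) (nat_lit 1) (p (nat_lit 0x89) (nat_lit 1) (p (nat_lit 0x101) (nat_lit 0) (p (nat_lit 0xc1) (nat_lit 1) (p (nat_lit 0x119) (nat_lit 1) (p (nat_lit 0xd1) (nat_lit 0) (p (nat_lit 0x81) (nat_lit 0) (p (nat_lit 0x41) (nat_lit 1) (p (nat_lit 0x10a0b0a89089a) (nat_lit 0) (p (nat_lit 0x98a8a08881a) (nat_lit 0) (p (nat_lit 0x109088988079a) (nat_lit 0) (p (nat_lit 0x8880907871a) (nat_lit 0) (p (nat_lit 0x8000000000800080887068a) (nat_lit 0) (p (nat_lit 0x10888068602) (nat_lit 0) (p (nat_lit 0x807860582) (nat_lit 0) (p (nat_lit 0x10607058502) (nat_lit 0) (p (nat_lit 0x586850482) (nat_lit 0) (p (nat_lit 0x16000c) (nat_lit 0) (p (nat_lit 0x68612) (nat_lit 0) (p (nat_lit 0x50592)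 (nat_lit 0) (p (nat_lit 0x40512) (nat_lit 0) (p (nat_lit 0x50312) (nat_lit 0) (p (nat_lit 0x38292) (nat_lit 0) (p (nat_lit 0x28212) (nat_lit 0) (p (nat_lit 0x38112) (nat_lit 0) (p (nat_lit 0x20092) (nat_lit 0) (p (nat_lit 0x10012) (nat_lit 0) pn))))))))))))))))))))))))))))))) :=
  Cl.node (nat_lit 0x100014) (nat_lit 2) (by decide +kernel) (ClAll.succ (ClAll.succ ClAll.zero n127) s889)

def n187 : Cl (O (nat_lit 5)) (R (nat_lit 14353))
    (p (nat_lit 0x101) (nat_lit 0) (p (nat_lit 0x200004) (nat_lit 0) (p (nat_lit 0xb000c) (nat_lit 0) (p (nat_lit 0x380c2) (nat_lit 0) (p (nat_lit 0x3c4aa) (nat_lit 7) (p (nat_lit 0x89) (nat_lit 1) (p (nat_lit 0x101) (nat_lit 1) (p (nat_lit 0xc1) (nat_lit 1) (p (nat_lit 0x119) (nat_lit 1) (p (nat_lit 0xd1) (nat_lit 0) (p (nat_lit 0x81) (nat_lit 0) (p (nat_lit 0x41) (nat_lit 1) (p (nat_lit 0x10a0b0a89089a) (nat_lit 0) (p (nat_lit 0x98a8a08881a)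 (nat_lit 0) (p (nat_lit 0x109088988079a) (nat_lit 0) (p (nat_lit 0x8880907871a) (nat_lit 0) (p (nat_lit 0x8000000000800080887068a) (nat_lit 0) (p (nat_lit 0x10888068602) (nat_lit 0) (p (nat_lit 0x807860582) (nat_lit 0) (p (nat_lit 0x10607058502) (nat_lit 0) (p (nat_lit 0x586850482) (nat_lit 0) (p (nat_lit 0x16000c) (nat_lit 0) (p (nat_lit 0x68612) (nat_lit 0) (p (nat_lit 0x50592) (nat_lit 0) (p (nat_lit 0x40512) (nat_lit 0) (p (nat_lit 0x50312) (nat_lit 0) (p (nat_lit 0x38292) (nat_lit 0) (p (nat_lit 0x28212) (nat_lit 0) (p (nat_lit 0x38112) (nat_lit 0) (p (nat_lit 0x20092) (nat_lit 0) (p (nat_lit 0x10012) (nat_lit 0) pn))))))))))))))))))))))))))))))) :=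
  Cl.node (nat_lit 0x109) (nat_lit 2) (by decide +kernel) (ClAll.succ (ClAll.succ ClAll.zero s915) s916)

def n188 : Cl (O (nat_lit 5)) (R (nat_lit 14353))
    (p (nat_lit 0xb000c) (nat_lit 0) (p (nat_lit 0x100004) (nat_lit 0) (p (nat_lit 0x200004) (nat_lit 0) (p (nat_lit 0x380c2) (nat_lit 1) (p (nat_lit 0x3c4aa) (nat_lit 7) (p (nat_lit 0x89) (nat_lit 1) (p (nat_lit 0x101) (nat_lit 1) (p (nat_lit 0xc1) (nat_lit 1) (p (nat_lit 0x119) (nat_lit 1) (p (nat_lit 0xd1) (nat_lit 0) (p (nat_lit 0x81) (nat_lit 0) (p (nat_lit 0x41) (nat_lit 1) (p (nat_lit 0x10a0b0a89089a) (nat_lit 0) (p (nat_lit 0x98a8a08881a) (nat_lit 0) (p (nat_lit 0x109088988079a) (nat_lit 0) (p (nat_lit 0x8880907871a) (nat_lit 0) (p (nat_lit 0x8000000000800080887068a) (nat_lit 0) (p (nat_lit 0x10888068602) (nat_lit 0) (p (nat_lit 0x807860582) (nat_lit 0) (p (nat_lit 0x10607058502) (nat_lit 0) (p (nat_lit 0x586850482)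 (nat_lit 0) (p (nat_lit 0x16000c) (nat_lit 0) (p (nat_lit 0x68612) (nat_lit 0) (p (nat_lit 0x50592) (nat_lit 0) (p (nat_lit 0x40512) (nat_lit 0) (p (nat_lit 0x50312) (nat_lit 0) (p (nat_lit 0x38292) (nat_lit 0) (p (nat_lit 0x28212) (nat_lit 0) (p (nat_lit 0x38112) (nat_lit 0) (p (nat_lit 0x20092) (nat_lit 0) (p (nat_lit 0x10012) (nat_lit 0) pn))))))))))))))))))))))))))))))) :=
  Cl.node (nat_lit 0x101) (nat_lit 2) (by decide +kernel) (ClAll.succ (ClAll.succ ClAll.zero n128) n129)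

def n189 : Cl (O (nat_lit 5)) (R (nat_lit 14353))
    (p (nat_lit 0xb000c) (nat_lit 1) (p (nat_lit 0x100004) (nat_lit 0) (p (nat_lit 0x200004) (nat_lit 0) (p (nat_lit 0x380c2) (nat_lit 1) (p (nat_lit 0x3c4aa) (nat_lit 7) (p (nat_lit 0x89) (nat_lit 1) (p (nat_lit 0x101) (nat_lit 1) (p (nat_lit 0xc1) (nat_lit 1) (p (nat_lit 0x119) (nat_lit 1) (p (nat_lit 0xd1) (nat_lit 0) (p (nat_lit 0x81) (nat_lit 0) (p (nat_lit 0x41) (nat_lit 1) (p (nat_lit 0x10a0b0a89089a) (nat_lit 0) (p (nat_lit 0x98a8a08881a) (nat_lit 0) (p (nat_lit 0x109088988079a) (nat_lit 0) (p (nat_lit 0x8880907871a) (nat_lit 0) (p (nat_lit 0x8000000000800080887068a) (nat_lit 0) (p (nat_lit 0x10888068602) (nat_lit 0) (p (nat_lit 0x807860582) (nat_lit 0) (p (nat_lit 0x10607058502) (nat_lit 0) (p (nat_lit 0x586850482) (nat_lit 0) (p (nat_lit 0x16000c) (nat_lit 0) (p (nat_lit 0x68612) (nat_lit 0) (p (nat_lit 0x50592)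 (nat_lit 0) (p (nat_lit 0x40512) (nat_lit 0) (p (nat_lit 0x50312) (nat_lit 0) (p (nat_lit 0x38292) (nat_lit 0) (p (nat_lit 0x28212) (nat_lit 0) (p (nat_lit 0x38112) (nat_lit 0) (p (nat_lit 0x20092) (nat_lit 0) (p (nat_lit 0x10012) (nat_lit 0) pn))))))))))))))))))))))))))))))) :=
  Cl.node (nat_lit 0x1fc014) (nat_lit 2) (by decide +kernel) (ClAll.succ (ClAll.succ ClAll.zero n130) s927)

def n190 : Cl (O (nat_lit 5)) (R (nat_lit 14353))
    (p (nat_lit 0x1fc014) (nat_lit 0) (p (nat_lit 0x1fc004) (nat_lit 0) (p (nat_lit 0xb000c) (nat_lit 1) (p (nat_lit 0x380c2) (nat_lit 1) (p (nat_lit 0x3c4aa) (nat_lit 10) (p (nat_lit 0x89) (nat_lit 1) (p (nat_lit 0x101) (nat_lit 1) (p (nat_lit 0xc1) (nat_lit 1) (p (nat_lit 0x119) (nat_lit 1) (p (nat_lit 0xd1) (nat_lit 0) (p (nat_lit 0x81) (nat_lit 0) (p (nat_lit 0x41) (nat_lit 1) (p (nat_lit 0x10a0b0a89089a) (nat_lit 0) (p (nat_lit 0x98a8a08881a)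 (nat_lit 0) (p (nat_lit 0x109088988079a) (nat_lit 0) (p (nat_lit 0x8880907871a) (nat_lit 0) (p (nat_lit 0x8000000000800080887068a) (nat_lit 0) (p (nat_lit 0x10888068602) (nat_lit 0) (p (nat_lit 0x807860582) (nat_lit 0) (p (nat_lit 0x10607058502) (nat_lit 0) (p (nat_lit 0x586850482) (nat_lit 0) (p (nat_lit 0x16000c) (nat_lit 0) (p (nat_lit 0x68612) (nat_lit 0) (p (nat_lit 0x50592) (nat_lit 0) (p (nat_lit 0x40512) (nat_lit 0) (p (nat_lit 0x50312) (nat_lit 0) (p (nat_lit 0x38292) (nat_lit 0) (p (nat_lit 0x28212) (nat_lit 0) (p (nat_lit 0x38112) (nat_lit 0) (p (nat_lit 0x20092) (nat_lit 0) (p (nat_lit 0x10012) (nat_lit 0) pn))))))))))))))))))))))))))))))) :=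
  Cl.node (nat_lit 0x100014) (nat_lit 2) (by decide +kernel) (ClAll.succ (ClAll.succ ClAll.zero n131) s940)

def n191 : Cl (O (nat_lit 5)) (R (nat_lit 14353))
    (p (nat_lit 0x89) (nat_lit 1) (p (nat_lit 0x41) (nat_lit 0) (p (nat_lit 0xb000c) (nat_lit 0) (p (nat_lit 0x380c2) (nat_lit 0) (p (nat_lit 0x3cc2a) (nat_lit 0) (p (nat_lit 0x109) (nat_lit 0) (p (nat_lit 0xc9) (nat_lit 1) (p (nat_lit 0x89) (nat_lit 1) (p (nat_lit 0x111) (nat_lit 1) (p (nat_lit 0xd1) (nat_lit 1) (p (nat_lit 0x81) (nat_lit 0) (p (nat_lit 0x41) (nat_lit 1) (p (nat_lit 0x10a0b0a89089a) (nat_lit 0) (p (nat_lit 0x98a8a08881a) (nat_lit 0) (p (nat_lit 0x109088988079a) (nat_lit 0) (p (nat_lit 0x8880907871a) (nat_lit 0) (p (nat_lit 0x8000000000800080887068a) (nat_lit 0) (p (nat_lit 0x10888068602) (nat_lit 0) (p (nat_lit 0x807860582) (nat_lit 0) (p (nat_lit 0x10607058502) (nat_lit 0) (p (nat_lit 0x586850482)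 (nat_lit 0) (p (nat_lit 0x16000c) (nat_lit 0) (p (nat_lit 0x68612) (nat_lit 0) (p (nat_lit 0x50592) (nat_lit 0) (p (nat_lit 0x40512) (nat_lit 0) (p (nat_lit 0x50312) (nat_lit 0) (p (nat_lit 0x38292) (nat_lit 0) (p (nat_lit 0x28212) (nat_lit 0) (p (nat_lit 0x38112) (nat_lit 0) (p (nat_lit 0x20092) (nat_lit 0) (p (nat_lit 0x10012) (nat_lit 0) pn))))))))))))))))))))))))))))))) :=
  Cl.node (nat_lit 0x109) (nat_lit 2) (by decide +kernel) (ClAll.succ (ClAll.succ ClAll.zero s1094) s1095)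

def n192 : Cl (O (nat_lit 5)) (R (nat_lit 14353))
    (p (nat_lit 0x200004) (nat_lit 0) (p (nat_lit 0xb000c) (nat_lit 0) (p (nat_lit 0x380c2) (nat_lit 0) (p (nat_lit 0x3c4aa) (nat_lit 7) (p (nat_lit 0xd1) (nat_lit 1) (p (nat_lit 0x111) (nat_lit 1) (p (nat_lit 0x109) (nat_lit 0) (p (nat_lit 0x101) (nat_lit 0) (p (nat_lit 0x119) (nat_lit 0) (p (nat_lit 0xc1) (nat_lit 0) (p (nat_lit 0x81) (nat_lit 1) (p (nat_lit 0x41) (nat_lit 1) (p (nat_lit 0x10a0b0a89089a) (nat_lit 0) (p (nat_lit 0x98a8a08881a) (nat_lit 0) (p (nat_lit 0x109088988079a) (nat_lit 0) (p (nat_lit 0x8880907871a) (nat_lit 0) (p (nat_lit 0x8000000000800080887068a) (nat_lit 0) (p (nat_lit 0x10888068602) (nat_lit 0) (p (nat_lit 0x807860582) (nat_lit 0) (p (nat_lit 0x10607058502) (nat_lit 0) (p (nat_lit 0x586850482) (nat_lit 0) (p (nat_lit 0x16000c) (nat_lit 0) (p (nat_lit 0x68612) (nat_lit 0) (p (nat_lit 0x50592)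 (nat_lit 0) (p (nat_lit 0x40512) (nat_lit 0) (p (nat_lit 0x50312) (nat_lit 0) (p (nat_lit 0x38292) (nat_lit 0) (p (nat_lit 0x28212) (nat_lit 0) (p (nat_lit 0x38112) (nat_lit 0) (p (nat_lit 0x20092) (nat_lit 0) (p (nat_lit 0x10012) (nat_lit 0) pn))))))))))))))))))))))))))))))) :=
  Cl.node (nat_lit 0xc9) (nat_lit 2) (by decide +kernel) (ClAll.succ (ClAll.succ ClAll.zero n132) n133)

def n193 : Cl (O (nat_lit 5)) (R (nat_lit 14353))
    (p (nat_lit 0xc9) (nat_lit 0) (p (nat_lit 0xb000c) (nat_lit 0) (p (nat_lit 0x380c2) (nat_lit 1) (p (nat_lit 0x3c4aa) (nat_lit 7) (p (nat_lit 0xd1) (nat_lit 1) (p (nat_lit 0x111) (nat_lit 1) (p (nat_lit 0x109) (nat_lit 0) (p (nat_lit 0x101) (nat_lit 0) (p (nat_lit 0x119) (nat_lit 0) (p (nat_lit 0xc1) (nat_lit 0) (p (nat_lit 0x81) (nat_lit 1) (p (nat_lit 0x41) (nat_lit 1) (p (nat_lit 0x10a0b0a89089a) (nat_lit 0) (p (nat_lit 0x98a8a08881a) (nat_lit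 0) (p (nat_lit 0x109088988079a) (nat_lit 0) (p (nat_lit 0x8880907871a) (nat_lit 0) (p (nat_lit 0x8000000000800080887068a) (nat_lit 0) (p (nat_lit 0x10888068602) (nat_lit 0) (p (nat_lit 0x807860582) (nat_lit 0) (p (nat_lit 0x10607058502) (nat_lit 0) (p (nat_lit 0x586850482) (nat_lit 0) (p (nat_lit 0x16000c) (nat_lit 0) (p (nat_lit 0x68612) (nat_lit 0) (p (nat_lit 0x50592) (nat_lit 0) (p (nat_lit 0x40512) (nat_lit 0) (p (nat_lit 0x50312) (nat_lit 0) (p (nat_lit 0x38292) (nat_lit 0) (p (nat_lit 0x28212) (nat_lit 0) (p (nat_lit 0x38112) (nat_lit 0) (p (nat_lit 0x20092) (nat_lit 0) (p (nat_lit 0x10012) (nat_lit 0) pn))))))))))))))))))))))))))))))) :=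
  Cl.node (nat_lit 0x3cc2a) (nat_lit 12) (by decide +kernel) (ClAll.succ (ClAll.succ (ClAll.succ (ClAll.succ (ClAll.succ (ClAll.succ (ClAll.succ (ClAll.succ (ClAll.succ (ClAll.succ (ClAll.succ (ClAll.succ ClAll.zero n134) s1147) s1148) s1149) s1150) s1151) s1152) s1153) s1154) s1155) s1156) s1157)

def n194 : Cl (O (nat_lit 5)) (R (nat_lit 14353))
    (p (nat_lit 0xc9) (nat_lit 1) (p (nat_lit 0xb000c) (nat_lit 0) (p (nat_lit 0x380c2) (nat_lit 1) (p (nat_lit 0x3c4aa) (nat_lit 7) (p (nat_lit 0xd1) (nat_lit 1) (p (nat_lit 0x111) (nat_lit 1) (p (nat_lit 0x109) (nat_lit 0) (p (nat_lit 0x101) (nat_lit 0) (p (nat_lit 0x119) (nat_lit 0) (p (nat_lit 0xc1) (nat_lit 0) (p (nat_lit 0x81) (nat_lit 1) (p (nat_lit 0x41) (nat_lit 1) (p (nat_lit 0x10a0b0a89089a) (nat_lit 0) (p (nat_lit 0x98a8a08881a) (nat_lit 0) (p (nat_lit 0x109088988079a) (nat_lit 0) (p (nat_lit 0x8880907871a) (nat_lit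 0) (p (nat_lit 0x8000000000800080887068a) (nat_lit 0) (p (nat_lit 0x10888068602) (nat_lit 0) (p (nat_lit 0x807860582) (nat_lit 0) (p (nat_lit 0x10607058502) (nat_lit 0) (p (nat_lit 0x586850482) (nat_lit 0) (p (nat_lit 0x16000c) (nat_lit 0) (p (nat_lit 0x68612) (nat_lit 0) (p (nat_lit 0x50592) (nat_lit 0) (p (nat_lit 0x40512) (nat_lit 0) (p (nat_lit 0x50312) (nat_lit 0) (p (nat_lit 0x38292) (nat_lit 0) (p (nat_lit 0x28212) (nat_lit 0) (p (nat_lit 0x38112) (nat_lit 0) (p (nat_lit 0x20092) (nat_lit 0) (p (nat_lit 0x10012) (nat_lit 0) pn))))))))))))))))))))))))))))))) :=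
  Cl.node (nat_lit 0x200004) (nat_lit 2) (by decide +kernel) (ClAll.succ (ClAll.succ ClAll.zero n135) s1161)

def n195 : Cl (O (nat_lit 5)) (R (nat_lit 14353))
    (p (nat_lit 0x1fc004) (nat_lit 0) (p (nat_lit 0xb000c) (nat_lit 1) (p (nat_lit 0x380c2) (nat_lit 1) (p (nat_lit 0x3c4aa) (nat_lit 7) (p (nat_lit 0xd1) (nat_lit 1) (p (nat_lit 0x111) (nat_lit 1) (p (nat_lit 0x109) (nat_lit 0) (p (nat_lit 0x101) (nat_lit 0) (p (nat_lit 0x119) (nat_lit 0) (p (nat_lit 0xc1) (nat_lit 0) (p (nat_lit 0x81) (nat_lit 1) (p (nat_lit 0x41) (nat_lit 1) (p (nat_lit 0x10a0b0a89089a) (nat_lit 0) (p (nat_lit 0x98a8a08881a) (nat_lit 0) (p (nat_lit 0x109088988079a) (nat_lit 0) (p (nat_lit 0x8880907871a) (nat_lit 0) (p (nat_lit 0x8000000000800080887068a) (nat_lit 0) (p (nat_lit 0x10888068602) (nat_lit 0) (p (nat_lit 0x807860582) (nat_lit 0) (p (nat_lit 0x10607058502) (nat_lit 0) (p (nat_lit 0x586850482)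 (nat_lit 0) (p (nat_lit 0x16000c) (nat_lit 0) (p (nat_lit 0x68612) (nat_lit 0) (p (nat_lit 0x50592) (nat_lit 0) (p (nat_lit 0x40512) (nat_lit 0) (p (nat_lit 0x50312) (nat_lit 0) (p (nat_lit 0x38292) (nat_lit 0) (p (nat_lit 0x28212) (nat_lit 0) (p (nat_lit 0x38112) (nat_lit 0) (p (nat_lit 0x20092) (nat_lit 0) (p (nat_lit 0x10012) (nat_lit 0) pn))))))))))))))))))))))))))))))) :=
  Cl.node (nat_lit 0x1fc014) (nat_lit 2) (by decide +kernel) (ClAll.succ (ClAll.succ ClAll.zero n136) s1168)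

def n196 : Cl (O (nat_lit 5)) (R (nat_lit 14353))
    (p (nat_lit 0x200004) (nat_lit 0) (p (nat_lit 0xb000c) (nat_lit 0) (p (nat_lit 0x380c2) (nat_lit 1) (p (nat_lit 0x3c4aa) (nat_lit 10) (p (nat_lit 0xd1) (nat_lit 1) (p (nat_lit 0x111) (nat_lit 1) (p (nat_lit 0x109) (nat_lit 0) (p (nat_lit 0x101) (nat_lit 0) (p (nat_lit 0x119) (nat_lit 0) (p (nat_lit 0xc1) (nat_lit 0) (p (nat_lit 0x81) (nat_lit 1) (p (nat_lit 0x41) (nat_lit 1) (p (nat_lit 0x10a0b0a89089a) (nat_lit 0) (p (nat_lit 0x98a8a08881a) (nat_lit 0) (p (nat_lit 0x109088988079a) (nat_lit 0) (p (nat_lit 0x8880907871a) (nat_lit 0) (p (nat_lit 0x8000000000800080887068a) (nat_lit 0) (p (nat_lit 0x10888068602) (nat_lit 0) (p (nat_lit 0x807860582) (nat_lit 0) (p (nat_lit 0x10607058502) (nat_lit 0) (p (nat_lit 0x586850482) (nat_lit 0) (p (nat_lit 0x16000c) (nat_lit 0) (p (nat_lit 0x68612) (nat_lit 0) (p (nat_lit 0x50592)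 (nat_lit 0) (p (nat_lit 0x40512) (nat_lit 0) (p (nat_lit 0x50312) (nat_lit 0) (p (nat_lit 0x38292) (nat_lit 0) (p (nat_lit 0x28212) (nat_lit 0) (p (nat_lit 0x38112) (nat_lit 0) (p (nat_lit 0x20092) (nat_lit 0) (p (nat_lit 0x10012) (nat_lit 0) pn))))))))))))))))))))))))))))))) :=
  Cl.node (nat_lit 0x200014) (nat_lit 2) (by decide +kernel) (ClAll.succ (ClAll.succ ClAll.zero s1173) n137)

def n197 : Cl (O (nat_lit 5)) (R (nat_lit 14353))
    (p (nat_lit 0x119) (nat_lit 1) (p (nat_lit 0xb000c) (nat_lit 0) (p (nat_lit 0x380c2) (nat_lit 0) (p (nat_lit 0x3c4aa) (nat_lit 7) (p (nat_lit 0xd1) (nat_lit 1) (p (nat_lit 0xc9) (nat_lit 0) (p (nat_lit 0x109) (nat_lit 1) (p (nat_lit 0x101) (nat_lit 0) (p (nat_lit 0x119) (nat_lit 0) (p (nat_lit 0xc1) (nat_lit 0) (p (nat_lit 0x81) (nat_lit 1) (p (nat_lit 0x41) (nat_lit 1) (p (nat_lit 0x10a0b0a89089a) (nat_lit 0) (p (nat_lit 0x98a8a08881a)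 (nat_lit 0) (p (nat_lit 0x109088988079a) (nat_lit 0) (p (nat_lit 0x8880907871a) (nat_lit 0) (p (nat_lit 0x8000000000800080887068a) (nat_lit 0) (p (nat_lit 0x10888068602) (nat_lit 0) (p (nat_lit 0x807860582) (nat_lit 0) (p (nat_lit 0x10607058502) (nat_lit 0) (p (nat_lit 0x586850482) (nat_lit 0) (p (nat_lit 0x16000c) (nat_lit 0) (p (nat_lit 0x68612) (nat_lit 0) (p (nat_lit 0x50592) (nat_lit 0) (p (nat_lit 0x40512) (nat_lit 0) (p (nat_lit 0x50312) (nat_lit 0) (p (nat_lit 0x38292) (nat_lit 0) (p (nat_lit 0x28212) (nat_lit 0) (p (nat_lit 0x38112) (nat_lit 0) (p (nat_lit 0x20092) (nat_lit 0) (p (nat_lit 0x10012) (nat_lit 0) pn))))))))))))))))))))))))))))))) :=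
  Cl.node (nat_lit 0x200004) (nat_lit 2) (by decide +kernel) (ClAll.succ (ClAll.succ ClAll.zero n138) s1193)

def n198 : Cl (O (nat_lit 5)) (R (nat_lit 14353))
    (p (nat_lit 0x200004) (nat_lit 0) (p (nat_lit 0xb000c) (nat_lit 0) (p (nat_lit 0x380c2) (nat_lit 1) (p (nat_lit 0x3c4aa) (nat_lit 7) (p (nat_lit 0xd1) (nat_lit 1) (p (nat_lit 0xc9) (nat_lit 0) (p (nat_lit 0x109) (nat_lit 1) (p (nat_lit 0x101) (nat_lit 0) (p (nat_lit 0x119) (nat_lit 0) (p (nat_lit 0xc1) (nat_lit 0) (p (nat_lit 0x81) (nat_lit 1) (p (nat_lit 0x41) (nat_lit 1) (p (nat_lit 0x10a0b0a89089a) (nat_lit 0) (p (nat_lit 0x98a8a08881a) (nat_lit 0) (p (nat_lit 0x109088988079a) (nat_lit 0) (p (nat_lit 0x8880907871a) (nat_lit 0) (p (nat_lit 0x8000000000800080887068a) (nat_lit 0) (p (nat_lit 0x10888068602) (nat_lit 0) (p (nat_lit 0x807860582) (nat_lit 0) (p (nat_lit 0x10607058502) (nat_lit 0) (p (nat_lit 0x586850482)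 (nat_lit 0) (p (nat_lit 0x16000c) (nat_lit 0) (p (nat_lit 0x68612) (nat_lit 0) (p (nat_lit 0x50592) (nat_lit 0) (p (nat_lit 0x40512) (nat_lit 0) (p (nat_lit 0x50312) (nat_lit 0) (p (nat_lit 0x38292) (nat_lit 0) (p (nat_lit 0x28212) (nat_lit 0) (p (nat_lit 0x38112) (nat_lit 0) (p (nat_lit 0x20092) (nat_lit 0) (p (nat_lit 0x10012) (nat_lit 0) pn))))))))))))))))))))))))))))))) :=
  Cl.node (nat_lit 0x119) (nat_lit 2) (by decide +kernel) (ClAll.succ (ClAll.succ ClAll.zero s1195) n139)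

def n199 : Cl (O (nat_lit 5)) (R (nat_lit 14353))
    (p (nat_lit 0x1fc004) (nat_lit 0) (p (nat_lit 0xb000c) (nat_lit 1) (p (nat_lit 0x380c2) (nat_lit 1) (p (nat_lit 0x3c4aa) (nat_lit 7) (p (nat_lit 0xd1) (nat_lit 1) (p (nat_lit 0xc9) (nat_lit 0) (p (nat_lit 0x109) (nat_lit 1) (p (nat_lit 0x101) (nat_lit 0) (p (nat_lit 0x119) (nat_lit 0) (p (nat_lit 0xc1) (nat_lit 0) (p (nat_lit 0x81) (nat_lit 1) (p (nat_lit 0x41) (nat_lit 1) (p (nat_lit 0x10a0b0a89089a) (nat_lit 0) (p (nat_lit 0x98a8a08881a) (nat_lit 0) (p (nat_lit 0x109088988079a) (nat_lit 0) (p (nat_lit 0x8880907871a) (nat_lit 0) (p (nat_lit 0x8000000000800080887068a) (nat_lit 0) (p (nat_lit 0x10888068602) (nat_lit 0) (p (nat_lit 0x807860582) (nat_lit 0) (p (nat_lit 0x10607058502) (nat_lit 0) (p (nat_lit 0x586850482) (nat_lit 0) (p (nat_lit 0x16000c) (nat_lit 0) (p (nat_lit 0x68612) (nat_lit 0) (p (nat_lit 0x50592) (nat_lit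 0) (p (nat_lit 0x40512) (nat_lit 0) (p (nat_lit 0x50312) (nat_lit 0) (p (nat_lit 0x38292) (nat_lit 0) (p (nat_lit 0x28212) (nat_lit 0) (p (nat_lit 0x38112) (nat_lit 0) (p (nat_lit 0x20092) (nat_lit 0) (p (nat_lit 0x10012) (nat_lit 0) pn))))))))))))))))))))))))))))))) :=
  Cl.node (nat_lit 0x1fc014) (nat_lit 2) (by decide +kernel) (ClAll.succ (ClAll.succ ClAll.zero n140) s1202)

def n200 : Cl (O (nat_lit 5)) (R (nat_lit 14353))
    (p (nat_lit 0x380c2) (nat_lit 1) (p (nat_lit 0x3c4aa) (nat_lit 7) (p (nat_lit 0xc9) (nat_lit 1) (p (nat_lit 0x380c2) (nat_lit 0) (p (nat_lit 0x44c2a) (nat_lit 0) (p (nat_lit 0xd1) (nat_lit 0) (p (nat_lit 0xc9) (nat_lit 0) (p (nat_lit 0x101) (nat_lit 1) (p (nat_lit 0x119) (nat_lit 0) (p (nat_lit 0xc1) (nat_lit 0) (p (nat_lit 0x81) (nat_lit 1) (p (nat_lit 0x41) (nat_lit 1) (p (nat_lit 0x10a0b0a89089a) (nat_lit 0) (p (nat_lit 0x98a8a08881a) (nat_lit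 0) (p (nat_lit 0x109088988079a) (nat_lit 0) (p (nat_lit 0x8880907871a) (nat_lit 0) (p (nat_lit 0x8000000000800080887068a) (nat_lit 0) (p (nat_lit 0x10888068602) (nat_lit 0) (p (nat_lit 0x807860582) (nat_lit 0) (p (nat_lit 0x10607058502) (nat_lit 0) (p (nat_lit 0x586850482) (nat_lit 0) (p (nat_lit 0x16000c) (nat_lit 0) (p (nat_lit 0x68612) (nat_lit 0) (p (nat_lit 0x50592) (nat_lit 0) (p (nat_lit 0x40512) (nat_lit 0) (p (nat_lit 0x50312) (nat_lit 0) (p (nat_lit 0x38292) (nat_lit 0) (p (nat_lit 0x28212) (nat_lit 0) (p (nat_lit 0x38112) (nat_lit 0) (p (nat_lit 0x20092) (nat_lit 0) (p (nat_lit 0x10012) (nat_lit 0) pn))))))))))))))))))))))))))))))) :=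
  Cl.node (nat_lit 0xb000c) (nat_lit 2) (by decide +kernel) (ClAll.succ (ClAll.succ ClAll.zero n141) s1221)

def n201 : Cl (O (nat_lit 5)) (R (nat_lit 14353))
    (p (nat_lit 0x200004) (nat_lit 0) (p (nat_lit 0xc1) (nat_lit 0) (p (nat_lit 0xb000c) (nat_lit 0) (p (nat_lit 0x380c2) (nat_lit 0) (p (nat_lit 0x3c4aa) (nat_lit 7) (p (nat_lit 0xd1) (nat_lit 1) (p (nat_lit 0xc9) (nat_lit 0) (p (nat_lit 0x101) (nat_lit 1) (p (nat_lit 0x119) (nat_lit 0) (p (nat_lit 0xc1) (nat_lit 0) (p (nat_lit 0x81) (nat_lit 1) (p (nat_lit 0x41) (nat_lit 1) (p (nat_lit 0x10a0b0a89089a) (nat_lit 0) (p (nat_lit 0x98a8a08881a) (nat_lit 0) (p (nat_lit 0x109088988079a) (nat_lit 0) (p (nat_lit 0x8880907871a) (nat_lit 0) (p (nat_lit 0x8000000000800080887068a) (nat_lit 0) (p (nat_lit 0x10888068602) (nat_lit 0) (p (nat_lit 0x807860582) (nat_lit 0) (p (nat_lit 0x10607058502) (nat_lit 0) (p (nat_lit 0x586850482)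 (nat_lit 0) (p (nat_lit 0x16000c) (nat_lit 0) (p (nat_lit 0x68612) (nat_lit 0) (p (nat_lit 0x50592) (nat_lit 0) (p (nat_lit 0x40512) (nat_lit 0) (p (nat_lit 0x50312) (nat_lit 0) (p (nat_lit 0x38292) (nat_lit 0) (p (nat_lit 0x28212) (nat_lit 0) (p (nat_lit 0x38112) (nat_lit 0) (p (nat_lit 0x20092) (nat_lit 0) (p (nat_lit 0x10012) (nat_lit 0) pn))))))))))))))))))))))))))))))) :=
  Cl.node (nat_lit 0x100004) (nat_lit 2) (by decide +kernel) (ClAll.succ (ClAll.succ ClAll.zero n142) s1250)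

def n202 : Cl (O (nat_lit 5)) (R (nat_lit 14353))
    (p (nat_lit 0x200004) (nat_lit 0) (p (nat_lit 0xc1) (nat_lit 0) (p (nat_lit 0xb000c) (nat_lit 0) (p (nat_lit 0x380c2) (nat_lit 1) (p (nat_lit 0x3c4aa) (nat_lit 7) (p (nat_lit 0xd1) (nat_lit 1) (p (nat_lit 0xc9) (nat_lit 0) (p (nat_lit 0x101) (nat_lit 1) (p (nat_lit 0x119) (nat_lit 0) (p (nat_lit 0xc1) (nat_lit 0) (p (nat_lit 0x81) (nat_lit 1) (p (nat_lit 0x41) (nat_lit 1) (p (nat_lit 0x10a0b0a89089a) (nat_lit 0) (p (nat_lit 0x98a8a08881a) (nat_lit 0) (p (nat_lit 0x109088988079a) (nat_lit 0) (p (nat_lit 0x8880907871a) (nat_lit 0) (p (nat_lit 0x8000000000800080887068a) (nat_lit 0) (p (nat_lit 0x10888068602) (nat_lit 0) (p (nat_lit 0x807860582) (nat_lit 0) (p (nat_lit 0x10607058502) (nat_lit 0) (p (nat_lit 0x586850482) (nat_lit 0) (p (nat_lit 0x16000c) (nat_lit 0) (p (nat_lit 0x68612) (nat_lit 0) (p (nat_lit 0x50592) (nat_lit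 0) (p (nat_lit 0x40512) (nat_lit 0) (p (nat_lit 0x50312) (nat_lit 0) (p (nat_lit 0x38292) (nat_lit 0) (p (nat_lit 0x28212) (nat_lit 0) (p (nat_lit 0x38112) (nat_lit 0) (p (nat_lit 0x20092) (nat_lit 0) (p (nat_lit 0x10012) (nat_lit 0) pn))))))))))))))))))))))))))))))) :=
  Cl.node (nat_lit 0x100004) (nat_lit 2) (by decide +kernel) (ClAll.succ (ClAll.succ ClAll.zero n143) s1269)

def n203 : Cl (O (nat_lit 5)) (R (nat_lit 14353))
    (p (nat_lit 0x1fc014) (nat_lit 0) (p (nat_lit 0x1fc004) (nat_lit 0) (p (nat_lit 0xb000c) (nat_lit 1) (p (nat_lit 0x380c2) (nat_lit 1) (p (nat_lit 0x3c4aa) (nat_lit 7) (p (nat_lit 0xd1) (nat_lit 1) (p (nat_lit 0xc9) (nat_lit 0) (p (nat_lit 0x101) (nat_lit 1) (p (nat_lit 0x119) (nat_lit 0) (p (nat_lit 0xc1) (nat_lit 0) (p (nat_lit 0x81) (nat_lit 1) (p (nat_lit 0x41) (nat_lit 1) (p (nat_lit 0x10a0b0a89089a) (nat_lit 0) (p (nat_lit 0x98a8a08881a) (nat_lit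 0) (p (nat_lit 0x109088988079a) (nat_lit 0) (p (nat_lit 0x8880907871a) (nat_lit 0) (p (nat_lit 0x8000000000800080887068a) (nat_lit 0) (p (nat_lit 0x10888068602) (nat_lit 0) (p (nat_lit 0x807860582) (nat_lit 0) (p (nat_lit 0x10607058502) (nat_lit 0) (p (nat_lit 0x586850482) (nat_lit 0) (p (nat_lit 0x16000c) (nat_lit 0) (p (nat_lit 0x68612) (nat_lit 0) (p (nat_lit 0x50592) (nat_lit 0) (p (nat_lit 0x40512) (nat_lit 0) (p (nat_lit 0x50312) (nat_lit 0) (p (nat_lit 0x38292) (nat_lit 0) (p (nat_lit 0x28212) (nat_lit 0) (p (nat_lit 0x38112) (nat_lit 0) (p (nat_lit 0x20092) (nat_lit 0) (p (nat_lit 0x10012) (nat_lit 0) pn))))))))))))))))))))))))))))))) :=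
  Cl.node (nat_lit 0x100004) (nat_lit 2) (by decide +kernel) (ClAll.succ (ClAll.succ ClAll.zero n144) s1276)

def n204 : Cl (O (nat_lit 5)) (R (nat_lit 14353))
    (p (nat_lit 0x200004) (nat_lit 0) (p (nat_lit 0x101) (nat_lit 0) (p (nat_lit 0xb000c) (nat_lit 0) (p (nat_lit 0x380c2) (nat_lit 0) (p (nat_lit 0x3c4aa) (nat_lit 7) (p (nat_lit 0x111) (nat_lit 1) (p (nat_lit 0xd1) (nat_lit 1) (p (nat_lit 0xc9) (nat_lit 0) (p (nat_lit 0x119) (nat_lit 1) (p (nat_lit 0xc1) (nat_lit 0) (p (nat_lit 0x81) (nat_lit 1) (p (nat_lit 0x41) (nat_lit 1) (p (nat_lit 0x10a0b0a89089a) (nat_lit 0) (p (nat_lit 0x98a8a08881a) (nat_lit 0) (p (nat_lit 0x109088988079a) (nat_lit 0) (p (nat_lit 0x8880907871a) (nat_lit 0) (p (nat_lit 0x8000000000800080887068a) (nat_lit 0) (p (nat_lit 0x10888068602) (nat_lit 0) (p (nat_lit 0x807860582) (nat_lit 0) (p (nat_lit 0x10607058502) (nat_lit 0) (p (nat_lit 0x586850482)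 (nat_lit 0) (p (nat_lit 0x16000c) (nat_lit 0) (p (nat_lit 0x68612) (nat_lit 0) (p (nat_lit 0x50592) (nat_lit 0) (p (nat_lit 0x40512) (nat_lit 0) (p (nat_lit 0x50312) (nat_lit 0) (p (nat_lit 0x38292) (nat_lit 0) (p (nat_lit 0x28212) (nat_lit 0) (p (nat_lit 0x38112) (nat_lit 0) (p (nat_lit 0x20092) (nat_lit 0) (p (nat_lit 0x10012) (nat_lit 0) pn))))))))))))))))))))))))))))))) :=
  Cl.node (nat_lit 0x100004) (nat_lit 2) (by decide +kernel) (ClAll.succ (ClAll.succ ClAll.zero n145) s1295)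

def n205 : Cl (O (nat_lit 5)) (R (nat_lit 14353))
    (p (nat_lit 0x200004) (nat_lit 0) (p (nat_lit 0x101) (nat_lit 0) (p (nat_lit 0xb000c) (nat_lit 0) (p (nat_lit 0x380c2) (nat_lit 1) (p (nat_lit 0x3c4aa) (nat_lit 7) (p (nat_lit 0x111) (nat_lit 1) (p (nat_lit 0xd1) (nat_lit 1) (p (nat_lit 0xc9) (nat_lit 0) (p (nat_lit 0x119) (nat_lit 1) (p (nat_lit 0xc1) (nat_lit 0) (p (nat_lit 0x81) (nat_lit 1) (p (nat_lit 0x41) (nat_lit 1) (p (nat_lit 0x10a0b0a89089a) (nat_lit 0) (p (nat_lit 0x98a8a08881a) (nat_lit 0) (p (nat_lit 0x109088988079a) (nat_lit 0) (p (nat_lit 0x8880907871a) (nat_lit 0) (p (nat_lit 0x8000000000800080887068a) (nat_lit 0) (p (nat_lit 0x10888068602) (nat_lit 0) (p (nat_lit 0x807860582) (nat_lit 0) (p (nat_lit 0x10607058502) (nat_lit 0) (p (nat_lit 0x586850482) (nat_lit 0) (p (nat_lit 0x16000c) (nat_lit 0) (p (nat_lit 0x68612) (nat_lit 0) (p (nat_lit 0x50592) (nat_lit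 0) (p (nat_lit 0x40512) (nat_lit 0) (p (nat_lit 0x50312) (nat_lit 0) (p (nat_lit 0x38292) (nat_lit 0) (p (nat_lit 0x28212) (nat_lit 0) (p (nat_lit 0x38112) (nat_lit 0) (p (nat_lit 0x20092) (nat_lit 0) (p (nat_lit 0x10012) (nat_lit 0) pn))))))))))))))))))))))))))))))) :=
  Cl.node (nat_lit 0x100004) (nat_lit 2) (by decide +kernel) (ClAll.succ (ClAll.succ ClAll.zero n146) s1302)

def n206 : Cl (O (nat_lit 5)) (R (nat_lit 14353))
    (p (nat_lit 0x1fc014) (nat_lit 0) (p (nat_lit 0x1fc004) (nat_lit 0) (p (nat_lit 0xb000c) (nat_lit 1) (p (nat_lit 0x380c2) (nat_lit 1) (p (nat_lit 0x3c4aa) (nat_lit 7) (p (nat_lit 0x111) (nat_lit 1) (p (nat_lit 0xd1) (nat_lit 1) (p (nat_lit 0xc9) (nat_lit 0) (p (nat_lit 0x119) (nat_lit 1) (p (nat_lit 0xc1) (nat_lit 0) (p (nat_lit 0x81) (nat_lit 1) (p (nat_lit 0x41) (nat_lit 1) (p (nat_lit 0x10a0b0a89089a) (nat_lit 0) (p (nat_lit 0x98a8a08881a) (nat_lit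 0) (p (nat_lit 0x109088988079a) (nat_lit 0) (p (nat_lit 0x8880907871a) (nat_lit 0) (p (nat_lit 0x8000000000800080887068a) (nat_lit 0) (p (nat_lit 0x10888068602) (nat_lit 0) (p (nat_lit 0x807860582) (nat_lit 0) (p (nat_lit 0x10607058502) (nat_lit 0) (p (nat_lit 0x586850482) (nat_lit 0) (p (nat_lit 0x16000c) (nat_lit 0) (p (nat_lit 0x68612) (nat_lit 0) (p (nat_lit 0x50592) (nat_lit 0) (p (nat_lit 0x40512) (nat_lit 0) (p (nat_lit 0x50312) (nat_lit 0) (p (nat_lit 0x38292) (nat_lit 0) (p (nat_lit 0x28212) (nat_lit 0) (p (nat_lit 0x38112) (nat_lit 0) (p (nat_lit 0x20092) (nat_lit 0) (p (nat_lit 0x10012) (nat_lit 0) pn))))))))))))))))))))))))))))))) :=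
  Cl.node (nat_lit 0x100004) (nat_lit 2) (by decide +kernel) (ClAll.succ (ClAll.succ ClAll.zero n147) s1307)

def n207 : Cl (O (nat_lit 5)) (R (nat_lit 14353))
    (p (nat_lit 0x111) (nat_lit 0) (p (nat_lit 0x101) (nat_lit 0) (p (nat_lit 0xb000c) (nat_lit 0) (p (nat_lit 0x380c2) (nat_lit 1) (p (nat_lit 0x3c4aa) (nat_lit 7) (p (nat_lit 0x111) (nat_lit 1) (p (nat_lit 0x109) (nat_lit 0) (p (nat_lit 0xc9) (nat_lit 1) (p (nat_lit 0x119) (nat_lit 1) (p (nat_lit 0xc1) (nat_lit 0) (p (nat_lit 0x81) (nat_lit 1) (p (nat_lit 0x41) (nat_lit 1) (p (nat_lit 0x10a0b0a89089a) (nat_lit 0) (p (nat_lit 0x98a8a08881a) (nat_lit 0) (p (nat_lit 0x109088988079a) (nat_lit 0) (p (nat_lit 0x8880907871a) (nat_lit 0) (p (nat_lit 0x8000000000800080887068a) (nat_lit 0) (p (nat_lit 0x10888068602) (nat_lit 0) (p (nat_lit 0x807860582) (nat_lit 0) (p (nat_lit 0x10607058502) (nat_lit 0) (p (nat_lit 0x586850482)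 (nat_lit 0) (p (nat_lit 0x16000c) (nat_lit 0) (p (nat_lit 0x68612) (nat_lit 0) (p (nat_lit 0x50592) (nat_lit 0) (p (nat_lit 0x40512) (nat_lit 0) (p (nat_lit 0x50312) (nat_lit 0) (p (nat_lit 0x38292) (nat_lit 0) (p (nat_lit 0x28212) (nat_lit 0) (p (nat_lit 0x38112) (nat_lit 0) (p (nat_lit 0x20092) (nat_lit 0) (p (nat_lit 0x10012) (nat_lit 0) pn))))))))))))))))))))))))))))))) :=
  Cl.node (nat_lit 0x44c2a) (nat_lit 12) (by decide +kernel) (ClAll.succ (ClAll.succ (ClAll.succ (ClAll.succ (ClAll.succ (ClAll.succ (ClAll.succ (ClAll.succ (ClAll.succ (ClAll.succ (ClAll.succ (ClAll.succ ClAll.zero s1342) s1343) s1344) s1345) s1346) s1347) s1348) s1349) s1350) s1351) s1352) s1353)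

def n208 : Cl (O (nat_lit 5)) (R (nat_lit 14353))
    (p (nat_lit 0x1fc014) (nat_lit 0) (p (nat_lit 0x1fc004) (nat_lit 0) (p (nat_lit 0xb000c) (nat_lit 1) (p (nat_lit 0x380c2) (nat_lit 1) (p (nat_lit 0x3c4aa) (nat_lit 7) (p (nat_lit 0x111) (nat_lit 1) (p (nat_lit 0x109) (nat_lit 0) (p (nat_lit 0xc9) (nat_lit 1) (p (nat_lit 0x119) (nat_lit 1) (p (nat_lit 0xc1) (nat_lit 0) (p (nat_lit 0x81) (nat_lit 1) (p (nat_lit 0x41) (nat_lit 1) (p (nat_lit 0x10a0b0a89089a) (nat_lit 0) (p (nat_lit 0x98a8a08881a) (nat_lit 0) (p (nat_lit 0x109088988079a) (nat_lit 0) (p (nat_lit 0x8880907871a) (nat_lit 0) (p (nat_lit 0x8000000000800080887068a) (nat_lit 0) (p (nat_lit 0x10888068602) (nat_lit 0) (p (nat_lit 0x807860582) (nat_lit 0) (p (nat_lit 0x10607058502) (nat_lit 0) (p (nat_lit 0x586850482) (nat_lit 0) (p (nat_lit 0x16000c) (nat_lit 0) (p (nat_lit 0x68612) (nat_lit 0) (p (nat_lit 0x50592)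 (nat_lit 0) (p (nat_lit 0x40512) (nat_lit 0) (p (nat_lit 0x50312) (nat_lit 0) (p (nat_lit 0x38292) (nat_lit 0) (p (nat_lit 0x28212) (nat_lit 0) (p (nat_lit 0x38112) (nat_lit 0) (p (nat_lit 0x20092) (nat_lit 0) (p (nat_lit 0x10012) (nat_lit 0) pn))))))))))))))))))))))))))))))) :=
  Cl.node (nat_lit 0x100004) (nat_lit 2) (by decide +kernel) (ClAll.succ (ClAll.succ ClAll.zero n148) s1358)

def n209 : Cl (O (nat_lit 5)) (R (nat_lit 14353))
    (p (nat_lit 0xb000c) (nat_lit 0) (p (nat_lit 0x380c2) (nat_lit 0) (p (nat_lit 0x444aa) (nat_lit 7) (p (nat_lit 0x81) (nat_lit 1) (p (nat_lit 0xc9) (nat_lit 1) (p (nat_lit 0x109) (nat_lit 1) (p (nat_lit 0x101) (nat_lit 0) (p (nat_lit 0x119) (nat_lit 0) (p (nat_lit 0xd1) (nat_lit 0) (p (nat_lit 0x89) (nat_lit 0) (p (nat_lit 0x41) (nat_lit 0) (p (nat_lit 0x10a0b0a89089a) (nat_lit 0) (p (nat_lit 0x98a8a08881a) (nat_lit 0) (p (nat_lit 0x109088988079a)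 (nat_lit 0) (p (nat_lit 0x8880907871a) (nat_lit 0) (p (nat_lit 0x8000000000800080887068a) (nat_lit 0) (p (nat_lit 0x10888068602) (nat_lit 0) (p (nat_lit 0x807860582) (nat_lit 0) (p (nat_lit 0x10607058502) (nat_lit 0) (p (nat_lit 0x586850482) (nat_lit 0) (p (nat_lit 0x16000c) (nat_lit 0) (p (nat_lit 0x68612) (nat_lit 0) (p (nat_lit 0x50592) (nat_lit 0) (p (nat_lit 0x40512) (nat_lit 0) (p (nat_lit 0x50312) (nat_lit 0) (p (nat_lit 0x38292) (nat_lit 0) (p (nat_lit 0x28212) (nat_lit 0) (p (nat_lit 0x38112) (nat_lit 0) (p (nat_lit 0x20092) (nat_lit 0) (p (nat_lit 0x10012) (nat_lit 0) pn)))))))))))))))))))))))))))))) :=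
  Cl.node (nat_lit 0x200004) (nat_lit 2) (by decide +kernel) (ClAll.succ (ClAll.succ ClAll.zero n149) s13)

def n210 : Cl (O (nat_lit 5)) (R (nat_lit 14353))
    (p (nat_lit 0xb000c) (nat_lit 1) (p (nat_lit 0x380c2) (nat_lit 0) (p (nat_lit 0x444aa) (nat_lit 7) (p (nat_lit 0x81) (nat_lit 1) (p (nat_lit 0xc9) (nat_lit 1) (p (nat_lit 0x109) (nat_lit 1) (p (nat_lit 0x101) (nat_lit 0) (p (nat_lit 0x119) (nat_lit 0) (p (nat_lit 0xd1) (nat_lit 0) (p (nat_lit 0x89) (nat_lit 0) (p (nat_lit 0x41) (nat_lit 0) (p (nat_lit 0x10a0b0a89089a) (nat_lit 0) (p (nat_lit 0x98a8a08881a) (nat_lit 0) (p (nat_lit 0x109088988079a) (nat_lit 0) (p (nat_lit 0x8880907871a) (nat_lit 0) (p (nat_lit 0x8000000000800080887068a) (nat_lit 0) (p (nat_lit 0x10888068602) (nat_lit 0) (p (nat_lit 0x807860582) (nat_lit 0) (p (nat_lit 0x10607058502) (nat_lit 0) (p (nat_lit 0x586850482) (nat_lit 0) (p (nat_lit 0x16000c)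 (nat_lit 0) (p (nat_lit 0x68612) (nat_lit 0) (p (nat_lit 0x50592) (nat_lit 0) (p (nat_lit 0x40512) (nat_lit 0) (p (nat_lit 0x50312) (nat_lit 0) (p (nat_lit 0x38292) (nat_lit 0) (p (nat_lit 0x28212) (nat_lit 0) (p (nat_lit 0x38112) (nat_lit 0) (p (nat_lit 0x20092) (nat_lit 0) (p (nat_lit 0x10012) (nat_lit 0) pn)))))))))))))))))))))))))))))) :=
  Cl.node (nat_lit 0x1fc004) (nat_lit 2) (by decide +kernel) (ClAll.succ (ClAll.succ ClAll.zero n150) s19)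

def n211 : Cl (O (nat_lit 5)) (R (nat_lit 14353))
    (p (nat_lit 0xb000c) (nat_lit 0) (p (nat_lit 0x380c2) (nat_lit 1) (p (nat_lit 0x444aa) (nat_lit 7) (p (nat_lit 0x81) (nat_lit 1) (p (nat_lit 0xc9) (nat_lit 1) (p (nat_lit 0x109) (nat_lit 1) (p (nat_lit 0x101) (nat_lit 0) (p (nat_lit 0x119) (nat_lit 0) (p (nat_lit 0xd1) (nat_lit 0) (p (nat_lit 0x89) (nat_lit 0) (p (nat_lit 0x41) (nat_lit 0) (p (nat_lit 0x10a0b0a89089a) (nat_lit 0) (p (nat_lit 0x98a8a08881a) (nat_lit 0) (p (nat_lit 0x109088988079a) (nat_lit 0) (p (nat_lit 0x8880907871a) (nat_lit 0) (p (nat_lit 0x8000000000800080887068a) (nat_lit 0) (p (nat_lit 0x10888068602) (nat_lit 0) (p (nat_lit 0x807860582) (nat_lit 0) (p (nat_lit 0x10607058502) (nat_lit 0) (p (nat_lit 0x586850482) (nat_lit 0) (p (nat_lit 0x16000c) (nat_lit 0) (p (nat_lit 0x68612) (nat_lit 0) (p (nat_lit 0x50592) (nat_lit 0) (p (nat_lit 0x40512) (nat_lit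 0) (p (nat_lit 0x50312) (nat_lit 0) (p (nat_lit 0x38292) (nat_lit 0) (p (nat_lit 0x28212) (nat_lit 0) (p (nat_lit 0x38112) (nat_lit 0) (p (nat_lit 0x20092) (nat_lit 0) (p (nat_lit 0x10012) (nat_lit 0) pn)))))))))))))))))))))))))))))) :=
  Cl.node (nat_lit 0x89) (nat_lit 2) (by decide +kernel) (ClAll.succ (ClAll.succ ClAll.zero s20) s21)

def n212 : Cl (O (nat_lit 5)) (R (nat_lit 14353))
    (p (nat_lit 0x200014) (nat_lit 0) (p (nat_lit 0x380c2) (nat_lit 0) (p (nat_lit 0x4c42a) (nat_lit 2) (p (nat_lit 0x111) (nat_lit 0) (p (nat_lit 0xc9) (nat_lit 0) (p (nat_lit 0x81) (nat_lit 0) (p (nat_lit 0x101) (nat_lit 1) (p (nat_lit 0x119) (nat_lit 0) (p (nat_lit 0xd1) (nat_lit 0) (p (nat_lit 0x89) (nat_lit 0) (p (nat_lit 0x41) (nat_lit 0) (p (nat_lit 0x10a0b0a89089a) (nat_lit 0) (p (nat_lit 0x98a8a08881a) (nat_lit 0) (p (nat_lit 0x109088988079a) (nat_lit 0) (p (nat_lit 0x8880907871a)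 (nat_lit 0) (p (nat_lit 0x8000000000800080887068a) (nat_lit 0) (p (nat_lit 0x10888068602) (nat_lit 0) (p (nat_lit 0x807860582) (nat_lit 0) (p (nat_lit 0x10607058502) (nat_lit 0) (p (nat_lit 0x586850482) (nat_lit 0) (p (nat_lit 0x16000c) (nat_lit 0) (p (nat_lit 0x68612) (nat_lit 0) (p (nat_lit 0x50592) (nat_lit 0) (p (nat_lit 0x40512) (nat_lit 0) (p (nat_lit 0x50312) (nat_lit 0) (p (nat_lit 0x38292) (nat_lit 0) (p (nat_lit 0x28212) (nat_lit 0) (p (nat_lit 0x38112) (nat_lit 0) (p (nat_lit 0x20092) (nat_lit 0) (p (nat_lit 0x10012) (nat_lit 0) pn)))))))))))))))))))))))))))))) :=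
  Cl.node (nat_lit 0xc1) (nat_lit 2) (by decide +kernel) (ClAll.succ (ClAll.succ ClAll.zero s29) n151)

def n213 : Cl (O (nat_lit 5)) (R (nat_lit 14353))
    (p (nat_lit 0xb000c) (nat_lit 0) (p (nat_lit 0x380c2) (nat_lit 0) (p (nat_lit 0x444aa) (nat_lit 7) (p (nat_lit 0x111) (nat_lit 0) (p (nat_lit 0xc9) (nat_lit 1) (p (nat_lit 0x81) (nat_lit 0) (p (nat_lit 0x101) (nat_lit 1) (p (nat_lit 0x119) (nat_lit 0) (p (nat_lit 0xd1) (nat_lit 0) (p (nat_lit 0x89) (nat_lit 0) (p (nat_lit 0x41) (nat_lit 0) (p (nat_lit 0x10a0b0a89089a) (nat_lit 0) (p (nat_lit 0x98a8a08881a) (nat_lit 0) (p (nat_lit 0x109088988079a) (nat_lit 0) (p (nat_lit 0x8880907871a) (nat_lit 0) (p (nat_lit 0x8000000000800080887068a) (nat_lit 0) (p (nat_lit 0x10888068602) (nat_lit 0) (p (nat_lit 0x807860582) (nat_lit 0) (p (nat_lit 0x10607058502) (nat_lit 0) (p (nat_lit 0x586850482) (nat_lit 0) (p (nat_lit 0x16000c)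 (nat_lit 0) (p (nat_lit 0x68612) (nat_lit 0) (p (nat_lit 0x50592) (nat_lit 0) (p (nat_lit 0x40512) (nat_lit 0) (p (nat_lit 0x50312) (nat_lit 0) (p (nat_lit 0x38292) (nat_lit 0) (p (nat_lit 0x28212) (nat_lit 0) (p (nat_lit 0x38112) (nat_lit 0) (p (nat_lit 0x20092) (nat_lit 0) (p (nat_lit 0x10012) (nat_lit 0) pn)))))))))))))))))))))))))))))) :=
  Cl.node (nat_lit 0x89) (nat_lit 2) (by decide +kernel) (ClAll.succ (ClAll.succ ClAll.zero s66) n152)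

def n214 : Cl (O (nat_lit 5)) (R (nat_lit 14353))
    (p (nat_lit 0xb000c) (nat_lit 0) (p (nat_lit 0x380c2) (nat_lit 1) (p (nat_lit 0x444aa) (nat_lit 7) (p (nat_lit 0x111) (nat_lit 0) (p (nat_lit 0xc9) (nat_lit 1) (p (nat_lit 0x81) (nat_lit 0) (p (nat_lit 0x101) (nat_lit 1) (p (nat_lit 0x119) (nat_lit 0) (p (nat_lit 0xd1) (nat_lit 0) (p (nat_lit 0x89) (nat_lit 0) (p (nat_lit 0x41) (nat_lit 0) (p (nat_lit 0x10a0b0a89089a) (nat_lit 0) (p (nat_lit 0x98a8a08881a) (nat_lit 0) (p (nat_lit 0x109088988079a) (nat_lit 0) (p (nat_lit 0x8880907871a) (nat_lit 0) (p (nat_lit 0x8000000000800080887068a) (nat_lit 0) (p (nat_lit 0x10888068602) (nat_lit 0) (p (nat_lit 0x807860582) (nat_lit 0) (p (nat_lit 0x10607058502) (nat_lit 0) (p (nat_lit 0x586850482) (nat_lit 0) (p (nat_lit 0x16000c) (nat_lit 0) (p (nat_lit 0x68612) (nat_lit 0) (p (nat_lit 0x50592) (nat_lit 0) (p (nat_lit 0x40512) (nat_lit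 0) (p (nat_lit 0x50312) (nat_lit 0) (p (nat_lit 0x38292) (nat_lit 0) (p (nat_lit 0x28212) (nat_lit 0) (p (nat_lit 0x38112) (nat_lit 0) (p (nat_lit 0x20092) (nat_lit 0) (p (nat_lit 0x10012) (nat_lit 0) pn)))))))))))))))))))))))))))))) :=
  Cl.node (nat_lit 0x200004) (nat_lit 2) (by decide +kernel) (ClAll.succ (ClAll.succ ClAll.zero n153) s72)

def n215 : Cl (O (nat_lit 5)) (R (nat_lit 14353))
    (p (nat_lit 0x200014) (nat_lit 0) (p (nat_lit 0x380c2) (nat_lit 0) (p (nat_lit 0x4c42a) (nat_lit 2) (p (nat_lit 0xc9) (nat_lit 0) (p (nat_lit 0xc1) (nat_lit 0) (p (nat_lit 0x81) (nat_lit 1) (p (nat_lit 0x101) (nat_lit 1) (p (nat_lit 0x119) (nat_lit 0) (p (nat_lit 0xd1) (nat_lit 0) (p (nat_lit 0x89) (nat_lit 0) (p (nat_lit 0x41) (nat_lit 0) (p (nat_lit 0x10a0b0a89089a) (nat_lit 0) (p (nat_lit 0x98a8a08881a) (nat_lit 0) (p (nat_lit 0x109088988079a) (nat_lit 0) (p (nat_lit 0x8880907871a)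 (nat_lit 0) (p (nat_lit 0x8000000000800080887068a) (nat_lit 0) (p (nat_lit 0x10888068602) (nat_lit 0) (p (nat_lit 0x807860582) (nat_lit 0) (p (nat_lit 0x10607058502) (nat_lit 0) (p (nat_lit 0x586850482) (nat_lit 0) (p (nat_lit 0x16000c) (nat_lit 0) (p (nat_lit 0x68612) (nat_lit 0) (p (nat_lit 0x50592) (nat_lit 0) (p (nat_lit 0x40512) (nat_lit 0) (p (nat_lit 0x50312) (nat_lit 0) (p (nat_lit 0x38292) (nat_lit 0) (p (nat_lit 0x28212) (nat_lit 0) (p (nat_lit 0x38112) (nat_lit 0) (p (nat_lit 0x20092) (nat_lit 0) (p (nat_lit 0x10012) (nat_lit 0) pn)))))))))))))))))))))))))))))) :=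
  Cl.node (nat_lit 0x111) (nat_lit 2) (by decide +kernel) (ClAll.succ (ClAll.succ ClAll.zero s83) n154)

def n216 : Cl (O (nat_lit 5)) (R (nat_lit 14353))
    (p (nat_lit 0xb000c) (nat_lit 0) (p (nat_lit 0x380c2) (nat_lit 0) (p (nat_lit 0x444aa) (nat_lit 7) (p (nat_lit 0xc9) (nat_lit 1) (p (nat_lit 0xc1) (nat_lit 0) (p (nat_lit 0x81) (nat_lit 1) (p (nat_lit 0x101) (nat_lit 1) (p (nat_lit 0x119) (nat_lit 0) (p (nat_lit 0xd1) (nat_lit 0) (p (nat_lit 0x89) (nat_lit 0) (p (nat_lit 0x41) (nat_lit 0) (p (nat_lit 0x10a0b0a89089a) (nat_lit 0) (p (nat_lit 0x98a8a08881a) (nat_lit 0) (p (nat_lit 0x109088988079a) (nat_lit 0) (p (nat_lit 0x8880907871a) (nat_lit 0) (p (nat_lit 0x8000000000800080887068a) (nat_lit 0) (p (nat_lit 0x10888068602) (nat_lit 0) (p (nat_lit 0x807860582) (nat_lit 0) (p (nat_lit 0x10607058502) (nat_lit 0) (p (nat_lit 0x586850482) (nat_lit 0) (p (nat_lit 0x16000c)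 (nat_lit 0) (p (nat_lit 0x68612) (nat_lit 0) (p (nat_lit 0x50592) (nat_lit 0) (p (nat_lit 0x40512) (nat_lit 0) (p (nat_lit 0x50312) (nat_lit 0) (p (nat_lit 0x38292) (nat_lit 0) (p (nat_lit 0x28212) (nat_lit 0) (p (nat_lit 0x38112) (nat_lit 0) (p (nat_lit 0x20092) (nat_lit 0) (p (nat_lit 0x10012) (nat_lit 0) pn)))))))))))))))))))))))))))))) :=
  Cl.node (nat_lit 0x119) (nat_lit 2) (by decide +kernel) (ClAll.succ (ClAll.succ ClAll.zero s103) s104)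

def n217 : Cl (O (nat_lit 5)) (R (nat_lit 14353))
    (p (nat_lit 0x101) (nat_lit 1) (p (nat_lit 0x81) (nat_lit 1) (p (nat_lit 0x380c2) (nat_lit 1) (p (nat_lit 0x3cc2a) (nat_lit 11) (p (nat_lit 0x109) (nat_lit 1) (p (nat_lit 0xc9) (nat_lit 1) (p (nat_lit 0xc1) (nat_lit 0) (p (nat_lit 0x119) (nat_lit 1) (p (nat_lit 0xd1) (nat_lit 0) (p (nat_lit 0x89) (nat_lit 0) (p (nat_lit 0x41) (nat_lit 0) (p (nat_lit 0x10a0b0a89089a) (nat_lit 0) (p (nat_lit 0x98a8a08881a) (nat_lit 0) (p (nat_lit 0x109088988079a) (nat_lit 0) (p (nat_lit 0x8880907871a) (nat_lit 0) (p (nat_lit 0x8000000000800080887068a) (nat_lit 0) (p (nat_lit 0x10888068602) (nat_lit 0) (p (nat_lit 0x807860582) (nat_lit 0) (p (nat_lit 0x10607058502) (nat_lit 0) (p (nat_lit 0x586850482) (nat_lit 0) (p (nat_lit 0x16000c) (nat_lit 0) (p (nat_lit 0x68612) (nat_lit 0) (p (nat_lit 0x50592) (nat_lit 0) (p (nat_lit 0x40512) (nat_lit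 0) (p (nat_lit 0x50312) (nat_lit 0) (p (nat_lit 0x38292) (nat_lit 0) (p (nat_lit 0x28212) (nat_lit 0) (p (nat_lit 0x38112) (nat_lit 0) (p (nat_lit 0x20092) (nat_lit 0) (p (nat_lit 0x10012) (nat_lit 0) pn)))))))))))))))))))))))))))))) :=
  Cl.node (nat_lit 0x444aa) (nat_lit 12) (by decide +kernel) (ClAll.succ (ClAll.succ (ClAll.succ (ClAll.succ (ClAll.succ (ClAll.succ (ClAll.succ (ClAll.succ (ClAll.succ (ClAll.succ (ClAll.succ (ClAll.succ ClAll.zero s133) s134) s135) s136) s137) s138) s139) n155) s142) s143) s144) s145)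

def n218 : Cl (O (nat_lit 5)) (R (nat_lit 14353))
    (p (nat_lit 0x101) (nat_lit 1) (p (nat_lit 0x380c2) (nat_lit 0) (p (nat_lit 0x44c2a) (nat_lit 0) (p (nat_lit 0x109) (nat_lit 0) (p (nat_lit 0x101) (nat_lit 0) (p (nat_lit 0x81) (nat_lit 1) (p (nat_lit 0xc1) (nat_lit 1) (p (nat_lit 0x119) (nat_lit 1) (p (nat_lit 0xd1) (nat_lit 0) (p (nat_lit 0x89) (nat_lit 0) (p (nat_lit 0x41) (nat_lit 0) (p (nat_lit 0x10a0b0a89089a) (nat_lit 0) (p (nat_lit 0x98a8a08881a) (nat_lit 0) (p (nat_lit 0x109088988079a) (nat_lit 0) (p (nat_lit 0x8880907871a) (nat_lit 0) (p (nat_lit 0x8000000000800080887068a) (nat_lit 0) (p (nat_lit 0x10888068602) (nat_lit 0) (p (nat_lit 0x807860582) (nat_lit 0) (p (nat_lit 0x10607058502) (nat_lit 0) (p (nat_lit 0x586850482) (nat_lit 0) (p (nat_lit 0x16000c) (nat_lit 0) (p (nat_lit 0x68612) (nat_lit 0) (p (nat_lit 0x50592) (nat_lit 0) (p (nat_lit 0x40512) (nat_lit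 0) (p (nat_lit 0x50312) (nat_lit 0) (p (nat_lit 0x38292) (nat_lit 0) (p (nat_lit 0x28212) (nat_lit 0) (p (nat_lit 0x38112) (nat_lit 0) (p (nat_lit 0x20092) (nat_lit 0) (p (nat_lit 0x10012) (nat_lit 0) pn)))))))))))))))))))))))))))))) :=
  Cl.node (nat_lit 0x444aa) (nat_lit 12) (by decide +kernel) (ClAll.succ (ClAll.succ (ClAll.succ (ClAll.succ (ClAll.succ (ClAll.succ (ClAll.succ (ClAll.succ (ClAll.succ (ClAll.succ (ClAll.succ (ClAll.succ ClAll.zero s175) s176) s177) s178) s179) s180) s181) s182) s183) s184) s185) s186)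

def n219 : Cl (O (nat_lit 5)) (R (nat_lit 14353))
    (p (nat_lit 0xb000c) (nat_lit 0) (p (nat_lit 0x380c2) (nat_lit 0) (p (nat_lit 0x44c2a) (nat_lit 2) (p (nat_lit 0x109) (nat_lit 0) (p (nat_lit 0x101) (nat_lit 0) (p (nat_lit 0x81) (nat_lit 1) (p (nat_lit 0xc1) (nat_lit 1) (p (nat_lit 0x119) (nat_lit 1) (p (nat_lit 0xd1) (nat_lit 0) (p (nat_lit 0x89) (nat_lit 0) (p (nat_lit 0x41) (nat_lit 0) (p (nat_lit 0x10a0b0a89089a) (nat_lit 0) (p (nat_lit 0x98a8a08881a) (nat_lit 0) (p (nat_lit 0x109088988079a) (nat_lit 0) (p (nat_lit 0x8880907871a) (nat_lit 0) (p (nat_lit 0x8000000000800080887068a) (nat_lit 0) (p (nat_lit 0x10888068602) (nat_lit 0) (p (nat_lit 0x807860582) (nat_lit 0) (p (nat_lit 0x10607058502) (nat_lit 0) (p (nat_lit 0x586850482) (nat_lit 0) (p (nat_lit 0x16000c) (nat_lit 0) (p (nat_lit 0x68612) (nat_lit 0) (p (nat_lit 0x50592) (nat_lit 0) (p (nat_lit 0x40512) (nat_lit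 0) (p (nat_lit 0x50312) (nat_lit 0) (p (nat_lit 0x38292) (nat_lit 0) (p (nat_lit 0x28212) (nat_lit 0) (p (nat_lit 0x38112) (nat_lit 0) (p (nat_lit 0x20092) (nat_lit 0) (p (nat_lit 0x10012) (nat_lit 0) pn)))))))))))))))))))))))))))))) :=
  Cl.node (nat_lit 0x41) (nat_lit 2) (by decide +kernel) (ClAll.succ (ClAll.succ ClAll.zero s188) n156)

def n220 : Cl (O (nat_lit 5)) (R (nat_lit 14353))
    (p (nat_lit 0xb000c) (nat_lit 0) (p (nat_lit 0x380c2) (nat_lit 0) (p (nat_lit 0x444aa) (nat_lit 7) (p (nat_lit 0x109) (nat_lit 1) (p (nat_lit 0x101) (nat_lit 0) (p (nat_lit 0x81) (nat_lit 1) (p (nat_lit 0xc1) (nat_lit 1) (p (nat_lit 0x119) (nat_lit 1) (p (nat_lit 0xd1) (nat_lit 0) (p (nat_lit 0x89) (nat_lit 0) (p (nat_lit 0x41) (nat_lit 0) (p (nat_lit 0x10a0b0a89089a) (nat_lit 0) (p (nat_lit 0x98a8a08881a) (nat_lit 0) (p (nat_lit 0x109088988079a) (nat_lit 0) (p (nat_lit 0x8880907871a)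 (nat_lit 0) (p (nat_lit 0x8000000000800080887068a) (nat_lit 0) (p (nat_lit 0x10888068602) (nat_lit 0) (p (nat_lit 0x807860582) (nat_lit 0) (p (nat_lit 0x10607058502) (nat_lit 0) (p (nat_lit 0x586850482) (nat_lit 0) (p (nat_lit 0x16000c) (nat_lit 0) (p (nat_lit 0x68612) (nat_lit 0) (p (nat_lit 0x50592) (nat_lit 0) (p (nat_lit 0x40512) (nat_lit 0) (p (nat_lit 0x50312) (nat_lit 0) (p (nat_lit 0x38292) (nat_lit 0) (p (nat_lit 0x28212) (nat_lit 0) (p (nat_lit 0x38112) (nat_lit 0) (p (nat_lit 0x20092) (nat_lit 0) (p (nat_lit 0x10012) (nat_lit 0) pn)))))))))))))))))))))))))))))) :=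
  Cl.node (nat_lit 0x200004) (nat_lit 2) (by decide +kernel) (ClAll.succ (ClAll.succ ClAll.zero n157) s212)

def n221 : Cl (O (nat_lit 5)) (R (nat_lit 14353))
    (p (nat_lit 0xb000c) (nat_lit 0) (p (nat_lit 0x380c2) (nat_lit 1) (p (nat_lit 0x444aa) (nat_lit 7) (p (nat_lit 0x109) (nat_lit 1) (p (nat_lit 0x101) (nat_lit 0) (p (nat_lit 0x81) (nat_lit 1) (p (nat_lit 0xc1) (nat_lit 1) (p (nat_lit 0x119) (nat_lit 1) (p (nat_lit 0xd1) (nat_lit 0) (p (nat_lit 0x89) (nat_lit 0) (p (nat_lit 0x41) (nat_lit 0) (p (nat_lit 0x10a0b0a89089a) (nat_lit 0) (p (nat_lit 0x98a8a08881a) (nat_lit 0) (p (nat_lit 0x109088988079a) (nat_lit 0) (p (nat_lit 0x8880907871a) (nat_lit 0) (p (nat_lit 0x8000000000800080887068a) (nat_lit 0) (p (nat_lit 0x10888068602) (nat_lit 0) (p (nat_lit 0x807860582) (nat_lit 0) (p (nat_lit 0x10607058502) (nat_lit 0) (p (nat_lit 0x586850482) (nat_lit 0) (p (nat_lit 0x16000c)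 (nat_lit 0) (p (nat_lit 0x68612) (nat_lit 0) (p (nat_lit 0x50592) (nat_lit 0) (p (nat_lit 0x40512) (nat_lit 0) (p (nat_lit 0x50312) (nat_lit 0) (p (nat_lit 0x38292) (nat_lit 0) (p (nat_lit 0x28212) (nat_lit 0) (p (nat_lit 0x38112) (nat_lit 0) (p (nat_lit 0x20092) (nat_lit 0) (p (nat_lit 0x10012) (nat_lit 0) pn)))))))))))))))))))))))))))))) :=
  Cl.node (nat_lit 0x200004) (nat_lit 2) (by decide +kernel) (ClAll.succ (ClAll.succ ClAll.zero n158) s218)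

def n222 : Cl (O (nat_lit 5)) (R (nat_lit 14353))
    (p (nat_lit 0x3cc2a) (nat_lit 0) (p (nat_lit 0x41) (nat_lit 0) (p (nat_lit 0x200014) (nat_lit 0) (p (nat_lit 0x200004) (nat_lit 0) (p (nat_lit 0xc1) (nat_lit 1) (p (nat_lit 0x109) (nat_lit 1) (p (nat_lit 0x101) (nat_lit 0) (p (nat_lit 0x111) (nat_lit 0) (p (nat_lit 0xd1) (nat_lit 1) (p (nat_lit 0x89) (nat_lit 0) (p (nat_lit 0x41) (nat_lit 0) (p (nat_lit 0x10a0b0a89089a) (nat_lit 0) (p (nat_lit 0x98a8a08881a) (nat_lit 0) (p (nat_lit 0x109088988079a) (nat_lit 0) (p (nat_lit 0x8880907871a) (nat_lit 0) (p (nat_lit 0x8000000000800080887068a) (nat_lit 0) (p (nat_lit 0x10888068602) (nat_lit 0) (p (nat_lit 0x807860582) (nat_lit 0) (p (nat_lit 0x10607058502) (nat_lit 0) (p (nat_lit 0x586850482) (nat_lit 0) (p (nat_lit 0x16000c) (nat_lit 0) (p (nat_lit 0x68612) (nat_lit 0) (p (nat_lit 0x50592) (nat_lit 0) (p (nat_lit 0x40512)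 (nat_lit 0) (p (nat_lit 0x50312) (nat_lit 0) (p (nat_lit 0x38292) (nat_lit 0) (p (nat_lit 0x28212) (nat_lit 0) (p (nat_lit 0x38112) (nat_lit 0) (p (nat_lit 0x20092) (nat_lit 0) (p (nat_lit 0x10012) (nat_lit 0) pn)))))))))))))))))))))))))))))) :=
  Cl.node (nat_lit 0x380c2) (nat_lit 1) (by decide +kernel) (ClAll.succ ClAll.zero n159)

def n223 : Cl (O (nat_lit 5)) (R (nat_lit 14353))
    (p (nat_lit 0x4c42a) (nat_lit 2) (p (nat_lit 0x109) (nat_lit 0) (p (nat_lit 0x200014) (nat_lit 0) (p (nat_lit 0x200004) (nat_lit 0) (p (nat_lit 0x119) (nat_lit 0) (p (nat_lit 0x81) (nat_lit 0) (p (nat_lit 0x101) (nat_lit 1) (p (nat_lit 0x111) (nat_lit 0) (p (nat_lit 0xd1) (nat_lit 1) (p (nat_lit 0x89) (nat_lit 0) (p (nat_lit 0x41) (nat_lit 0) (p (nat_lit 0x10a0b0a89089a) (nat_lit 0) (p (nat_lit 0x98a8a08881a) (nat_lit 0) (p (nat_lit 0x109088988079a) (nat_lit 0) (p (nat_lit 0x8880907871a)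 (nat_lit 0) (p (nat_lit 0x8000000000800080887068a) (nat_lit 0) (p (nat_lit 0x10888068602) (nat_lit 0) (p (nat_lit 0x807860582) (nat_lit 0) (p (nat_lit 0x10607058502) (nat_lit 0) (p (nat_lit 0x586850482) (nat_lit 0) (p (nat_lit 0x16000c) (nat_lit 0) (p (nat_lit 0x68612) (nat_lit 0) (p (nat_lit 0x50592) (nat_lit 0) (p (nat_lit 0x40512) (nat_lit 0) (p (nat_lit 0x50312) (nat_lit 0) (p (nat_lit 0x38292) (nat_lit 0) (p (nat_lit 0x28212) (nat_lit 0) (p (nat_lit 0x38112) (nat_lit 0) (p (nat_lit 0x20092) (nat_lit 0) (p (nat_lit 0x10012) (nat_lit 0) pn)))))))))))))))))))))))))))))) :=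
  Cl.node (nat_lit 0x380c2) (nat_lit 1) (by decide +kernel) (ClAll.succ ClAll.zero n160)

def n224 : Cl (O (nat_lit 5)) (R (nat_lit 14353))
    (p (nat_lit 0x3cc2a) (nat_lit 0) (p (nat_lit 0x109) (nat_lit 1) (p (nat_lit 0x200014) (nat_lit 0) (p (nat_lit 0x200004) (nat_lit 0) (p (nat_lit 0x119) (nat_lit 0) (p (nat_lit 0x81) (nat_lit 0) (p (nat_lit 0x101) (nat_lit 1) (p (nat_lit 0x111) (nat_lit 0) (p (nat_lit 0xd1) (nat_lit 1) (p (nat_lit 0x89) (nat_lit 0) (p (nat_lit 0x41) (nat_lit 0) (p (nat_lit 0x10a0b0a89089a) (nat_lit 0) (p (nat_lit 0x98a8a08881a) (nat_lit 0) (p (nat_lit 0x109088988079a) (nat_lit 0) (p (nat_lit 0x8880907871a) (nat_lit 0) (p (nat_lit 0x8000000000800080887068a) (nat_lit 0) (p (nat_lit 0x10888068602) (nat_lit 0) (p (nat_lit 0x807860582) (nat_lit 0) (p (nat_lit 0x10607058502) (nat_lit 0) (p (nat_lit 0x586850482) (nat_lit 0) (p (nat_lit 0x16000c) (nat_lit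 0) (p (nat_lit 0x68612) (nat_lit 0) (p (nat_lit 0x50592) (nat_lit 0) (p (nat_lit 0x40512) (nat_lit 0) (p (nat_lit 0x50312) (nat_lit 0) (p (nat_lit 0x38292) (nat_lit 0) (p (nat_lit 0x28212) (nat_lit 0) (p (nat_lit 0x38112) (nat_lit 0) (p (nat_lit 0x20092) (nat_lit 0) (p (nat_lit 0x10012) (nat_lit 0) pn)))))))))))))))))))))))))))))) :=
  Cl.node (nat_lit 0x380c2) (nat_lit 1) (by decide +kernel) (ClAll.succ ClAll.zero n161)

def n225 : Cl (O (nat_lit 5)) (R (nat_lit 14353))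
    (p (nat_lit 0xb000c) (nat_lit 0) (p (nat_lit 0x380c2) (nat_lit 0) (p (nat_lit 0x444aa) (nat_lit 7) (p (nat_lit 0xd1) (nat_lit 1) (p (nat_lit 0x111) (nat_lit 1) (p (nat_lit 0x109) (nat_lit 0) (p (nat_lit 0x101) (nat_lit 0) (p (nat_lit 0x119) (nat_lit 0) (p (nat_lit 0xc9) (nat_lit 0) (p (nat_lit 0x89) (nat_lit 1) (p (nat_lit 0x41) (nat_lit 0) (p (nat_lit 0x10a0b0a89089a) (nat_lit 0) (p (nat_lit 0x98a8a08881a) (nat_lit 0) (p (nat_lit 0x109088988079a) (nat_lit 0) (p (nat_lit 0x8880907871a) (nat_lit 0) (p (nat_lit 0x8000000000800080887068a) (nat_lit 0) (p (nat_lit 0x10888068602) (nat_lit 0) (p (nat_lit 0x807860582) (nat_lit 0) (p (nat_lit 0x10607058502) (nat_lit 0) (p (nat_lit 0x586850482) (nat_lit 0) (p (nat_lit 0x16000c) (nat_lit 0) (p (nat_lit 0x68612) (nat_lit 0) (p (nat_lit 0x50592) (nat_lit 0) (p (nat_lit 0x40512) (nat_lit 0) (p (nat_lit 0x50312) (nat_lit 0) (p (nat_lit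 0x38292) (nat_lit 0) (p (nat_lit 0x28212) (nat_lit 0) (p (nat_lit 0x38112) (nat_lit 0) (p (nat_lit 0x20092) (nat_lit 0) (p (nat_lit 0x10012) (nat_lit 0) pn)))))))))))))))))))))))))))))) :=
  Cl.node (nat_lit 0x200004) (nat_lit 2) (by decide +kernel) (ClAll.succ (ClAll.succ ClAll.zero n162) s366)

def n226 : Cl (O (nat_lit 5)) (R (nat_lit 14353))
    (p (nat_lit 0xb000c) (nat_lit 1) (p (nat_lit 0x380c2) (nat_lit 0) (p (nat_lit 0x444aa) (nat_lit 7) (p (nat_lit 0xd1) (nat_lit 1) (p (nat_lit 0x111) (nat_lit 1) (p (nat_lit 0x109) (nat_lit 0) (p (nat_lit 0x101) (nat_lit 0) (p (nat_lit 0x119) (nat_lit 0) (p (nat_lit 0xc9) (nat_lit 0) (p (nat_lit 0x89) (nat_lit 1) (p (nat_lit 0x41) (nat_lit 0) (p (nat_lit 0x10a0b0a89089a) (nat_lit 0) (p (nat_lit 0x98a8a08881a) (nat_lit 0) (p (nat_lit 0x109088988079a) (nat_lit 0) (p (nat_lit 0x8880907871a) (nat_lit 0) (p (nat_lit 0x8000000000800080887068a)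 (nat_lit 0) (p (nat_lit 0x10888068602) (nat_lit 0) (p (nat_lit 0x807860582) (nat_lit 0) (p (nat_lit 0x10607058502) (nat_lit 0) (p (nat_lit 0x586850482) (nat_lit 0) (p (nat_lit 0x16000c) (nat_lit 0) (p (nat_lit 0x68612) (nat_lit 0) (p (nat_lit 0x50592) (nat_lit 0) (p (nat_lit 0x40512) (nat_lit 0) (p (nat_lit 0x50312) (nat_lit 0) (p (nat_lit 0x38292) (nat_lit 0) (p (nat_lit 0x28212) (nat_lit 0) (p (nat_lit 0x38112) (nat_lit 0) (p (nat_lit 0x20092) (nat_lit 0) (p (nat_lit 0x10012) (nat_lit 0) pn)))))))))))))))))))))))))))))) :=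
  Cl.node (nat_lit 0x1fc004) (nat_lit 2) (by decide +kernel) (ClAll.succ (ClAll.succ ClAll.zero n163) s375)

def n227 : Cl (O (nat_lit 5)) (R (nat_lit 14353))
    (p (nat_lit 0x200004) (nat_lit 0) (p (nat_lit 0x380c2) (nat_lit 1) (p (nat_lit 0x444aa) (nat_lit 7) (p (nat_lit 0xd1) (nat_lit 1) (p (nat_lit 0x111) (nat_lit 1) (p (nat_lit 0x109) (nat_lit 0) (p (nat_lit 0x101) (nat_lit 0) (p (nat_lit 0x119) (nat_lit 0) (p (nat_lit 0xc9) (nat_lit 0) (p (nat_lit 0x89) (nat_lit 1) (p (nat_lit 0x41) (nat_lit 0) (p (nat_lit 0x10a0b0a89089a) (nat_lit 0) (p (nat_lit 0x98a8a08881a) (nat_lit 0) (p (nat_lit 0x109088988079a) (nat_lit 0) (p (nat_lit 0x8880907871a) (nat_lit 0) (p (nat_lit 0x8000000000800080887068a) (nat_lit 0) (p (nat_lit 0x10888068602) (nat_lit 0) (p (nat_lit 0x807860582) (nat_lit 0) (p (nat_lit 0x10607058502) (nat_lit 0) (p (nat_lit 0x586850482) (nat_lit 0) (p (nat_lit 0x16000c)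 (nat_lit 0) (p (nat_lit 0x68612) (nat_lit 0) (p (nat_lit 0x50592) (nat_lit 0) (p (nat_lit 0x40512) (nat_lit 0) (p (nat_lit 0x50312) (nat_lit 0) (p (nat_lit 0x38292) (nat_lit 0) (p (nat_lit 0x28212) (nat_lit 0) (p (nat_lit 0x38112) (nat_lit 0) (p (nat_lit 0x20092) (nat_lit 0) (p (nat_lit 0x10012) (nat_lit 0) pn)))))))))))))))))))))))))))))) :=
  Cl.node (nat_lit 0xb000c) (nat_lit 2) (by decide +kernel) (ClAll.succ (ClAll.succ ClAll.zero n164) s381)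

def n228 : Cl (O (nat_lit 5)) (R (nat_lit 14353))
    (p (nat_lit 0xb000c) (nat_lit 0) (p (nat_lit 0x380c2) (nat_lit 1) (p (nat_lit 0x444aa) (nat_lit 10) (p (nat_lit 0xd1) (nat_lit 1) (p (nat_lit 0x111) (nat_lit 1) (p (nat_lit 0x109) (nat_lit 0) (p (nat_lit 0x101) (nat_lit 0) (p (nat_lit 0x119) (nat_lit 0) (p (nat_lit 0xc9) (nat_lit 0) (p (nat_lit 0x89) (nat_lit 1) (p (nat_lit 0x41) (nat_lit 0) (p (nat_lit 0x10a0b0a89089a) (nat_lit 0) (p (nat_lit 0x98a8a08881a) (nat_lit 0) (p (nat_lit 0x109088988079a) (nat_lit 0) (p (nat_lit 0x8880907871a) (nat_lit 0) (p (nat_lit 0x8000000000800080887068a) (nat_lit 0) (p (nat_lit 0x10888068602) (nat_lit 0) (p (nat_lit 0x807860582) (nat_lit 0) (p (nat_lit 0x10607058502) (nat_lit 0) (p (nat_lit 0x586850482) (nat_lit 0) (p (nat_lit 0x16000c) (nat_lit 0) (p (nat_lit 0x68612) (nat_lit 0) (p (nat_lit 0x50592) (nat_lit 0) (p (nat_lit 0x40512)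 (nat_lit 0) (p (nat_lit 0x50312) (nat_lit 0) (p (nat_lit 0x38292) (nat_lit 0) (p (nat_lit 0x28212) (nat_lit 0) (p (nat_lit 0x38112) (nat_lit 0) (p (nat_lit 0x20092) (nat_lit 0) (p (nat_lit 0x10012) (nat_lit 0) pn)))))))))))))))))))))))))))))) :=
  Cl.node (nat_lit 0x200014) (nat_lit 2) (by decide +kernel) (ClAll.succ (ClAll.succ ClAll.zero s386) n165)

def n229 : Cl (O (nat_lit 5)) (R (nat_lit 14353))
    (p (nat_lit 0x44c2a) (nat_lit 1) (p (nat_lit 0x41) (nat_lit 0) (p (nat_lit 0x200014) (nat_lit 0) (p (nat_lit 0x200004) (nat_lit 0) (p (nat_lit 0xd1) (nat_lit 0) (p (nat_lit 0x109) (nat_lit 1) (p (nat_lit 0x101) (nat_lit 0) (p (nat_lit 0x119) (nat_lit 0) (p (nat_lit 0xc9) (nat_lit 0) (p (nat_lit 0x89) (nat_lit 1) (p (nat_lit 0x41) (nat_lit 0) (p (nat_lit 0x10a0b0a89089a) (nat_lit 0) (p (nat_lit 0x98a8a08881a) (nat_lit 0) (p (nat_lit 0x109088988079a) (nat_lit 0) (p (nat_lit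 0x8880907871a) (nat_lit 0) (p (nat_lit 0x8000000000800080887068a) (nat_lit 0) (p (nat_lit 0x10888068602) (nat_lit 0) (p (nat_lit 0x807860582) (nat_lit 0) (p (nat_lit 0x10607058502) (nat_lit 0) (p (nat_lit 0x586850482) (nat_lit 0) (p (nat_lit 0x16000c) (nat_lit 0) (p (nat_lit 0x68612) (nat_lit 0) (p (nat_lit 0x50592) (nat_lit 0) (p (nat_lit 0x40512) (nat_lit 0) (p (nat_lit 0x50312) (nat_lit 0) (p (nat_lit 0x38292) (nat_lit 0) (p (nat_lit 0x28212) (nat_lit 0) (p (nat_lit 0x38112) (nat_lit 0) (p (nat_lit 0x20092) (nat_lit 0) (p (nat_lit 0x10012) (nat_lit 0) pn)))))))))))))))))))))))))))))) :=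
  Cl.node (nat_lit 0x380c2) (nat_lit 2) (by decide +kernel) (ClAll.succ (ClAll.succ ClAll.zero s395) s396)

def n230 : Cl (O (nat_lit 5)) (R (nat_lit 14353))
    (p (nat_lit 0xc1) (nat_lit 0) (p (nat_lit 0xb000c) (nat_lit 0) (p (nat_lit 0x380c2) (nat_lit 0) (p (nat_lit 0x444aa) (nat_lit 7) (p (nat_lit 0xd1) (nat_lit 1) (p (nat_lit 0x109) (nat_lit 1) (p (nat_lit 0x101) (nat_lit 0) (p (nat_lit 0x119) (nat_lit 0) (p (nat_lit 0xc9) (nat_lit 0) (p (nat_lit 0x89) (nat_lit 1) (p (nat_lit 0x41) (nat_lit 0) (p (nat_lit 0x10a0b0a89089a) (nat_lit 0) (p (nat_lit 0x98a8a08881a) (nat_lit 0) (p (nat_lit 0x109088988079a) (nat_lit 0) (p (nat_lit 0x8880907871a) (nat_lit 0) (p (nat_lit 0x8000000000800080887068a) (nat_lit 0) (p (nat_lit 0x10888068602) (nat_lit 0) (p (nat_lit 0x807860582) (nat_lit 0) (p (nat_lit 0x10607058502) (nat_lit 0) (p (nat_lit 0x586850482) (nat_lit 0) (p (nat_lit 0x16000c)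 (nat_lit 0) (p (nat_lit 0x68612) (nat_lit 0) (p (nat_lit 0x50592) (nat_lit 0) (p (nat_lit 0x40512) (nat_lit 0) (p (nat_lit 0x50312) (nat_lit 0) (p (nat_lit 0x38292) (nat_lit 0) (p (nat_lit 0x28212) (nat_lit 0) (p (nat_lit 0x38112) (nat_lit 0) (p (nat_lit 0x20092) (nat_lit 0) (p (nat_lit 0x10012) (nat_lit 0) pn)))))))))))))))))))))))))))))) :=
  Cl.node (nat_lit 0x200004) (nat_lit 2) (by decide +kernel) (ClAll.succ (ClAll.succ ClAll.zero n166) s432)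

def n231 : Cl (O (nat_lit 5)) (R (nat_lit 14353))
    (p (nat_lit 0x1fc004) (nat_lit 0) (p (nat_lit 0xb000c) (nat_lit 1) (p (nat_lit 0x380c2) (nat_lit 0) (p (nat_lit 0x444aa) (nat_lit 7) (p (nat_lit 0xd1) (nat_lit 1) (p (nat_lit 0x109) (nat_lit 1) (p (nat_lit 0x101) (nat_lit 0) (p (nat_lit 0x119) (nat_lit 0) (p (nat_lit 0xc9) (nat_lit 0) (p (nat_lit 0x89) (nat_lit 1) (p (nat_lit 0x41) (nat_lit 0) (p (nat_lit 0x10a0b0a89089a) (nat_lit 0) (p (nat_lit 0x98a8a08881a) (nat_lit 0) (p (nat_lit 0x109088988079a) (nat_lit 0) (p (nat_lit 0x8880907871a) (nat_lit 0) (p (nat_lit 0x8000000000800080887068a) (nat_lit 0) (p (nat_lit 0x10888068602) (nat_lit 0) (p (nat_lit 0x807860582) (nat_lit 0) (p (nat_lit 0x10607058502) (nat_lit 0) (p (nat_lit 0x586850482) (nat_lit 0) (p (nat_lit 0x16000c) (nat_lit 0) (p (nat_lit 0x68612) (nat_lit 0) (p (nat_lit 0x50592) (nat_lit 0) (p (nat_lit 0x40512)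 (nat_lit 0) (p (nat_lit 0x50312) (nat_lit 0) (p (nat_lit 0x38292) (nat_lit 0) (p (nat_lit 0x28212) (nat_lit 0) (p (nat_lit 0x38112) (nat_lit 0) (p (nat_lit 0x20092) (nat_lit 0) (p (nat_lit 0x10012) (nat_lit 0) pn)))))))))))))))))))))))))))))) :=
  Cl.node (nat_lit 0x1fc014) (nat_lit 2) (by decide +kernel) (ClAll.succ (ClAll.succ ClAll.zero n167) s437)

def n232 : Cl (O (nat_lit 5)) (R (nat_lit 14353))
    (p (nat_lit 0x200004) (nat_lit 0) (p (nat_lit 0xb000c) (nat_lit 0) (p (nat_lit 0x380c2) (nat_lit 1) (p (nat_lit 0x444aa) (nat_lit 7) (p (nat_lit 0xd1) (nat_lit 1) (p (nat_lit 0x109) (nat_lit 1) (p (nat_lit 0x101) (nat_lit 0) (p (nat_lit 0x119) (nat_lit 0) (p (nat_lit 0xc9) (nat_lit 0) (p (nat_lit 0x89) (nat_lit 1) (p (nat_lit 0x41) (nat_lit 0) (p (nat_lit 0x10a0b0a89089a) (nat_lit 0) (p (nat_lit 0x98a8a08881a) (nat_lit 0) (p (nat_lit 0x109088988079a) (nat_lit 0) (p (nat_lit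 0x8880907871a) (nat_lit 0) (p (nat_lit 0x8000000000800080887068a) (nat_lit 0) (p (nat_lit 0x10888068602) (nat_lit 0) (p (nat_lit 0x807860582) (nat_lit 0) (p (nat_lit 0x10607058502) (nat_lit 0) (p (nat_lit 0x586850482) (nat_lit 0) (p (nat_lit 0x16000c) (nat_lit 0) (p (nat_lit 0x68612) (nat_lit 0) (p (nat_lit 0x50592) (nat_lit 0) (p (nat_lit 0x40512) (nat_lit 0) (p (nat_lit 0x50312) (nat_lit 0) (p (nat_lit 0x38292) (nat_lit 0) (p (nat_lit 0x28212) (nat_lit 0) (p (nat_lit 0x38112) (nat_lit 0) (p (nat_lit 0x20092) (nat_lit 0) (p (nat_lit 0x10012) (nat_lit 0) pn)))))))))))))))))))))))))))))) :=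
  Cl.node (nat_lit 0xc1) (nat_lit 2) (by decide +kernel) (ClAll.succ (ClAll.succ ClAll.zero n168) s443)

def n233 : Cl (O (nat_lit 5)) (R (nat_lit 14353))
    (p (nat_lit 0x44c2a) (nat_lit 0) (p (nat_lit 0x109) (nat_lit 1) (p (nat_lit 0x200014) (nat_lit 0) (p (nat_lit 0x200004) (nat_lit 0) (p (nat_lit 0xd1) (nat_lit 0) (p (nat_lit 0xc1) (nat_lit 0) (p (nat_lit 0x101) (nat_lit 1) (p (nat_lit 0x119) (nat_lit 0) (p (nat_lit 0xc9) (nat_lit 0) (p (nat_lit 0x89) (nat_lit 1) (p (nat_lit 0x41) (nat_lit 0) (p (nat_lit 0x10a0b0a89089a) (nat_lit 0) (p (nat_lit 0x98a8a08881a) (nat_lit 0) (p (nat_lit 0x109088988079a) (nat_lit 0) (p (nat_lit 0x8880907871a) (nat_lit 0) (p (nat_lit 0x8000000000800080887068a) (nat_lit 0) (p (nat_lit 0x10888068602) (nat_lit 0) (p (nat_lit 0x807860582) (nat_lit 0) (p (nat_lit 0x10607058502) (nat_lit 0) (p (nat_lit 0x586850482) (nat_lit 0) (p (nat_lit 0x16000c)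 (nat_lit 0) (p (nat_lit 0x68612) (nat_lit 0) (p (nat_lit 0x50592) (nat_lit 0) (p (nat_lit 0x40512) (nat_lit 0) (p (nat_lit 0x50312) (nat_lit 0) (p (nat_lit 0x38292) (nat_lit 0) (p (nat_lit 0x28212) (nat_lit 0) (p (nat_lit 0x38112) (nat_lit 0) (p (nat_lit 0x20092) (nat_lit 0) (p (nat_lit 0x10012) (nat_lit 0) pn)))))))))))))))))))))))))))))) :=
  Cl.node (nat_lit 0x380c2) (nat_lit 1) (by decide +kernel) (ClAll.succ ClAll.zero n169)

def n234 : Cl (O (nat_lit 5)) (R (nat_lit 14353))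
    (p (nat_lit 0x44c2a) (nat_lit 1) (p (nat_lit 0x109) (nat_lit 1) (p (nat_lit 0x200014) (nat_lit 0) (p (nat_lit 0x200004) (nat_lit 0) (p (nat_lit 0xd1) (nat_lit 0) (p (nat_lit 0xc1) (nat_lit 0) (p (nat_lit 0x101) (nat_lit 1) (p (nat_lit 0x119) (nat_lit 0) (p (nat_lit 0xc9) (nat_lit 0) (p (nat_lit 0x89) (nat_lit 1) (p (nat_lit 0x41) (nat_lit 0) (p (nat_lit 0x10a0b0a89089a) (nat_lit 0) (p (nat_lit 0x98a8a08881a) (nat_lit 0) (p (nat_lit 0x109088988079a) (nat_lit 0) (p (nat_lit 0x8880907871a) (nat_lit 0) (p (nat_lit 0x8000000000800080887068a) (nat_lit 0) (p (nat_lit 0x10888068602) (nat_lit 0) (p (nat_lit 0x807860582) (nat_lit 0) (p (nat_lit 0x10607058502) (nat_lit 0) (p (nat_lit 0x586850482) (nat_lit 0) (p (nat_lit 0x16000c) (nat_lit 0) (p (nat_lit 0x68612) (nat_lit 0) (p (nat_lit 0x50592) (nat_lit 0) (p (nat_lit 0x40512) (nat_lit 0) (p (nat_lit 0x50312) (nat_lit 0) (p (nat_lit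 0x38292) (nat_lit 0) (p (nat_lit 0x28212) (nat_lit 0) (p (nat_lit 0x38112) (nat_lit 0) (p (nat_lit 0x20092) (nat_lit 0) (p (nat_lit 0x10012) (nat_lit 0) pn)))))))))))))))))))))))))))))) :=
  Cl.node (nat_lit 0x380c2) (nat_lit 2) (by decide +kernel) (ClAll.succ (ClAll.succ ClAll.zero s453) s454)

def n235 : Cl (O (nat_lit 5)) (R (nat_lit 14353))
    (p (nat_lit 0x109) (nat_lit 0) (p (nat_lit 0xb000c) (nat_lit 0) (p (nat_lit 0x380c2) (nat_lit 0) (p (nat_lit 0x444aa) (nat_lit 7) (p (nat_lit 0x111) (nat_lit 1) (p (nat_lit 0xd1) (nat_lit 1) (p (nat_lit 0xc1) (nat_lit 0) (p (nat_lit 0x119) (nat_lit 1) (p (nat_lit 0xc9) (nat_lit 0) (p (nat_lit 0x89) (nat_lit 1) (p (nat_lit 0x41) (nat_lit 0) (p (nat_lit 0x10a0b0a89089a) (nat_lit 0) (p (nat_lit 0x98a8a08881a) (nat_lit 0) (p (nat_lit 0x109088988079a) (nat_lit 0) (p (nat_lit 0x8880907871a) (nat_lit 0) (p (nat_lit 0x8000000000800080887068a)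 (nat_lit 0) (p (nat_lit 0x10888068602) (nat_lit 0) (p (nat_lit 0x807860582) (nat_lit 0) (p (nat_lit 0x10607058502) (nat_lit 0) (p (nat_lit 0x586850482) (nat_lit 0) (p (nat_lit 0x16000c) (nat_lit 0) (p (nat_lit 0x68612) (nat_lit 0) (p (nat_lit 0x50592) (nat_lit 0) (p (nat_lit 0x40512) (nat_lit 0) (p (nat_lit 0x50312) (nat_lit 0) (p (nat_lit 0x38292) (nat_lit 0) (p (nat_lit 0x28212) (nat_lit 0) (p (nat_lit 0x38112) (nat_lit 0) (p (nat_lit 0x20092) (nat_lit 0) (p (nat_lit 0x10012) (nat_lit 0) pn)))))))))))))))))))))))))))))) :=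
  Cl.node (nat_lit 0x200004) (nat_lit 2) (by decide +kernel) (ClAll.succ (ClAll.succ ClAll.zero n170) s494)

def n236 : Cl (O (nat_lit 5)) (R (nat_lit 14353))
    (p (nat_lit 0x1fc004) (nat_lit 0) (p (nat_lit 0xb000c) (nat_lit 1) (p (nat_lit 0x380c2) (nat_lit 0) (p (nat_lit 0x444aa) (nat_lit 7) (p (nat_lit 0x111) (nat_lit 1) (p (nat_lit 0xd1) (nat_lit 1) (p (nat_lit 0xc1) (nat_lit 0) (p (nat_lit 0x119) (nat_lit 1) (p (nat_lit 0xc9) (nat_lit 0) (p (nat_lit 0x89) (nat_lit 1) (p (nat_lit 0x41) (nat_lit 0) (p (nat_lit 0x10a0b0a89089a) (nat_lit 0) (p (nat_lit 0x98a8a08881a) (nat_lit 0) (p (nat_lit 0x109088988079a) (nat_lit 0) (p (nat_lit 0x8880907871a) (nat_lit 0) (p (nat_lit 0x8000000000800080887068a) (nat_lit 0) (p (nat_lit 0x10888068602) (nat_lit 0) (p (nat_lit 0x807860582) (nat_lit 0) (p (nat_lit 0x10607058502) (nat_lit 0) (p (nat_lit 0x586850482) (nat_lit 0) (p (nat_lit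 0x16000c) (nat_lit 0) (p (nat_lit 0x68612) (nat_lit 0) (p (nat_lit 0x50592) (nat_lit 0) (p (nat_lit 0x40512) (nat_lit 0) (p (nat_lit 0x50312) (nat_lit 0) (p (nat_lit 0x38292) (nat_lit 0) (p (nat_lit 0x28212) (nat_lit 0) (p (nat_lit 0x38112) (nat_lit 0) (p (nat_lit 0x20092) (nat_lit 0) (p (nat_lit 0x10012) (nat_lit 0) pn)))))))))))))))))))))))))))))) :=
  Cl.node (nat_lit 0x1fc014) (nat_lit 2) (by decide +kernel) (ClAll.succ (ClAll.succ ClAll.zero n171) s500)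

def n237 : Cl (O (nat_lit 5)) (R (nat_lit 14353))
    (p (nat_lit 0x109) (nat_lit 0) (p (nat_lit 0xb000c) (nat_lit 0) (p (nat_lit 0x380c2) (nat_lit 1) (p (nat_lit 0x444aa) (nat_lit 7) (p (nat_lit 0x111) (nat_lit 1) (p (nat_lit 0xd1) (nat_lit 1) (p (nat_lit 0xc1) (nat_lit 0) (p (nat_lit 0x119) (nat_lit 1) (p (nat_lit 0xc9) (nat_lit 0) (p (nat_lit 0x89) (nat_lit 1) (p (nat_lit 0x41) (nat_lit 0) (p (nat_lit 0x10a0b0a89089a) (nat_lit 0) (p (nat_lit 0x98a8a08881a) (nat_lit 0) (p (nat_lit 0x109088988079a) (nat_lit 0) (p (nat_lit 0x8880907871a) (nat_lit 0) (p (nat_lit 0x8000000000800080887068a) (nat_lit 0) (p (nat_lit 0x10888068602) (nat_lit 0) (p (nat_lit 0x807860582) (nat_lit 0) (p (nat_lit 0x10607058502) (nat_lit 0) (p (nat_lit 0x586850482) (nat_lit 0) (p (nat_lit 0x16000c) (nat_lit 0) (p (nat_lit 0x68612) (nat_lit 0) (p (nat_lit 0x50592) (nat_lit 0) (p (nat_lit 0x40512) (nat_lit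 0) (p (nat_lit 0x50312) (nat_lit 0) (p (nat_lit 0x38292) (nat_lit 0) (p (nat_lit 0x28212) (nat_lit 0) (p (nat_lit 0x38112) (nat_lit 0) (p (nat_lit 0x20092) (nat_lit 0) (p (nat_lit 0x10012) (nat_lit 0) pn)))))))))))))))))))))))))))))) :=
  Cl.node (nat_lit 0x200004) (nat_lit 2) (by decide +kernel) (ClAll.succ (ClAll.succ ClAll.zero n172) s504)

def n238 : Cl (O (nat_lit 5)) (R (nat_lit 14353))
    (p (nat_lit 0x109) (nat_lit 0) (p (nat_lit 0xb000c) (nat_lit 0) (p (nat_lit 0x380c2) (nat_lit 0) (p (nat_lit 0x444aa) (nat_lit 7) (p (nat_lit 0x111) (nat_lit 1) (p (nat_lit 0x101) (nat_lit 0) (p (nat_lit 0xc1) (nat_lit 1) (p (nat_lit 0x119) (nat_lit 1) (p (nat_lit 0xc9) (nat_lit 0) (p (nat_lit 0x89) (nat_lit 1) (p (nat_lit 0x41) (nat_lit 0) (p (nat_lit 0x10a0b0a89089a) (nat_lit 0) (p (nat_lit 0x98a8a08881a) (nat_lit 0) (p (nat_lit 0x109088988079a) (nat_lit 0) (p (nat_lit 0x8880907871a)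 (nat_lit 0) (p (nat_lit 0x8000000000800080887068a) (nat_lit 0) (p (nat_lit 0x10888068602) (nat_lit 0) (p (nat_lit 0x807860582) (nat_lit 0) (p (nat_lit 0x10607058502) (nat_lit 0) (p (nat_lit 0x586850482) (nat_lit 0) (p (nat_lit 0x16000c) (nat_lit 0) (p (nat_lit 0x68612) (nat_lit 0) (p (nat_lit 0x50592) (nat_lit 0) (p (nat_lit 0x40512) (nat_lit 0) (p (nat_lit 0x50312) (nat_lit 0) (p (nat_lit 0x38292) (nat_lit 0) (p (nat_lit 0x28212) (nat_lit 0) (p (nat_lit 0x38112) (nat_lit 0) (p (nat_lit 0x20092) (nat_lit 0) (p (nat_lit 0x10012) (nat_lit 0) pn)))))))))))))))))))))))))))))) :=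
  Cl.node (nat_lit 0x119) (nat_lit 2) (by decide +kernel) (ClAll.succ (ClAll.succ ClAll.zero s530) s531)

def n239 : Cl (O (nat_lit 5)) (R (nat_lit 14353))
    (p (nat_lit 0x109) (nat_lit 0) (p (nat_lit 0xb000c) (nat_lit 0) (p (nat_lit 0x380c2) (nat_lit 1) (p (nat_lit 0x444aa) (nat_lit 7) (p (nat_lit 0x111) (nat_lit 1) (p (nat_lit 0x101) (nat_lit 0) (p (nat_lit 0xc1) (nat_lit 1) (p (nat_lit 0x119) (nat_lit 1) (p (nat_lit 0xc9) (nat_lit 0) (p (nat_lit 0x89) (nat_lit 1) (p (nat_lit 0x41) (nat_lit 0) (p (nat_lit 0x10a0b0a89089a) (nat_lit 0) (p (nat_lit 0x98a8a08881a) (nat_lit 0) (p (nat_lit 0x109088988079a) (nat_lit 0) (p (nat_lit 0x8880907871a) (nat_lit 0) (p (nat_lit 0x8000000000800080887068a) (nat_lit 0) (p (nat_lit 0x10888068602) (nat_lit 0) (p (nat_lit 0x807860582) (nat_lit 0) (p (nat_lit 0x10607058502) (nat_lit 0) (p (nat_lit 0x586850482) (nat_lit 0) (p (nat_lit 0x16000c)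 (nat_lit 0) (p (nat_lit 0x68612) (nat_lit 0) (p (nat_lit 0x50592) (nat_lit 0) (p (nat_lit 0x40512) (nat_lit 0) (p (nat_lit 0x50312) (nat_lit 0) (p (nat_lit 0x38292) (nat_lit 0) (p (nat_lit 0x28212) (nat_lit 0) (p (nat_lit 0x38112) (nat_lit 0) (p (nat_lit 0x20092) (nat_lit 0) (p (nat_lit 0x10012) (nat_lit 0) pn)))))))))))))))))))))))))))))) :=
  Cl.node (nat_lit 0x200004) (nat_lit 2) (by decide +kernel) (ClAll.succ (ClAll.succ ClAll.zero n173) s538)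

def n240 : Cl (O (nat_lit 5)) (R (nat_lit 14353))
    (p (nat_lit 0xc9) (nat_lit 1) (p (nat_lit 0x380c2) (nat_lit 0) (p (nat_lit 0x4c42a) (nat_lit 2) (p (nat_lit 0x111) (nat_lit 0) (p (nat_lit 0x89) (nat_lit 0) (p (nat_lit 0x109) (nat_lit 1) (p (nat_lit 0x101) (nat_lit 0) (p (nat_lit 0x119) (nat_lit 0) (p (nat_lit 0xd1) (nat_lit 0) (p (nat_lit 0x81) (nat_lit 0) (p (nat_lit 0x41) (nat_lit 1) (p (nat_lit 0x10a0b0a89089a) (nat_lit 0) (p (nat_lit 0x98a8a08881a) (nat_lit 0) (p (nat_lit 0x109088988079a) (nat_lit 0) (p (nat_lit 0x8880907871a) (nat_lit 0) (p (nat_lit 0x8000000000800080887068a) (nat_lit 0) (p (nat_lit 0x10888068602) (nat_lit 0) (p (nat_lit 0x807860582) (nat_lit 0) (p (nat_lit 0x10607058502) (nat_lit 0) (p (nat_lit 0x586850482) (nat_lit 0) (p (nat_lit 0x16000c) (nat_lit 0) (p (nat_lit 0x68612) (nat_lit 0) (p (nat_lit 0x50592) (nat_lit 0) (p (nat_lit 0x40512) (nat_lit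 0) (p (nat_lit 0x50312) (nat_lit 0) (p (nat_lit 0x38292) (nat_lit 0) (p (nat_lit 0x28212) (nat_lit 0) (p (nat_lit 0x38112) (nat_lit 0) (p (nat_lit 0x20092) (nat_lit 0) (p (nat_lit 0x10012) (nat_lit 0) pn)))))))))))))))))))))))))))))) :=
  Cl.node (nat_lit 0x444aa) (nat_lit 12) (by decide +kernel) (ClAll.succ (ClAll.succ (ClAll.succ (ClAll.succ (ClAll.succ (ClAll.succ (ClAll.succ (ClAll.succ (ClAll.succ (ClAll.succ (ClAll.succ (ClAll.succ ClAll.zero s554) s555) s556) s557) s558) s559) s560) s561) s562) s563) s564) s565)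

def n241 : Cl (O (nat_lit 5)) (R (nat_lit 14353))
    (p (nat_lit 0x111) (nat_lit 1) (p (nat_lit 0x380c2) (nat_lit 0) (p (nat_lit 0x4c42a) (nat_lit 2) (p (nat_lit 0xc9) (nat_lit 0) (p (nat_lit 0x89) (nat_lit 1) (p (nat_lit 0x109) (nat_lit 1) (p (nat_lit 0x101) (nat_lit 0) (p (nat_lit 0x119) (nat_lit 0) (p (nat_lit 0xd1) (nat_lit 0) (p (nat_lit 0x81) (nat_lit 0) (p (nat_lit 0x41) (nat_lit 1) (p (nat_lit 0x10a0b0a89089a) (nat_lit 0) (p (nat_lit 0x98a8a08881a) (nat_lit 0) (p (nat_lit 0x109088988079a) (nat_lit 0) (p (nat_lit 0x8880907871a) (nat_lit 0) (p (nat_lit 0x8000000000800080887068a) (nat_lit 0) (p (nat_lit 0x10888068602) (nat_lit 0) (p (nat_lit 0x807860582) (nat_lit 0) (p (nat_lit 0x10607058502) (nat_lit 0) (p (nat_lit 0x586850482) (nat_lit 0) (p (nat_lit 0x16000c) (nat_lit 0) (p (nat_lit 0x68612) (nat_lit 0) (p (nat_lit 0x50592) (nat_lit 0) (p (nat_lit 0x40512) (nat_lit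 0) (p (nat_lit 0x50312) (nat_lit 0) (p (nat_lit 0x38292) (nat_lit 0) (p (nat_lit 0x28212) (nat_lit 0) (p (nat_lit 0x38112) (nat_lit 0) (p (nat_lit 0x20092) (nat_lit 0) (p (nat_lit 0x10012) (nat_lit 0) pn)))))))))))))))))))))))))))))) :=
  Cl.node (nat_lit 0x44c2a) (nat_lit 12) (by decide +kernel) (ClAll.succ (ClAll.succ (ClAll.succ (ClAll.succ (ClAll.succ (ClAll.succ (ClAll.succ (ClAll.succ (ClAll.succ (ClAll.succ (ClAll.succ (ClAll.succ ClAll.zero s601) n174) s612) s613) s614) s615) s616) s617) s618) s619) s620) s621)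

def n242 : Cl (O (nat_lit 5)) (R (nat_lit 14353))
    (p (nat_lit 0x44c2a) (nat_lit 0) (p (nat_lit 0x380c2) (nat_lit 0) (p (nat_lit 0x4c42a) (nat_lit 2) (p (nat_lit 0xc9) (nat_lit 0) (p (nat_lit 0x89) (nat_lit 1) (p (nat_lit 0xc1) (nat_lit 0) (p (nat_lit 0x101) (nat_lit 1) (p (nat_lit 0x119) (nat_lit 0) (p (nat_lit 0xd1) (nat_lit 0) (p (nat_lit 0x81) (nat_lit 0) (p (nat_lit 0x41) (nat_lit 1) (p (nat_lit 0x10a0b0a89089a) (nat_lit 0) (p (nat_lit 0x98a8a08881a) (nat_lit 0) (p (nat_lit 0x109088988079a) (nat_lit 0) (p (nat_lit 0x8880907871a) (nat_lit 0) (p (nat_lit 0x8000000000800080887068a) (nat_lit 0) (p (nat_lit 0x10888068602) (nat_lit 0) (p (nat_lit 0x807860582) (nat_lit 0) (p (nat_lit 0x10607058502) (nat_lit 0) (p (nat_lit 0x586850482) (nat_lit 0) (p (nat_lit 0x16000c) (nat_lit 0) (p (nat_lit 0x68612) (nat_lit 0) (p (nat_lit 0x50592) (nat_lit 0) (p (nat_lit 0x40512) (nat_lit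 0) (p (nat_lit 0x50312) (nat_lit 0) (p (nat_lit 0x38292) (nat_lit 0) (p (nat_lit 0x28212) (nat_lit 0) (p (nat_lit 0x38112) (nat_lit 0) (p (nat_lit 0x20092) (nat_lit 0) (p (nat_lit 0x10012) (nat_lit 0) pn)))))))))))))))))))))))))))))) :=
  Cl.node (nat_lit 0x380c2) (nat_lit 1) (by decide +kernel) (ClAll.succ ClAll.zero n175)

def n243 : Cl (O (nat_lit 5)) (R (nat_lit 14353))
    (p (nat_lit 0x44c2a) (nat_lit 1) (p (nat_lit 0x380c2) (nat_lit 0) (p (nat_lit 0x4c42a) (nat_lit 2) (p (nat_lit 0xc9) (nat_lit 0) (p (nat_lit 0x89) (nat_lit 1) (p (nat_lit 0xc1) (nat_lit 0) (p (nat_lit 0x101) (nat_lit 1) (p (nat_lit 0x119) (nat_lit 0) (p (nat_lit 0xd1) (nat_lit 0) (p (nat_lit 0x81) (nat_lit 0) (p (nat_lit 0x41) (nat_lit 1) (p (nat_lit 0x10a0b0a89089a) (nat_lit 0) (p (nat_lit 0x98a8a08881a) (nat_lit 0) (p (nat_lit 0x109088988079a) (nat_lit 0) (p (nat_lit 0x8880907871a) (nat_lit 0) (p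 (nat_lit 0x8000000000800080887068a) (nat_lit 0) (p (nat_lit 0x10888068602) (nat_lit 0) (p (nat_lit 0x807860582) (nat_lit 0) (p (nat_lit 0x10607058502) (nat_lit 0) (p (nat_lit 0x586850482) (nat_lit 0) (p (nat_lit 0x16000c) (nat_lit 0) (p (nat_lit 0x68612) (nat_lit 0) (p (nat_lit 0x50592) (nat_lit 0) (p (nat_lit 0x40512) (nat_lit 0) (p (nat_lit 0x50312) (nat_lit 0) (p (nat_lit 0x38292) (nat_lit 0) (p (nat_lit 0x28212) (nat_lit 0) (p (nat_lit 0x38112) (nat_lit 0) (p (nat_lit 0x20092) (nat_lit 0) (p (nat_lit 0x10012) (nat_lit 0) pn)))))))))))))))))))))))))))))) :=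
  Cl.node (nat_lit 0x380c2) (nat_lit 2) (by decide +kernel) (ClAll.succ (ClAll.succ ClAll.zero n176) n177)

def n244 : Cl (O (nat_lit 5)) (R (nat_lit 14353))
    (p (nat_lit 0x3c4aa) (nat_lit 7) (p (nat_lit 0x380c2) (nat_lit 0) (p (nat_lit 0x4c42a) (nat_lit 2) (p (nat_lit 0xc9) (nat_lit 1) (p (nat_lit 0x89) (nat_lit 1) (p (nat_lit 0xc1) (nat_lit 0) (p (nat_lit 0x101) (nat_lit 1) (p (nat_lit 0x119) (nat_lit 0) (p (nat_lit 0xd1) (nat_lit 0) (p (nat_lit 0x81) (nat_lit 0) (p (nat_lit 0x41) (nat_lit 1) (p (nat_lit 0x10a0b0a89089a) (nat_lit 0) (p (nat_lit 0x98a8a08881a) (nat_lit 0) (p (nat_lit 0x109088988079a) (nat_lit 0) (p (nat_lit 0x8880907871a) (nat_lit 0) (p (nat_lit 0x8000000000800080887068a) (nat_lit 0) (p (nat_lit 0x10888068602) (nat_lit 0) (p (nat_lit 0x807860582) (nat_lit 0) (p (nat_lit 0x10607058502) (nat_lit 0) (p (nat_lit 0x586850482) (nat_lit 0) (p (nat_lit 0x16000c)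 (nat_lit 0) (p (nat_lit 0x68612) (nat_lit 0) (p (nat_lit 0x50592) (nat_lit 0) (p (nat_lit 0x40512) (nat_lit 0) (p (nat_lit 0x50312) (nat_lit 0) (p (nat_lit 0x38292) (nat_lit 0) (p (nat_lit 0x28212) (nat_lit 0) (p (nat_lit 0x38112) (nat_lit 0) (p (nat_lit 0x20092) (nat_lit 0) (p (nat_lit 0x10012) (nat_lit 0) pn)))))))))))))))))))))))))))))) :=
  Cl.node (nat_lit 0x380c2) (nat_lit 2) (by decide +kernel) (ClAll.succ (ClAll.succ ClAll.zero s704) n178)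

def n245 : Cl (O (nat_lit 5)) (R (nat_lit 14353))
    (p (nat_lit 0x200004) (nat_lit 0) (p (nat_lit 0xb000c) (nat_lit 0) (p (nat_lit 0x380c2) (nat_lit 1) (p (nat_lit 0x3c4aa) (nat_lit 7) (p (nat_lit 0x89) (nat_lit 1) (p (nat_lit 0xc1) (nat_lit 1) (p (nat_lit 0x101) (nat_lit 1) (p (nat_lit 0x119) (nat_lit 0) (p (nat_lit 0xd1) (nat_lit 0) (p (nat_lit 0x81) (nat_lit 0) (p (nat_lit 0x41) (nat_lit 1) (p (nat_lit 0x10a0b0a89089a) (nat_lit 0) (p (nat_lit 0x98a8a08881a) (nat_lit 0) (p (nat_lit 0x109088988079a) (nat_lit 0) (p (nat_lit 0x8880907871a) (nat_lit 0) (p (nat_lit 0x8000000000800080887068a) (nat_lit 0) (p (nat_lit 0x10888068602) (nat_lit 0) (p (nat_lit 0x807860582) (nat_lit 0) (p (nat_lit 0x10607058502) (nat_lit 0) (p (nat_lit 0x586850482) (nat_lit 0) (p (nat_lit 0x16000c) (nat_lit 0) (p (nat_lit 0x68612) (nat_lit 0) (p (nat_lit 0x50592) (nat_lit 0) (p (nat_lit 0x40512)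 (nat_lit 0) (p (nat_lit 0x50312) (nat_lit 0) (p (nat_lit 0x38292) (nat_lit 0) (p (nat_lit 0x28212) (nat_lit 0) (p (nat_lit 0x38112) (nat_lit 0) (p (nat_lit 0x20092) (nat_lit 0) (p (nat_lit 0x10012) (nat_lit 0) pn)))))))))))))))))))))))))))))) :=
  Cl.node (nat_lit 0xc9) (nat_lit 2) (by decide +kernel) (ClAll.succ (ClAll.succ ClAll.zero n179) s746)

def n246 : Cl (O (nat_lit 5)) (R (nat_lit 14353))
    (p (nat_lit 0x200004) (nat_lit 0) (p (nat_lit 0x380c2) (nat_lit 0) (p (nat_lit 0x44c2a) (nat_lit 0) (p (nat_lit 0x109) (nat_lit 0) (p (nat_lit 0x89) (nat_lit 1) (p (nat_lit 0xc9) (nat_lit 1) (p (nat_lit 0xc1) (nat_lit 0) (p (nat_lit 0x119) (nat_lit 1) (p (nat_lit 0xd1) (nat_lit 0) (p (nat_lit 0x81) (nat_lit 0) (p (nat_lit 0x41) (nat_lit 1) (p (nat_lit 0x10a0b0a89089a) (nat_lit 0) (p (nat_lit 0x98a8a08881a) (nat_lit 0) (p (nat_lit 0x109088988079a) (nat_lit 0) (p (nat_lit 0x8880907871a)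 (nat_lit 0) (p (nat_lit 0x8000000000800080887068a) (nat_lit 0) (p (nat_lit 0x10888068602) (nat_lit 0) (p (nat_lit 0x807860582) (nat_lit 0) (p (nat_lit 0x10607058502) (nat_lit 0) (p (nat_lit 0x586850482) (nat_lit 0) (p (nat_lit 0x16000c) (nat_lit 0) (p (nat_lit 0x68612) (nat_lit 0) (p (nat_lit 0x50592) (nat_lit 0) (p (nat_lit 0x40512) (nat_lit 0) (p (nat_lit 0x50312) (nat_lit 0) (p (nat_lit 0x38292) (nat_lit 0) (p (nat_lit 0x28212) (nat_lit 0) (p (nat_lit 0x38112) (nat_lit 0) (p (nat_lit 0x20092) (nat_lit 0) (p (nat_lit 0x10012) (nat_lit 0) pn)))))))))))))))))))))))))))))) :=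
  Cl.node (nat_lit 0x109) (nat_lit 2) (by decide +kernel) (ClAll.succ (ClAll.succ ClAll.zero s768) n180)

def n247 : Cl (O (nat_lit 5)) (R (nat_lit 14353))
    (p (nat_lit 0x109) (nat_lit 1) (p (nat_lit 0x380c2) (nat_lit 0) (p (nat_lit 0x44c2a) (nat_lit 1) (p (nat_lit 0x109) (nat_lit 0) (p (nat_lit 0x89) (nat_lit 1) (p (nat_lit 0xc9) (nat_lit 1) (p (nat_lit 0xc1) (nat_lit 0) (p (nat_lit 0x119) (nat_lit 1) (p (nat_lit 0xd1) (nat_lit 0) (p (nat_lit 0x81) (nat_lit 0) (p (nat_lit 0x41) (nat_lit 1) (p (nat_lit 0x10a0b0a89089a) (nat_lit 0) (p (nat_lit 0x98a8a08881a) (nat_lit 0) (p (nat_lit 0x109088988079a) (nat_lit 0) (p (nat_lit 0x8880907871a) (nat_lit 0) (p (nat_lit 0x8000000000800080887068a) (nat_lit 0) (p (nat_lit 0x10888068602) (nat_lit 0) (p (nat_lit 0x807860582) (nat_lit 0) (p (nat_lit 0x10607058502) (nat_lit 0) (p (nat_lit 0x586850482) (nat_lit 0) (p (nat_lit 0x16000c)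 (nat_lit 0) (p (nat_lit 0x68612) (nat_lit 0) (p (nat_lit 0x50592) (nat_lit 0) (p (nat_lit 0x40512) (nat_lit 0) (p (nat_lit 0x50312) (nat_lit 0) (p (nat_lit 0x38292) (nat_lit 0) (p (nat_lit 0x28212) (nat_lit 0) (p (nat_lit 0x38112) (nat_lit 0) (p (nat_lit 0x20092) (nat_lit 0) (p (nat_lit 0x10012) (nat_lit 0) pn)))))))))))))))))))))))))))))) :=
  Cl.node (nat_lit 0x3c4aa) (nat_lit 12) (by decide +kernel) (ClAll.succ (ClAll.succ (ClAll.succ (ClAll.succ (ClAll.succ (ClAll.succ (ClAll.succ (ClAll.succ (ClAll.succ (ClAll.succ (ClAll.succ (ClAll.succ ClAll.zero s783) s784) s785) s786) s787) s788) s789) s790) s791) s792) s793) s794)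

def n248 : Cl (O (nat_lit 5)) (R (nat_lit 14353))
    (p (nat_lit 0xb000c) (nat_lit 0) (p (nat_lit 0x380c2) (nat_lit 1) (p (nat_lit 0x3c4aa) (nat_lit 10) (p (nat_lit 0x109) (nat_lit 1) (p (nat_lit 0x89) (nat_lit 1) (p (nat_lit 0xc9) (nat_lit 1) (p (nat_lit 0xc1) (nat_lit 0) (p (nat_lit 0x119) (nat_lit 1) (p (nat_lit 0xd1) (nat_lit 0) (p (nat_lit 0x81) (nat_lit 0) (p (nat_lit 0x41) (nat_lit 1) (p (nat_lit 0x10a0b0a89089a) (nat_lit 0) (p (nat_lit 0x98a8a08881a) (nat_lit 0) (p (nat_lit 0x109088988079a) (nat_lit 0) (p (nat_lit 0x8880907871a) (nat_lit 0) (p (nat_lit 0x8000000000800080887068a) (nat_lit 0) (p (nat_lit 0x10888068602) (nat_lit 0) (p (nat_lit 0x807860582) (nat_lit 0) (p (nat_lit 0x10607058502) (nat_lit 0) (p (nat_lit 0x586850482) (nat_lit 0) (p (nat_lit 0x16000c) (nat_lit 0) (p (nat_lit 0x68612) (nat_lit 0) (p (nat_lit 0x50592) (nat_lit 0) (p (nat_lit 0x40512) (nat_lit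 0) (p (nat_lit 0x50312) (nat_lit 0) (p (nat_lit 0x38292) (nat_lit 0) (p (nat_lit 0x28212) (nat_lit 0) (p (nat_lit 0x38112) (nat_lit 0) (p (nat_lit 0x20092) (nat_lit 0) (p (nat_lit 0x10012) (nat_lit 0) pn)))))))))))))))))))))))))))))) :=
  Cl.node (nat_lit 0x200004) (nat_lit 2) (by decide +kernel) (ClAll.succ (ClAll.succ ClAll.zero n181) s825)

def n249 : Cl (O (nat_lit 5)) (R (nat_lit 14353))
    (p (nat_lit 0xb000c) (nat_lit 1) (p (nat_lit 0x380c2) (nat_lit 1) (p (nat_lit 0x3c4aa) (nat_lit 10) (p (nat_lit 0x109) (nat_lit 1) (p (nat_lit 0x89) (nat_lit 1) (p (nat_lit 0xc9) (nat_lit 1) (p (nat_lit 0xc1) (nat_lit 0) (p (nat_lit 0x119) (nat_lit 1) (p (nat_lit 0xd1) (nat_lit 0) (p (nat_lit 0x81) (nat_lit 0) (p (nat_lit 0x41) (nat_lit 1) (p (nat_lit 0x10a0b0a89089a) (nat_lit 0) (p (nat_lit 0x98a8a08881a) (nat_lit 0) (p (nat_lit 0x109088988079a) (nat_lit 0) (p (nat_lit 0x8880907871a)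 (nat_lit 0) (p (nat_lit 0x8000000000800080887068a) (nat_lit 0) (p (nat_lit 0x10888068602) (nat_lit 0) (p (nat_lit 0x807860582) (nat_lit 0) (p (nat_lit 0x10607058502) (nat_lit 0) (p (nat_lit 0x586850482) (nat_lit 0) (p (nat_lit 0x16000c) (nat_lit 0) (p (nat_lit 0x68612) (nat_lit 0) (p (nat_lit 0x50592) (nat_lit 0) (p (nat_lit 0x40512) (nat_lit 0) (p (nat_lit 0x50312) (nat_lit 0) (p (nat_lit 0x38292) (nat_lit 0) (p (nat_lit 0x28212) (nat_lit 0) (p (nat_lit 0x38112) (nat_lit 0) (p (nat_lit 0x20092) (nat_lit 0) (p (nat_lit 0x10012) (nat_lit 0) pn)))))))))))))))))))))))))))))) :=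
  Cl.node (nat_lit 0x1fc004) (nat_lit 2) (by decide +kernel) (ClAll.succ (ClAll.succ ClAll.zero n182) s830)

def n250 : Cl (O (nat_lit 5)) (R (nat_lit 14353))
    (p (nat_lit 0x109) (nat_lit 1) (p (nat_lit 0x380c2) (nat_lit 0) (p (nat_lit 0x44c2a) (nat_lit 0) (p (nat_lit 0x109) (nat_lit 0) (p (nat_lit 0x89) (nat_lit 1) (p (nat_lit 0x101) (nat_lit 0) (p (nat_lit 0xc1) (nat_lit 1) (p (nat_lit 0x119) (nat_lit 1) (p (nat_lit 0xd1) (nat_lit 0) (p (nat_lit 0x81) (nat_lit 0) (p (nat_lit 0x41) (nat_lit 1) (p (nat_lit 0x10a0b0a89089a) (nat_lit 0) (p (nat_lit 0x98a8a08881a) (nat_lit 0) (p (nat_lit 0x109088988079a) (nat_lit 0) (p (nat_lit 0x8880907871a) (nat_lit 0) (p (nat_lit 0x8000000000800080887068a) (nat_lit 0) (p (nat_lit 0x10888068602) (nat_lit 0) (p (nat_lit 0x807860582) (nat_lit 0) (p (nat_lit 0x10607058502) (nat_lit 0) (p (nat_lit 0x586850482) (nat_lit 0) (p (nat_lit 0x16000c)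 (nat_lit 0) (p (nat_lit 0x68612) (nat_lit 0) (p (nat_lit 0x50592) (nat_lit 0) (p (nat_lit 0x40512) (nat_lit 0) (p (nat_lit 0x50312) (nat_lit 0) (p (nat_lit 0x38292) (nat_lit 0) (p (nat_lit 0x28212) (nat_lit 0) (p (nat_lit 0x38112) (nat_lit 0) (p (nat_lit 0x20092) (nat_lit 0) (p (nat_lit 0x10012) (nat_lit 0) pn)))))))))))))))))))))))))))))) :=
  Cl.node (nat_lit 0x3c4aa) (nat_lit 12) (by decide +kernel) (ClAll.succ (ClAll.succ (ClAll.succ (ClAll.succ (ClAll.succ (ClAll.succ (ClAll.succ (ClAll.succ (ClAll.succ (ClAll.succ (ClAll.succ (ClAll.succ ClAll.zero s834) s835) s836) s837) s838) s839) s840) s841) s842) s843) s844) s845)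

def n251 : Cl (O (nat_lit 5)) (R (nat_lit 14353))
    (p (nat_lit 0x109) (nat_lit 1) (p (nat_lit 0x380c2) (nat_lit 0) (p (nat_lit 0x44c2a) (nat_lit 1) (p (nat_lit 0x109) (nat_lit 0) (p (nat_lit 0x89) (nat_lit 1) (p (nat_lit 0x101) (nat_lit 0) (p (nat_lit 0xc1) (nat_lit 1) (p (nat_lit 0x119) (nat_lit 1) (p (nat_lit 0xd1) (nat_lit 0) (p (nat_lit 0x81) (nat_lit 0) (p (nat_lit 0x41) (nat_lit 1) (p (nat_lit 0x10a0b0a89089a) (nat_lit 0) (p (nat_lit 0x98a8a08881a) (nat_lit 0) (p (nat_lit 0x109088988079a) (nat_lit 0) (p (nat_lit 0x8880907871a) (nat_lit 0) (p (nat_lit 0x8000000000800080887068a) (nat_lit 0) (p (nat_lit 0x10888068602) (nat_lit 0) (p (nat_lit 0x807860582) (nat_lit 0) (p (nat_lit 0x10607058502) (nat_lit 0) (p (nat_lit 0x586850482) (nat_lit 0) (p (nat_lit 0x16000c) (nat_lit 0) (p (nat_lit 0x68612) (nat_lit 0) (p (nat_lit 0x50592) (nat_lit 0) (p (nat_lit 0x40512) (nat_lit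 0) (p (nat_lit 0x50312) (nat_lit 0) (p (nat_lit 0x38292) (nat_lit 0) (p (nat_lit 0x28212) (nat_lit 0) (p (nat_lit 0x38112) (nat_lit 0) (p (nat_lit 0x20092) (nat_lit 0) (p (nat_lit 0x10012) (nat_lit 0) pn)))))))))))))))))))))))))))))) :=
  Cl.node (nat_lit 0x41) (nat_lit 2) (by decide +kernel) (ClAll.succ (ClAll.succ ClAll.zero s847) s848)

def n252 : Cl (O (nat_lit 5)) (R (nat_lit 14353))
    (p (nat_lit 0x200014) (nat_lit 0) (p (nat_lit 0x380c2) (nat_lit 0) (p (nat_lit 0x44c2a) (nat_lit 2) (p (nat_lit 0x109) (nat_lit 0) (p (nat_lit 0x89) (nat_lit 1) (p (nat_lit 0x101) (nat_lit 0) (p (nat_lit 0xc1) (nat_lit 1) (p (nat_lit 0x119) (nat_lit 1) (p (nat_lit 0xd1) (nat_lit 0) (p (nat_lit 0x81) (nat_lit 0) (p (nat_lit 0x41) (nat_lit 1) (p (nat_lit 0x10a0b0a89089a) (nat_lit 0) (p (nat_lit 0x98a8a08881a) (nat_lit 0) (p (nat_lit 0x109088988079a) (nat_lit 0) (p (nat_lit 0x8880907871a)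 (nat_lit 0) (p (nat_lit 0x8000000000800080887068a) (nat_lit 0) (p (nat_lit 0x10888068602) (nat_lit 0) (p (nat_lit 0x807860582) (nat_lit 0) (p (nat_lit 0x10607058502) (nat_lit 0) (p (nat_lit 0x586850482) (nat_lit 0) (p (nat_lit 0x16000c) (nat_lit 0) (p (nat_lit 0x68612) (nat_lit 0) (p (nat_lit 0x50592) (nat_lit 0) (p (nat_lit 0x40512) (nat_lit 0) (p (nat_lit 0x50312) (nat_lit 0) (p (nat_lit 0x38292) (nat_lit 0) (p (nat_lit 0x28212) (nat_lit 0) (p (nat_lit 0x38112) (nat_lit 0) (p (nat_lit 0x20092) (nat_lit 0) (p (nat_lit 0x10012) (nat_lit 0) pn)))))))))))))))))))))))))))))) :=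
  Cl.node (nat_lit 0xb000c) (nat_lit 2) (by decide +kernel) (ClAll.succ (ClAll.succ ClAll.zero s850) s851)

def n253 : Cl (O (nat_lit 5)) (R (nat_lit 14353))
    (p (nat_lit 0x200004) (nat_lit 0) (p (nat_lit 0x380c2) (nat_lit 0) (p (nat_lit 0x3c4aa) (nat_lit 7) (p (nat_lit 0x109) (nat_lit 1) (p (nat_lit 0x89) (nat_lit 1) (p (nat_lit 0x101) (nat_lit 0) (p (nat_lit 0xc1) (nat_lit 1) (p (nat_lit 0x119) (nat_lit 1) (p (nat_lit 0xd1) (nat_lit 0) (p (nat_lit 0x81) (nat_lit 0) (p (nat_lit 0x41) (nat_lit 1) (p (nat_lit 0x10a0b0a89089a) (nat_lit 0) (p (nat_lit 0x98a8a08881a) (nat_lit 0) (p (nat_lit 0x109088988079a) (nat_lit 0) (p (nat_lit 0x8880907871a) (nat_lit 0) (p (nat_lit 0x8000000000800080887068a) (nat_lit 0) (p (nat_lit 0x10888068602) (nat_lit 0) (p (nat_lit 0x807860582) (nat_lit 0) (p (nat_lit 0x10607058502) (nat_lit 0) (p (nat_lit 0x586850482) (nat_lit 0) (p (nat_lit 0x16000c)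 (nat_lit 0) (p (nat_lit 0x68612) (nat_lit 0) (p (nat_lit 0x50592) (nat_lit 0) (p (nat_lit 0x40512) (nat_lit 0) (p (nat_lit 0x50312) (nat_lit 0) (p (nat_lit 0x38292) (nat_lit 0) (p (nat_lit 0x28212) (nat_lit 0) (p (nat_lit 0x38112) (nat_lit 0) (p (nat_lit 0x20092) (nat_lit 0) (p (nat_lit 0x10012) (nat_lit 0) pn)))))))))))))))))))))))))))))) :=
  Cl.node (nat_lit 0xb000c) (nat_lit 2) (by decide +kernel) (ClAll.succ (ClAll.succ ClAll.zero n183) s871)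

def n254 : Cl (O (nat_lit 5)) (R (nat_lit 14353))
    (p (nat_lit 0xb000c) (nat_lit 0) (p (nat_lit 0x380c2) (nat_lit 1) (p (nat_lit 0x3c4aa) (nat_lit 7) (p (nat_lit 0x109) (nat_lit 1) (p (nat_lit 0x89) (nat_lit 1) (p (nat_lit 0x101) (nat_lit 0) (p (nat_lit 0xc1) (nat_lit 1) (p (nat_lit 0x119) (nat_lit 1) (p (nat_lit 0xd1) (nat_lit 0) (p (nat_lit 0x81) (nat_lit 0) (p (nat_lit 0x41) (nat_lit 1) (p (nat_lit 0x10a0b0a89089a) (nat_lit 0) (p (nat_lit 0x98a8a08881a) (nat_lit 0) (p (nat_lit 0x109088988079a) (nat_lit 0) (p (nat_lit 0x8880907871a) (nat_lit 0) (p (nat_lit 0x8000000000800080887068a) (nat_lit 0) (p (nat_lit 0x10888068602) (nat_lit 0) (p (nat_lit 0x807860582) (nat_lit 0) (p (nat_lit 0x10607058502) (nat_lit 0) (p (nat_lit 0x586850482) (nat_lit 0) (p (nat_lit 0x16000c) (nat_lit 0) (p (nat_lit 0x68612) (nat_lit 0) (p (nat_lit 0x50592) (nat_lit 0) (p (nat_lit 0x40512) (nat_lit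 0) (p (nat_lit 0x50312) (nat_lit 0) (p (nat_lit 0x38292) (nat_lit 0) (p (nat_lit 0x28212) (nat_lit 0) (p (nat_lit 0x38112) (nat_lit 0) (p (nat_lit 0x20092) (nat_lit 0) (p (nat_lit 0x10012) (nat_lit 0) pn)))))))))))))))))))))))))))))) :=
  Cl.node (nat_lit 0x200004) (nat_lit 2) (by decide +kernel) (ClAll.succ (ClAll.succ ClAll.zero n184) s876)

def n255 : Cl (O (nat_lit 5)) (R (nat_lit 14353))
    (p (nat_lit 0xb000c) (nat_lit 1) (p (nat_lit 0x380c2) (nat_lit 1) (p (nat_lit 0x3c4aa) (nat_lit 7) (p (nat_lit 0x109) (nat_lit 1) (p (nat_lit 0x89) (nat_lit 1) (p (nat_lit 0x101) (nat_lit 0) (p (nat_lit 0xc1) (nat_lit 1) (p (nat_lit 0x119) (nat_lit 1) (p (nat_lit 0xd1) (nat_lit 0) (p (nat_lit 0x81) (nat_lit 0) (p (nat_lit 0x41) (nat_lit 1) (p (nat_lit 0x10a0b0a89089a) (nat_lit 0) (p (nat_lit 0x98a8a08881a) (nat_lit 0) (p (nat_lit 0x109088988079a) (nat_lit 0) (p (nat_lit 0x8880907871a)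 (nat_lit 0) (p (nat_lit 0x8000000000800080887068a) (nat_lit 0) (p (nat_lit 0x10888068602) (nat_lit 0) (p (nat_lit 0x807860582) (nat_lit 0) (p (nat_lit 0x10607058502) (nat_lit 0) (p (nat_lit 0x586850482) (nat_lit 0) (p (nat_lit 0x16000c) (nat_lit 0) (p (nat_lit 0x68612) (nat_lit 0) (p (nat_lit 0x50592) (nat_lit 0) (p (nat_lit 0x40512) (nat_lit 0) (p (nat_lit 0x50312) (nat_lit 0) (p (nat_lit 0x38292) (nat_lit 0) (p (nat_lit 0x28212) (nat_lit 0) (p (nat_lit 0x38112) (nat_lit 0) (p (nat_lit 0x20092) (nat_lit 0) (p (nat_lit 0x10012) (nat_lit 0) pn)))))))))))))))))))))))))))))) :=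
  Cl.node (nat_lit 0x1fc004) (nat_lit 2) (by decide +kernel) (ClAll.succ (ClAll.succ ClAll.zero n185) s882)

def n256 : Cl (O (nat_lit 5)) (R (nat_lit 14353))
    (p (nat_lit 0xb000c) (nat_lit 0) (p (nat_lit 0x380c2) (nat_lit 1) (p (nat_lit 0x3c4aa) (nat_lit 10) (p (nat_lit 0x109) (nat_lit 1) (p (nat_lit 0x89) (nat_lit 1) (p (nat_lit 0x101) (nat_lit 0) (p (nat_lit 0xc1) (nat_lit 1) (p (nat_lit 0x119) (nat_lit 1) (p (nat_lit 0xd1) (nat_lit 0) (p (nat_lit 0x81) (nat_lit 0) (p (nat_lit 0x41) (nat_lit 1) (p (nat_lit 0x10a0b0a89089a) (nat_lit 0) (p (nat_lit 0x98a8a08881a) (nat_lit 0) (p (nat_lit 0x109088988079a) (nat_lit 0) (p (nat_lit 0x8880907871a) (nat_lit 0) (p (nat_lit 0x8000000000800080887068a) (nat_lit 0) (p (nat_lit 0x10888068602) (nat_lit 0) (p (nat_lit 0x807860582) (nat_lit 0) (p (nat_lit 0x10607058502) (nat_lit 0) (p (nat_lit 0x586850482) (nat_lit 0) (p (nat_lit 0x16000c)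 (nat_lit 0) (p (nat_lit 0x68612) (nat_lit 0) (p (nat_lit 0x50592) (nat_lit 0) (p (nat_lit 0x40512) (nat_lit 0) (p (nat_lit 0x50312) (nat_lit 0) (p (nat_lit 0x38292) (nat_lit 0) (p (nat_lit 0x28212) (nat_lit 0) (p (nat_lit 0x38112) (nat_lit 0) (p (nat_lit 0x20092) (nat_lit 0) (p (nat_lit 0x10012) (nat_lit 0) pn)))))))))))))))))))))))))))))) :=
  Cl.node (nat_lit 0x200014) (nat_lit 2) (by decide +kernel) (ClAll.succ (ClAll.succ ClAll.zero n186) s890)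

def n257 : Cl (O (nat_lit 5)) (R (nat_lit 14353))
    (p (nat_lit 0x200004) (nat_lit 0) (p (nat_lit 0xb000c) (nat_lit 0) (p (nat_lit 0x380c2) (nat_lit 0) (p (nat_lit 0x3c4aa) (nat_lit 7) (p (nat_lit 0x89) (nat_lit 1) (p (nat_lit 0x101) (nat_lit 1) (p (nat_lit 0xc1) (nat_lit 1) (p (nat_lit 0x119) (nat_lit 1) (p (nat_lit 0xd1) (nat_lit 0) (p (nat_lit 0x81) (nat_lit 0) (p (nat_lit 0x41) (nat_lit 1) (p (nat_lit 0x10a0b0a89089a) (nat_lit 0) (p (nat_lit 0x98a8a08881a) (nat_lit 0) (p (nat_lit 0x109088988079a) (nat_lit 0) (p (nat_lit 0x8880907871a) (nat_lit 0) (p (nat_lit 0x8000000000800080887068a) (nat_lit 0) (p (nat_lit 0x10888068602) (nat_lit 0) (p (nat_lit 0x807860582) (nat_lit 0) (p (nat_lit 0x10607058502) (nat_lit 0) (p (nat_lit 0x586850482) (nat_lit 0) (p (nat_lit 0x16000c) (nat_lit 0) (p (nat_lit 0x68612) (nat_lit 0) (p (nat_lit 0x50592) (nat_lit 0) (p (nat_lit 0x40512)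 (nat_lit 0) (p (nat_lit 0x50312) (nat_lit 0) (p (nat_lit 0x38292) (nat_lit 0) (p (nat_lit 0x28212) (nat_lit 0) (p (nat_lit 0x38112) (nat_lit 0) (p (nat_lit 0x20092) (nat_lit 0) (p (nat_lit 0x10012) (nat_lit 0) pn)))))))))))))))))))))))))))))) :=
  Cl.node (nat_lit 0x101) (nat_lit 2) (by decide +kernel) (ClAll.succ (ClAll.succ ClAll.zero n187) s917)

def n258 : Cl (O (nat_lit 5)) (R (nat_lit 14353))
    (p (nat_lit 0x100004) (nat_lit 0) (p (nat_lit 0x200004) (nat_lit 0) (p (nat_lit 0x380c2) (nat_lit 1) (p (nat_lit 0x3c4aa) (nat_lit 7) (p (nat_lit 0x89) (nat_lit 1) (p (nat_lit 0x101) (nat_lit 1) (p (nat_lit 0xc1) (nat_lit 1) (p (nat_lit 0x119) (nat_lit 1) (p (nat_lit 0xd1) (nat_lit 0) (p (nat_lit 0x81) (nat_lit 0) (p (nat_lit 0x41) (nat_lit 1) (p (nat_lit 0x10a0b0a89089a) (nat_lit 0) (p (nat_lit 0x98a8a08881a) (nat_lit 0) (p (nat_lit 0x109088988079a) (nat_lit 0) (p (nat_lit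 0x8880907871a) (nat_lit 0) (p (nat_lit 0x8000000000800080887068a) (nat_lit 0) (p (nat_lit 0x10888068602) (nat_lit 0) (p (nat_lit 0x807860582) (nat_lit 0) (p (nat_lit 0x10607058502) (nat_lit 0) (p (nat_lit 0x586850482) (nat_lit 0) (p (nat_lit 0x16000c) (nat_lit 0) (p (nat_lit 0x68612) (nat_lit 0) (p (nat_lit 0x50592) (nat_lit 0) (p (nat_lit 0x40512) (nat_lit 0) (p (nat_lit 0x50312) (nat_lit 0) (p (nat_lit 0x38292) (nat_lit 0) (p (nat_lit 0x28212) (nat_lit 0) (p (nat_lit 0x38112) (nat_lit 0) (p (nat_lit 0x20092) (nat_lit 0) (p (nat_lit 0x10012) (nat_lit 0) pn)))))))))))))))))))))))))))))) :=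
  Cl.node (nat_lit 0xb000c) (nat_lit 2) (by decide +kernel) (ClAll.succ (ClAll.succ ClAll.zero n188) n189)

def n259 : Cl (O (nat_lit 5)) (R (nat_lit 14353))
    (p (nat_lit 0x200014) (nat_lit 0) (p (nat_lit 0xb000c) (nat_lit 0) (p (nat_lit 0x380c2) (nat_lit 0) (p (nat_lit 0x3c4aa) (nat_lit 9) (p (nat_lit 0x89) (nat_lit 1) (p (nat_lit 0x101) (nat_lit 1) (p (nat_lit 0xc1) (nat_lit 1) (p (nat_lit 0x119) (nat_lit 1) (p (nat_lit 0xd1) (nat_lit 0) (p (nat_lit 0x81) (nat_lit 0) (p (nat_lit 0x41) (nat_lit 1) (p (nat_lit 0x10a0b0a89089a) (nat_lit 0) (p (nat_lit 0x98a8a08881a) (nat_lit 0) (p (nat_lit 0x109088988079a) (nat_lit 0) (p (nat_lit 0x8880907871a) (nat_lit 0) (p (nat_lit 0x8000000000800080887068a) (nat_lit 0) (p (nat_lit 0x10888068602) (nat_lit 0) (p (nat_lit 0x807860582) (nat_lit 0) (p (nat_lit 0x10607058502) (nat_lit 0) (p (nat_lit 0x586850482) (nat_lit 0) (p (nat_lit 0x16000c)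 (nat_lit 0) (p (nat_lit 0x68612) (nat_lit 0) (p (nat_lit 0x50592) (nat_lit 0) (p (nat_lit 0x40512) (nat_lit 0) (p (nat_lit 0x50312) (nat_lit 0) (p (nat_lit 0x38292) (nat_lit 0) (p (nat_lit 0x28212) (nat_lit 0) (p (nat_lit 0x38112) (nat_lit 0) (p (nat_lit 0x20092) (nat_lit 0) (p (nat_lit 0x10012) (nat_lit 0) pn)))))))))))))))))))))))))))))) :=
  Cl.node (nat_lit 0x100014) (nat_lit 2) (by decide +kernel) (ClAll.succ (ClAll.succ ClAll.zero s931) s932)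

def n260 : Cl (O (nat_lit 5)) (R (nat_lit 14353))
    (p (nat_lit 0x1fc004) (nat_lit 0) (p (nat_lit 0xb000c) (nat_lit 1) (p (nat_lit 0x380c2) (nat_lit 1) (p (nat_lit 0x3c4aa) (nat_lit 10) (p (nat_lit 0x89) (nat_lit 1) (p (nat_lit 0x101) (nat_lit 1) (p (nat_lit 0xc1) (nat_lit 1) (p (nat_lit 0x119) (nat_lit 1) (p (nat_lit 0xd1) (nat_lit 0) (p (nat_lit 0x81) (nat_lit 0) (p (nat_lit 0x41) (nat_lit 1) (p (nat_lit 0x10a0b0a89089a) (nat_lit 0) (p (nat_lit 0x98a8a08881a) (nat_lit 0) (p (nat_lit 0x109088988079a) (nat_lit 0) (p (nat_lit 0x8880907871a) (nat_lit 0) (p (nat_lit 0x8000000000800080887068a) (nat_lit 0) (p (nat_lit 0x10888068602) (nat_lit 0) (p (nat_lit 0x807860582) (nat_lit 0) (p (nat_lit 0x10607058502) (nat_lit 0) (p (nat_lit 0x586850482) (nat_lit 0) (p (nat_lit 0x16000c) (nat_lit 0) (p (nat_lit 0x68612) (nat_lit 0) (p (nat_lit 0x50592) (nat_lit 0) (p (nat_lit 0x40512)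 (nat_lit 0) (p (nat_lit 0x50312) (nat_lit 0) (p (nat_lit 0x38292) (nat_lit 0) (p (nat_lit 0x28212) (nat_lit 0) (p (nat_lit 0x38112) (nat_lit 0) (p (nat_lit 0x20092) (nat_lit 0) (p (nat_lit 0x10012) (nat_lit 0) pn)))))))))))))))))))))))))))))) :=
  Cl.node (nat_lit 0x1fc014) (nat_lit 2) (by decide +kernel) (ClAll.succ (ClAll.succ ClAll.zero n190) s941)

def n261 : Cl (O (nat_lit 5)) (R (nat_lit 14353))
    (p (nat_lit 0x380c2) (nat_lit 0) (p (nat_lit 0x4c42a) (nat_lit 2) (p (nat_lit 0x119) (nat_lit 0) (p (nat_lit 0xc9) (nat_lit 0) (p (nat_lit 0x89) (nat_lit 1) (p (nat_lit 0x109) (nat_lit 1) (p (nat_lit 0x101) (nat_lit 0) (p (nat_lit 0x111) (nat_lit 0) (p (nat_lit 0xd1) (nat_lit 1) (p (nat_lit 0x81) (nat_lit 0) (p (nat_lit 0x41) (nat_lit 1) (p (nat_lit 0x10a0b0a89089a) (nat_lit 0) (p (nat_lit 0x98a8a08881a) (nat_lit 0) (p (nat_lit 0x109088988079a) (nat_lit 0) (p (nat_lit 0x8880907871a)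 (nat_lit 0) (p (nat_lit 0x8000000000800080887068a) (nat_lit 0) (p (nat_lit 0x10888068602) (nat_lit 0) (p (nat_lit 0x807860582) (nat_lit 0) (p (nat_lit 0x10607058502) (nat_lit 0) (p (nat_lit 0x586850482) (nat_lit 0) (p (nat_lit 0x16000c) (nat_lit 0) (p (nat_lit 0x68612) (nat_lit 0) (p (nat_lit 0x50592) (nat_lit 0) (p (nat_lit 0x40512) (nat_lit 0) (p (nat_lit 0x50312) (nat_lit 0) (p (nat_lit 0x38292) (nat_lit 0) (p (nat_lit 0x28212) (nat_lit 0) (p (nat_lit 0x38112) (nat_lit 0) (p (nat_lit 0x20092) (nat_lit 0) (p (nat_lit 0x10012) (nat_lit 0) pn)))))))))))))))))))))))))))))) :=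
  Cl.node (nat_lit 0x3c4aa) (nat_lit 12) (by decide +kernel) (ClAll.succ (ClAll.succ (ClAll.succ (ClAll.succ (ClAll.succ (ClAll.succ (ClAll.succ (ClAll.succ (ClAll.succ (ClAll.succ (ClAll.succ (ClAll.succ ClAll.zero s960) s961) s962) s963) s964) s965) s966) s967) s968) s969) s970) s971)

def n262 : Cl (O (nat_lit 5)) (R (nat_lit 14353))
    (p (nat_lit 0x380c2) (nat_lit 0) (p (nat_lit 0x4c42a) (nat_lit 2) (p (nat_lit 0x119) (nat_lit 1) (p (nat_lit 0xc9) (nat_lit 0) (p (nat_lit 0x89) (nat_lit 1) (p (nat_lit 0x109) (nat_lit 1) (p (nat_lit 0x101) (nat_lit 0) (p (nat_lit 0x111) (nat_lit 0) (p (nat_lit 0xd1) (nat_lit 1) (p (nat_lit 0x81) (nat_lit 0) (p (nat_lit 0x41) (nat_lit 1) (p (nat_lit 0x10a0b0a89089a) (nat_lit 0) (p (nat_lit 0x98a8a08881a) (nat_lit 0) (p (nat_lit 0x109088988079a) (nat_lit 0) (p (nat_lit 0x8880907871a) (nat_lit 0) (p (nat_lit 0x8000000000800080887068a) (nat_lit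 0) (p (nat_lit 0x10888068602) (nat_lit 0) (p (nat_lit 0x807860582) (nat_lit 0) (p (nat_lit 0x10607058502) (nat_lit 0) (p (nat_lit 0x586850482) (nat_lit 0) (p (nat_lit 0x16000c) (nat_lit 0) (p (nat_lit 0x68612) (nat_lit 0) (p (nat_lit 0x50592) (nat_lit 0) (p (nat_lit 0x40512) (nat_lit 0) (p (nat_lit 0x50312) (nat_lit 0) (p (nat_lit 0x38292) (nat_lit 0) (p (nat_lit 0x28212) (nat_lit 0) (p (nat_lit 0x38112) (nat_lit 0) (p (nat_lit 0x20092) (nat_lit 0) (p (nat_lit 0x10012) (nat_lit 0) pn)))))))))))))))))))))))))))))) :=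
  Cl.node (nat_lit 0x3cc2a) (nat_lit 12) (by decide +kernel) (ClAll.succ (ClAll.succ (ClAll.succ (ClAll.succ (ClAll.succ (ClAll.succ (ClAll.succ (ClAll.succ (ClAll.succ (ClAll.succ (ClAll.succ (ClAll.succ ClAll.zero s983) s984) s985) s986) s987) s988) s989) s990) s991) s992) s993) s994)

def n263 : Cl (O (nat_lit 5)) (R (nat_lit 14353))
    (p (nat_lit 0x3c4aa) (nat_lit 7) (p (nat_lit 0x89) (nat_lit 1) (p (nat_lit 0xc9) (nat_lit 1) (p (nat_lit 0x380c2) (nat_lit 0) (p (nat_lit 0x3cc2a) (nat_lit 0) (p (nat_lit 0x89) (nat_lit 0) (p (nat_lit 0x101) (nat_lit 1) (p (nat_lit 0x111) (nat_lit 0) (p (nat_lit 0xd1) (nat_lit 1) (p (nat_lit 0x81) (nat_lit 0) (p (nat_lit 0x41) (nat_lit 1) (p (nat_lit 0x10a0b0a89089a) (nat_lit 0) (p (nat_lit 0x98a8a08881a) (nat_lit 0) (p (nat_lit 0x109088988079a) (nat_lit 0) (p (nat_lit 0x8880907871a) (nat_lit 0) (p (nat_lit 0x8000000000800080887068a)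 (nat_lit 0) (p (nat_lit 0x10888068602) (nat_lit 0) (p (nat_lit 0x807860582) (nat_lit 0) (p (nat_lit 0x10607058502) (nat_lit 0) (p (nat_lit 0x586850482) (nat_lit 0) (p (nat_lit 0x16000c) (nat_lit 0) (p (nat_lit 0x68612) (nat_lit 0) (p (nat_lit 0x50592) (nat_lit 0) (p (nat_lit 0x40512) (nat_lit 0) (p (nat_lit 0x50312) (nat_lit 0) (p (nat_lit 0x38292) (nat_lit 0) (p (nat_lit 0x28212) (nat_lit 0) (p (nat_lit 0x38112) (nat_lit 0) (p (nat_lit 0x20092) (nat_lit 0) (p (nat_lit 0x10012) (nat_lit 0) pn)))))))))))))))))))))))))))))) :=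
  Cl.node (nat_lit 0x380c2) (nat_lit 2) (by decide +kernel) (ClAll.succ (ClAll.succ ClAll.zero s1025) s1026)

def n264 : Cl (O (nat_lit 5)) (R (nat_lit 14353))
    (p (nat_lit 0xc9) (nat_lit 1) (p (nat_lit 0x89) (nat_lit 1) (p (nat_lit 0xc9) (nat_lit 1) (p (nat_lit 0x380c2) (nat_lit 0) (p (nat_lit 0x3cc2a) (nat_lit 1) (p (nat_lit 0x89) (nat_lit 0) (p (nat_lit 0x101) (nat_lit 1) (p (nat_lit 0x111) (nat_lit 0) (p (nat_lit 0xd1) (nat_lit 1) (p (nat_lit 0x81) (nat_lit 0) (p (nat_lit 0x41) (nat_lit 1) (p (nat_lit 0x10a0b0a89089a) (nat_lit 0) (p (nat_lit 0x98a8a08881a) (nat_lit 0) (p (nat_lit 0x109088988079a) (nat_lit 0) (p (nat_lit 0x8880907871a) (nat_lit 0) (p (nat_lit 0x8000000000800080887068a) (nat_lit 0) (p (nat_lit 0x10888068602) (nat_lit 0) (p (nat_lit 0x807860582) (nat_lit 0) (p (nat_lit 0x10607058502) (nat_lit 0) (p (nat_lit 0x586850482) (nat_lit 0) (p (nat_lit 0x16000c)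 (nat_lit 0) (p (nat_lit 0x68612) (nat_lit 0) (p (nat_lit 0x50592) (nat_lit 0) (p (nat_lit 0x40512) (nat_lit 0) (p (nat_lit 0x50312) (nat_lit 0) (p (nat_lit 0x38292) (nat_lit 0) (p (nat_lit 0x28212) (nat_lit 0) (p (nat_lit 0x38112) (nat_lit 0) (p (nat_lit 0x20092) (nat_lit 0) (p (nat_lit 0x10012) (nat_lit 0) pn)))))))))))))))))))))))))))))) :=
  Cl.node (nat_lit 0x109) (nat_lit 2) (by decide +kernel) (ClAll.succ (ClAll.succ ClAll.zero s1034) s1035)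

def n265 : Cl (O (nat_lit 5)) (R (nat_lit 14353))
    (p (nat_lit 0xd1) (nat_lit 1) (p (nat_lit 0xb000c) (nat_lit 0) (p (nat_lit 0x380c2) (nat_lit 0) (p (nat_lit 0x3cc2a) (nat_lit 0) (p (nat_lit 0xc9) (nat_lit 0) (p (nat_lit 0x89) (nat_lit 1) (p (nat_lit 0x101) (nat_lit 1) (p (nat_lit 0x111) (nat_lit 0) (p (nat_lit 0xd1) (nat_lit 1) (p (nat_lit 0x81) (nat_lit 0) (p (nat_lit 0x41) (nat_lit 1) (p (nat_lit 0x10a0b0a89089a) (nat_lit 0) (p (nat_lit 0x98a8a08881a) (nat_lit 0) (p (nat_lit 0x109088988079a) (nat_lit 0) (p (nat_lit 0x8880907871a) (nat_lit 0) (p (nat_lit 0x8000000000800080887068a) (nat_lit 0) (p (nat_lit 0x10888068602) (nat_lit 0) (p (nat_lit 0x807860582) (nat_lit 0) (p (nat_lit 0x10607058502) (nat_lit 0) (p (nat_lit 0x586850482) (nat_lit 0) (p (nat_lit 0x16000c) (nat_lit 0) (p (nat_lit 0x68612) (nat_lit 0) (p (nat_lit 0x50592) (nat_lit 0) (p (nat_lit 0x40512) (nat_lit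 0) (p (nat_lit 0x50312) (nat_lit 0) (p (nat_lit 0x38292) (nat_lit 0) (p (nat_lit 0x28212) (nat_lit 0) (p (nat_lit 0x38112) (nat_lit 0) (p (nat_lit 0x20092) (nat_lit 0) (p (nat_lit 0x10012) (nat_lit 0) pn)))))))))))))))))))))))))))))) :=
  Cl.node (nat_lit 0x3c4aa) (nat_lit 12) (by decide +kernel) (ClAll.succ (ClAll.succ (ClAll.succ (ClAll.succ (ClAll.succ (ClAll.succ (ClAll.succ (ClAll.succ (ClAll.succ (ClAll.succ (ClAll.succ (ClAll.succ ClAll.zero s1048) s1049) s1050) s1051) s1052) s1053) s1054) s1055) s1056) s1057) s1058) s1059)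

def n266 : Cl (O (nat_lit 5)) (R (nat_lit 14353))
    (p (nat_lit 0x41) (nat_lit 0) (p (nat_lit 0xb000c) (nat_lit 0) (p (nat_lit 0x380c2) (nat_lit 0) (p (nat_lit 0x3cc2a) (nat_lit 0) (p (nat_lit 0x109) (nat_lit 0) (p (nat_lit 0xc9) (nat_lit 1) (p (nat_lit 0x89) (nat_lit 1) (p (nat_lit 0x111) (nat_lit 1) (p (nat_lit 0xd1) (nat_lit 1) (p (nat_lit 0x81) (nat_lit 0) (p (nat_lit 0x41) (nat_lit 1) (p (nat_lit 0x10a0b0a89089a) (nat_lit 0) (p (nat_lit 0x98a8a08881a) (nat_lit 0) (p (nat_lit 0x109088988079a) (nat_lit 0) (p (nat_lit 0x8880907871a) (nat_lit 0) (p (nat_lit 0x8000000000800080887068a) (nat_lit 0) (p (nat_lit 0x10888068602) (nat_lit 0) (p (nat_lit 0x807860582) (nat_lit 0) (p (nat_lit 0x10607058502) (nat_lit 0) (p (nat_lit 0x586850482) (nat_lit 0) (p (nat_lit 0x16000c) (nat_lit 0) (p (nat_lit 0x68612) (nat_lit 0) (p (nat_lit 0x50592) (nat_lit 0) (p (nat_lit 0x40512) (nat_lit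 0) (p (nat_lit 0x50312) (nat_lit 0) (p (nat_lit 0x38292) (nat_lit 0) (p (nat_lit 0x28212) (nat_lit 0) (p (nat_lit 0x38112) (nat_lit 0) (p (nat_lit 0x20092) (nat_lit 0) (p (nat_lit 0x10012) (nat_lit 0) pn)))))))))))))))))))))))))))))) :=
  Cl.node (nat_lit 0x89) (nat_lit 2) (by decide +kernel) (ClAll.succ (ClAll.succ ClAll.zero s1093) n191)

def n267 : Cl (O (nat_lit 5)) (R (nat_lit 14353))
    (p (nat_lit 0xb000c) (nat_lit 0) (p (nat_lit 0x380c2) (nat_lit 0) (p (nat_lit 0x3c4aa) (nat_lit 7) (p (nat_lit 0xd1) (nat_lit 1) (p (nat_lit 0x111) (nat_lit 1) (p (nat_lit 0x109) (nat_lit 0) (p (nat_lit 0x101) (nat_lit 0) (p (nat_lit 0x119) (nat_lit 0) (p (nat_lit 0xc1) (nat_lit 0) (p (nat_lit 0x81) (nat_lit 1) (p (nat_lit 0x41) (nat_lit 1) (p (nat_lit 0x10a0b0a89089a) (nat_lit 0) (p (nat_lit 0x98a8a08881a) (nat_lit 0) (p (nat_lit 0x109088988079a) (nat_lit 0) (p (nat_lit 0x8880907871a)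 (nat_lit 0) (p (nat_lit 0x8000000000800080887068a) (nat_lit 0) (p (nat_lit 0x10888068602) (nat_lit 0) (p (nat_lit 0x807860582) (nat_lit 0) (p (nat_lit 0x10607058502) (nat_lit 0) (p (nat_lit 0x586850482) (nat_lit 0) (p (nat_lit 0x16000c) (nat_lit 0) (p (nat_lit 0x68612) (nat_lit 0) (p (nat_lit 0x50592) (nat_lit 0) (p (nat_lit 0x40512) (nat_lit 0) (p (nat_lit 0x50312) (nat_lit 0) (p (nat_lit 0x38292) (nat_lit 0) (p (nat_lit 0x28212) (nat_lit 0) (p (nat_lit 0x38112) (nat_lit 0) (p (nat_lit 0x20092) (nat_lit 0) (p (nat_lit 0x10012) (nat_lit 0) pn)))))))))))))))))))))))))))))) :=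
  Cl.node (nat_lit 0x200004) (nat_lit 2) (by decide +kernel) (ClAll.succ (ClAll.succ ClAll.zero n192) s1139)

def n268 : Cl (O (nat_lit 5)) (R (nat_lit 14353))
    (p (nat_lit 0xb000c) (nat_lit 0) (p (nat_lit 0x380c2) (nat_lit 1) (p (nat_lit 0x3c4aa) (nat_lit 7) (p (nat_lit 0xd1) (nat_lit 1) (p (nat_lit 0x111) (nat_lit 1) (p (nat_lit 0x109) (nat_lit 0) (p (nat_lit 0x101) (nat_lit 0) (p (nat_lit 0x119) (nat_lit 0) (p (nat_lit 0xc1) (nat_lit 0) (p (nat_lit 0x81) (nat_lit 1) (p (nat_lit 0x41) (nat_lit 1) (p (nat_lit 0x10a0b0a89089a) (nat_lit 0) (p (nat_lit 0x98a8a08881a) (nat_lit 0) (p (nat_lit 0x109088988079a) (nat_lit 0) (p (nat_lit 0x8880907871a) (nat_lit 0) (p (nat_lit 0x8000000000800080887068a) (nat_lit 0) (p (nat_lit 0x10888068602) (nat_lit 0) (p (nat_lit 0x807860582) (nat_lit 0) (p (nat_lit 0x10607058502) (nat_lit 0) (p (nat_lit 0x586850482) (nat_lit 0) (p (nat_lit 0x16000c)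 (nat_lit 0) (p (nat_lit 0x68612) (nat_lit 0) (p (nat_lit 0x50592) (nat_lit 0) (p (nat_lit 0x40512) (nat_lit 0) (p (nat_lit 0x50312) (nat_lit 0) (p (nat_lit 0x38292) (nat_lit 0) (p (nat_lit 0x28212) (nat_lit 0) (p (nat_lit 0x38112) (nat_lit 0) (p (nat_lit 0x20092) (nat_lit 0) (p (nat_lit 0x10012) (nat_lit 0) pn)))))))))))))))))))))))))))))) :=
  Cl.node (nat_lit 0xc9) (nat_lit 2) (by decide +kernel) (ClAll.succ (ClAll.succ ClAll.zero n193) n194)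

def n269 : Cl (O (nat_lit 5)) (R (nat_lit 14353))
    (p (nat_lit 0xb000c) (nat_lit 1) (p (nat_lit 0x380c2) (nat_lit 1) (p (nat_lit 0x3c4aa) (nat_lit 7) (p (nat_lit 0xd1) (nat_lit 1) (p (nat_lit 0x111) (nat_lit 1) (p (nat_lit 0x109) (nat_lit 0) (p (nat_lit 0x101) (nat_lit 0) (p (nat_lit 0x119) (nat_lit 0) (p (nat_lit 0xc1) (nat_lit 0) (p (nat_lit 0x81) (nat_lit 1) (p (nat_lit 0x41) (nat_lit 1) (p (nat_lit 0x10a0b0a89089a) (nat_lit 0) (p (nat_lit 0x98a8a08881a) (nat_lit 0) (p (nat_lit 0x109088988079a) (nat_lit 0) (p (nat_lit 0x8880907871a) (nat_lit 0) (p (nat_lit 0x8000000000800080887068a) (nat_lit 0) (p (nat_lit 0x10888068602) (nat_lit 0) (p (nat_lit 0x807860582) (nat_lit 0) (p (nat_lit 0x10607058502) (nat_lit 0) (p (nat_lit 0x586850482) (nat_lit 0) (p (nat_lit 0x16000c) (nat_lit 0) (p (nat_lit 0x68612) (nat_lit 0) (p (nat_lit 0x50592) (nat_lit 0) (p (nat_lit 0x40512) (nat_lit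 0) (p (nat_lit 0x50312) (nat_lit 0) (p (nat_lit 0x38292) (nat_lit 0) (p (nat_lit 0x28212) (nat_lit 0) (p (nat_lit 0x38112) (nat_lit 0) (p (nat_lit 0x20092) (nat_lit 0) (p (nat_lit 0x10012) (nat_lit 0) pn)))))))))))))))))))))))))))))) :=
  Cl.node (nat_lit 0x1fc004) (nat_lit 2) (by decide +kernel) (ClAll.succ (ClAll.succ ClAll.zero n195) s1169)

def n270 : Cl (O (nat_lit 5)) (R (nat_lit 14353))
    (p (nat_lit 0xb000c) (nat_lit 0) (p (nat_lit 0x380c2) (nat_lit 1) (p (nat_lit 0x3c4aa) (nat_lit 10) (p (nat_lit 0xd1) (nat_lit 1) (p (nat_lit 0x111) (nat_lit 1) (p (nat_lit 0x109) (nat_lit 0) (p (nat_lit 0x101) (nat_lit 0) (p (nat_lit 0x119) (nat_lit 0) (p (nat_lit 0xc1) (nat_lit 0) (p (nat_lit 0x81) (nat_lit 1) (p (nat_lit 0x41) (nat_lit 1) (p (nat_lit 0x10a0b0a89089a) (nat_lit 0) (p (nat_lit 0x98a8a08881a) (nat_lit 0) (p (nat_lit 0x109088988079a) (nat_lit 0) (p (nat_lit 0x8880907871a)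 (nat_lit 0) (p (nat_lit 0x8000000000800080887068a) (nat_lit 0) (p (nat_lit 0x10888068602) (nat_lit 0) (p (nat_lit 0x807860582) (nat_lit 0) (p (nat_lit 0x10607058502) (nat_lit 0) (p (nat_lit 0x586850482) (nat_lit 0) (p (nat_lit 0x16000c) (nat_lit 0) (p (nat_lit 0x68612) (nat_lit 0) (p (nat_lit 0x50592) (nat_lit 0) (p (nat_lit 0x40512) (nat_lit 0) (p (nat_lit 0x50312) (nat_lit 0) (p (nat_lit 0x38292) (nat_lit 0) (p (nat_lit 0x28212) (nat_lit 0) (p (nat_lit 0x38112) (nat_lit 0) (p (nat_lit 0x20092) (nat_lit 0) (p (nat_lit 0x10012) (nat_lit 0) pn)))))))))))))))))))))))))))))) :=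
  Cl.node (nat_lit 0x200004) (nat_lit 2) (by decide +kernel) (ClAll.succ (ClAll.succ ClAll.zero n196) s1178)

def n271 : Cl (O (nat_lit 5)) (R (nat_lit 14353))
    (p (nat_lit 0xb000c) (nat_lit 0) (p (nat_lit 0x380c2) (nat_lit 0) (p (nat_lit 0x3c4aa) (nat_lit 7) (p (nat_lit 0xd1) (nat_lit 1) (p (nat_lit 0xc9) (nat_lit 0) (p (nat_lit 0x109) (nat_lit 1) (p (nat_lit 0x101) (nat_lit 0) (p (nat_lit 0x119) (nat_lit 0) (p (nat_lit 0xc1) (nat_lit 0) (p (nat_lit 0x81) (nat_lit 1) (p (nat_lit 0x41) (nat_lit 1) (p (nat_lit 0x10a0b0a89089a) (nat_lit 0) (p (nat_lit 0x98a8a08881a) (nat_lit 0) (p (nat_lit 0x109088988079a) (nat_lit 0) (p (nat_lit 0x8880907871a) (nat_lit 0) (p (nat_lit 0x8000000000800080887068a) (nat_lit 0) (p (nat_lit 0x10888068602) (nat_lit 0) (p (nat_lit 0x807860582) (nat_lit 0) (p (nat_lit 0x10607058502) (nat_lit 0) (p (nat_lit 0x586850482) (nat_lit 0) (p (nat_lit 0x16000c)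 (nat_lit 0) (p (nat_lit 0x68612) (nat_lit 0) (p (nat_lit 0x50592) (nat_lit 0) (p (nat_lit 0x40512) (nat_lit 0) (p (nat_lit 0x50312) (nat_lit 0) (p (nat_lit 0x38292) (nat_lit 0) (p (nat_lit 0x28212) (nat_lit 0) (p (nat_lit 0x38112) (nat_lit 0) (p (nat_lit 0x20092) (nat_lit 0) (p (nat_lit 0x10012) (nat_lit 0) pn)))))))))))))))))))))))))))))) :=
  Cl.node (nat_lit 0x119) (nat_lit 2) (by decide +kernel) (ClAll.succ (ClAll.succ ClAll.zero s1189) n197)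

def n272 : Cl (O (nat_lit 5)) (R (nat_lit 14353))
    (p (nat_lit 0xb000c) (nat_lit 0) (p (nat_lit 0x380c2) (nat_lit 1) (p (nat_lit 0x3c4aa) (nat_lit 7) (p (nat_lit 0xd1) (nat_lit 1) (p (nat_lit 0xc9) (nat_lit 0) (p (nat_lit 0x109) (nat_lit 1) (p (nat_lit 0x101) (nat_lit 0) (p (nat_lit 0x119) (nat_lit 0) (p (nat_lit 0xc1) (nat_lit 0) (p (nat_lit 0x81) (nat_lit 1) (p (nat_lit 0x41) (nat_lit 1) (p (nat_lit 0x10a0b0a89089a) (nat_lit 0) (p (nat_lit 0x98a8a08881a) (nat_lit 0) (p (nat_lit 0x109088988079a) (nat_lit 0) (p (nat_lit 0x8880907871a) (nat_lit 0) (p (nat_lit 0x8000000000800080887068a) (nat_lit 0) (p (nat_lit 0x10888068602) (nat_lit 0) (p (nat_lit 0x807860582) (nat_lit 0) (p (nat_lit 0x10607058502) (nat_lit 0) (p (nat_lit 0x586850482) (nat_lit 0) (p (nat_lit 0x16000c) (nat_lit 0) (p (nat_lit 0x68612) (nat_lit 0) (p (nat_lit 0x50592) (nat_lit 0) (p (nat_lit 0x40512) (nat_lit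 0) (p (nat_lit 0x50312) (nat_lit 0) (p (nat_lit 0x38292) (nat_lit 0) (p (nat_lit 0x28212) (nat_lit 0) (p (nat_lit 0x38112) (nat_lit 0) (p (nat_lit 0x20092) (nat_lit 0) (p (nat_lit 0x10012) (nat_lit 0) pn)))))))))))))))))))))))))))))) :=
  Cl.node (nat_lit 0x200004) (nat_lit 2) (by decide +kernel) (ClAll.succ (ClAll.succ ClAll.zero n198) s1198)

def n273 : Cl (O (nat_lit 5)) (R (nat_lit 14353))
    (p (nat_lit 0xb000c) (nat_lit 1) (p (nat_lit 0x380c2) (nat_lit 1) (p (nat_lit 0x3c4aa) (nat_lit 7) (p (nat_lit 0xd1) (nat_lit 1) (p (nat_lit 0xc9) (nat_lit 0) (p (nat_lit 0x109) (nat_lit 1) (p (nat_lit 0x101) (nat_lit 0) (p (nat_lit 0x119) (nat_lit 0) (p (nat_lit 0xc1) (nat_lit 0) (p (nat_lit 0x81) (nat_lit 1) (p (nat_lit 0x41) (nat_lit 1) (p (nat_lit 0x10a0b0a89089a) (nat_lit 0) (p (nat_lit 0x98a8a08881a) (nat_lit 0) (p (nat_lit 0x109088988079a) (nat_lit 0) (p (nat_lit 0x8880907871a)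 (nat_lit 0) (p (nat_lit 0x8000000000800080887068a) (nat_lit 0) (p (nat_lit 0x10888068602) (nat_lit 0) (p (nat_lit 0x807860582) (nat_lit 0) (p (nat_lit 0x10607058502) (nat_lit 0) (p (nat_lit 0x586850482) (nat_lit 0) (p (nat_lit 0x16000c) (nat_lit 0) (p (nat_lit 0x68612) (nat_lit 0) (p (nat_lit 0x50592) (nat_lit 0) (p (nat_lit 0x40512) (nat_lit 0) (p (nat_lit 0x50312) (nat_lit 0) (p (nat_lit 0x38292) (nat_lit 0) (p (nat_lit 0x28212) (nat_lit 0) (p (nat_lit 0x38112) (nat_lit 0) (p (nat_lit 0x20092) (nat_lit 0) (p (nat_lit 0x10012) (nat_lit 0) pn)))))))))))))))))))))))))))))) :=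
  Cl.node (nat_lit 0x1fc004) (nat_lit 2) (by decide +kernel) (ClAll.succ (ClAll.succ ClAll.zero n199) s1203)

def n274 : Cl (O (nat_lit 5)) (R (nat_lit 14353))
    (p (nat_lit 0x3c4aa) (nat_lit 7) (p (nat_lit 0xc9) (nat_lit 1) (p (nat_lit 0x380c2) (nat_lit 0) (p (nat_lit 0x44c2a) (nat_lit 0) (p (nat_lit 0xd1) (nat_lit 0) (p (nat_lit 0xc9) (nat_lit 0) (p (nat_lit 0x101) (nat_lit 1) (p (nat_lit 0x119) (nat_lit 0) (p (nat_lit 0xc1) (nat_lit 0) (p (nat_lit 0x81) (nat_lit 1) (p (nat_lit 0x41) (nat_lit 1) (p (nat_lit 0x10a0b0a89089a) (nat_lit 0) (p (nat_lit 0x98a8a08881a) (nat_lit 0) (p (nat_lit 0x109088988079a) (nat_lit 0) (p (nat_lit 0x8880907871a) (nat_lit 0) (p (nat_lit 0x8000000000800080887068a) (nat_lit 0) (p (nat_lit 0x10888068602) (nat_lit 0) (p (nat_lit 0x807860582) (nat_lit 0) (p (nat_lit 0x10607058502) (nat_lit 0) (p (nat_lit 0x586850482) (nat_lit 0) (p (nat_lit 0x16000c)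 (nat_lit 0) (p (nat_lit 0x68612) (nat_lit 0) (p (nat_lit 0x50592) (nat_lit 0) (p (nat_lit 0x40512) (nat_lit 0) (p (nat_lit 0x50312) (nat_lit 0) (p (nat_lit 0x38292) (nat_lit 0) (p (nat_lit 0x28212) (nat_lit 0) (p (nat_lit 0x38112) (nat_lit 0) (p (nat_lit 0x20092) (nat_lit 0) (p (nat_lit 0x10012) (nat_lit 0) pn)))))))))))))))))))))))))))))) :=
  Cl.node (nat_lit 0x380c2) (nat_lit 2) (by decide +kernel) (ClAll.succ (ClAll.succ ClAll.zero s1217) n200)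

def n275 : Cl (O (nat_lit 5)) (R (nat_lit 14353))
    (p (nat_lit 0x89) (nat_lit 1) (p (nat_lit 0xc9) (nat_lit 1) (p (nat_lit 0x380c2) (nat_lit 0) (p (nat_lit 0x44c2a) (nat_lit 1) (p (nat_lit 0xd1) (nat_lit 0) (p (nat_lit 0xc9) (nat_lit 0) (p (nat_lit 0x101) (nat_lit 1) (p (nat_lit 0x119) (nat_lit 0) (p (nat_lit 0xc1) (nat_lit 0) (p (nat_lit 0x81) (nat_lit 1) (p (nat_lit 0x41) (nat_lit 1) (p (nat_lit 0x10a0b0a89089a) (nat_lit 0) (p (nat_lit 0x98a8a08881a) (nat_lit 0) (p (nat_lit 0x109088988079a) (nat_lit 0) (p (nat_lit 0x8880907871a) (nat_lit 0) (p (nat_lit 0x8000000000800080887068a) (nat_lit 0) (p (nat_lit 0x10888068602) (nat_lit 0) (p (nat_lit 0x807860582) (nat_lit 0) (p (nat_lit 0x10607058502) (nat_lit 0) (p (nat_lit 0x586850482) (nat_lit 0) (p (nat_lit 0x16000c) (nat_lit 0) (p (nat_lit 0x68612) (nat_lit 0) (p (nat_lit 0x50592) (nat_lit 0) (p (nat_lit 0x40512) (nat_lit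 0) (p (nat_lit 0x50312) (nat_lit 0) (p (nat_lit 0x38292) (nat_lit 0) (p (nat_lit 0x28212) (nat_lit 0) (p (nat_lit 0x38112) (nat_lit 0) (p (nat_lit 0x20092) (nat_lit 0) (p (nat_lit 0x10012) (nat_lit 0) pn)))))))))))))))))))))))))))))) :=
  Cl.node (nat_lit 0x109) (nat_lit 2) (by decide +kernel) (ClAll.succ (ClAll.succ ClAll.zero s1228) s1229)

def n276 : Cl (O (nat_lit 5)) (R (nat_lit 14353))
    (p (nat_lit 0xc1) (nat_lit 0) (p (nat_lit 0xb000c) (nat_lit 0) (p (nat_lit 0x380c2) (nat_lit 0) (p (nat_lit 0x3c4aa) (nat_lit 7) (p (nat_lit 0xd1) (nat_lit 1) (p (nat_lit 0xc9) (nat_lit 0) (p (nat_lit 0x101) (nat_lit 1) (p (nat_lit 0x119) (nat_lit 0) (p (nat_lit 0xc1) (nat_lit 0) (p (nat_lit 0x81) (nat_lit 1) (p (nat_lit 0x41) (nat_lit 1) (p (nat_lit 0x10a0b0a89089a) (nat_lit 0) (p (nat_lit 0x98a8a08881a) (nat_lit 0) (p (nat_lit 0x109088988079a) (nat_lit 0) (p (nat_lit 0x8880907871a)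 (nat_lit 0) (p (nat_lit 0x8000000000800080887068a) (nat_lit 0) (p (nat_lit 0x10888068602) (nat_lit 0) (p (nat_lit 0x807860582) (nat_lit 0) (p (nat_lit 0x10607058502) (nat_lit 0) (p (nat_lit 0x586850482) (nat_lit 0) (p (nat_lit 0x16000c) (nat_lit 0) (p (nat_lit 0x68612) (nat_lit 0) (p (nat_lit 0x50592) (nat_lit 0) (p (nat_lit 0x40512) (nat_lit 0) (p (nat_lit 0x50312) (nat_lit 0) (p (nat_lit 0x38292) (nat_lit 0) (p (nat_lit 0x28212) (nat_lit 0) (p (nat_lit 0x38112) (nat_lit 0) (p (nat_lit 0x20092) (nat_lit 0) (p (nat_lit 0x10012) (nat_lit 0) pn)))))))))))))))))))))))))))))) :=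
  Cl.node (nat_lit 0x200004) (nat_lit 2) (by decide +kernel) (ClAll.succ (ClAll.succ ClAll.zero n201) s1251)

def n277 : Cl (O (nat_lit 5)) (R (nat_lit 14353))
    (p (nat_lit 0xc1) (nat_lit 0) (p (nat_lit 0xb000c) (nat_lit 0) (p (nat_lit 0x380c2) (nat_lit 1) (p (nat_lit 0x3c4aa) (nat_lit 7) (p (nat_lit 0xd1) (nat_lit 1) (p (nat_lit 0xc9) (nat_lit 0) (p (nat_lit 0x101) (nat_lit 1) (p (nat_lit 0x119) (nat_lit 0) (p (nat_lit 0xc1) (nat_lit 0) (p (nat_lit 0x81) (nat_lit 1) (p (nat_lit 0x41) (nat_lit 1) (p (nat_lit 0x10a0b0a89089a) (nat_lit 0) (p (nat_lit 0x98a8a08881a) (nat_lit 0) (p (nat_lit 0x109088988079a) (nat_lit 0) (p (nat_lit 0x8880907871a) (nat_lit 0) (p (nat_lit 0x8000000000800080887068a) (nat_lit 0) (p (nat_lit 0x10888068602) (nat_lit 0) (p (nat_lit 0x807860582) (nat_lit 0) (p (nat_lit 0x10607058502) (nat_lit 0) (p (nat_lit 0x586850482) (nat_lit 0) (p (nat_lit 0x16000c)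 (nat_lit 0) (p (nat_lit 0x68612) (nat_lit 0) (p (nat_lit 0x50592) (nat_lit 0) (p (nat_lit 0x40512) (nat_lit 0) (p (nat_lit 0x50312) (nat_lit 0) (p (nat_lit 0x38292) (nat_lit 0) (p (nat_lit 0x28212) (nat_lit 0) (p (nat_lit 0x38112) (nat_lit 0) (p (nat_lit 0x20092) (nat_lit 0) (p (nat_lit 0x10012) (nat_lit 0) pn)))))))))))))))))))))))))))))) :=
  Cl.node (nat_lit 0x200004) (nat_lit 2) (by decide +kernel) (ClAll.succ (ClAll.succ ClAll.zero n202) s1270)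

def n278 : Cl (O (nat_lit 5)) (R (nat_lit 14353))
    (p (nat_lit 0x1fc004) (nat_lit 0) (p (nat_lit 0xb000c) (nat_lit 1) (p (nat_lit 0x380c2) (nat_lit 1) (p (nat_lit 0x3c4aa) (nat_lit 7) (p (nat_lit 0xd1) (nat_lit 1) (p (nat_lit 0xc9) (nat_lit 0) (p (nat_lit 0x101) (nat_lit 1) (p (nat_lit 0x119) (nat_lit 0) (p (nat_lit 0xc1) (nat_lit 0) (p (nat_lit 0x81) (nat_lit 1) (p (nat_lit 0x41) (nat_lit 1) (p (nat_lit 0x10a0b0a89089a) (nat_lit 0) (p (nat_lit 0x98a8a08881a) (nat_lit 0) (p (nat_lit 0x109088988079a) (nat_lit 0) (p (nat_lit 0x8880907871a) (nat_lit 0) (p (nat_lit 0x8000000000800080887068a) (nat_lit 0) (p (nat_lit 0x10888068602) (nat_lit 0) (p (nat_lit 0x807860582) (nat_lit 0) (p (nat_lit 0x10607058502) (nat_lit 0) (p (nat_lit 0x586850482) (nat_lit 0) (p (nat_lit 0x16000c) (nat_lit 0) (p (nat_lit 0x68612) (nat_lit 0) (p (nat_lit 0x50592) (nat_lit 0) (p (nat_lit 0x40512)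 (nat_lit 0) (p (nat_lit 0x50312) (nat_lit 0) (p (nat_lit 0x38292) (nat_lit 0) (p (nat_lit 0x28212) (nat_lit 0) (p (nat_lit 0x38112) (nat_lit 0) (p (nat_lit 0x20092) (nat_lit 0) (p (nat_lit 0x10012) (nat_lit 0) pn)))))))))))))))))))))))))))))) :=
  Cl.node (nat_lit 0x1fc014) (nat_lit 2) (by decide +kernel) (ClAll.succ (ClAll.succ ClAll.zero n203) s1277)

def n279 : Cl (O (nat_lit 5)) (R (nat_lit 14353))
    (p (nat_lit 0x101) (nat_lit 0) (p (nat_lit 0xb000c) (nat_lit 0) (p (nat_lit 0x380c2) (nat_lit 0) (p (nat_lit 0x3c4aa) (nat_lit 7) (p (nat_lit 0x111) (nat_lit 1) (p (nat_lit 0xd1) (nat_lit 1) (p (nat_lit 0xc9) (nat_lit 0) (p (nat_lit 0x119) (nat_lit 1) (p (nat_lit 0xc1) (nat_lit 0) (p (nat_lit 0x81) (nat_lit 1) (p (nat_lit 0x41) (nat_lit 1) (p (nat_lit 0x10a0b0a89089a) (nat_lit 0) (p (nat_lit 0x98a8a08881a) (nat_lit 0) (p (nat_lit 0x109088988079a) (nat_lit 0) (p (nat_lit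 0x8880907871a) (nat_lit 0) (p (nat_lit 0x8000000000800080887068a) (nat_lit 0) (p (nat_lit 0x10888068602) (nat_lit 0) (p (nat_lit 0x807860582) (nat_lit 0) (p (nat_lit 0x10607058502) (nat_lit 0) (p (nat_lit 0x586850482) (nat_lit 0) (p (nat_lit 0x16000c) (nat_lit 0) (p (nat_lit 0x68612) (nat_lit 0) (p (nat_lit 0x50592) (nat_lit 0) (p (nat_lit 0x40512) (nat_lit 0) (p (nat_lit 0x50312) (nat_lit 0) (p (nat_lit 0x38292) (nat_lit 0) (p (nat_lit 0x28212) (nat_lit 0) (p (nat_lit 0x38112) (nat_lit 0) (p (nat_lit 0x20092) (nat_lit 0) (p (nat_lit 0x10012) (nat_lit 0) pn)))))))))))))))))))))))))))))) :=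
  Cl.node (nat_lit 0x200004) (nat_lit 2) (by decide +kernel) (ClAll.succ (ClAll.succ ClAll.zero n204) s1296)

def n280 : Cl (O (nat_lit 5)) (R (nat_lit 14353))
    (p (nat_lit 0x101) (nat_lit 0) (p (nat_lit 0xb000c) (nat_lit 0) (p (nat_lit 0x380c2) (nat_lit 1) (p (nat_lit 0x3c4aa) (nat_lit 7) (p (nat_lit 0x111) (nat_lit 1) (p (nat_lit 0xd1) (nat_lit 1) (p (nat_lit 0xc9) (nat_lit 0) (p (nat_lit 0x119) (nat_lit 1) (p (nat_lit 0xc1) (nat_lit 0) (p (nat_lit 0x81) (nat_lit 1) (p (nat_lit 0x41) (nat_lit 1) (p (nat_lit 0x10a0b0a89089a) (nat_lit 0) (p (nat_lit 0x98a8a08881a) (nat_lit 0) (p (nat_lit 0x109088988079a) (nat_lit 0) (p (nat_lit 0x8880907871a) (nat_lit 0) (p (nat_lit 0x8000000000800080887068a) (nat_lit 0) (p (nat_lit 0x10888068602) (nat_lit 0) (p (nat_lit 0x807860582) (nat_lit 0) (p (nat_lit 0x10607058502) (nat_lit 0) (p (nat_lit 0x586850482) (nat_lit 0) (p (nat_lit 0x16000c)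 (nat_lit 0) (p (nat_lit 0x68612) (nat_lit 0) (p (nat_lit 0x50592) (nat_lit 0) (p (nat_lit 0x40512) (nat_lit 0) (p (nat_lit 0x50312) (nat_lit 0) (p (nat_lit 0x38292) (nat_lit 0) (p (nat_lit 0x28212) (nat_lit 0) (p (nat_lit 0x38112) (nat_lit 0) (p (nat_lit 0x20092) (nat_lit 0) (p (nat_lit 0x10012) (nat_lit 0) pn)))))))))))))))))))))))))))))) :=
  Cl.node (nat_lit 0x200004) (nat_lit 2) (by decide +kernel) (ClAll.succ (ClAll.succ ClAll.zero n205) s1303)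

def n281 : Cl (O (nat_lit 5)) (R (nat_lit 14353))
    (p (nat_lit 0x1fc004) (nat_lit 0) (p (nat_lit 0xb000c) (nat_lit 1) (p (nat_lit 0x380c2) (nat_lit 1) (p (nat_lit 0x3c4aa) (nat_lit 7) (p (nat_lit 0x111) (nat_lit 1) (p (nat_lit 0xd1) (nat_lit 1) (p (nat_lit 0xc9) (nat_lit 0) (p (nat_lit 0x119) (nat_lit 1) (p (nat_lit 0xc1) (nat_lit 0) (p (nat_lit 0x81) (nat_lit 1) (p (nat_lit 0x41) (nat_lit 1) (p (nat_lit 0x10a0b0a89089a) (nat_lit 0) (p (nat_lit 0x98a8a08881a) (nat_lit 0) (p (nat_lit 0x109088988079a) (nat_lit 0) (p (nat_lit 0x8880907871a) (nat_lit 0) (p (nat_lit 0x8000000000800080887068a) (nat_lit 0) (p (nat_lit 0x10888068602) (nat_lit 0) (p (nat_lit 0x807860582) (nat_lit 0) (p (nat_lit 0x10607058502) (nat_lit 0) (p (nat_lit 0x586850482) (nat_lit 0) (p (nat_lit 0x16000c) (nat_lit 0) (p (nat_lit 0x68612) (nat_lit 0) (p (nat_lit 0x50592) (nat_lit 0) (p (nat_lit 0x40512)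 (nat_lit 0) (p (nat_lit 0x50312) (nat_lit 0) (p (nat_lit 0x38292) (nat_lit 0) (p (nat_lit 0x28212) (nat_lit 0) (p (nat_lit 0x38112) (nat_lit 0) (p (nat_lit 0x20092) (nat_lit 0) (p (nat_lit 0x10012) (nat_lit 0) pn)))))))))))))))))))))))))))))) :=
  Cl.node (nat_lit 0x1fc014) (nat_lit 2) (by decide +kernel) (ClAll.succ (ClAll.succ ClAll.zero n206) s1308)

def n282 : Cl (O (nat_lit 5)) (R (nat_lit 14353))
    (p (nat_lit 0x109) (nat_lit 1) (p (nat_lit 0x200004) (nat_lit 0) (p (nat_lit 0x380c2) (nat_lit 0) (p (nat_lit 0x44c2a) (nat_lit 0) (p (nat_lit 0x111) (nat_lit 0) (p (nat_lit 0x109) (nat_lit 0) (p (nat_lit 0xc9) (nat_lit 1) (p (nat_lit 0x119) (nat_lit 1) (p (nat_lit 0xc1) (nat_lit 0) (p (nat_lit 0x81) (nat_lit 1) (p (nat_lit 0x41) (nat_lit 1) (p (nat_lit 0x10a0b0a89089a) (nat_lit 0) (p (nat_lit 0x98a8a08881a) (nat_lit 0) (p (nat_lit 0x109088988079a) (nat_lit 0) (p (nat_lit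 0x8880907871a) (nat_lit 0) (p (nat_lit 0x8000000000800080887068a) (nat_lit 0) (p (nat_lit 0x10888068602) (nat_lit 0) (p (nat_lit 0x807860582) (nat_lit 0) (p (nat_lit 0x10607058502) (nat_lit 0) (p (nat_lit 0x586850482) (nat_lit 0) (p (nat_lit 0x16000c) (nat_lit 0) (p (nat_lit 0x68612) (nat_lit 0) (p (nat_lit 0x50592) (nat_lit 0) (p (nat_lit 0x40512) (nat_lit 0) (p (nat_lit 0x50312) (nat_lit 0) (p (nat_lit 0x38292) (nat_lit 0) (p (nat_lit 0x28212) (nat_lit 0) (p (nat_lit 0x38112) (nat_lit 0) (p (nat_lit 0x20092) (nat_lit 0) (p (nat_lit 0x10012) (nat_lit 0) pn)))))))))))))))))))))))))))))) :=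
  Cl.node (nat_lit 0x41) (nat_lit 2) (by decide +kernel) (ClAll.succ (ClAll.succ ClAll.zero s1318) s1319)

def n283 : Cl (O (nat_lit 5)) (R (nat_lit 14353))
    (p (nat_lit 0x101) (nat_lit 0) (p (nat_lit 0xb000c) (nat_lit 0) (p (nat_lit 0x380c2) (nat_lit 1) (p (nat_lit 0x3c4aa) (nat_lit 7) (p (nat_lit 0x111) (nat_lit 1) (p (nat_lit 0x109) (nat_lit 0) (p (nat_lit 0xc9) (nat_lit 1) (p (nat_lit 0x119) (nat_lit 1) (p (nat_lit 0xc1) (nat_lit 0) (p (nat_lit 0x81) (nat_lit 1) (p (nat_lit 0x41) (nat_lit 1) (p (nat_lit 0x10a0b0a89089a) (nat_lit 0) (p (nat_lit 0x98a8a08881a) (nat_lit 0) (p (nat_lit 0x109088988079a) (nat_lit 0) (p (nat_lit 0x8880907871a) (nat_lit 0) (p (nat_lit 0x8000000000800080887068a) (nat_lit 0) (p (nat_lit 0x10888068602) (nat_lit 0) (p (nat_lit 0x807860582) (nat_lit 0) (p (nat_lit 0x10607058502) (nat_lit 0) (p (nat_lit 0x586850482) (nat_lit 0) (p (nat_lit 0x16000c)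 (nat_lit 0) (p (nat_lit 0x68612) (nat_lit 0) (p (nat_lit 0x50592) (nat_lit 0) (p (nat_lit 0x40512) (nat_lit 0) (p (nat_lit 0x50312) (nat_lit 0) (p (nat_lit 0x38292) (nat_lit 0) (p (nat_lit 0x28212) (nat_lit 0) (p (nat_lit 0x38112) (nat_lit 0) (p (nat_lit 0x20092) (nat_lit 0) (p (nat_lit 0x10012) (nat_lit 0) pn)))))))))))))))))))))))))))))) :=
  Cl.node (nat_lit 0x111) (nat_lit 2) (by decide +kernel) (ClAll.succ (ClAll.succ ClAll.zero n207) s1354)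

def n284 : Cl (O (nat_lit 5)) (R (nat_lit 14353))
    (p (nat_lit 0x1fc004) (nat_lit 0) (p (nat_lit 0xb000c) (nat_lit 1) (p (nat_lit 0x380c2) (nat_lit 1) (p (nat_lit 0x3c4aa) (nat_lit 7) (p (nat_lit 0x111) (nat_lit 1) (p (nat_lit 0x109) (nat_lit 0) (p (nat_lit 0xc9) (nat_lit 1) (p (nat_lit 0x119) (nat_lit 1) (p (nat_lit 0xc1) (nat_lit 0) (p (nat_lit 0x81) (nat_lit 1) (p (nat_lit 0x41) (nat_lit 1) (p (nat_lit 0x10a0b0a89089a) (nat_lit 0) (p (nat_lit 0x98a8a08881a) (nat_lit 0) (p (nat_lit 0x109088988079a) (nat_lit 0) (p (nat_lit 0x8880907871a) (nat_lit 0) (p (nat_lit 0x8000000000800080887068a) (nat_lit 0) (p (nat_lit 0x10888068602) (nat_lit 0) (p (nat_lit 0x807860582) (nat_lit 0) (p (nat_lit 0x10607058502) (nat_lit 0) (p (nat_lit 0x586850482) (nat_lit 0) (p (nat_lit 0x16000c) (nat_lit 0) (p (nat_lit 0x68612) (nat_lit 0) (p (nat_lit 0x50592) (nat_lit 0) (p (nat_lit 0x40512)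 (nat_lit 0) (p (nat_lit 0x50312) (nat_lit 0) (p (nat_lit 0x38292) (nat_lit 0) (p (nat_lit 0x28212) (nat_lit 0) (p (nat_lit 0x38112) (nat_lit 0) (p (nat_lit 0x20092) (nat_lit 0) (p (nat_lit 0x10012) (nat_lit 0) pn)))))))))))))))))))))))))))))) :=
  Cl.node (nat_lit 0x1fc014) (nat_lit 2) (by decide +kernel) (ClAll.succ (ClAll.succ ClAll.zero n208) s1359)

def n285 : Cl (O (nat_lit 5)) (R (nat_lit 14353))
    (p (nat_lit 0x380c2) (nat_lit 0) (p (nat_lit 0x444aa) (nat_lit 7) (p (nat_lit 0x81) (nat_lit 1) (p (nat_lit 0xc9) (nat_lit 1) (p (nat_lit 0x109) (nat_lit 1) (p (nat_lit 0x101) (nat_lit 0) (p (nat_lit 0x119) (nat_lit 0) (p (nat_lit 0xd1) (nat_lit 0) (p (nat_lit 0x89) (nat_lit 0) (p (nat_lit 0x41) (nat_lit 0) (p (nat_lit 0x10a0b0a89089a) (nat_lit 0) (p (nat_lit 0x98a8a08881a) (nat_lit 0) (p (nat_lit 0x109088988079a) (nat_lit 0) (p (nat_lit 0x8880907871a) (nat_lit 0) (p (nat_lit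 0x8000000000800080887068a) (nat_lit 0) (p (nat_lit 0x10888068602) (nat_lit 0) (p (nat_lit 0x807860582) (nat_lit 0) (p (nat_lit 0x10607058502) (nat_lit 0) (p (nat_lit 0x586850482) (nat_lit 0) (p (nat_lit 0x16000c) (nat_lit 0) (p (nat_lit 0x68612) (nat_lit 0) (p (nat_lit 0x50592) (nat_lit 0) (p (nat_lit 0x40512) (nat_lit 0) (p (nat_lit 0x50312) (nat_lit 0) (p (nat_lit 0x38292) (nat_lit 0) (p (nat_lit 0x28212) (nat_lit 0) (p (nat_lit 0x38112) (nat_lit 0) (p (nat_lit 0x20092) (nat_lit 0) (p (nat_lit 0x10012) (nat_lit 0) pn))))))))))))))))))))))))))))) :=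
  Cl.node (nat_lit 0xb000c) (nat_lit 2) (by decide +kernel) (ClAll.succ (ClAll.succ ClAll.zero n209) n210)

def n286 : Cl (O (nat_lit 5)) (R (nat_lit 14353))
    (p (nat_lit 0x380c2) (nat_lit 1) (p (nat_lit 0x444aa) (nat_lit 7) (p (nat_lit 0x81) (nat_lit 1) (p (nat_lit 0xc9) (nat_lit 1) (p (nat_lit 0x109) (nat_lit 1) (p (nat_lit 0x101) (nat_lit 0) (p (nat_lit 0x119) (nat_lit 0) (p (nat_lit 0xd1) (nat_lit 0) (p (nat_lit 0x89) (nat_lit 0) (p (nat_lit 0x41) (nat_lit 0) (p (nat_lit 0x10a0b0a89089a) (nat_lit 0) (p (nat_lit 0x98a8a08881a) (nat_lit 0) (p (nat_lit 0x109088988079a) (nat_lit 0) (p (nat_lit 0x8880907871a) (nat_lit 0) (p (nat_lit 0x8000000000800080887068a) (nat_lit 0) (p (nat_lit 0x10888068602) (nat_lit 0) (p (nat_lit 0x807860582) (nat_lit 0) (p (nat_lit 0x10607058502) (nat_lit 0) (p (nat_lit 0x586850482) (nat_lit 0) (p (nat_lit 0x16000c) (nat_lit 0) (p (nat_lit 0x68612)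 (nat_lit 0) (p (nat_lit 0x50592) (nat_lit 0) (p (nat_lit 0x40512) (nat_lit 0) (p (nat_lit 0x50312) (nat_lit 0) (p (nat_lit 0x38292) (nat_lit 0) (p (nat_lit 0x28212) (nat_lit 0) (p (nat_lit 0x38112) (nat_lit 0) (p (nat_lit 0x20092) (nat_lit 0) (p (nat_lit 0x10012) (nat_lit 0) pn))))))))))))))))))))))))))))) :=
  Cl.node (nat_lit 0xb000c) (nat_lit 2) (by decide +kernel) (ClAll.succ (ClAll.succ ClAll.zero n211) s22)

def n287 : Cl (O (nat_lit 5)) (R (nat_lit 14353))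
    (p (nat_lit 0x380c2) (nat_lit 0) (p (nat_lit 0x4c42a) (nat_lit 2) (p (nat_lit 0x111) (nat_lit 0) (p (nat_lit 0xc9) (nat_lit 0) (p (nat_lit 0x81) (nat_lit 0) (p (nat_lit 0x101) (nat_lit 1) (p (nat_lit 0x119) (nat_lit 0) (p (nat_lit 0xd1) (nat_lit 0) (p (nat_lit 0x89) (nat_lit 0) (p (nat_lit 0x41) (nat_lit 0) (p (nat_lit 0x10a0b0a89089a) (nat_lit 0) (p (nat_lit 0x98a8a08881a) (nat_lit 0) (p (nat_lit 0x109088988079a) (nat_lit 0) (p (nat_lit 0x8880907871a) (nat_lit 0) (p (nat_lit 0x8000000000800080887068a) (nat_lit 0) (p (nat_lit 0x10888068602) (nat_lit 0) (p (nat_lit 0x807860582) (nat_lit 0) (p (nat_lit 0x10607058502) (nat_lit 0) (p (nat_lit 0x586850482) (nat_lit 0) (p (nat_lit 0x16000c) (nat_lit 0) (p (nat_lit 0x68612) (nat_lit 0) (p (nat_lit 0x50592) (nat_lit 0) (p (nat_lit 0x40512) (nat_lit 0) (p (nat_lit 0x50312) (nat_lit 0) (p (nat_lit 0x38292) (nat_lit 0) (p (nat_lit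 0x28212) (nat_lit 0) (p (nat_lit 0x38112) (nat_lit 0) (p (nat_lit 0x20092) (nat_lit 0) (p (nat_lit 0x10012) (nat_lit 0) pn))))))))))))))))))))))))))))) :=
  Cl.node (nat_lit 0x200014) (nat_lit 2) (by decide +kernel) (ClAll.succ (ClAll.succ ClAll.zero n212) s48)

def n288 : Cl (O (nat_lit 5)) (R (nat_lit 14353))
    (p (nat_lit 0x380c2) (nat_lit 0) (p (nat_lit 0x444aa) (nat_lit 7) (p (nat_lit 0x111) (nat_lit 0) (p (nat_lit 0xc9) (nat_lit 1) (p (nat_lit 0x81) (nat_lit 0) (p (nat_lit 0x101) (nat_lit 1) (p (nat_lit 0x119) (nat_lit 0) (p (nat_lit 0xd1) (nat_lit 0) (p (nat_lit 0x89) (nat_lit 0) (p (nat_lit 0x41) (nat_lit 0) (p (nat_lit 0x10a0b0a89089a) (nat_lit 0) (p (nat_lit 0x98a8a08881a) (nat_lit 0) (p (nat_lit 0x109088988079a) (nat_lit 0) (p (nat_lit 0x8880907871a) (nat_lit 0) (p (nat_lit 0x8000000000800080887068a) (nat_lit 0) (p (nat_lit 0x10888068602) (nat_lit 0) (p (nat_lit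 0x807860582) (nat_lit 0) (p (nat_lit 0x10607058502) (nat_lit 0) (p (nat_lit 0x586850482) (nat_lit 0) (p (nat_lit 0x16000c) (nat_lit 0) (p (nat_lit 0x68612) (nat_lit 0) (p (nat_lit 0x50592) (nat_lit 0) (p (nat_lit 0x40512) (nat_lit 0) (p (nat_lit 0x50312) (nat_lit 0) (p (nat_lit 0x38292) (nat_lit 0) (p (nat_lit 0x28212) (nat_lit 0) (p (nat_lit 0x38112) (nat_lit 0) (p (nat_lit 0x20092) (nat_lit 0) (p (nat_lit 0x10012) (nat_lit 0) pn))))))))))))))))))))))))))))) :=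
  Cl.node (nat_lit 0xb000c) (nat_lit 2) (by decide +kernel) (ClAll.succ (ClAll.succ ClAll.zero n213) s69)

def n289 : Cl (O (nat_lit 5)) (R (nat_lit 14353))
    (p (nat_lit 0x380c2) (nat_lit 1) (p (nat_lit 0x444aa) (nat_lit 7) (p (nat_lit 0x111) (nat_lit 0) (p (nat_lit 0xc9) (nat_lit 1) (p (nat_lit 0x81) (nat_lit 0) (p (nat_lit 0x101) (nat_lit 1) (p (nat_lit 0x119) (nat_lit 0) (p (nat_lit 0xd1) (nat_lit 0) (p (nat_lit 0x89) (nat_lit 0) (p (nat_lit 0x41) (nat_lit 0) (p (nat_lit 0x10a0b0a89089a) (nat_lit 0) (p (nat_lit 0x98a8a08881a) (nat_lit 0) (p (nat_lit 0x109088988079a) (nat_lit 0) (p (nat_lit 0x8880907871a) (nat_lit 0) (p (nat_lit 0x8000000000800080887068a) (nat_lit 0) (p (nat_lit 0x10888068602) (nat_lit 0) (p (nat_lit 0x807860582) (nat_lit 0) (p (nat_lit 0x10607058502) (nat_lit 0) (p (nat_lit 0x586850482) (nat_lit 0) (p (nat_lit 0x16000c) (nat_lit 0) (p (nat_lit 0x68612)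 (nat_lit 0) (p (nat_lit 0x50592) (nat_lit 0) (p (nat_lit 0x40512) (nat_lit 0) (p (nat_lit 0x50312) (nat_lit 0) (p (nat_lit 0x38292) (nat_lit 0) (p (nat_lit 0x28212) (nat_lit 0) (p (nat_lit 0x38112) (nat_lit 0) (p (nat_lit 0x20092) (nat_lit 0) (p (nat_lit 0x10012) (nat_lit 0) pn))))))))))))))))))))))))))))) :=
  Cl.node (nat_lit 0xb000c) (nat_lit 2) (by decide +kernel) (ClAll.succ (ClAll.succ ClAll.zero n214) s73)

def n290 : Cl (O (nat_lit 5)) (R (nat_lit 14353))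
    (p (nat_lit 0x380c2) (nat_lit 1) (p (nat_lit 0x444aa) (nat_lit 8) (p (nat_lit 0x111) (nat_lit 0) (p (nat_lit 0xc9) (nat_lit 1) (p (nat_lit 0x81) (nat_lit 0) (p (nat_lit 0x101) (nat_lit 1) (p (nat_lit 0x119) (nat_lit 0) (p (nat_lit 0xd1) (nat_lit 0) (p (nat_lit 0x89) (nat_lit 0) (p (nat_lit 0x41) (nat_lit 0) (p (nat_lit 0x10a0b0a89089a) (nat_lit 0) (p (nat_lit 0x98a8a08881a) (nat_lit 0) (p (nat_lit 0x109088988079a) (nat_lit 0) (p (nat_lit 0x8880907871a) (nat_lit 0) (p (nat_lit 0x8000000000800080887068a) (nat_lit 0) (p (nat_lit 0x10888068602) (nat_lit 0) (p (nat_lit 0x807860582) (nat_lit 0) (p (nat_lit 0x10607058502) (nat_lit 0) (p (nat_lit 0x586850482) (nat_lit 0) (p (nat_lit 0x16000c) (nat_lit 0) (p (nat_lit 0x68612) (nat_lit 0) (p (nat_lit 0x50592) (nat_lit 0) (p (nat_lit 0x40512) (nat_lit 0) (p (nat_lit 0x50312) (nat_lit 0) (p (nat_lit 0x38292) (nat_lit 0) (p (nat_lit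 0x28212) (nat_lit 0) (p (nat_lit 0x38112) (nat_lit 0) (p (nat_lit 0x20092) (nat_lit 0) (p (nat_lit 0x10012) (nat_lit 0) pn))))))))))))))))))))))))))))) :=
  Cl.node (nat_lit 0x89) (nat_lit 2) (by decide +kernel) (ClAll.succ (ClAll.succ ClAll.zero s75) s76)

def n291 : Cl (O (nat_lit 5)) (R (nat_lit 14353))
    (p (nat_lit 0x380c2) (nat_lit 0) (p (nat_lit 0x4c42a) (nat_lit 2) (p (nat_lit 0xc9) (nat_lit 0) (p (nat_lit 0xc1) (nat_lit 0) (p (nat_lit 0x81) (nat_lit 1) (p (nat_lit 0x101) (nat_lit 1) (p (nat_lit 0x119) (nat_lit 0) (p (nat_lit 0xd1) (nat_lit 0) (p (nat_lit 0x89) (nat_lit 0) (p (nat_lit 0x41) (nat_lit 0) (p (nat_lit 0x10a0b0a89089a) (nat_lit 0) (p (nat_lit 0x98a8a08881a) (nat_lit 0) (p (nat_lit 0x109088988079a) (nat_lit 0) (p (nat_lit 0x8880907871a) (nat_lit 0) (p (nat_lit 0x8000000000800080887068a) (nat_lit 0) (p (nat_lit 0x10888068602) (nat_lit 0) (p (nat_lit 0x807860582)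 (nat_lit 0) (p (nat_lit 0x10607058502) (nat_lit 0) (p (nat_lit 0x586850482) (nat_lit 0) (p (nat_lit 0x16000c) (nat_lit 0) (p (nat_lit 0x68612) (nat_lit 0) (p (nat_lit 0x50592) (nat_lit 0) (p (nat_lit 0x40512) (nat_lit 0) (p (nat_lit 0x50312) (nat_lit 0) (p (nat_lit 0x38292) (nat_lit 0) (p (nat_lit 0x28212) (nat_lit 0) (p (nat_lit 0x38112) (nat_lit 0) (p (nat_lit 0x20092) (nat_lit 0) (p (nat_lit 0x10012) (nat_lit 0) pn))))))))))))))))))))))))))))) :=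
  Cl.node (nat_lit 0x200014) (nat_lit 2) (by decide +kernel) (ClAll.succ (ClAll.succ ClAll.zero n215) s86)

def n292 : Cl (O (nat_lit 5)) (R (nat_lit 14353))
    (p (nat_lit 0x380c2) (nat_lit 0) (p (nat_lit 0x444aa) (nat_lit 7) (p (nat_lit 0xc9) (nat_lit 1) (p (nat_lit 0xc1) (nat_lit 0) (p (nat_lit 0x81) (nat_lit 1) (p (nat_lit 0x101) (nat_lit 1) (p (nat_lit 0x119) (nat_lit 0) (p (nat_lit 0xd1) (nat_lit 0) (p (nat_lit 0x89) (nat_lit 0) (p (nat_lit 0x41) (nat_lit 0) (p (nat_lit 0x10a0b0a89089a) (nat_lit 0) (p (nat_lit 0x98a8a08881a) (nat_lit 0) (p (nat_lit 0x109088988079a) (nat_lit 0) (p (nat_lit 0x8880907871a) (nat_lit 0) (p (nat_lit 0x8000000000800080887068a) (nat_lit 0) (p (nat_lit 0x10888068602) (nat_lit 0) (p (nat_lit 0x807860582) (nat_lit 0) (p (nat_lit 0x10607058502) (nat_lit 0) (p (nat_lit 0x586850482) (nat_lit 0) (p (nat_lit 0x16000c) (nat_lit 0) (p (nat_lit 0x68612)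 (nat_lit 0) (p (nat_lit 0x50592) (nat_lit 0) (p (nat_lit 0x40512) (nat_lit 0) (p (nat_lit 0x50312) (nat_lit 0) (p (nat_lit 0x38292) (nat_lit 0) (p (nat_lit 0x28212) (nat_lit 0) (p (nat_lit 0x38112) (nat_lit 0) (p (nat_lit 0x20092) (nat_lit 0) (p (nat_lit 0x10012) (nat_lit 0) pn))))))))))))))))))))))))))))) :=
  Cl.node (nat_lit 0xb000c) (nat_lit 2) (by decide +kernel) (ClAll.succ (ClAll.succ ClAll.zero n216) s105)

def n293 : Cl (O (nat_lit 5)) (R (nat_lit 14353))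
    (p (nat_lit 0x380c2) (nat_lit 1) (p (nat_lit 0x444aa) (nat_lit 7) (p (nat_lit 0xc9) (nat_lit 1) (p (nat_lit 0xc1) (nat_lit 0) (p (nat_lit 0x81) (nat_lit 1) (p (nat_lit 0x101) (nat_lit 1) (p (nat_lit 0x119) (nat_lit 0) (p (nat_lit 0xd1) (nat_lit 0) (p (nat_lit 0x89) (nat_lit 0) (p (nat_lit 0x41) (nat_lit 0) (p (nat_lit 0x10a0b0a89089a) (nat_lit 0) (p (nat_lit 0x98a8a08881a) (nat_lit 0) (p (nat_lit 0x109088988079a) (nat_lit 0) (p (nat_lit 0x8880907871a) (nat_lit 0) (p (nat_lit 0x8000000000800080887068a) (nat_lit 0) (p (nat_lit 0x10888068602) (nat_lit 0) (p (nat_lit 0x807860582) (nat_lit 0) (p (nat_lit 0x10607058502) (nat_lit 0) (p (nat_lit 0x586850482) (nat_lit 0) (p (nat_lit 0x16000c) (nat_lit 0) (p (nat_lit 0x68612) (nat_lit 0) (p (nat_lit 0x50592) (nat_lit 0) (p (nat_lit 0x40512) (nat_lit 0) (p (nat_lit 0x50312) (nat_lit 0) (p (nat_lit 0x38292) (nat_lit 0) (p (nat_lit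 0x28212) (nat_lit 0) (p (nat_lit 0x38112) (nat_lit 0) (p (nat_lit 0x20092) (nat_lit 0) (p (nat_lit 0x10012) (nat_lit 0) pn))))))))))))))))))))))))))))) :=
  Cl.node (nat_lit 0xb000c) (nat_lit 2) (by decide +kernel) (ClAll.succ (ClAll.succ ClAll.zero s106) s107)

def n294 : Cl (O (nat_lit 5)) (R (nat_lit 14353))
    (p (nat_lit 0x41) (nat_lit 0) (p (nat_lit 0x380c2) (nat_lit 0) (p (nat_lit 0x3cc2a) (nat_lit 10) (p (nat_lit 0x109) (nat_lit 1) (p (nat_lit 0xc9) (nat_lit 1) (p (nat_lit 0xc1) (nat_lit 0) (p (nat_lit 0x119) (nat_lit 1) (p (nat_lit 0xd1) (nat_lit 0) (p (nat_lit 0x89) (nat_lit 0) (p (nat_lit 0x41) (nat_lit 0) (p (nat_lit 0x10a0b0a89089a) (nat_lit 0) (p (nat_lit 0x98a8a08881a) (nat_lit 0) (p (nat_lit 0x109088988079a) (nat_lit 0) (p (nat_lit 0x8880907871a) (nat_lit 0) (p (nat_lit 0x8000000000800080887068a) (nat_lit 0) (p (nat_lit 0x10888068602) (nat_lit 0) (p (nat_lit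 0x807860582) (nat_lit 0) (p (nat_lit 0x10607058502) (nat_lit 0) (p (nat_lit 0x586850482) (nat_lit 0) (p (nat_lit 0x16000c) (nat_lit 0) (p (nat_lit 0x68612) (nat_lit 0) (p (nat_lit 0x50592) (nat_lit 0) (p (nat_lit 0x40512) (nat_lit 0) (p (nat_lit 0x50312) (nat_lit 0) (p (nat_lit 0x38292) (nat_lit 0) (p (nat_lit 0x28212) (nat_lit 0) (p (nat_lit 0x38112) (nat_lit 0) (p (nat_lit 0x20092) (nat_lit 0) (p (nat_lit 0x10012) (nat_lit 0) pn))))))))))))))))))))))))))))) :=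
  Cl.node (nat_lit 0xb000c) (nat_lit 2) (by decide +kernel) (ClAll.succ (ClAll.succ ClAll.zero s125) s126)

def n295 : Cl (O (nat_lit 5)) (R (nat_lit 14353))
    (p (nat_lit 0x81) (nat_lit 1) (p (nat_lit 0x380c2) (nat_lit 1) (p (nat_lit 0x3cc2a) (nat_lit 11) (p (nat_lit 0x109) (nat_lit 1) (p (nat_lit 0xc9) (nat_lit 1) (p (nat_lit 0xc1) (nat_lit 0) (p (nat_lit 0x119) (nat_lit 1) (p (nat_lit 0xd1) (nat_lit 0) (p (nat_lit 0x89) (nat_lit 0) (p (nat_lit 0x41) (nat_lit 0) (p (nat_lit 0x10a0b0a89089a) (nat_lit 0) (p (nat_lit 0x98a8a08881a) (nat_lit 0) (p (nat_lit 0x109088988079a) (nat_lit 0) (p (nat_lit 0x8880907871a) (nat_lit 0) (p (nat_lit 0x8000000000800080887068a) (nat_lit 0) (p (nat_lit 0x10888068602) (nat_lit 0) (p (nat_lit 0x807860582) (nat_lit 0) (p (nat_lit 0x10607058502) (nat_lit 0) (p (nat_lit 0x586850482) (nat_lit 0) (p (nat_lit 0x16000c) (nat_lit 0) (p (nat_lit 0x68612)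 (nat_lit 0) (p (nat_lit 0x50592) (nat_lit 0) (p (nat_lit 0x40512) (nat_lit 0) (p (nat_lit 0x50312) (nat_lit 0) (p (nat_lit 0x38292) (nat_lit 0) (p (nat_lit 0x28212) (nat_lit 0) (p (nat_lit 0x38112) (nat_lit 0) (p (nat_lit 0x20092) (nat_lit 0) (p (nat_lit 0x10012) (nat_lit 0) pn))))))))))))))))))))))))))))) :=
  Cl.node (nat_lit 0x101) (nat_lit 2) (by decide +kernel) (ClAll.succ (ClAll.succ ClAll.zero s132) n217)

def n296 : Cl (O (nat_lit 5)) (R (nat_lit 14353))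
    (p (nat_lit 0x380c2) (nat_lit 0) (p (nat_lit 0x44c2a) (nat_lit 0) (p (nat_lit 0x109) (nat_lit 0) (p (nat_lit 0x101) (nat_lit 0) (p (nat_lit 0x81) (nat_lit 1) (p (nat_lit 0xc1) (nat_lit 1) (p (nat_lit 0x119) (nat_lit 1) (p (nat_lit 0xd1) (nat_lit 0) (p (nat_lit 0x89) (nat_lit 0) (p (nat_lit 0x41) (nat_lit 0) (p (nat_lit 0x10a0b0a89089a) (nat_lit 0) (p (nat_lit 0x98a8a08881a) (nat_lit 0) (p (nat_lit 0x109088988079a) (nat_lit 0) (p (nat_lit 0x8880907871a) (nat_lit 0) (p (nat_lit 0x8000000000800080887068a) (nat_lit 0) (p (nat_lit 0x10888068602) (nat_lit 0) (p (nat_lit 0x807860582) (nat_lit 0) (p (nat_lit 0x10607058502) (nat_lit 0) (p (nat_lit 0x586850482) (nat_lit 0) (p (nat_lit 0x16000c) (nat_lit 0) (p (nat_lit 0x68612) (nat_lit 0) (p (nat_lit 0x50592) (nat_lit 0) (p (nat_lit 0x40512) (nat_lit 0) (p (nat_lit 0x50312) (nat_lit 0) (p (nat_lit 0x38292) (nat_lit 0) (p (nat_lit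 0x28212) (nat_lit 0) (p (nat_lit 0x38112) (nat_lit 0) (p (nat_lit 0x20092) (nat_lit 0) (p (nat_lit 0x10012) (nat_lit 0) pn))))))))))))))))))))))))))))) :=
  Cl.node (nat_lit 0x101) (nat_lit 2) (by decide +kernel) (ClAll.succ (ClAll.succ ClAll.zero s174) n218)

def n297 : Cl (O (nat_lit 5)) (R (nat_lit 14353))
    (p (nat_lit 0x380c2) (nat_lit 0) (p (nat_lit 0x44c2a) (nat_lit 2) (p (nat_lit 0x109) (nat_lit 0) (p (nat_lit 0x101) (nat_lit 0) (p (nat_lit 0x81) (nat_lit 1) (p (nat_lit 0xc1) (nat_lit 1) (p (nat_lit 0x119) (nat_lit 1) (p (nat_lit 0xd1) (nat_lit 0) (p (nat_lit 0x89) (nat_lit 0) (p (nat_lit 0x41) (nat_lit 0) (p (nat_lit 0x10a0b0a89089a) (nat_lit 0) (p (nat_lit 0x98a8a08881a) (nat_lit 0) (p (nat_lit 0x109088988079a) (nat_lit 0) (p (nat_lit 0x8880907871a) (nat_lit 0) (p (nat_lit 0x8000000000800080887068a) (nat_lit 0) (p (nat_lit 0x10888068602) (nat_lit 0) (p (nat_lit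 0x807860582) (nat_lit 0) (p (nat_lit 0x10607058502) (nat_lit 0) (p (nat_lit 0x586850482) (nat_lit 0) (p (nat_lit 0x16000c) (nat_lit 0) (p (nat_lit 0x68612) (nat_lit 0) (p (nat_lit 0x50592) (nat_lit 0) (p (nat_lit 0x40512) (nat_lit 0) (p (nat_lit 0x50312) (nat_lit 0) (p (nat_lit 0x38292) (nat_lit 0) (p (nat_lit 0x28212) (nat_lit 0) (p (nat_lit 0x38112) (nat_lit 0) (p (nat_lit 0x20092) (nat_lit 0) (p (nat_lit 0x10012) (nat_lit 0) pn))))))))))))))))))))))))))))) :=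
  Cl.node (nat_lit 0xb000c) (nat_lit 2) (by decide +kernel) (ClAll.succ (ClAll.succ ClAll.zero n219) s191)

def n298 : Cl (O (nat_lit 5)) (R (nat_lit 14353))
    (p (nat_lit 0x380c2) (nat_lit 0) (p (nat_lit 0x444aa) (nat_lit 7) (p (nat_lit 0x109) (nat_lit 1) (p (nat_lit 0x101) (nat_lit 0) (p (nat_lit 0x81) (nat_lit 1) (p (nat_lit 0xc1) (nat_lit 1) (p (nat_lit 0x119) (nat_lit 1) (p (nat_lit 0xd1) (nat_lit 0) (p (nat_lit 0x89) (nat_lit 0) (p (nat_lit 0x41) (nat_lit 0) (p (nat_lit 0x10a0b0a89089a) (nat_lit 0) (p (nat_lit 0x98a8a08881a) (nat_lit 0) (p (nat_lit 0x109088988079a) (nat_lit 0) (p (nat_lit 0x8880907871a) (nat_lit 0) (p (nat_lit 0x8000000000800080887068a) (nat_lit 0) (p (nat_lit 0x10888068602) (nat_lit 0) (p (nat_lit 0x807860582) (nat_lit 0) (p (nat_lit 0x10607058502) (nat_lit 0) (p (nat_lit 0x586850482) (nat_lit 0) (p (nat_lit 0x16000c) (nat_lit 0) (p (nat_lit 0x68612)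 (nat_lit 0) (p (nat_lit 0x50592) (nat_lit 0) (p (nat_lit 0x40512) (nat_lit 0) (p (nat_lit 0x50312) (nat_lit 0) (p (nat_lit 0x38292) (nat_lit 0) (p (nat_lit 0x28212) (nat_lit 0) (p (nat_lit 0x38112) (nat_lit 0) (p (nat_lit 0x20092) (nat_lit 0) (p (nat_lit 0x10012) (nat_lit 0) pn))))))))))))))))))))))))))))) :=
  Cl.node (nat_lit 0xb000c) (nat_lit 2) (by decide +kernel) (ClAll.succ (ClAll.succ ClAll.zero n220) s213)

def n299 : Cl (O (nat_lit 5)) (R (nat_lit 14353))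
    (p (nat_lit 0x380c2) (nat_lit 1) (p (nat_lit 0x444aa) (nat_lit 7) (p (nat_lit 0x109) (nat_lit 1) (p (nat_lit 0x101) (nat_lit 0) (p (nat_lit 0x81) (nat_lit 1) (p (nat_lit 0xc1) (nat_lit 1) (p (nat_lit 0x119) (nat_lit 1) (p (nat_lit 0xd1) (nat_lit 0) (p (nat_lit 0x89) (nat_lit 0) (p (nat_lit 0x41) (nat_lit 0) (p (nat_lit 0x10a0b0a89089a) (nat_lit 0) (p (nat_lit 0x98a8a08881a) (nat_lit 0) (p (nat_lit 0x109088988079a) (nat_lit 0) (p (nat_lit 0x8880907871a) (nat_lit 0) (p (nat_lit 0x8000000000800080887068a) (nat_lit 0) (p (nat_lit 0x10888068602) (nat_lit 0) (p (nat_lit 0x807860582) (nat_lit 0) (p (nat_lit 0x10607058502) (nat_lit 0) (p (nat_lit 0x586850482) (nat_lit 0) (p (nat_lit 0x16000c) (nat_lit 0) (p (nat_lit 0x68612) (nat_lit 0) (p (nat_lit 0x50592) (nat_lit 0) (p (nat_lit 0x40512) (nat_lit 0) (p (nat_lit 0x50312) (nat_lit 0) (p (nat_lit 0x38292) (nat_lit 0) (p (nat_lit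 0x28212) (nat_lit 0) (p (nat_lit 0x38112) (nat_lit 0) (p (nat_lit 0x20092) (nat_lit 0) (p (nat_lit 0x10012) (nat_lit 0) pn))))))))))))))))))))))))))))) :=
  Cl.node (nat_lit 0xb000c) (nat_lit 2) (by decide +kernel) (ClAll.succ (ClAll.succ ClAll.zero n221) s219)

def n300 : Cl (O (nat_lit 5)) (R (nat_lit 14353))
    (p (nat_lit 0x41) (nat_lit 0) (p (nat_lit 0x200014) (nat_lit 0) (p (nat_lit 0x200004) (nat_lit 0) (p (nat_lit 0xc1) (nat_lit 1) (p (nat_lit 0x109) (nat_lit 1) (p (nat_lit 0x101) (nat_lit 0) (p (nat_lit 0x111) (nat_lit 0) (p (nat_lit 0xd1) (nat_lit 1) (p (nat_lit 0x89) (nat_lit 0) (p (nat_lit 0x41) (nat_lit 0) (p (nat_lit 0x10a0b0a89089a) (nat_lit 0) (p (nat_lit 0x98a8a08881a) (nat_lit 0) (p (nat_lit 0x109088988079a) (nat_lit 0) (p (nat_lit 0x8880907871a) (nat_lit 0) (p (nat_lit 0x8000000000800080887068a) (nat_lit 0) (p (nat_lit 0x10888068602) (nat_lit 0) (p (nat_lit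 0x807860582) (nat_lit 0) (p (nat_lit 0x10607058502) (nat_lit 0) (p (nat_lit 0x586850482) (nat_lit 0) (p (nat_lit 0x16000c) (nat_lit 0) (p (nat_lit 0x68612) (nat_lit 0) (p (nat_lit 0x50592) (nat_lit 0) (p (nat_lit 0x40512) (nat_lit 0) (p (nat_lit 0x50312) (nat_lit 0) (p (nat_lit 0x38292) (nat_lit 0) (p (nat_lit 0x28212) (nat_lit 0) (p (nat_lit 0x38112) (nat_lit 0) (p (nat_lit 0x20092) (nat_lit 0) (p (nat_lit 0x10012) (nat_lit 0) pn))))))))))))))))))))))))))))) :=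
  Cl.node (nat_lit 0x3cc2a) (nat_lit 12) (by decide +kernel) (ClAll.succ (ClAll.succ (ClAll.succ (ClAll.succ (ClAll.succ (ClAll.succ (ClAll.succ (ClAll.succ (ClAll.succ (ClAll.succ (ClAll.succ (ClAll.succ ClAll.zero n222) s242) s243) s244) s245) s246) s247) s248) s249) s250) s251) s252)

def n301 : Cl (O (nat_lit 5)) (R (nat_lit 14353))
    (p (nat_lit 0x109) (nat_lit 0) (p (nat_lit 0x200014) (nat_lit 0) (p (nat_lit 0x200004) (nat_lit 0) (p (nat_lit 0x119) (nat_lit 0) (p (nat_lit 0x81) (nat_lit 0) (p (nat_lit 0x101) (nat_lit 1) (p (nat_lit 0x111) (nat_lit 0) (p (nat_lit 0xd1) (nat_lit 1) (p (nat_lit 0x89) (nat_lit 0) (p (nat_lit 0x41) (nat_lit 0) (p (nat_lit 0x10a0b0a89089a) (nat_lit 0) (p (nat_lit 0x98a8a08881a) (nat_lit 0) (p (nat_lit 0x109088988079a) (nat_lit 0) (p (nat_lit 0x8880907871a) (nat_lit 0) (p (nat_lit 0x8000000000800080887068a) (nat_lit 0) (p (nat_lit 0x10888068602)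 (nat_lit 0) (p (nat_lit 0x807860582) (nat_lit 0) (p (nat_lit 0x10607058502) (nat_lit 0) (p (nat_lit 0x586850482) (nat_lit 0) (p (nat_lit 0x16000c) (nat_lit 0) (p (nat_lit 0x68612) (nat_lit 0) (p (nat_lit 0x50592) (nat_lit 0) (p (nat_lit 0x40512) (nat_lit 0) (p (nat_lit 0x50312) (nat_lit 0) (p (nat_lit 0x38292) (nat_lit 0) (p (nat_lit 0x28212) (nat_lit 0) (p (nat_lit 0x38112) (nat_lit 0) (p (nat_lit 0x20092) (nat_lit 0) (p (nat_lit 0x10012) (nat_lit 0) pn))))))))))))))))))))))))))))) :=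
  Cl.node (nat_lit 0x4c42a) (nat_lit 12) (by decide +kernel) (ClAll.succ (ClAll.succ (ClAll.succ (ClAll.succ (ClAll.succ (ClAll.succ (ClAll.succ (ClAll.succ (ClAll.succ (ClAll.succ (ClAll.succ (ClAll.succ ClAll.zero s256) s257) n223) s260) s261) s262) s263) s264) s265) s266) s267) s268)

def n302 : Cl (O (nat_lit 5)) (R (nat_lit 14353))
    (p (nat_lit 0x109) (nat_lit 1) (p (nat_lit 0x200014) (nat_lit 0) (p (nat_lit 0x200004) (nat_lit 0) (p (nat_lit 0x119) (nat_lit 0) (p (nat_lit 0x81) (nat_lit 0) (p (nat_lit 0x101) (nat_lit 1) (p (nat_lit 0x111) (nat_lit 0) (p (nat_lit 0xd1) (nat_lit 1) (p (nat_lit 0x89) (nat_lit 0) (p (nat_lit 0x41) (nat_lit 0) (p (nat_lit 0x10a0b0a89089a) (nat_lit 0) (p (nat_lit 0x98a8a08881a) (nat_lit 0) (p (nat_lit 0x109088988079a) (nat_lit 0) (p (nat_lit 0x8880907871a) (nat_lit 0) (p (nat_lit 0x8000000000800080887068a) (nat_lit 0) (p (nat_lit 0x10888068602)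 (nat_lit 0) (p (nat_lit 0x807860582) (nat_lit 0) (p (nat_lit 0x10607058502) (nat_lit 0) (p (nat_lit 0x586850482) (nat_lit 0) (p (nat_lit 0x16000c) (nat_lit 0) (p (nat_lit 0x68612) (nat_lit 0) (p (nat_lit 0x50592) (nat_lit 0) (p (nat_lit 0x40512) (nat_lit 0) (p (nat_lit 0x50312) (nat_lit 0) (p (nat_lit 0x38292) (nat_lit 0) (p (nat_lit 0x28212) (nat_lit 0) (p (nat_lit 0x38112) (nat_lit 0) (p (nat_lit 0x20092) (nat_lit 0) (p (nat_lit 0x10012) (nat_lit 0) pn))))))))))))))))))))))))))))) :=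
  Cl.node (nat_lit 0x3cc2a) (nat_lit 12) (by decide +kernel) (ClAll.succ (ClAll.succ (ClAll.succ (ClAll.succ (ClAll.succ (ClAll.succ (ClAll.succ (ClAll.succ (ClAll.succ (ClAll.succ (ClAll.succ (ClAll.succ ClAll.zero n224) s273) s274) s275) s276) s277) s278) s279) s280) s281) s282) s283)

def n303 : Cl (O (nat_lit 5)) (R (nat_lit 14353))
    (p (nat_lit 0x200004) (nat_lit 0) (p (nat_lit 0x380c2) (nat_lit 0) (p (nat_lit 0x3cc2a) (nat_lit 0) (p (nat_lit 0x101) (nat_lit 0) (p (nat_lit 0xc1) (nat_lit 1) (p (nat_lit 0x81) (nat_lit 1) (p (nat_lit 0x111) (nat_lit 1) (p (nat_lit 0xd1) (nat_lit 1) (p (nat_lit 0x89) (nat_lit 0) (p (nat_lit 0x41) (nat_lit 0) (p (nat_lit 0x10a0b0a89089a) (nat_lit 0) (p (nat_lit 0x98a8a08881a) (nat_lit 0) (p (nat_lit 0x109088988079a) (nat_lit 0) (p (nat_lit 0x8880907871a) (nat_lit 0) (p (nat_lit 0x8000000000800080887068a) (nat_lit 0) (p (nat_lit 0x10888068602)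 (nat_lit 0) (p (nat_lit 0x807860582) (nat_lit 0) (p (nat_lit 0x10607058502) (nat_lit 0) (p (nat_lit 0x586850482) (nat_lit 0) (p (nat_lit 0x16000c) (nat_lit 0) (p (nat_lit 0x68612) (nat_lit 0) (p (nat_lit 0x50592) (nat_lit 0) (p (nat_lit 0x40512) (nat_lit 0) (p (nat_lit 0x50312) (nat_lit 0) (p (nat_lit 0x38292) (nat_lit 0) (p (nat_lit 0x28212) (nat_lit 0) (p (nat_lit 0x38112) (nat_lit 0) (p (nat_lit 0x20092) (nat_lit 0) (p (nat_lit 0x10012) (nat_lit 0) pn))))))))))))))))))))))))))))) :=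
  Cl.node (nat_lit 0x41) (nat_lit 2) (by decide +kernel) (ClAll.succ (ClAll.succ ClAll.zero s326) s327)

def n304 : Cl (O (nat_lit 5)) (R (nat_lit 14353))
    (p (nat_lit 0x380c2) (nat_lit 0) (p (nat_lit 0x444aa) (nat_lit 7) (p (nat_lit 0xd1) (nat_lit 1) (p (nat_lit 0x111) (nat_lit 1) (p (nat_lit 0x109) (nat_lit 0) (p (nat_lit 0x101) (nat_lit 0) (p (nat_lit 0x119) (nat_lit 0) (p (nat_lit 0xc9) (nat_lit 0) (p (nat_lit 0x89) (nat_lit 1) (p (nat_lit 0x41) (nat_lit 0) (p (nat_lit 0x10a0b0a89089a) (nat_lit 0) (p (nat_lit 0x98a8a08881a) (nat_lit 0) (p (nat_lit 0x109088988079a) (nat_lit 0) (p (nat_lit 0x8880907871a) (nat_lit 0) (p (nat_lit 0x8000000000800080887068a) (nat_lit 0) (p (nat_lit 0x10888068602) (nat_lit 0) (p (nat_lit 0x807860582) (nat_lit 0) (p (nat_lit 0x10607058502) (nat_lit 0) (p (nat_lit 0x586850482) (nat_lit 0) (p (nat_lit 0x16000c) (nat_lit 0) (p (nat_lit 0x68612)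 (nat_lit 0) (p (nat_lit 0x50592) (nat_lit 0) (p (nat_lit 0x40512) (nat_lit 0) (p (nat_lit 0x50312) (nat_lit 0) (p (nat_lit 0x38292) (nat_lit 0) (p (nat_lit 0x28212) (nat_lit 0) (p (nat_lit 0x38112) (nat_lit 0) (p (nat_lit 0x20092) (nat_lit 0) (p (nat_lit 0x10012) (nat_lit 0) pn))))))))))))))))))))))))))))) :=
  Cl.node (nat_lit 0xb000c) (nat_lit 2) (by decide +kernel) (ClAll.succ (ClAll.succ ClAll.zero n225) n226)

def n305 : Cl (O (nat_lit 5)) (R (nat_lit 14353))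
    (p (nat_lit 0x380c2) (nat_lit 1) (p (nat_lit 0x444aa) (nat_lit 7) (p (nat_lit 0xd1) (nat_lit 1) (p (nat_lit 0x111) (nat_lit 1) (p (nat_lit 0x109) (nat_lit 0) (p (nat_lit 0x101) (nat_lit 0) (p (nat_lit 0x119) (nat_lit 0) (p (nat_lit 0xc9) (nat_lit 0) (p (nat_lit 0x89) (nat_lit 1) (p (nat_lit 0x41) (nat_lit 0) (p (nat_lit 0x10a0b0a89089a) (nat_lit 0) (p (nat_lit 0x98a8a08881a) (nat_lit 0) (p (nat_lit 0x109088988079a) (nat_lit 0) (p (nat_lit 0x8880907871a) (nat_lit 0) (p (nat_lit 0x8000000000800080887068a) (nat_lit 0) (p (nat_lit 0x10888068602) (nat_lit 0) (p (nat_lit 0x807860582) (nat_lit 0) (p (nat_lit 0x10607058502) (nat_lit 0) (p (nat_lit 0x586850482) (nat_lit 0) (p (nat_lit 0x16000c) (nat_lit 0) (p (nat_lit 0x68612) (nat_lit 0) (p (nat_lit 0x50592) (nat_lit 0) (p (nat_lit 0x40512) (nat_lit 0) (p (nat_lit 0x50312) (nat_lit 0) (p (nat_lit 0x38292) (nat_lit 0) (p (nat_lit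 0x28212) (nat_lit 0) (p (nat_lit 0x38112) (nat_lit 0) (p (nat_lit 0x20092) (nat_lit 0) (p (nat_lit 0x10012) (nat_lit 0) pn))))))))))))))))))))))))))))) :=
  Cl.node (nat_lit 0x200004) (nat_lit 2) (by decide +kernel) (ClAll.succ (ClAll.succ ClAll.zero n227) s382)

def n306 : Cl (O (nat_lit 5)) (R (nat_lit 14353))
    (p (nat_lit 0x380c2) (nat_lit 1) (p (nat_lit 0x444aa) (nat_lit 10) (p (nat_lit 0xd1) (nat_lit 1) (p (nat_lit 0x111) (nat_lit 1) (p (nat_lit 0x109) (nat_lit 0) (p (nat_lit 0x101) (nat_lit 0) (p (nat_lit 0x119) (nat_lit 0) (p (nat_lit 0xc9) (nat_lit 0) (p (nat_lit 0x89) (nat_lit 1) (p (nat_lit 0x41) (nat_lit 0) (p (nat_lit 0x10a0b0a89089a) (nat_lit 0) (p (nat_lit 0x98a8a08881a) (nat_lit 0) (p (nat_lit 0x109088988079a) (nat_lit 0) (p (nat_lit 0x8880907871a) (nat_lit 0) (p (nat_lit 0x8000000000800080887068a) (nat_lit 0) (p (nat_lit 0x10888068602) (nat_lit 0) (p (nat_lit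 0x807860582) (nat_lit 0) (p (nat_lit 0x10607058502) (nat_lit 0) (p (nat_lit 0x586850482) (nat_lit 0) (p (nat_lit 0x16000c) (nat_lit 0) (p (nat_lit 0x68612) (nat_lit 0) (p (nat_lit 0x50592) (nat_lit 0) (p (nat_lit 0x40512) (nat_lit 0) (p (nat_lit 0x50312) (nat_lit 0) (p (nat_lit 0x38292) (nat_lit 0) (p (nat_lit 0x28212) (nat_lit 0) (p (nat_lit 0x38112) (nat_lit 0) (p (nat_lit 0x20092) (nat_lit 0) (p (nat_lit 0x10012) (nat_lit 0) pn))))))))))))))))))))))))))))) :=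
  Cl.node (nat_lit 0xb000c) (nat_lit 2) (by decide +kernel) (ClAll.succ (ClAll.succ ClAll.zero n228) s392)

def n307 : Cl (O (nat_lit 5)) (R (nat_lit 14353))
    (p (nat_lit 0x41) (nat_lit 0) (p (nat_lit 0x200014) (nat_lit 0) (p (nat_lit 0x200004) (nat_lit 0) (p (nat_lit 0xd1) (nat_lit 0) (p (nat_lit 0x109) (nat_lit 1) (p (nat_lit 0x101) (nat_lit 0) (p (nat_lit 0x119) (nat_lit 0) (p (nat_lit 0xc9) (nat_lit 0) (p (nat_lit 0x89) (nat_lit 1) (p (nat_lit 0x41) (nat_lit 0) (p (nat_lit 0x10a0b0a89089a) (nat_lit 0) (p (nat_lit 0x98a8a08881a) (nat_lit 0) (p (nat_lit 0x109088988079a) (nat_lit 0) (p (nat_lit 0x8880907871a) (nat_lit 0) (p (nat_lit 0x8000000000800080887068a) (nat_lit 0) (p (nat_lit 0x10888068602) (nat_lit 0) (p (nat_lit 0x807860582) (nat_lit 0) (p (nat_lit 0x10607058502) (nat_lit 0) (p (nat_lit 0x586850482) (nat_lit 0) (p (nat_lit 0x16000c) (nat_lit 0) (p (nat_lit 0x68612)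 (nat_lit 0) (p (nat_lit 0x50592) (nat_lit 0) (p (nat_lit 0x40512) (nat_lit 0) (p (nat_lit 0x50312) (nat_lit 0) (p (nat_lit 0x38292) (nat_lit 0) (p (nat_lit 0x28212) (nat_lit 0) (p (nat_lit 0x38112) (nat_lit 0) (p (nat_lit 0x20092) (nat_lit 0) (p (nat_lit 0x10012) (nat_lit 0) pn))))))))))))))))))))))))))))) :=
  Cl.node (nat_lit 0x44c2a) (nat_lit 12) (by decide +kernel) (ClAll.succ (ClAll.succ (ClAll.succ (ClAll.succ (ClAll.succ (ClAll.succ (ClAll.succ (ClAll.succ (ClAll.succ (ClAll.succ (ClAll.succ (ClAll.succ ClAll.zero s394) n229) s397) s398) s399) s400) s401) s402) s403) s404) s405) s406)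

def n308 : Cl (O (nat_lit 5)) (R (nat_lit 14353))
    (p (nat_lit 0xb000c) (nat_lit 0) (p (nat_lit 0x380c2) (nat_lit 0) (p (nat_lit 0x444aa) (nat_lit 7) (p (nat_lit 0xd1) (nat_lit 1) (p (nat_lit 0x109) (nat_lit 1) (p (nat_lit 0x101) (nat_lit 0) (p (nat_lit 0x119) (nat_lit 0) (p (nat_lit 0xc9) (nat_lit 0) (p (nat_lit 0x89) (nat_lit 1) (p (nat_lit 0x41) (nat_lit 0) (p (nat_lit 0x10a0b0a89089a) (nat_lit 0) (p (nat_lit 0x98a8a08881a) (nat_lit 0) (p (nat_lit 0x109088988079a) (nat_lit 0) (p (nat_lit 0x8880907871a) (nat_lit 0) (p (nat_lit 0x8000000000800080887068a) (nat_lit 0) (p (nat_lit 0x10888068602) (nat_lit 0) (p (nat_lit 0x807860582) (nat_lit 0) (p (nat_lit 0x10607058502) (nat_lit 0) (p (nat_lit 0x586850482) (nat_lit 0) (p (nat_lit 0x16000c) (nat_lit 0) (p (nat_lit 0x68612) (nat_lit 0) (p (nat_lit 0x50592) (nat_lit 0) (p (nat_lit 0x40512) (nat_lit 0) (p (nat_lit 0x50312)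 (nat_lit 0) (p (nat_lit 0x38292) (nat_lit 0) (p (nat_lit 0x28212) (nat_lit 0) (p (nat_lit 0x38112) (nat_lit 0) (p (nat_lit 0x20092) (nat_lit 0) (p (nat_lit 0x10012) (nat_lit 0) pn))))))))))))))))))))))))))))) :=
  Cl.node (nat_lit 0xc1) (nat_lit 2) (by decide +kernel) (ClAll.succ (ClAll.succ ClAll.zero n230) s433)

def n309 : Cl (O (nat_lit 5)) (R (nat_lit 14353))
    (p (nat_lit 0xb000c) (nat_lit 1) (p (nat_lit 0x380c2) (nat_lit 0) (p (nat_lit 0x444aa) (nat_lit 7) (p (nat_lit 0xd1) (nat_lit 1) (p (nat_lit 0x109) (nat_lit 1) (p (nat_lit 0x101) (nat_lit 0) (p (nat_lit 0x119) (nat_lit 0) (p (nat_lit 0xc9) (nat_lit 0) (p (nat_lit 0x89) (nat_lit 1) (p (nat_lit 0x41) (nat_lit 0) (p (nat_lit 0x10a0b0a89089a) (nat_lit 0) (p (nat_lit 0x98a8a08881a) (nat_lit 0) (p (nat_lit 0x109088988079a) (nat_lit 0) (p (nat_lit 0x8880907871a) (nat_lit 0) (p (nat_lit 0x8000000000800080887068a) (nat_lit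 0) (p (nat_lit 0x10888068602) (nat_lit 0) (p (nat_lit 0x807860582) (nat_lit 0) (p (nat_lit 0x10607058502) (nat_lit 0) (p (nat_lit 0x586850482) (nat_lit 0) (p (nat_lit 0x16000c) (nat_lit 0) (p (nat_lit 0x68612) (nat_lit 0) (p (nat_lit 0x50592) (nat_lit 0) (p (nat_lit 0x40512) (nat_lit 0) (p (nat_lit 0x50312) (nat_lit 0) (p (nat_lit 0x38292) (nat_lit 0) (p (nat_lit 0x28212) (nat_lit 0) (p (nat_lit 0x38112) (nat_lit 0) (p (nat_lit 0x20092) (nat_lit 0) (p (nat_lit 0x10012) (nat_lit 0) pn))))))))))))))))))))))))))))) :=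
  Cl.node (nat_lit 0x1fc004) (nat_lit 2) (by decide +kernel) (ClAll.succ (ClAll.succ ClAll.zero n231) s438)

def n310 : Cl (O (nat_lit 5)) (R (nat_lit 14353))
    (p (nat_lit 0xb000c) (nat_lit 0) (p (nat_lit 0x380c2) (nat_lit 1) (p (nat_lit 0x444aa) (nat_lit 7) (p (nat_lit 0xd1) (nat_lit 1) (p (nat_lit 0x109) (nat_lit 1) (p (nat_lit 0x101) (nat_lit 0) (p (nat_lit 0x119) (nat_lit 0) (p (nat_lit 0xc9) (nat_lit 0) (p (nat_lit 0x89) (nat_lit 1) (p (nat_lit 0x41) (nat_lit 0) (p (nat_lit 0x10a0b0a89089a) (nat_lit 0) (p (nat_lit 0x98a8a08881a) (nat_lit 0) (p (nat_lit 0x109088988079a) (nat_lit 0) (p (nat_lit 0x8880907871a) (nat_lit 0) (p (nat_lit 0x8000000000800080887068a) (nat_lit 0) (p (nat_lit 0x10888068602) (nat_lit 0) (p (nat_lit 0x807860582) (nat_lit 0) (p (nat_lit 0x10607058502) (nat_lit 0) (p (nat_lit 0x586850482) (nat_lit 0) (p (nat_lit 0x16000c) (nat_lit 0) (p (nat_lit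 0x68612) (nat_lit 0) (p (nat_lit 0x50592) (nat_lit 0) (p (nat_lit 0x40512) (nat_lit 0) (p (nat_lit 0x50312) (nat_lit 0) (p (nat_lit 0x38292) (nat_lit 0) (p (nat_lit 0x28212) (nat_lit 0) (p (nat_lit 0x38112) (nat_lit 0) (p (nat_lit 0x20092) (nat_lit 0) (p (nat_lit 0x10012) (nat_lit 0) pn))))))))))))))))))))))))))))) :=
  Cl.node (nat_lit 0x200004) (nat_lit 2) (by decide +kernel) (ClAll.succ (ClAll.succ ClAll.zero n232) s444)

def n311 : Cl (O (nat_lit 5)) (R (nat_lit 14353))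
    (p (nat_lit 0x109) (nat_lit 1) (p (nat_lit 0x200014) (nat_lit 0) (p (nat_lit 0x200004) (nat_lit 0) (p (nat_lit 0xd1) (nat_lit 0) (p (nat_lit 0xc1) (nat_lit 0) (p (nat_lit 0x101) (nat_lit 1) (p (nat_lit 0x119) (nat_lit 0) (p (nat_lit 0xc9) (nat_lit 0) (p (nat_lit 0x89) (nat_lit 1) (p (nat_lit 0x41) (nat_lit 0) (p (nat_lit 0x10a0b0a89089a) (nat_lit 0) (p (nat_lit 0x98a8a08881a) (nat_lit 0) (p (nat_lit 0x109088988079a) (nat_lit 0) (p (nat_lit 0x8880907871a) (nat_lit 0) (p (nat_lit 0x8000000000800080887068a) (nat_lit 0) (p (nat_lit 0x10888068602) (nat_lit 0) (p (nat_lit 0x807860582) (nat_lit 0) (p (nat_lit 0x10607058502) (nat_lit 0) (p (nat_lit 0x586850482) (nat_lit 0) (p (nat_lit 0x16000c) (nat_lit 0) (p (nat_lit 0x68612) (nat_lit 0) (p (nat_lit 0x50592) (nat_lit 0) (p (nat_lit 0x40512) (nat_lit 0) (p (nat_lit 0x50312) (nat_lit 0) (p (nat_lit 0x38292) (nat_lit 0) (p (nat_lit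 0x28212) (nat_lit 0) (p (nat_lit 0x38112) (nat_lit 0) (p (nat_lit 0x20092) (nat_lit 0) (p (nat_lit 0x10012) (nat_lit 0) pn))))))))))))))))))))))))))))) :=
  Cl.node (nat_lit 0x44c2a) (nat_lit 12) (by decide +kernel) (ClAll.succ (ClAll.succ (ClAll.succ (ClAll.succ (ClAll.succ (ClAll.succ (ClAll.succ (ClAll.succ (ClAll.succ (ClAll.succ (ClAll.succ (ClAll.succ ClAll.zero n233) n234) s455) s456) s457) s458) s459) s460) s461) s462) s463) s464)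

def n312 : Cl (O (nat_lit 5)) (R (nat_lit 14353))
    (p (nat_lit 0xb000c) (nat_lit 0) (p (nat_lit 0x380c2) (nat_lit 0) (p (nat_lit 0x444aa) (nat_lit 7) (p (nat_lit 0x111) (nat_lit 1) (p (nat_lit 0xd1) (nat_lit 1) (p (nat_lit 0xc1) (nat_lit 0) (p (nat_lit 0x119) (nat_lit 1) (p (nat_lit 0xc9) (nat_lit 0) (p (nat_lit 0x89) (nat_lit 1) (p (nat_lit 0x41) (nat_lit 0) (p (nat_lit 0x10a0b0a89089a) (nat_lit 0) (p (nat_lit 0x98a8a08881a) (nat_lit 0) (p (nat_lit 0x109088988079a) (nat_lit 0) (p (nat_lit 0x8880907871a) (nat_lit 0) (p (nat_lit 0x8000000000800080887068a) (nat_lit 0) (p (nat_lit 0x10888068602) (nat_lit 0) (p (nat_lit 0x807860582) (nat_lit 0) (p (nat_lit 0x10607058502) (nat_lit 0) (p (nat_lit 0x586850482) (nat_lit 0) (p (nat_lit 0x16000c) (nat_lit 0) (p (nat_lit 0x68612) (nat_lit 0) (p (nat_lit 0x50592) (nat_lit 0) (p (nat_lit 0x40512) (nat_lit 0) (p (nat_lit 0x50312)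 (nat_lit 0) (p (nat_lit 0x38292) (nat_lit 0) (p (nat_lit 0x28212) (nat_lit 0) (p (nat_lit 0x38112) (nat_lit 0) (p (nat_lit 0x20092) (nat_lit 0) (p (nat_lit 0x10012) (nat_lit 0) pn))))))))))))))))))))))))))))) :=
  Cl.node (nat_lit 0x109) (nat_lit 2) (by decide +kernel) (ClAll.succ (ClAll.succ ClAll.zero n235) s495)

def n313 : Cl (O (nat_lit 5)) (R (nat_lit 14353))
    (p (nat_lit 0xb000c) (nat_lit 1) (p (nat_lit 0x380c2) (nat_lit 0) (p (nat_lit 0x444aa) (nat_lit 7) (p (nat_lit 0x111) (nat_lit 1) (p (nat_lit 0xd1) (nat_lit 1) (p (nat_lit 0xc1) (nat_lit 0) (p (nat_lit 0x119) (nat_lit 1) (p (nat_lit 0xc9) (nat_lit 0) (p (nat_lit 0x89) (nat_lit 1) (p (nat_lit 0x41) (nat_lit 0) (p (nat_lit 0x10a0b0a89089a) (nat_lit 0) (p (nat_lit 0x98a8a08881a) (nat_lit 0) (p (nat_lit 0x109088988079a) (nat_lit 0) (p (nat_lit 0x8880907871a) (nat_lit 0) (p (nat_lit 0x8000000000800080887068a) (nat_lit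 0) (p (nat_lit 0x10888068602) (nat_lit 0) (p (nat_lit 0x807860582) (nat_lit 0) (p (nat_lit 0x10607058502) (nat_lit 0) (p (nat_lit 0x586850482) (nat_lit 0) (p (nat_lit 0x16000c) (nat_lit 0) (p (nat_lit 0x68612) (nat_lit 0) (p (nat_lit 0x50592) (nat_lit 0) (p (nat_lit 0x40512) (nat_lit 0) (p (nat_lit 0x50312) (nat_lit 0) (p (nat_lit 0x38292) (nat_lit 0) (p (nat_lit 0x28212) (nat_lit 0) (p (nat_lit 0x38112) (nat_lit 0) (p (nat_lit 0x20092) (nat_lit 0) (p (nat_lit 0x10012) (nat_lit 0) pn))))))))))))))))))))))))))))) :=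
  Cl.node (nat_lit 0x1fc004) (nat_lit 2) (by decide +kernel) (ClAll.succ (ClAll.succ ClAll.zero n236) s501)

def n314 : Cl (O (nat_lit 5)) (R (nat_lit 14353))
    (p (nat_lit 0xb000c) (nat_lit 0) (p (nat_lit 0x380c2) (nat_lit 1) (p (nat_lit 0x444aa) (nat_lit 7) (p (nat_lit 0x111) (nat_lit 1) (p (nat_lit 0xd1) (nat_lit 1) (p (nat_lit 0xc1) (nat_lit 0) (p (nat_lit 0x119) (nat_lit 1) (p (nat_lit 0xc9) (nat_lit 0) (p (nat_lit 0x89) (nat_lit 1) (p (nat_lit 0x41) (nat_lit 0) (p (nat_lit 0x10a0b0a89089a) (nat_lit 0) (p (nat_lit 0x98a8a08881a) (nat_lit 0) (p (nat_lit 0x109088988079a) (nat_lit 0) (p (nat_lit 0x8880907871a) (nat_lit 0) (p (nat_lit 0x8000000000800080887068a) (nat_lit 0) (p (nat_lit 0x10888068602) (nat_lit 0) (p (nat_lit 0x807860582) (nat_lit 0) (p (nat_lit 0x10607058502) (nat_lit 0) (p (nat_lit 0x586850482) (nat_lit 0) (p (nat_lit 0x16000c) (nat_lit 0) (p (nat_lit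 0x68612) (nat_lit 0) (p (nat_lit 0x50592) (nat_lit 0) (p (nat_lit 0x40512) (nat_lit 0) (p (nat_lit 0x50312) (nat_lit 0) (p (nat_lit 0x38292) (nat_lit 0) (p (nat_lit 0x28212) (nat_lit 0) (p (nat_lit 0x38112) (nat_lit 0) (p (nat_lit 0x20092) (nat_lit 0) (p (nat_lit 0x10012) (nat_lit 0) pn))))))))))))))))))))))))))))) :=
  Cl.node (nat_lit 0x109) (nat_lit 2) (by decide +kernel) (ClAll.succ (ClAll.succ ClAll.zero n237) s505)

def n315 : Cl (O (nat_lit 5)) (R (nat_lit 14353))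
    (p (nat_lit 0xb000c) (nat_lit 0) (p (nat_lit 0x380c2) (nat_lit 0) (p (nat_lit 0x444aa) (nat_lit 7) (p (nat_lit 0x111) (nat_lit 1) (p (nat_lit 0x101) (nat_lit 0) (p (nat_lit 0xc1) (nat_lit 1) (p (nat_lit 0x119) (nat_lit 1) (p (nat_lit 0xc9) (nat_lit 0) (p (nat_lit 0x89) (nat_lit 1) (p (nat_lit 0x41) (nat_lit 0) (p (nat_lit 0x10a0b0a89089a) (nat_lit 0) (p (nat_lit 0x98a8a08881a) (nat_lit 0) (p (nat_lit 0x109088988079a) (nat_lit 0) (p (nat_lit 0x8880907871a) (nat_lit 0) (p (nat_lit 0x8000000000800080887068a) (nat_lit 0) (p (nat_lit 0x10888068602) (nat_lit 0) (p (nat_lit 0x807860582) (nat_lit 0) (p (nat_lit 0x10607058502) (nat_lit 0) (p (nat_lit 0x586850482) (nat_lit 0) (p (nat_lit 0x16000c) (nat_lit 0) (p (nat_lit 0x68612) (nat_lit 0) (p (nat_lit 0x50592) (nat_lit 0) (p (nat_lit 0x40512) (nat_lit 0) (p (nat_lit 0x50312) (nat_lit 0) (p (nat_lit 0x38292) (nat_lit 0) (p (nat_lit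 0x28212) (nat_lit 0) (p (nat_lit 0x38112) (nat_lit 0) (p (nat_lit 0x20092) (nat_lit 0) (p (nat_lit 0x10012) (nat_lit 0) pn))))))))))))))))))))))))))))) :=
  Cl.node (nat_lit 0x109) (nat_lit 2) (by decide +kernel) (ClAll.succ (ClAll.succ ClAll.zero n238) s532)

def n316 : Cl (O (nat_lit 5)) (R (nat_lit 14353))
    (p (nat_lit 0xb000c) (nat_lit 0) (p (nat_lit 0x380c2) (nat_lit 1) (p (nat_lit 0x444aa) (nat_lit 7) (p (nat_lit 0x111) (nat_lit 1) (p (nat_lit 0x101) (nat_lit 0) (p (nat_lit 0xc1) (nat_lit 1) (p (nat_lit 0x119) (nat_lit 1) (p (nat_lit 0xc9) (nat_lit 0) (p (nat_lit 0x89) (nat_lit 1) (p (nat_lit 0x41) (nat_lit 0) (p (nat_lit 0x10a0b0a89089a) (nat_lit 0) (p (nat_lit 0x98a8a08881a) (nat_lit 0) (p (nat_lit 0x109088988079a) (nat_lit 0) (p (nat_lit 0x8880907871a) (nat_lit 0) (p (nat_lit 0x8000000000800080887068a) (nat_lit 0) (p (nat_lit 0x10888068602) (nat_lit 0) (p (nat_lit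 0x807860582) (nat_lit 0) (p (nat_lit 0x10607058502) (nat_lit 0) (p (nat_lit 0x586850482) (nat_lit 0) (p (nat_lit 0x16000c) (nat_lit 0) (p (nat_lit 0x68612) (nat_lit 0) (p (nat_lit 0x50592) (nat_lit 0) (p (nat_lit 0x40512) (nat_lit 0) (p (nat_lit 0x50312) (nat_lit 0) (p (nat_lit 0x38292) (nat_lit 0) (p (nat_lit 0x28212) (nat_lit 0) (p (nat_lit 0x38112) (nat_lit 0) (p (nat_lit 0x20092) (nat_lit 0) (p (nat_lit 0x10012) (nat_lit 0) pn))))))))))))))))))))))))))))) :=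
  Cl.node (nat_lit 0x109) (nat_lit 2) (by decide +kernel) (ClAll.succ (ClAll.succ ClAll.zero n239) s539)

def n317 : Cl (O (nat_lit 5)) (R (nat_lit 14353))
    (p (nat_lit 0x380c2) (nat_lit 0) (p (nat_lit 0x4c42a) (nat_lit 2) (p (nat_lit 0x111) (nat_lit 0) (p (nat_lit 0x89) (nat_lit 0) (p (nat_lit 0x109) (nat_lit 1) (p (nat_lit 0x101) (nat_lit 0) (p (nat_lit 0x119) (nat_lit 0) (p (nat_lit 0xd1) (nat_lit 0) (p (nat_lit 0x81) (nat_lit 0) (p (nat_lit 0x41) (nat_lit 1) (p (nat_lit 0x10a0b0a89089a) (nat_lit 0) (p (nat_lit 0x98a8a08881a) (nat_lit 0) (p (nat_lit 0x109088988079a) (nat_lit 0) (p (nat_lit 0x8880907871a) (nat_lit 0) (p (nat_lit 0x8000000000800080887068a) (nat_lit 0) (p (nat_lit 0x10888068602) (nat_lit 0) (p (nat_lit 0x807860582) (nat_lit 0) (p (nat_lit 0x10607058502) (nat_lit 0) (p (nat_lit 0x586850482) (nat_lit 0) (p (nat_lit 0x16000c) (nat_lit 0) (p (nat_lit 0x68612)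 (nat_lit 0) (p (nat_lit 0x50592) (nat_lit 0) (p (nat_lit 0x40512) (nat_lit 0) (p (nat_lit 0x50312) (nat_lit 0) (p (nat_lit 0x38292) (nat_lit 0) (p (nat_lit 0x28212) (nat_lit 0) (p (nat_lit 0x38112) (nat_lit 0) (p (nat_lit 0x20092) (nat_lit 0) (p (nat_lit 0x10012) (nat_lit 0) pn))))))))))))))))))))))))))))) :=
  Cl.node (nat_lit 0xc9) (nat_lit 2) (by decide +kernel) (ClAll.succ (ClAll.succ ClAll.zero s553) n240)

def n318 : Cl (O (nat_lit 5)) (R (nat_lit 14353))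
    (p (nat_lit 0x380c2) (nat_lit 0) (p (nat_lit 0x4c42a) (nat_lit 2) (p (nat_lit 0x111) (nat_lit 1) (p (nat_lit 0x89) (nat_lit 0) (p (nat_lit 0x109) (nat_lit 1) (p (nat_lit 0x101) (nat_lit 0) (p (nat_lit 0x119) (nat_lit 0) (p (nat_lit 0xd1) (nat_lit 0) (p (nat_lit 0x81) (nat_lit 0) (p (nat_lit 0x41) (nat_lit 1) (p (nat_lit 0x10a0b0a89089a) (nat_lit 0) (p (nat_lit 0x98a8a08881a) (nat_lit 0) (p (nat_lit 0x109088988079a) (nat_lit 0) (p (nat_lit 0x8880907871a) (nat_lit 0) (p (nat_lit 0x8000000000800080887068a) (nat_lit 0) (p (nat_lit 0x10888068602) (nat_lit 0) (p (nat_lit 0x807860582) (nat_lit 0) (p (nat_lit 0x10607058502) (nat_lit 0) (p (nat_lit 0x586850482) (nat_lit 0) (p (nat_lit 0x16000c) (nat_lit 0) (p (nat_lit 0x68612) (nat_lit 0) (p (nat_lit 0x50592) (nat_lit 0) (p (nat_lit 0x40512) (nat_lit 0) (p (nat_lit 0x50312) (nat_lit 0) (p (nat_lit 0x38292) (nat_lit 0) (p (nat_lit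 0x28212) (nat_lit 0) (p (nat_lit 0x38112) (nat_lit 0) (p (nat_lit 0x20092) (nat_lit 0) (p (nat_lit 0x10012) (nat_lit 0) pn))))))))))))))))))))))))))))) :=
  Cl.node (nat_lit 0x3cc2a) (nat_lit 12) (by decide +kernel) (ClAll.succ (ClAll.succ (ClAll.succ (ClAll.succ (ClAll.succ (ClAll.succ (ClAll.succ (ClAll.succ (ClAll.succ (ClAll.succ (ClAll.succ (ClAll.succ ClAll.zero s577) s578) s579) s580) s581) s582) s583) s584) s585) s586) s587) s588)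

def n319 : Cl (O (nat_lit 5)) (R (nat_lit 14353))
    (p (nat_lit 0x380c2) (nat_lit 0) (p (nat_lit 0x4c42a) (nat_lit 2) (p (nat_lit 0xc9) (nat_lit 0) (p (nat_lit 0x89) (nat_lit 1) (p (nat_lit 0x109) (nat_lit 1) (p (nat_lit 0x101) (nat_lit 0) (p (nat_lit 0x119) (nat_lit 0) (p (nat_lit 0xd1) (nat_lit 0) (p (nat_lit 0x81) (nat_lit 0) (p (nat_lit 0x41) (nat_lit 1) (p (nat_lit 0x10a0b0a89089a) (nat_lit 0) (p (nat_lit 0x98a8a08881a) (nat_lit 0) (p (nat_lit 0x109088988079a) (nat_lit 0) (p (nat_lit 0x8880907871a) (nat_lit 0) (p (nat_lit 0x8000000000800080887068a) (nat_lit 0) (p (nat_lit 0x10888068602) (nat_lit 0) (p (nat_lit 0x807860582) (nat_lit 0) (p (nat_lit 0x10607058502) (nat_lit 0) (p (nat_lit 0x586850482) (nat_lit 0) (p (nat_lit 0x16000c) (nat_lit 0) (p (nat_lit 0x68612) (nat_lit 0) (p (nat_lit 0x50592) (nat_lit 0) (p (nat_lit 0x40512) (nat_lit 0) (p (nat_lit 0x50312) (nat_lit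 0) (p (nat_lit 0x38292) (nat_lit 0) (p (nat_lit 0x28212) (nat_lit 0) (p (nat_lit 0x38112) (nat_lit 0) (p (nat_lit 0x20092) (nat_lit 0) (p (nat_lit 0x10012) (nat_lit 0) pn))))))))))))))))))))))))))))) :=
  Cl.node (nat_lit 0x111) (nat_lit 2) (by decide +kernel) (ClAll.succ (ClAll.succ ClAll.zero s600) n241)

def n320 : Cl (O (nat_lit 5)) (R (nat_lit 14353))
    (p (nat_lit 0x380c2) (nat_lit 0) (p (nat_lit 0x4c42a) (nat_lit 2) (p (nat_lit 0xc9) (nat_lit 0) (p (nat_lit 0x89) (nat_lit 1) (p (nat_lit 0xc1) (nat_lit 0) (p (nat_lit 0x101) (nat_lit 1) (p (nat_lit 0x119) (nat_lit 0) (p (nat_lit 0xd1) (nat_lit 0) (p (nat_lit 0x81) (nat_lit 0) (p (nat_lit 0x41) (nat_lit 1) (p (nat_lit 0x10a0b0a89089a) (nat_lit 0) (p (nat_lit 0x98a8a08881a) (nat_lit 0) (p (nat_lit 0x109088988079a) (nat_lit 0) (p (nat_lit 0x8880907871a) (nat_lit 0) (p (nat_lit 0x8000000000800080887068a) (nat_lit 0) (p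 (nat_lit 0x10888068602) (nat_lit 0) (p (nat_lit 0x807860582) (nat_lit 0) (p (nat_lit 0x10607058502) (nat_lit 0) (p (nat_lit 0x586850482) (nat_lit 0) (p (nat_lit 0x16000c) (nat_lit 0) (p (nat_lit 0x68612) (nat_lit 0) (p (nat_lit 0x50592) (nat_lit 0) (p (nat_lit 0x40512) (nat_lit 0) (p (nat_lit 0x50312) (nat_lit 0) (p (nat_lit 0x38292) (nat_lit 0) (p (nat_lit 0x28212) (nat_lit 0) (p (nat_lit 0x38112) (nat_lit 0) (p (nat_lit 0x20092) (nat_lit 0) (p (nat_lit 0x10012) (nat_lit 0) pn))))))))))))))))))))))))))))) :=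
  Cl.node (nat_lit 0x44c2a) (nat_lit 12) (by decide +kernel) (ClAll.succ (ClAll.succ (ClAll.succ (ClAll.succ (ClAll.succ (ClAll.succ (ClAll.succ (ClAll.succ (ClAll.succ (ClAll.succ (ClAll.succ (ClAll.succ ClAll.zero n242) n243) s676) s677) s678) s679) s680) s681) s682) s683) s684) s685)

def n321 : Cl (O (nat_lit 5)) (R (nat_lit 14353))
    (p (nat_lit 0x380c2) (nat_lit 0) (p (nat_lit 0x4c42a) (nat_lit 2) (p (nat_lit 0xc9) (nat_lit 1) (p (nat_lit 0x89) (nat_lit 1) (p (nat_lit 0xc1) (nat_lit 0) (p (nat_lit 0x101) (nat_lit 1) (p (nat_lit 0x119) (nat_lit 0) (p (nat_lit 0xd1) (nat_lit 0) (p (nat_lit 0x81) (nat_lit 0) (p (nat_lit 0x41) (nat_lit 1) (p (nat_lit 0x10a0b0a89089a) (nat_lit 0) (p (nat_lit 0x98a8a08881a) (nat_lit 0) (p (nat_lit 0x109088988079a) (nat_lit 0) (p (nat_lit 0x8880907871a) (nat_lit 0) (p (nat_lit 0x8000000000800080887068a) (nat_lit 0) (p (nat_lit 0x10888068602)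 (nat_lit 0) (p (nat_lit 0x807860582) (nat_lit 0) (p (nat_lit 0x10607058502) (nat_lit 0) (p (nat_lit 0x586850482) (nat_lit 0) (p (nat_lit 0x16000c) (nat_lit 0) (p (nat_lit 0x68612) (nat_lit 0) (p (nat_lit 0x50592) (nat_lit 0) (p (nat_lit 0x40512) (nat_lit 0) (p (nat_lit 0x50312) (nat_lit 0) (p (nat_lit 0x38292) (nat_lit 0) (p (nat_lit 0x28212) (nat_lit 0) (p (nat_lit 0x38112) (nat_lit 0) (p (nat_lit 0x20092) (nat_lit 0) (p (nat_lit 0x10012) (nat_lit 0) pn))))))))))))))))))))))))))))) :=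
  Cl.node (nat_lit 0x3c4aa) (nat_lit 12) (by decide +kernel) (ClAll.succ (ClAll.succ (ClAll.succ (ClAll.succ (ClAll.succ (ClAll.succ (ClAll.succ (ClAll.succ (ClAll.succ (ClAll.succ (ClAll.succ (ClAll.succ ClAll.zero s697) s698) s699) s700) s701) s702) s703) n244) s708) s709) s710) s711)

def n322 : Cl (O (nat_lit 5)) (R (nat_lit 14353))
    (p (nat_lit 0xb000c) (nat_lit 0) (p (nat_lit 0x380c2) (nat_lit 1) (p (nat_lit 0x3c4aa) (nat_lit 7) (p (nat_lit 0x89) (nat_lit 1) (p (nat_lit 0xc1) (nat_lit 1) (p (nat_lit 0x101) (nat_lit 1) (p (nat_lit 0x119) (nat_lit 0) (p (nat_lit 0xd1) (nat_lit 0) (p (nat_lit 0x81) (nat_lit 0) (p (nat_lit 0x41) (nat_lit 1) (p (nat_lit 0x10a0b0a89089a) (nat_lit 0) (p (nat_lit 0x98a8a08881a) (nat_lit 0) (p (nat_lit 0x109088988079a) (nat_lit 0) (p (nat_lit 0x8880907871a) (nat_lit 0) (p (nat_lit 0x8000000000800080887068a) (nat_lit 0) (p (nat_lit 0x10888068602)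 (nat_lit 0) (p (nat_lit 0x807860582) (nat_lit 0) (p (nat_lit 0x10607058502) (nat_lit 0) (p (nat_lit 0x586850482) (nat_lit 0) (p (nat_lit 0x16000c) (nat_lit 0) (p (nat_lit 0x68612) (nat_lit 0) (p (nat_lit 0x50592) (nat_lit 0) (p (nat_lit 0x40512) (nat_lit 0) (p (nat_lit 0x50312) (nat_lit 0) (p (nat_lit 0x38292) (nat_lit 0) (p (nat_lit 0x28212) (nat_lit 0) (p (nat_lit 0x38112) (nat_lit 0) (p (nat_lit 0x20092) (nat_lit 0) (p (nat_lit 0x10012) (nat_lit 0) pn))))))))))))))))))))))))))))) :=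
  Cl.node (nat_lit 0x200004) (nat_lit 2) (by decide +kernel) (ClAll.succ (ClAll.succ ClAll.zero n245) s747)

def n323 : Cl (O (nat_lit 5)) (R (nat_lit 14353))
    (p (nat_lit 0x380c2) (nat_lit 0) (p (nat_lit 0x44c2a) (nat_lit 0) (p (nat_lit 0x109) (nat_lit 0) (p (nat_lit 0x89) (nat_lit 1) (p (nat_lit 0xc9) (nat_lit 1) (p (nat_lit 0xc1) (nat_lit 0) (p (nat_lit 0x119) (nat_lit 1) (p (nat_lit 0xd1) (nat_lit 0) (p (nat_lit 0x81) (nat_lit 0) (p (nat_lit 0x41) (nat_lit 1) (p (nat_lit 0x10a0b0a89089a) (nat_lit 0) (p (nat_lit 0x98a8a08881a) (nat_lit 0) (p (nat_lit 0x109088988079a) (nat_lit 0) (p (nat_lit 0x8880907871a) (nat_lit 0) (p (nat_lit 0x8000000000800080887068a) (nat_lit 0) (p (nat_lit 0x10888068602) (nat_lit 0) (p (nat_lit 0x807860582) (nat_lit 0) (p (nat_lit 0x10607058502) (nat_lit 0) (p (nat_lit 0x586850482) (nat_lit 0) (p (nat_lit 0x16000c) (nat_lit 0) (p (nat_lit 0x68612)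 (nat_lit 0) (p (nat_lit 0x50592) (nat_lit 0) (p (nat_lit 0x40512) (nat_lit 0) (p (nat_lit 0x50312) (nat_lit 0) (p (nat_lit 0x38292) (nat_lit 0) (p (nat_lit 0x28212) (nat_lit 0) (p (nat_lit 0x38112) (nat_lit 0) (p (nat_lit 0x20092) (nat_lit 0) (p (nat_lit 0x10012) (nat_lit 0) pn))))))))))))))))))))))))))))) :=
  Cl.node (nat_lit 0x200004) (nat_lit 2) (by decide +kernel) (ClAll.succ (ClAll.succ ClAll.zero n246) s781)

def n324 : Cl (O (nat_lit 5)) (R (nat_lit 14353))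
    (p (nat_lit 0x380c2) (nat_lit 0) (p (nat_lit 0x44c2a) (nat_lit 1) (p (nat_lit 0x109) (nat_lit 0) (p (nat_lit 0x89) (nat_lit 1) (p (nat_lit 0xc9) (nat_lit 1) (p (nat_lit 0xc1) (nat_lit 0) (p (nat_lit 0x119) (nat_lit 1) (p (nat_lit 0xd1) (nat_lit 0) (p (nat_lit 0x81) (nat_lit 0) (p (nat_lit 0x41) (nat_lit 1) (p (nat_lit 0x10a0b0a89089a) (nat_lit 0) (p (nat_lit 0x98a8a08881a) (nat_lit 0) (p (nat_lit 0x109088988079a) (nat_lit 0) (p (nat_lit 0x8880907871a) (nat_lit 0) (p (nat_lit 0x8000000000800080887068a) (nat_lit 0) (p (nat_lit 0x10888068602) (nat_lit 0) (p (nat_lit 0x807860582) (nat_lit 0) (p (nat_lit 0x10607058502) (nat_lit 0) (p (nat_lit 0x586850482) (nat_lit 0) (p (nat_lit 0x16000c) (nat_lit 0) (p (nat_lit 0x68612) (nat_lit 0) (p (nat_lit 0x50592) (nat_lit 0) (p (nat_lit 0x40512) (nat_lit 0) (p (nat_lit 0x50312) (nat_lit 0) (p (nat_lit 0x38292) (nat_lit 0) (p (nat_lit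 0x28212) (nat_lit 0) (p (nat_lit 0x38112) (nat_lit 0) (p (nat_lit 0x20092) (nat_lit 0) (p (nat_lit 0x10012) (nat_lit 0) pn))))))))))))))))))))))))))))) :=
  Cl.node (nat_lit 0x109) (nat_lit 2) (by decide +kernel) (ClAll.succ (ClAll.succ ClAll.zero s782) n247)

def n325 : Cl (O (nat_lit 5)) (R (nat_lit 14353))
    (p (nat_lit 0x380c2) (nat_lit 0) (p (nat_lit 0x44c2a) (nat_lit 2) (p (nat_lit 0x109) (nat_lit 0) (p (nat_lit 0x89) (nat_lit 1) (p (nat_lit 0xc9) (nat_lit 1) (p (nat_lit 0xc1) (nat_lit 0) (p (nat_lit 0x119) (nat_lit 1) (p (nat_lit 0xd1) (nat_lit 0) (p (nat_lit 0x81) (nat_lit 0) (p (nat_lit 0x41) (nat_lit 1) (p (nat_lit 0x10a0b0a89089a) (nat_lit 0) (p (nat_lit 0x98a8a08881a) (nat_lit 0) (p (nat_lit 0x109088988079a) (nat_lit 0) (p (nat_lit 0x8880907871a) (nat_lit 0) (p (nat_lit 0x8000000000800080887068a) (nat_lit 0) (p (nat_lit 0x10888068602) (nat_lit 0) (p (nat_lit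 0x807860582) (nat_lit 0) (p (nat_lit 0x10607058502) (nat_lit 0) (p (nat_lit 0x586850482) (nat_lit 0) (p (nat_lit 0x16000c) (nat_lit 0) (p (nat_lit 0x68612) (nat_lit 0) (p (nat_lit 0x50592) (nat_lit 0) (p (nat_lit 0x40512) (nat_lit 0) (p (nat_lit 0x50312) (nat_lit 0) (p (nat_lit 0x38292) (nat_lit 0) (p (nat_lit 0x28212) (nat_lit 0) (p (nat_lit 0x38112) (nat_lit 0) (p (nat_lit 0x20092) (nat_lit 0) (p (nat_lit 0x10012) (nat_lit 0) pn))))))))))))))))))))))))))))) :=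
  Cl.node (nat_lit 0xb000c) (nat_lit 2) (by decide +kernel) (ClAll.succ (ClAll.succ ClAll.zero s796) s797)

def n326 : Cl (O (nat_lit 5)) (R (nat_lit 14353))
    (p (nat_lit 0x380c2) (nat_lit 1) (p (nat_lit 0x3c4aa) (nat_lit 7) (p (nat_lit 0x109) (nat_lit 1) (p (nat_lit 0x89) (nat_lit 1) (p (nat_lit 0xc9) (nat_lit 1) (p (nat_lit 0xc1) (nat_lit 0) (p (nat_lit 0x119) (nat_lit 1) (p (nat_lit 0xd1) (nat_lit 0) (p (nat_lit 0x81) (nat_lit 0) (p (nat_lit 0x41) (nat_lit 1) (p (nat_lit 0x10a0b0a89089a) (nat_lit 0) (p (nat_lit 0x98a8a08881a) (nat_lit 0) (p (nat_lit 0x109088988079a) (nat_lit 0) (p (nat_lit 0x8880907871a) (nat_lit 0) (p (nat_lit 0x8000000000800080887068a) (nat_lit 0) (p (nat_lit 0x10888068602) (nat_lit 0) (p (nat_lit 0x807860582) (nat_lit 0) (p (nat_lit 0x10607058502) (nat_lit 0) (p (nat_lit 0x586850482) (nat_lit 0) (p (nat_lit 0x16000c) (nat_lit 0) (p (nat_lit 0x68612)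 (nat_lit 0) (p (nat_lit 0x50592) (nat_lit 0) (p (nat_lit 0x40512) (nat_lit 0) (p (nat_lit 0x50312) (nat_lit 0) (p (nat_lit 0x38292) (nat_lit 0) (p (nat_lit 0x28212) (nat_lit 0) (p (nat_lit 0x38112) (nat_lit 0) (p (nat_lit 0x20092) (nat_lit 0) (p (nat_lit 0x10012) (nat_lit 0) pn))))))))))))))))))))))))))))) :=
  Cl.node (nat_lit 0xb000c) (nat_lit 2) (by decide +kernel) (ClAll.succ (ClAll.succ ClAll.zero s815) s816)

def n327 : Cl (O (nat_lit 5)) (R (nat_lit 14353))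
    (p (nat_lit 0x380c2) (nat_lit 1) (p (nat_lit 0x3c4aa) (nat_lit 10) (p (nat_lit 0x109) (nat_lit 1) (p (nat_lit 0x89) (nat_lit 1) (p (nat_lit 0xc9) (nat_lit 1) (p (nat_lit 0xc1) (nat_lit 0) (p (nat_lit 0x119) (nat_lit 1) (p (nat_lit 0xd1) (nat_lit 0) (p (nat_lit 0x81) (nat_lit 0) (p (nat_lit 0x41) (nat_lit 1) (p (nat_lit 0x10a0b0a89089a) (nat_lit 0) (p (nat_lit 0x98a8a08881a) (nat_lit 0) (p (nat_lit 0x109088988079a) (nat_lit 0) (p (nat_lit 0x8880907871a) (nat_lit 0) (p (nat_lit 0x8000000000800080887068a) (nat_lit 0) (p (nat_lit 0x10888068602) (nat_lit 0) (p (nat_lit 0x807860582) (nat_lit 0) (p (nat_lit 0x10607058502) (nat_lit 0) (p (nat_lit 0x586850482) (nat_lit 0) (p (nat_lit 0x16000c) (nat_lit 0) (p (nat_lit 0x68612) (nat_lit 0) (p (nat_lit 0x50592) (nat_lit 0) (p (nat_lit 0x40512) (nat_lit 0) (p (nat_lit 0x50312) (nat_lit 0) (p (nat_lit 0x38292) (nat_lit 0) (p (nat_lit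 0x28212) (nat_lit 0) (p (nat_lit 0x38112) (nat_lit 0) (p (nat_lit 0x20092) (nat_lit 0) (p (nat_lit 0x10012) (nat_lit 0) pn))))))))))))))))))))))))))))) :=
  Cl.node (nat_lit 0xb000c) (nat_lit 2) (by decide +kernel) (ClAll.succ (ClAll.succ ClAll.zero n248) n249)

def n328 : Cl (O (nat_lit 5)) (R (nat_lit 14353))
    (p (nat_lit 0x380c2) (nat_lit 0) (p (nat_lit 0x44c2a) (nat_lit 0) (p (nat_lit 0x109) (nat_lit 0) (p (nat_lit 0x89) (nat_lit 1) (p (nat_lit 0x101) (nat_lit 0) (p (nat_lit 0xc1) (nat_lit 1) (p (nat_lit 0x119) (nat_lit 1) (p (nat_lit 0xd1) (nat_lit 0) (p (nat_lit 0x81) (nat_lit 0) (p (nat_lit 0x41) (nat_lit 1) (p (nat_lit 0x10a0b0a89089a) (nat_lit 0) (p (nat_lit 0x98a8a08881a) (nat_lit 0) (p (nat_lit 0x109088988079a) (nat_lit 0) (p (nat_lit 0x8880907871a) (nat_lit 0) (p (nat_lit 0x8000000000800080887068a) (nat_lit 0) (p (nat_lit 0x10888068602) (nat_lit 0) (p (nat_lit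 0x807860582) (nat_lit 0) (p (nat_lit 0x10607058502) (nat_lit 0) (p (nat_lit 0x586850482) (nat_lit 0) (p (nat_lit 0x16000c) (nat_lit 0) (p (nat_lit 0x68612) (nat_lit 0) (p (nat_lit 0x50592) (nat_lit 0) (p (nat_lit 0x40512) (nat_lit 0) (p (nat_lit 0x50312) (nat_lit 0) (p (nat_lit 0x38292) (nat_lit 0) (p (nat_lit 0x28212) (nat_lit 0) (p (nat_lit 0x38112) (nat_lit 0) (p (nat_lit 0x20092) (nat_lit 0) (p (nat_lit 0x10012) (nat_lit 0) pn))))))))))))))))))))))))))))) :=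
  Cl.node (nat_lit 0x109) (nat_lit 2) (by decide +kernel) (ClAll.succ (ClAll.succ ClAll.zero s833) n250)

def n329 : Cl (O (nat_lit 5)) (R (nat_lit 14353))
    (p (nat_lit 0x380c2) (nat_lit 0) (p (nat_lit 0x44c2a) (nat_lit 1) (p (nat_lit 0x109) (nat_lit 0) (p (nat_lit 0x89) (nat_lit 1) (p (nat_lit 0x101) (nat_lit 0) (p (nat_lit 0xc1) (nat_lit 1) (p (nat_lit 0x119) (nat_lit 1) (p (nat_lit 0xd1) (nat_lit 0) (p (nat_lit 0x81) (nat_lit 0) (p (nat_lit 0x41) (nat_lit 1) (p (nat_lit 0x10a0b0a89089a) (nat_lit 0) (p (nat_lit 0x98a8a08881a) (nat_lit 0) (p (nat_lit 0x109088988079a) (nat_lit 0) (p (nat_lit 0x8880907871a) (nat_lit 0) (p (nat_lit 0x8000000000800080887068a) (nat_lit 0) (p (nat_lit 0x10888068602) (nat_lit 0) (p (nat_lit 0x807860582) (nat_lit 0) (p (nat_lit 0x10607058502) (nat_lit 0) (p (nat_lit 0x586850482) (nat_lit 0) (p (nat_lit 0x16000c) (nat_lit 0) (p (nat_lit 0x68612)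 (nat_lit 0) (p (nat_lit 0x50592) (nat_lit 0) (p (nat_lit 0x40512) (nat_lit 0) (p (nat_lit 0x50312) (nat_lit 0) (p (nat_lit 0x38292) (nat_lit 0) (p (nat_lit 0x28212) (nat_lit 0) (p (nat_lit 0x38112) (nat_lit 0) (p (nat_lit 0x20092) (nat_lit 0) (p (nat_lit 0x10012) (nat_lit 0) pn))))))))))))))))))))))))))))) :=
  Cl.node (nat_lit 0x109) (nat_lit 2) (by decide +kernel) (ClAll.succ (ClAll.succ ClAll.zero s846) n251)

def n330 : Cl (O (nat_lit 5)) (R (nat_lit 14353))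
    (p (nat_lit 0x380c2) (nat_lit 0) (p (nat_lit 0x44c2a) (nat_lit 2) (p (nat_lit 0x109) (nat_lit 0) (p (nat_lit 0x89) (nat_lit 1) (p (nat_lit 0x101) (nat_lit 0) (p (nat_lit 0xc1) (nat_lit 1) (p (nat_lit 0x119) (nat_lit 1) (p (nat_lit 0xd1) (nat_lit 0) (p (nat_lit 0x81) (nat_lit 0) (p (nat_lit 0x41) (nat_lit 1) (p (nat_lit 0x10a0b0a89089a) (nat_lit 0) (p (nat_lit 0x98a8a08881a) (nat_lit 0) (p (nat_lit 0x109088988079a) (nat_lit 0) (p (nat_lit 0x8880907871a) (nat_lit 0) (p (nat_lit 0x8000000000800080887068a) (nat_lit 0) (p (nat_lit 0x10888068602) (nat_lit 0) (p (nat_lit 0x807860582) (nat_lit 0) (p (nat_lit 0x10607058502) (nat_lit 0) (p (nat_lit 0x586850482) (nat_lit 0) (p (nat_lit 0x16000c) (nat_lit 0) (p (nat_lit 0x68612) (nat_lit 0) (p (nat_lit 0x50592) (nat_lit 0) (p (nat_lit 0x40512) (nat_lit 0) (p (nat_lit 0x50312) (nat_lit 0) (p (nat_lit 0x38292) (nat_lit 0) (p (nat_lit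 0x28212) (nat_lit 0) (p (nat_lit 0x38112) (nat_lit 0) (p (nat_lit 0x20092) (nat_lit 0) (p (nat_lit 0x10012) (nat_lit 0) pn))))))))))))))))))))))))))))) :=
  Cl.node (nat_lit 0x200014) (nat_lit 2) (by decide +kernel) (ClAll.succ (ClAll.succ ClAll.zero n252) s852)

def n331 : Cl (O (nat_lit 5)) (R (nat_lit 14353))
    (p (nat_lit 0x380c2) (nat_lit 0) (p (nat_lit 0x3c4aa) (nat_lit 7) (p (nat_lit 0x109) (nat_lit 1) (p (nat_lit 0x89) (nat_lit 1) (p (nat_lit 0x101) (nat_lit 0) (p (nat_lit 0xc1) (nat_lit 1) (p (nat_lit 0x119) (nat_lit 1) (p (nat_lit 0xd1) (nat_lit 0) (p (nat_lit 0x81) (nat_lit 0) (p (nat_lit 0x41) (nat_lit 1) (p (nat_lit 0x10a0b0a89089a) (nat_lit 0) (p (nat_lit 0x98a8a08881a) (nat_lit 0) (p (nat_lit 0x109088988079a) (nat_lit 0) (p (nat_lit 0x8880907871a) (nat_lit 0) (p (nat_lit 0x8000000000800080887068a) (nat_lit 0) (p (nat_lit 0x10888068602) (nat_lit 0) (p (nat_lit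 0x807860582) (nat_lit 0) (p (nat_lit 0x10607058502) (nat_lit 0) (p (nat_lit 0x586850482) (nat_lit 0) (p (nat_lit 0x16000c) (nat_lit 0) (p (nat_lit 0x68612) (nat_lit 0) (p (nat_lit 0x50592) (nat_lit 0) (p (nat_lit 0x40512) (nat_lit 0) (p (nat_lit 0x50312) (nat_lit 0) (p (nat_lit 0x38292) (nat_lit 0) (p (nat_lit 0x28212) (nat_lit 0) (p (nat_lit 0x38112) (nat_lit 0) (p (nat_lit 0x20092) (nat_lit 0) (p (nat_lit 0x10012) (nat_lit 0) pn))))))))))))))))))))))))))))) :=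
  Cl.node (nat_lit 0x200004) (nat_lit 2) (by decide +kernel) (ClAll.succ (ClAll.succ ClAll.zero n253) s872)

def n332 : Cl (O (nat_lit 5)) (R (nat_lit 14353))
    (p (nat_lit 0x380c2) (nat_lit 1) (p (nat_lit 0x3c4aa) (nat_lit 7) (p (nat_lit 0x109) (nat_lit 1) (p (nat_lit 0x89) (nat_lit 1) (p (nat_lit 0x101) (nat_lit 0) (p (nat_lit 0xc1) (nat_lit 1) (p (nat_lit 0x119) (nat_lit 1) (p (nat_lit 0xd1) (nat_lit 0) (p (nat_lit 0x81) (nat_lit 0) (p (nat_lit 0x41) (nat_lit 1) (p (nat_lit 0x10a0b0a89089a) (nat_lit 0) (p (nat_lit 0x98a8a08881a) (nat_lit 0) (p (nat_lit 0x109088988079a) (nat_lit 0) (p (nat_lit 0x8880907871a) (nat_lit 0) (p (nat_lit 0x8000000000800080887068a) (nat_lit 0) (p (nat_lit 0x10888068602) (nat_lit 0) (p (nat_lit 0x807860582) (nat_lit 0) (p (nat_lit 0x10607058502) (nat_lit 0) (p (nat_lit 0x586850482) (nat_lit 0) (p (nat_lit 0x16000c) (nat_lit 0) (p (nat_lit 0x68612)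 (nat_lit 0) (p (nat_lit 0x50592) (nat_lit 0) (p (nat_lit 0x40512) (nat_lit 0) (p (nat_lit 0x50312) (nat_lit 0) (p (nat_lit 0x38292) (nat_lit 0) (p (nat_lit 0x28212) (nat_lit 0) (p (nat_lit 0x38112) (nat_lit 0) (p (nat_lit 0x20092) (nat_lit 0) (p (nat_lit 0x10012) (nat_lit 0) pn))))))))))))))))))))))))))))) :=
  Cl.node (nat_lit 0xb000c) (nat_lit 2) (by decide +kernel) (ClAll.succ (ClAll.succ ClAll.zero n254) n255)

def n333 : Cl (O (nat_lit 5)) (R (nat_lit 14353))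
    (p (nat_lit 0x380c2) (nat_lit 1) (p (nat_lit 0x3c4aa) (nat_lit 10) (p (nat_lit 0x109) (nat_lit 1) (p (nat_lit 0x89) (nat_lit 1) (p (nat_lit 0x101) (nat_lit 0) (p (nat_lit 0xc1) (nat_lit 1) (p (nat_lit 0x119) (nat_lit 1) (p (nat_lit 0xd1) (nat_lit 0) (p (nat_lit 0x81) (nat_lit 0) (p (nat_lit 0x41) (nat_lit 1) (p (nat_lit 0x10a0b0a89089a) (nat_lit 0) (p (nat_lit 0x98a8a08881a) (nat_lit 0) (p (nat_lit 0x109088988079a) (nat_lit 0) (p (nat_lit 0x8880907871a) (nat_lit 0) (p (nat_lit 0x8000000000800080887068a) (nat_lit 0) (p (nat_lit 0x10888068602) (nat_lit 0) (p (nat_lit 0x807860582) (nat_lit 0) (p (nat_lit 0x10607058502) (nat_lit 0) (p (nat_lit 0x586850482) (nat_lit 0) (p (nat_lit 0x16000c) (nat_lit 0) (p (nat_lit 0x68612) (nat_lit 0) (p (nat_lit 0x50592) (nat_lit 0) (p (nat_lit 0x40512) (nat_lit 0) (p (nat_lit 0x50312) (nat_lit 0) (p (nat_lit 0x38292) (nat_lit 0) (p (nat_lit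 0x28212) (nat_lit 0) (p (nat_lit 0x38112) (nat_lit 0) (p (nat_lit 0x20092) (nat_lit 0) (p (nat_lit 0x10012) (nat_lit 0) pn))))))))))))))))))))))))))))) :=
  Cl.node (nat_lit 0xb000c) (nat_lit 2) (by decide +kernel) (ClAll.succ (ClAll.succ ClAll.zero n256) s891)

def n334 : Cl (O (nat_lit 5)) (R (nat_lit 14353))
    (p (nat_lit 0xb000c) (nat_lit 0) (p (nat_lit 0x380c2) (nat_lit 0) (p (nat_lit 0x3c4aa) (nat_lit 7) (p (nat_lit 0x89) (nat_lit 1) (p (nat_lit 0x101) (nat_lit 1) (p (nat_lit 0xc1) (nat_lit 1) (p (nat_lit 0x119) (nat_lit 1) (p (nat_lit 0xd1) (nat_lit 0) (p (nat_lit 0x81) (nat_lit 0) (p (nat_lit 0x41) (nat_lit 1) (p (nat_lit 0x10a0b0a89089a) (nat_lit 0) (p (nat_lit 0x98a8a08881a) (nat_lit 0) (p (nat_lit 0x109088988079a) (nat_lit 0) (p (nat_lit 0x8880907871a) (nat_lit 0) (p (nat_lit 0x8000000000800080887068a) (nat_lit 0) (p (nat_lit 0x10888068602) (nat_lit 0) (p (nat_lit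 0x807860582) (nat_lit 0) (p (nat_lit 0x10607058502) (nat_lit 0) (p (nat_lit 0x586850482) (nat_lit 0) (p (nat_lit 0x16000c) (nat_lit 0) (p (nat_lit 0x68612) (nat_lit 0) (p (nat_lit 0x50592) (nat_lit 0) (p (nat_lit 0x40512) (nat_lit 0) (p (nat_lit 0x50312) (nat_lit 0) (p (nat_lit 0x38292) (nat_lit 0) (p (nat_lit 0x28212) (nat_lit 0) (p (nat_lit 0x38112) (nat_lit 0) (p (nat_lit 0x20092) (nat_lit 0) (p (nat_lit 0x10012) (nat_lit 0) pn))))))))))))))))))))))))))))) :=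
  Cl.node (nat_lit 0x200004) (nat_lit 2) (by decide +kernel) (ClAll.succ (ClAll.succ ClAll.zero n257) s918)

def n335 : Cl (O (nat_lit 5)) (R (nat_lit 14353))
    (p (nat_lit 0x200004) (nat_lit 0) (p (nat_lit 0x380c2) (nat_lit 1) (p (nat_lit 0x3c4aa) (nat_lit 7) (p (nat_lit 0x89) (nat_lit 1) (p (nat_lit 0x101) (nat_lit 1) (p (nat_lit 0xc1) (nat_lit 1) (p (nat_lit 0x119) (nat_lit 1) (p (nat_lit 0xd1) (nat_lit 0) (p (nat_lit 0x81) (nat_lit 0) (p (nat_lit 0x41) (nat_lit 1) (p (nat_lit 0x10a0b0a89089a) (nat_lit 0) (p (nat_lit 0x98a8a08881a) (nat_lit 0) (p (nat_lit 0x109088988079a) (nat_lit 0) (p (nat_lit 0x8880907871a) (nat_lit 0) (p (nat_lit 0x8000000000800080887068a) (nat_lit 0) (p (nat_lit 0x10888068602) (nat_lit 0) (p (nat_lit 0x807860582) (nat_lit 0) (p (nat_lit 0x10607058502) (nat_lit 0) (p (nat_lit 0x586850482) (nat_lit 0) (p (nat_lit 0x16000c) (nat_lit 0) (p (nat_lit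 0x68612) (nat_lit 0) (p (nat_lit 0x50592) (nat_lit 0) (p (nat_lit 0x40512) (nat_lit 0) (p (nat_lit 0x50312) (nat_lit 0) (p (nat_lit 0x38292) (nat_lit 0) (p (nat_lit 0x28212) (nat_lit 0) (p (nat_lit 0x38112) (nat_lit 0) (p (nat_lit 0x20092) (nat_lit 0) (p (nat_lit 0x10012) (nat_lit 0) pn))))))))))))))))))))))))))))) :=
  Cl.node (nat_lit 0x100004) (nat_lit 2) (by decide +kernel) (ClAll.succ (ClAll.succ ClAll.zero n258) s928)

def n336 : Cl (O (nat_lit 5)) (R (nat_lit 14353))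
    (p (nat_lit 0xb000c) (nat_lit 0) (p (nat_lit 0x380c2) (nat_lit 0) (p (nat_lit 0x3c4aa) (nat_lit 9) (p (nat_lit 0x89) (nat_lit 1) (p (nat_lit 0x101) (nat_lit 1) (p (nat_lit 0xc1) (nat_lit 1) (p (nat_lit 0x119) (nat_lit 1) (p (nat_lit 0xd1) (nat_lit 0) (p (nat_lit 0x81) (nat_lit 0) (p (nat_lit 0x41) (nat_lit 1) (p (nat_lit 0x10a0b0a89089a) (nat_lit 0) (p (nat_lit 0x98a8a08881a) (nat_lit 0) (p (nat_lit 0x109088988079a) (nat_lit 0) (p (nat_lit 0x8880907871a) (nat_lit 0) (p (nat_lit 0x8000000000800080887068a) (nat_lit 0) (p (nat_lit 0x10888068602) (nat_lit 0) (p (nat_lit 0x807860582) (nat_lit 0) (p (nat_lit 0x10607058502) (nat_lit 0) (p (nat_lit 0x586850482) (nat_lit 0) (p (nat_lit 0x16000c) (nat_lit 0) (p (nat_lit 0x68612) (nat_lit 0) (p (nat_lit 0x50592) (nat_lit 0) (p (nat_lit 0x40512) (nat_lit 0) (p (nat_lit 0x50312) (nat_lit 0) (p (nat_lit 0x38292) (nat_lit 0) (p (nat_lit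 0x28212) (nat_lit 0) (p (nat_lit 0x38112) (nat_lit 0) (p (nat_lit 0x20092) (nat_lit 0) (p (nat_lit 0x10012) (nat_lit 0) pn))))))))))))))))))))))))))))) :=
  Cl.node (nat_lit 0x200014) (nat_lit 2) (by decide +kernel) (ClAll.succ (ClAll.succ ClAll.zero n259) s933)

def n337 : Cl (O (nat_lit 5)) (R (nat_lit 14353))
    (p (nat_lit 0xb000c) (nat_lit 0) (p (nat_lit 0x380c2) (nat_lit 1) (p (nat_lit 0x3c4aa) (nat_lit 10) (p (nat_lit 0x89) (nat_lit 1) (p (nat_lit 0x101) (nat_lit 1) (p (nat_lit 0xc1) (nat_lit 1) (p (nat_lit 0x119) (nat_lit 1) (p (nat_lit 0xd1) (nat_lit 0) (p (nat_lit 0x81) (nat_lit 0) (p (nat_lit 0x41) (nat_lit 1) (p (nat_lit 0x10a0b0a89089a) (nat_lit 0) (p (nat_lit 0x98a8a08881a) (nat_lit 0) (p (nat_lit 0x109088988079a) (nat_lit 0) (p (nat_lit 0x8880907871a) (nat_lit 0) (p (nat_lit 0x8000000000800080887068a) (nat_lit 0) (p (nat_lit 0x10888068602) (nat_lit 0) (p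 (nat_lit 0x807860582) (nat_lit 0) (p (nat_lit 0x10607058502) (nat_lit 0) (p (nat_lit 0x586850482) (nat_lit 0) (p (nat_lit 0x16000c) (nat_lit 0) (p (nat_lit 0x68612) (nat_lit 0) (p (nat_lit 0x50592) (nat_lit 0) (p (nat_lit 0x40512) (nat_lit 0) (p (nat_lit 0x50312) (nat_lit 0) (p (nat_lit 0x38292) (nat_lit 0) (p (nat_lit 0x28212) (nat_lit 0) (p (nat_lit 0x38112) (nat_lit 0) (p (nat_lit 0x20092) (nat_lit 0) (p (nat_lit 0x10012) (nat_lit 0) pn))))))))))))))))))))))))))))) :=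
  Cl.node (nat_lit 0x200004) (nat_lit 2) (by decide +kernel) (ClAll.succ (ClAll.succ ClAll.zero s936) s937)

def n338 : Cl (O (nat_lit 5)) (R (nat_lit 14353))
    (p (nat_lit 0xb000c) (nat_lit 1) (p (nat_lit 0x380c2) (nat_lit 1) (p (nat_lit 0x3c4aa) (nat_lit 10) (p (nat_lit 0x89) (nat_lit 1) (p (nat_lit 0x101) (nat_lit 1) (p (nat_lit 0xc1) (nat_lit 1) (p (nat_lit 0x119) (nat_lit 1) (p (nat_lit 0xd1) (nat_lit 0) (p (nat_lit 0x81) (nat_lit 0) (p (nat_lit 0x41) (nat_lit 1) (p (nat_lit 0x10a0b0a89089a) (nat_lit 0) (p (nat_lit 0x98a8a08881a) (nat_lit 0) (p (nat_lit 0x109088988079a) (nat_lit 0) (p (nat_lit 0x8880907871a) (nat_lit 0) (p (nat_lit 0x8000000000800080887068a) (nat_lit 0) (p (nat_lit 0x10888068602) (nat_lit 0) (p (nat_lit 0x807860582) (nat_lit 0) (p (nat_lit 0x10607058502) (nat_lit 0) (p (nat_lit 0x586850482) (nat_lit 0) (p (nat_lit 0x16000c) (nat_lit 0) (p (nat_lit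 0x68612) (nat_lit 0) (p (nat_lit 0x50592) (nat_lit 0) (p (nat_lit 0x40512) (nat_lit 0) (p (nat_lit 0x50312) (nat_lit 0) (p (nat_lit 0x38292) (nat_lit 0) (p (nat_lit 0x28212) (nat_lit 0) (p (nat_lit 0x38112) (nat_lit 0) (p (nat_lit 0x20092) (nat_lit 0) (p (nat_lit 0x10012) (nat_lit 0) pn))))))))))))))))))))))))))))) :=
  Cl.node (nat_lit 0x1fc004) (nat_lit 2) (by decide +kernel) (ClAll.succ (ClAll.succ ClAll.zero n260) s942)

def n339 : Cl (O (nat_lit 5)) (R (nat_lit 14353))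
    (p (nat_lit 0x4c42a) (nat_lit 2) (p (nat_lit 0x119) (nat_lit 0) (p (nat_lit 0xc9) (nat_lit 0) (p (nat_lit 0x89) (nat_lit 1) (p (nat_lit 0x109) (nat_lit 1) (p (nat_lit 0x101) (nat_lit 0) (p (nat_lit 0x111) (nat_lit 0) (p (nat_lit 0xd1) (nat_lit 1) (p (nat_lit 0x81) (nat_lit 0) (p (nat_lit 0x41) (nat_lit 1) (p (nat_lit 0x10a0b0a89089a) (nat_lit 0) (p (nat_lit 0x98a8a08881a) (nat_lit 0) (p (nat_lit 0x109088988079a) (nat_lit 0) (p (nat_lit 0x8880907871a) (nat_lit 0) (p (nat_lit 0x8000000000800080887068a) (nat_lit 0) (p (nat_lit 0x10888068602) (nat_lit 0) (p (nat_lit 0x807860582) (nat_lit 0) (p (nat_lit 0x10607058502) (nat_lit 0) (p (nat_lit 0x586850482) (nat_lit 0) (p (nat_lit 0x16000c) (nat_lit 0) (p (nat_lit 0x68612) (nat_lit 0) (p (nat_lit 0x50592) (nat_lit 0) (p (nat_lit 0x40512) (nat_lit 0) (p (nat_lit 0x50312) (nat_lit 0) (p (nat_lit 0x38292) (nat_lit 0) (p (nat_lit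 0x28212) (nat_lit 0) (p (nat_lit 0x38112) (nat_lit 0) (p (nat_lit 0x20092) (nat_lit 0) (p (nat_lit 0x10012) (nat_lit 0) pn))))))))))))))))))))))))))))) :=
  Cl.node (nat_lit 0x380c2) (nat_lit 1) (by decide +kernel) (ClAll.succ ClAll.zero n261)

def n340 : Cl (O (nat_lit 5)) (R (nat_lit 14353))
    (p (nat_lit 0x4c42a) (nat_lit 2) (p (nat_lit 0x119) (nat_lit 1) (p (nat_lit 0xc9) (nat_lit 0) (p (nat_lit 0x89) (nat_lit 1) (p (nat_lit 0x109) (nat_lit 1) (p (nat_lit 0x101) (nat_lit 0) (p (nat_lit 0x111) (nat_lit 0) (p (nat_lit 0xd1) (nat_lit 1) (p (nat_lit 0x81) (nat_lit 0) (p (nat_lit 0x41) (nat_lit 1) (p (nat_lit 0x10a0b0a89089a) (nat_lit 0) (p (nat_lit 0x98a8a08881a) (nat_lit 0) (p (nat_lit 0x109088988079a) (nat_lit 0) (p (nat_lit 0x8880907871a) (nat_lit 0) (p (nat_lit 0x8000000000800080887068a) (nat_lit 0) (p (nat_lit 0x10888068602) (nat_lit 0) (p (nat_lit 0x807860582) (nat_lit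 0) (p (nat_lit 0x10607058502) (nat_lit 0) (p (nat_lit 0x586850482) (nat_lit 0) (p (nat_lit 0x16000c) (nat_lit 0) (p (nat_lit 0x68612) (nat_lit 0) (p (nat_lit 0x50592) (nat_lit 0) (p (nat_lit 0x40512) (nat_lit 0) (p (nat_lit 0x50312) (nat_lit 0) (p (nat_lit 0x38292) (nat_lit 0) (p (nat_lit 0x28212) (nat_lit 0) (p (nat_lit 0x38112) (nat_lit 0) (p (nat_lit 0x20092) (nat_lit 0) (p (nat_lit 0x10012) (nat_lit 0) pn))))))))))))))))))))))))))))) :=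
  Cl.node (nat_lit 0x380c2) (nat_lit 1) (by decide +kernel) (ClAll.succ ClAll.zero n262)

def n341 : Cl (O (nat_lit 5)) (R (nat_lit 14353))
    (p (nat_lit 0x89) (nat_lit 1) (p (nat_lit 0xc9) (nat_lit 1) (p (nat_lit 0x380c2) (nat_lit 0) (p (nat_lit 0x3cc2a) (nat_lit 0) (p (nat_lit 0x89) (nat_lit 0) (p (nat_lit 0x101) (nat_lit 1) (p (nat_lit 0x111) (nat_lit 0) (p (nat_lit 0xd1) (nat_lit 1) (p (nat_lit 0x81) (nat_lit 0) (p (nat_lit 0x41) (nat_lit 1) (p (nat_lit 0x10a0b0a89089a) (nat_lit 0) (p (nat_lit 0x98a8a08881a) (nat_lit 0) (p (nat_lit 0x109088988079a) (nat_lit 0) (p (nat_lit 0x8880907871a) (nat_lit 0) (p (nat_lit 0x8000000000800080887068a) (nat_lit 0) (p (nat_lit 0x10888068602) (nat_lit 0) (p (nat_lit 0x807860582) (nat_lit 0) (p (nat_lit 0x10607058502) (nat_lit 0) (p (nat_lit 0x586850482) (nat_lit 0) (p (nat_lit 0x16000c) (nat_lit 0) (p (nat_lit 0x68612) (nat_lit 0) (p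 (nat_lit 0x50592) (nat_lit 0) (p (nat_lit 0x40512) (nat_lit 0) (p (nat_lit 0x50312) (nat_lit 0) (p (nat_lit 0x38292) (nat_lit 0) (p (nat_lit 0x28212) (nat_lit 0) (p (nat_lit 0x38112) (nat_lit 0) (p (nat_lit 0x20092) (nat_lit 0) (p (nat_lit 0x10012) (nat_lit 0) pn))))))))))))))))))))))))))))) :=
  Cl.node (nat_lit 0x3c4aa) (nat_lit 12) (by decide +kernel) (ClAll.succ (ClAll.succ (ClAll.succ (ClAll.succ (ClAll.succ (ClAll.succ (ClAll.succ (ClAll.succ (ClAll.succ (ClAll.succ (ClAll.succ (ClAll.succ ClAll.zero s1018) s1019) s1020) s1021) s1022) s1023) s1024) n263) s1027) s1028) s1029) s1030)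

def n342 : Cl (O (nat_lit 5)) (R (nat_lit 14353))
    (p (nat_lit 0x89) (nat_lit 1) (p (nat_lit 0xc9) (nat_lit 1) (p (nat_lit 0x380c2) (nat_lit 0) (p (nat_lit 0x3cc2a) (nat_lit 1) (p (nat_lit 0x89) (nat_lit 0) (p (nat_lit 0x101) (nat_lit 1) (p (nat_lit 0x111) (nat_lit 0) (p (nat_lit 0xd1) (nat_lit 1) (p (nat_lit 0x81) (nat_lit 0) (p (nat_lit 0x41) (nat_lit 1) (p (nat_lit 0x10a0b0a89089a) (nat_lit 0) (p (nat_lit 0x98a8a08881a) (nat_lit 0) (p (nat_lit 0x109088988079a) (nat_lit 0) (p (nat_lit 0x8880907871a) (nat_lit 0) (p (nat_lit 0x8000000000800080887068a) (nat_lit 0) (p (nat_lit 0x10888068602) (nat_lit 0) (p (nat_lit 0x807860582) (nat_lit 0) (p (nat_lit 0x10607058502) (nat_lit 0) (p (nat_lit 0x586850482) (nat_lit 0) (p (nat_lit 0x16000c) (nat_lit 0) (p (nat_lit 0x68612) (nat_lit 0) (p (nat_lit 0x50592) (nat_lit 0) (p (nat_lit 0x40512) (nat_lit 0) (p (nat_lit 0x50312) (nat_lit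 0) (p (nat_lit 0x38292) (nat_lit 0) (p (nat_lit 0x28212) (nat_lit 0) (p (nat_lit 0x38112) (nat_lit 0) (p (nat_lit 0x20092) (nat_lit 0) (p (nat_lit 0x10012) (nat_lit 0) pn))))))))))))))))))))))))))))) :=
  Cl.node (nat_lit 0xc9) (nat_lit 2) (by decide +kernel) (ClAll.succ (ClAll.succ ClAll.zero s1033) n264)

def n343 : Cl (O (nat_lit 5)) (R (nat_lit 14353))
    (p (nat_lit 0xb000c) (nat_lit 0) (p (nat_lit 0x380c2) (nat_lit 0) (p (nat_lit 0x3cc2a) (nat_lit 0) (p (nat_lit 0xc9) (nat_lit 0) (p (nat_lit 0x89) (nat_lit 1) (p (nat_lit 0x101) (nat_lit 1) (p (nat_lit 0x111) (nat_lit 0) (p (nat_lit 0xd1) (nat_lit 1) (p (nat_lit 0x81) (nat_lit 0) (p (nat_lit 0x41) (nat_lit 1) (p (nat_lit 0x10a0b0a89089a) (nat_lit 0) (p (nat_lit 0x98a8a08881a) (nat_lit 0) (p (nat_lit 0x109088988079a) (nat_lit 0) (p (nat_lit 0x8880907871a) (nat_lit 0) (p (nat_lit 0x8000000000800080887068a) (nat_lit 0)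 (p (nat_lit 0x10888068602) (nat_lit 0) (p (nat_lit 0x807860582) (nat_lit 0) (p (nat_lit 0x10607058502) (nat_lit 0) (p (nat_lit 0x586850482) (nat_lit 0) (p (nat_lit 0x16000c) (nat_lit 0) (p (nat_lit 0x68612) (nat_lit 0) (p (nat_lit 0x50592) (nat_lit 0) (p (nat_lit 0x40512) (nat_lit 0) (p (nat_lit 0x50312) (nat_lit 0) (p (nat_lit 0x38292) (nat_lit 0) (p (nat_lit 0x28212) (nat_lit 0) (p (nat_lit 0x38112) (nat_lit 0) (p (nat_lit 0x20092) (nat_lit 0) (p (nat_lit 0x10012) (nat_lit 0) pn))))))))))))))))))))))))))))) :=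
  Cl.node (nat_lit 0xd1) (nat_lit 2) (by decide +kernel) (ClAll.succ (ClAll.succ ClAll.zero s1047) n265)

def n344 : Cl (O (nat_lit 5)) (R (nat_lit 14353))
    (p (nat_lit 0xb000c) (nat_lit 0) (p (nat_lit 0x380c2) (nat_lit 0) (p (nat_lit 0x3cc2a) (nat_lit 10) (p (nat_lit 0xc9) (nat_lit 0) (p (nat_lit 0x89) (nat_lit 1) (p (nat_lit 0x101) (nat_lit 1) (p (nat_lit 0x111) (nat_lit 0) (p (nat_lit 0xd1) (nat_lit 1) (p (nat_lit 0x81) (nat_lit 0) (p (nat_lit 0x41) (nat_lit 1) (p (nat_lit 0x10a0b0a89089a) (nat_lit 0) (p (nat_lit 0x98a8a08881a) (nat_lit 0) (p (nat_lit 0x109088988079a) (nat_lit 0) (p (nat_lit 0x8880907871a) (nat_lit 0) (p (nat_lit 0x8000000000800080887068a) (nat_lit 0) (p (nat_lit 0x10888068602) (nat_lit 0) (p (nat_lit 0x807860582) (nat_lit 0) (p (nat_lit 0x10607058502) (nat_lit 0) (p (nat_lit 0x586850482) (nat_lit 0) (p (nat_lit 0x16000c) (nat_lit 0) (p (nat_lit 0x68612)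 (nat_lit 0) (p (nat_lit 0x50592) (nat_lit 0) (p (nat_lit 0x40512) (nat_lit 0) (p (nat_lit 0x50312) (nat_lit 0) (p (nat_lit 0x38292) (nat_lit 0) (p (nat_lit 0x28212) (nat_lit 0) (p (nat_lit 0x38112) (nat_lit 0) (p (nat_lit 0x20092) (nat_lit 0) (p (nat_lit 0x10012) (nat_lit 0) pn))))))))))))))))))))))))))))) :=
  Cl.node (nat_lit 0x200004) (nat_lit 2) (by decide +kernel) (ClAll.succ (ClAll.succ ClAll.zero s1072) s1073)

def n345 : Cl (O (nat_lit 5)) (R (nat_lit 14353))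
    (p (nat_lit 0xb000c) (nat_lit 0) (p (nat_lit 0x380c2) (nat_lit 0) (p (nat_lit 0x3cc2a) (nat_lit 0) (p (nat_lit 0x109) (nat_lit 0) (p (nat_lit 0xc9) (nat_lit 1) (p (nat_lit 0x89) (nat_lit 1) (p (nat_lit 0x111) (nat_lit 1) (p (nat_lit 0xd1) (nat_lit 1) (p (nat_lit 0x81) (nat_lit 0) (p (nat_lit 0x41) (nat_lit 1) (p (nat_lit 0x10a0b0a89089a) (nat_lit 0) (p (nat_lit 0x98a8a08881a) (nat_lit 0) (p (nat_lit 0x109088988079a) (nat_lit 0) (p (nat_lit 0x8880907871a) (nat_lit 0) (p (nat_lit 0x8000000000800080887068a) (nat_lit 0) (p (nat_lit 0x10888068602) (nat_lit 0) (p (nat_lit 0x807860582) (nat_lit 0) (p (nat_lit 0x10607058502) (nat_lit 0) (p (nat_lit 0x586850482) (nat_lit 0) (p (nat_lit 0x16000c) (nat_lit 0) (p (nat_lit 0x68612) (nat_lit 0) (p (nat_lit 0x50592) (nat_lit 0) (p (nat_lit 0x40512) (nat_lit 0) (p (nat_lit 0x50312) (nat_lit 0) (p (nat_lit 0x38292) (nat_lit 0) (p (nat_lit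 0x28212) (nat_lit 0) (p (nat_lit 0x38112) (nat_lit 0) (p (nat_lit 0x20092) (nat_lit 0) (p (nat_lit 0x10012) (nat_lit 0) pn))))))))))))))))))))))))))))) :=
  Cl.node (nat_lit 0x41) (nat_lit 2) (by decide +kernel) (ClAll.succ (ClAll.succ ClAll.zero n266) s1096)

def n346 : Cl (O (nat_lit 5)) (R (nat_lit 14353))
    (p (nat_lit 0x380c2) (nat_lit 0) (p (nat_lit 0x3c4aa) (nat_lit 7) (p (nat_lit 0xd1) (nat_lit 1) (p (nat_lit 0x111) (nat_lit 1) (p (nat_lit 0x109) (nat_lit 0) (p (nat_lit 0x101) (nat_lit 0) (p (nat_lit 0x119) (nat_lit 0) (p (nat_lit 0xc1) (nat_lit 0) (p (nat_lit 0x81) (nat_lit 1) (p (nat_lit 0x41) (nat_lit 1) (p (nat_lit 0x10a0b0a89089a) (nat_lit 0) (p (nat_lit 0x98a8a08881a) (nat_lit 0) (p (nat_lit 0x109088988079a) (nat_lit 0) (p (nat_lit 0x8880907871a) (nat_lit 0) (p (nat_lit 0x8000000000800080887068a) (nat_lit 0) (p (nat_lit 0x10888068602) (nat_lit 0) (p (nat_lit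 0x807860582) (nat_lit 0) (p (nat_lit 0x10607058502) (nat_lit 0) (p (nat_lit 0x586850482) (nat_lit 0) (p (nat_lit 0x16000c) (nat_lit 0) (p (nat_lit 0x68612) (nat_lit 0) (p (nat_lit 0x50592) (nat_lit 0) (p (nat_lit 0x40512) (nat_lit 0) (p (nat_lit 0x50312) (nat_lit 0) (p (nat_lit 0x38292) (nat_lit 0) (p (nat_lit 0x28212) (nat_lit 0) (p (nat_lit 0x38112) (nat_lit 0) (p (nat_lit 0x20092) (nat_lit 0) (p (nat_lit 0x10012) (nat_lit 0) pn))))))))))))))))))))))))))))) :=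
  Cl.node (nat_lit 0xb000c) (nat_lit 2) (by decide +kernel) (ClAll.succ (ClAll.succ ClAll.zero n267) s1140)

def n347 : Cl (O (nat_lit 5)) (R (nat_lit 14353))
    (p (nat_lit 0x380c2) (nat_lit 1) (p (nat_lit 0x3c4aa) (nat_lit 7) (p (nat_lit 0xd1) (nat_lit 1) (p (nat_lit 0x111) (nat_lit 1) (p (nat_lit 0x109) (nat_lit 0) (p (nat_lit 0x101) (nat_lit 0) (p (nat_lit 0x119) (nat_lit 0) (p (nat_lit 0xc1) (nat_lit 0) (p (nat_lit 0x81) (nat_lit 1) (p (nat_lit 0x41) (nat_lit 1) (p (nat_lit 0x10a0b0a89089a) (nat_lit 0) (p (nat_lit 0x98a8a08881a) (nat_lit 0) (p (nat_lit 0x109088988079a) (nat_lit 0) (p (nat_lit 0x8880907871a) (nat_lit 0) (p (nat_lit 0x8000000000800080887068a) (nat_lit 0) (p (nat_lit 0x10888068602) (nat_lit 0) (p (nat_lit 0x807860582) (nat_lit 0) (p (nat_lit 0x10607058502) (nat_lit 0) (p (nat_lit 0x586850482) (nat_lit 0) (p (nat_lit 0x16000c) (nat_lit 0) (p (nat_lit 0x68612)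 (nat_lit 0) (p (nat_lit 0x50592) (nat_lit 0) (p (nat_lit 0x40512) (nat_lit 0) (p (nat_lit 0x50312) (nat_lit 0) (p (nat_lit 0x38292) (nat_lit 0) (p (nat_lit 0x28212) (nat_lit 0) (p (nat_lit 0x38112) (nat_lit 0) (p (nat_lit 0x20092) (nat_lit 0) (p (nat_lit 0x10012) (nat_lit 0) pn))))))))))))))))))))))))))))) :=
  Cl.node (nat_lit 0xb000c) (nat_lit 2) (by decide +kernel) (ClAll.succ (ClAll.succ ClAll.zero n268) n269)

def n348 : Cl (O (nat_lit 5)) (R (nat_lit 14353))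
    (p (nat_lit 0x380c2) (nat_lit 1) (p (nat_lit 0x3c4aa) (nat_lit 10) (p (nat_lit 0xd1) (nat_lit 1) (p (nat_lit 0x111) (nat_lit 1) (p (nat_lit 0x109) (nat_lit 0) (p (nat_lit 0x101) (nat_lit 0) (p (nat_lit 0x119) (nat_lit 0) (p (nat_lit 0xc1) (nat_lit 0) (p (nat_lit 0x81) (nat_lit 1) (p (nat_lit 0x41) (nat_lit 1) (p (nat_lit 0x10a0b0a89089a) (nat_lit 0) (p (nat_lit 0x98a8a08881a) (nat_lit 0) (p (nat_lit 0x109088988079a) (nat_lit 0) (p (nat_lit 0x8880907871a) (nat_lit 0) (p (nat_lit 0x8000000000800080887068a) (nat_lit 0) (p (nat_lit 0x10888068602) (nat_lit 0) (p (nat_lit 0x807860582) (nat_lit 0) (p (nat_lit 0x10607058502) (nat_lit 0) (p (nat_lit 0x586850482) (nat_lit 0) (p (nat_lit 0x16000c) (nat_lit 0) (p (nat_lit 0x68612) (nat_lit 0) (p (nat_lit 0x50592) (nat_lit 0) (p (nat_lit 0x40512) (nat_lit 0) (p (nat_lit 0x50312) (nat_lit 0) (p (nat_lit 0x38292) (nat_lit 0) (p (nat_lit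 0x28212) (nat_lit 0) (p (nat_lit 0x38112) (nat_lit 0) (p (nat_lit 0x20092) (nat_lit 0) (p (nat_lit 0x10012) (nat_lit 0) pn))))))))))))))))))))))))))))) :=
  Cl.node (nat_lit 0xb000c) (nat_lit 2) (by decide +kernel) (ClAll.succ (ClAll.succ ClAll.zero n270) s1179)

def n349 : Cl (O (nat_lit 5)) (R (nat_lit 14353))
    (p (nat_lit 0x380c2) (nat_lit 0) (p (nat_lit 0x3c4aa) (nat_lit 7) (p (nat_lit 0xd1) (nat_lit 1) (p (nat_lit 0xc9) (nat_lit 0) (p (nat_lit 0x109) (nat_lit 1) (p (nat_lit 0x101) (nat_lit 0) (p (nat_lit 0x119) (nat_lit 0) (p (nat_lit 0xc1) (nat_lit 0) (p (nat_lit 0x81) (nat_lit 1) (p (nat_lit 0x41) (nat_lit 1) (p (nat_lit 0x10a0b0a89089a) (nat_lit 0) (p (nat_lit 0x98a8a08881a) (nat_lit 0) (p (nat_lit 0x109088988079a) (nat_lit 0) (p (nat_lit 0x8880907871a) (nat_lit 0) (p (nat_lit 0x8000000000800080887068a) (nat_lit 0) (p (nat_lit 0x10888068602) (nat_lit 0) (p (nat_lit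 0x807860582) (nat_lit 0) (p (nat_lit 0x10607058502) (nat_lit 0) (p (nat_lit 0x586850482) (nat_lit 0) (p (nat_lit 0x16000c) (nat_lit 0) (p (nat_lit 0x68612) (nat_lit 0) (p (nat_lit 0x50592) (nat_lit 0) (p (nat_lit 0x40512) (nat_lit 0) (p (nat_lit 0x50312) (nat_lit 0) (p (nat_lit 0x38292) (nat_lit 0) (p (nat_lit 0x28212) (nat_lit 0) (p (nat_lit 0x38112) (nat_lit 0) (p (nat_lit 0x20092) (nat_lit 0) (p (nat_lit 0x10012) (nat_lit 0) pn))))))))))))))))))))))))))))) :=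
  Cl.node (nat_lit 0xb000c) (nat_lit 2) (by decide +kernel) (ClAll.succ (ClAll.succ ClAll.zero n271) s1194)

def n350 : Cl (O (nat_lit 5)) (R (nat_lit 14353))
    (p (nat_lit 0x380c2) (nat_lit 1) (p (nat_lit 0x3c4aa) (nat_lit 7) (p (nat_lit 0xd1) (nat_lit 1) (p (nat_lit 0xc9) (nat_lit 0) (p (nat_lit 0x109) (nat_lit 1) (p (nat_lit 0x101) (nat_lit 0) (p (nat_lit 0x119) (nat_lit 0) (p (nat_lit 0xc1) (nat_lit 0) (p (nat_lit 0x81) (nat_lit 1) (p (nat_lit 0x41) (nat_lit 1) (p (nat_lit 0x10a0b0a89089a) (nat_lit 0) (p (nat_lit 0x98a8a08881a) (nat_lit 0) (p (nat_lit 0x109088988079a) (nat_lit 0) (p (nat_lit 0x8880907871a) (nat_lit 0) (p (nat_lit 0x8000000000800080887068a) (nat_lit 0) (p (nat_lit 0x10888068602) (nat_lit 0) (p (nat_lit 0x807860582) (nat_lit 0) (p (nat_lit 0x10607058502) (nat_lit 0) (p (nat_lit 0x586850482) (nat_lit 0) (p (nat_lit 0x16000c) (nat_lit 0) (p (nat_lit 0x68612)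 (nat_lit 0) (p (nat_lit 0x50592) (nat_lit 0) (p (nat_lit 0x40512) (nat_lit 0) (p (nat_lit 0x50312) (nat_lit 0) (p (nat_lit 0x38292) (nat_lit 0) (p (nat_lit 0x28212) (nat_lit 0) (p (nat_lit 0x38112) (nat_lit 0) (p (nat_lit 0x20092) (nat_lit 0) (p (nat_lit 0x10012) (nat_lit 0) pn))))))))))))))))))))))))))))) :=
  Cl.node (nat_lit 0xb000c) (nat_lit 2) (by decide +kernel) (ClAll.succ (ClAll.succ ClAll.zero n272) n273)

def n351 : Cl (O (nat_lit 5)) (R (nat_lit 14353))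
    (p (nat_lit 0xc9) (nat_lit 1) (p (nat_lit 0x380c2) (nat_lit 0) (p (nat_lit 0x44c2a) (nat_lit 0) (p (nat_lit 0xd1) (nat_lit 0) (p (nat_lit 0xc9) (nat_lit 0) (p (nat_lit 0x101) (nat_lit 1) (p (nat_lit 0x119) (nat_lit 0) (p (nat_lit 0xc1) (nat_lit 0) (p (nat_lit 0x81) (nat_lit 1) (p (nat_lit 0x41) (nat_lit 1) (p (nat_lit 0x10a0b0a89089a) (nat_lit 0) (p (nat_lit 0x98a8a08881a) (nat_lit 0) (p (nat_lit 0x109088988079a) (nat_lit 0) (p (nat_lit 0x8880907871a) (nat_lit 0) (p (nat_lit 0x8000000000800080887068a) (nat_lit 0) (p (nat_lit 0x10888068602) (nat_lit 0) (p (nat_lit 0x807860582) (nat_lit 0) (p (nat_lit 0x10607058502) (nat_lit 0) (p (nat_lit 0x586850482) (nat_lit 0) (p (nat_lit 0x16000c) (nat_lit 0) (p (nat_lit 0x68612) (nat_lit 0) (p (nat_lit 0x50592) (nat_lit 0) (p (nat_lit 0x40512) (nat_lit 0) (p (nat_lit 0x50312) (nat_lit 0) (p (nat_lit 0x38292) (nat_lit 0) (p (nat_lit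 0x28212) (nat_lit 0) (p (nat_lit 0x38112) (nat_lit 0) (p (nat_lit 0x20092) (nat_lit 0) (p (nat_lit 0x10012) (nat_lit 0) pn))))))))))))))))))))))))))))) :=
  Cl.node (nat_lit 0x3c4aa) (nat_lit 12) (by decide +kernel) (ClAll.succ (ClAll.succ (ClAll.succ (ClAll.succ (ClAll.succ (ClAll.succ (ClAll.succ (ClAll.succ (ClAll.succ (ClAll.succ (ClAll.succ (ClAll.succ ClAll.zero s1210) s1211) s1212) s1213) s1214) s1215) s1216) n274) s1222) s1223) s1224) s1225)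

def n352 : Cl (O (nat_lit 5)) (R (nat_lit 14353))
    (p (nat_lit 0xc9) (nat_lit 1) (p (nat_lit 0x380c2) (nat_lit 0) (p (nat_lit 0x44c2a) (nat_lit 1) (p (nat_lit 0xd1) (nat_lit 0) (p (nat_lit 0xc9) (nat_lit 0) (p (nat_lit 0x101) (nat_lit 1) (p (nat_lit 0x119) (nat_lit 0) (p (nat_lit 0xc1) (nat_lit 0) (p (nat_lit 0x81) (nat_lit 1) (p (nat_lit 0x41) (nat_lit 1) (p (nat_lit 0x10a0b0a89089a) (nat_lit 0) (p (nat_lit 0x98a8a08881a) (nat_lit 0) (p (nat_lit 0x109088988079a) (nat_lit 0) (p (nat_lit 0x8880907871a) (nat_lit 0) (p (nat_lit 0x8000000000800080887068a) (nat_lit 0) (p (nat_lit 0x10888068602) (nat_lit 0) (p (nat_lit 0x807860582) (nat_lit 0) (p (nat_lit 0x10607058502) (nat_lit 0) (p (nat_lit 0x586850482) (nat_lit 0) (p (nat_lit 0x16000c) (nat_lit 0) (p (nat_lit 0x68612) (nat_lit 0) (p (nat_lit 0x50592) (nat_lit 0) (p (nat_lit 0x40512) (nat_lit 0) (p (nat_lit 0x50312) (nat_lit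 0) (p (nat_lit 0x38292) (nat_lit 0) (p (nat_lit 0x28212) (nat_lit 0) (p (nat_lit 0x38112) (nat_lit 0) (p (nat_lit 0x20092) (nat_lit 0) (p (nat_lit 0x10012) (nat_lit 0) pn))))))))))))))))))))))))))))) :=
  Cl.node (nat_lit 0x89) (nat_lit 2) (by decide +kernel) (ClAll.succ (ClAll.succ ClAll.zero s1227) n275)

def n353 : Cl (O (nat_lit 5)) (R (nat_lit 14353))
    (p (nat_lit 0xb000c) (nat_lit 0) (p (nat_lit 0x380c2) (nat_lit 0) (p (nat_lit 0x3c4aa) (nat_lit 7) (p (nat_lit 0xd1) (nat_lit 1) (p (nat_lit 0xc9) (nat_lit 0) (p (nat_lit 0x101) (nat_lit 1) (p (nat_lit 0x119) (nat_lit 0) (p (nat_lit 0xc1) (nat_lit 0) (p (nat_lit 0x81) (nat_lit 1) (p (nat_lit 0x41) (nat_lit 1) (p (nat_lit 0x10a0b0a89089a) (nat_lit 0) (p (nat_lit 0x98a8a08881a) (nat_lit 0) (p (nat_lit 0x109088988079a) (nat_lit 0) (p (nat_lit 0x8880907871a) (nat_lit 0) (p (nat_lit 0x8000000000800080887068a) (nat_lit 0)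 (p (nat_lit 0x10888068602) (nat_lit 0) (p (nat_lit 0x807860582) (nat_lit 0) (p (nat_lit 0x10607058502) (nat_lit 0) (p (nat_lit 0x586850482) (nat_lit 0) (p (nat_lit 0x16000c) (nat_lit 0) (p (nat_lit 0x68612) (nat_lit 0) (p (nat_lit 0x50592) (nat_lit 0) (p (nat_lit 0x40512) (nat_lit 0) (p (nat_lit 0x50312) (nat_lit 0) (p (nat_lit 0x38292) (nat_lit 0) (p (nat_lit 0x28212) (nat_lit 0) (p (nat_lit 0x38112) (nat_lit 0) (p (nat_lit 0x20092) (nat_lit 0) (p (nat_lit 0x10012) (nat_lit 0) pn))))))))))))))))))))))))))))) :=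
  Cl.node (nat_lit 0xc1) (nat_lit 2) (by decide +kernel) (ClAll.succ (ClAll.succ ClAll.zero n276) s1252)

def n354 : Cl (O (nat_lit 5)) (R (nat_lit 14353))
    (p (nat_lit 0xb000c) (nat_lit 0) (p (nat_lit 0x380c2) (nat_lit 1) (p (nat_lit 0x3c4aa) (nat_lit 7) (p (nat_lit 0xd1) (nat_lit 1) (p (nat_lit 0xc9) (nat_lit 0) (p (nat_lit 0x101) (nat_lit 1) (p (nat_lit 0x119) (nat_lit 0) (p (nat_lit 0xc1) (nat_lit 0) (p (nat_lit 0x81) (nat_lit 1) (p (nat_lit 0x41) (nat_lit 1) (p (nat_lit 0x10a0b0a89089a) (nat_lit 0) (p (nat_lit 0x98a8a08881a) (nat_lit 0) (p (nat_lit 0x109088988079a) (nat_lit 0) (p (nat_lit 0x8880907871a) (nat_lit 0) (p (nat_lit 0x8000000000800080887068a) (nat_lit 0) (p (nat_lit 0x10888068602) (nat_lit 0) (p (nat_lit 0x807860582) (nat_lit 0) (p (nat_lit 0x10607058502) (nat_lit 0) (p (nat_lit 0x586850482) (nat_lit 0) (p (nat_lit 0x16000c) (nat_lit 0) (p (nat_lit 0x68612)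 (nat_lit 0) (p (nat_lit 0x50592) (nat_lit 0) (p (nat_lit 0x40512) (nat_lit 0) (p (nat_lit 0x50312) (nat_lit 0) (p (nat_lit 0x38292) (nat_lit 0) (p (nat_lit 0x28212) (nat_lit 0) (p (nat_lit 0x38112) (nat_lit 0) (p (nat_lit 0x20092) (nat_lit 0) (p (nat_lit 0x10012) (nat_lit 0) pn))))))))))))))))))))))))))))) :=
  Cl.node (nat_lit 0xc1) (nat_lit 2) (by decide +kernel) (ClAll.succ (ClAll.succ ClAll.zero n277) s1271)

def n355 : Cl (O (nat_lit 5)) (R (nat_lit 14353))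
    (p (nat_lit 0xb000c) (nat_lit 1) (p (nat_lit 0x380c2) (nat_lit 1) (p (nat_lit 0x3c4aa) (nat_lit 7) (p (nat_lit 0xd1) (nat_lit 1) (p (nat_lit 0xc9) (nat_lit 0) (p (nat_lit 0x101) (nat_lit 1) (p (nat_lit 0x119) (nat_lit 0) (p (nat_lit 0xc1) (nat_lit 0) (p (nat_lit 0x81) (nat_lit 1) (p (nat_lit 0x41) (nat_lit 1) (p (nat_lit 0x10a0b0a89089a) (nat_lit 0) (p (nat_lit 0x98a8a08881a) (nat_lit 0) (p (nat_lit 0x109088988079a) (nat_lit 0) (p (nat_lit 0x8880907871a) (nat_lit 0) (p (nat_lit 0x8000000000800080887068a) (nat_lit 0) (p (nat_lit 0x10888068602) (nat_lit 0) (p (nat_lit 0x807860582) (nat_lit 0) (p (nat_lit 0x10607058502) (nat_lit 0) (p (nat_lit 0x586850482) (nat_lit 0) (p (nat_lit 0x16000c) (nat_lit 0) (p (nat_lit 0x68612) (nat_lit 0) (p (nat_lit 0x50592) (nat_lit 0) (p (nat_lit 0x40512) (nat_lit 0) (p (nat_lit 0x50312) (nat_lit 0) (p (nat_lit 0x38292) (nat_lit 0) (p (nat_lit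 0x28212) (nat_lit 0) (p (nat_lit 0x38112) (nat_lit 0) (p (nat_lit 0x20092) (nat_lit 0) (p (nat_lit 0x10012) (nat_lit 0) pn))))))))))))))))))))))))))))) :=
  Cl.node (nat_lit 0x1fc004) (nat_lit 2) (by decide +kernel) (ClAll.succ (ClAll.succ ClAll.zero n278) s1278)

def n356 : Cl (O (nat_lit 5)) (R (nat_lit 14353))
    (p (nat_lit 0xb000c) (nat_lit 0) (p (nat_lit 0x380c2) (nat_lit 0) (p (nat_lit 0x3c4aa) (nat_lit 7) (p (nat_lit 0x111) (nat_lit 1) (p (nat_lit 0xd1) (nat_lit 1) (p (nat_lit 0xc9) (nat_lit 0) (p (nat_lit 0x119) (nat_lit 1) (p (nat_lit 0xc1) (nat_lit 0) (p (nat_lit 0x81) (nat_lit 1) (p (nat_lit 0x41) (nat_lit 1) (p (nat_lit 0x10a0b0a89089a) (nat_lit 0) (p (nat_lit 0x98a8a08881a) (nat_lit 0) (p (nat_lit 0x109088988079a) (nat_lit 0) (p (nat_lit 0x8880907871a) (nat_lit 0) (p (nat_lit 0x8000000000800080887068a) (nat_lit 0) (p (nat_lit 0x10888068602) (nat_lit 0) (p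 (nat_lit 0x807860582) (nat_lit 0) (p (nat_lit 0x10607058502) (nat_lit 0) (p (nat_lit 0x586850482) (nat_lit 0) (p (nat_lit 0x16000c) (nat_lit 0) (p (nat_lit 0x68612) (nat_lit 0) (p (nat_lit 0x50592) (nat_lit 0) (p (nat_lit 0x40512) (nat_lit 0) (p (nat_lit 0x50312) (nat_lit 0) (p (nat_lit 0x38292) (nat_lit 0) (p (nat_lit 0x28212) (nat_lit 0) (p (nat_lit 0x38112) (nat_lit 0) (p (nat_lit 0x20092) (nat_lit 0) (p (nat_lit 0x10012) (nat_lit 0) pn))))))))))))))))))))))))))))) :=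
  Cl.node (nat_lit 0x101) (nat_lit 2) (by decide +kernel) (ClAll.succ (ClAll.succ ClAll.zero n279) s1297)

def n357 : Cl (O (nat_lit 5)) (R (nat_lit 14353))
    (p (nat_lit 0xb000c) (nat_lit 0) (p (nat_lit 0x380c2) (nat_lit 1) (p (nat_lit 0x3c4aa) (nat_lit 7) (p (nat_lit 0x111) (nat_lit 1) (p (nat_lit 0xd1) (nat_lit 1) (p (nat_lit 0xc9) (nat_lit 0) (p (nat_lit 0x119) (nat_lit 1) (p (nat_lit 0xc1) (nat_lit 0) (p (nat_lit 0x81) (nat_lit 1) (p (nat_lit 0x41) (nat_lit 1) (p (nat_lit 0x10a0b0a89089a) (nat_lit 0) (p (nat_lit 0x98a8a08881a) (nat_lit 0) (p (nat_lit 0x109088988079a) (nat_lit 0) (p (nat_lit 0x8880907871a) (nat_lit 0) (p (nat_lit 0x8000000000800080887068a) (nat_lit 0) (p (nat_lit 0x10888068602) (nat_lit 0) (p (nat_lit 0x807860582) (nat_lit 0) (p (nat_lit 0x10607058502) (nat_lit 0) (p (nat_lit 0x586850482) (nat_lit 0) (p (nat_lit 0x16000c) (nat_lit 0) (p (nat_lit 0x68612)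 (nat_lit 0) (p (nat_lit 0x50592) (nat_lit 0) (p (nat_lit 0x40512) (nat_lit 0) (p (nat_lit 0x50312) (nat_lit 0) (p (nat_lit 0x38292) (nat_lit 0) (p (nat_lit 0x28212) (nat_lit 0) (p (nat_lit 0x38112) (nat_lit 0) (p (nat_lit 0x20092) (nat_lit 0) (p (nat_lit 0x10012) (nat_lit 0) pn))))))))))))))))))))))))))))) :=
  Cl.node (nat_lit 0x101) (nat_lit 2) (by decide +kernel) (ClAll.succ (ClAll.succ ClAll.zero n280) s1304)

def n358 : Cl (O (nat_lit 5)) (R (nat_lit 14353))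
    (p (nat_lit 0xb000c) (nat_lit 1) (p (nat_lit 0x380c2) (nat_lit 1) (p (nat_lit 0x3c4aa) (nat_lit 7) (p (nat_lit 0x111) (nat_lit 1) (p (nat_lit 0xd1) (nat_lit 1) (p (nat_lit 0xc9) (nat_lit 0) (p (nat_lit 0x119) (nat_lit 1) (p (nat_lit 0xc1) (nat_lit 0) (p (nat_lit 0x81) (nat_lit 1) (p (nat_lit 0x41) (nat_lit 1) (p (nat_lit 0x10a0b0a89089a) (nat_lit 0) (p (nat_lit 0x98a8a08881a) (nat_lit 0) (p (nat_lit 0x109088988079a) (nat_lit 0) (p (nat_lit 0x8880907871a) (nat_lit 0) (p (nat_lit 0x8000000000800080887068a) (nat_lit 0) (p (nat_lit 0x10888068602) (nat_lit 0) (p (nat_lit 0x807860582) (nat_lit 0) (p (nat_lit 0x10607058502) (nat_lit 0) (p (nat_lit 0x586850482) (nat_lit 0) (p (nat_lit 0x16000c) (nat_lit 0) (p (nat_lit 0x68612) (nat_lit 0) (p (nat_lit 0x50592) (nat_lit 0) (p (nat_lit 0x40512) (nat_lit 0) (p (nat_lit 0x50312) (nat_lit 0) (p (nat_lit 0x38292) (nat_lit 0) (p (nat_lit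 0x28212) (nat_lit 0) (p (nat_lit 0x38112) (nat_lit 0) (p (nat_lit 0x20092) (nat_lit 0) (p (nat_lit 0x10012) (nat_lit 0) pn))))))))))))))))))))))))))))) :=
  Cl.node (nat_lit 0x1fc004) (nat_lit 2) (by decide +kernel) (ClAll.succ (ClAll.succ ClAll.zero n281) s1309)

def n359 : Cl (O (nat_lit 5)) (R (nat_lit 14353))
    (p (nat_lit 0xb000c) (nat_lit 0) (p (nat_lit 0x380c2) (nat_lit 1) (p (nat_lit 0x3c4aa) (nat_lit 10) (p (nat_lit 0x111) (nat_lit 1) (p (nat_lit 0xd1) (nat_lit 1) (p (nat_lit 0xc9) (nat_lit 0) (p (nat_lit 0x119) (nat_lit 1) (p (nat_lit 0xc1) (nat_lit 0) (p (nat_lit 0x81) (nat_lit 1) (p (nat_lit 0x41) (nat_lit 1) (p (nat_lit 0x10a0b0a89089a) (nat_lit 0) (p (nat_lit 0x98a8a08881a) (nat_lit 0) (p (nat_lit 0x109088988079a) (nat_lit 0) (p (nat_lit 0x8880907871a) (nat_lit 0) (p (nat_lit 0x8000000000800080887068a) (nat_lit 0) (p (nat_lit 0x10888068602) (nat_lit 0) (p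 (nat_lit 0x807860582) (nat_lit 0) (p (nat_lit 0x10607058502) (nat_lit 0) (p (nat_lit 0x586850482) (nat_lit 0) (p (nat_lit 0x16000c) (nat_lit 0) (p (nat_lit 0x68612) (nat_lit 0) (p (nat_lit 0x50592) (nat_lit 0) (p (nat_lit 0x40512) (nat_lit 0) (p (nat_lit 0x50312) (nat_lit 0) (p (nat_lit 0x38292) (nat_lit 0) (p (nat_lit 0x28212) (nat_lit 0) (p (nat_lit 0x38112) (nat_lit 0) (p (nat_lit 0x20092) (nat_lit 0) (p (nat_lit 0x10012) (nat_lit 0) pn))))))))))))))))))))))))))))) :=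
  Cl.node (nat_lit 0x200014) (nat_lit 2) (by decide +kernel) (ClAll.succ (ClAll.succ ClAll.zero s1313) s1314)

def n360 : Cl (O (nat_lit 5)) (R (nat_lit 14353))
    (p (nat_lit 0x200004) (nat_lit 0) (p (nat_lit 0x380c2) (nat_lit 0) (p (nat_lit 0x44c2a) (nat_lit 0) (p (nat_lit 0x111) (nat_lit 0) (p (nat_lit 0x109) (nat_lit 0) (p (nat_lit 0xc9) (nat_lit 1) (p (nat_lit 0x119) (nat_lit 1) (p (nat_lit 0xc1) (nat_lit 0) (p (nat_lit 0x81) (nat_lit 1) (p (nat_lit 0x41) (nat_lit 1) (p (nat_lit 0x10a0b0a89089a) (nat_lit 0) (p (nat_lit 0x98a8a08881a) (nat_lit 0) (p (nat_lit 0x109088988079a) (nat_lit 0) (p (nat_lit 0x8880907871a) (nat_lit 0) (p (nat_lit 0x8000000000800080887068a) (nat_lit 0) (p (nat_lit 0x10888068602) (nat_lit 0) (p (nat_lit 0x807860582) (nat_lit 0) (p (nat_lit 0x10607058502) (nat_lit 0) (p (nat_lit 0x586850482) (nat_lit 0) (p (nat_lit 0x16000c) (nat_lit 0) (p (nat_lit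 0x68612) (nat_lit 0) (p (nat_lit 0x50592) (nat_lit 0) (p (nat_lit 0x40512) (nat_lit 0) (p (nat_lit 0x50312) (nat_lit 0) (p (nat_lit 0x38292) (nat_lit 0) (p (nat_lit 0x28212) (nat_lit 0) (p (nat_lit 0x38112) (nat_lit 0) (p (nat_lit 0x20092) (nat_lit 0) (p (nat_lit 0x10012) (nat_lit 0) pn))))))))))))))))))))))))))))) :=
  Cl.node (nat_lit 0x109) (nat_lit 2) (by decide +kernel) (ClAll.succ (ClAll.succ ClAll.zero s1317) n282)

def n361 : Cl (O (nat_lit 5)) (R (nat_lit 14353))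
    (p (nat_lit 0xb000c) (nat_lit 0) (p (nat_lit 0x380c2) (nat_lit 0) (p (nat_lit 0x3c4aa) (nat_lit 7) (p (nat_lit 0x111) (nat_lit 1) (p (nat_lit 0x109) (nat_lit 0) (p (nat_lit 0xc9) (nat_lit 1) (p (nat_lit 0x119) (nat_lit 1) (p (nat_lit 0xc1) (nat_lit 0) (p (nat_lit 0x81) (nat_lit 1) (p (nat_lit 0x41) (nat_lit 1) (p (nat_lit 0x10a0b0a89089a) (nat_lit 0) (p (nat_lit 0x98a8a08881a) (nat_lit 0) (p (nat_lit 0x109088988079a) (nat_lit 0) (p (nat_lit 0x8880907871a) (nat_lit 0) (p (nat_lit 0x8000000000800080887068a) (nat_lit 0) (p (nat_lit 0x10888068602) (nat_lit 0) (p (nat_lit 0x807860582) (nat_lit 0) (p (nat_lit 0x10607058502) (nat_lit 0) (p (nat_lit 0x586850482) (nat_lit 0) (p (nat_lit 0x16000c) (nat_lit 0) (p (nat_lit 0x68612) (nat_lit 0) (p (nat_lit 0x50592) (nat_lit 0) (p (nat_lit 0x40512) (nat_lit 0) (p (nat_lit 0x50312) (nat_lit 0) (p (nat_lit 0x38292) (nat_lit 0) (p (nat_lit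 0x28212) (nat_lit 0) (p (nat_lit 0x38112) (nat_lit 0) (p (nat_lit 0x20092) (nat_lit 0) (p (nat_lit 0x10012) (nat_lit 0) pn))))))))))))))))))))))))))))) :=
  Cl.node (nat_lit 0x101) (nat_lit 2) (by decide +kernel) (ClAll.succ (ClAll.succ ClAll.zero s1339) s1340)

def n362 : Cl (O (nat_lit 5)) (R (nat_lit 14353))
    (p (nat_lit 0xb000c) (nat_lit 0) (p (nat_lit 0x380c2) (nat_lit 1) (p (nat_lit 0x3c4aa) (nat_lit 7) (p (nat_lit 0x111) (nat_lit 1) (p (nat_lit 0x109) (nat_lit 0) (p (nat_lit 0xc9) (nat_lit 1) (p (nat_lit 0x119) (nat_lit 1) (p (nat_lit 0xc1) (nat_lit 0) (p (nat_lit 0x81) (nat_lit 1) (p (nat_lit 0x41) (nat_lit 1) (p (nat_lit 0x10a0b0a89089a) (nat_lit 0) (p (nat_lit 0x98a8a08881a) (nat_lit 0) (p (nat_lit 0x109088988079a) (nat_lit 0) (p (nat_lit 0x8880907871a) (nat_lit 0) (p (nat_lit 0x8000000000800080887068a) (nat_lit 0) (p (nat_lit 0x10888068602) (nat_lit 0) (p (nat_lit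 0x807860582) (nat_lit 0) (p (nat_lit 0x10607058502) (nat_lit 0) (p (nat_lit 0x586850482) (nat_lit 0) (p (nat_lit 0x16000c) (nat_lit 0) (p (nat_lit 0x68612) (nat_lit 0) (p (nat_lit 0x50592) (nat_lit 0) (p (nat_lit 0x40512) (nat_lit 0) (p (nat_lit 0x50312) (nat_lit 0) (p (nat_lit 0x38292) (nat_lit 0) (p (nat_lit 0x28212) (nat_lit 0) (p (nat_lit 0x38112) (nat_lit 0) (p (nat_lit 0x20092) (nat_lit 0) (p (nat_lit 0x10012) (nat_lit 0) pn))))))))))))))))))))))))))))) :=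
  Cl.node (nat_lit 0x101) (nat_lit 2) (by decide +kernel) (ClAll.succ (ClAll.succ ClAll.zero n283) s1355)

def n363 : Cl (O (nat_lit 5)) (R (nat_lit 14353))
    (p (nat_lit 0xb000c) (nat_lit 1) (p (nat_lit 0x380c2) (nat_lit 1) (p (nat_lit 0x3c4aa) (nat_lit 7) (p (nat_lit 0x111) (nat_lit 1) (p (nat_lit 0x109) (nat_lit 0) (p (nat_lit 0xc9) (nat_lit 1) (p (nat_lit 0x119) (nat_lit 1) (p (nat_lit 0xc1) (nat_lit 0) (p (nat_lit 0x81) (nat_lit 1) (p (nat_lit 0x41) (nat_lit 1) (p (nat_lit 0x10a0b0a89089a) (nat_lit 0) (p (nat_lit 0x98a8a08881a) (nat_lit 0) (p (nat_lit 0x109088988079a) (nat_lit 0) (p (nat_lit 0x8880907871a) (nat_lit 0) (p (nat_lit 0x8000000000800080887068a) (nat_lit 0) (p (nat_lit 0x10888068602) (nat_lit 0) (p (nat_lit 0x807860582) (nat_lit 0) (p (nat_lit 0x10607058502) (nat_lit 0) (p (nat_lit 0x586850482) (nat_lit 0) (p (nat_lit 0x16000c) (nat_lit 0) (p (nat_lit 0x68612)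 (nat_lit 0) (p (nat_lit 0x50592) (nat_lit 0) (p (nat_lit 0x40512) (nat_lit 0) (p (nat_lit 0x50312) (nat_lit 0) (p (nat_lit 0x38292) (nat_lit 0) (p (nat_lit 0x28212) (nat_lit 0) (p (nat_lit 0x38112) (nat_lit 0) (p (nat_lit 0x20092) (nat_lit 0) (p (nat_lit 0x10012) (nat_lit 0) pn))))))))))))))))))))))))))))) :=
  Cl.node (nat_lit 0x1fc004) (nat_lit 2) (by decide +kernel) (ClAll.succ (ClAll.succ ClAll.zero n284) s1360)

def n364 : Cl (O (nat_lit 5)) (R (nat_lit 14353))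
    (p (nat_lit 0x444aa) (nat_lit 7) (p (nat_lit 0x81) (nat_lit 1) (p (nat_lit 0xc9) (nat_lit 1) (p (nat_lit 0x109) (nat_lit 1) (p (nat_lit 0x101) (nat_lit 0) (p (nat_lit 0x119) (nat_lit 0) (p (nat_lit 0xd1) (nat_lit 0) (p (nat_lit 0x89) (nat_lit 0) (p (nat_lit 0x41) (nat_lit 0) (p (nat_lit 0x10a0b0a89089a) (nat_lit 0) (p (nat_lit 0x98a8a08881a) (nat_lit 0) (p (nat_lit 0x109088988079a) (nat_lit 0) (p (nat_lit 0x8880907871a) (nat_lit 0) (p (nat_lit 0x8000000000800080887068a) (nat_lit 0) (p (nat_lit 0x10888068602) (nat_lit 0) (p (nat_lit 0x807860582) (nat_lit 0) (p (nat_lit 0x10607058502) (nat_lit 0) (p (nat_lit 0x586850482) (nat_lit 0) (p (nat_lit 0x16000c) (nat_lit 0) (p (nat_lit 0x68612) (nat_lit 0) (p (nat_lit 0x50592) (nat_lit 0) (p (nat_lit 0x40512) (nat_lit 0) (p (nat_lit 0x50312) (nat_lit 0) (p (nat_lit 0x38292) (nat_lit 0) (p (nat_lit 0x28212) (nat_lit 0) (p (nat_lit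 0x38112) (nat_lit 0) (p (nat_lit 0x20092) (nat_lit 0) (p (nat_lit 0x10012) (nat_lit 0) pn)))))))))))))))))))))))))))) :=
  Cl.node (nat_lit 0x380c2) (nat_lit 2) (by decide +kernel) (ClAll.succ (ClAll.succ ClAll.zero n285) n286)

def n365 : Cl (O (nat_lit 5)) (R (nat_lit 14353))
    (p (nat_lit 0x4c42a) (nat_lit 2) (p (nat_lit 0x111) (nat_lit 0) (p (nat_lit 0xc9) (nat_lit 0) (p (nat_lit 0x81) (nat_lit 0) (p (nat_lit 0x101) (nat_lit 1) (p (nat_lit 0x119) (nat_lit 0) (p (nat_lit 0xd1) (nat_lit 0) (p (nat_lit 0x89) (nat_lit 0) (p (nat_lit 0x41) (nat_lit 0) (p (nat_lit 0x10a0b0a89089a) (nat_lit 0) (p (nat_lit 0x98a8a08881a) (nat_lit 0) (p (nat_lit 0x109088988079a) (nat_lit 0) (p (nat_lit 0x8880907871a) (nat_lit 0) (p (nat_lit 0x8000000000800080887068a) (nat_lit 0) (p (nat_lit 0x10888068602) (nat_lit 0) (p (nat_lit 0x807860582) (nat_lit 0) (p (nat_lit 0x10607058502) (nat_lit 0)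 (p (nat_lit 0x586850482) (nat_lit 0) (p (nat_lit 0x16000c) (nat_lit 0) (p (nat_lit 0x68612) (nat_lit 0) (p (nat_lit 0x50592) (nat_lit 0) (p (nat_lit 0x40512) (nat_lit 0) (p (nat_lit 0x50312) (nat_lit 0) (p (nat_lit 0x38292) (nat_lit 0) (p (nat_lit 0x28212) (nat_lit 0) (p (nat_lit 0x38112) (nat_lit 0) (p (nat_lit 0x20092) (nat_lit 0) (p (nat_lit 0x10012) (nat_lit 0) pn)))))))))))))))))))))))))))) :=
  Cl.node (nat_lit 0x380c2) (nat_lit 1) (by decide +kernel) (ClAll.succ ClAll.zero n287)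

def n366 : Cl (O (nat_lit 5)) (R (nat_lit 14353))
    (p (nat_lit 0x444aa) (nat_lit 7) (p (nat_lit 0x111) (nat_lit 0) (p (nat_lit 0xc9) (nat_lit 1) (p (nat_lit 0x81) (nat_lit 0) (p (nat_lit 0x101) (nat_lit 1) (p (nat_lit 0x119) (nat_lit 0) (p (nat_lit 0xd1) (nat_lit 0) (p (nat_lit 0x89) (nat_lit 0) (p (nat_lit 0x41) (nat_lit 0) (p (nat_lit 0x10a0b0a89089a) (nat_lit 0) (p (nat_lit 0x98a8a08881a) (nat_lit 0) (p (nat_lit 0x109088988079a) (nat_lit 0) (p (nat_lit 0x8880907871a) (nat_lit 0) (p (nat_lit 0x8000000000800080887068a) (nat_lit 0) (p (nat_lit 0x10888068602) (nat_lit 0) (p (nat_lit 0x807860582) (nat_lit 0) (p (nat_lit 0x10607058502) (nat_lit 0) (p (nat_lit 0x586850482) (nat_lit 0) (p (nat_lit 0x16000c) (nat_lit 0) (p (nat_lit 0x68612) (nat_lit 0) (p (nat_lit 0x50592) (nat_lit 0) (p (nat_lit 0x40512) (nat_lit 0) (p (nat_lit 0x50312) (nat_lit 0) (p (nat_lit 0x38292) (nat_lit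 0) (p (nat_lit 0x28212) (nat_lit 0) (p (nat_lit 0x38112) (nat_lit 0) (p (nat_lit 0x20092) (nat_lit 0) (p (nat_lit 0x10012) (nat_lit 0) pn)))))))))))))))))))))))))))) :=
  Cl.node (nat_lit 0x380c2) (nat_lit 2) (by decide +kernel) (ClAll.succ (ClAll.succ ClAll.zero n288) n289)

def n367 : Cl (O (nat_lit 5)) (R (nat_lit 14353))
    (p (nat_lit 0x444aa) (nat_lit 8) (p (nat_lit 0x111) (nat_lit 0) (p (nat_lit 0xc9) (nat_lit 1) (p (nat_lit 0x81) (nat_lit 0) (p (nat_lit 0x101) (nat_lit 1) (p (nat_lit 0x119) (nat_lit 0) (p (nat_lit 0xd1) (nat_lit 0) (p (nat_lit 0x89) (nat_lit 0) (p (nat_lit 0x41) (nat_lit 0) (p (nat_lit 0x10a0b0a89089a) (nat_lit 0) (p (nat_lit 0x98a8a08881a) (nat_lit 0) (p (nat_lit 0x109088988079a) (nat_lit 0) (p (nat_lit 0x8880907871a) (nat_lit 0) (p (nat_lit 0x8000000000800080887068a) (nat_lit 0) (p (nat_lit 0x10888068602) (nat_lit 0) (p (nat_lit 0x807860582) (nat_lit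 0) (p (nat_lit 0x10607058502) (nat_lit 0) (p (nat_lit 0x586850482) (nat_lit 0) (p (nat_lit 0x16000c) (nat_lit 0) (p (nat_lit 0x68612) (nat_lit 0) (p (nat_lit 0x50592) (nat_lit 0) (p (nat_lit 0x40512) (nat_lit 0) (p (nat_lit 0x50312) (nat_lit 0) (p (nat_lit 0x38292) (nat_lit 0) (p (nat_lit 0x28212) (nat_lit 0) (p (nat_lit 0x38112) (nat_lit 0) (p (nat_lit 0x20092) (nat_lit 0) (p (nat_lit 0x10012) (nat_lit 0) pn)))))))))))))))))))))))))))) :=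
  Cl.node (nat_lit 0x380c2) (nat_lit 2) (by decide +kernel) (ClAll.succ (ClAll.succ ClAll.zero s74) n290)

def n368 : Cl (O (nat_lit 5)) (R (nat_lit 14353))
    (p (nat_lit 0x4c42a) (nat_lit 2) (p (nat_lit 0xc9) (nat_lit 0) (p (nat_lit 0xc1) (nat_lit 0) (p (nat_lit 0x81) (nat_lit 1) (p (nat_lit 0x101) (nat_lit 1) (p (nat_lit 0x119) (nat_lit 0) (p (nat_lit 0xd1) (nat_lit 0) (p (nat_lit 0x89) (nat_lit 0) (p (nat_lit 0x41) (nat_lit 0) (p (nat_lit 0x10a0b0a89089a) (nat_lit 0) (p (nat_lit 0x98a8a08881a) (nat_lit 0) (p (nat_lit 0x109088988079a) (nat_lit 0) (p (nat_lit 0x8880907871a) (nat_lit 0) (p (nat_lit 0x8000000000800080887068a) (nat_lit 0) (p (nat_lit 0x10888068602) (nat_lit 0) (p (nat_lit 0x807860582) (nat_lit 0) (p (nat_lit 0x10607058502) (nat_lit 0) (p (nat_lit 0x586850482) (nat_lit 0) (p (nat_lit 0x16000c) (nat_lit 0) (p (nat_lit 0x68612) (nat_lit 0) (p (nat_lit 0x50592)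 (nat_lit 0) (p (nat_lit 0x40512) (nat_lit 0) (p (nat_lit 0x50312) (nat_lit 0) (p (nat_lit 0x38292) (nat_lit 0) (p (nat_lit 0x28212) (nat_lit 0) (p (nat_lit 0x38112) (nat_lit 0) (p (nat_lit 0x20092) (nat_lit 0) (p (nat_lit 0x10012) (nat_lit 0) pn)))))))))))))))))))))))))))) :=
  Cl.node (nat_lit 0x380c2) (nat_lit 1) (by decide +kernel) (ClAll.succ ClAll.zero n291)

def n369 : Cl (O (nat_lit 5)) (R (nat_lit 14353))
    (p (nat_lit 0x444aa) (nat_lit 7) (p (nat_lit 0xc9) (nat_lit 1) (p (nat_lit 0xc1) (nat_lit 0) (p (nat_lit 0x81) (nat_lit 1) (p (nat_lit 0x101) (nat_lit 1) (p (nat_lit 0x119) (nat_lit 0) (p (nat_lit 0xd1) (nat_lit 0) (p (nat_lit 0x89) (nat_lit 0) (p (nat_lit 0x41) (nat_lit 0) (p (nat_lit 0x10a0b0a89089a) (nat_lit 0) (p (nat_lit 0x98a8a08881a) (nat_lit 0) (p (nat_lit 0x109088988079a) (nat_lit 0) (p (nat_lit 0x8880907871a) (nat_lit 0) (p (nat_lit 0x8000000000800080887068a)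 (nat_lit 0) (p (nat_lit 0x10888068602) (nat_lit 0) (p (nat_lit 0x807860582) (nat_lit 0) (p (nat_lit 0x10607058502) (nat_lit 0) (p (nat_lit 0x586850482) (nat_lit 0) (p (nat_lit 0x16000c) (nat_lit 0) (p (nat_lit 0x68612) (nat_lit 0) (p (nat_lit 0x50592) (nat_lit 0) (p (nat_lit 0x40512) (nat_lit 0) (p (nat_lit 0x50312) (nat_lit 0) (p (nat_lit 0x38292) (nat_lit 0) (p (nat_lit 0x28212) (nat_lit 0) (p (nat_lit 0x38112) (nat_lit 0) (p (nat_lit 0x20092) (nat_lit 0) (p (nat_lit 0x10012) (nat_lit 0) pn)))))))))))))))))))))))))))) :=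
  Cl.node (nat_lit 0x380c2) (nat_lit 2) (by decide +kernel) (ClAll.succ (ClAll.succ ClAll.zero n292) n293)

def n370 : Cl (O (nat_lit 5)) (R (nat_lit 14353))
    (p (nat_lit 0x380c2) (nat_lit 0) (p (nat_lit 0x3cc2a) (nat_lit 10) (p (nat_lit 0x109) (nat_lit 1) (p (nat_lit 0xc9) (nat_lit 1) (p (nat_lit 0xc1) (nat_lit 0) (p (nat_lit 0x119) (nat_lit 1) (p (nat_lit 0xd1) (nat_lit 0) (p (nat_lit 0x89) (nat_lit 0) (p (nat_lit 0x41) (nat_lit 0) (p (nat_lit 0x10a0b0a89089a) (nat_lit 0) (p (nat_lit 0x98a8a08881a) (nat_lit 0) (p (nat_lit 0x109088988079a) (nat_lit 0) (p (nat_lit 0x8880907871a) (nat_lit 0) (p (nat_lit 0x8000000000800080887068a) (nat_lit 0) (p (nat_lit 0x10888068602) (nat_lit 0) (p (nat_lit 0x807860582) (nat_lit 0) (p (nat_lit 0x10607058502) (nat_lit 0) (p (nat_lit 0x586850482) (nat_lit 0) (p (nat_lit 0x16000c) (nat_lit 0) (p (nat_lit 0x68612) (nat_lit 0) (p (nat_lit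 0x50592) (nat_lit 0) (p (nat_lit 0x40512) (nat_lit 0) (p (nat_lit 0x50312) (nat_lit 0) (p (nat_lit 0x38292) (nat_lit 0) (p (nat_lit 0x28212) (nat_lit 0) (p (nat_lit 0x38112) (nat_lit 0) (p (nat_lit 0x20092) (nat_lit 0) (p (nat_lit 0x10012) (nat_lit 0) pn)))))))))))))))))))))))))))) :=
  Cl.node (nat_lit 0x41) (nat_lit 2) (by decide +kernel) (ClAll.succ (ClAll.succ ClAll.zero n294) s127)

def n371 : Cl (O (nat_lit 5)) (R (nat_lit 14353))
    (p (nat_lit 0x380c2) (nat_lit 1) (p (nat_lit 0x3cc2a) (nat_lit 10) (p (nat_lit 0x109) (nat_lit 1) (p (nat_lit 0xc9) (nat_lit 1) (p (nat_lit 0xc1) (nat_lit 0) (p (nat_lit 0x119) (nat_lit 1) (p (nat_lit 0xd1) (nat_lit 0) (p (nat_lit 0x89) (nat_lit 0) (p (nat_lit 0x41) (nat_lit 0) (p (nat_lit 0x10a0b0a89089a) (nat_lit 0) (p (nat_lit 0x98a8a08881a) (nat_lit 0) (p (nat_lit 0x109088988079a) (nat_lit 0) (p (nat_lit 0x8880907871a) (nat_lit 0)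 (p (nat_lit 0x8000000000800080887068a) (nat_lit 0) (p (nat_lit 0x10888068602) (nat_lit 0) (p (nat_lit 0x807860582) (nat_lit 0) (p (nat_lit 0x10607058502) (nat_lit 0) (p (nat_lit 0x586850482) (nat_lit 0) (p (nat_lit 0x16000c) (nat_lit 0) (p (nat_lit 0x68612) (nat_lit 0) (p (nat_lit 0x50592) (nat_lit 0) (p (nat_lit 0x40512) (nat_lit 0) (p (nat_lit 0x50312) (nat_lit 0) (p (nat_lit 0x38292) (nat_lit 0) (p (nat_lit 0x28212) (nat_lit 0) (p (nat_lit 0x38112) (nat_lit 0) (p (nat_lit 0x20092) (nat_lit 0) (p (nat_lit 0x10012) (nat_lit 0) pn)))))))))))))))))))))))))))) :=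
  Cl.node (nat_lit 0xb000c) (nat_lit 2) (by decide +kernel) (ClAll.succ (ClAll.succ ClAll.zero s128) s129)

def n372 : Cl (O (nat_lit 5)) (R (nat_lit 14353))
    (p (nat_lit 0x380c2) (nat_lit 1) (p (nat_lit 0x3cc2a) (nat_lit 11) (p (nat_lit 0x109) (nat_lit 1) (p (nat_lit 0xc9) (nat_lit 1) (p (nat_lit 0xc1) (nat_lit 0) (p (nat_lit 0x119) (nat_lit 1) (p (nat_lit 0xd1) (nat_lit 0) (p (nat_lit 0x89) (nat_lit 0) (p (nat_lit 0x41) (nat_lit 0) (p (nat_lit 0x10a0b0a89089a) (nat_lit 0) (p (nat_lit 0x98a8a08881a) (nat_lit 0) (p (nat_lit 0x109088988079a) (nat_lit 0) (p (nat_lit 0x8880907871a) (nat_lit 0) (p (nat_lit 0x8000000000800080887068a) (nat_lit 0) (p (nat_lit 0x10888068602) (nat_lit 0) (p (nat_lit 0x807860582) (nat_lit 0) (p (nat_lit 0x10607058502) (nat_lit 0) (p (nat_lit 0x586850482) (nat_lit 0) (p (nat_lit 0x16000c) (nat_lit 0) (p (nat_lit 0x68612) (nat_lit 0) (p (nat_lit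 0x50592) (nat_lit 0) (p (nat_lit 0x40512) (nat_lit 0) (p (nat_lit 0x50312) (nat_lit 0) (p (nat_lit 0x38292) (nat_lit 0) (p (nat_lit 0x28212) (nat_lit 0) (p (nat_lit 0x38112) (nat_lit 0) (p (nat_lit 0x20092) (nat_lit 0) (p (nat_lit 0x10012) (nat_lit 0) pn)))))))))))))))))))))))))))) :=
  Cl.node (nat_lit 0x81) (nat_lit 2) (by decide +kernel) (ClAll.succ (ClAll.succ ClAll.zero s131) n295)

def n373 : Cl (O (nat_lit 5)) (R (nat_lit 14353))
    (p (nat_lit 0x380c2) (nat_lit 0) (p (nat_lit 0x3cc2a) (nat_lit 10) (p (nat_lit 0x109) (nat_lit 1) (p (nat_lit 0x81) (nat_lit 0) (p (nat_lit 0xc1) (nat_lit 1) (p (nat_lit 0x119) (nat_lit 1) (p (nat_lit 0xd1) (nat_lit 0) (p (nat_lit 0x89) (nat_lit 0) (p (nat_lit 0x41) (nat_lit 0) (p (nat_lit 0x10a0b0a89089a) (nat_lit 0) (p (nat_lit 0x98a8a08881a) (nat_lit 0) (p (nat_lit 0x109088988079a) (nat_lit 0) (p (nat_lit 0x8880907871a) (nat_lit 0)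 (p (nat_lit 0x8000000000800080887068a) (nat_lit 0) (p (nat_lit 0x10888068602) (nat_lit 0) (p (nat_lit 0x807860582) (nat_lit 0) (p (nat_lit 0x10607058502) (nat_lit 0) (p (nat_lit 0x586850482) (nat_lit 0) (p (nat_lit 0x16000c) (nat_lit 0) (p (nat_lit 0x68612) (nat_lit 0) (p (nat_lit 0x50592) (nat_lit 0) (p (nat_lit 0x40512) (nat_lit 0) (p (nat_lit 0x50312) (nat_lit 0) (p (nat_lit 0x38292) (nat_lit 0) (p (nat_lit 0x28212) (nat_lit 0) (p (nat_lit 0x38112) (nat_lit 0) (p (nat_lit 0x20092) (nat_lit 0) (p (nat_lit 0x10012) (nat_lit 0) pn)))))))))))))))))))))))))))) :=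
  Cl.node (nat_lit 0xc9) (nat_lit 2) (by decide +kernel) (ClAll.succ (ClAll.succ ClAll.zero s168) s169)

def n374 : Cl (O (nat_lit 5)) (R (nat_lit 14353))
    (p (nat_lit 0x380c2) (nat_lit 1) (p (nat_lit 0x3cc2a) (nat_lit 11) (p (nat_lit 0x109) (nat_lit 1) (p (nat_lit 0x81) (nat_lit 0) (p (nat_lit 0xc1) (nat_lit 1) (p (nat_lit 0x119) (nat_lit 1) (p (nat_lit 0xd1) (nat_lit 0) (p (nat_lit 0x89) (nat_lit 0) (p (nat_lit 0x41) (nat_lit 0) (p (nat_lit 0x10a0b0a89089a) (nat_lit 0) (p (nat_lit 0x98a8a08881a) (nat_lit 0) (p (nat_lit 0x109088988079a) (nat_lit 0) (p (nat_lit 0x8880907871a) (nat_lit 0) (p (nat_lit 0x8000000000800080887068a) (nat_lit 0) (p (nat_lit 0x10888068602) (nat_lit 0) (p (nat_lit 0x807860582) (nat_lit 0) (p (nat_lit 0x10607058502) (nat_lit 0) (p (nat_lit 0x586850482) (nat_lit 0) (p (nat_lit 0x16000c) (nat_lit 0) (p (nat_lit 0x68612) (nat_lit 0) (p (nat_lit 0x50592)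 (nat_lit 0) (p (nat_lit 0x40512) (nat_lit 0) (p (nat_lit 0x50312) (nat_lit 0) (p (nat_lit 0x38292) (nat_lit 0) (p (nat_lit 0x28212) (nat_lit 0) (p (nat_lit 0x38112) (nat_lit 0) (p (nat_lit 0x20092) (nat_lit 0) (p (nat_lit 0x10012) (nat_lit 0) pn)))))))))))))))))))))))))))) :=
  Cl.node (nat_lit 0xc9) (nat_lit 2) (by decide +kernel) (ClAll.succ (ClAll.succ ClAll.zero s172) s173)

def n375 : Cl (O (nat_lit 5)) (R (nat_lit 14353))
    (p (nat_lit 0x44c2a) (nat_lit 0) (p (nat_lit 0x109) (nat_lit 0) (p (nat_lit 0x101) (nat_lit 0) (p (nat_lit 0x81) (nat_lit 1) (p (nat_lit 0xc1) (nat_lit 1) (p (nat_lit 0x119) (nat_lit 1) (p (nat_lit 0xd1) (nat_lit 0) (p (nat_lit 0x89) (nat_lit 0) (p (nat_lit 0x41) (nat_lit 0) (p (nat_lit 0x10a0b0a89089a) (nat_lit 0) (p (nat_lit 0x98a8a08881a) (nat_lit 0) (p (nat_lit 0x109088988079a) (nat_lit 0) (p (nat_lit 0x8880907871a) (nat_lit 0) (p (nat_lit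 0x8000000000800080887068a) (nat_lit 0) (p (nat_lit 0x10888068602) (nat_lit 0) (p (nat_lit 0x807860582) (nat_lit 0) (p (nat_lit 0x10607058502) (nat_lit 0) (p (nat_lit 0x586850482) (nat_lit 0) (p (nat_lit 0x16000c) (nat_lit 0) (p (nat_lit 0x68612) (nat_lit 0) (p (nat_lit 0x50592) (nat_lit 0) (p (nat_lit 0x40512) (nat_lit 0) (p (nat_lit 0x50312) (nat_lit 0) (p (nat_lit 0x38292) (nat_lit 0) (p (nat_lit 0x28212) (nat_lit 0) (p (nat_lit 0x38112) (nat_lit 0) (p (nat_lit 0x20092) (nat_lit 0) (p (nat_lit 0x10012) (nat_lit 0) pn)))))))))))))))))))))))))))) :=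
  Cl.node (nat_lit 0x380c2) (nat_lit 1) (by decide +kernel) (ClAll.succ ClAll.zero n296)

def n376 : Cl (O (nat_lit 5)) (R (nat_lit 14353))
    (p (nat_lit 0x44c2a) (nat_lit 2) (p (nat_lit 0x109) (nat_lit 0) (p (nat_lit 0x101) (nat_lit 0) (p (nat_lit 0x81) (nat_lit 1) (p (nat_lit 0xc1) (nat_lit 1) (p (nat_lit 0x119) (nat_lit 1) (p (nat_lit 0xd1) (nat_lit 0) (p (nat_lit 0x89) (nat_lit 0) (p (nat_lit 0x41) (nat_lit 0) (p (nat_lit 0x10a0b0a89089a) (nat_lit 0) (p (nat_lit 0x98a8a08881a) (nat_lit 0) (p (nat_lit 0x109088988079a) (nat_lit 0) (p (nat_lit 0x8880907871a) (nat_lit 0) (p (nat_lit 0x8000000000800080887068a) (nat_lit 0) (p (nat_lit 0x10888068602) (nat_lit 0) (p (nat_lit 0x807860582) (nat_lit 0) (p (nat_lit 0x10607058502) (nat_lit 0) (p (nat_lit 0x586850482) (nat_lit 0) (p (nat_lit 0x16000c) (nat_lit 0) (p (nat_lit 0x68612) (nat_lit 0) (p (nat_lit 0x50592) (nat_lit 0)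 (p (nat_lit 0x40512) (nat_lit 0) (p (nat_lit 0x50312) (nat_lit 0) (p (nat_lit 0x38292) (nat_lit 0) (p (nat_lit 0x28212) (nat_lit 0) (p (nat_lit 0x38112) (nat_lit 0) (p (nat_lit 0x20092) (nat_lit 0) (p (nat_lit 0x10012) (nat_lit 0) pn)))))))))))))))))))))))))))) :=
  Cl.node (nat_lit 0x380c2) (nat_lit 1) (by decide +kernel) (ClAll.succ ClAll.zero n297)

def n377 : Cl (O (nat_lit 5)) (R (nat_lit 14353))
    (p (nat_lit 0x444aa) (nat_lit 7) (p (nat_lit 0x109) (nat_lit 1) (p (nat_lit 0x101) (nat_lit 0) (p (nat_lit 0x81) (nat_lit 1) (p (nat_lit 0xc1) (nat_lit 1) (p (nat_lit 0x119) (nat_lit 1) (p (nat_lit 0xd1) (nat_lit 0) (p (nat_lit 0x89) (nat_lit 0) (p (nat_lit 0x41) (nat_lit 0) (p (nat_lit 0x10a0b0a89089a) (nat_lit 0) (p (nat_lit 0x98a8a08881a) (nat_lit 0) (p (nat_lit 0x109088988079a) (nat_lit 0) (p (nat_lit 0x8880907871a) (nat_lit 0) (p (nat_lit 0x8000000000800080887068a)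 (nat_lit 0) (p (nat_lit 0x10888068602) (nat_lit 0) (p (nat_lit 0x807860582) (nat_lit 0) (p (nat_lit 0x10607058502) (nat_lit 0) (p (nat_lit 0x586850482) (nat_lit 0) (p (nat_lit 0x16000c) (nat_lit 0) (p (nat_lit 0x68612) (nat_lit 0) (p (nat_lit 0x50592) (nat_lit 0) (p (nat_lit 0x40512) (nat_lit 0) (p (nat_lit 0x50312) (nat_lit 0) (p (nat_lit 0x38292) (nat_lit 0) (p (nat_lit 0x28212) (nat_lit 0) (p (nat_lit 0x38112) (nat_lit 0) (p (nat_lit 0x20092) (nat_lit 0) (p (nat_lit 0x10012) (nat_lit 0) pn)))))))))))))))))))))))))))) :=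
  Cl.node (nat_lit 0x380c2) (nat_lit 2) (by decide +kernel) (ClAll.succ (ClAll.succ ClAll.zero n298) n299)

def n378 : Cl (O (nat_lit 5)) (R (nat_lit 14353))
    (p (nat_lit 0x200014) (nat_lit 0) (p (nat_lit 0x200004) (nat_lit 0) (p (nat_lit 0xc1) (nat_lit 1) (p (nat_lit 0x109) (nat_lit 1) (p (nat_lit 0x101) (nat_lit 0) (p (nat_lit 0x111) (nat_lit 0) (p (nat_lit 0xd1) (nat_lit 1) (p (nat_lit 0x89) (nat_lit 0) (p (nat_lit 0x41) (nat_lit 0) (p (nat_lit 0x10a0b0a89089a) (nat_lit 0) (p (nat_lit 0x98a8a08881a) (nat_lit 0) (p (nat_lit 0x109088988079a) (nat_lit 0) (p (nat_lit 0x8880907871a) (nat_lit 0) (p (nat_lit 0x8000000000800080887068a) (nat_lit 0) (p (nat_lit 0x10888068602) (nat_lit 0) (p (nat_lit 0x807860582) (nat_lit 0) (p (nat_lit 0x10607058502) (nat_lit 0) (p (nat_lit 0x586850482) (nat_lit 0) (p (nat_lit 0x16000c) (nat_lit 0) (p (nat_lit 0x68612) (nat_lit 0) (p (nat_lit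 0x50592) (nat_lit 0) (p (nat_lit 0x40512) (nat_lit 0) (p (nat_lit 0x50312) (nat_lit 0) (p (nat_lit 0x38292) (nat_lit 0) (p (nat_lit 0x28212) (nat_lit 0) (p (nat_lit 0x38112) (nat_lit 0) (p (nat_lit 0x20092) (nat_lit 0) (p (nat_lit 0x10012) (nat_lit 0) pn)))))))))))))))))))))))))))) :=
  Cl.node (nat_lit 0x41) (nat_lit 2) (by decide +kernel) (ClAll.succ (ClAll.succ ClAll.zero n300) s253)

def n379 : Cl (O (nat_lit 5)) (R (nat_lit 14353))
    (p (nat_lit 0x200014) (nat_lit 0) (p (nat_lit 0x200004) (nat_lit 0) (p (nat_lit 0x119) (nat_lit 0) (p (nat_lit 0x81) (nat_lit 0) (p (nat_lit 0x101) (nat_lit 1) (p (nat_lit 0x111) (nat_lit 0) (p (nat_lit 0xd1) (nat_lit 1) (p (nat_lit 0x89) (nat_lit 0) (p (nat_lit 0x41) (nat_lit 0) (p (nat_lit 0x10a0b0a89089a) (nat_lit 0) (p (nat_lit 0x98a8a08881a) (nat_lit 0) (p (nat_lit 0x109088988079a) (nat_lit 0) (p (nat_lit 0x8880907871a) (nat_lit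 0) (p (nat_lit 0x8000000000800080887068a) (nat_lit 0) (p (nat_lit 0x10888068602) (nat_lit 0) (p (nat_lit 0x807860582) (nat_lit 0) (p (nat_lit 0x10607058502) (nat_lit 0) (p (nat_lit 0x586850482) (nat_lit 0) (p (nat_lit 0x16000c) (nat_lit 0) (p (nat_lit 0x68612) (nat_lit 0) (p (nat_lit 0x50592) (nat_lit 0) (p (nat_lit 0x40512) (nat_lit 0) (p (nat_lit 0x50312) (nat_lit 0) (p (nat_lit 0x38292) (nat_lit 0) (p (nat_lit 0x28212) (nat_lit 0) (p (nat_lit 0x38112) (nat_lit 0) (p (nat_lit 0x20092) (nat_lit 0) (p (nat_lit 0x10012) (nat_lit 0) pn)))))))))))))))))))))))))))) :=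
  Cl.node (nat_lit 0x109) (nat_lit 2) (by decide +kernel) (ClAll.succ (ClAll.succ ClAll.zero n301) n302)

def n380 : Cl (O (nat_lit 5)) (R (nat_lit 14353))
    (p (nat_lit 0x444aa) (nat_lit 7) (p (nat_lit 0x119) (nat_lit 0) (p (nat_lit 0xc1) (nat_lit 0) (p (nat_lit 0x81) (nat_lit 1) (p (nat_lit 0x101) (nat_lit 1) (p (nat_lit 0x111) (nat_lit 0) (p (nat_lit 0xd1) (nat_lit 1) (p (nat_lit 0x89) (nat_lit 0) (p (nat_lit 0x41) (nat_lit 0) (p (nat_lit 0x10a0b0a89089a) (nat_lit 0) (p (nat_lit 0x98a8a08881a) (nat_lit 0) (p (nat_lit 0x109088988079a) (nat_lit 0) (p (nat_lit 0x8880907871a) (nat_lit 0) (p (nat_lit 0x8000000000800080887068a) (nat_lit 0) (p (nat_lit 0x10888068602) (nat_lit 0) (p (nat_lit 0x807860582) (nat_lit 0) (p (nat_lit 0x10607058502) (nat_lit 0) (p (nat_lit 0x586850482) (nat_lit 0) (p (nat_lit 0x16000c) (nat_lit 0) (p (nat_lit 0x68612) (nat_lit 0) (p (nat_lit 0x50592)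 (nat_lit 0) (p (nat_lit 0x40512) (nat_lit 0) (p (nat_lit 0x50312) (nat_lit 0) (p (nat_lit 0x38292) (nat_lit 0) (p (nat_lit 0x28212) (nat_lit 0) (p (nat_lit 0x38112) (nat_lit 0) (p (nat_lit 0x20092) (nat_lit 0) (p (nat_lit 0x10012) (nat_lit 0) pn)))))))))))))))))))))))))))) :=
  Cl.node (nat_lit 0x380c2) (nat_lit 2) (by decide +kernel) (ClAll.succ (ClAll.succ ClAll.zero s305) s306)

def n381 : Cl (O (nat_lit 5)) (R (nat_lit 14353))
    (p (nat_lit 0x380c2) (nat_lit 0) (p (nat_lit 0x3cc2a) (nat_lit 0) (p (nat_lit 0x101) (nat_lit 0) (p (nat_lit 0xc1) (nat_lit 1) (p (nat_lit 0x81) (nat_lit 1) (p (nat_lit 0x111) (nat_lit 1) (p (nat_lit 0xd1) (nat_lit 1) (p (nat_lit 0x89) (nat_lit 0) (p (nat_lit 0x41) (nat_lit 0) (p (nat_lit 0x10a0b0a89089a) (nat_lit 0) (p (nat_lit 0x98a8a08881a) (nat_lit 0) (p (nat_lit 0x109088988079a) (nat_lit 0) (p (nat_lit 0x8880907871a) (nat_lit 0) (p (nat_lit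 0x8000000000800080887068a) (nat_lit 0) (p (nat_lit 0x10888068602) (nat_lit 0) (p (nat_lit 0x807860582) (nat_lit 0) (p (nat_lit 0x10607058502) (nat_lit 0) (p (nat_lit 0x586850482) (nat_lit 0) (p (nat_lit 0x16000c) (nat_lit 0) (p (nat_lit 0x68612) (nat_lit 0) (p (nat_lit 0x50592) (nat_lit 0) (p (nat_lit 0x40512) (nat_lit 0) (p (nat_lit 0x50312) (nat_lit 0) (p (nat_lit 0x38292) (nat_lit 0) (p (nat_lit 0x28212) (nat_lit 0) (p (nat_lit 0x38112) (nat_lit 0) (p (nat_lit 0x20092) (nat_lit 0) (p (nat_lit 0x10012) (nat_lit 0) pn)))))))))))))))))))))))))))) :=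
  Cl.node (nat_lit 0x200004) (nat_lit 2) (by decide +kernel) (ClAll.succ (ClAll.succ ClAll.zero n303) s328)

def n382 : Cl (O (nat_lit 5)) (R (nat_lit 14353))
    (p (nat_lit 0x444aa) (nat_lit 7) (p (nat_lit 0xd1) (nat_lit 1) (p (nat_lit 0x111) (nat_lit 1) (p (nat_lit 0x109) (nat_lit 0) (p (nat_lit 0x101) (nat_lit 0) (p (nat_lit 0x119) (nat_lit 0) (p (nat_lit 0xc9) (nat_lit 0) (p (nat_lit 0x89) (nat_lit 1) (p (nat_lit 0x41) (nat_lit 0) (p (nat_lit 0x10a0b0a89089a) (nat_lit 0) (p (nat_lit 0x98a8a08881a) (nat_lit 0) (p (nat_lit 0x109088988079a) (nat_lit 0) (p (nat_lit 0x8880907871a) (nat_lit 0) (p (nat_lit 0x8000000000800080887068a) (nat_lit 0) (p (nat_lit 0x10888068602) (nat_lit 0) (p (nat_lit 0x807860582) (nat_lit 0) (p (nat_lit 0x10607058502) (nat_lit 0) (p (nat_lit 0x586850482) (nat_lit 0) (p (nat_lit 0x16000c) (nat_lit 0) (p (nat_lit 0x68612) (nat_lit 0) (p (nat_lit 0x50592)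 (nat_lit 0) (p (nat_lit 0x40512) (nat_lit 0) (p (nat_lit 0x50312) (nat_lit 0) (p (nat_lit 0x38292) (nat_lit 0) (p (nat_lit 0x28212) (nat_lit 0) (p (nat_lit 0x38112) (nat_lit 0) (p (nat_lit 0x20092) (nat_lit 0) (p (nat_lit 0x10012) (nat_lit 0) pn)))))))))))))))))))))))))))) :=
  Cl.node (nat_lit 0x380c2) (nat_lit 2) (by decide +kernel) (ClAll.succ (ClAll.succ ClAll.zero n304) n305)

def n383 : Cl (O (nat_lit 5)) (R (nat_lit 14353))
    (p (nat_lit 0x444aa) (nat_lit 10) (p (nat_lit 0xd1) (nat_lit 1) (p (nat_lit 0x111) (nat_lit 1) (p (nat_lit 0x109) (nat_lit 0) (p (nat_lit 0x101) (nat_lit 0) (p (nat_lit 0x119) (nat_lit 0) (p (nat_lit 0xc9) (nat_lit 0) (p (nat_lit 0x89) (nat_lit 1) (p (nat_lit 0x41) (nat_lit 0) (p (nat_lit 0x10a0b0a89089a) (nat_lit 0) (p (nat_lit 0x98a8a08881a) (nat_lit 0) (p (nat_lit 0x109088988079a) (nat_lit 0) (p (nat_lit 0x8880907871a) (nat_lit 0) (p (nat_lit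 0x8000000000800080887068a) (nat_lit 0) (p (nat_lit 0x10888068602) (nat_lit 0) (p (nat_lit 0x807860582) (nat_lit 0) (p (nat_lit 0x10607058502) (nat_lit 0) (p (nat_lit 0x586850482) (nat_lit 0) (p (nat_lit 0x16000c) (nat_lit 0) (p (nat_lit 0x68612) (nat_lit 0) (p (nat_lit 0x50592) (nat_lit 0) (p (nat_lit 0x40512) (nat_lit 0) (p (nat_lit 0x50312) (nat_lit 0) (p (nat_lit 0x38292) (nat_lit 0) (p (nat_lit 0x28212) (nat_lit 0) (p (nat_lit 0x38112) (nat_lit 0) (p (nat_lit 0x20092) (nat_lit 0) (p (nat_lit 0x10012) (nat_lit 0) pn)))))))))))))))))))))))))))) :=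
  Cl.node (nat_lit 0x380c2) (nat_lit 2) (by decide +kernel) (ClAll.succ (ClAll.succ ClAll.zero s385) n306)

def n384 : Cl (O (nat_lit 5)) (R (nat_lit 14353))
    (p (nat_lit 0x200014) (nat_lit 0) (p (nat_lit 0x200004) (nat_lit 0) (p (nat_lit 0xd1) (nat_lit 0) (p (nat_lit 0x109) (nat_lit 1) (p (nat_lit 0x101) (nat_lit 0) (p (nat_lit 0x119) (nat_lit 0) (p (nat_lit 0xc9) (nat_lit 0) (p (nat_lit 0x89) (nat_lit 1) (p (nat_lit 0x41) (nat_lit 0) (p (nat_lit 0x10a0b0a89089a) (nat_lit 0) (p (nat_lit 0x98a8a08881a) (nat_lit 0) (p (nat_lit 0x109088988079a) (nat_lit 0) (p (nat_lit 0x8880907871a) (nat_lit 0) (p (nat_lit 0x8000000000800080887068a) (nat_lit 0) (p (nat_lit 0x10888068602) (nat_lit 0) (p (nat_lit 0x807860582) (nat_lit 0) (p (nat_lit 0x10607058502) (nat_lit 0) (p (nat_lit 0x586850482) (nat_lit 0) (p (nat_lit 0x16000c) (nat_lit 0) (p (nat_lit 0x68612) (nat_lit 0) (p (nat_lit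 0x50592) (nat_lit 0) (p (nat_lit 0x40512) (nat_lit 0) (p (nat_lit 0x50312) (nat_lit 0) (p (nat_lit 0x38292) (nat_lit 0) (p (nat_lit 0x28212) (nat_lit 0) (p (nat_lit 0x38112) (nat_lit 0) (p (nat_lit 0x20092) (nat_lit 0) (p (nat_lit 0x10012) (nat_lit 0) pn)))))))))))))))))))))))))))) :=
  Cl.node (nat_lit 0x41) (nat_lit 2) (by decide +kernel) (ClAll.succ (ClAll.succ ClAll.zero n307) s407)

def n385 : Cl (O (nat_lit 5)) (R (nat_lit 14353))
    (p (nat_lit 0x380c2) (nat_lit 0) (p (nat_lit 0x444aa) (nat_lit 7) (p (nat_lit 0xd1) (nat_lit 1) (p (nat_lit 0x109) (nat_lit 1) (p (nat_lit 0x101) (nat_lit 0) (p (nat_lit 0x119) (nat_lit 0) (p (nat_lit 0xc9) (nat_lit 0) (p (nat_lit 0x89) (nat_lit 1) (p (nat_lit 0x41) (nat_lit 0) (p (nat_lit 0x10a0b0a89089a) (nat_lit 0) (p (nat_lit 0x98a8a08881a) (nat_lit 0) (p (nat_lit 0x109088988079a) (nat_lit 0) (p (nat_lit 0x8880907871a) (nat_lit 0)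 (p (nat_lit 0x8000000000800080887068a) (nat_lit 0) (p (nat_lit 0x10888068602) (nat_lit 0) (p (nat_lit 0x807860582) (nat_lit 0) (p (nat_lit 0x10607058502) (nat_lit 0) (p (nat_lit 0x586850482) (nat_lit 0) (p (nat_lit 0x16000c) (nat_lit 0) (p (nat_lit 0x68612) (nat_lit 0) (p (nat_lit 0x50592) (nat_lit 0) (p (nat_lit 0x40512) (nat_lit 0) (p (nat_lit 0x50312) (nat_lit 0) (p (nat_lit 0x38292) (nat_lit 0) (p (nat_lit 0x28212) (nat_lit 0) (p (nat_lit 0x38112) (nat_lit 0) (p (nat_lit 0x20092) (nat_lit 0) (p (nat_lit 0x10012) (nat_lit 0) pn)))))))))))))))))))))))))))) :=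
  Cl.node (nat_lit 0xb000c) (nat_lit 2) (by decide +kernel) (ClAll.succ (ClAll.succ ClAll.zero n308) n309)

def n386 : Cl (O (nat_lit 5)) (R (nat_lit 14353))
    (p (nat_lit 0x380c2) (nat_lit 1) (p (nat_lit 0x444aa) (nat_lit 7) (p (nat_lit 0xd1) (nat_lit 1) (p (nat_lit 0x109) (nat_lit 1) (p (nat_lit 0x101) (nat_lit 0) (p (nat_lit 0x119) (nat_lit 0) (p (nat_lit 0xc9) (nat_lit 0) (p (nat_lit 0x89) (nat_lit 1) (p (nat_lit 0x41) (nat_lit 0) (p (nat_lit 0x10a0b0a89089a) (nat_lit 0) (p (nat_lit 0x98a8a08881a) (nat_lit 0) (p (nat_lit 0x109088988079a) (nat_lit 0) (p (nat_lit 0x8880907871a) (nat_lit 0) (p (nat_lit 0x8000000000800080887068a) (nat_lit 0) (p (nat_lit 0x10888068602) (nat_lit 0) (p (nat_lit 0x807860582) (nat_lit 0) (p (nat_lit 0x10607058502) (nat_lit 0) (p (nat_lit 0x586850482) (nat_lit 0) (p (nat_lit 0x16000c) (nat_lit 0) (p (nat_lit 0x68612) (nat_lit 0) (p (nat_lit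 0x50592) (nat_lit 0) (p (nat_lit 0x40512) (nat_lit 0) (p (nat_lit 0x50312) (nat_lit 0) (p (nat_lit 0x38292) (nat_lit 0) (p (nat_lit 0x28212) (nat_lit 0) (p (nat_lit 0x38112) (nat_lit 0) (p (nat_lit 0x20092) (nat_lit 0) (p (nat_lit 0x10012) (nat_lit 0) pn)))))))))))))))))))))))))))) :=
  Cl.node (nat_lit 0xb000c) (nat_lit 2) (by decide +kernel) (ClAll.succ (ClAll.succ ClAll.zero n310) s445)

def n387 : Cl (O (nat_lit 5)) (R (nat_lit 14353))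
    (p (nat_lit 0x200014) (nat_lit 0) (p (nat_lit 0x200004) (nat_lit 0) (p (nat_lit 0xd1) (nat_lit 0) (p (nat_lit 0xc1) (nat_lit 0) (p (nat_lit 0x101) (nat_lit 1) (p (nat_lit 0x119) (nat_lit 0) (p (nat_lit 0xc9) (nat_lit 0) (p (nat_lit 0x89) (nat_lit 1) (p (nat_lit 0x41) (nat_lit 0) (p (nat_lit 0x10a0b0a89089a) (nat_lit 0) (p (nat_lit 0x98a8a08881a) (nat_lit 0) (p (nat_lit 0x109088988079a) (nat_lit 0) (p (nat_lit 0x8880907871a) (nat_lit 0) (p (nat_lit 0x8000000000800080887068a) (nat_lit 0) (p (nat_lit 0x10888068602) (nat_lit 0) (p (nat_lit 0x807860582) (nat_lit 0) (p (nat_lit 0x10607058502) (nat_lit 0) (p (nat_lit 0x586850482) (nat_lit 0) (p (nat_lit 0x16000c) (nat_lit 0) (p (nat_lit 0x68612) (nat_lit 0) (p (nat_lit 0x50592) (nat_lit 0) (p (nat_lit 0x40512) (nat_lit 0) (p (nat_lit 0x50312) (nat_lit 0) (p (nat_lit 0x38292) (nat_lit 0) (p (nat_lit 0x28212) (nat_lit 0) (p (nat_lit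 0x38112) (nat_lit 0) (p (nat_lit 0x20092) (nat_lit 0) (p (nat_lit 0x10012) (nat_lit 0) pn)))))))))))))))))))))))))))) :=
  Cl.node (nat_lit 0x109) (nat_lit 2) (by decide +kernel) (ClAll.succ (ClAll.succ ClAll.zero s450) n311)

def n388 : Cl (O (nat_lit 5)) (R (nat_lit 14353))
    (p (nat_lit 0x380c2) (nat_lit 0) (p (nat_lit 0x444aa) (nat_lit 7) (p (nat_lit 0xd1) (nat_lit 1) (p (nat_lit 0xc1) (nat_lit 0) (p (nat_lit 0x101) (nat_lit 1) (p (nat_lit 0x119) (nat_lit 0) (p (nat_lit 0xc9) (nat_lit 0) (p (nat_lit 0x89) (nat_lit 1) (p (nat_lit 0x41) (nat_lit 0) (p (nat_lit 0x10a0b0a89089a) (nat_lit 0) (p (nat_lit 0x98a8a08881a) (nat_lit 0) (p (nat_lit 0x109088988079a) (nat_lit 0) (p (nat_lit 0x8880907871a) (nat_lit 0) (p (nat_lit 0x8000000000800080887068a) (nat_lit 0) (p (nat_lit 0x10888068602) (nat_lit 0) (p (nat_lit 0x807860582) (nat_lit 0) (p (nat_lit 0x10607058502) (nat_lit 0)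 (p (nat_lit 0x586850482) (nat_lit 0) (p (nat_lit 0x16000c) (nat_lit 0) (p (nat_lit 0x68612) (nat_lit 0) (p (nat_lit 0x50592) (nat_lit 0) (p (nat_lit 0x40512) (nat_lit 0) (p (nat_lit 0x50312) (nat_lit 0) (p (nat_lit 0x38292) (nat_lit 0) (p (nat_lit 0x28212) (nat_lit 0) (p (nat_lit 0x38112) (nat_lit 0) (p (nat_lit 0x20092) (nat_lit 0) (p (nat_lit 0x10012) (nat_lit 0) pn)))))))))))))))))))))))))))) :=
  Cl.node (nat_lit 0xb000c) (nat_lit 2) (by decide +kernel) (ClAll.succ (ClAll.succ ClAll.zero s474) s475)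

def n389 : Cl (O (nat_lit 5)) (R (nat_lit 14353))
    (p (nat_lit 0x380c2) (nat_lit 0) (p (nat_lit 0x444aa) (nat_lit 7) (p (nat_lit 0x111) (nat_lit 1) (p (nat_lit 0xd1) (nat_lit 1) (p (nat_lit 0xc1) (nat_lit 0) (p (nat_lit 0x119) (nat_lit 1) (p (nat_lit 0xc9) (nat_lit 0) (p (nat_lit 0x89) (nat_lit 1) (p (nat_lit 0x41) (nat_lit 0) (p (nat_lit 0x10a0b0a89089a) (nat_lit 0) (p (nat_lit 0x98a8a08881a) (nat_lit 0) (p (nat_lit 0x109088988079a) (nat_lit 0) (p (nat_lit 0x8880907871a) (nat_lit 0) (p (nat_lit 0x8000000000800080887068a) (nat_lit 0) (p (nat_lit 0x10888068602) (nat_lit 0) (p (nat_lit 0x807860582) (nat_lit 0) (p (nat_lit 0x10607058502) (nat_lit 0) (p (nat_lit 0x586850482) (nat_lit 0) (p (nat_lit 0x16000c) (nat_lit 0) (p (nat_lit 0x68612) (nat_lit 0) (p (nat_lit 0x50592) (nat_lit 0) (p (nat_lit 0x40512) (nat_lit 0) (p (nat_lit 0x50312) (nat_lit 0) (p (nat_lit 0x38292)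 (nat_lit 0) (p (nat_lit 0x28212) (nat_lit 0) (p (nat_lit 0x38112) (nat_lit 0) (p (nat_lit 0x20092) (nat_lit 0) (p (nat_lit 0x10012) (nat_lit 0) pn)))))))))))))))))))))))))))) :=
  Cl.node (nat_lit 0xb000c) (nat_lit 2) (by decide +kernel) (ClAll.succ (ClAll.succ ClAll.zero n312) n313)

def n390 : Cl (O (nat_lit 5)) (R (nat_lit 14353))
    (p (nat_lit 0x380c2) (nat_lit 1) (p (nat_lit 0x444aa) (nat_lit 7) (p (nat_lit 0x111) (nat_lit 1) (p (nat_lit 0xd1) (nat_lit 1) (p (nat_lit 0xc1) (nat_lit 0) (p (nat_lit 0x119) (nat_lit 1) (p (nat_lit 0xc9) (nat_lit 0) (p (nat_lit 0x89) (nat_lit 1) (p (nat_lit 0x41) (nat_lit 0) (p (nat_lit 0x10a0b0a89089a) (nat_lit 0) (p (nat_lit 0x98a8a08881a) (nat_lit 0) (p (nat_lit 0x109088988079a) (nat_lit 0) (p (nat_lit 0x8880907871a) (nat_lit 0) (p (nat_lit 0x8000000000800080887068a) (nat_lit 0) (p (nat_lit 0x10888068602) (nat_lit 0) (p (nat_lit 0x807860582)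 (nat_lit 0) (p (nat_lit 0x10607058502) (nat_lit 0) (p (nat_lit 0x586850482) (nat_lit 0) (p (nat_lit 0x16000c) (nat_lit 0) (p (nat_lit 0x68612) (nat_lit 0) (p (nat_lit 0x50592) (nat_lit 0) (p (nat_lit 0x40512) (nat_lit 0) (p (nat_lit 0x50312) (nat_lit 0) (p (nat_lit 0x38292) (nat_lit 0) (p (nat_lit 0x28212) (nat_lit 0) (p (nat_lit 0x38112) (nat_lit 0) (p (nat_lit 0x20092) (nat_lit 0) (p (nat_lit 0x10012) (nat_lit 0) pn)))))))))))))))))))))))))))) :=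
  Cl.node (nat_lit 0xb000c) (nat_lit 2) (by decide +kernel) (ClAll.succ (ClAll.succ ClAll.zero n314) s506)

def n391 : Cl (O (nat_lit 5)) (R (nat_lit 14353))
    (p (nat_lit 0x380c2) (nat_lit 0) (p (nat_lit 0x444aa) (nat_lit 7) (p (nat_lit 0x111) (nat_lit 1) (p (nat_lit 0x101) (nat_lit 0) (p (nat_lit 0xc1) (nat_lit 1) (p (nat_lit 0x119) (nat_lit 1) (p (nat_lit 0xc9) (nat_lit 0) (p (nat_lit 0x89) (nat_lit 1) (p (nat_lit 0x41) (nat_lit 0) (p (nat_lit 0x10a0b0a89089a) (nat_lit 0) (p (nat_lit 0x98a8a08881a) (nat_lit 0) (p (nat_lit 0x109088988079a) (nat_lit 0) (p (nat_lit 0x8880907871a) (nat_lit 0) (p (nat_lit 0x8000000000800080887068a) (nat_lit 0) (p (nat_lit 0x10888068602) (nat_lit 0) (p (nat_lit 0x807860582) (nat_lit 0) (p (nat_lit 0x10607058502) (nat_lit 0) (p (nat_lit 0x586850482) (nat_lit 0) (p (nat_lit 0x16000c) (nat_lit 0) (p (nat_lit 0x68612) (nat_lit 0) (p (nat_lit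 0x50592) (nat_lit 0) (p (nat_lit 0x40512) (nat_lit 0) (p (nat_lit 0x50312) (nat_lit 0) (p (nat_lit 0x38292) (nat_lit 0) (p (nat_lit 0x28212) (nat_lit 0) (p (nat_lit 0x38112) (nat_lit 0) (p (nat_lit 0x20092) (nat_lit 0) (p (nat_lit 0x10012) (nat_lit 0) pn)))))))))))))))))))))))))))) :=
  Cl.node (nat_lit 0xb000c) (nat_lit 2) (by decide +kernel) (ClAll.succ (ClAll.succ ClAll.zero n315) s533)

def n392 : Cl (O (nat_lit 5)) (R (nat_lit 14353))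
    (p (nat_lit 0x380c2) (nat_lit 1) (p (nat_lit 0x444aa) (nat_lit 7) (p (nat_lit 0x111) (nat_lit 1) (p (nat_lit 0x101) (nat_lit 0) (p (nat_lit 0xc1) (nat_lit 1) (p (nat_lit 0x119) (nat_lit 1) (p (nat_lit 0xc9) (nat_lit 0) (p (nat_lit 0x89) (nat_lit 1) (p (nat_lit 0x41) (nat_lit 0) (p (nat_lit 0x10a0b0a89089a) (nat_lit 0) (p (nat_lit 0x98a8a08881a) (nat_lit 0) (p (nat_lit 0x109088988079a) (nat_lit 0) (p (nat_lit 0x8880907871a) (nat_lit 0) (p (nat_lit 0x8000000000800080887068a) (nat_lit 0) (p (nat_lit 0x10888068602) (nat_lit 0) (p (nat_lit 0x807860582) (nat_lit 0) (p (nat_lit 0x10607058502) (nat_lit 0) (p (nat_lit 0x586850482) (nat_lit 0) (p (nat_lit 0x16000c) (nat_lit 0) (p (nat_lit 0x68612) (nat_lit 0) (p (nat_lit 0x50592) (nat_lit 0) (p (nat_lit 0x40512) (nat_lit 0) (p (nat_lit 0x50312) (nat_lit 0) (p (nat_lit 0x38292) (nat_lit 0) (p (nat_lit 0x28212) (nat_lit 0) (p (nat_lit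 0x38112) (nat_lit 0) (p (nat_lit 0x20092) (nat_lit 0) (p (nat_lit 0x10012) (nat_lit 0) pn)))))))))))))))))))))))))))) :=
  Cl.node (nat_lit 0xb000c) (nat_lit 2) (by decide +kernel) (ClAll.succ (ClAll.succ ClAll.zero n316) s540)

def n393 : Cl (O (nat_lit 5)) (R (nat_lit 14353))
    (p (nat_lit 0x4c42a) (nat_lit 2) (p (nat_lit 0x111) (nat_lit 0) (p (nat_lit 0x89) (nat_lit 0) (p (nat_lit 0x109) (nat_lit 1) (p (nat_lit 0x101) (nat_lit 0) (p (nat_lit 0x119) (nat_lit 0) (p (nat_lit 0xd1) (nat_lit 0) (p (nat_lit 0x81) (nat_lit 0) (p (nat_lit 0x41) (nat_lit 1) (p (nat_lit 0x10a0b0a89089a) (nat_lit 0) (p (nat_lit 0x98a8a08881a) (nat_lit 0) (p (nat_lit 0x109088988079a) (nat_lit 0) (p (nat_lit 0x8880907871a) (nat_lit 0) (p (nat_lit 0x8000000000800080887068a) (nat_lit 0) (p (nat_lit 0x10888068602) (nat_lit 0) (p (nat_lit 0x807860582) (nat_lit 0) (p (nat_lit 0x10607058502) (nat_lit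 0) (p (nat_lit 0x586850482) (nat_lit 0) (p (nat_lit 0x16000c) (nat_lit 0) (p (nat_lit 0x68612) (nat_lit 0) (p (nat_lit 0x50592) (nat_lit 0) (p (nat_lit 0x40512) (nat_lit 0) (p (nat_lit 0x50312) (nat_lit 0) (p (nat_lit 0x38292) (nat_lit 0) (p (nat_lit 0x28212) (nat_lit 0) (p (nat_lit 0x38112) (nat_lit 0) (p (nat_lit 0x20092) (nat_lit 0) (p (nat_lit 0x10012) (nat_lit 0) pn)))))))))))))))))))))))))))) :=
  Cl.node (nat_lit 0x380c2) (nat_lit 1) (by decide +kernel) (ClAll.succ ClAll.zero n317)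

def n394 : Cl (O (nat_lit 5)) (R (nat_lit 14353))
    (p (nat_lit 0x4c42a) (nat_lit 2) (p (nat_lit 0x111) (nat_lit 1) (p (nat_lit 0x89) (nat_lit 0) (p (nat_lit 0x109) (nat_lit 1) (p (nat_lit 0x101) (nat_lit 0) (p (nat_lit 0x119) (nat_lit 0) (p (nat_lit 0xd1) (nat_lit 0) (p (nat_lit 0x81) (nat_lit 0) (p (nat_lit 0x41) (nat_lit 1) (p (nat_lit 0x10a0b0a89089a) (nat_lit 0) (p (nat_lit 0x98a8a08881a) (nat_lit 0) (p (nat_lit 0x109088988079a) (nat_lit 0) (p (nat_lit 0x8880907871a) (nat_lit 0) (p (nat_lit 0x8000000000800080887068a) (nat_lit 0) (p (nat_lit 0x10888068602) (nat_lit 0) (p (nat_lit 0x807860582) (nat_lit 0) (p (nat_lit 0x10607058502) (nat_lit 0) (p (nat_lit 0x586850482) (nat_lit 0) (p (nat_lit 0x16000c) (nat_lit 0) (p (nat_lit 0x68612) (nat_lit 0) (p (nat_lit 0x50592) (nat_lit 0) (p (nat_lit 0x40512) (nat_lit 0) (p (nat_lit 0x50312) (nat_lit 0) (p (nat_lit 0x38292) (nat_lit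 0) (p (nat_lit 0x28212) (nat_lit 0) (p (nat_lit 0x38112) (nat_lit 0) (p (nat_lit 0x20092) (nat_lit 0) (p (nat_lit 0x10012) (nat_lit 0) pn)))))))))))))))))))))))))))) :=
  Cl.node (nat_lit 0x380c2) (nat_lit 1) (by decide +kernel) (ClAll.succ ClAll.zero n318)

def n395 : Cl (O (nat_lit 5)) (R (nat_lit 14353))
    (p (nat_lit 0x4c42a) (nat_lit 2) (p (nat_lit 0xc9) (nat_lit 0) (p (nat_lit 0x89) (nat_lit 1) (p (nat_lit 0x109) (nat_lit 1) (p (nat_lit 0x101) (nat_lit 0) (p (nat_lit 0x119) (nat_lit 0) (p (nat_lit 0xd1) (nat_lit 0) (p (nat_lit 0x81) (nat_lit 0) (p (nat_lit 0x41) (nat_lit 1) (p (nat_lit 0x10a0b0a89089a) (nat_lit 0) (p (nat_lit 0x98a8a08881a) (nat_lit 0) (p (nat_lit 0x109088988079a) (nat_lit 0) (p (nat_lit 0x8880907871a) (nat_lit 0) (p (nat_lit 0x8000000000800080887068a) (nat_lit 0) (p (nat_lit 0x10888068602) (nat_lit 0) (p (nat_lit 0x807860582) (nat_lit 0) (p (nat_lit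 0x10607058502) (nat_lit 0) (p (nat_lit 0x586850482) (nat_lit 0) (p (nat_lit 0x16000c) (nat_lit 0) (p (nat_lit 0x68612) (nat_lit 0) (p (nat_lit 0x50592) (nat_lit 0) (p (nat_lit 0x40512) (nat_lit 0) (p (nat_lit 0x50312) (nat_lit 0) (p (nat_lit 0x38292) (nat_lit 0) (p (nat_lit 0x28212) (nat_lit 0) (p (nat_lit 0x38112) (nat_lit 0) (p (nat_lit 0x20092) (nat_lit 0) (p (nat_lit 0x10012) (nat_lit 0) pn)))))))))))))))))))))))))))) :=
  Cl.node (nat_lit 0x380c2) (nat_lit 1) (by decide +kernel) (ClAll.succ ClAll.zero n319)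

def n396 : Cl (O (nat_lit 5)) (R (nat_lit 14353))
    (p (nat_lit 0x380c2) (nat_lit 1) (p (nat_lit 0x3cc2a) (nat_lit 11) (p (nat_lit 0x89) (nat_lit 0) (p (nat_lit 0xc1) (nat_lit 0) (p (nat_lit 0x101) (nat_lit 1) (p (nat_lit 0x119) (nat_lit 0) (p (nat_lit 0xd1) (nat_lit 0) (p (nat_lit 0x81) (nat_lit 0) (p (nat_lit 0x41) (nat_lit 1) (p (nat_lit 0x10a0b0a89089a) (nat_lit 0) (p (nat_lit 0x98a8a08881a) (nat_lit 0) (p (nat_lit 0x109088988079a) (nat_lit 0) (p (nat_lit 0x8880907871a) (nat_lit 0) (p (nat_lit 0x8000000000800080887068a) (nat_lit 0) (p (nat_lit 0x10888068602) (nat_lit 0) (p (nat_lit 0x807860582) (nat_lit 0) (p (nat_lit 0x10607058502) (nat_lit 0) (p (nat_lit 0x586850482) (nat_lit 0) (p (nat_lit 0x16000c) (nat_lit 0) (p (nat_lit 0x68612) (nat_lit 0) (p (nat_lit 0x50592) (nat_lit 0) (p (nat_lit 0x40512) (nat_lit 0) (p (nat_lit 0x50312) (nat_lit 0) (p (nat_lit 0x38292)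 (nat_lit 0) (p (nat_lit 0x28212) (nat_lit 0) (p (nat_lit 0x38112) (nat_lit 0) (p (nat_lit 0x20092) (nat_lit 0) (p (nat_lit 0x10012) (nat_lit 0) pn)))))))))))))))))))))))))))) :=
  Cl.node (nat_lit 0xb000c) (nat_lit 2) (by decide +kernel) (ClAll.succ (ClAll.succ ClAll.zero s656) s657)

def n397 : Cl (O (nat_lit 5)) (R (nat_lit 14353))
    (p (nat_lit 0x4c42a) (nat_lit 2) (p (nat_lit 0xc9) (nat_lit 0) (p (nat_lit 0x89) (nat_lit 1) (p (nat_lit 0xc1) (nat_lit 0) (p (nat_lit 0x101) (nat_lit 1) (p (nat_lit 0x119) (nat_lit 0) (p (nat_lit 0xd1) (nat_lit 0) (p (nat_lit 0x81) (nat_lit 0) (p (nat_lit 0x41) (nat_lit 1) (p (nat_lit 0x10a0b0a89089a) (nat_lit 0) (p (nat_lit 0x98a8a08881a) (nat_lit 0) (p (nat_lit 0x109088988079a) (nat_lit 0) (p (nat_lit 0x8880907871a) (nat_lit 0) (p (nat_lit 0x8000000000800080887068a) (nat_lit 0) (p (nat_lit 0x10888068602) (nat_lit 0) (p (nat_lit 0x807860582)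 (nat_lit 0) (p (nat_lit 0x10607058502) (nat_lit 0) (p (nat_lit 0x586850482) (nat_lit 0) (p (nat_lit 0x16000c) (nat_lit 0) (p (nat_lit 0x68612) (nat_lit 0) (p (nat_lit 0x50592) (nat_lit 0) (p (nat_lit 0x40512) (nat_lit 0) (p (nat_lit 0x50312) (nat_lit 0) (p (nat_lit 0x38292) (nat_lit 0) (p (nat_lit 0x28212) (nat_lit 0) (p (nat_lit 0x38112) (nat_lit 0) (p (nat_lit 0x20092) (nat_lit 0) (p (nat_lit 0x10012) (nat_lit 0) pn)))))))))))))))))))))))))))) :=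
  Cl.node (nat_lit 0x380c2) (nat_lit 1) (by decide +kernel) (ClAll.succ ClAll.zero n320)

def n398 : Cl (O (nat_lit 5)) (R (nat_lit 14353))
    (p (nat_lit 0x4c42a) (nat_lit 2) (p (nat_lit 0xc9) (nat_lit 1) (p (nat_lit 0x89) (nat_lit 1) (p (nat_lit 0xc1) (nat_lit 0) (p (nat_lit 0x101) (nat_lit 1) (p (nat_lit 0x119) (nat_lit 0) (p (nat_lit 0xd1) (nat_lit 0) (p (nat_lit 0x81) (nat_lit 0) (p (nat_lit 0x41) (nat_lit 1) (p (nat_lit 0x10a0b0a89089a) (nat_lit 0) (p (nat_lit 0x98a8a08881a) (nat_lit 0) (p (nat_lit 0x109088988079a) (nat_lit 0) (p (nat_lit 0x8880907871a) (nat_lit 0) (p (nat_lit 0x8000000000800080887068a) (nat_lit 0) (p (nat_lit 0x10888068602) (nat_lit 0) (p (nat_lit 0x807860582) (nat_lit 0) (p (nat_lit 0x10607058502) (nat_lit 0) (p (nat_lit 0x586850482) (nat_lit 0) (p (nat_lit 0x16000c) (nat_lit 0) (p (nat_lit 0x68612) (nat_lit 0) (p (nat_lit 0x50592) (nat_lit 0) (p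 (nat_lit 0x40512) (nat_lit 0) (p (nat_lit 0x50312) (nat_lit 0) (p (nat_lit 0x38292) (nat_lit 0) (p (nat_lit 0x28212) (nat_lit 0) (p (nat_lit 0x38112) (nat_lit 0) (p (nat_lit 0x20092) (nat_lit 0) (p (nat_lit 0x10012) (nat_lit 0) pn)))))))))))))))))))))))))))) :=
  Cl.node (nat_lit 0x380c2) (nat_lit 1) (by decide +kernel) (ClAll.succ ClAll.zero n321)

def n399 : Cl (O (nat_lit 5)) (R (nat_lit 14353))
    (p (nat_lit 0x380c2) (nat_lit 0) (p (nat_lit 0x3c4aa) (nat_lit 7) (p (nat_lit 0x89) (nat_lit 1) (p (nat_lit 0xc1) (nat_lit 1) (p (nat_lit 0x101) (nat_lit 1) (p (nat_lit 0x119) (nat_lit 0) (p (nat_lit 0xd1) (nat_lit 0) (p (nat_lit 0x81) (nat_lit 0) (p (nat_lit 0x41) (nat_lit 1) (p (nat_lit 0x10a0b0a89089a) (nat_lit 0) (p (nat_lit 0x98a8a08881a) (nat_lit 0) (p (nat_lit 0x109088988079a) (nat_lit 0) (p (nat_lit 0x8880907871a) (nat_lit 0) (p (nat_lit 0x8000000000800080887068a)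 (nat_lit 0) (p (nat_lit 0x10888068602) (nat_lit 0) (p (nat_lit 0x807860582) (nat_lit 0) (p (nat_lit 0x10607058502) (nat_lit 0) (p (nat_lit 0x586850482) (nat_lit 0) (p (nat_lit 0x16000c) (nat_lit 0) (p (nat_lit 0x68612) (nat_lit 0) (p (nat_lit 0x50592) (nat_lit 0) (p (nat_lit 0x40512) (nat_lit 0) (p (nat_lit 0x50312) (nat_lit 0) (p (nat_lit 0x38292) (nat_lit 0) (p (nat_lit 0x28212) (nat_lit 0) (p (nat_lit 0x38112) (nat_lit 0) (p (nat_lit 0x20092) (nat_lit 0) (p (nat_lit 0x10012) (nat_lit 0) pn)))))))))))))))))))))))))))) :=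
  Cl.node (nat_lit 0xb000c) (nat_lit 2) (by decide +kernel) (ClAll.succ (ClAll.succ ClAll.zero s740) s741)

def n400 : Cl (O (nat_lit 5)) (R (nat_lit 14353))
    (p (nat_lit 0x380c2) (nat_lit 1) (p (nat_lit 0x3c4aa) (nat_lit 7) (p (nat_lit 0x89) (nat_lit 1) (p (nat_lit 0xc1) (nat_lit 1) (p (nat_lit 0x101) (nat_lit 1) (p (nat_lit 0x119) (nat_lit 0) (p (nat_lit 0xd1) (nat_lit 0) (p (nat_lit 0x81) (nat_lit 0) (p (nat_lit 0x41) (nat_lit 1) (p (nat_lit 0x10a0b0a89089a) (nat_lit 0) (p (nat_lit 0x98a8a08881a) (nat_lit 0) (p (nat_lit 0x109088988079a) (nat_lit 0) (p (nat_lit 0x8880907871a) (nat_lit 0) (p (nat_lit 0x8000000000800080887068a) (nat_lit 0) (p (nat_lit 0x10888068602) (nat_lit 0) (p (nat_lit 0x807860582) (nat_lit 0) (p (nat_lit 0x10607058502) (nat_lit 0) (p (nat_lit 0x586850482) (nat_lit 0) (p (nat_lit 0x16000c) (nat_lit 0) (p (nat_lit 0x68612) (nat_lit 0) (p (nat_lit 0x50592)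 (nat_lit 0) (p (nat_lit 0x40512) (nat_lit 0) (p (nat_lit 0x50312) (nat_lit 0) (p (nat_lit 0x38292) (nat_lit 0) (p (nat_lit 0x28212) (nat_lit 0) (p (nat_lit 0x38112) (nat_lit 0) (p (nat_lit 0x20092) (nat_lit 0) (p (nat_lit 0x10012) (nat_lit 0) pn)))))))))))))))))))))))))))) :=
  Cl.node (nat_lit 0xb000c) (nat_lit 2) (by decide +kernel) (ClAll.succ (ClAll.succ ClAll.zero n322) s748)

def n401 : Cl (O (nat_lit 5)) (R (nat_lit 14353))
    (p (nat_lit 0x380c2) (nat_lit 1) (p (nat_lit 0x3c4aa) (nat_lit 10) (p (nat_lit 0x89) (nat_lit 1) (p (nat_lit 0xc1) (nat_lit 1) (p (nat_lit 0x101) (nat_lit 1) (p (nat_lit 0x119) (nat_lit 0) (p (nat_lit 0xd1) (nat_lit 0) (p (nat_lit 0x81) (nat_lit 0) (p (nat_lit 0x41) (nat_lit 1) (p (nat_lit 0x10a0b0a89089a) (nat_lit 0) (p (nat_lit 0x98a8a08881a) (nat_lit 0) (p (nat_lit 0x109088988079a) (nat_lit 0) (p (nat_lit 0x8880907871a) (nat_lit 0) (p (nat_lit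 0x8000000000800080887068a) (nat_lit 0) (p (nat_lit 0x10888068602) (nat_lit 0) (p (nat_lit 0x807860582) (nat_lit 0) (p (nat_lit 0x10607058502) (nat_lit 0) (p (nat_lit 0x586850482) (nat_lit 0) (p (nat_lit 0x16000c) (nat_lit 0) (p (nat_lit 0x68612) (nat_lit 0) (p (nat_lit 0x50592) (nat_lit 0) (p (nat_lit 0x40512) (nat_lit 0) (p (nat_lit 0x50312) (nat_lit 0) (p (nat_lit 0x38292) (nat_lit 0) (p (nat_lit 0x28212) (nat_lit 0) (p (nat_lit 0x38112) (nat_lit 0) (p (nat_lit 0x20092) (nat_lit 0) (p (nat_lit 0x10012) (nat_lit 0) pn)))))))))))))))))))))))))))) :=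
  Cl.node (nat_lit 0xb000c) (nat_lit 2) (by decide +kernel) (ClAll.succ (ClAll.succ ClAll.zero s752) s753)

def n402 : Cl (O (nat_lit 5)) (R (nat_lit 14353))
    (p (nat_lit 0x44c2a) (nat_lit 0) (p (nat_lit 0x109) (nat_lit 0) (p (nat_lit 0x89) (nat_lit 1) (p (nat_lit 0xc9) (nat_lit 1) (p (nat_lit 0xc1) (nat_lit 0) (p (nat_lit 0x119) (nat_lit 1) (p (nat_lit 0xd1) (nat_lit 0) (p (nat_lit 0x81) (nat_lit 0) (p (nat_lit 0x41) (nat_lit 1) (p (nat_lit 0x10a0b0a89089a) (nat_lit 0) (p (nat_lit 0x98a8a08881a) (nat_lit 0) (p (nat_lit 0x109088988079a) (nat_lit 0) (p (nat_lit 0x8880907871a) (nat_lit 0) (p (nat_lit 0x8000000000800080887068a) (nat_lit 0) (p (nat_lit 0x10888068602) (nat_lit 0) (p (nat_lit 0x807860582) (nat_lit 0) (p (nat_lit 0x10607058502) (nat_lit 0) (p (nat_lit 0x586850482) (nat_lit 0) (p (nat_lit 0x16000c) (nat_lit 0) (p (nat_lit 0x68612) (nat_lit 0) (p (nat_lit 0x50592)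 (nat_lit 0) (p (nat_lit 0x40512) (nat_lit 0) (p (nat_lit 0x50312) (nat_lit 0) (p (nat_lit 0x38292) (nat_lit 0) (p (nat_lit 0x28212) (nat_lit 0) (p (nat_lit 0x38112) (nat_lit 0) (p (nat_lit 0x20092) (nat_lit 0) (p (nat_lit 0x10012) (nat_lit 0) pn)))))))))))))))))))))))))))) :=
  Cl.node (nat_lit 0x380c2) (nat_lit 1) (by decide +kernel) (ClAll.succ ClAll.zero n323)

def n403 : Cl (O (nat_lit 5)) (R (nat_lit 14353))
    (p (nat_lit 0x44c2a) (nat_lit 1) (p (nat_lit 0x109) (nat_lit 0) (p (nat_lit 0x89) (nat_lit 1) (p (nat_lit 0xc9) (nat_lit 1) (p (nat_lit 0xc1) (nat_lit 0) (p (nat_lit 0x119) (nat_lit 1) (p (nat_lit 0xd1) (nat_lit 0) (p (nat_lit 0x81) (nat_lit 0) (p (nat_lit 0x41) (nat_lit 1) (p (nat_lit 0x10a0b0a89089a) (nat_lit 0) (p (nat_lit 0x98a8a08881a) (nat_lit 0) (p (nat_lit 0x109088988079a) (nat_lit 0) (p (nat_lit 0x8880907871a) (nat_lit 0) (p (nat_lit 0x8000000000800080887068a)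 (nat_lit 0) (p (nat_lit 0x10888068602) (nat_lit 0) (p (nat_lit 0x807860582) (nat_lit 0) (p (nat_lit 0x10607058502) (nat_lit 0) (p (nat_lit 0x586850482) (nat_lit 0) (p (nat_lit 0x16000c) (nat_lit 0) (p (nat_lit 0x68612) (nat_lit 0) (p (nat_lit 0x50592) (nat_lit 0) (p (nat_lit 0x40512) (nat_lit 0) (p (nat_lit 0x50312) (nat_lit 0) (p (nat_lit 0x38292) (nat_lit 0) (p (nat_lit 0x28212) (nat_lit 0) (p (nat_lit 0x38112) (nat_lit 0) (p (nat_lit 0x20092) (nat_lit 0) (p (nat_lit 0x10012) (nat_lit 0) pn)))))))))))))))))))))))))))) :=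
  Cl.node (nat_lit 0x380c2) (nat_lit 2) (by decide +kernel) (ClAll.succ (ClAll.succ ClAll.zero n324) s795)

def n404 : Cl (O (nat_lit 5)) (R (nat_lit 14353))
    (p (nat_lit 0x44c2a) (nat_lit 2) (p (nat_lit 0x109) (nat_lit 0) (p (nat_lit 0x89) (nat_lit 1) (p (nat_lit 0xc9) (nat_lit 1) (p (nat_lit 0xc1) (nat_lit 0) (p (nat_lit 0x119) (nat_lit 1) (p (nat_lit 0xd1) (nat_lit 0) (p (nat_lit 0x81) (nat_lit 0) (p (nat_lit 0x41) (nat_lit 1) (p (nat_lit 0x10a0b0a89089a) (nat_lit 0) (p (nat_lit 0x98a8a08881a) (nat_lit 0) (p (nat_lit 0x109088988079a) (nat_lit 0) (p (nat_lit 0x8880907871a) (nat_lit 0) (p (nat_lit 0x8000000000800080887068a) (nat_lit 0) (p (nat_lit 0x10888068602) (nat_lit 0) (p (nat_lit 0x807860582) (nat_lit 0) (p (nat_lit 0x10607058502) (nat_lit 0) (p (nat_lit 0x586850482) (nat_lit 0) (p (nat_lit 0x16000c) (nat_lit 0) (p (nat_lit 0x68612) (nat_lit 0) (p (nat_lit 0x50592)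 (nat_lit 0) (p (nat_lit 0x40512) (nat_lit 0) (p (nat_lit 0x50312) (nat_lit 0) (p (nat_lit 0x38292) (nat_lit 0) (p (nat_lit 0x28212) (nat_lit 0) (p (nat_lit 0x38112) (nat_lit 0) (p (nat_lit 0x20092) (nat_lit 0) (p (nat_lit 0x10012) (nat_lit 0) pn)))))))))))))))))))))))))))) :=
  Cl.node (nat_lit 0x380c2) (nat_lit 1) (by decide +kernel) (ClAll.succ ClAll.zero n325)

def n405 : Cl (O (nat_lit 5)) (R (nat_lit 14353))
    (p (nat_lit 0x3c4aa) (nat_lit 7) (p (nat_lit 0x109) (nat_lit 1) (p (nat_lit 0x89) (nat_lit 1) (p (nat_lit 0xc9) (nat_lit 1) (p (nat_lit 0xc1) (nat_lit 0) (p (nat_lit 0x119) (nat_lit 1) (p (nat_lit 0xd1) (nat_lit 0) (p (nat_lit 0x81) (nat_lit 0) (p (nat_lit 0x41) (nat_lit 1) (p (nat_lit 0x10a0b0a89089a) (nat_lit 0) (p (nat_lit 0x98a8a08881a) (nat_lit 0) (p (nat_lit 0x109088988079a) (nat_lit 0) (p (nat_lit 0x8880907871a) (nat_lit 0) (p (nat_lit 0x8000000000800080887068a)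 (nat_lit 0) (p (nat_lit 0x10888068602) (nat_lit 0) (p (nat_lit 0x807860582) (nat_lit 0) (p (nat_lit 0x10607058502) (nat_lit 0) (p (nat_lit 0x586850482) (nat_lit 0) (p (nat_lit 0x16000c) (nat_lit 0) (p (nat_lit 0x68612) (nat_lit 0) (p (nat_lit 0x50592) (nat_lit 0) (p (nat_lit 0x40512) (nat_lit 0) (p (nat_lit 0x50312) (nat_lit 0) (p (nat_lit 0x38292) (nat_lit 0) (p (nat_lit 0x28212) (nat_lit 0) (p (nat_lit 0x38112) (nat_lit 0) (p (nat_lit 0x20092) (nat_lit 0) (p (nat_lit 0x10012) (nat_lit 0) pn)))))))))))))))))))))))))))) :=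
  Cl.node (nat_lit 0x380c2) (nat_lit 2) (by decide +kernel) (ClAll.succ (ClAll.succ ClAll.zero s814) n326)

def n406 : Cl (O (nat_lit 5)) (R (nat_lit 14353))
    (p (nat_lit 0x3c4aa) (nat_lit 10) (p (nat_lit 0x109) (nat_lit 1) (p (nat_lit 0x89) (nat_lit 1) (p (nat_lit 0xc9) (nat_lit 1) (p (nat_lit 0xc1) (nat_lit 0) (p (nat_lit 0x119) (nat_lit 1) (p (nat_lit 0xd1) (nat_lit 0) (p (nat_lit 0x81) (nat_lit 0) (p (nat_lit 0x41) (nat_lit 1) (p (nat_lit 0x10a0b0a89089a) (nat_lit 0) (p (nat_lit 0x98a8a08881a) (nat_lit 0) (p (nat_lit 0x109088988079a) (nat_lit 0) (p (nat_lit 0x8880907871a) (nat_lit 0) (p (nat_lit 0x8000000000800080887068a) (nat_lit 0) (p (nat_lit 0x10888068602) (nat_lit 0) (p (nat_lit 0x807860582) (nat_lit 0) (p (nat_lit 0x10607058502) (nat_lit 0) (p (nat_lit 0x586850482) (nat_lit 0) (p (nat_lit 0x16000c) (nat_lit 0) (p (nat_lit 0x68612) (nat_lit 0) (p (nat_lit 0x50592)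 (nat_lit 0) (p (nat_lit 0x40512) (nat_lit 0) (p (nat_lit 0x50312) (nat_lit 0) (p (nat_lit 0x38292) (nat_lit 0) (p (nat_lit 0x28212) (nat_lit 0) (p (nat_lit 0x38112) (nat_lit 0) (p (nat_lit 0x20092) (nat_lit 0) (p (nat_lit 0x10012) (nat_lit 0) pn)))))))))))))))))))))))))))) :=
  Cl.node (nat_lit 0x380c2) (nat_lit 2) (by decide +kernel) (ClAll.succ (ClAll.succ ClAll.zero s819) n327)

def n407 : Cl (O (nat_lit 5)) (R (nat_lit 14353))
    (p (nat_lit 0x44c2a) (nat_lit 0) (p (nat_lit 0x109) (nat_lit 0) (p (nat_lit 0x89) (nat_lit 1) (p (nat_lit 0x101) (nat_lit 0) (p (nat_lit 0xc1) (nat_lit 1) (p (nat_lit 0x119) (nat_lit 1) (p (nat_lit 0xd1) (nat_lit 0) (p (nat_lit 0x81) (nat_lit 0) (p (nat_lit 0x41) (nat_lit 1) (p (nat_lit 0x10a0b0a89089a) (nat_lit 0) (p (nat_lit 0x98a8a08881a) (nat_lit 0) (p (nat_lit 0x109088988079a) (nat_lit 0) (p (nat_lit 0x8880907871a) (nat_lit 0) (p (nat_lit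 0x8000000000800080887068a) (nat_lit 0) (p (nat_lit 0x10888068602) (nat_lit 0) (p (nat_lit 0x807860582) (nat_lit 0) (p (nat_lit 0x10607058502) (nat_lit 0) (p (nat_lit 0x586850482) (nat_lit 0) (p (nat_lit 0x16000c) (nat_lit 0) (p (nat_lit 0x68612) (nat_lit 0) (p (nat_lit 0x50592) (nat_lit 0) (p (nat_lit 0x40512) (nat_lit 0) (p (nat_lit 0x50312) (nat_lit 0) (p (nat_lit 0x38292) (nat_lit 0) (p (nat_lit 0x28212) (nat_lit 0) (p (nat_lit 0x38112) (nat_lit 0) (p (nat_lit 0x20092) (nat_lit 0) (p (nat_lit 0x10012) (nat_lit 0) pn)))))))))))))))))))))))))))) :=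
  Cl.node (nat_lit 0x380c2) (nat_lit 1) (by decide +kernel) (ClAll.succ ClAll.zero n328)

def n408 : Cl (O (nat_lit 5)) (R (nat_lit 14353))
    (p (nat_lit 0x44c2a) (nat_lit 1) (p (nat_lit 0x109) (nat_lit 0) (p (nat_lit 0x89) (nat_lit 1) (p (nat_lit 0x101) (nat_lit 0) (p (nat_lit 0xc1) (nat_lit 1) (p (nat_lit 0x119) (nat_lit 1) (p (nat_lit 0xd1) (nat_lit 0) (p (nat_lit 0x81) (nat_lit 0) (p (nat_lit 0x41) (nat_lit 1) (p (nat_lit 0x10a0b0a89089a) (nat_lit 0) (p (nat_lit 0x98a8a08881a) (nat_lit 0) (p (nat_lit 0x109088988079a) (nat_lit 0) (p (nat_lit 0x8880907871a) (nat_lit 0) (p (nat_lit 0x8000000000800080887068a) (nat_lit 0) (p (nat_lit 0x10888068602) (nat_lit 0) (p (nat_lit 0x807860582) (nat_lit 0) (p (nat_lit 0x10607058502) (nat_lit 0) (p (nat_lit 0x586850482) (nat_lit 0) (p (nat_lit 0x16000c) (nat_lit 0) (p (nat_lit 0x68612) (nat_lit 0) (p (nat_lit 0x50592) (nat_lit 0)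 (p (nat_lit 0x40512) (nat_lit 0) (p (nat_lit 0x50312) (nat_lit 0) (p (nat_lit 0x38292) (nat_lit 0) (p (nat_lit 0x28212) (nat_lit 0) (p (nat_lit 0x38112) (nat_lit 0) (p (nat_lit 0x20092) (nat_lit 0) (p (nat_lit 0x10012) (nat_lit 0) pn)))))))))))))))))))))))))))) :=
  Cl.node (nat_lit 0x380c2) (nat_lit 2) (by decide +kernel) (ClAll.succ (ClAll.succ ClAll.zero n329) s849)

def n409 : Cl (O (nat_lit 5)) (R (nat_lit 14353))
    (p (nat_lit 0x44c2a) (nat_lit 2) (p (nat_lit 0x109) (nat_lit 0) (p (nat_lit 0x89) (nat_lit 1) (p (nat_lit 0x101) (nat_lit 0) (p (nat_lit 0xc1) (nat_lit 1) (p (nat_lit 0x119) (nat_lit 1) (p (nat_lit 0xd1) (nat_lit 0) (p (nat_lit 0x81) (nat_lit 0) (p (nat_lit 0x41) (nat_lit 1) (p (nat_lit 0x10a0b0a89089a) (nat_lit 0) (p (nat_lit 0x98a8a08881a) (nat_lit 0) (p (nat_lit 0x109088988079a) (nat_lit 0) (p (nat_lit 0x8880907871a) (nat_lit 0) (p (nat_lit 0x8000000000800080887068a)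 (nat_lit 0) (p (nat_lit 0x10888068602) (nat_lit 0) (p (nat_lit 0x807860582) (nat_lit 0) (p (nat_lit 0x10607058502) (nat_lit 0) (p (nat_lit 0x586850482) (nat_lit 0) (p (nat_lit 0x16000c) (nat_lit 0) (p (nat_lit 0x68612) (nat_lit 0) (p (nat_lit 0x50592) (nat_lit 0) (p (nat_lit 0x40512) (nat_lit 0) (p (nat_lit 0x50312) (nat_lit 0) (p (nat_lit 0x38292) (nat_lit 0) (p (nat_lit 0x28212) (nat_lit 0) (p (nat_lit 0x38112) (nat_lit 0) (p (nat_lit 0x20092) (nat_lit 0) (p (nat_lit 0x10012) (nat_lit 0) pn)))))))))))))))))))))))))))) :=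
  Cl.node (nat_lit 0x380c2) (nat_lit 1) (by decide +kernel) (ClAll.succ ClAll.zero n330)

def n410 : Cl (O (nat_lit 5)) (R (nat_lit 14353))
    (p (nat_lit 0x3c4aa) (nat_lit 7) (p (nat_lit 0x109) (nat_lit 1) (p (nat_lit 0x89) (nat_lit 1) (p (nat_lit 0x101) (nat_lit 0) (p (nat_lit 0xc1) (nat_lit 1) (p (nat_lit 0x119) (nat_lit 1) (p (nat_lit 0xd1) (nat_lit 0) (p (nat_lit 0x81) (nat_lit 0) (p (nat_lit 0x41) (nat_lit 1) (p (nat_lit 0x10a0b0a89089a) (nat_lit 0) (p (nat_lit 0x98a8a08881a) (nat_lit 0) (p (nat_lit 0x109088988079a) (nat_lit 0) (p (nat_lit 0x8880907871a) (nat_lit 0) (p (nat_lit 0x8000000000800080887068a) (nat_lit 0) (p (nat_lit 0x10888068602) (nat_lit 0) (p (nat_lit 0x807860582) (nat_lit 0) (p (nat_lit 0x10607058502) (nat_lit 0) (p (nat_lit 0x586850482) (nat_lit 0) (p (nat_lit 0x16000c) (nat_lit 0) (p (nat_lit 0x68612) (nat_lit 0) (p (nat_lit 0x50592) (nat_lit 0)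 (p (nat_lit 0x40512) (nat_lit 0) (p (nat_lit 0x50312) (nat_lit 0) (p (nat_lit 0x38292) (nat_lit 0) (p (nat_lit 0x28212) (nat_lit 0) (p (nat_lit 0x38112) (nat_lit 0) (p (nat_lit 0x20092) (nat_lit 0) (p (nat_lit 0x10012) (nat_lit 0) pn)))))))))))))))))))))))))))) :=
  Cl.node (nat_lit 0x380c2) (nat_lit 2) (by decide +kernel) (ClAll.succ (ClAll.succ ClAll.zero n331) n332)

def n411 : Cl (O (nat_lit 5)) (R (nat_lit 14353))
    (p (nat_lit 0x3c4aa) (nat_lit 10) (p (nat_lit 0x109) (nat_lit 1) (p (nat_lit 0x89) (nat_lit 1) (p (nat_lit 0x101) (nat_lit 0) (p (nat_lit 0xc1) (nat_lit 1) (p (nat_lit 0x119) (nat_lit 1) (p (nat_lit 0xd1) (nat_lit 0) (p (nat_lit 0x81) (nat_lit 0) (p (nat_lit 0x41) (nat_lit 1) (p (nat_lit 0x10a0b0a89089a) (nat_lit 0) (p (nat_lit 0x98a8a08881a) (nat_lit 0) (p (nat_lit 0x109088988079a) (nat_lit 0) (p (nat_lit 0x8880907871a) (nat_lit 0) (p (nat_lit 0x8000000000800080887068a)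 (nat_lit 0) (p (nat_lit 0x10888068602) (nat_lit 0) (p (nat_lit 0x807860582) (nat_lit 0) (p (nat_lit 0x10607058502) (nat_lit 0) (p (nat_lit 0x586850482) (nat_lit 0) (p (nat_lit 0x16000c) (nat_lit 0) (p (nat_lit 0x68612) (nat_lit 0) (p (nat_lit 0x50592) (nat_lit 0) (p (nat_lit 0x40512) (nat_lit 0) (p (nat_lit 0x50312) (nat_lit 0) (p (nat_lit 0x38292) (nat_lit 0) (p (nat_lit 0x28212) (nat_lit 0) (p (nat_lit 0x38112) (nat_lit 0) (p (nat_lit 0x20092) (nat_lit 0) (p (nat_lit 0x10012) (nat_lit 0) pn)))))))))))))))))))))))))))) :=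
  Cl.node (nat_lit 0x380c2) (nat_lit 2) (by decide +kernel) (ClAll.succ (ClAll.succ ClAll.zero s885) n333)

def n412 : Cl (O (nat_lit 5)) (R (nat_lit 14353))
    (p (nat_lit 0x380c2) (nat_lit 1) (p (nat_lit 0x3cc2a) (nat_lit 11) (p (nat_lit 0x89) (nat_lit 0) (p (nat_lit 0x101) (nat_lit 1) (p (nat_lit 0xc1) (nat_lit 1) (p (nat_lit 0x119) (nat_lit 1) (p (nat_lit 0xd1) (nat_lit 0) (p (nat_lit 0x81) (nat_lit 0) (p (nat_lit 0x41) (nat_lit 1) (p (nat_lit 0x10a0b0a89089a) (nat_lit 0) (p (nat_lit 0x98a8a08881a) (nat_lit 0) (p (nat_lit 0x109088988079a) (nat_lit 0) (p (nat_lit 0x8880907871a) (nat_lit 0) (p (nat_lit 0x8000000000800080887068a) (nat_lit 0) (p (nat_lit 0x10888068602) (nat_lit 0) (p (nat_lit 0x807860582) (nat_lit 0) (p (nat_lit 0x10607058502) (nat_lit 0) (p (nat_lit 0x586850482) (nat_lit 0) (p (nat_lit 0x16000c) (nat_lit 0) (p (nat_lit 0x68612) (nat_lit 0) (p (nat_lit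 0x50592) (nat_lit 0) (p (nat_lit 0x40512) (nat_lit 0) (p (nat_lit 0x50312) (nat_lit 0) (p (nat_lit 0x38292) (nat_lit 0) (p (nat_lit 0x28212) (nat_lit 0) (p (nat_lit 0x38112) (nat_lit 0) (p (nat_lit 0x20092) (nat_lit 0) (p (nat_lit 0x10012) (nat_lit 0) pn)))))))))))))))))))))))))))) :=
  Cl.node (nat_lit 0xb000c) (nat_lit 2) (by decide +kernel) (ClAll.succ (ClAll.succ ClAll.zero s906) s907)

def n413 : Cl (O (nat_lit 5)) (R (nat_lit 14353))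
    (p (nat_lit 0x380c2) (nat_lit 0) (p (nat_lit 0x3c4aa) (nat_lit 7) (p (nat_lit 0x89) (nat_lit 1) (p (nat_lit 0x101) (nat_lit 1) (p (nat_lit 0xc1) (nat_lit 1) (p (nat_lit 0x119) (nat_lit 1) (p (nat_lit 0xd1) (nat_lit 0) (p (nat_lit 0x81) (nat_lit 0) (p (nat_lit 0x41) (nat_lit 1) (p (nat_lit 0x10a0b0a89089a) (nat_lit 0) (p (nat_lit 0x98a8a08881a) (nat_lit 0) (p (nat_lit 0x109088988079a) (nat_lit 0) (p (nat_lit 0x8880907871a) (nat_lit 0) (p (nat_lit 0x8000000000800080887068a) (nat_lit 0) (p (nat_lit 0x10888068602) (nat_lit 0) (p (nat_lit 0x807860582) (nat_lit 0) (p (nat_lit 0x10607058502) (nat_lit 0) (p (nat_lit 0x586850482) (nat_lit 0) (p (nat_lit 0x16000c) (nat_lit 0) (p (nat_lit 0x68612) (nat_lit 0) (p (nat_lit 0x50592) (nat_lit 0) (p (nat_lit 0x40512) (nat_lit 0) (p (nat_lit 0x50312) (nat_lit 0) (p (nat_lit 0x38292) (nat_lit 0) (p (nat_lit 0x28212) (nat_lit 0) (p (nat_lit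 0x38112) (nat_lit 0) (p (nat_lit 0x20092) (nat_lit 0) (p (nat_lit 0x10012) (nat_lit 0) pn)))))))))))))))))))))))))))) :=
  Cl.node (nat_lit 0xb000c) (nat_lit 2) (by decide +kernel) (ClAll.succ (ClAll.succ ClAll.zero n334) s919)

def n414 : Cl (O (nat_lit 5)) (R (nat_lit 14353))
    (p (nat_lit 0x380c2) (nat_lit 1) (p (nat_lit 0x3c4aa) (nat_lit 7) (p (nat_lit 0x89) (nat_lit 1) (p (nat_lit 0x101) (nat_lit 1) (p (nat_lit 0xc1) (nat_lit 1) (p (nat_lit 0x119) (nat_lit 1) (p (nat_lit 0xd1) (nat_lit 0) (p (nat_lit 0x81) (nat_lit 0) (p (nat_lit 0x41) (nat_lit 1) (p (nat_lit 0x10a0b0a89089a) (nat_lit 0) (p (nat_lit 0x98a8a08881a) (nat_lit 0) (p (nat_lit 0x109088988079a) (nat_lit 0) (p (nat_lit 0x8880907871a) (nat_lit 0) (p (nat_lit 0x8000000000800080887068a) (nat_lit 0) (p (nat_lit 0x10888068602) (nat_lit 0) (p (nat_lit 0x807860582) (nat_lit 0) (p (nat_lit 0x10607058502) (nat_lit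 0) (p (nat_lit 0x586850482) (nat_lit 0) (p (nat_lit 0x16000c) (nat_lit 0) (p (nat_lit 0x68612) (nat_lit 0) (p (nat_lit 0x50592) (nat_lit 0) (p (nat_lit 0x40512) (nat_lit 0) (p (nat_lit 0x50312) (nat_lit 0) (p (nat_lit 0x38292) (nat_lit 0) (p (nat_lit 0x28212) (nat_lit 0) (p (nat_lit 0x38112) (nat_lit 0) (p (nat_lit 0x20092) (nat_lit 0) (p (nat_lit 0x10012) (nat_lit 0) pn)))))))))))))))))))))))))))) :=
  Cl.node (nat_lit 0x200004) (nat_lit 2) (by decide +kernel) (ClAll.succ (ClAll.succ ClAll.zero n335) s929)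

def n415 : Cl (O (nat_lit 5)) (R (nat_lit 14353))
    (p (nat_lit 0x380c2) (nat_lit 0) (p (nat_lit 0x3c4aa) (nat_lit 9) (p (nat_lit 0x89) (nat_lit 1) (p (nat_lit 0x101) (nat_lit 1) (p (nat_lit 0xc1) (nat_lit 1) (p (nat_lit 0x119) (nat_lit 1) (p (nat_lit 0xd1) (nat_lit 0) (p (nat_lit 0x81) (nat_lit 0) (p (nat_lit 0x41) (nat_lit 1) (p (nat_lit 0x10a0b0a89089a) (nat_lit 0) (p (nat_lit 0x98a8a08881a) (nat_lit 0) (p (nat_lit 0x109088988079a) (nat_lit 0) (p (nat_lit 0x8880907871a) (nat_lit 0) (p (nat_lit 0x8000000000800080887068a) (nat_lit 0) (p (nat_lit 0x10888068602) (nat_lit 0) (p (nat_lit 0x807860582) (nat_lit 0) (p (nat_lit 0x10607058502) (nat_lit 0) (p (nat_lit 0x586850482) (nat_lit 0) (p (nat_lit 0x16000c) (nat_lit 0) (p (nat_lit 0x68612) (nat_lit 0) (p (nat_lit 0x50592) (nat_lit 0) (p (nat_lit 0x40512) (nat_lit 0) (p (nat_lit 0x50312) (nat_lit 0) (p (nat_lit 0x38292)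 (nat_lit 0) (p (nat_lit 0x28212) (nat_lit 0) (p (nat_lit 0x38112) (nat_lit 0) (p (nat_lit 0x20092) (nat_lit 0) (p (nat_lit 0x10012) (nat_lit 0) pn)))))))))))))))))))))))))))) :=
  Cl.node (nat_lit 0xb000c) (nat_lit 2) (by decide +kernel) (ClAll.succ (ClAll.succ ClAll.zero n336) s934)

def n416 : Cl (O (nat_lit 5)) (R (nat_lit 14353))
    (p (nat_lit 0x380c2) (nat_lit 1) (p (nat_lit 0x3c4aa) (nat_lit 10) (p (nat_lit 0x89) (nat_lit 1) (p (nat_lit 0x101) (nat_lit 1) (p (nat_lit 0xc1) (nat_lit 1) (p (nat_lit 0x119) (nat_lit 1) (p (nat_lit 0xd1) (nat_lit 0) (p (nat_lit 0x81) (nat_lit 0) (p (nat_lit 0x41) (nat_lit 1) (p (nat_lit 0x10a0b0a89089a) (nat_lit 0) (p (nat_lit 0x98a8a08881a) (nat_lit 0) (p (nat_lit 0x109088988079a) (nat_lit 0) (p (nat_lit 0x8880907871a) (nat_lit 0) (p (nat_lit 0x8000000000800080887068a) (nat_lit 0) (p (nat_lit 0x10888068602) (nat_lit 0) (p (nat_lit 0x807860582)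 (nat_lit 0) (p (nat_lit 0x10607058502) (nat_lit 0) (p (nat_lit 0x586850482) (nat_lit 0) (p (nat_lit 0x16000c) (nat_lit 0) (p (nat_lit 0x68612) (nat_lit 0) (p (nat_lit 0x50592) (nat_lit 0) (p (nat_lit 0x40512) (nat_lit 0) (p (nat_lit 0x50312) (nat_lit 0) (p (nat_lit 0x38292) (nat_lit 0) (p (nat_lit 0x28212) (nat_lit 0) (p (nat_lit 0x38112) (nat_lit 0) (p (nat_lit 0x20092) (nat_lit 0) (p (nat_lit 0x10012) (nat_lit 0) pn)))))))))))))))))))))))))))) :=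
  Cl.node (nat_lit 0xb000c) (nat_lit 2) (by decide +kernel) (ClAll.succ (ClAll.succ ClAll.zero n337) n338)

def n417 : Cl (O (nat_lit 5)) (R (nat_lit 14353))
    (p (nat_lit 0x119) (nat_lit 0) (p (nat_lit 0xc9) (nat_lit 0) (p (nat_lit 0x89) (nat_lit 1) (p (nat_lit 0x109) (nat_lit 1) (p (nat_lit 0x101) (nat_lit 0) (p (nat_lit 0x111) (nat_lit 0) (p (nat_lit 0xd1) (nat_lit 1) (p (nat_lit 0x81) (nat_lit 0) (p (nat_lit 0x41) (nat_lit 1) (p (nat_lit 0x10a0b0a89089a) (nat_lit 0) (p (nat_lit 0x98a8a08881a) (nat_lit 0) (p (nat_lit 0x109088988079a) (nat_lit 0) (p (nat_lit 0x8880907871a) (nat_lit 0) (p (nat_lit 0x8000000000800080887068a) (nat_lit 0) (p (nat_lit 0x10888068602) (nat_lit 0) (p (nat_lit 0x807860582) (nat_lit 0) (p (nat_lit 0x10607058502) (nat_lit 0) (p (nat_lit 0x586850482) (nat_lit 0) (p (nat_lit 0x16000c) (nat_lit 0) (p (nat_lit 0x68612) (nat_lit 0) (p (nat_lit 0x50592)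 (nat_lit 0) (p (nat_lit 0x40512) (nat_lit 0) (p (nat_lit 0x50312) (nat_lit 0) (p (nat_lit 0x38292) (nat_lit 0) (p (nat_lit 0x28212) (nat_lit 0) (p (nat_lit 0x38112) (nat_lit 0) (p (nat_lit 0x20092) (nat_lit 0) (p (nat_lit 0x10012) (nat_lit 0) pn)))))))))))))))))))))))))))) :=
  Cl.node (nat_lit 0x4c42a) (nat_lit 12) (by decide +kernel) (ClAll.succ (ClAll.succ (ClAll.succ (ClAll.succ (ClAll.succ (ClAll.succ (ClAll.succ (ClAll.succ (ClAll.succ (ClAll.succ (ClAll.succ (ClAll.succ ClAll.zero s958) s959) n339) s972) s973) s974) s975) s976) s977) s978) s979) s980)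

def n418 : Cl (O (nat_lit 5)) (R (nat_lit 14353))
    (p (nat_lit 0x119) (nat_lit 1) (p (nat_lit 0xc9) (nat_lit 0) (p (nat_lit 0x89) (nat_lit 1) (p (nat_lit 0x109) (nat_lit 1) (p (nat_lit 0x101) (nat_lit 0) (p (nat_lit 0x111) (nat_lit 0) (p (nat_lit 0xd1) (nat_lit 1) (p (nat_lit 0x81) (nat_lit 0) (p (nat_lit 0x41) (nat_lit 1) (p (nat_lit 0x10a0b0a89089a) (nat_lit 0) (p (nat_lit 0x98a8a08881a) (nat_lit 0) (p (nat_lit 0x109088988079a) (nat_lit 0) (p (nat_lit 0x8880907871a) (nat_lit 0) (p (nat_lit 0x8000000000800080887068a) (nat_lit 0) (p (nat_lit 0x10888068602) (nat_lit 0) (p (nat_lit 0x807860582) (nat_lit 0) (p (nat_lit 0x10607058502) (nat_lit 0) (p (nat_lit 0x586850482) (nat_lit 0) (p (nat_lit 0x16000c) (nat_lit 0) (p (nat_lit 0x68612) (nat_lit 0) (p (nat_lit 0x50592) (nat_lit 0) (p (nat_lit 0x40512) (nat_lit 0) (p (nat_lit 0x50312) (nat_lit 0) (p (nat_lit 0x38292) (nat_lit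 0) (p (nat_lit 0x28212) (nat_lit 0) (p (nat_lit 0x38112) (nat_lit 0) (p (nat_lit 0x20092) (nat_lit 0) (p (nat_lit 0x10012) (nat_lit 0) pn)))))))))))))))))))))))))))) :=
  Cl.node (nat_lit 0x4c42a) (nat_lit 12) (by decide +kernel) (ClAll.succ (ClAll.succ (ClAll.succ (ClAll.succ (ClAll.succ (ClAll.succ (ClAll.succ (ClAll.succ (ClAll.succ (ClAll.succ (ClAll.succ (ClAll.succ ClAll.zero s981) s982) n340) s995) s996) s997) s998) s999) s1000) s1001) s1002) s1003)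

def n419 : Cl (O (nat_lit 5)) (R (nat_lit 14353))
    (p (nat_lit 0xc9) (nat_lit 1) (p (nat_lit 0x380c2) (nat_lit 0) (p (nat_lit 0x3cc2a) (nat_lit 0) (p (nat_lit 0x89) (nat_lit 0) (p (nat_lit 0x101) (nat_lit 1) (p (nat_lit 0x111) (nat_lit 0) (p (nat_lit 0xd1) (nat_lit 1) (p (nat_lit 0x81) (nat_lit 0) (p (nat_lit 0x41) (nat_lit 1) (p (nat_lit 0x10a0b0a89089a) (nat_lit 0) (p (nat_lit 0x98a8a08881a) (nat_lit 0) (p (nat_lit 0x109088988079a) (nat_lit 0) (p (nat_lit 0x8880907871a) (nat_lit 0) (p (nat_lit 0x8000000000800080887068a) (nat_lit 0) (p (nat_lit 0x10888068602) (nat_lit 0) (p (nat_lit 0x807860582) (nat_lit 0) (p (nat_lit 0x10607058502) (nat_lit 0) (p (nat_lit 0x586850482) (nat_lit 0) (p (nat_lit 0x16000c) (nat_lit 0) (p (nat_lit 0x68612) (nat_lit 0) (p (nat_lit 0x50592) (nat_lit 0) (p (nat_lit 0x40512) (nat_lit 0) (p (nat_lit 0x50312) (nat_lit 0) (p (nat_lit 0x38292)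 (nat_lit 0) (p (nat_lit 0x28212) (nat_lit 0) (p (nat_lit 0x38112) (nat_lit 0) (p (nat_lit 0x20092) (nat_lit 0) (p (nat_lit 0x10012) (nat_lit 0) pn)))))))))))))))))))))))))))) :=
  Cl.node (nat_lit 0x89) (nat_lit 2) (by decide +kernel) (ClAll.succ (ClAll.succ ClAll.zero s1017) n341)

def n420 : Cl (O (nat_lit 5)) (R (nat_lit 14353))
    (p (nat_lit 0xc9) (nat_lit 1) (p (nat_lit 0x380c2) (nat_lit 0) (p (nat_lit 0x3cc2a) (nat_lit 1) (p (nat_lit 0x89) (nat_lit 0) (p (nat_lit 0x101) (nat_lit 1) (p (nat_lit 0x111) (nat_lit 0) (p (nat_lit 0xd1) (nat_lit 1) (p (nat_lit 0x81) (nat_lit 0) (p (nat_lit 0x41) (nat_lit 1) (p (nat_lit 0x10a0b0a89089a) (nat_lit 0) (p (nat_lit 0x98a8a08881a) (nat_lit 0) (p (nat_lit 0x109088988079a) (nat_lit 0) (p (nat_lit 0x8880907871a) (nat_lit 0) (p (nat_lit 0x8000000000800080887068a) (nat_lit 0) (p (nat_lit 0x10888068602) (nat_lit 0) (p (nat_lit 0x807860582)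 (nat_lit 0) (p (nat_lit 0x10607058502) (nat_lit 0) (p (nat_lit 0x586850482) (nat_lit 0) (p (nat_lit 0x16000c) (nat_lit 0) (p (nat_lit 0x68612) (nat_lit 0) (p (nat_lit 0x50592) (nat_lit 0) (p (nat_lit 0x40512) (nat_lit 0) (p (nat_lit 0x50312) (nat_lit 0) (p (nat_lit 0x38292) (nat_lit 0) (p (nat_lit 0x28212) (nat_lit 0) (p (nat_lit 0x38112) (nat_lit 0) (p (nat_lit 0x20092) (nat_lit 0) (p (nat_lit 0x10012) (nat_lit 0) pn)))))))))))))))))))))))))))) :=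
  Cl.node (nat_lit 0x89) (nat_lit 2) (by decide +kernel) (ClAll.succ (ClAll.succ ClAll.zero s1032) n342)

def n421 : Cl (O (nat_lit 5)) (R (nat_lit 14353))
    (p (nat_lit 0x380c2) (nat_lit 0) (p (nat_lit 0x3cc2a) (nat_lit 0) (p (nat_lit 0xc9) (nat_lit 0) (p (nat_lit 0x89) (nat_lit 1) (p (nat_lit 0x101) (nat_lit 1) (p (nat_lit 0x111) (nat_lit 0) (p (nat_lit 0xd1) (nat_lit 1) (p (nat_lit 0x81) (nat_lit 0) (p (nat_lit 0x41) (nat_lit 1) (p (nat_lit 0x10a0b0a89089a) (nat_lit 0) (p (nat_lit 0x98a8a08881a) (nat_lit 0) (p (nat_lit 0x109088988079a) (nat_lit 0) (p (nat_lit 0x8880907871a) (nat_lit 0) (p (nat_lit 0x8000000000800080887068a) (nat_lit 0) (p (nat_lit 0x10888068602) (nat_lit 0) (p (nat_lit 0x807860582) (nat_lit 0) (p (nat_lit 0x10607058502) (nat_lit 0) (p (nat_lit 0x586850482) (nat_lit 0) (p (nat_lit 0x16000c) (nat_lit 0) (p (nat_lit 0x68612) (nat_lit 0) (p (nat_lit 0x50592)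 (nat_lit 0) (p (nat_lit 0x40512) (nat_lit 0) (p (nat_lit 0x50312) (nat_lit 0) (p (nat_lit 0x38292) (nat_lit 0) (p (nat_lit 0x28212) (nat_lit 0) (p (nat_lit 0x38112) (nat_lit 0) (p (nat_lit 0x20092) (nat_lit 0) (p (nat_lit 0x10012) (nat_lit 0) pn)))))))))))))))))))))))))))) :=
  Cl.node (nat_lit 0xb000c) (nat_lit 2) (by decide +kernel) (ClAll.succ (ClAll.succ ClAll.zero n343) s1060)

def n422 : Cl (O (nat_lit 5)) (R (nat_lit 14353))
    (p (nat_lit 0x380c2) (nat_lit 0) (p (nat_lit 0x3cc2a) (nat_lit 1) (p (nat_lit 0xc9) (nat_lit 0) (p (nat_lit 0x89) (nat_lit 1) (p (nat_lit 0x101) (nat_lit 1) (p (nat_lit 0x111) (nat_lit 0) (p (nat_lit 0xd1) (nat_lit 1) (p (nat_lit 0x81) (nat_lit 0) (p (nat_lit 0x41) (nat_lit 1) (p (nat_lit 0x10a0b0a89089a) (nat_lit 0) (p (nat_lit 0x98a8a08881a) (nat_lit 0) (p (nat_lit 0x109088988079a) (nat_lit 0) (p (nat_lit 0x8880907871a) (nat_lit 0) (p (nat_lit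 0x8000000000800080887068a) (nat_lit 0) (p (nat_lit 0x10888068602) (nat_lit 0) (p (nat_lit 0x807860582) (nat_lit 0) (p (nat_lit 0x10607058502) (nat_lit 0) (p (nat_lit 0x586850482) (nat_lit 0) (p (nat_lit 0x16000c) (nat_lit 0) (p (nat_lit 0x68612) (nat_lit 0) (p (nat_lit 0x50592) (nat_lit 0) (p (nat_lit 0x40512) (nat_lit 0) (p (nat_lit 0x50312) (nat_lit 0) (p (nat_lit 0x38292) (nat_lit 0) (p (nat_lit 0x28212) (nat_lit 0) (p (nat_lit 0x38112) (nat_lit 0) (p (nat_lit 0x20092) (nat_lit 0) (p (nat_lit 0x10012) (nat_lit 0) pn)))))))))))))))))))))))))))) :=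
  Cl.node (nat_lit 0xd1) (nat_lit 2) (by decide +kernel) (ClAll.succ (ClAll.succ ClAll.zero s1061) s1062)

def n423 : Cl (O (nat_lit 5)) (R (nat_lit 14353))
    (p (nat_lit 0x380c2) (nat_lit 0) (p (nat_lit 0x3cc2a) (nat_lit 10) (p (nat_lit 0xc9) (nat_lit 0) (p (nat_lit 0x89) (nat_lit 1) (p (nat_lit 0x101) (nat_lit 1) (p (nat_lit 0x111) (nat_lit 0) (p (nat_lit 0xd1) (nat_lit 1) (p (nat_lit 0x81) (nat_lit 0) (p (nat_lit 0x41) (nat_lit 1) (p (nat_lit 0x10a0b0a89089a) (nat_lit 0) (p (nat_lit 0x98a8a08881a) (nat_lit 0) (p (nat_lit 0x109088988079a) (nat_lit 0) (p (nat_lit 0x8880907871a) (nat_lit 0) (p (nat_lit 0x8000000000800080887068a) (nat_lit 0) (p (nat_lit 0x10888068602) (nat_lit 0) (p (nat_lit 0x807860582) (nat_lit 0) (p (nat_lit 0x10607058502) (nat_lit 0) (p (nat_lit 0x586850482) (nat_lit 0) (p (nat_lit 0x16000c) (nat_lit 0) (p (nat_lit 0x68612) (nat_lit 0) (p (nat_lit 0x50592)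 (nat_lit 0) (p (nat_lit 0x40512) (nat_lit 0) (p (nat_lit 0x50312) (nat_lit 0) (p (nat_lit 0x38292) (nat_lit 0) (p (nat_lit 0x28212) (nat_lit 0) (p (nat_lit 0x38112) (nat_lit 0) (p (nat_lit 0x20092) (nat_lit 0) (p (nat_lit 0x10012) (nat_lit 0) pn)))))))))))))))))))))))))))) :=
  Cl.node (nat_lit 0xb000c) (nat_lit 2) (by decide +kernel) (ClAll.succ (ClAll.succ ClAll.zero n344) s1074)

def n424 : Cl (O (nat_lit 5)) (R (nat_lit 14353))
    (p (nat_lit 0x380c2) (nat_lit 1) (p (nat_lit 0x3c4aa) (nat_lit 7) (p (nat_lit 0xc9) (nat_lit 1) (p (nat_lit 0x89) (nat_lit 1) (p (nat_lit 0x101) (nat_lit 1) (p (nat_lit 0x111) (nat_lit 0) (p (nat_lit 0xd1) (nat_lit 1) (p (nat_lit 0x81) (nat_lit 0) (p (nat_lit 0x41) (nat_lit 1) (p (nat_lit 0x10a0b0a89089a) (nat_lit 0) (p (nat_lit 0x98a8a08881a) (nat_lit 0) (p (nat_lit 0x109088988079a) (nat_lit 0) (p (nat_lit 0x8880907871a) (nat_lit 0) (p (nat_lit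 0x8000000000800080887068a) (nat_lit 0) (p (nat_lit 0x10888068602) (nat_lit 0) (p (nat_lit 0x807860582) (nat_lit 0) (p (nat_lit 0x10607058502) (nat_lit 0) (p (nat_lit 0x586850482) (nat_lit 0) (p (nat_lit 0x16000c) (nat_lit 0) (p (nat_lit 0x68612) (nat_lit 0) (p (nat_lit 0x50592) (nat_lit 0) (p (nat_lit 0x40512) (nat_lit 0) (p (nat_lit 0x50312) (nat_lit 0) (p (nat_lit 0x38292) (nat_lit 0) (p (nat_lit 0x28212) (nat_lit 0) (p (nat_lit 0x38112) (nat_lit 0) (p (nat_lit 0x20092) (nat_lit 0) (p (nat_lit 0x10012) (nat_lit 0) pn)))))))))))))))))))))))))))) :=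
  Cl.node (nat_lit 0xb000c) (nat_lit 2) (by decide +kernel) (ClAll.succ (ClAll.succ ClAll.zero s1085) s1086)

def n425 : Cl (O (nat_lit 5)) (R (nat_lit 14353))
    (p (nat_lit 0x380c2) (nat_lit 0) (p (nat_lit 0x3cc2a) (nat_lit 0) (p (nat_lit 0x109) (nat_lit 0) (p (nat_lit 0xc9) (nat_lit 1) (p (nat_lit 0x89) (nat_lit 1) (p (nat_lit 0x111) (nat_lit 1) (p (nat_lit 0xd1) (nat_lit 1) (p (nat_lit 0x81) (nat_lit 0) (p (nat_lit 0x41) (nat_lit 1) (p (nat_lit 0x10a0b0a89089a) (nat_lit 0) (p (nat_lit 0x98a8a08881a) (nat_lit 0) (p (nat_lit 0x109088988079a) (nat_lit 0) (p (nat_lit 0x8880907871a) (nat_lit 0) (p (nat_lit 0x8000000000800080887068a) (nat_lit 0) (p (nat_lit 0x10888068602) (nat_lit 0) (p (nat_lit 0x807860582) (nat_lit 0) (p (nat_lit 0x10607058502) (nat_lit 0) (p (nat_lit 0x586850482) (nat_lit 0) (p (nat_lit 0x16000c) (nat_lit 0) (p (nat_lit 0x68612) (nat_lit 0) (p (nat_lit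 0x50592) (nat_lit 0) (p (nat_lit 0x40512) (nat_lit 0) (p (nat_lit 0x50312) (nat_lit 0) (p (nat_lit 0x38292) (nat_lit 0) (p (nat_lit 0x28212) (nat_lit 0) (p (nat_lit 0x38112) (nat_lit 0) (p (nat_lit 0x20092) (nat_lit 0) (p (nat_lit 0x10012) (nat_lit 0) pn)))))))))))))))))))))))))))) :=
  Cl.node (nat_lit 0xb000c) (nat_lit 2) (by decide +kernel) (ClAll.succ (ClAll.succ ClAll.zero n345) s1097)

def n426 : Cl (O (nat_lit 5)) (R (nat_lit 14353))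
    (p (nat_lit 0x3c4aa) (nat_lit 7) (p (nat_lit 0xd1) (nat_lit 1) (p (nat_lit 0x111) (nat_lit 1) (p (nat_lit 0x109) (nat_lit 0) (p (nat_lit 0x101) (nat_lit 0) (p (nat_lit 0x119) (nat_lit 0) (p (nat_lit 0xc1) (nat_lit 0) (p (nat_lit 0x81) (nat_lit 1) (p (nat_lit 0x41) (nat_lit 1) (p (nat_lit 0x10a0b0a89089a) (nat_lit 0) (p (nat_lit 0x98a8a08881a) (nat_lit 0) (p (nat_lit 0x109088988079a) (nat_lit 0) (p (nat_lit 0x8880907871a) (nat_lit 0) (p (nat_lit 0x8000000000800080887068a) (nat_lit 0) (p (nat_lit 0x10888068602) (nat_lit 0) (p (nat_lit 0x807860582) (nat_lit 0) (p (nat_lit 0x10607058502) (nat_lit 0) (p (nat_lit 0x586850482) (nat_lit 0) (p (nat_lit 0x16000c) (nat_lit 0) (p (nat_lit 0x68612) (nat_lit 0) (p (nat_lit 0x50592) (nat_lit 0) (p (nat_lit 0x40512) (nat_lit 0) (p (nat_lit 0x50312) (nat_lit 0) (p (nat_lit 0x38292) (nat_lit 0) (p (nat_lit 0x28212) (nat_lit 0) (p (nat_lit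 0x38112) (nat_lit 0) (p (nat_lit 0x20092) (nat_lit 0) (p (nat_lit 0x10012) (nat_lit 0) pn)))))))))))))))))))))))))))) :=
  Cl.node (nat_lit 0x380c2) (nat_lit 2) (by decide +kernel) (ClAll.succ (ClAll.succ ClAll.zero n346) n347)

def n427 : Cl (O (nat_lit 5)) (R (nat_lit 14353))
    (p (nat_lit 0x3c4aa) (nat_lit 10) (p (nat_lit 0xd1) (nat_lit 1) (p (nat_lit 0x111) (nat_lit 1) (p (nat_lit 0x109) (nat_lit 0) (p (nat_lit 0x101) (nat_lit 0) (p (nat_lit 0x119) (nat_lit 0) (p (nat_lit 0xc1) (nat_lit 0) (p (nat_lit 0x81) (nat_lit 1) (p (nat_lit 0x41) (nat_lit 1) (p (nat_lit 0x10a0b0a89089a) (nat_lit 0) (p (nat_lit 0x98a8a08881a) (nat_lit 0) (p (nat_lit 0x109088988079a) (nat_lit 0) (p (nat_lit 0x8880907871a) (nat_lit 0) (p (nat_lit 0x8000000000800080887068a) (nat_lit 0) (p (nat_lit 0x10888068602) (nat_lit 0) (p (nat_lit 0x807860582) (nat_lit 0) (p (nat_lit 0x10607058502) (nat_lit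 0) (p (nat_lit 0x586850482) (nat_lit 0) (p (nat_lit 0x16000c) (nat_lit 0) (p (nat_lit 0x68612) (nat_lit 0) (p (nat_lit 0x50592) (nat_lit 0) (p (nat_lit 0x40512) (nat_lit 0) (p (nat_lit 0x50312) (nat_lit 0) (p (nat_lit 0x38292) (nat_lit 0) (p (nat_lit 0x28212) (nat_lit 0) (p (nat_lit 0x38112) (nat_lit 0) (p (nat_lit 0x20092) (nat_lit 0) (p (nat_lit 0x10012) (nat_lit 0) pn)))))))))))))))))))))))))))) :=
  Cl.node (nat_lit 0x380c2) (nat_lit 2) (by decide +kernel) (ClAll.succ (ClAll.succ ClAll.zero s1172) n348)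

def n428 : Cl (O (nat_lit 5)) (R (nat_lit 14353))
    (p (nat_lit 0x3c4aa) (nat_lit 7) (p (nat_lit 0xd1) (nat_lit 1) (p (nat_lit 0xc9) (nat_lit 0) (p (nat_lit 0x109) (nat_lit 1) (p (nat_lit 0x101) (nat_lit 0) (p (nat_lit 0x119) (nat_lit 0) (p (nat_lit 0xc1) (nat_lit 0) (p (nat_lit 0x81) (nat_lit 1) (p (nat_lit 0x41) (nat_lit 1) (p (nat_lit 0x10a0b0a89089a) (nat_lit 0) (p (nat_lit 0x98a8a08881a) (nat_lit 0) (p (nat_lit 0x109088988079a) (nat_lit 0) (p (nat_lit 0x8880907871a) (nat_lit 0) (p (nat_lit 0x8000000000800080887068a) (nat_lit 0) (p (nat_lit 0x10888068602) (nat_lit 0) (p (nat_lit 0x807860582) (nat_lit 0) (p (nat_lit 0x10607058502) (nat_lit 0) (p (nat_lit 0x586850482) (nat_lit 0) (p (nat_lit 0x16000c) (nat_lit 0) (p (nat_lit 0x68612) (nat_lit 0) (p (nat_lit 0x50592) (nat_lit 0) (p (nat_lit 0x40512) (nat_lit 0) (p (nat_lit 0x50312) (nat_lit 0) (p (nat_lit 0x38292) (nat_lit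 0) (p (nat_lit 0x28212) (nat_lit 0) (p (nat_lit 0x38112) (nat_lit 0) (p (nat_lit 0x20092) (nat_lit 0) (p (nat_lit 0x10012) (nat_lit 0) pn)))))))))))))))))))))))))))) :=
  Cl.node (nat_lit 0x380c2) (nat_lit 2) (by decide +kernel) (ClAll.succ (ClAll.succ ClAll.zero n349) n350)

def n429 : Cl (O (nat_lit 5)) (R (nat_lit 14353))
    (p (nat_lit 0x380c2) (nat_lit 0) (p (nat_lit 0x44c2a) (nat_lit 0) (p (nat_lit 0xd1) (nat_lit 0) (p (nat_lit 0xc9) (nat_lit 0) (p (nat_lit 0x101) (nat_lit 1) (p (nat_lit 0x119) (nat_lit 0) (p (nat_lit 0xc1) (nat_lit 0) (p (nat_lit 0x81) (nat_lit 1) (p (nat_lit 0x41) (nat_lit 1) (p (nat_lit 0x10a0b0a89089a) (nat_lit 0) (p (nat_lit 0x98a8a08881a) (nat_lit 0) (p (nat_lit 0x109088988079a) (nat_lit 0) (p (nat_lit 0x8880907871a) (nat_lit 0) (p (nat_lit 0x8000000000800080887068a) (nat_lit 0) (p (nat_lit 0x10888068602) (nat_lit 0) (p (nat_lit 0x807860582)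 (nat_lit 0) (p (nat_lit 0x10607058502) (nat_lit 0) (p (nat_lit 0x586850482) (nat_lit 0) (p (nat_lit 0x16000c) (nat_lit 0) (p (nat_lit 0x68612) (nat_lit 0) (p (nat_lit 0x50592) (nat_lit 0) (p (nat_lit 0x40512) (nat_lit 0) (p (nat_lit 0x50312) (nat_lit 0) (p (nat_lit 0x38292) (nat_lit 0) (p (nat_lit 0x28212) (nat_lit 0) (p (nat_lit 0x38112) (nat_lit 0) (p (nat_lit 0x20092) (nat_lit 0) (p (nat_lit 0x10012) (nat_lit 0) pn)))))))))))))))))))))))))))) :=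
  Cl.node (nat_lit 0xc9) (nat_lit 2) (by decide +kernel) (ClAll.succ (ClAll.succ ClAll.zero s1209) n351)

def n430 : Cl (O (nat_lit 5)) (R (nat_lit 14353))
    (p (nat_lit 0x380c2) (nat_lit 0) (p (nat_lit 0x44c2a) (nat_lit 1) (p (nat_lit 0xd1) (nat_lit 0) (p (nat_lit 0xc9) (nat_lit 0) (p (nat_lit 0x101) (nat_lit 1) (p (nat_lit 0x119) (nat_lit 0) (p (nat_lit 0xc1) (nat_lit 0) (p (nat_lit 0x81) (nat_lit 1) (p (nat_lit 0x41) (nat_lit 1) (p (nat_lit 0x10a0b0a89089a) (nat_lit 0) (p (nat_lit 0x98a8a08881a) (nat_lit 0) (p (nat_lit 0x109088988079a) (nat_lit 0) (p (nat_lit 0x8880907871a) (nat_lit 0) (p (nat_lit 0x8000000000800080887068a) (nat_lit 0) (p (nat_lit 0x10888068602) (nat_lit 0) (p (nat_lit 0x807860582) (nat_lit 0) (p (nat_lit 0x10607058502) (nat_lit 0) (p (nat_lit 0x586850482) (nat_lit 0) (p (nat_lit 0x16000c) (nat_lit 0) (p (nat_lit 0x68612) (nat_lit 0) (p (nat_lit 0x50592)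 (nat_lit 0) (p (nat_lit 0x40512) (nat_lit 0) (p (nat_lit 0x50312) (nat_lit 0) (p (nat_lit 0x38292) (nat_lit 0) (p (nat_lit 0x28212) (nat_lit 0) (p (nat_lit 0x38112) (nat_lit 0) (p (nat_lit 0x20092) (nat_lit 0) (p (nat_lit 0x10012) (nat_lit 0) pn)))))))))))))))))))))))))))) :=
  Cl.node (nat_lit 0xc9) (nat_lit 2) (by decide +kernel) (ClAll.succ (ClAll.succ ClAll.zero s1226) n352)

def n431 : Cl (O (nat_lit 5)) (R (nat_lit 14353))
    (p (nat_lit 0x380c2) (nat_lit 0) (p (nat_lit 0x3c4aa) (nat_lit 7) (p (nat_lit 0xd1) (nat_lit 1) (p (nat_lit 0xc9) (nat_lit 0) (p (nat_lit 0x101) (nat_lit 1) (p (nat_lit 0x119) (nat_lit 0) (p (nat_lit 0xc1) (nat_lit 0) (p (nat_lit 0x81) (nat_lit 1) (p (nat_lit 0x41) (nat_lit 1) (p (nat_lit 0x10a0b0a89089a) (nat_lit 0) (p (nat_lit 0x98a8a08881a) (nat_lit 0) (p (nat_lit 0x109088988079a) (nat_lit 0) (p (nat_lit 0x8880907871a) (nat_lit 0) (p (nat_lit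 0x8000000000800080887068a) (nat_lit 0) (p (nat_lit 0x10888068602) (nat_lit 0) (p (nat_lit 0x807860582) (nat_lit 0) (p (nat_lit 0x10607058502) (nat_lit 0) (p (nat_lit 0x586850482) (nat_lit 0) (p (nat_lit 0x16000c) (nat_lit 0) (p (nat_lit 0x68612) (nat_lit 0) (p (nat_lit 0x50592) (nat_lit 0) (p (nat_lit 0x40512) (nat_lit 0) (p (nat_lit 0x50312) (nat_lit 0) (p (nat_lit 0x38292) (nat_lit 0) (p (nat_lit 0x28212) (nat_lit 0) (p (nat_lit 0x38112) (nat_lit 0) (p (nat_lit 0x20092) (nat_lit 0) (p (nat_lit 0x10012) (nat_lit 0) pn)))))))))))))))))))))))))))) :=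
  Cl.node (nat_lit 0xb000c) (nat_lit 2) (by decide +kernel) (ClAll.succ (ClAll.succ ClAll.zero n353) s1253)

def n432 : Cl (O (nat_lit 5)) (R (nat_lit 14353))
    (p (nat_lit 0x380c2) (nat_lit 1) (p (nat_lit 0x3c4aa) (nat_lit 7) (p (nat_lit 0xd1) (nat_lit 1) (p (nat_lit 0xc9) (nat_lit 0) (p (nat_lit 0x101) (nat_lit 1) (p (nat_lit 0x119) (nat_lit 0) (p (nat_lit 0xc1) (nat_lit 0) (p (nat_lit 0x81) (nat_lit 1) (p (nat_lit 0x41) (nat_lit 1) (p (nat_lit 0x10a0b0a89089a) (nat_lit 0) (p (nat_lit 0x98a8a08881a) (nat_lit 0) (p (nat_lit 0x109088988079a) (nat_lit 0) (p (nat_lit 0x8880907871a) (nat_lit 0) (p (nat_lit 0x8000000000800080887068a) (nat_lit 0) (p (nat_lit 0x10888068602) (nat_lit 0) (p (nat_lit 0x807860582) (nat_lit 0) (p (nat_lit 0x10607058502) (nat_lit 0) (p (nat_lit 0x586850482) (nat_lit 0) (p (nat_lit 0x16000c) (nat_lit 0) (p (nat_lit 0x68612) (nat_lit 0) (p (nat_lit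 0x50592) (nat_lit 0) (p (nat_lit 0x40512) (nat_lit 0) (p (nat_lit 0x50312) (nat_lit 0) (p (nat_lit 0x38292) (nat_lit 0) (p (nat_lit 0x28212) (nat_lit 0) (p (nat_lit 0x38112) (nat_lit 0) (p (nat_lit 0x20092) (nat_lit 0) (p (nat_lit 0x10012) (nat_lit 0) pn)))))))))))))))))))))))))))) :=
  Cl.node (nat_lit 0xb000c) (nat_lit 2) (by decide +kernel) (ClAll.succ (ClAll.succ ClAll.zero n354) n355)

def n433 : Cl (O (nat_lit 5)) (R (nat_lit 14353))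
    (p (nat_lit 0x380c2) (nat_lit 0) (p (nat_lit 0x3c4aa) (nat_lit 7) (p (nat_lit 0x111) (nat_lit 1) (p (nat_lit 0xd1) (nat_lit 1) (p (nat_lit 0xc9) (nat_lit 0) (p (nat_lit 0x119) (nat_lit 1) (p (nat_lit 0xc1) (nat_lit 0) (p (nat_lit 0x81) (nat_lit 1) (p (nat_lit 0x41) (nat_lit 1) (p (nat_lit 0x10a0b0a89089a) (nat_lit 0) (p (nat_lit 0x98a8a08881a) (nat_lit 0) (p (nat_lit 0x109088988079a) (nat_lit 0) (p (nat_lit 0x8880907871a) (nat_lit 0) (p (nat_lit 0x8000000000800080887068a) (nat_lit 0) (p (nat_lit 0x10888068602) (nat_lit 0) (p (nat_lit 0x807860582) (nat_lit 0) (p (nat_lit 0x10607058502) (nat_lit 0) (p (nat_lit 0x586850482) (nat_lit 0) (p (nat_lit 0x16000c) (nat_lit 0) (p (nat_lit 0x68612) (nat_lit 0) (p (nat_lit 0x50592) (nat_lit 0) (p (nat_lit 0x40512) (nat_lit 0) (p (nat_lit 0x50312) (nat_lit 0) (p (nat_lit 0x38292) (nat_lit 0) (p (nat_lit 0x28212) (nat_lit 0) (p (nat_lit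 0x38112) (nat_lit 0) (p (nat_lit 0x20092) (nat_lit 0) (p (nat_lit 0x10012) (nat_lit 0) pn)))))))))))))))))))))))))))) :=
  Cl.node (nat_lit 0xb000c) (nat_lit 2) (by decide +kernel) (ClAll.succ (ClAll.succ ClAll.zero n356) s1298)

def n434 : Cl (O (nat_lit 5)) (R (nat_lit 14353))
    (p (nat_lit 0x380c2) (nat_lit 1) (p (nat_lit 0x3c4aa) (nat_lit 7) (p (nat_lit 0x111) (nat_lit 1) (p (nat_lit 0xd1) (nat_lit 1) (p (nat_lit 0xc9) (nat_lit 0) (p (nat_lit 0x119) (nat_lit 1) (p (nat_lit 0xc1) (nat_lit 0) (p (nat_lit 0x81) (nat_lit 1) (p (nat_lit 0x41) (nat_lit 1) (p (nat_lit 0x10a0b0a89089a) (nat_lit 0) (p (nat_lit 0x98a8a08881a) (nat_lit 0) (p (nat_lit 0x109088988079a) (nat_lit 0) (p (nat_lit 0x8880907871a) (nat_lit 0) (p (nat_lit 0x8000000000800080887068a) (nat_lit 0) (p (nat_lit 0x10888068602) (nat_lit 0) (p (nat_lit 0x807860582) (nat_lit 0) (p (nat_lit 0x10607058502) (nat_lit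 0) (p (nat_lit 0x586850482) (nat_lit 0) (p (nat_lit 0x16000c) (nat_lit 0) (p (nat_lit 0x68612) (nat_lit 0) (p (nat_lit 0x50592) (nat_lit 0) (p (nat_lit 0x40512) (nat_lit 0) (p (nat_lit 0x50312) (nat_lit 0) (p (nat_lit 0x38292) (nat_lit 0) (p (nat_lit 0x28212) (nat_lit 0) (p (nat_lit 0x38112) (nat_lit 0) (p (nat_lit 0x20092) (nat_lit 0) (p (nat_lit 0x10012) (nat_lit 0) pn)))))))))))))))))))))))))))) :=
  Cl.node (nat_lit 0xb000c) (nat_lit 2) (by decide +kernel) (ClAll.succ (ClAll.succ ClAll.zero n357) n358)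

def n435 : Cl (O (nat_lit 5)) (R (nat_lit 14353))
    (p (nat_lit 0x380c2) (nat_lit 1) (p (nat_lit 0x3c4aa) (nat_lit 10) (p (nat_lit 0x111) (nat_lit 1) (p (nat_lit 0xd1) (nat_lit 1) (p (nat_lit 0xc9) (nat_lit 0) (p (nat_lit 0x119) (nat_lit 1) (p (nat_lit 0xc1) (nat_lit 0) (p (nat_lit 0x81) (nat_lit 1) (p (nat_lit 0x41) (nat_lit 1) (p (nat_lit 0x10a0b0a89089a) (nat_lit 0) (p (nat_lit 0x98a8a08881a) (nat_lit 0) (p (nat_lit 0x109088988079a) (nat_lit 0) (p (nat_lit 0x8880907871a) (nat_lit 0) (p (nat_lit 0x8000000000800080887068a) (nat_lit 0) (p (nat_lit 0x10888068602) (nat_lit 0) (p (nat_lit 0x807860582) (nat_lit 0) (p (nat_lit 0x10607058502) (nat_lit 0) (p (nat_lit 0x586850482) (nat_lit 0) (p (nat_lit 0x16000c) (nat_lit 0) (p (nat_lit 0x68612) (nat_lit 0) (p (nat_lit 0x50592) (nat_lit 0) (p (nat_lit 0x40512) (nat_lit 0) (p (nat_lit 0x50312) (nat_lit 0) (p (nat_lit 0x38292)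 (nat_lit 0) (p (nat_lit 0x28212) (nat_lit 0) (p (nat_lit 0x38112) (nat_lit 0) (p (nat_lit 0x20092) (nat_lit 0) (p (nat_lit 0x10012) (nat_lit 0) pn)))))))))))))))))))))))))))) :=
  Cl.node (nat_lit 0xb000c) (nat_lit 2) (by decide +kernel) (ClAll.succ (ClAll.succ ClAll.zero n359) s1315)

def n436 : Cl (O (nat_lit 5)) (R (nat_lit 14353))
    (p (nat_lit 0x380c2) (nat_lit 0) (p (nat_lit 0x44c2a) (nat_lit 0) (p (nat_lit 0x111) (nat_lit 0) (p (nat_lit 0x109) (nat_lit 0) (p (nat_lit 0xc9) (nat_lit 1) (p (nat_lit 0x119) (nat_lit 1) (p (nat_lit 0xc1) (nat_lit 0) (p (nat_lit 0x81) (nat_lit 1) (p (nat_lit 0x41) (nat_lit 1) (p (nat_lit 0x10a0b0a89089a) (nat_lit 0) (p (nat_lit 0x98a8a08881a) (nat_lit 0) (p (nat_lit 0x109088988079a) (nat_lit 0) (p (nat_lit 0x8880907871a) (nat_lit 0) (p (nat_lit 0x8000000000800080887068a) (nat_lit 0) (p (nat_lit 0x10888068602) (nat_lit 0) (p (nat_lit 0x807860582)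 (nat_lit 0) (p (nat_lit 0x10607058502) (nat_lit 0) (p (nat_lit 0x586850482) (nat_lit 0) (p (nat_lit 0x16000c) (nat_lit 0) (p (nat_lit 0x68612) (nat_lit 0) (p (nat_lit 0x50592) (nat_lit 0) (p (nat_lit 0x40512) (nat_lit 0) (p (nat_lit 0x50312) (nat_lit 0) (p (nat_lit 0x38292) (nat_lit 0) (p (nat_lit 0x28212) (nat_lit 0) (p (nat_lit 0x38112) (nat_lit 0) (p (nat_lit 0x20092) (nat_lit 0) (p (nat_lit 0x10012) (nat_lit 0) pn)))))))))))))))))))))))))))) :=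
  Cl.node (nat_lit 0x200004) (nat_lit 2) (by decide +kernel) (ClAll.succ (ClAll.succ ClAll.zero n360) s1320)

def n437 : Cl (O (nat_lit 5)) (R (nat_lit 14353))
    (p (nat_lit 0x380c2) (nat_lit 0) (p (nat_lit 0x3c4aa) (nat_lit 7) (p (nat_lit 0x111) (nat_lit 1) (p (nat_lit 0x109) (nat_lit 0) (p (nat_lit 0xc9) (nat_lit 1) (p (nat_lit 0x119) (nat_lit 1) (p (nat_lit 0xc1) (nat_lit 0) (p (nat_lit 0x81) (nat_lit 1) (p (nat_lit 0x41) (nat_lit 1) (p (nat_lit 0x10a0b0a89089a) (nat_lit 0) (p (nat_lit 0x98a8a08881a) (nat_lit 0) (p (nat_lit 0x109088988079a) (nat_lit 0) (p (nat_lit 0x8880907871a) (nat_lit 0) (p (nat_lit 0x8000000000800080887068a) (nat_lit 0) (p (nat_lit 0x10888068602) (nat_lit 0) (p (nat_lit 0x807860582) (nat_lit 0) (p (nat_lit 0x10607058502) (nat_lit 0) (p (nat_lit 0x586850482) (nat_lit 0) (p (nat_lit 0x16000c) (nat_lit 0) (p (nat_lit 0x68612) (nat_lit 0) (p (nat_lit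 0x50592) (nat_lit 0) (p (nat_lit 0x40512) (nat_lit 0) (p (nat_lit 0x50312) (nat_lit 0) (p (nat_lit 0x38292) (nat_lit 0) (p (nat_lit 0x28212) (nat_lit 0) (p (nat_lit 0x38112) (nat_lit 0) (p (nat_lit 0x20092) (nat_lit 0) (p (nat_lit 0x10012) (nat_lit 0) pn)))))))))))))))))))))))))))) :=
  Cl.node (nat_lit 0xb000c) (nat_lit 2) (by decide +kernel) (ClAll.succ (ClAll.succ ClAll.zero n361) s1341)

def n438 : Cl (O (nat_lit 5)) (R (nat_lit 14353))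
    (p (nat_lit 0x380c2) (nat_lit 1) (p (nat_lit 0x3c4aa) (nat_lit 7) (p (nat_lit 0x111) (nat_lit 1) (p (nat_lit 0x109) (nat_lit 0) (p (nat_lit 0xc9) (nat_lit 1) (p (nat_lit 0x119) (nat_lit 1) (p (nat_lit 0xc1) (nat_lit 0) (p (nat_lit 0x81) (nat_lit 1) (p (nat_lit 0x41) (nat_lit 1) (p (nat_lit 0x10a0b0a89089a) (nat_lit 0) (p (nat_lit 0x98a8a08881a) (nat_lit 0) (p (nat_lit 0x109088988079a) (nat_lit 0) (p (nat_lit 0x8880907871a) (nat_lit 0) (p (nat_lit 0x8000000000800080887068a) (nat_lit 0) (p (nat_lit 0x10888068602) (nat_lit 0) (p (nat_lit 0x807860582) (nat_lit 0) (p (nat_lit 0x10607058502) (nat_lit 0) (p (nat_lit 0x586850482) (nat_lit 0) (p (nat_lit 0x16000c) (nat_lit 0) (p (nat_lit 0x68612) (nat_lit 0) (p (nat_lit 0x50592) (nat_lit 0) (p (nat_lit 0x40512) (nat_lit 0) (p (nat_lit 0x50312) (nat_lit 0) (p (nat_lit 0x38292) (nat_lit 0) (p (nat_lit 0x28212) (nat_lit 0) (p (nat_lit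 0x38112) (nat_lit 0) (p (nat_lit 0x20092) (nat_lit 0) (p (nat_lit 0x10012) (nat_lit 0) pn)))))))))))))))))))))))))))) :=
  Cl.node (nat_lit 0xb000c) (nat_lit 2) (by decide +kernel) (ClAll.succ (ClAll.succ ClAll.zero n362) n363)

def n439 : Cl (O (nat_lit 5)) (R (nat_lit 14353))
    (p (nat_lit 0x380c2) (nat_lit 1) (p (nat_lit 0x3c4aa) (nat_lit 10) (p (nat_lit 0x111) (nat_lit 1) (p (nat_lit 0x109) (nat_lit 0) (p (nat_lit 0xc9) (nat_lit 1) (p (nat_lit 0x119) (nat_lit 1) (p (nat_lit 0xc1) (nat_lit 0) (p (nat_lit 0x81) (nat_lit 1) (p (nat_lit 0x41) (nat_lit 1) (p (nat_lit 0x10a0b0a89089a) (nat_lit 0) (p (nat_lit 0x98a8a08881a) (nat_lit 0) (p (nat_lit 0x109088988079a) (nat_lit 0) (p (nat_lit 0x8880907871a) (nat_lit 0) (p (nat_lit 0x8000000000800080887068a) (nat_lit 0) (p (nat_lit 0x10888068602) (nat_lit 0) (p (nat_lit 0x807860582) (nat_lit 0) (p (nat_lit 0x10607058502) (nat_lit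 0) (p (nat_lit 0x586850482) (nat_lit 0) (p (nat_lit 0x16000c) (nat_lit 0) (p (nat_lit 0x68612) (nat_lit 0) (p (nat_lit 0x50592) (nat_lit 0) (p (nat_lit 0x40512) (nat_lit 0) (p (nat_lit 0x50312) (nat_lit 0) (p (nat_lit 0x38292) (nat_lit 0) (p (nat_lit 0x28212) (nat_lit 0) (p (nat_lit 0x38112) (nat_lit 0) (p (nat_lit 0x20092) (nat_lit 0) (p (nat_lit 0x10012) (nat_lit 0) pn)))))))))))))))))))))))))))) :=
  Cl.node (nat_lit 0xb000c) (nat_lit 2) (by decide +kernel) (ClAll.succ (ClAll.succ ClAll.zero s1364) s1365)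

def n440 : Cl (O (nat_lit 5)) (R (nat_lit 14353))
    (p (nat_lit 0x81) (nat_lit 1) (p (nat_lit 0xc9) (nat_lit 1) (p (nat_lit 0x109) (nat_lit 1) (p (nat_lit 0x101) (nat_lit 0) (p (nat_lit 0x119) (nat_lit 0) (p (nat_lit 0xd1) (nat_lit 0) (p (nat_lit 0x89) (nat_lit 0) (p (nat_lit 0x41) (nat_lit 0) (p (nat_lit 0x10a0b0a89089a) (nat_lit 0) (p (nat_lit 0x98a8a08881a) (nat_lit 0) (p (nat_lit 0x109088988079a) (nat_lit 0) (p (nat_lit 0x8880907871a) (nat_lit 0) (p (nat_lit 0x8000000000800080887068a) (nat_lit 0) (p (nat_lit 0x10888068602) (nat_lit 0) (p (nat_lit 0x807860582) (nat_lit 0) (p (nat_lit 0x10607058502) (nat_lit 0) (p (nat_lit 0x586850482) (nat_lit 0) (p (nat_lit 0x16000c) (nat_lit 0) (p (nat_lit 0x68612) (nat_lit 0) (p (nat_lit 0x50592) (nat_lit 0) (p (nat_lit 0x40512) (nat_lit 0) (p (nat_lit 0x50312) (nat_lit 0) (p (nat_lit 0x38292) (nat_lit 0) (p (nat_lit 0x28212) (nat_lit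 0) (p (nat_lit 0x38112) (nat_lit 0) (p (nat_lit 0x20092) (nat_lit 0) (p (nat_lit 0x10012) (nat_lit 0) pn))))))))))))))))))))))))))) :=
  Cl.node (nat_lit 0x444aa) (nat_lit 12) (by decide +kernel) (ClAll.succ (ClAll.succ (ClAll.succ (ClAll.succ (ClAll.succ (ClAll.succ (ClAll.succ (ClAll.succ (ClAll.succ (ClAll.succ (ClAll.succ (ClAll.succ ClAll.zero s3) s4) s5) s6) s7) s8) s9) n364) s23) s24) s25) s26)

def n441 : Cl (O (nat_lit 5)) (R (nat_lit 14353))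
    (p (nat_lit 0x111) (nat_lit 0) (p (nat_lit 0xc9) (nat_lit 0) (p (nat_lit 0x81) (nat_lit 0) (p (nat_lit 0x101) (nat_lit 1) (p (nat_lit 0x119) (nat_lit 0) (p (nat_lit 0xd1) (nat_lit 0) (p (nat_lit 0x89) (nat_lit 0) (p (nat_lit 0x41) (nat_lit 0) (p (nat_lit 0x10a0b0a89089a) (nat_lit 0) (p (nat_lit 0x98a8a08881a) (nat_lit 0) (p (nat_lit 0x109088988079a) (nat_lit 0) (p (nat_lit 0x8880907871a) (nat_lit 0) (p (nat_lit 0x8000000000800080887068a) (nat_lit 0) (p (nat_lit 0x10888068602) (nat_lit 0) (p (nat_lit 0x807860582) (nat_lit 0) (p (nat_lit 0x10607058502) (nat_lit 0) (p (nat_lit 0x586850482) (nat_lit 0) (p (nat_lit 0x16000c) (nat_lit 0) (p (nat_lit 0x68612) (nat_lit 0) (p (nat_lit 0x50592) (nat_lit 0) (p (nat_lit 0x40512) (nat_lit 0) (p (nat_lit 0x50312) (nat_lit 0) (p (nat_lit 0x38292) (nat_lit 0) (p (nat_lit 0x28212) (nat_lit 0) (p (nat_lit 0x38112) (nat_lit 0) (p (nat_lit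 0x20092) (nat_lit 0) (p (nat_lit 0x10012) (nat_lit 0) pn))))))))))))))))))))))))))) :=
  Cl.node (nat_lit 0x4c42a) (nat_lit 12) (by decide +kernel) (ClAll.succ (ClAll.succ (ClAll.succ (ClAll.succ (ClAll.succ (ClAll.succ (ClAll.succ (ClAll.succ (ClAll.succ (ClAll.succ (ClAll.succ (ClAll.succ ClAll.zero s27) s28) n365) s49) s50) s51) s52) s53) s54) s55) s56) s57)

def n442 : Cl (O (nat_lit 5)) (R (nat_lit 14353))
    (p (nat_lit 0x111) (nat_lit 0) (p (nat_lit 0xc9) (nat_lit 1) (p (nat_lit 0x81) (nat_lit 0) (p (nat_lit 0x101) (nat_lit 1) (p (nat_lit 0x119) (nat_lit 0) (p (nat_lit 0xd1) (nat_lit 0) (p (nat_lit 0x89) (nat_lit 0) (p (nat_lit 0x41) (nat_lit 0) (p (nat_lit 0x10a0b0a89089a) (nat_lit 0) (p (nat_lit 0x98a8a08881a) (nat_lit 0) (p (nat_lit 0x109088988079a) (nat_lit 0) (p (nat_lit 0x8880907871a) (nat_lit 0) (p (nat_lit 0x8000000000800080887068a) (nat_lit 0) (p (nat_lit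 0x10888068602) (nat_lit 0) (p (nat_lit 0x807860582) (nat_lit 0) (p (nat_lit 0x10607058502) (nat_lit 0) (p (nat_lit 0x586850482) (nat_lit 0) (p (nat_lit 0x16000c) (nat_lit 0) (p (nat_lit 0x68612) (nat_lit 0) (p (nat_lit 0x50592) (nat_lit 0) (p (nat_lit 0x40512) (nat_lit 0) (p (nat_lit 0x50312) (nat_lit 0) (p (nat_lit 0x38292) (nat_lit 0) (p (nat_lit 0x28212) (nat_lit 0) (p (nat_lit 0x38112) (nat_lit 0) (p (nat_lit 0x20092) (nat_lit 0) (p (nat_lit 0x10012) (nat_lit 0) pn))))))))))))))))))))))))))) :=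
  Cl.node (nat_lit 0x444aa) (nat_lit 12) (by decide +kernel) (ClAll.succ (ClAll.succ (ClAll.succ (ClAll.succ (ClAll.succ (ClAll.succ (ClAll.succ (ClAll.succ (ClAll.succ (ClAll.succ (ClAll.succ (ClAll.succ ClAll.zero s59) s60) s61) s62) s63) s64) s65) n366) n367) s77) s78) s79)

def n443 : Cl (O (nat_lit 5)) (R (nat_lit 14353))
    (p (nat_lit 0xc9) (nat_lit 0) (p (nat_lit 0xc1) (nat_lit 0) (p (nat_lit 0x81) (nat_lit 1) (p (nat_lit 0x101) (nat_lit 1) (p (nat_lit 0x119) (nat_lit 0) (p (nat_lit 0xd1) (nat_lit 0) (p (nat_lit 0x89) (nat_lit 0) (p (nat_lit 0x41) (nat_lit 0) (p (nat_lit 0x10a0b0a89089a) (nat_lit 0) (p (nat_lit 0x98a8a08881a) (nat_lit 0) (p (nat_lit 0x109088988079a) (nat_lit 0) (p (nat_lit 0x8880907871a) (nat_lit 0) (p (nat_lit 0x8000000000800080887068a) (nat_lit 0) (p (nat_lit 0x10888068602) (nat_lit 0) (p (nat_lit 0x807860582) (nat_lit 0) (p (nat_lit 0x10607058502)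 (nat_lit 0) (p (nat_lit 0x586850482) (nat_lit 0) (p (nat_lit 0x16000c) (nat_lit 0) (p (nat_lit 0x68612) (nat_lit 0) (p (nat_lit 0x50592) (nat_lit 0) (p (nat_lit 0x40512) (nat_lit 0) (p (nat_lit 0x50312) (nat_lit 0) (p (nat_lit 0x38292) (nat_lit 0) (p (nat_lit 0x28212) (nat_lit 0) (p (nat_lit 0x38112) (nat_lit 0) (p (nat_lit 0x20092) (nat_lit 0) (p (nat_lit 0x10012) (nat_lit 0) pn))))))))))))))))))))))))))) :=
  Cl.node (nat_lit 0x4c42a) (nat_lit 12) (by decide +kernel) (ClAll.succ (ClAll.succ (ClAll.succ (ClAll.succ (ClAll.succ (ClAll.succ (ClAll.succ (ClAll.succ (ClAll.succ (ClAll.succ (ClAll.succ (ClAll.succ ClAll.zero s81) s82) n368) s87) s88) s89) s90) s91) s92) s93) s94) s95)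

def n444 : Cl (O (nat_lit 5)) (R (nat_lit 14353))
    (p (nat_lit 0xc9) (nat_lit 1) (p (nat_lit 0xc1) (nat_lit 0) (p (nat_lit 0x81) (nat_lit 1) (p (nat_lit 0x101) (nat_lit 1) (p (nat_lit 0x119) (nat_lit 0) (p (nat_lit 0xd1) (nat_lit 0) (p (nat_lit 0x89) (nat_lit 0) (p (nat_lit 0x41) (nat_lit 0) (p (nat_lit 0x10a0b0a89089a) (nat_lit 0) (p (nat_lit 0x98a8a08881a) (nat_lit 0) (p (nat_lit 0x109088988079a) (nat_lit 0) (p (nat_lit 0x8880907871a) (nat_lit 0) (p (nat_lit 0x8000000000800080887068a) (nat_lit 0) (p (nat_lit 0x10888068602) (nat_lit 0) (p (nat_lit 0x807860582) (nat_lit 0) (p (nat_lit 0x10607058502) (nat_lit 0) (p (nat_lit 0x586850482) (nat_lit 0) (p (nat_lit 0x16000c) (nat_lit 0) (p (nat_lit 0x68612) (nat_lit 0) (p (nat_lit 0x50592) (nat_lit 0) (p (nat_lit 0x40512) (nat_lit 0) (p (nat_lit 0x50312) (nat_lit 0) (p (nat_lit 0x38292) (nat_lit 0) (p (nat_lit 0x28212) (nat_lit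 0) (p (nat_lit 0x38112) (nat_lit 0) (p (nat_lit 0x20092) (nat_lit 0) (p (nat_lit 0x10012) (nat_lit 0) pn))))))))))))))))))))))))))) :=
  Cl.node (nat_lit 0x444aa) (nat_lit 12) (by decide +kernel) (ClAll.succ (ClAll.succ (ClAll.succ (ClAll.succ (ClAll.succ (ClAll.succ (ClAll.succ (ClAll.succ (ClAll.succ (ClAll.succ (ClAll.succ (ClAll.succ ClAll.zero s96) s97) s98) s99) s100) s101) s102) n369) s108) s109) s110) s111)

def n445 : Cl (O (nat_lit 5)) (R (nat_lit 14353))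
    (p (nat_lit 0x3cc2a) (nat_lit 10) (p (nat_lit 0x109) (nat_lit 1) (p (nat_lit 0xc9) (nat_lit 1) (p (nat_lit 0xc1) (nat_lit 0) (p (nat_lit 0x119) (nat_lit 1) (p (nat_lit 0xd1) (nat_lit 0) (p (nat_lit 0x89) (nat_lit 0) (p (nat_lit 0x41) (nat_lit 0) (p (nat_lit 0x10a0b0a89089a) (nat_lit 0) (p (nat_lit 0x98a8a08881a) (nat_lit 0) (p (nat_lit 0x109088988079a) (nat_lit 0) (p (nat_lit 0x8880907871a) (nat_lit 0) (p (nat_lit 0x8000000000800080887068a) (nat_lit 0) (p (nat_lit 0x10888068602) (nat_lit 0) (p (nat_lit 0x807860582) (nat_lit 0) (p (nat_lit 0x10607058502) (nat_lit 0) (p (nat_lit 0x586850482) (nat_lit 0) (p (nat_lit 0x16000c) (nat_lit 0) (p (nat_lit 0x68612) (nat_lit 0) (p (nat_lit 0x50592) (nat_lit 0) (p (nat_lit 0x40512) (nat_lit 0) (p (nat_lit 0x50312) (nat_lit 0) (p (nat_lit 0x38292) (nat_lit 0) (p (nat_lit 0x28212) (nat_lit 0) (p (nat_lit 0x38112) (nat_lit 0) (p (nat_lit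 0x20092) (nat_lit 0) (p (nat_lit 0x10012) (nat_lit 0) pn))))))))))))))))))))))))))) :=
  Cl.node (nat_lit 0x380c2) (nat_lit 2) (by decide +kernel) (ClAll.succ (ClAll.succ ClAll.zero n370) n371)

def n446 : Cl (O (nat_lit 5)) (R (nat_lit 14353))
    (p (nat_lit 0x3cc2a) (nat_lit 11) (p (nat_lit 0x109) (nat_lit 1) (p (nat_lit 0xc9) (nat_lit 1) (p (nat_lit 0xc1) (nat_lit 0) (p (nat_lit 0x119) (nat_lit 1) (p (nat_lit 0xd1) (nat_lit 0) (p (nat_lit 0x89) (nat_lit 0) (p (nat_lit 0x41) (nat_lit 0) (p (nat_lit 0x10a0b0a89089a) (nat_lit 0) (p (nat_lit 0x98a8a08881a) (nat_lit 0) (p (nat_lit 0x109088988079a) (nat_lit 0) (p (nat_lit 0x8880907871a) (nat_lit 0) (p (nat_lit 0x8000000000800080887068a) (nat_lit 0) (p (nat_lit 0x10888068602) (nat_lit 0) (p (nat_lit 0x807860582) (nat_lit 0) (p (nat_lit 0x10607058502) (nat_lit 0) (p (nat_lit 0x586850482) (nat_lit 0) (p (nat_lit 0x16000c) (nat_lit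 0) (p (nat_lit 0x68612) (nat_lit 0) (p (nat_lit 0x50592) (nat_lit 0) (p (nat_lit 0x40512) (nat_lit 0) (p (nat_lit 0x50312) (nat_lit 0) (p (nat_lit 0x38292) (nat_lit 0) (p (nat_lit 0x28212) (nat_lit 0) (p (nat_lit 0x38112) (nat_lit 0) (p (nat_lit 0x20092) (nat_lit 0) (p (nat_lit 0x10012) (nat_lit 0) pn))))))))))))))))))))))))))) :=
  Cl.node (nat_lit 0x380c2) (nat_lit 2) (by decide +kernel) (ClAll.succ (ClAll.succ ClAll.zero s130) n372)

def n447 : Cl (O (nat_lit 5)) (R (nat_lit 14353))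
    (p (nat_lit 0x3cc2a) (nat_lit 10) (p (nat_lit 0x109) (nat_lit 1) (p (nat_lit 0x81) (nat_lit 0) (p (nat_lit 0xc1) (nat_lit 1) (p (nat_lit 0x119) (nat_lit 1) (p (nat_lit 0xd1) (nat_lit 0) (p (nat_lit 0x89) (nat_lit 0) (p (nat_lit 0x41) (nat_lit 0) (p (nat_lit 0x10a0b0a89089a) (nat_lit 0) (p (nat_lit 0x98a8a08881a) (nat_lit 0) (p (nat_lit 0x109088988079a) (nat_lit 0) (p (nat_lit 0x8880907871a) (nat_lit 0) (p (nat_lit 0x8000000000800080887068a) (nat_lit 0) (p (nat_lit 0x10888068602) (nat_lit 0) (p (nat_lit 0x807860582) (nat_lit 0) (p (nat_lit 0x10607058502) (nat_lit 0) (p (nat_lit 0x586850482) (nat_lit 0) (p (nat_lit 0x16000c) (nat_lit 0) (p (nat_lit 0x68612) (nat_lit 0) (p (nat_lit 0x50592) (nat_lit 0) (p (nat_lit 0x40512) (nat_lit 0) (p (nat_lit 0x50312) (nat_lit 0) (p (nat_lit 0x38292) (nat_lit 0) (p (nat_lit 0x28212) (nat_lit 0) (p (nat_lit 0x38112) (nat_lit 0) (p (nat_lit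 0x20092) (nat_lit 0) (p (nat_lit 0x10012) (nat_lit 0) pn))))))))))))))))))))))))))) :=
  Cl.node (nat_lit 0x380c2) (nat_lit 2) (by decide +kernel) (ClAll.succ (ClAll.succ ClAll.zero n373) s170)

def n448 : Cl (O (nat_lit 5)) (R (nat_lit 14353))
    (p (nat_lit 0x3cc2a) (nat_lit 11) (p (nat_lit 0x109) (nat_lit 1) (p (nat_lit 0x81) (nat_lit 0) (p (nat_lit 0xc1) (nat_lit 1) (p (nat_lit 0x119) (nat_lit 1) (p (nat_lit 0xd1) (nat_lit 0) (p (nat_lit 0x89) (nat_lit 0) (p (nat_lit 0x41) (nat_lit 0) (p (nat_lit 0x10a0b0a89089a) (nat_lit 0) (p (nat_lit 0x98a8a08881a) (nat_lit 0) (p (nat_lit 0x109088988079a) (nat_lit 0) (p (nat_lit 0x8880907871a) (nat_lit 0) (p (nat_lit 0x8000000000800080887068a) (nat_lit 0) (p (nat_lit 0x10888068602) (nat_lit 0) (p (nat_lit 0x807860582) (nat_lit 0) (p (nat_lit 0x10607058502) (nat_lit 0) (p (nat_lit 0x586850482) (nat_lit 0) (p (nat_lit 0x16000c) (nat_lit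 0) (p (nat_lit 0x68612) (nat_lit 0) (p (nat_lit 0x50592) (nat_lit 0) (p (nat_lit 0x40512) (nat_lit 0) (p (nat_lit 0x50312) (nat_lit 0) (p (nat_lit 0x38292) (nat_lit 0) (p (nat_lit 0x28212) (nat_lit 0) (p (nat_lit 0x38112) (nat_lit 0) (p (nat_lit 0x20092) (nat_lit 0) (p (nat_lit 0x10012) (nat_lit 0) pn))))))))))))))))))))))))))) :=
  Cl.node (nat_lit 0x380c2) (nat_lit 2) (by decide +kernel) (ClAll.succ (ClAll.succ ClAll.zero s171) n374)

def n449 : Cl (O (nat_lit 5)) (R (nat_lit 14353))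
    (p (nat_lit 0x109) (nat_lit 0) (p (nat_lit 0x101) (nat_lit 0) (p (nat_lit 0x81) (nat_lit 1) (p (nat_lit 0xc1) (nat_lit 1) (p (nat_lit 0x119) (nat_lit 1) (p (nat_lit 0xd1) (nat_lit 0) (p (nat_lit 0x89) (nat_lit 0) (p (nat_lit 0x41) (nat_lit 0) (p (nat_lit 0x10a0b0a89089a) (nat_lit 0) (p (nat_lit 0x98a8a08881a) (nat_lit 0) (p (nat_lit 0x109088988079a) (nat_lit 0) (p (nat_lit 0x8880907871a) (nat_lit 0) (p (nat_lit 0x8000000000800080887068a) (nat_lit 0) (p (nat_lit 0x10888068602) (nat_lit 0) (p (nat_lit 0x807860582) (nat_lit 0) (p (nat_lit 0x10607058502) (nat_lit 0) (p (nat_lit 0x586850482) (nat_lit 0) (p (nat_lit 0x16000c) (nat_lit 0) (p (nat_lit 0x68612) (nat_lit 0) (p (nat_lit 0x50592) (nat_lit 0) (p (nat_lit 0x40512) (nat_lit 0) (p (nat_lit 0x50312) (nat_lit 0) (p (nat_lit 0x38292) (nat_lit 0) (p (nat_lit 0x28212) (nat_lit 0) (p (nat_lit 0x38112) (nat_lit 0) (p (nat_lit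 0x20092) (nat_lit 0) (p (nat_lit 0x10012) (nat_lit 0) pn))))))))))))))))))))))))))) :=
  Cl.node (nat_lit 0x44c2a) (nat_lit 12) (by decide +kernel) (ClAll.succ (ClAll.succ (ClAll.succ (ClAll.succ (ClAll.succ (ClAll.succ (ClAll.succ (ClAll.succ (ClAll.succ (ClAll.succ (ClAll.succ (ClAll.succ ClAll.zero n375) s187) n376) s192) s193) s194) s195) s196) s197) s198) s199) s200)

def n450 : Cl (O (nat_lit 5)) (R (nat_lit 14353))
    (p (nat_lit 0x109) (nat_lit 1) (p (nat_lit 0x101) (nat_lit 0) (p (nat_lit 0x81) (nat_lit 1) (p (nat_lit 0xc1) (nat_lit 1) (p (nat_lit 0x119) (nat_lit 1) (p (nat_lit 0xd1) (nat_lit 0) (p (nat_lit 0x89) (nat_lit 0) (p (nat_lit 0x41) (nat_lit 0) (p (nat_lit 0x10a0b0a89089a) (nat_lit 0) (p (nat_lit 0x98a8a08881a) (nat_lit 0) (p (nat_lit 0x109088988079a) (nat_lit 0) (p (nat_lit 0x8880907871a) (nat_lit 0) (p (nat_lit 0x8000000000800080887068a) (nat_lit 0)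 (p (nat_lit 0x10888068602) (nat_lit 0) (p (nat_lit 0x807860582) (nat_lit 0) (p (nat_lit 0x10607058502) (nat_lit 0) (p (nat_lit 0x586850482) (nat_lit 0) (p (nat_lit 0x16000c) (nat_lit 0) (p (nat_lit 0x68612) (nat_lit 0) (p (nat_lit 0x50592) (nat_lit 0) (p (nat_lit 0x40512) (nat_lit 0) (p (nat_lit 0x50312) (nat_lit 0) (p (nat_lit 0x38292) (nat_lit 0) (p (nat_lit 0x28212) (nat_lit 0) (p (nat_lit 0x38112) (nat_lit 0) (p (nat_lit 0x20092) (nat_lit 0) (p (nat_lit 0x10012) (nat_lit 0) pn))))))))))))))))))))))))))) :=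
  Cl.node (nat_lit 0x444aa) (nat_lit 12) (by decide +kernel) (ClAll.succ (ClAll.succ (ClAll.succ (ClAll.succ (ClAll.succ (ClAll.succ (ClAll.succ (ClAll.succ (ClAll.succ (ClAll.succ (ClAll.succ (ClAll.succ ClAll.zero s201) s202) s203) s204) s205) s206) s207) n377) s220) s221) s222) s223)

def n451 : Cl (O (nat_lit 5)) (R (nat_lit 14353))
    (p (nat_lit 0x200004) (nat_lit 0) (p (nat_lit 0xc1) (nat_lit 1) (p (nat_lit 0x109) (nat_lit 1) (p (nat_lit 0x101) (nat_lit 0) (p (nat_lit 0x111) (nat_lit 0) (p (nat_lit 0xd1) (nat_lit 1) (p (nat_lit 0x89) (nat_lit 0) (p (nat_lit 0x41) (nat_lit 0) (p (nat_lit 0x10a0b0a89089a) (nat_lit 0) (p (nat_lit 0x98a8a08881a) (nat_lit 0) (p (nat_lit 0x109088988079a) (nat_lit 0) (p (nat_lit 0x8880907871a) (nat_lit 0) (p (nat_lit 0x8000000000800080887068a) (nat_lit 0) (p (nat_lit 0x10888068602) (nat_lit 0) (p (nat_lit 0x807860582) (nat_lit 0) (p (nat_lit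 0x10607058502) (nat_lit 0) (p (nat_lit 0x586850482) (nat_lit 0) (p (nat_lit 0x16000c) (nat_lit 0) (p (nat_lit 0x68612) (nat_lit 0) (p (nat_lit 0x50592) (nat_lit 0) (p (nat_lit 0x40512) (nat_lit 0) (p (nat_lit 0x50312) (nat_lit 0) (p (nat_lit 0x38292) (nat_lit 0) (p (nat_lit 0x28212) (nat_lit 0) (p (nat_lit 0x38112) (nat_lit 0) (p (nat_lit 0x20092) (nat_lit 0) (p (nat_lit 0x10012) (nat_lit 0) pn))))))))))))))))))))))))))) :=
  Cl.node (nat_lit 0x200014) (nat_lit 2) (by decide +kernel) (ClAll.succ (ClAll.succ ClAll.zero n378) s254)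

def n452 : Cl (O (nat_lit 5)) (R (nat_lit 14353))
    (p (nat_lit 0x200004) (nat_lit 0) (p (nat_lit 0x119) (nat_lit 0) (p (nat_lit 0x81) (nat_lit 0) (p (nat_lit 0x101) (nat_lit 1) (p (nat_lit 0x111) (nat_lit 0) (p (nat_lit 0xd1) (nat_lit 1) (p (nat_lit 0x89) (nat_lit 0) (p (nat_lit 0x41) (nat_lit 0) (p (nat_lit 0x10a0b0a89089a) (nat_lit 0) (p (nat_lit 0x98a8a08881a) (nat_lit 0) (p (nat_lit 0x109088988079a) (nat_lit 0) (p (nat_lit 0x8880907871a) (nat_lit 0) (p (nat_lit 0x8000000000800080887068a) (nat_lit 0) (p (nat_lit 0x10888068602) (nat_lit 0) (p (nat_lit 0x807860582) (nat_lit 0) (p (nat_lit 0x10607058502) (nat_lit 0) (p (nat_lit 0x586850482) (nat_lit 0) (p (nat_lit 0x16000c) (nat_lit 0) (p (nat_lit 0x68612) (nat_lit 0) (p (nat_lit 0x50592) (nat_lit 0) (p (nat_lit 0x40512) (nat_lit 0) (p (nat_lit 0x50312) (nat_lit 0) (p (nat_lit 0x38292) (nat_lit 0) (p (nat_lit 0x28212)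 (nat_lit 0) (p (nat_lit 0x38112) (nat_lit 0) (p (nat_lit 0x20092) (nat_lit 0) (p (nat_lit 0x10012) (nat_lit 0) pn))))))))))))))))))))))))))) :=
  Cl.node (nat_lit 0x200014) (nat_lit 2) (by decide +kernel) (ClAll.succ (ClAll.succ ClAll.zero n379) s284)

def n453 : Cl (O (nat_lit 5)) (R (nat_lit 14353))
    (p (nat_lit 0x119) (nat_lit 0) (p (nat_lit 0xc1) (nat_lit 0) (p (nat_lit 0x81) (nat_lit 1) (p (nat_lit 0x101) (nat_lit 1) (p (nat_lit 0x111) (nat_lit 0) (p (nat_lit 0xd1) (nat_lit 1) (p (nat_lit 0x89) (nat_lit 0) (p (nat_lit 0x41) (nat_lit 0) (p (nat_lit 0x10a0b0a89089a) (nat_lit 0) (p (nat_lit 0x98a8a08881a) (nat_lit 0) (p (nat_lit 0x109088988079a) (nat_lit 0) (p (nat_lit 0x8880907871a) (nat_lit 0) (p (nat_lit 0x8000000000800080887068a) (nat_lit 0) (p (nat_lit 0x10888068602) (nat_lit 0) (p (nat_lit 0x807860582) (nat_lit 0) (p (nat_lit 0x10607058502) (nat_lit 0) (p (nat_lit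 0x586850482) (nat_lit 0) (p (nat_lit 0x16000c) (nat_lit 0) (p (nat_lit 0x68612) (nat_lit 0) (p (nat_lit 0x50592) (nat_lit 0) (p (nat_lit 0x40512) (nat_lit 0) (p (nat_lit 0x50312) (nat_lit 0) (p (nat_lit 0x38292) (nat_lit 0) (p (nat_lit 0x28212) (nat_lit 0) (p (nat_lit 0x38112) (nat_lit 0) (p (nat_lit 0x20092) (nat_lit 0) (p (nat_lit 0x10012) (nat_lit 0) pn))))))))))))))))))))))))))) :=
  Cl.node (nat_lit 0x444aa) (nat_lit 12) (by decide +kernel) (ClAll.succ (ClAll.succ (ClAll.succ (ClAll.succ (ClAll.succ (ClAll.succ (ClAll.succ (ClAll.succ (ClAll.succ (ClAll.succ (ClAll.succ (ClAll.succ ClAll.zero s298) s299) s300) s301) s302) s303) s304) n380) s307) s308) s309) s310)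

def n454 : Cl (O (nat_lit 5)) (R (nat_lit 14353))
    (p (nat_lit 0x119) (nat_lit 1) (p (nat_lit 0xc1) (nat_lit 0) (p (nat_lit 0x81) (nat_lit 1) (p (nat_lit 0x101) (nat_lit 1) (p (nat_lit 0x111) (nat_lit 0) (p (nat_lit 0xd1) (nat_lit 1) (p (nat_lit 0x89) (nat_lit 0) (p (nat_lit 0x41) (nat_lit 0) (p (nat_lit 0x10a0b0a89089a) (nat_lit 0) (p (nat_lit 0x98a8a08881a) (nat_lit 0) (p (nat_lit 0x109088988079a) (nat_lit 0) (p (nat_lit 0x8880907871a) (nat_lit 0) (p (nat_lit 0x8000000000800080887068a) (nat_lit 0) (p (nat_lit 0x10888068602) (nat_lit 0) (p (nat_lit 0x807860582) (nat_lit 0) (p (nat_lit 0x10607058502) (nat_lit 0) (p (nat_lit 0x586850482) (nat_lit 0) (p (nat_lit 0x16000c) (nat_lit 0) (p (nat_lit 0x68612) (nat_lit 0) (p (nat_lit 0x50592) (nat_lit 0) (p (nat_lit 0x40512) (nat_lit 0) (p (nat_lit 0x50312) (nat_lit 0) (p (nat_lit 0x38292) (nat_lit 0) (p (nat_lit 0x28212) (nat_lit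 0) (p (nat_lit 0x38112) (nat_lit 0) (p (nat_lit 0x20092) (nat_lit 0) (p (nat_lit 0x10012) (nat_lit 0) pn))))))))))))))))))))))))))) :=
  Cl.node (nat_lit 0x3cc2a) (nat_lit 12) (by decide +kernel) (ClAll.succ (ClAll.succ (ClAll.succ (ClAll.succ (ClAll.succ (ClAll.succ (ClAll.succ (ClAll.succ (ClAll.succ (ClAll.succ (ClAll.succ (ClAll.succ ClAll.zero s311) s312) s313) s314) s315) s316) s317) s318) s319) s320) s321) s322)

def n455 : Cl (O (nat_lit 5)) (R (nat_lit 14353))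
    (p (nat_lit 0x3cc2a) (nat_lit 0) (p (nat_lit 0x101) (nat_lit 0) (p (nat_lit 0xc1) (nat_lit 1) (p (nat_lit 0x81) (nat_lit 1) (p (nat_lit 0x111) (nat_lit 1) (p (nat_lit 0xd1) (nat_lit 1) (p (nat_lit 0x89) (nat_lit 0) (p (nat_lit 0x41) (nat_lit 0) (p (nat_lit 0x10a0b0a89089a) (nat_lit 0) (p (nat_lit 0x98a8a08881a) (nat_lit 0) (p (nat_lit 0x109088988079a) (nat_lit 0) (p (nat_lit 0x8880907871a) (nat_lit 0) (p (nat_lit 0x8000000000800080887068a) (nat_lit 0) (p (nat_lit 0x10888068602) (nat_lit 0) (p (nat_lit 0x807860582) (nat_lit 0) (p (nat_lit 0x10607058502) (nat_lit 0) (p (nat_lit 0x586850482) (nat_lit 0) (p (nat_lit 0x16000c) (nat_lit 0) (p (nat_lit 0x68612) (nat_lit 0) (p (nat_lit 0x50592) (nat_lit 0) (p (nat_lit 0x40512) (nat_lit 0) (p (nat_lit 0x50312) (nat_lit 0) (p (nat_lit 0x38292) (nat_lit 0) (p (nat_lit 0x28212) (nat_lit 0) (p (nat_lit 0x38112) (nat_lit 0) (p (nat_lit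 0x20092) (nat_lit 0) (p (nat_lit 0x10012) (nat_lit 0) pn))))))))))))))))))))))))))) :=
  Cl.node (nat_lit 0x380c2) (nat_lit 1) (by decide +kernel) (ClAll.succ ClAll.zero n381)

def n456 : Cl (O (nat_lit 5)) (R (nat_lit 14353))
    (p (nat_lit 0xd1) (nat_lit 1) (p (nat_lit 0x111) (nat_lit 1) (p (nat_lit 0x109) (nat_lit 0) (p (nat_lit 0x101) (nat_lit 0) (p (nat_lit 0x119) (nat_lit 0) (p (nat_lit 0xc9) (nat_lit 0) (p (nat_lit 0x89) (nat_lit 1) (p (nat_lit 0x41) (nat_lit 0) (p (nat_lit 0x10a0b0a89089a) (nat_lit 0) (p (nat_lit 0x98a8a08881a) (nat_lit 0) (p (nat_lit 0x109088988079a) (nat_lit 0) (p (nat_lit 0x8880907871a) (nat_lit 0) (p (nat_lit 0x8000000000800080887068a) (nat_lit 0) (p (nat_lit 0x10888068602) (nat_lit 0) (p (nat_lit 0x807860582) (nat_lit 0) (p (nat_lit 0x10607058502) (nat_lit 0) (p (nat_lit 0x586850482) (nat_lit 0) (p (nat_lit 0x16000c) (nat_lit 0) (p (nat_lit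 0x68612) (nat_lit 0) (p (nat_lit 0x50592) (nat_lit 0) (p (nat_lit 0x40512) (nat_lit 0) (p (nat_lit 0x50312) (nat_lit 0) (p (nat_lit 0x38292) (nat_lit 0) (p (nat_lit 0x28212) (nat_lit 0) (p (nat_lit 0x38112) (nat_lit 0) (p (nat_lit 0x20092) (nat_lit 0) (p (nat_lit 0x10012) (nat_lit 0) pn))))))))))))))))))))))))))) :=
  Cl.node (nat_lit 0x444aa) (nat_lit 12) (by decide +kernel) (ClAll.succ (ClAll.succ (ClAll.succ (ClAll.succ (ClAll.succ (ClAll.succ (ClAll.succ (ClAll.succ (ClAll.succ (ClAll.succ (ClAll.succ (ClAll.succ ClAll.zero s354) s355) s356) s357) s358) s359) s360) n382) s383) s384) n383) s393)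

def n457 : Cl (O (nat_lit 5)) (R (nat_lit 14353))
    (p (nat_lit 0x200004) (nat_lit 0) (p (nat_lit 0xd1) (nat_lit 0) (p (nat_lit 0x109) (nat_lit 1) (p (nat_lit 0x101) (nat_lit 0) (p (nat_lit 0x119) (nat_lit 0) (p (nat_lit 0xc9) (nat_lit 0) (p (nat_lit 0x89) (nat_lit 1) (p (nat_lit 0x41) (nat_lit 0) (p (nat_lit 0x10a0b0a89089a) (nat_lit 0) (p (nat_lit 0x98a8a08881a) (nat_lit 0) (p (nat_lit 0x109088988079a) (nat_lit 0) (p (nat_lit 0x8880907871a) (nat_lit 0) (p (nat_lit 0x8000000000800080887068a) (nat_lit 0) (p (nat_lit 0x10888068602) (nat_lit 0) (p (nat_lit 0x807860582) (nat_lit 0) (p (nat_lit 0x10607058502) (nat_lit 0) (p (nat_lit 0x586850482) (nat_lit 0) (p (nat_lit 0x16000c) (nat_lit 0) (p (nat_lit 0x68612) (nat_lit 0) (p (nat_lit 0x50592) (nat_lit 0) (p (nat_lit 0x40512) (nat_lit 0) (p (nat_lit 0x50312) (nat_lit 0) (p (nat_lit 0x38292) (nat_lit 0) (p (nat_lit 0x28212)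 (nat_lit 0) (p (nat_lit 0x38112) (nat_lit 0) (p (nat_lit 0x20092) (nat_lit 0) (p (nat_lit 0x10012) (nat_lit 0) pn))))))))))))))))))))))))))) :=
  Cl.node (nat_lit 0x200014) (nat_lit 2) (by decide +kernel) (ClAll.succ (ClAll.succ ClAll.zero n384) s408)

def n458 : Cl (O (nat_lit 5)) (R (nat_lit 14353))
    (p (nat_lit 0x444aa) (nat_lit 7) (p (nat_lit 0xd1) (nat_lit 1) (p (nat_lit 0x109) (nat_lit 1) (p (nat_lit 0x101) (nat_lit 0) (p (nat_lit 0x119) (nat_lit 0) (p (nat_lit 0xc9) (nat_lit 0) (p (nat_lit 0x89) (nat_lit 1) (p (nat_lit 0x41) (nat_lit 0) (p (nat_lit 0x10a0b0a89089a) (nat_lit 0) (p (nat_lit 0x98a8a08881a) (nat_lit 0) (p (nat_lit 0x109088988079a) (nat_lit 0) (p (nat_lit 0x8880907871a) (nat_lit 0) (p (nat_lit 0x8000000000800080887068a) (nat_lit 0) (p (nat_lit 0x10888068602) (nat_lit 0) (p (nat_lit 0x807860582) (nat_lit 0) (p (nat_lit 0x10607058502) (nat_lit 0) (p (nat_lit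 0x586850482) (nat_lit 0) (p (nat_lit 0x16000c) (nat_lit 0) (p (nat_lit 0x68612) (nat_lit 0) (p (nat_lit 0x50592) (nat_lit 0) (p (nat_lit 0x40512) (nat_lit 0) (p (nat_lit 0x50312) (nat_lit 0) (p (nat_lit 0x38292) (nat_lit 0) (p (nat_lit 0x28212) (nat_lit 0) (p (nat_lit 0x38112) (nat_lit 0) (p (nat_lit 0x20092) (nat_lit 0) (p (nat_lit 0x10012) (nat_lit 0) pn))))))))))))))))))))))))))) :=
  Cl.node (nat_lit 0x380c2) (nat_lit 2) (by decide +kernel) (ClAll.succ (ClAll.succ ClAll.zero n385) n386)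

def n459 : Cl (O (nat_lit 5)) (R (nat_lit 14353))
    (p (nat_lit 0x200004) (nat_lit 0) (p (nat_lit 0xd1) (nat_lit 0) (p (nat_lit 0xc1) (nat_lit 0) (p (nat_lit 0x101) (nat_lit 1) (p (nat_lit 0x119) (nat_lit 0) (p (nat_lit 0xc9) (nat_lit 0) (p (nat_lit 0x89) (nat_lit 1) (p (nat_lit 0x41) (nat_lit 0) (p (nat_lit 0x10a0b0a89089a) (nat_lit 0) (p (nat_lit 0x98a8a08881a) (nat_lit 0) (p (nat_lit 0x109088988079a) (nat_lit 0) (p (nat_lit 0x8880907871a) (nat_lit 0) (p (nat_lit 0x8000000000800080887068a) (nat_lit 0) (p (nat_lit 0x10888068602) (nat_lit 0) (p (nat_lit 0x807860582) (nat_lit 0) (p (nat_lit 0x10607058502) (nat_lit 0) (p (nat_lit 0x586850482) (nat_lit 0) (p (nat_lit 0x16000c) (nat_lit 0) (p (nat_lit 0x68612) (nat_lit 0) (p (nat_lit 0x50592) (nat_lit 0) (p (nat_lit 0x40512) (nat_lit 0) (p (nat_lit 0x50312) (nat_lit 0) (p (nat_lit 0x38292) (nat_lit 0) (p (nat_lit 0x28212)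 (nat_lit 0) (p (nat_lit 0x38112) (nat_lit 0) (p (nat_lit 0x20092) (nat_lit 0) (p (nat_lit 0x10012) (nat_lit 0) pn))))))))))))))))))))))))))) :=
  Cl.node (nat_lit 0x200014) (nat_lit 2) (by decide +kernel) (ClAll.succ (ClAll.succ ClAll.zero n387) s465)

def n460 : Cl (O (nat_lit 5)) (R (nat_lit 14353))
    (p (nat_lit 0x444aa) (nat_lit 7) (p (nat_lit 0xd1) (nat_lit 1) (p (nat_lit 0xc1) (nat_lit 0) (p (nat_lit 0x101) (nat_lit 1) (p (nat_lit 0x119) (nat_lit 0) (p (nat_lit 0xc9) (nat_lit 0) (p (nat_lit 0x89) (nat_lit 1) (p (nat_lit 0x41) (nat_lit 0) (p (nat_lit 0x10a0b0a89089a) (nat_lit 0) (p (nat_lit 0x98a8a08881a) (nat_lit 0) (p (nat_lit 0x109088988079a) (nat_lit 0) (p (nat_lit 0x8880907871a) (nat_lit 0) (p (nat_lit 0x8000000000800080887068a) (nat_lit 0) (p (nat_lit 0x10888068602) (nat_lit 0) (p (nat_lit 0x807860582) (nat_lit 0) (p (nat_lit 0x10607058502) (nat_lit 0) (p (nat_lit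 0x586850482) (nat_lit 0) (p (nat_lit 0x16000c) (nat_lit 0) (p (nat_lit 0x68612) (nat_lit 0) (p (nat_lit 0x50592) (nat_lit 0) (p (nat_lit 0x40512) (nat_lit 0) (p (nat_lit 0x50312) (nat_lit 0) (p (nat_lit 0x38292) (nat_lit 0) (p (nat_lit 0x28212) (nat_lit 0) (p (nat_lit 0x38112) (nat_lit 0) (p (nat_lit 0x20092) (nat_lit 0) (p (nat_lit 0x10012) (nat_lit 0) pn))))))))))))))))))))))))))) :=
  Cl.node (nat_lit 0x380c2) (nat_lit 2) (by decide +kernel) (ClAll.succ (ClAll.succ ClAll.zero n388) s476)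

def n461 : Cl (O (nat_lit 5)) (R (nat_lit 14353))
    (p (nat_lit 0x444aa) (nat_lit 7) (p (nat_lit 0x111) (nat_lit 1) (p (nat_lit 0xd1) (nat_lit 1) (p (nat_lit 0xc1) (nat_lit 0) (p (nat_lit 0x119) (nat_lit 1) (p (nat_lit 0xc9) (nat_lit 0) (p (nat_lit 0x89) (nat_lit 1) (p (nat_lit 0x41) (nat_lit 0) (p (nat_lit 0x10a0b0a89089a) (nat_lit 0) (p (nat_lit 0x98a8a08881a) (nat_lit 0) (p (nat_lit 0x109088988079a) (nat_lit 0) (p (nat_lit 0x8880907871a) (nat_lit 0) (p (nat_lit 0x8000000000800080887068a) (nat_lit 0) (p (nat_lit 0x10888068602) (nat_lit 0) (p (nat_lit 0x807860582) (nat_lit 0) (p (nat_lit 0x10607058502) (nat_lit 0) (p (nat_lit 0x586850482) (nat_lit 0) (p (nat_lit 0x16000c) (nat_lit 0) (p (nat_lit 0x68612) (nat_lit 0) (p (nat_lit 0x50592) (nat_lit 0) (p (nat_lit 0x40512) (nat_lit 0) (p (nat_lit 0x50312) (nat_lit 0) (p (nat_lit 0x38292) (nat_lit 0) (p (nat_lit 0x28212)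 (nat_lit 0) (p (nat_lit 0x38112) (nat_lit 0) (p (nat_lit 0x20092) (nat_lit 0) (p (nat_lit 0x10012) (nat_lit 0) pn))))))))))))))))))))))))))) :=
  Cl.node (nat_lit 0x380c2) (nat_lit 2) (by decide +kernel) (ClAll.succ (ClAll.succ ClAll.zero n389) n390)

def n462 : Cl (O (nat_lit 5)) (R (nat_lit 14353))
    (p (nat_lit 0x444aa) (nat_lit 7) (p (nat_lit 0x111) (nat_lit 1) (p (nat_lit 0x101) (nat_lit 0) (p (nat_lit 0xc1) (nat_lit 1) (p (nat_lit 0x119) (nat_lit 1) (p (nat_lit 0xc9) (nat_lit 0) (p (nat_lit 0x89) (nat_lit 1) (p (nat_lit 0x41) (nat_lit 0) (p (nat_lit 0x10a0b0a89089a) (nat_lit 0) (p (nat_lit 0x98a8a08881a) (nat_lit 0) (p (nat_lit 0x109088988079a) (nat_lit 0) (p (nat_lit 0x8880907871a) (nat_lit 0) (p (nat_lit 0x8000000000800080887068a) (nat_lit 0) (p (nat_lit 0x10888068602) (nat_lit 0) (p (nat_lit 0x807860582) (nat_lit 0) (p (nat_lit 0x10607058502) (nat_lit 0) (p (nat_lit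 0x586850482) (nat_lit 0) (p (nat_lit 0x16000c) (nat_lit 0) (p (nat_lit 0x68612) (nat_lit 0) (p (nat_lit 0x50592) (nat_lit 0) (p (nat_lit 0x40512) (nat_lit 0) (p (nat_lit 0x50312) (nat_lit 0) (p (nat_lit 0x38292) (nat_lit 0) (p (nat_lit 0x28212) (nat_lit 0) (p (nat_lit 0x38112) (nat_lit 0) (p (nat_lit 0x20092) (nat_lit 0) (p (nat_lit 0x10012) (nat_lit 0) pn))))))))))))))))))))))))))) :=
  Cl.node (nat_lit 0x380c2) (nat_lit 2) (by decide +kernel) (ClAll.succ (ClAll.succ ClAll.zero n391) n392)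

def n463 : Cl (O (nat_lit 5)) (R (nat_lit 14353))
    (p (nat_lit 0x111) (nat_lit 0) (p (nat_lit 0x89) (nat_lit 0) (p (nat_lit 0x109) (nat_lit 1) (p (nat_lit 0x101) (nat_lit 0) (p (nat_lit 0x119) (nat_lit 0) (p (nat_lit 0xd1) (nat_lit 0) (p (nat_lit 0x81) (nat_lit 0) (p (nat_lit 0x41) (nat_lit 1) (p (nat_lit 0x10a0b0a89089a) (nat_lit 0) (p (nat_lit 0x98a8a08881a) (nat_lit 0) (p (nat_lit 0x109088988079a) (nat_lit 0) (p (nat_lit 0x8880907871a) (nat_lit 0) (p (nat_lit 0x8000000000800080887068a) (nat_lit 0) (p (nat_lit 0x10888068602) (nat_lit 0) (p (nat_lit 0x807860582) (nat_lit 0) (p (nat_lit 0x10607058502) (nat_lit 0) (p (nat_lit 0x586850482) (nat_lit 0) (p (nat_lit 0x16000c) (nat_lit 0) (p (nat_lit 0x68612) (nat_lit 0) (p (nat_lit 0x50592) (nat_lit 0) (p (nat_lit 0x40512) (nat_lit 0) (p (nat_lit 0x50312) (nat_lit 0) (p (nat_lit 0x38292) (nat_lit 0) (p (nat_lit 0x28212) (nat_lit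 0) (p (nat_lit 0x38112) (nat_lit 0) (p (nat_lit 0x20092) (nat_lit 0) (p (nat_lit 0x10012) (nat_lit 0) pn))))))))))))))))))))))))))) :=
  Cl.node (nat_lit 0x4c42a) (nat_lit 12) (by decide +kernel) (ClAll.succ (ClAll.succ (ClAll.succ (ClAll.succ (ClAll.succ (ClAll.succ (ClAll.succ (ClAll.succ (ClAll.succ (ClAll.succ (ClAll.succ (ClAll.succ ClAll.zero s551) s552) n393) s566) s567) s568) s569) s570) s571) s572) s573) s574)

def n464 : Cl (O (nat_lit 5)) (R (nat_lit 14353))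
    (p (nat_lit 0x111) (nat_lit 1) (p (nat_lit 0x89) (nat_lit 0) (p (nat_lit 0x109) (nat_lit 1) (p (nat_lit 0x101) (nat_lit 0) (p (nat_lit 0x119) (nat_lit 0) (p (nat_lit 0xd1) (nat_lit 0) (p (nat_lit 0x81) (nat_lit 0) (p (nat_lit 0x41) (nat_lit 1) (p (nat_lit 0x10a0b0a89089a) (nat_lit 0) (p (nat_lit 0x98a8a08881a) (nat_lit 0) (p (nat_lit 0x109088988079a) (nat_lit 0) (p (nat_lit 0x8880907871a) (nat_lit 0) (p (nat_lit 0x8000000000800080887068a) (nat_lit 0) (p (nat_lit 0x10888068602) (nat_lit 0) (p (nat_lit 0x807860582) (nat_lit 0) (p (nat_lit 0x10607058502) (nat_lit 0) (p (nat_lit 0x586850482) (nat_lit 0) (p (nat_lit 0x16000c) (nat_lit 0) (p (nat_lit 0x68612) (nat_lit 0) (p (nat_lit 0x50592) (nat_lit 0) (p (nat_lit 0x40512) (nat_lit 0) (p (nat_lit 0x50312) (nat_lit 0) (p (nat_lit 0x38292) (nat_lit 0) (p (nat_lit 0x28212) (nat_lit 0) (p (nat_lit 0x38112) (nat_lit 0) (p (nat_lit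 0x20092) (nat_lit 0) (p (nat_lit 0x10012) (nat_lit 0) pn))))))))))))))))))))))))))) :=
  Cl.node (nat_lit 0x4c42a) (nat_lit 12) (by decide +kernel) (ClAll.succ (ClAll.succ (ClAll.succ (ClAll.succ (ClAll.succ (ClAll.succ (ClAll.succ (ClAll.succ (ClAll.succ (ClAll.succ (ClAll.succ (ClAll.succ ClAll.zero s575) s576) n394) s589) s590) s591) s592) s593) s594) s595) s596) s597)

def n465 : Cl (O (nat_lit 5)) (R (nat_lit 14353))
    (p (nat_lit 0xc9) (nat_lit 0) (p (nat_lit 0x89) (nat_lit 1) (p (nat_lit 0x109) (nat_lit 1) (p (nat_lit 0x101) (nat_lit 0) (p (nat_lit 0x119) (nat_lit 0) (p (nat_lit 0xd1) (nat_lit 0) (p (nat_lit 0x81) (nat_lit 0) (p (nat_lit 0x41) (nat_lit 1) (p (nat_lit 0x10a0b0a89089a) (nat_lit 0) (p (nat_lit 0x98a8a08881a) (nat_lit 0) (p (nat_lit 0x109088988079a) (nat_lit 0) (p (nat_lit 0x8880907871a) (nat_lit 0) (p (nat_lit 0x8000000000800080887068a) (nat_lit 0)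 (p (nat_lit 0x10888068602) (nat_lit 0) (p (nat_lit 0x807860582) (nat_lit 0) (p (nat_lit 0x10607058502) (nat_lit 0) (p (nat_lit 0x586850482) (nat_lit 0) (p (nat_lit 0x16000c) (nat_lit 0) (p (nat_lit 0x68612) (nat_lit 0) (p (nat_lit 0x50592) (nat_lit 0) (p (nat_lit 0x40512) (nat_lit 0) (p (nat_lit 0x50312) (nat_lit 0) (p (nat_lit 0x38292) (nat_lit 0) (p (nat_lit 0x28212) (nat_lit 0) (p (nat_lit 0x38112) (nat_lit 0) (p (nat_lit 0x20092) (nat_lit 0) (p (nat_lit 0x10012) (nat_lit 0) pn))))))))))))))))))))))))))) :=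
  Cl.node (nat_lit 0x4c42a) (nat_lit 12) (by decide +kernel) (ClAll.succ (ClAll.succ (ClAll.succ (ClAll.succ (ClAll.succ (ClAll.succ (ClAll.succ (ClAll.succ (ClAll.succ (ClAll.succ (ClAll.succ (ClAll.succ ClAll.zero s598) s599) n395) s622) s623) s624) s625) s626) s627) s628) s629) s630)

def n466 : Cl (O (nat_lit 5)) (R (nat_lit 14353))
    (p (nat_lit 0xc9) (nat_lit 1) (p (nat_lit 0x89) (nat_lit 1) (p (nat_lit 0x109) (nat_lit 1) (p (nat_lit 0x101) (nat_lit 0) (p (nat_lit 0x119) (nat_lit 0) (p (nat_lit 0xd1) (nat_lit 0) (p (nat_lit 0x81) (nat_lit 0) (p (nat_lit 0x41) (nat_lit 1) (p (nat_lit 0x10a0b0a89089a) (nat_lit 0) (p (nat_lit 0x98a8a08881a) (nat_lit 0) (p (nat_lit 0x109088988079a) (nat_lit 0) (p (nat_lit 0x8880907871a) (nat_lit 0) (p (nat_lit 0x8000000000800080887068a) (nat_lit 0) (p (nat_lit 0x10888068602) (nat_lit 0) (p (nat_lit 0x807860582) (nat_lit 0) (p (nat_lit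 0x10607058502) (nat_lit 0) (p (nat_lit 0x586850482) (nat_lit 0) (p (nat_lit 0x16000c) (nat_lit 0) (p (nat_lit 0x68612) (nat_lit 0) (p (nat_lit 0x50592) (nat_lit 0) (p (nat_lit 0x40512) (nat_lit 0) (p (nat_lit 0x50312) (nat_lit 0) (p (nat_lit 0x38292) (nat_lit 0) (p (nat_lit 0x28212) (nat_lit 0) (p (nat_lit 0x38112) (nat_lit 0) (p (nat_lit 0x20092) (nat_lit 0) (p (nat_lit 0x10012) (nat_lit 0) pn))))))))))))))))))))))))))) :=
  Cl.node (nat_lit 0x3c4aa) (nat_lit 12) (by decide +kernel) (ClAll.succ (ClAll.succ (ClAll.succ (ClAll.succ (ClAll.succ (ClAll.succ (ClAll.succ (ClAll.succ (ClAll.succ (ClAll.succ (ClAll.succ (ClAll.succ ClAll.zero s631) s632) s633) s634) s635) s636) s637) s638) s639) s640) s641) s642)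

def n467 : Cl (O (nat_lit 5)) (R (nat_lit 14353))
    (p (nat_lit 0x3cc2a) (nat_lit 10) (p (nat_lit 0x89) (nat_lit 0) (p (nat_lit 0xc1) (nat_lit 0) (p (nat_lit 0x101) (nat_lit 1) (p (nat_lit 0x119) (nat_lit 0) (p (nat_lit 0xd1) (nat_lit 0) (p (nat_lit 0x81) (nat_lit 0) (p (nat_lit 0x41) (nat_lit 1) (p (nat_lit 0x10a0b0a89089a) (nat_lit 0) (p (nat_lit 0x98a8a08881a) (nat_lit 0) (p (nat_lit 0x109088988079a) (nat_lit 0) (p (nat_lit 0x8880907871a) (nat_lit 0) (p (nat_lit 0x8000000000800080887068a) (nat_lit 0) (p (nat_lit 0x10888068602) (nat_lit 0) (p (nat_lit 0x807860582) (nat_lit 0) (p (nat_lit 0x10607058502) (nat_lit 0) (p (nat_lit 0x586850482) (nat_lit 0) (p (nat_lit 0x16000c) (nat_lit 0) (p (nat_lit 0x68612) (nat_lit 0) (p (nat_lit 0x50592) (nat_lit 0) (p (nat_lit 0x40512) (nat_lit 0) (p (nat_lit 0x50312) (nat_lit 0) (p (nat_lit 0x38292) (nat_lit 0) (p (nat_lit 0x28212)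 (nat_lit 0) (p (nat_lit 0x38112) (nat_lit 0) (p (nat_lit 0x20092) (nat_lit 0) (p (nat_lit 0x10012) (nat_lit 0) pn))))))))))))))))))))))))))) :=
  Cl.node (nat_lit 0x380c2) (nat_lit 2) (by decide +kernel) (ClAll.succ (ClAll.succ ClAll.zero s653) s654)

def n468 : Cl (O (nat_lit 5)) (R (nat_lit 14353))
    (p (nat_lit 0x3cc2a) (nat_lit 11) (p (nat_lit 0x89) (nat_lit 0) (p (nat_lit 0xc1) (nat_lit 0) (p (nat_lit 0x101) (nat_lit 1) (p (nat_lit 0x119) (nat_lit 0) (p (nat_lit 0xd1) (nat_lit 0) (p (nat_lit 0x81) (nat_lit 0) (p (nat_lit 0x41) (nat_lit 1) (p (nat_lit 0x10a0b0a89089a) (nat_lit 0) (p (nat_lit 0x98a8a08881a) (nat_lit 0) (p (nat_lit 0x109088988079a) (nat_lit 0) (p (nat_lit 0x8880907871a) (nat_lit 0) (p (nat_lit 0x8000000000800080887068a) (nat_lit 0) (p (nat_lit 0x10888068602) (nat_lit 0) (p (nat_lit 0x807860582) (nat_lit 0) (p (nat_lit 0x10607058502) (nat_lit 0) (p (nat_lit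 0x586850482) (nat_lit 0) (p (nat_lit 0x16000c) (nat_lit 0) (p (nat_lit 0x68612) (nat_lit 0) (p (nat_lit 0x50592) (nat_lit 0) (p (nat_lit 0x40512) (nat_lit 0) (p (nat_lit 0x50312) (nat_lit 0) (p (nat_lit 0x38292) (nat_lit 0) (p (nat_lit 0x28212) (nat_lit 0) (p (nat_lit 0x38112) (nat_lit 0) (p (nat_lit 0x20092) (nat_lit 0) (p (nat_lit 0x10012) (nat_lit 0) pn))))))))))))))))))))))))))) :=
  Cl.node (nat_lit 0x380c2) (nat_lit 2) (by decide +kernel) (ClAll.succ (ClAll.succ ClAll.zero s655) n396)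

def n469 : Cl (O (nat_lit 5)) (R (nat_lit 14353))
    (p (nat_lit 0xc9) (nat_lit 0) (p (nat_lit 0x89) (nat_lit 1) (p (nat_lit 0xc1) (nat_lit 0) (p (nat_lit 0x101) (nat_lit 1) (p (nat_lit 0x119) (nat_lit 0) (p (nat_lit 0xd1) (nat_lit 0) (p (nat_lit 0x81) (nat_lit 0) (p (nat_lit 0x41) (nat_lit 1) (p (nat_lit 0x10a0b0a89089a) (nat_lit 0) (p (nat_lit 0x98a8a08881a) (nat_lit 0) (p (nat_lit 0x109088988079a) (nat_lit 0) (p (nat_lit 0x8880907871a) (nat_lit 0) (p (nat_lit 0x8000000000800080887068a) (nat_lit 0) (p (nat_lit 0x10888068602) (nat_lit 0) (p (nat_lit 0x807860582) (nat_lit 0) (p (nat_lit 0x10607058502) (nat_lit 0) (p (nat_lit 0x586850482) (nat_lit 0) (p (nat_lit 0x16000c) (nat_lit 0) (p (nat_lit 0x68612) (nat_lit 0) (p (nat_lit 0x50592) (nat_lit 0) (p (nat_lit 0x40512) (nat_lit 0) (p (nat_lit 0x50312) (nat_lit 0) (p (nat_lit 0x38292) (nat_lit 0) (p (nat_lit 0x28212) (nat_lit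 0) (p (nat_lit 0x38112) (nat_lit 0) (p (nat_lit 0x20092) (nat_lit 0) (p (nat_lit 0x10012) (nat_lit 0) pn))))))))))))))))))))))))))) :=
  Cl.node (nat_lit 0x4c42a) (nat_lit 12) (by decide +kernel) (ClAll.succ (ClAll.succ (ClAll.succ (ClAll.succ (ClAll.succ (ClAll.succ (ClAll.succ (ClAll.succ (ClAll.succ (ClAll.succ (ClAll.succ (ClAll.succ ClAll.zero s658) s659) n397) s686) s687) s688) s689) s690) s691) s692) s693) s694)

def n470 : Cl (O (nat_lit 5)) (R (nat_lit 14353))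
    (p (nat_lit 0xc9) (nat_lit 1) (p (nat_lit 0x89) (nat_lit 1) (p (nat_lit 0xc1) (nat_lit 0) (p (nat_lit 0x101) (nat_lit 1) (p (nat_lit 0x119) (nat_lit 0) (p (nat_lit 0xd1) (nat_lit 0) (p (nat_lit 0x81) (nat_lit 0) (p (nat_lit 0x41) (nat_lit 1) (p (nat_lit 0x10a0b0a89089a) (nat_lit 0) (p (nat_lit 0x98a8a08881a) (nat_lit 0) (p (nat_lit 0x109088988079a) (nat_lit 0) (p (nat_lit 0x8880907871a) (nat_lit 0) (p (nat_lit 0x8000000000800080887068a) (nat_lit 0) (p (nat_lit 0x10888068602) (nat_lit 0) (p (nat_lit 0x807860582) (nat_lit 0) (p (nat_lit 0x10607058502) (nat_lit 0) (p (nat_lit 0x586850482) (nat_lit 0) (p (nat_lit 0x16000c) (nat_lit 0) (p (nat_lit 0x68612) (nat_lit 0) (p (nat_lit 0x50592) (nat_lit 0) (p (nat_lit 0x40512) (nat_lit 0) (p (nat_lit 0x50312) (nat_lit 0) (p (nat_lit 0x38292) (nat_lit 0) (p (nat_lit 0x28212) (nat_lit 0) (p (nat_lit 0x38112) (nat_lit 0) (p (nat_lit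 0x20092) (nat_lit 0) (p (nat_lit 0x10012) (nat_lit 0) pn))))))))))))))))))))))))))) :=
  Cl.node (nat_lit 0x4c42a) (nat_lit 12) (by decide +kernel) (ClAll.succ (ClAll.succ (ClAll.succ (ClAll.succ (ClAll.succ (ClAll.succ (ClAll.succ (ClAll.succ (ClAll.succ (ClAll.succ (ClAll.succ (ClAll.succ ClAll.zero s695) s696) n398) s712) s713) s714) s715) s716) s717) s718) s719) s720)

def n471 : Cl (O (nat_lit 5)) (R (nat_lit 14353))
    (p (nat_lit 0x3c4aa) (nat_lit 7) (p (nat_lit 0x89) (nat_lit 1) (p (nat_lit 0xc1) (nat_lit 1) (p (nat_lit 0x101) (nat_lit 1) (p (nat_lit 0x119) (nat_lit 0) (p (nat_lit 0xd1) (nat_lit 0) (p (nat_lit 0x81) (nat_lit 0) (p (nat_lit 0x41) (nat_lit 1) (p (nat_lit 0x10a0b0a89089a) (nat_lit 0) (p (nat_lit 0x98a8a08881a) (nat_lit 0) (p (nat_lit 0x109088988079a) (nat_lit 0) (p (nat_lit 0x8880907871a) (nat_lit 0) (p (nat_lit 0x8000000000800080887068a) (nat_lit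 0) (p (nat_lit 0x10888068602) (nat_lit 0) (p (nat_lit 0x807860582) (nat_lit 0) (p (nat_lit 0x10607058502) (nat_lit 0) (p (nat_lit 0x586850482) (nat_lit 0) (p (nat_lit 0x16000c) (nat_lit 0) (p (nat_lit 0x68612) (nat_lit 0) (p (nat_lit 0x50592) (nat_lit 0) (p (nat_lit 0x40512) (nat_lit 0) (p (nat_lit 0x50312) (nat_lit 0) (p (nat_lit 0x38292) (nat_lit 0) (p (nat_lit 0x28212) (nat_lit 0) (p (nat_lit 0x38112) (nat_lit 0) (p (nat_lit 0x20092) (nat_lit 0) (p (nat_lit 0x10012) (nat_lit 0) pn))))))))))))))))))))))))))) :=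
  Cl.node (nat_lit 0x380c2) (nat_lit 2) (by decide +kernel) (ClAll.succ (ClAll.succ ClAll.zero n399) n400)

def n472 : Cl (O (nat_lit 5)) (R (nat_lit 14353))
    (p (nat_lit 0x3c4aa) (nat_lit 10) (p (nat_lit 0x89) (nat_lit 1) (p (nat_lit 0xc1) (nat_lit 1) (p (nat_lit 0x101) (nat_lit 1) (p (nat_lit 0x119) (nat_lit 0) (p (nat_lit 0xd1) (nat_lit 0) (p (nat_lit 0x81) (nat_lit 0) (p (nat_lit 0x41) (nat_lit 1) (p (nat_lit 0x10a0b0a89089a) (nat_lit 0) (p (nat_lit 0x98a8a08881a) (nat_lit 0) (p (nat_lit 0x109088988079a) (nat_lit 0) (p (nat_lit 0x8880907871a) (nat_lit 0) (p (nat_lit 0x8000000000800080887068a) (nat_lit 0) (p (nat_lit 0x10888068602) (nat_lit 0) (p (nat_lit 0x807860582) (nat_lit 0) (p (nat_lit 0x10607058502) (nat_lit 0) (p (nat_lit 0x586850482) (nat_lit 0) (p (nat_lit 0x16000c) (nat_lit 0) (p (nat_lit 0x68612) (nat_lit 0) (p (nat_lit 0x50592) (nat_lit 0) (p (nat_lit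 0x40512) (nat_lit 0) (p (nat_lit 0x50312) (nat_lit 0) (p (nat_lit 0x38292) (nat_lit 0) (p (nat_lit 0x28212) (nat_lit 0) (p (nat_lit 0x38112) (nat_lit 0) (p (nat_lit 0x20092) (nat_lit 0) (p (nat_lit 0x10012) (nat_lit 0) pn))))))))))))))))))))))))))) :=
  Cl.node (nat_lit 0x380c2) (nat_lit 2) (by decide +kernel) (ClAll.succ (ClAll.succ ClAll.zero s751) n401)

def n473 : Cl (O (nat_lit 5)) (R (nat_lit 14353))
    (p (nat_lit 0x109) (nat_lit 0) (p (nat_lit 0x89) (nat_lit 1) (p (nat_lit 0xc9) (nat_lit 1) (p (nat_lit 0xc1) (nat_lit 0) (p (nat_lit 0x119) (nat_lit 1) (p (nat_lit 0xd1) (nat_lit 0) (p (nat_lit 0x81) (nat_lit 0) (p (nat_lit 0x41) (nat_lit 1) (p (nat_lit 0x10a0b0a89089a) (nat_lit 0) (p (nat_lit 0x98a8a08881a) (nat_lit 0) (p (nat_lit 0x109088988079a) (nat_lit 0) (p (nat_lit 0x8880907871a) (nat_lit 0) (p (nat_lit 0x8000000000800080887068a) (nat_lit 0) (p (nat_lit 0x10888068602)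 (nat_lit 0) (p (nat_lit 0x807860582) (nat_lit 0) (p (nat_lit 0x10607058502) (nat_lit 0) (p (nat_lit 0x586850482) (nat_lit 0) (p (nat_lit 0x16000c) (nat_lit 0) (p (nat_lit 0x68612) (nat_lit 0) (p (nat_lit 0x50592) (nat_lit 0) (p (nat_lit 0x40512) (nat_lit 0) (p (nat_lit 0x50312) (nat_lit 0) (p (nat_lit 0x38292) (nat_lit 0) (p (nat_lit 0x28212) (nat_lit 0) (p (nat_lit 0x38112) (nat_lit 0) (p (nat_lit 0x20092) (nat_lit 0) (p (nat_lit 0x10012) (nat_lit 0) pn))))))))))))))))))))))))))) :=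
  Cl.node (nat_lit 0x44c2a) (nat_lit 12) (by decide +kernel) (ClAll.succ (ClAll.succ (ClAll.succ (ClAll.succ (ClAll.succ (ClAll.succ (ClAll.succ (ClAll.succ (ClAll.succ (ClAll.succ (ClAll.succ (ClAll.succ ClAll.zero n402) n403) n404) s798) s799) s800) s801) s802) s803) s804) s805) s806)

def n474 : Cl (O (nat_lit 5)) (R (nat_lit 14353))
    (p (nat_lit 0x109) (nat_lit 1) (p (nat_lit 0x89) (nat_lit 1) (p (nat_lit 0xc9) (nat_lit 1) (p (nat_lit 0xc1) (nat_lit 0) (p (nat_lit 0x119) (nat_lit 1) (p (nat_lit 0xd1) (nat_lit 0) (p (nat_lit 0x81) (nat_lit 0) (p (nat_lit 0x41) (nat_lit 1) (p (nat_lit 0x10a0b0a89089a) (nat_lit 0) (p (nat_lit 0x98a8a08881a) (nat_lit 0) (p (nat_lit 0x109088988079a) (nat_lit 0) (p (nat_lit 0x8880907871a) (nat_lit 0) (p (nat_lit 0x8000000000800080887068a) (nat_lit 0) (p (nat_lit 0x10888068602) (nat_lit 0) (p (nat_lit 0x807860582) (nat_lit 0) (p (nat_lit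 0x10607058502) (nat_lit 0) (p (nat_lit 0x586850482) (nat_lit 0) (p (nat_lit 0x16000c) (nat_lit 0) (p (nat_lit 0x68612) (nat_lit 0) (p (nat_lit 0x50592) (nat_lit 0) (p (nat_lit 0x40512) (nat_lit 0) (p (nat_lit 0x50312) (nat_lit 0) (p (nat_lit 0x38292) (nat_lit 0) (p (nat_lit 0x28212) (nat_lit 0) (p (nat_lit 0x38112) (nat_lit 0) (p (nat_lit 0x20092) (nat_lit 0) (p (nat_lit 0x10012) (nat_lit 0) pn))))))))))))))))))))))))))) :=
  Cl.node (nat_lit 0x3c4aa) (nat_lit 12) (by decide +kernel) (ClAll.succ (ClAll.succ (ClAll.succ (ClAll.succ (ClAll.succ (ClAll.succ (ClAll.succ (ClAll.succ (ClAll.succ (ClAll.succ (ClAll.succ (ClAll.succ ClAll.zero s807) s808) s809) s810) s811) s812) s813) n405) s817) s818) n406) s831)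

def n475 : Cl (O (nat_lit 5)) (R (nat_lit 14353))
    (p (nat_lit 0x109) (nat_lit 0) (p (nat_lit 0x89) (nat_lit 1) (p (nat_lit 0x101) (nat_lit 0) (p (nat_lit 0xc1) (nat_lit 1) (p (nat_lit 0x119) (nat_lit 1) (p (nat_lit 0xd1) (nat_lit 0) (p (nat_lit 0x81) (nat_lit 0) (p (nat_lit 0x41) (nat_lit 1) (p (nat_lit 0x10a0b0a89089a) (nat_lit 0) (p (nat_lit 0x98a8a08881a) (nat_lit 0) (p (nat_lit 0x109088988079a) (nat_lit 0) (p (nat_lit 0x8880907871a) (nat_lit 0) (p (nat_lit 0x8000000000800080887068a) (nat_lit 0) (p (nat_lit 0x10888068602) (nat_lit 0) (p (nat_lit 0x807860582) (nat_lit 0) (p (nat_lit 0x10607058502) (nat_lit 0) (p (nat_lit 0x586850482) (nat_lit 0) (p (nat_lit 0x16000c) (nat_lit 0) (p (nat_lit 0x68612) (nat_lit 0) (p (nat_lit 0x50592) (nat_lit 0) (p (nat_lit 0x40512) (nat_lit 0) (p (nat_lit 0x50312) (nat_lit 0) (p (nat_lit 0x38292) (nat_lit 0) (p (nat_lit 0x28212) (nat_lit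 0) (p (nat_lit 0x38112) (nat_lit 0) (p (nat_lit 0x20092) (nat_lit 0) (p (nat_lit 0x10012) (nat_lit 0) pn))))))))))))))))))))))))))) :=
  Cl.node (nat_lit 0x44c2a) (nat_lit 12) (by decide +kernel) (ClAll.succ (ClAll.succ (ClAll.succ (ClAll.succ (ClAll.succ (ClAll.succ (ClAll.succ (ClAll.succ (ClAll.succ (ClAll.succ (ClAll.succ (ClAll.succ ClAll.zero n407) n408) n409) s853) s854) s855) s856) s857) s858) s859) s860) s861)

def n476 : Cl (O (nat_lit 5)) (R (nat_lit 14353))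
    (p (nat_lit 0x109) (nat_lit 1) (p (nat_lit 0x89) (nat_lit 1) (p (nat_lit 0x101) (nat_lit 0) (p (nat_lit 0xc1) (nat_lit 1) (p (nat_lit 0x119) (nat_lit 1) (p (nat_lit 0xd1) (nat_lit 0) (p (nat_lit 0x81) (nat_lit 0) (p (nat_lit 0x41) (nat_lit 1) (p (nat_lit 0x10a0b0a89089a) (nat_lit 0) (p (nat_lit 0x98a8a08881a) (nat_lit 0) (p (nat_lit 0x109088988079a) (nat_lit 0) (p (nat_lit 0x8880907871a) (nat_lit 0) (p (nat_lit 0x8000000000800080887068a) (nat_lit 0) (p (nat_lit 0x10888068602) (nat_lit 0) (p (nat_lit 0x807860582) (nat_lit 0) (p (nat_lit 0x10607058502) (nat_lit 0) (p (nat_lit 0x586850482) (nat_lit 0) (p (nat_lit 0x16000c) (nat_lit 0) (p (nat_lit 0x68612) (nat_lit 0) (p (nat_lit 0x50592) (nat_lit 0) (p (nat_lit 0x40512) (nat_lit 0) (p (nat_lit 0x50312) (nat_lit 0) (p (nat_lit 0x38292) (nat_lit 0) (p (nat_lit 0x28212) (nat_lit 0) (p (nat_lit 0x38112) (nat_lit 0) (p (nat_lit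 0x20092) (nat_lit 0) (p (nat_lit 0x10012) (nat_lit 0) pn))))))))))))))))))))))))))) :=
  Cl.node (nat_lit 0x3c4aa) (nat_lit 12) (by decide +kernel) (ClAll.succ (ClAll.succ (ClAll.succ (ClAll.succ (ClAll.succ (ClAll.succ (ClAll.succ (ClAll.succ (ClAll.succ (ClAll.succ (ClAll.succ (ClAll.succ ClAll.zero s862) s863) s864) s865) s866) s867) s868) n410) s883) s884) n411) s892)

def n477 : Cl (O (nat_lit 5)) (R (nat_lit 14353))
    (p (nat_lit 0x3cc2a) (nat_lit 10) (p (nat_lit 0x89) (nat_lit 0) (p (nat_lit 0x101) (nat_lit 1) (p (nat_lit 0xc1) (nat_lit 1) (p (nat_lit 0x119) (nat_lit 1) (p (nat_lit 0xd1) (nat_lit 0) (p (nat_lit 0x81) (nat_lit 0) (p (nat_lit 0x41) (nat_lit 1) (p (nat_lit 0x10a0b0a89089a) (nat_lit 0) (p (nat_lit 0x98a8a08881a) (nat_lit 0) (p (nat_lit 0x109088988079a) (nat_lit 0) (p (nat_lit 0x8880907871a) (nat_lit 0) (p (nat_lit 0x8000000000800080887068a) (nat_lit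 0) (p (nat_lit 0x10888068602) (nat_lit 0) (p (nat_lit 0x807860582) (nat_lit 0) (p (nat_lit 0x10607058502) (nat_lit 0) (p (nat_lit 0x586850482) (nat_lit 0) (p (nat_lit 0x16000c) (nat_lit 0) (p (nat_lit 0x68612) (nat_lit 0) (p (nat_lit 0x50592) (nat_lit 0) (p (nat_lit 0x40512) (nat_lit 0) (p (nat_lit 0x50312) (nat_lit 0) (p (nat_lit 0x38292) (nat_lit 0) (p (nat_lit 0x28212) (nat_lit 0) (p (nat_lit 0x38112) (nat_lit 0) (p (nat_lit 0x20092) (nat_lit 0) (p (nat_lit 0x10012) (nat_lit 0) pn))))))))))))))))))))))))))) :=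
  Cl.node (nat_lit 0x380c2) (nat_lit 2) (by decide +kernel) (ClAll.succ (ClAll.succ ClAll.zero s903) s904)

def n478 : Cl (O (nat_lit 5)) (R (nat_lit 14353))
    (p (nat_lit 0x3cc2a) (nat_lit 11) (p (nat_lit 0x89) (nat_lit 0) (p (nat_lit 0x101) (nat_lit 1) (p (nat_lit 0xc1) (nat_lit 1) (p (nat_lit 0x119) (nat_lit 1) (p (nat_lit 0xd1) (nat_lit 0) (p (nat_lit 0x81) (nat_lit 0) (p (nat_lit 0x41) (nat_lit 1) (p (nat_lit 0x10a0b0a89089a) (nat_lit 0) (p (nat_lit 0x98a8a08881a) (nat_lit 0) (p (nat_lit 0x109088988079a) (nat_lit 0) (p (nat_lit 0x8880907871a) (nat_lit 0) (p (nat_lit 0x8000000000800080887068a) (nat_lit 0) (p (nat_lit 0x10888068602) (nat_lit 0) (p (nat_lit 0x807860582) (nat_lit 0) (p (nat_lit 0x10607058502) (nat_lit 0) (p (nat_lit 0x586850482) (nat_lit 0) (p (nat_lit 0x16000c) (nat_lit 0) (p (nat_lit 0x68612) (nat_lit 0) (p (nat_lit 0x50592) (nat_lit 0) (p (nat_lit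 0x40512) (nat_lit 0) (p (nat_lit 0x50312) (nat_lit 0) (p (nat_lit 0x38292) (nat_lit 0) (p (nat_lit 0x28212) (nat_lit 0) (p (nat_lit 0x38112) (nat_lit 0) (p (nat_lit 0x20092) (nat_lit 0) (p (nat_lit 0x10012) (nat_lit 0) pn))))))))))))))))))))))))))) :=
  Cl.node (nat_lit 0x380c2) (nat_lit 2) (by decide +kernel) (ClAll.succ (ClAll.succ ClAll.zero s905) n412)

def n479 : Cl (O (nat_lit 5)) (R (nat_lit 14353))
    (p (nat_lit 0x3c4aa) (nat_lit 7) (p (nat_lit 0x89) (nat_lit 1) (p (nat_lit 0x101) (nat_lit 1) (p (nat_lit 0xc1) (nat_lit 1) (p (nat_lit 0x119) (nat_lit 1) (p (nat_lit 0xd1) (nat_lit 0) (p (nat_lit 0x81) (nat_lit 0) (p (nat_lit 0x41) (nat_lit 1) (p (nat_lit 0x10a0b0a89089a) (nat_lit 0) (p (nat_lit 0x98a8a08881a) (nat_lit 0) (p (nat_lit 0x109088988079a) (nat_lit 0) (p (nat_lit 0x8880907871a) (nat_lit 0) (p (nat_lit 0x8000000000800080887068a) (nat_lit 0) (p (nat_lit 0x10888068602)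 (nat_lit 0) (p (nat_lit 0x807860582) (nat_lit 0) (p (nat_lit 0x10607058502) (nat_lit 0) (p (nat_lit 0x586850482) (nat_lit 0) (p (nat_lit 0x16000c) (nat_lit 0) (p (nat_lit 0x68612) (nat_lit 0) (p (nat_lit 0x50592) (nat_lit 0) (p (nat_lit 0x40512) (nat_lit 0) (p (nat_lit 0x50312) (nat_lit 0) (p (nat_lit 0x38292) (nat_lit 0) (p (nat_lit 0x28212) (nat_lit 0) (p (nat_lit 0x38112) (nat_lit 0) (p (nat_lit 0x20092) (nat_lit 0) (p (nat_lit 0x10012) (nat_lit 0) pn))))))))))))))))))))))))))) :=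
  Cl.node (nat_lit 0x380c2) (nat_lit 2) (by decide +kernel) (ClAll.succ (ClAll.succ ClAll.zero n413) n414)

def n480 : Cl (O (nat_lit 5)) (R (nat_lit 14353))
    (p (nat_lit 0x3c4aa) (nat_lit 9) (p (nat_lit 0x89) (nat_lit 1) (p (nat_lit 0x101) (nat_lit 1) (p (nat_lit 0xc1) (nat_lit 1) (p (nat_lit 0x119) (nat_lit 1) (p (nat_lit 0xd1) (nat_lit 0) (p (nat_lit 0x81) (nat_lit 0) (p (nat_lit 0x41) (nat_lit 1) (p (nat_lit 0x10a0b0a89089a) (nat_lit 0) (p (nat_lit 0x98a8a08881a) (nat_lit 0) (p (nat_lit 0x109088988079a) (nat_lit 0) (p (nat_lit 0x8880907871a) (nat_lit 0) (p (nat_lit 0x8000000000800080887068a) (nat_lit 0) (p (nat_lit 0x10888068602) (nat_lit 0) (p (nat_lit 0x807860582) (nat_lit 0) (p (nat_lit 0x10607058502) (nat_lit 0) (p (nat_lit 0x586850482) (nat_lit 0) (p (nat_lit 0x16000c) (nat_lit 0) (p (nat_lit 0x68612) (nat_lit 0) (p (nat_lit 0x50592) (nat_lit 0) (p (nat_lit 0x40512)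 (nat_lit 0) (p (nat_lit 0x50312) (nat_lit 0) (p (nat_lit 0x38292) (nat_lit 0) (p (nat_lit 0x28212) (nat_lit 0) (p (nat_lit 0x38112) (nat_lit 0) (p (nat_lit 0x20092) (nat_lit 0) (p (nat_lit 0x10012) (nat_lit 0) pn))))))))))))))))))))))))))) :=
  Cl.node (nat_lit 0x380c2) (nat_lit 1) (by decide +kernel) (ClAll.succ ClAll.zero n415)

def n481 : Cl (O (nat_lit 5)) (R (nat_lit 14353))
    (p (nat_lit 0x3c4aa) (nat_lit 10) (p (nat_lit 0x89) (nat_lit 1) (p (nat_lit 0x101) (nat_lit 1) (p (nat_lit 0xc1) (nat_lit 1) (p (nat_lit 0x119) (nat_lit 1) (p (nat_lit 0xd1) (nat_lit 0) (p (nat_lit 0x81) (nat_lit 0) (p (nat_lit 0x41) (nat_lit 1) (p (nat_lit 0x10a0b0a89089a) (nat_lit 0) (p (nat_lit 0x98a8a08881a) (nat_lit 0) (p (nat_lit 0x109088988079a) (nat_lit 0) (p (nat_lit 0x8880907871a) (nat_lit 0) (p (nat_lit 0x8000000000800080887068a) (nat_lit 0) (p (nat_lit 0x10888068602) (nat_lit 0)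 (p (nat_lit 0x807860582) (nat_lit 0) (p (nat_lit 0x10607058502) (nat_lit 0) (p (nat_lit 0x586850482) (nat_lit 0) (p (nat_lit 0x16000c) (nat_lit 0) (p (nat_lit 0x68612) (nat_lit 0) (p (nat_lit 0x50592) (nat_lit 0) (p (nat_lit 0x40512) (nat_lit 0) (p (nat_lit 0x50312) (nat_lit 0) (p (nat_lit 0x38292) (nat_lit 0) (p (nat_lit 0x28212) (nat_lit 0) (p (nat_lit 0x38112) (nat_lit 0) (p (nat_lit 0x20092) (nat_lit 0) (p (nat_lit 0x10012) (nat_lit 0) pn))))))))))))))))))))))))))) :=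
  Cl.node (nat_lit 0x380c2) (nat_lit 2) (by decide +kernel) (ClAll.succ (ClAll.succ ClAll.zero s935) n416)

def n482 : Cl (O (nat_lit 5)) (R (nat_lit 14353))
    (p (nat_lit 0x119) (nat_lit 1) (p (nat_lit 0x89) (nat_lit 0) (p (nat_lit 0x109) (nat_lit 1) (p (nat_lit 0x101) (nat_lit 0) (p (nat_lit 0x111) (nat_lit 0) (p (nat_lit 0xd1) (nat_lit 1) (p (nat_lit 0x81) (nat_lit 0) (p (nat_lit 0x41) (nat_lit 1) (p (nat_lit 0x10a0b0a89089a) (nat_lit 0) (p (nat_lit 0x98a8a08881a) (nat_lit 0) (p (nat_lit 0x109088988079a) (nat_lit 0) (p (nat_lit 0x8880907871a) (nat_lit 0) (p (nat_lit 0x8000000000800080887068a) (nat_lit 0) (p (nat_lit 0x10888068602) (nat_lit 0) (p (nat_lit 0x807860582) (nat_lit 0) (p (nat_lit 0x10607058502) (nat_lit 0) (p (nat_lit 0x586850482) (nat_lit 0) (p (nat_lit 0x16000c) (nat_lit 0) (p (nat_lit 0x68612) (nat_lit 0) (p (nat_lit 0x50592) (nat_lit 0) (p (nat_lit 0x40512)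 (nat_lit 0) (p (nat_lit 0x50312) (nat_lit 0) (p (nat_lit 0x38292) (nat_lit 0) (p (nat_lit 0x28212) (nat_lit 0) (p (nat_lit 0x38112) (nat_lit 0) (p (nat_lit 0x20092) (nat_lit 0) (p (nat_lit 0x10012) (nat_lit 0) pn))))))))))))))))))))))))))) :=
  Cl.node (nat_lit 0x4c42a) (nat_lit 12) (by decide +kernel) (ClAll.succ (ClAll.succ (ClAll.succ (ClAll.succ (ClAll.succ (ClAll.succ (ClAll.succ (ClAll.succ (ClAll.succ (ClAll.succ (ClAll.succ (ClAll.succ ClAll.zero s946) s947) s948) s949) s950) s951) s952) s953) s954) s955) s956) s957)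

def n483 : Cl (O (nat_lit 5)) (R (nat_lit 14353))
    (p (nat_lit 0xc9) (nat_lit 0) (p (nat_lit 0x89) (nat_lit 1) (p (nat_lit 0x109) (nat_lit 1) (p (nat_lit 0x101) (nat_lit 0) (p (nat_lit 0x111) (nat_lit 0) (p (nat_lit 0xd1) (nat_lit 1) (p (nat_lit 0x81) (nat_lit 0) (p (nat_lit 0x41) (nat_lit 1) (p (nat_lit 0x10a0b0a89089a) (nat_lit 0) (p (nat_lit 0x98a8a08881a) (nat_lit 0) (p (nat_lit 0x109088988079a) (nat_lit 0) (p (nat_lit 0x8880907871a) (nat_lit 0) (p (nat_lit 0x8000000000800080887068a) (nat_lit 0) (p (nat_lit 0x10888068602) (nat_lit 0) (p (nat_lit 0x807860582) (nat_lit 0) (p (nat_lit 0x10607058502) (nat_lit 0) (p (nat_lit 0x586850482) (nat_lit 0) (p (nat_lit 0x16000c) (nat_lit 0) (p (nat_lit 0x68612) (nat_lit 0) (p (nat_lit 0x50592) (nat_lit 0) (p (nat_lit 0x40512) (nat_lit 0) (p (nat_lit 0x50312) (nat_lit 0) (p (nat_lit 0x38292) (nat_lit 0) (p (nat_lit 0x28212) (nat_lit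 0) (p (nat_lit 0x38112) (nat_lit 0) (p (nat_lit 0x20092) (nat_lit 0) (p (nat_lit 0x10012) (nat_lit 0) pn))))))))))))))))))))))))))) :=
  Cl.node (nat_lit 0x119) (nat_lit 2) (by decide +kernel) (ClAll.succ (ClAll.succ ClAll.zero n417) n418)

def n484 : Cl (O (nat_lit 5)) (R (nat_lit 14353))
    (p (nat_lit 0xc9) (nat_lit 1) (p (nat_lit 0x89) (nat_lit 1) (p (nat_lit 0x109) (nat_lit 1) (p (nat_lit 0x101) (nat_lit 0) (p (nat_lit 0x111) (nat_lit 0) (p (nat_lit 0xd1) (nat_lit 1) (p (nat_lit 0x81) (nat_lit 0) (p (nat_lit 0x41) (nat_lit 1) (p (nat_lit 0x10a0b0a89089a) (nat_lit 0) (p (nat_lit 0x98a8a08881a) (nat_lit 0) (p (nat_lit 0x109088988079a) (nat_lit 0) (p (nat_lit 0x8880907871a) (nat_lit 0) (p (nat_lit 0x8000000000800080887068a) (nat_lit 0) (p (nat_lit 0x10888068602) (nat_lit 0) (p (nat_lit 0x807860582) (nat_lit 0) (p (nat_lit 0x10607058502) (nat_lit 0) (p (nat_lit 0x586850482)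 (nat_lit 0) (p (nat_lit 0x16000c) (nat_lit 0) (p (nat_lit 0x68612) (nat_lit 0) (p (nat_lit 0x50592) (nat_lit 0) (p (nat_lit 0x40512) (nat_lit 0) (p (nat_lit 0x50312) (nat_lit 0) (p (nat_lit 0x38292) (nat_lit 0) (p (nat_lit 0x28212) (nat_lit 0) (p (nat_lit 0x38112) (nat_lit 0) (p (nat_lit 0x20092) (nat_lit 0) (p (nat_lit 0x10012) (nat_lit 0) pn))))))))))))))))))))))))))) :=
  Cl.node (nat_lit 0x3c4aa) (nat_lit 12) (by decide +kernel) (ClAll.succ (ClAll.succ (ClAll.succ (ClAll.succ (ClAll.succ (ClAll.succ (ClAll.succ (ClAll.succ (ClAll.succ (ClAll.succ (ClAll.succ (ClAll.succ ClAll.zero s1004) s1005) s1006) s1007) s1008) s1009) s1010) s1011) s1012) s1013) s1014) s1015)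

def n485 : Cl (O (nat_lit 5)) (R (nat_lit 14353))
    (p (nat_lit 0x380c2) (nat_lit 0) (p (nat_lit 0x3cc2a) (nat_lit 0) (p (nat_lit 0x89) (nat_lit 0) (p (nat_lit 0x101) (nat_lit 1) (p (nat_lit 0x111) (nat_lit 0) (p (nat_lit 0xd1) (nat_lit 1) (p (nat_lit 0x81) (nat_lit 0) (p (nat_lit 0x41) (nat_lit 1) (p (nat_lit 0x10a0b0a89089a) (nat_lit 0) (p (nat_lit 0x98a8a08881a) (nat_lit 0) (p (nat_lit 0x109088988079a) (nat_lit 0) (p (nat_lit 0x8880907871a) (nat_lit 0) (p (nat_lit 0x8000000000800080887068a) (nat_lit 0) (p (nat_lit 0x10888068602) (nat_lit 0) (p (nat_lit 0x807860582) (nat_lit 0) (p (nat_lit 0x10607058502) (nat_lit 0) (p (nat_lit 0x586850482) (nat_lit 0) (p (nat_lit 0x16000c) (nat_lit 0) (p (nat_lit 0x68612) (nat_lit 0) (p (nat_lit 0x50592) (nat_lit 0) (p (nat_lit 0x40512) (nat_lit 0) (p (nat_lit 0x50312) (nat_lit 0) (p (nat_lit 0x38292) (nat_lit 0) (p (nat_lit 0x28212)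 (nat_lit 0) (p (nat_lit 0x38112) (nat_lit 0) (p (nat_lit 0x20092) (nat_lit 0) (p (nat_lit 0x10012) (nat_lit 0) pn))))))))))))))))))))))))))) :=
  Cl.node (nat_lit 0xc9) (nat_lit 2) (by decide +kernel) (ClAll.succ (ClAll.succ ClAll.zero s1016) n419)

def n486 : Cl (O (nat_lit 5)) (R (nat_lit 14353))
    (p (nat_lit 0x380c2) (nat_lit 0) (p (nat_lit 0x3cc2a) (nat_lit 1) (p (nat_lit 0x89) (nat_lit 0) (p (nat_lit 0x101) (nat_lit 1) (p (nat_lit 0x111) (nat_lit 0) (p (nat_lit 0xd1) (nat_lit 1) (p (nat_lit 0x81) (nat_lit 0) (p (nat_lit 0x41) (nat_lit 1) (p (nat_lit 0x10a0b0a89089a) (nat_lit 0) (p (nat_lit 0x98a8a08881a) (nat_lit 0) (p (nat_lit 0x109088988079a) (nat_lit 0) (p (nat_lit 0x8880907871a) (nat_lit 0) (p (nat_lit 0x8000000000800080887068a) (nat_lit 0) (p (nat_lit 0x10888068602) (nat_lit 0) (p (nat_lit 0x807860582) (nat_lit 0) (p (nat_lit 0x10607058502) (nat_lit 0) (p (nat_lit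 0x586850482) (nat_lit 0) (p (nat_lit 0x16000c) (nat_lit 0) (p (nat_lit 0x68612) (nat_lit 0) (p (nat_lit 0x50592) (nat_lit 0) (p (nat_lit 0x40512) (nat_lit 0) (p (nat_lit 0x50312) (nat_lit 0) (p (nat_lit 0x38292) (nat_lit 0) (p (nat_lit 0x28212) (nat_lit 0) (p (nat_lit 0x38112) (nat_lit 0) (p (nat_lit 0x20092) (nat_lit 0) (p (nat_lit 0x10012) (nat_lit 0) pn))))))))))))))))))))))))))) :=
  Cl.node (nat_lit 0xc9) (nat_lit 2) (by decide +kernel) (ClAll.succ (ClAll.succ ClAll.zero s1031) n420)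

def n487 : Cl (O (nat_lit 5)) (R (nat_lit 14353))
    (p (nat_lit 0x3cc2a) (nat_lit 0) (p (nat_lit 0xc9) (nat_lit 0) (p (nat_lit 0x89) (nat_lit 1) (p (nat_lit 0x101) (nat_lit 1) (p (nat_lit 0x111) (nat_lit 0) (p (nat_lit 0xd1) (nat_lit 1) (p (nat_lit 0x81) (nat_lit 0) (p (nat_lit 0x41) (nat_lit 1) (p (nat_lit 0x10a0b0a89089a) (nat_lit 0) (p (nat_lit 0x98a8a08881a) (nat_lit 0) (p (nat_lit 0x109088988079a) (nat_lit 0) (p (nat_lit 0x8880907871a) (nat_lit 0) (p (nat_lit 0x8000000000800080887068a) (nat_lit 0) (p (nat_lit 0x10888068602) (nat_lit 0) (p (nat_lit 0x807860582) (nat_lit 0) (p (nat_lit 0x10607058502) (nat_lit 0) (p (nat_lit 0x586850482) (nat_lit 0) (p (nat_lit 0x16000c) (nat_lit 0) (p (nat_lit 0x68612) (nat_lit 0) (p (nat_lit 0x50592) (nat_lit 0) (p (nat_lit 0x40512) (nat_lit 0) (p (nat_lit 0x50312) (nat_lit 0) (p (nat_lit 0x38292) (nat_lit 0) (p (nat_lit 0x28212)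 (nat_lit 0) (p (nat_lit 0x38112) (nat_lit 0) (p (nat_lit 0x20092) (nat_lit 0) (p (nat_lit 0x10012) (nat_lit 0) pn))))))))))))))))))))))))))) :=
  Cl.node (nat_lit 0x380c2) (nat_lit 1) (by decide +kernel) (ClAll.succ ClAll.zero n421)

def n488 : Cl (O (nat_lit 5)) (R (nat_lit 14353))
    (p (nat_lit 0x3cc2a) (nat_lit 1) (p (nat_lit 0xc9) (nat_lit 0) (p (nat_lit 0x89) (nat_lit 1) (p (nat_lit 0x101) (nat_lit 1) (p (nat_lit 0x111) (nat_lit 0) (p (nat_lit 0xd1) (nat_lit 1) (p (nat_lit 0x81) (nat_lit 0) (p (nat_lit 0x41) (nat_lit 1) (p (nat_lit 0x10a0b0a89089a) (nat_lit 0) (p (nat_lit 0x98a8a08881a) (nat_lit 0) (p (nat_lit 0x109088988079a) (nat_lit 0) (p (nat_lit 0x8880907871a) (nat_lit 0) (p (nat_lit 0x8000000000800080887068a) (nat_lit 0) (p (nat_lit 0x10888068602) (nat_lit 0) (p (nat_lit 0x807860582) (nat_lit 0) (p (nat_lit 0x10607058502) (nat_lit 0) (p (nat_lit 0x586850482)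 (nat_lit 0) (p (nat_lit 0x16000c) (nat_lit 0) (p (nat_lit 0x68612) (nat_lit 0) (p (nat_lit 0x50592) (nat_lit 0) (p (nat_lit 0x40512) (nat_lit 0) (p (nat_lit 0x50312) (nat_lit 0) (p (nat_lit 0x38292) (nat_lit 0) (p (nat_lit 0x28212) (nat_lit 0) (p (nat_lit 0x38112) (nat_lit 0) (p (nat_lit 0x20092) (nat_lit 0) (p (nat_lit 0x10012) (nat_lit 0) pn))))))))))))))))))))))))))) :=
  Cl.node (nat_lit 0x380c2) (nat_lit 2) (by decide +kernel) (ClAll.succ (ClAll.succ ClAll.zero n422) s1063)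

def n489 : Cl (O (nat_lit 5)) (R (nat_lit 14353))
    (p (nat_lit 0x3cc2a) (nat_lit 10) (p (nat_lit 0xc9) (nat_lit 0) (p (nat_lit 0x89) (nat_lit 1) (p (nat_lit 0x101) (nat_lit 1) (p (nat_lit 0x111) (nat_lit 0) (p (nat_lit 0xd1) (nat_lit 1) (p (nat_lit 0x81) (nat_lit 0) (p (nat_lit 0x41) (nat_lit 1) (p (nat_lit 0x10a0b0a89089a) (nat_lit 0) (p (nat_lit 0x98a8a08881a) (nat_lit 0) (p (nat_lit 0x109088988079a) (nat_lit 0) (p (nat_lit 0x8880907871a) (nat_lit 0) (p (nat_lit 0x8000000000800080887068a) (nat_lit 0) (p (nat_lit 0x10888068602) (nat_lit 0) (p (nat_lit 0x807860582) (nat_lit 0) (p (nat_lit 0x10607058502) (nat_lit 0) (p (nat_lit 0x586850482) (nat_lit 0) (p (nat_lit 0x16000c) (nat_lit 0) (p (nat_lit 0x68612) (nat_lit 0) (p (nat_lit 0x50592) (nat_lit 0) (p (nat_lit 0x40512) (nat_lit 0) (p (nat_lit 0x50312) (nat_lit 0) (p (nat_lit 0x38292) (nat_lit 0) (p (nat_lit 0x28212)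 (nat_lit 0) (p (nat_lit 0x38112) (nat_lit 0) (p (nat_lit 0x20092) (nat_lit 0) (p (nat_lit 0x10012) (nat_lit 0) pn))))))))))))))))))))))))))) :=
  Cl.node (nat_lit 0x380c2) (nat_lit 2) (by decide +kernel) (ClAll.succ (ClAll.succ ClAll.zero n423) s1075)

def n490 : Cl (O (nat_lit 5)) (R (nat_lit 14353))
    (p (nat_lit 0x3c4aa) (nat_lit 7) (p (nat_lit 0xc9) (nat_lit 1) (p (nat_lit 0x89) (nat_lit 1) (p (nat_lit 0x101) (nat_lit 1) (p (nat_lit 0x111) (nat_lit 0) (p (nat_lit 0xd1) (nat_lit 1) (p (nat_lit 0x81) (nat_lit 0) (p (nat_lit 0x41) (nat_lit 1) (p (nat_lit 0x10a0b0a89089a) (nat_lit 0) (p (nat_lit 0x98a8a08881a) (nat_lit 0) (p (nat_lit 0x109088988079a) (nat_lit 0) (p (nat_lit 0x8880907871a) (nat_lit 0) (p (nat_lit 0x8000000000800080887068a) (nat_lit 0) (p (nat_lit 0x10888068602) (nat_lit 0) (p (nat_lit 0x807860582) (nat_lit 0) (p (nat_lit 0x10607058502) (nat_lit 0) (p (nat_lit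 0x586850482) (nat_lit 0) (p (nat_lit 0x16000c) (nat_lit 0) (p (nat_lit 0x68612) (nat_lit 0) (p (nat_lit 0x50592) (nat_lit 0) (p (nat_lit 0x40512) (nat_lit 0) (p (nat_lit 0x50312) (nat_lit 0) (p (nat_lit 0x38292) (nat_lit 0) (p (nat_lit 0x28212) (nat_lit 0) (p (nat_lit 0x38112) (nat_lit 0) (p (nat_lit 0x20092) (nat_lit 0) (p (nat_lit 0x10012) (nat_lit 0) pn))))))))))))))))))))))))))) :=
  Cl.node (nat_lit 0x380c2) (nat_lit 2) (by decide +kernel) (ClAll.succ (ClAll.succ ClAll.zero s1084) n424)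

def n491 : Cl (O (nat_lit 5)) (R (nat_lit 14353))
    (p (nat_lit 0x3cc2a) (nat_lit 0) (p (nat_lit 0x109) (nat_lit 0) (p (nat_lit 0xc9) (nat_lit 1) (p (nat_lit 0x89) (nat_lit 1) (p (nat_lit 0x111) (nat_lit 1) (p (nat_lit 0xd1) (nat_lit 1) (p (nat_lit 0x81) (nat_lit 0) (p (nat_lit 0x41) (nat_lit 1) (p (nat_lit 0x10a0b0a89089a) (nat_lit 0) (p (nat_lit 0x98a8a08881a) (nat_lit 0) (p (nat_lit 0x109088988079a) (nat_lit 0) (p (nat_lit 0x8880907871a) (nat_lit 0) (p (nat_lit 0x8000000000800080887068a) (nat_lit 0) (p (nat_lit 0x10888068602) (nat_lit 0) (p (nat_lit 0x807860582) (nat_lit 0) (p (nat_lit 0x10607058502) (nat_lit 0) (p (nat_lit 0x586850482) (nat_lit 0) (p (nat_lit 0x16000c) (nat_lit 0) (p (nat_lit 0x68612) (nat_lit 0) (p (nat_lit 0x50592) (nat_lit 0) (p (nat_lit 0x40512) (nat_lit 0) (p (nat_lit 0x50312) (nat_lit 0) (p (nat_lit 0x38292) (nat_lit 0) (p (nat_lit 0x28212)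 (nat_lit 0) (p (nat_lit 0x38112) (nat_lit 0) (p (nat_lit 0x20092) (nat_lit 0) (p (nat_lit 0x10012) (nat_lit 0) pn))))))))))))))))))))))))))) :=
  Cl.node (nat_lit 0x380c2) (nat_lit 1) (by decide +kernel) (ClAll.succ ClAll.zero n425)

def n492 : Cl (O (nat_lit 5)) (R (nat_lit 14353))
    (p (nat_lit 0xd1) (nat_lit 1) (p (nat_lit 0x111) (nat_lit 1) (p (nat_lit 0x109) (nat_lit 0) (p (nat_lit 0x101) (nat_lit 0) (p (nat_lit 0x119) (nat_lit 0) (p (nat_lit 0xc1) (nat_lit 0) (p (nat_lit 0x81) (nat_lit 1) (p (nat_lit 0x41) (nat_lit 1) (p (nat_lit 0x10a0b0a89089a) (nat_lit 0) (p (nat_lit 0x98a8a08881a) (nat_lit 0) (p (nat_lit 0x109088988079a) (nat_lit 0) (p (nat_lit 0x8880907871a) (nat_lit 0) (p (nat_lit 0x8000000000800080887068a) (nat_lit 0) (p (nat_lit 0x10888068602) (nat_lit 0) (p (nat_lit 0x807860582) (nat_lit 0) (p (nat_lit 0x10607058502) (nat_lit 0) (p (nat_lit 0x586850482)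 (nat_lit 0) (p (nat_lit 0x16000c) (nat_lit 0) (p (nat_lit 0x68612) (nat_lit 0) (p (nat_lit 0x50592) (nat_lit 0) (p (nat_lit 0x40512) (nat_lit 0) (p (nat_lit 0x50312) (nat_lit 0) (p (nat_lit 0x38292) (nat_lit 0) (p (nat_lit 0x28212) (nat_lit 0) (p (nat_lit 0x38112) (nat_lit 0) (p (nat_lit 0x20092) (nat_lit 0) (p (nat_lit 0x10012) (nat_lit 0) pn))))))))))))))))))))))))))) :=
  Cl.node (nat_lit 0x3c4aa) (nat_lit 12) (by decide +kernel) (ClAll.succ (ClAll.succ (ClAll.succ (ClAll.succ (ClAll.succ (ClAll.succ (ClAll.succ (ClAll.succ (ClAll.succ (ClAll.succ (ClAll.succ (ClAll.succ ClAll.zero s1123) s1124) s1125) s1126) s1127) s1128) s1129) n426) s1170) s1171) n427) s1180)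

def n493 : Cl (O (nat_lit 5)) (R (nat_lit 14353))
    (p (nat_lit 0xd1) (nat_lit 1) (p (nat_lit 0xc9) (nat_lit 0) (p (nat_lit 0x109) (nat_lit 1) (p (nat_lit 0x101) (nat_lit 0) (p (nat_lit 0x119) (nat_lit 0) (p (nat_lit 0xc1) (nat_lit 0) (p (nat_lit 0x81) (nat_lit 1) (p (nat_lit 0x41) (nat_lit 1) (p (nat_lit 0x10a0b0a89089a) (nat_lit 0) (p (nat_lit 0x98a8a08881a) (nat_lit 0) (p (nat_lit 0x109088988079a) (nat_lit 0) (p (nat_lit 0x8880907871a) (nat_lit 0) (p (nat_lit 0x8000000000800080887068a) (nat_lit 0) (p (nat_lit 0x10888068602) (nat_lit 0) (p (nat_lit 0x807860582) (nat_lit 0) (p (nat_lit 0x10607058502) (nat_lit 0) (p (nat_lit 0x586850482) (nat_lit 0) (p (nat_lit 0x16000c) (nat_lit 0) (p (nat_lit 0x68612) (nat_lit 0) (p (nat_lit 0x50592) (nat_lit 0) (p (nat_lit 0x40512) (nat_lit 0) (p (nat_lit 0x50312) (nat_lit 0) (p (nat_lit 0x38292) (nat_lit 0) (p (nat_lit 0x28212) (nat_lit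 0) (p (nat_lit 0x38112) (nat_lit 0) (p (nat_lit 0x20092) (nat_lit 0) (p (nat_lit 0x10012) (nat_lit 0) pn))))))))))))))))))))))))))) :=
  Cl.node (nat_lit 0x3c4aa) (nat_lit 12) (by decide +kernel) (ClAll.succ (ClAll.succ (ClAll.succ (ClAll.succ (ClAll.succ (ClAll.succ (ClAll.succ (ClAll.succ (ClAll.succ (ClAll.succ (ClAll.succ (ClAll.succ ClAll.zero s1182) s1183) s1184) s1185) s1186) s1187) s1188) n428) s1204) s1205) s1206) s1207)

def n494 : Cl (O (nat_lit 5)) (R (nat_lit 14353))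
    (p (nat_lit 0x44c2a) (nat_lit 0) (p (nat_lit 0xd1) (nat_lit 0) (p (nat_lit 0xc9) (nat_lit 0) (p (nat_lit 0x101) (nat_lit 1) (p (nat_lit 0x119) (nat_lit 0) (p (nat_lit 0xc1) (nat_lit 0) (p (nat_lit 0x81) (nat_lit 1) (p (nat_lit 0x41) (nat_lit 1) (p (nat_lit 0x10a0b0a89089a) (nat_lit 0) (p (nat_lit 0x98a8a08881a) (nat_lit 0) (p (nat_lit 0x109088988079a) (nat_lit 0) (p (nat_lit 0x8880907871a) (nat_lit 0) (p (nat_lit 0x8000000000800080887068a) (nat_lit 0) (p (nat_lit 0x10888068602) (nat_lit 0) (p (nat_lit 0x807860582) (nat_lit 0) (p (nat_lit 0x10607058502) (nat_lit 0) (p (nat_lit 0x586850482) (nat_lit 0) (p (nat_lit 0x16000c) (nat_lit 0) (p (nat_lit 0x68612) (nat_lit 0) (p (nat_lit 0x50592) (nat_lit 0) (p (nat_lit 0x40512) (nat_lit 0) (p (nat_lit 0x50312) (nat_lit 0) (p (nat_lit 0x38292) (nat_lit 0) (p (nat_lit 0x28212) (nat_lit 0) (p (nat_lit 0x38112) (nat_lit 0) (p (nat_lit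 0x20092) (nat_lit 0) (p (nat_lit 0x10012) (nat_lit 0) pn))))))))))))))))))))))))))) :=
  Cl.node (nat_lit 0x380c2) (nat_lit 1) (by decide +kernel) (ClAll.succ ClAll.zero n429)

def n495 : Cl (O (nat_lit 5)) (R (nat_lit 14353))
    (p (nat_lit 0x44c2a) (nat_lit 1) (p (nat_lit 0xd1) (nat_lit 0) (p (nat_lit 0xc9) (nat_lit 0) (p (nat_lit 0x101) (nat_lit 1) (p (nat_lit 0x119) (nat_lit 0) (p (nat_lit 0xc1) (nat_lit 0) (p (nat_lit 0x81) (nat_lit 1) (p (nat_lit 0x41) (nat_lit 1) (p (nat_lit 0x10a0b0a89089a) (nat_lit 0) (p (nat_lit 0x98a8a08881a) (nat_lit 0) (p (nat_lit 0x109088988079a) (nat_lit 0) (p (nat_lit 0x8880907871a) (nat_lit 0) (p (nat_lit 0x8000000000800080887068a) (nat_lit 0) (p (nat_lit 0x10888068602) (nat_lit 0) (p (nat_lit 0x807860582) (nat_lit 0) (p (nat_lit 0x10607058502) (nat_lit 0) (p (nat_lit 0x586850482) (nat_lit 0) (p (nat_lit 0x16000c) (nat_lit 0) (p (nat_lit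 0x68612) (nat_lit 0) (p (nat_lit 0x50592) (nat_lit 0) (p (nat_lit 0x40512) (nat_lit 0) (p (nat_lit 0x50312) (nat_lit 0) (p (nat_lit 0x38292) (nat_lit 0) (p (nat_lit 0x28212) (nat_lit 0) (p (nat_lit 0x38112) (nat_lit 0) (p (nat_lit 0x20092) (nat_lit 0) (p (nat_lit 0x10012) (nat_lit 0) pn))))))))))))))))))))))))))) :=
  Cl.node (nat_lit 0x380c2) (nat_lit 2) (by decide +kernel) (ClAll.succ (ClAll.succ ClAll.zero n430) s1230)

def n496 : Cl (O (nat_lit 5)) (R (nat_lit 14353))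
    (p (nat_lit 0x3c4aa) (nat_lit 7) (p (nat_lit 0xd1) (nat_lit 1) (p (nat_lit 0xc9) (nat_lit 0) (p (nat_lit 0x101) (nat_lit 1) (p (nat_lit 0x119) (nat_lit 0) (p (nat_lit 0xc1) (nat_lit 0) (p (nat_lit 0x81) (nat_lit 1) (p (nat_lit 0x41) (nat_lit 1) (p (nat_lit 0x10a0b0a89089a) (nat_lit 0) (p (nat_lit 0x98a8a08881a) (nat_lit 0) (p (nat_lit 0x109088988079a) (nat_lit 0) (p (nat_lit 0x8880907871a) (nat_lit 0) (p (nat_lit 0x8000000000800080887068a) (nat_lit 0) (p (nat_lit 0x10888068602) (nat_lit 0) (p (nat_lit 0x807860582) (nat_lit 0) (p (nat_lit 0x10607058502) (nat_lit 0) (p (nat_lit 0x586850482) (nat_lit 0) (p (nat_lit 0x16000c) (nat_lit 0) (p (nat_lit 0x68612) (nat_lit 0) (p (nat_lit 0x50592) (nat_lit 0) (p (nat_lit 0x40512) (nat_lit 0) (p (nat_lit 0x50312) (nat_lit 0) (p (nat_lit 0x38292) (nat_lit 0) (p (nat_lit 0x28212) (nat_lit 0) (p (nat_lit 0x38112) (nat_lit 0) (p (nat_lit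 0x20092) (nat_lit 0) (p (nat_lit 0x10012) (nat_lit 0) pn))))))))))))))))))))))))))) :=
  Cl.node (nat_lit 0x380c2) (nat_lit 2) (by decide +kernel) (ClAll.succ (ClAll.succ ClAll.zero n431) n432)

def n497 : Cl (O (nat_lit 5)) (R (nat_lit 14353))
    (p (nat_lit 0x3c4aa) (nat_lit 7) (p (nat_lit 0x111) (nat_lit 1) (p (nat_lit 0xd1) (nat_lit 1) (p (nat_lit 0xc9) (nat_lit 0) (p (nat_lit 0x119) (nat_lit 1) (p (nat_lit 0xc1) (nat_lit 0) (p (nat_lit 0x81) (nat_lit 1) (p (nat_lit 0x41) (nat_lit 1) (p (nat_lit 0x10a0b0a89089a) (nat_lit 0) (p (nat_lit 0x98a8a08881a) (nat_lit 0) (p (nat_lit 0x109088988079a) (nat_lit 0) (p (nat_lit 0x8880907871a) (nat_lit 0) (p (nat_lit 0x8000000000800080887068a) (nat_lit 0) (p (nat_lit 0x10888068602) (nat_lit 0) (p (nat_lit 0x807860582) (nat_lit 0) (p (nat_lit 0x10607058502) (nat_lit 0) (p (nat_lit 0x586850482) (nat_lit 0) (p (nat_lit 0x16000c) (nat_lit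 0) (p (nat_lit 0x68612) (nat_lit 0) (p (nat_lit 0x50592) (nat_lit 0) (p (nat_lit 0x40512) (nat_lit 0) (p (nat_lit 0x50312) (nat_lit 0) (p (nat_lit 0x38292) (nat_lit 0) (p (nat_lit 0x28212) (nat_lit 0) (p (nat_lit 0x38112) (nat_lit 0) (p (nat_lit 0x20092) (nat_lit 0) (p (nat_lit 0x10012) (nat_lit 0) pn))))))))))))))))))))))))))) :=
  Cl.node (nat_lit 0x380c2) (nat_lit 2) (by decide +kernel) (ClAll.succ (ClAll.succ ClAll.zero n433) n434)

def n498 : Cl (O (nat_lit 5)) (R (nat_lit 14353))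
    (p (nat_lit 0x3c4aa) (nat_lit 10) (p (nat_lit 0x111) (nat_lit 1) (p (nat_lit 0xd1) (nat_lit 1) (p (nat_lit 0xc9) (nat_lit 0) (p (nat_lit 0x119) (nat_lit 1) (p (nat_lit 0xc1) (nat_lit 0) (p (nat_lit 0x81) (nat_lit 1) (p (nat_lit 0x41) (nat_lit 1) (p (nat_lit 0x10a0b0a89089a) (nat_lit 0) (p (nat_lit 0x98a8a08881a) (nat_lit 0) (p (nat_lit 0x109088988079a) (nat_lit 0) (p (nat_lit 0x8880907871a) (nat_lit 0) (p (nat_lit 0x8000000000800080887068a) (nat_lit 0) (p (nat_lit 0x10888068602) (nat_lit 0) (p (nat_lit 0x807860582) (nat_lit 0) (p (nat_lit 0x10607058502) (nat_lit 0) (p (nat_lit 0x586850482) (nat_lit 0) (p (nat_lit 0x16000c) (nat_lit 0) (p (nat_lit 0x68612) (nat_lit 0) (p (nat_lit 0x50592) (nat_lit 0) (p (nat_lit 0x40512) (nat_lit 0) (p (nat_lit 0x50312) (nat_lit 0) (p (nat_lit 0x38292) (nat_lit 0) (p (nat_lit 0x28212) (nat_lit 0) (p (nat_lit 0x38112) (nat_lit 0) (p (nat_lit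 0x20092) (nat_lit 0) (p (nat_lit 0x10012) (nat_lit 0) pn))))))))))))))))))))))))))) :=
  Cl.node (nat_lit 0x380c2) (nat_lit 2) (by decide +kernel) (ClAll.succ (ClAll.succ ClAll.zero s1312) n435)

def n499 : Cl (O (nat_lit 5)) (R (nat_lit 14353))
    (p (nat_lit 0x44c2a) (nat_lit 0) (p (nat_lit 0x111) (nat_lit 0) (p (nat_lit 0x109) (nat_lit 0) (p (nat_lit 0xc9) (nat_lit 1) (p (nat_lit 0x119) (nat_lit 1) (p (nat_lit 0xc1) (nat_lit 0) (p (nat_lit 0x81) (nat_lit 1) (p (nat_lit 0x41) (nat_lit 1) (p (nat_lit 0x10a0b0a89089a) (nat_lit 0) (p (nat_lit 0x98a8a08881a) (nat_lit 0) (p (nat_lit 0x109088988079a) (nat_lit 0) (p (nat_lit 0x8880907871a) (nat_lit 0) (p (nat_lit 0x8000000000800080887068a) (nat_lit 0) (p (nat_lit 0x10888068602) (nat_lit 0) (p (nat_lit 0x807860582) (nat_lit 0) (p (nat_lit 0x10607058502) (nat_lit 0) (p (nat_lit 0x586850482) (nat_lit 0) (p (nat_lit 0x16000c) (nat_lit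 0) (p (nat_lit 0x68612) (nat_lit 0) (p (nat_lit 0x50592) (nat_lit 0) (p (nat_lit 0x40512) (nat_lit 0) (p (nat_lit 0x50312) (nat_lit 0) (p (nat_lit 0x38292) (nat_lit 0) (p (nat_lit 0x28212) (nat_lit 0) (p (nat_lit 0x38112) (nat_lit 0) (p (nat_lit 0x20092) (nat_lit 0) (p (nat_lit 0x10012) (nat_lit 0) pn))))))))))))))))))))))))))) :=
  Cl.node (nat_lit 0x380c2) (nat_lit 1) (by decide +kernel) (ClAll.succ ClAll.zero n436)

def n500 : Cl (O (nat_lit 5)) (R (nat_lit 14353))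
    (p (nat_lit 0x3c4aa) (nat_lit 7) (p (nat_lit 0x111) (nat_lit 1) (p (nat_lit 0x109) (nat_lit 0) (p (nat_lit 0xc9) (nat_lit 1) (p (nat_lit 0x119) (nat_lit 1) (p (nat_lit 0xc1) (nat_lit 0) (p (nat_lit 0x81) (nat_lit 1) (p (nat_lit 0x41) (nat_lit 1) (p (nat_lit 0x10a0b0a89089a) (nat_lit 0) (p (nat_lit 0x98a8a08881a) (nat_lit 0) (p (nat_lit 0x109088988079a) (nat_lit 0) (p (nat_lit 0x8880907871a) (nat_lit 0) (p (nat_lit 0x8000000000800080887068a) (nat_lit 0) (p (nat_lit 0x10888068602) (nat_lit 0) (p (nat_lit 0x807860582) (nat_lit 0) (p (nat_lit 0x10607058502) (nat_lit 0) (p (nat_lit 0x586850482) (nat_lit 0) (p (nat_lit 0x16000c) (nat_lit 0) (p (nat_lit 0x68612) (nat_lit 0) (p (nat_lit 0x50592) (nat_lit 0) (p (nat_lit 0x40512) (nat_lit 0) (p (nat_lit 0x50312) (nat_lit 0) (p (nat_lit 0x38292) (nat_lit 0) (p (nat_lit 0x28212) (nat_lit 0) (p (nat_lit 0x38112) (nat_lit 0) (p (nat_lit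 0x20092) (nat_lit 0) (p (nat_lit 0x10012) (nat_lit 0) pn))))))))))))))))))))))))))) :=
  Cl.node (nat_lit 0x380c2) (nat_lit 2) (by decide +kernel) (ClAll.succ (ClAll.succ ClAll.zero n437) n438)

def n501 : Cl (O (nat_lit 5)) (R (nat_lit 14353))
    (p (nat_lit 0x3c4aa) (nat_lit 10) (p (nat_lit 0x111) (nat_lit 1) (p (nat_lit 0x109) (nat_lit 0) (p (nat_lit 0xc9) (nat_lit 1) (p (nat_lit 0x119) (nat_lit 1) (p (nat_lit 0xc1) (nat_lit 0) (p (nat_lit 0x81) (nat_lit 1) (p (nat_lit 0x41) (nat_lit 1) (p (nat_lit 0x10a0b0a89089a) (nat_lit 0) (p (nat_lit 0x98a8a08881a) (nat_lit 0) (p (nat_lit 0x109088988079a) (nat_lit 0) (p (nat_lit 0x8880907871a) (nat_lit 0) (p (nat_lit 0x8000000000800080887068a) (nat_lit 0) (p (nat_lit 0x10888068602) (nat_lit 0) (p (nat_lit 0x807860582) (nat_lit 0) (p (nat_lit 0x10607058502) (nat_lit 0) (p (nat_lit 0x586850482) (nat_lit 0) (p (nat_lit 0x16000c) (nat_lit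 0) (p (nat_lit 0x68612) (nat_lit 0) (p (nat_lit 0x50592) (nat_lit 0) (p (nat_lit 0x40512) (nat_lit 0) (p (nat_lit 0x50312) (nat_lit 0) (p (nat_lit 0x38292) (nat_lit 0) (p (nat_lit 0x28212) (nat_lit 0) (p (nat_lit 0x38112) (nat_lit 0) (p (nat_lit 0x20092) (nat_lit 0) (p (nat_lit 0x10012) (nat_lit 0) pn))))))))))))))))))))))))))) :=
  Cl.node (nat_lit 0x380c2) (nat_lit 2) (by decide +kernel) (ClAll.succ (ClAll.succ ClAll.zero s1363) n439)

def n502 : Cl (O (nat_lit 5)) (R (nat_lit 14353))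
    (p (nat_lit 0xc9) (nat_lit 1) (p (nat_lit 0x109) (nat_lit 1) (p (nat_lit 0x101) (nat_lit 0) (p (nat_lit 0x119) (nat_lit 0) (p (nat_lit 0xd1) (nat_lit 0) (p (nat_lit 0x89) (nat_lit 0) (p (nat_lit 0x41) (nat_lit 0) (p (nat_lit 0x10a0b0a89089a) (nat_lit 0) (p (nat_lit 0x98a8a08881a) (nat_lit 0) (p (nat_lit 0x109088988079a) (nat_lit 0) (p (nat_lit 0x8880907871a) (nat_lit 0) (p (nat_lit 0x8000000000800080887068a) (nat_lit 0) (p (nat_lit 0x10888068602) (nat_lit 0) (p (nat_lit 0x807860582) (nat_lit 0) (p (nat_lit 0x10607058502) (nat_lit 0) (p (nat_lit 0x586850482) (nat_lit 0) (p (nat_lit 0x16000c) (nat_lit 0) (p (nat_lit 0x68612) (nat_lit 0) (p (nat_lit 0x50592) (nat_lit 0) (p (nat_lit 0x40512) (nat_lit 0) (p (nat_lit 0x50312) (nat_lit 0) (p (nat_lit 0x38292) (nat_lit 0) (p (nat_lit 0x28212) (nat_lit 0) (p (nat_lit 0x38112) (nat_lit 0) (p (nat_lit 0x20092) (nat_lit 0) (p (nat_lit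 0x10012) (nat_lit 0) pn)))))))))))))))))))))))))) :=
  Cl.node (nat_lit 0x81) (nat_lit 2) (by decide +kernel) (ClAll.succ (ClAll.succ ClAll.zero s2) n440)

def n503 : Cl (O (nat_lit 5)) (R (nat_lit 14353))
    (p (nat_lit 0xc9) (nat_lit 0) (p (nat_lit 0x81) (nat_lit 0) (p (nat_lit 0x101) (nat_lit 1) (p (nat_lit 0x119) (nat_lit 0) (p (nat_lit 0xd1) (nat_lit 0) (p (nat_lit 0x89) (nat_lit 0) (p (nat_lit 0x41) (nat_lit 0) (p (nat_lit 0x10a0b0a89089a) (nat_lit 0) (p (nat_lit 0x98a8a08881a) (nat_lit 0) (p (nat_lit 0x109088988079a) (nat_lit 0) (p (nat_lit 0x8880907871a) (nat_lit 0) (p (nat_lit 0x8000000000800080887068a) (nat_lit 0) (p (nat_lit 0x10888068602) (nat_lit 0) (p (nat_lit 0x807860582) (nat_lit 0) (p (nat_lit 0x10607058502) (nat_lit 0) (p (nat_lit 0x586850482) (nat_lit 0) (p (nat_lit 0x16000c) (nat_lit 0) (p (nat_lit 0x68612) (nat_lit 0) (p (nat_lit 0x50592) (nat_lit 0)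 (p (nat_lit 0x40512) (nat_lit 0) (p (nat_lit 0x50312) (nat_lit 0) (p (nat_lit 0x38292) (nat_lit 0) (p (nat_lit 0x28212) (nat_lit 0) (p (nat_lit 0x38112) (nat_lit 0) (p (nat_lit 0x20092) (nat_lit 0) (p (nat_lit 0x10012) (nat_lit 0) pn)))))))))))))))))))))))))) :=
  Cl.node (nat_lit 0x111) (nat_lit 2) (by decide +kernel) (ClAll.succ (ClAll.succ ClAll.zero n441) s58)

def n504 : Cl (O (nat_lit 5)) (R (nat_lit 14353))
    (p (nat_lit 0xc9) (nat_lit 1) (p (nat_lit 0x81) (nat_lit 0) (p (nat_lit 0x101) (nat_lit 1) (p (nat_lit 0x119) (nat_lit 0) (p (nat_lit 0xd1) (nat_lit 0) (p (nat_lit 0x89) (nat_lit 0) (p (nat_lit 0x41) (nat_lit 0) (p (nat_lit 0x10a0b0a89089a) (nat_lit 0) (p (nat_lit 0x98a8a08881a) (nat_lit 0) (p (nat_lit 0x109088988079a) (nat_lit 0) (p (nat_lit 0x8880907871a) (nat_lit 0) (p (nat_lit 0x8000000000800080887068a) (nat_lit 0) (p (nat_lit 0x10888068602) (nat_lit 0)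 (p (nat_lit 0x807860582) (nat_lit 0) (p (nat_lit 0x10607058502) (nat_lit 0) (p (nat_lit 0x586850482) (nat_lit 0) (p (nat_lit 0x16000c) (nat_lit 0) (p (nat_lit 0x68612) (nat_lit 0) (p (nat_lit 0x50592) (nat_lit 0) (p (nat_lit 0x40512) (nat_lit 0) (p (nat_lit 0x50312) (nat_lit 0) (p (nat_lit 0x38292) (nat_lit 0) (p (nat_lit 0x28212) (nat_lit 0) (p (nat_lit 0x38112) (nat_lit 0) (p (nat_lit 0x20092) (nat_lit 0) (p (nat_lit 0x10012) (nat_lit 0) pn)))))))))))))))))))))))))) :=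
  Cl.node (nat_lit 0x111) (nat_lit 2) (by decide +kernel) (ClAll.succ (ClAll.succ ClAll.zero n442) s80)

def n505 : Cl (O (nat_lit 5)) (R (nat_lit 14353))
    (p (nat_lit 0xc1) (nat_lit 0) (p (nat_lit 0x81) (nat_lit 1) (p (nat_lit 0x101) (nat_lit 1) (p (nat_lit 0x119) (nat_lit 0) (p (nat_lit 0xd1) (nat_lit 0) (p (nat_lit 0x89) (nat_lit 0) (p (nat_lit 0x41) (nat_lit 0) (p (nat_lit 0x10a0b0a89089a) (nat_lit 0) (p (nat_lit 0x98a8a08881a) (nat_lit 0) (p (nat_lit 0x109088988079a) (nat_lit 0) (p (nat_lit 0x8880907871a) (nat_lit 0) (p (nat_lit 0x8000000000800080887068a) (nat_lit 0) (p (nat_lit 0x10888068602) (nat_lit 0) (p (nat_lit 0x807860582) (nat_lit 0) (p (nat_lit 0x10607058502) (nat_lit 0) (p (nat_lit 0x586850482) (nat_lit 0) (p (nat_lit 0x16000c) (nat_lit 0) (p (nat_lit 0x68612) (nat_lit 0) (p (nat_lit 0x50592) (nat_lit 0) (p (nat_lit 0x40512) (nat_lit 0) (p (nat_lit 0x50312)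 (nat_lit 0) (p (nat_lit 0x38292) (nat_lit 0) (p (nat_lit 0x28212) (nat_lit 0) (p (nat_lit 0x38112) (nat_lit 0) (p (nat_lit 0x20092) (nat_lit 0) (p (nat_lit 0x10012) (nat_lit 0) pn)))))))))))))))))))))))))) :=
  Cl.node (nat_lit 0xc9) (nat_lit 2) (by decide +kernel) (ClAll.succ (ClAll.succ ClAll.zero n443) n444)

def n506 : Cl (O (nat_lit 5)) (R (nat_lit 14353))
    (p (nat_lit 0x109) (nat_lit 1) (p (nat_lit 0xc9) (nat_lit 1) (p (nat_lit 0xc1) (nat_lit 0) (p (nat_lit 0x119) (nat_lit 1) (p (nat_lit 0xd1) (nat_lit 0) (p (nat_lit 0x89) (nat_lit 0) (p (nat_lit 0x41) (nat_lit 0) (p (nat_lit 0x10a0b0a89089a) (nat_lit 0) (p (nat_lit 0x98a8a08881a) (nat_lit 0) (p (nat_lit 0x109088988079a) (nat_lit 0) (p (nat_lit 0x8880907871a) (nat_lit 0) (p (nat_lit 0x8000000000800080887068a) (nat_lit 0) (p (nat_lit 0x10888068602) (nat_lit 0) (p (nat_lit 0x807860582) (nat_lit 0) (p (nat_lit 0x10607058502)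 (nat_lit 0) (p (nat_lit 0x586850482) (nat_lit 0) (p (nat_lit 0x16000c) (nat_lit 0) (p (nat_lit 0x68612) (nat_lit 0) (p (nat_lit 0x50592) (nat_lit 0) (p (nat_lit 0x40512) (nat_lit 0) (p (nat_lit 0x50312) (nat_lit 0) (p (nat_lit 0x38292) (nat_lit 0) (p (nat_lit 0x28212) (nat_lit 0) (p (nat_lit 0x38112) (nat_lit 0) (p (nat_lit 0x20092) (nat_lit 0) (p (nat_lit 0x10012) (nat_lit 0) pn)))))))))))))))))))))))))) :=
  Cl.node (nat_lit 0x3cc2a) (nat_lit 12) (by decide +kernel) (ClAll.succ (ClAll.succ (ClAll.succ (ClAll.succ (ClAll.succ (ClAll.succ (ClAll.succ (ClAll.succ (ClAll.succ (ClAll.succ (ClAll.succ (ClAll.succ ClAll.zero s115) s116) s117) s118) s119) s120) s121) s122) s123) s124) n445) n446)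

def n507 : Cl (O (nat_lit 5)) (R (nat_lit 14353))
    (p (nat_lit 0x109) (nat_lit 0) (p (nat_lit 0x81) (nat_lit 0) (p (nat_lit 0xc1) (nat_lit 1) (p (nat_lit 0x119) (nat_lit 1) (p (nat_lit 0xd1) (nat_lit 0) (p (nat_lit 0x89) (nat_lit 0) (p (nat_lit 0x41) (nat_lit 0) (p (nat_lit 0x10a0b0a89089a) (nat_lit 0) (p (nat_lit 0x98a8a08881a) (nat_lit 0) (p (nat_lit 0x109088988079a) (nat_lit 0) (p (nat_lit 0x8880907871a) (nat_lit 0) (p (nat_lit 0x8000000000800080887068a) (nat_lit 0) (p (nat_lit 0x10888068602) (nat_lit 0) (p (nat_lit 0x807860582) (nat_lit 0) (p (nat_lit 0x10607058502) (nat_lit 0) (p (nat_lit 0x586850482) (nat_lit 0) (p (nat_lit 0x16000c) (nat_lit 0) (p (nat_lit 0x68612) (nat_lit 0) (p (nat_lit 0x50592) (nat_lit 0) (p (nat_lit 0x40512) (nat_lit 0) (p (nat_lit 0x50312) (nat_lit 0) (p (nat_lit 0x38292) (nat_lit 0) (p (nat_lit 0x28212) (nat_lit 0) (p (nat_lit 0x38112)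 (nat_lit 0) (p (nat_lit 0x20092) (nat_lit 0) (p (nat_lit 0x10012) (nat_lit 0) pn)))))))))))))))))))))))))) :=
  Cl.node (nat_lit 0x44c2a) (nat_lit 12) (by decide +kernel) (ClAll.succ (ClAll.succ (ClAll.succ (ClAll.succ (ClAll.succ (ClAll.succ (ClAll.succ (ClAll.succ (ClAll.succ (ClAll.succ (ClAll.succ (ClAll.succ ClAll.zero s146) s147) s148) s149) s150) s151) s152) s153) s154) s155) s156) s157)

def n508 : Cl (O (nat_lit 5)) (R (nat_lit 14353))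
    (p (nat_lit 0x109) (nat_lit 1) (p (nat_lit 0x81) (nat_lit 0) (p (nat_lit 0xc1) (nat_lit 1) (p (nat_lit 0x119) (nat_lit 1) (p (nat_lit 0xd1) (nat_lit 0) (p (nat_lit 0x89) (nat_lit 0) (p (nat_lit 0x41) (nat_lit 0) (p (nat_lit 0x10a0b0a89089a) (nat_lit 0) (p (nat_lit 0x98a8a08881a) (nat_lit 0) (p (nat_lit 0x109088988079a) (nat_lit 0) (p (nat_lit 0x8880907871a) (nat_lit 0) (p (nat_lit 0x8000000000800080887068a) (nat_lit 0) (p (nat_lit 0x10888068602) (nat_lit 0) (p (nat_lit 0x807860582) (nat_lit 0) (p (nat_lit 0x10607058502) (nat_lit 0) (p (nat_lit 0x586850482) (nat_lit 0) (p (nat_lit 0x16000c) (nat_lit 0) (p (nat_lit 0x68612) (nat_lit 0) (p (nat_lit 0x50592) (nat_lit 0) (p (nat_lit 0x40512) (nat_lit 0) (p (nat_lit 0x50312) (nat_lit 0) (p (nat_lit 0x38292) (nat_lit 0) (p (nat_lit 0x28212) (nat_lit 0) (p (nat_lit 0x38112) (nat_lit 0) (p (nat_lit 0x20092) (nat_lit 0) (p (nat_lit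 0x10012) (nat_lit 0) pn)))))))))))))))))))))))))) :=
  Cl.node (nat_lit 0x3cc2a) (nat_lit 12) (by decide +kernel) (ClAll.succ (ClAll.succ (ClAll.succ (ClAll.succ (ClAll.succ (ClAll.succ (ClAll.succ (ClAll.succ (ClAll.succ (ClAll.succ (ClAll.succ (ClAll.succ ClAll.zero s158) s159) s160) s161) s162) s163) s164) s165) s166) s167) n447) n448)

def n509 : Cl (O (nat_lit 5)) (R (nat_lit 14353))
    (p (nat_lit 0x101) (nat_lit 0) (p (nat_lit 0x81) (nat_lit 1) (p (nat_lit 0xc1) (nat_lit 1) (p (nat_lit 0x119) (nat_lit 1) (p (nat_lit 0xd1) (nat_lit 0) (p (nat_lit 0x89) (nat_lit 0) (p (nat_lit 0x41) (nat_lit 0) (p (nat_lit 0x10a0b0a89089a) (nat_lit 0) (p (nat_lit 0x98a8a08881a) (nat_lit 0) (p (nat_lit 0x109088988079a) (nat_lit 0) (p (nat_lit 0x8880907871a) (nat_lit 0) (p (nat_lit 0x8000000000800080887068a) (nat_lit 0) (p (nat_lit 0x10888068602) (nat_lit 0) (p (nat_lit 0x807860582)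 (nat_lit 0) (p (nat_lit 0x10607058502) (nat_lit 0) (p (nat_lit 0x586850482) (nat_lit 0) (p (nat_lit 0x16000c) (nat_lit 0) (p (nat_lit 0x68612) (nat_lit 0) (p (nat_lit 0x50592) (nat_lit 0) (p (nat_lit 0x40512) (nat_lit 0) (p (nat_lit 0x50312) (nat_lit 0) (p (nat_lit 0x38292) (nat_lit 0) (p (nat_lit 0x28212) (nat_lit 0) (p (nat_lit 0x38112) (nat_lit 0) (p (nat_lit 0x20092) (nat_lit 0) (p (nat_lit 0x10012) (nat_lit 0) pn)))))))))))))))))))))))))) :=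
  Cl.node (nat_lit 0x109) (nat_lit 2) (by decide +kernel) (ClAll.succ (ClAll.succ ClAll.zero n449) n450)

def n510 : Cl (O (nat_lit 5)) (R (nat_lit 14353))
    (p (nat_lit 0x101) (nat_lit 1) (p (nat_lit 0x81) (nat_lit 1) (p (nat_lit 0xc1) (nat_lit 1) (p (nat_lit 0x119) (nat_lit 1) (p (nat_lit 0xd1) (nat_lit 0) (p (nat_lit 0x89) (nat_lit 0) (p (nat_lit 0x41) (nat_lit 0) (p (nat_lit 0x10a0b0a89089a) (nat_lit 0) (p (nat_lit 0x98a8a08881a) (nat_lit 0) (p (nat_lit 0x109088988079a) (nat_lit 0) (p (nat_lit 0x8880907871a) (nat_lit 0) (p (nat_lit 0x8000000000800080887068a) (nat_lit 0) (p (nat_lit 0x10888068602) (nat_lit 0) (p (nat_lit 0x807860582) (nat_lit 0) (p (nat_lit 0x10607058502) (nat_lit 0) (p (nat_lit 0x586850482) (nat_lit 0) (p (nat_lit 0x16000c) (nat_lit 0) (p (nat_lit 0x68612) (nat_lit 0) (p (nat_lit 0x50592) (nat_lit 0) (p (nat_lit 0x40512) (nat_lit 0) (p (nat_lit 0x50312)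 (nat_lit 0) (p (nat_lit 0x38292) (nat_lit 0) (p (nat_lit 0x28212) (nat_lit 0) (p (nat_lit 0x38112) (nat_lit 0) (p (nat_lit 0x20092) (nat_lit 0) (p (nat_lit 0x10012) (nat_lit 0) pn)))))))))))))))))))))))))) :=
  Cl.node (nat_lit 0x444aa) (nat_lit 12) (by decide +kernel) (ClAll.succ (ClAll.succ (ClAll.succ (ClAll.succ (ClAll.succ (ClAll.succ (ClAll.succ (ClAll.succ (ClAll.succ (ClAll.succ (ClAll.succ (ClAll.succ ClAll.zero s224) s225) s226) s227) s228) s229) s230) s231) s232) s233) s234) s235)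

def n511 : Cl (O (nat_lit 5)) (R (nat_lit 14353))
    (p (nat_lit 0xc1) (nat_lit 1) (p (nat_lit 0x109) (nat_lit 1) (p (nat_lit 0x101) (nat_lit 0) (p (nat_lit 0x111) (nat_lit 0) (p (nat_lit 0xd1) (nat_lit 1) (p (nat_lit 0x89) (nat_lit 0) (p (nat_lit 0x41) (nat_lit 0) (p (nat_lit 0x10a0b0a89089a) (nat_lit 0) (p (nat_lit 0x98a8a08881a) (nat_lit 0) (p (nat_lit 0x109088988079a) (nat_lit 0) (p (nat_lit 0x8880907871a) (nat_lit 0) (p (nat_lit 0x8000000000800080887068a) (nat_lit 0) (p (nat_lit 0x10888068602) (nat_lit 0) (p (nat_lit 0x807860582) (nat_lit 0) (p (nat_lit 0x10607058502) (nat_lit 0) (p (nat_lit 0x586850482) (nat_lit 0) (p (nat_lit 0x16000c) (nat_lit 0) (p (nat_lit 0x68612) (nat_lit 0) (p (nat_lit 0x50592) (nat_lit 0) (p (nat_lit 0x40512) (nat_lit 0) (p (nat_lit 0x50312) (nat_lit 0) (p (nat_lit 0x38292) (nat_lit 0) (p (nat_lit 0x28212) (nat_lit 0) (p (nat_lit 0x38112)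 (nat_lit 0) (p (nat_lit 0x20092) (nat_lit 0) (p (nat_lit 0x10012) (nat_lit 0) pn)))))))))))))))))))))))))) :=
  Cl.node (nat_lit 0x200004) (nat_lit 2) (by decide +kernel) (ClAll.succ (ClAll.succ ClAll.zero n451) s255)

def n512 : Cl (O (nat_lit 5)) (R (nat_lit 14353))
    (p (nat_lit 0x119) (nat_lit 0) (p (nat_lit 0x81) (nat_lit 0) (p (nat_lit 0x101) (nat_lit 1) (p (nat_lit 0x111) (nat_lit 0) (p (nat_lit 0xd1) (nat_lit 1) (p (nat_lit 0x89) (nat_lit 0) (p (nat_lit 0x41) (nat_lit 0) (p (nat_lit 0x10a0b0a89089a) (nat_lit 0) (p (nat_lit 0x98a8a08881a) (nat_lit 0) (p (nat_lit 0x109088988079a) (nat_lit 0) (p (nat_lit 0x8880907871a) (nat_lit 0) (p (nat_lit 0x8000000000800080887068a) (nat_lit 0) (p (nat_lit 0x10888068602) (nat_lit 0) (p (nat_lit 0x807860582) (nat_lit 0) (p (nat_lit 0x10607058502) (nat_lit 0) (p (nat_lit 0x586850482) (nat_lit 0) (p (nat_lit 0x16000c) (nat_lit 0)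 (p (nat_lit 0x68612) (nat_lit 0) (p (nat_lit 0x50592) (nat_lit 0) (p (nat_lit 0x40512) (nat_lit 0) (p (nat_lit 0x50312) (nat_lit 0) (p (nat_lit 0x38292) (nat_lit 0) (p (nat_lit 0x28212) (nat_lit 0) (p (nat_lit 0x38112) (nat_lit 0) (p (nat_lit 0x20092) (nat_lit 0) (p (nat_lit 0x10012) (nat_lit 0) pn)))))))))))))))))))))))))) :=
  Cl.node (nat_lit 0x200004) (nat_lit 2) (by decide +kernel) (ClAll.succ (ClAll.succ ClAll.zero n452) s285)

def n513 : Cl (O (nat_lit 5)) (R (nat_lit 14353))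
    (p (nat_lit 0x119) (nat_lit 1) (p (nat_lit 0x81) (nat_lit 0) (p (nat_lit 0x101) (nat_lit 1) (p (nat_lit 0x111) (nat_lit 0) (p (nat_lit 0xd1) (nat_lit 1) (p (nat_lit 0x89) (nat_lit 0) (p (nat_lit 0x41) (nat_lit 0) (p (nat_lit 0x10a0b0a89089a) (nat_lit 0) (p (nat_lit 0x98a8a08881a) (nat_lit 0) (p (nat_lit 0x109088988079a) (nat_lit 0) (p (nat_lit 0x8880907871a) (nat_lit 0) (p (nat_lit 0x8000000000800080887068a) (nat_lit 0) (p (nat_lit 0x10888068602) (nat_lit 0) (p (nat_lit 0x807860582) (nat_lit 0) (p (nat_lit 0x10607058502) (nat_lit 0) (p (nat_lit 0x586850482) (nat_lit 0) (p (nat_lit 0x16000c) (nat_lit 0) (p (nat_lit 0x68612) (nat_lit 0) (p (nat_lit 0x50592) (nat_lit 0) (p (nat_lit 0x40512) (nat_lit 0) (p (nat_lit 0x50312) (nat_lit 0) (p (nat_lit 0x38292) (nat_lit 0) (p (nat_lit 0x28212) (nat_lit 0) (p (nat_lit 0x38112) (nat_lit 0) (p (nat_lit 0x20092) (nat_lit 0) (p (nat_lit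 0x10012) (nat_lit 0) pn)))))))))))))))))))))))))) :=
  Cl.node (nat_lit 0x3cc2a) (nat_lit 12) (by decide +kernel) (ClAll.succ (ClAll.succ (ClAll.succ (ClAll.succ (ClAll.succ (ClAll.succ (ClAll.succ (ClAll.succ (ClAll.succ (ClAll.succ (ClAll.succ (ClAll.succ ClAll.zero s286) s287) s288) s289) s290) s291) s292) s293) s294) s295) s296) s297)

def n514 : Cl (O (nat_lit 5)) (R (nat_lit 14353))
    (p (nat_lit 0xc1) (nat_lit 0) (p (nat_lit 0x81) (nat_lit 1) (p (nat_lit 0x101) (nat_lit 1) (p (nat_lit 0x111) (nat_lit 0) (p (nat_lit 0xd1) (nat_lit 1) (p (nat_lit 0x89) (nat_lit 0) (p (nat_lit 0x41) (nat_lit 0) (p (nat_lit 0x10a0b0a89089a) (nat_lit 0) (p (nat_lit 0x98a8a08881a) (nat_lit 0) (p (nat_lit 0x109088988079a) (nat_lit 0) (p (nat_lit 0x8880907871a) (nat_lit 0) (p (nat_lit 0x8000000000800080887068a) (nat_lit 0) (p (nat_lit 0x10888068602) (nat_lit 0) (p (nat_lit 0x807860582)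 (nat_lit 0) (p (nat_lit 0x10607058502) (nat_lit 0) (p (nat_lit 0x586850482) (nat_lit 0) (p (nat_lit 0x16000c) (nat_lit 0) (p (nat_lit 0x68612) (nat_lit 0) (p (nat_lit 0x50592) (nat_lit 0) (p (nat_lit 0x40512) (nat_lit 0) (p (nat_lit 0x50312) (nat_lit 0) (p (nat_lit 0x38292) (nat_lit 0) (p (nat_lit 0x28212) (nat_lit 0) (p (nat_lit 0x38112) (nat_lit 0) (p (nat_lit 0x20092) (nat_lit 0) (p (nat_lit 0x10012) (nat_lit 0) pn)))))))))))))))))))))))))) :=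
  Cl.node (nat_lit 0x119) (nat_lit 2) (by decide +kernel) (ClAll.succ (ClAll.succ ClAll.zero n453) n454)

def n515 : Cl (O (nat_lit 5)) (R (nat_lit 14353))
    (p (nat_lit 0x101) (nat_lit 0) (p (nat_lit 0xc1) (nat_lit 1) (p (nat_lit 0x81) (nat_lit 1) (p (nat_lit 0x111) (nat_lit 1) (p (nat_lit 0xd1) (nat_lit 1) (p (nat_lit 0x89) (nat_lit 0) (p (nat_lit 0x41) (nat_lit 0) (p (nat_lit 0x10a0b0a89089a) (nat_lit 0) (p (nat_lit 0x98a8a08881a) (nat_lit 0) (p (nat_lit 0x109088988079a) (nat_lit 0) (p (nat_lit 0x8880907871a) (nat_lit 0) (p (nat_lit 0x8000000000800080887068a) (nat_lit 0) (p (nat_lit 0x10888068602) (nat_lit 0) (p (nat_lit 0x807860582) (nat_lit 0) (p (nat_lit 0x10607058502) (nat_lit 0) (p (nat_lit 0x586850482) (nat_lit 0) (p (nat_lit 0x16000c) (nat_lit 0) (p (nat_lit 0x68612) (nat_lit 0) (p (nat_lit 0x50592) (nat_lit 0) (p (nat_lit 0x40512) (nat_lit 0) (p (nat_lit 0x50312)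 (nat_lit 0) (p (nat_lit 0x38292) (nat_lit 0) (p (nat_lit 0x28212) (nat_lit 0) (p (nat_lit 0x38112) (nat_lit 0) (p (nat_lit 0x20092) (nat_lit 0) (p (nat_lit 0x10012) (nat_lit 0) pn)))))))))))))))))))))))))) :=
  Cl.node (nat_lit 0x3cc2a) (nat_lit 12) (by decide +kernel) (ClAll.succ (ClAll.succ (ClAll.succ (ClAll.succ (ClAll.succ (ClAll.succ (ClAll.succ (ClAll.succ (ClAll.succ (ClAll.succ (ClAll.succ (ClAll.succ ClAll.zero n455) s329) s330) s331) s332) s333) s334) s335) s336) s337) s338) s339)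

def n516 : Cl (O (nat_lit 5)) (R (nat_lit 14353))
    (p (nat_lit 0x101) (nat_lit 1) (p (nat_lit 0xc1) (nat_lit 1) (p (nat_lit 0x81) (nat_lit 1) (p (nat_lit 0x111) (nat_lit 1) (p (nat_lit 0xd1) (nat_lit 1) (p (nat_lit 0x89) (nat_lit 0) (p (nat_lit 0x41) (nat_lit 0) (p (nat_lit 0x10a0b0a89089a) (nat_lit 0) (p (nat_lit 0x98a8a08881a) (nat_lit 0) (p (nat_lit 0x109088988079a) (nat_lit 0) (p (nat_lit 0x8880907871a) (nat_lit 0) (p (nat_lit 0x8000000000800080887068a) (nat_lit 0) (p (nat_lit 0x10888068602) (nat_lit 0) (p (nat_lit 0x807860582) (nat_lit 0) (p (nat_lit 0x10607058502) (nat_lit 0) (p (nat_lit 0x586850482) (nat_lit 0) (p (nat_lit 0x16000c) (nat_lit 0) (p (nat_lit 0x68612) (nat_lit 0) (p (nat_lit 0x50592) (nat_lit 0) (p (nat_lit 0x40512) (nat_lit 0) (p (nat_lit 0x50312) (nat_lit 0) (p (nat_lit 0x38292) (nat_lit 0) (p (nat_lit 0x28212) (nat_lit 0) (p (nat_lit 0x38112)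 (nat_lit 0) (p (nat_lit 0x20092) (nat_lit 0) (p (nat_lit 0x10012) (nat_lit 0) pn)))))))))))))))))))))))))) :=
  Cl.node (nat_lit 0x444aa) (nat_lit 12) (by decide +kernel) (ClAll.succ (ClAll.succ (ClAll.succ (ClAll.succ (ClAll.succ (ClAll.succ (ClAll.succ (ClAll.succ (ClAll.succ (ClAll.succ (ClAll.succ (ClAll.succ ClAll.zero s340) s341) s342) s343) s344) s345) s346) s347) s348) s349) s350) s351)

def n517 : Cl (O (nat_lit 5)) (R (nat_lit 14353))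
    (p (nat_lit 0x111) (nat_lit 1) (p (nat_lit 0x109) (nat_lit 0) (p (nat_lit 0x101) (nat_lit 0) (p (nat_lit 0x119) (nat_lit 0) (p (nat_lit 0xc9) (nat_lit 0) (p (nat_lit 0x89) (nat_lit 1) (p (nat_lit 0x41) (nat_lit 0) (p (nat_lit 0x10a0b0a89089a) (nat_lit 0) (p (nat_lit 0x98a8a08881a) (nat_lit 0) (p (nat_lit 0x109088988079a) (nat_lit 0) (p (nat_lit 0x8880907871a) (nat_lit 0) (p (nat_lit 0x8000000000800080887068a) (nat_lit 0) (p (nat_lit 0x10888068602) (nat_lit 0) (p (nat_lit 0x807860582) (nat_lit 0) (p (nat_lit 0x10607058502) (nat_lit 0) (p (nat_lit 0x586850482) (nat_lit 0) (p (nat_lit 0x16000c) (nat_lit 0) (p (nat_lit 0x68612) (nat_lit 0) (p (nat_lit 0x50592) (nat_lit 0) (p (nat_lit 0x40512) (nat_lit 0) (p (nat_lit 0x50312) (nat_lit 0) (p (nat_lit 0x38292) (nat_lit 0) (p (nat_lit 0x28212) (nat_lit 0) (p (nat_lit 0x38112) (nat_lit 0) (p (nat_lit 0x20092) (nat_lit 0) (p (nat_lit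 0x10012) (nat_lit 0) pn)))))))))))))))))))))))))) :=
  Cl.node (nat_lit 0xd1) (nat_lit 2) (by decide +kernel) (ClAll.succ (ClAll.succ ClAll.zero s353) n456)

def n518 : Cl (O (nat_lit 5)) (R (nat_lit 14353))
    (p (nat_lit 0xd1) (nat_lit 0) (p (nat_lit 0x109) (nat_lit 1) (p (nat_lit 0x101) (nat_lit 0) (p (nat_lit 0x119) (nat_lit 0) (p (nat_lit 0xc9) (nat_lit 0) (p (nat_lit 0x89) (nat_lit 1) (p (nat_lit 0x41) (nat_lit 0) (p (nat_lit 0x10a0b0a89089a) (nat_lit 0) (p (nat_lit 0x98a8a08881a) (nat_lit 0) (p (nat_lit 0x109088988079a) (nat_lit 0) (p (nat_lit 0x8880907871a) (nat_lit 0) (p (nat_lit 0x8000000000800080887068a) (nat_lit 0) (p (nat_lit 0x10888068602) (nat_lit 0) (p (nat_lit 0x807860582) (nat_lit 0) (p (nat_lit 0x10607058502) (nat_lit 0) (p (nat_lit 0x586850482) (nat_lit 0) (p (nat_lit 0x16000c) (nat_lit 0) (p (nat_lit 0x68612) (nat_lit 0) (p (nat_lit 0x50592) (nat_lit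 0) (p (nat_lit 0x40512) (nat_lit 0) (p (nat_lit 0x50312) (nat_lit 0) (p (nat_lit 0x38292) (nat_lit 0) (p (nat_lit 0x28212) (nat_lit 0) (p (nat_lit 0x38112) (nat_lit 0) (p (nat_lit 0x20092) (nat_lit 0) (p (nat_lit 0x10012) (nat_lit 0) pn)))))))))))))))))))))))))) :=
  Cl.node (nat_lit 0x200004) (nat_lit 2) (by decide +kernel) (ClAll.succ (ClAll.succ ClAll.zero n457) s409)

def n519 : Cl (O (nat_lit 5)) (R (nat_lit 14353))
    (p (nat_lit 0xd1) (nat_lit 1) (p (nat_lit 0x109) (nat_lit 1) (p (nat_lit 0x101) (nat_lit 0) (p (nat_lit 0x119) (nat_lit 0) (p (nat_lit 0xc9) (nat_lit 0) (p (nat_lit 0x89) (nat_lit 1) (p (nat_lit 0x41) (nat_lit 0) (p (nat_lit 0x10a0b0a89089a) (nat_lit 0) (p (nat_lit 0x98a8a08881a) (nat_lit 0) (p (nat_lit 0x109088988079a) (nat_lit 0) (p (nat_lit 0x8880907871a) (nat_lit 0) (p (nat_lit 0x8000000000800080887068a) (nat_lit 0) (p (nat_lit 0x10888068602) (nat_lit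 0) (p (nat_lit 0x807860582) (nat_lit 0) (p (nat_lit 0x10607058502) (nat_lit 0) (p (nat_lit 0x586850482) (nat_lit 0) (p (nat_lit 0x16000c) (nat_lit 0) (p (nat_lit 0x68612) (nat_lit 0) (p (nat_lit 0x50592) (nat_lit 0) (p (nat_lit 0x40512) (nat_lit 0) (p (nat_lit 0x50312) (nat_lit 0) (p (nat_lit 0x38292) (nat_lit 0) (p (nat_lit 0x28212) (nat_lit 0) (p (nat_lit 0x38112) (nat_lit 0) (p (nat_lit 0x20092) (nat_lit 0) (p (nat_lit 0x10012) (nat_lit 0) pn)))))))))))))))))))))))))) :=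
  Cl.node (nat_lit 0x444aa) (nat_lit 12) (by decide +kernel) (ClAll.succ (ClAll.succ (ClAll.succ (ClAll.succ (ClAll.succ (ClAll.succ (ClAll.succ (ClAll.succ (ClAll.succ (ClAll.succ (ClAll.succ (ClAll.succ ClAll.zero s410) s411) s412) s413) s414) s415) s416) n458) s446) s447) s448) s449)

def n520 : Cl (O (nat_lit 5)) (R (nat_lit 14353))
    (p (nat_lit 0xd1) (nat_lit 0) (p (nat_lit 0xc1) (nat_lit 0) (p (nat_lit 0x101) (nat_lit 1) (p (nat_lit 0x119) (nat_lit 0) (p (nat_lit 0xc9) (nat_lit 0) (p (nat_lit 0x89) (nat_lit 1) (p (nat_lit 0x41) (nat_lit 0) (p (nat_lit 0x10a0b0a89089a) (nat_lit 0) (p (nat_lit 0x98a8a08881a) (nat_lit 0) (p (nat_lit 0x109088988079a) (nat_lit 0) (p (nat_lit 0x8880907871a) (nat_lit 0) (p (nat_lit 0x8000000000800080887068a) (nat_lit 0) (p (nat_lit 0x10888068602) (nat_lit 0) (p (nat_lit 0x807860582) (nat_lit 0) (p (nat_lit 0x10607058502) (nat_lit 0) (p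 (nat_lit 0x586850482) (nat_lit 0) (p (nat_lit 0x16000c) (nat_lit 0) (p (nat_lit 0x68612) (nat_lit 0) (p (nat_lit 0x50592) (nat_lit 0) (p (nat_lit 0x40512) (nat_lit 0) (p (nat_lit 0x50312) (nat_lit 0) (p (nat_lit 0x38292) (nat_lit 0) (p (nat_lit 0x28212) (nat_lit 0) (p (nat_lit 0x38112) (nat_lit 0) (p (nat_lit 0x20092) (nat_lit 0) (p (nat_lit 0x10012) (nat_lit 0) pn)))))))))))))))))))))))))) :=
  Cl.node (nat_lit 0x200004) (nat_lit 2) (by decide +kernel) (ClAll.succ (ClAll.succ ClAll.zero n459) s466)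

def n521 : Cl (O (nat_lit 5)) (R (nat_lit 14353))
    (p (nat_lit 0xd1) (nat_lit 1) (p (nat_lit 0xc1) (nat_lit 0) (p (nat_lit 0x101) (nat_lit 1) (p (nat_lit 0x119) (nat_lit 0) (p (nat_lit 0xc9) (nat_lit 0) (p (nat_lit 0x89) (nat_lit 1) (p (nat_lit 0x41) (nat_lit 0) (p (nat_lit 0x10a0b0a89089a) (nat_lit 0) (p (nat_lit 0x98a8a08881a) (nat_lit 0) (p (nat_lit 0x109088988079a) (nat_lit 0) (p (nat_lit 0x8880907871a) (nat_lit 0) (p (nat_lit 0x8000000000800080887068a) (nat_lit 0) (p (nat_lit 0x10888068602) (nat_lit 0) (p (nat_lit 0x807860582) (nat_lit 0) (p (nat_lit 0x10607058502) (nat_lit 0) (p (nat_lit 0x586850482) (nat_lit 0) (p (nat_lit 0x16000c) (nat_lit 0) (p (nat_lit 0x68612) (nat_lit 0) (p (nat_lit 0x50592) (nat_lit 0) (p (nat_lit 0x40512) (nat_lit 0) (p (nat_lit 0x50312) (nat_lit 0) (p (nat_lit 0x38292) (nat_lit 0) (p (nat_lit 0x28212) (nat_lit 0) (p (nat_lit 0x38112)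 (nat_lit 0) (p (nat_lit 0x20092) (nat_lit 0) (p (nat_lit 0x10012) (nat_lit 0) pn)))))))))))))))))))))))))) :=
  Cl.node (nat_lit 0x444aa) (nat_lit 12) (by decide +kernel) (ClAll.succ (ClAll.succ (ClAll.succ (ClAll.succ (ClAll.succ (ClAll.succ (ClAll.succ (ClAll.succ (ClAll.succ (ClAll.succ (ClAll.succ (ClAll.succ ClAll.zero s467) s468) s469) s470) s471) s472) s473) n460) s477) s478) s479) s480)

def n522 : Cl (O (nat_lit 5)) (R (nat_lit 14353))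
    (p (nat_lit 0x111) (nat_lit 1) (p (nat_lit 0xd1) (nat_lit 1) (p (nat_lit 0xc1) (nat_lit 0) (p (nat_lit 0x119) (nat_lit 1) (p (nat_lit 0xc9) (nat_lit 0) (p (nat_lit 0x89) (nat_lit 1) (p (nat_lit 0x41) (nat_lit 0) (p (nat_lit 0x10a0b0a89089a) (nat_lit 0) (p (nat_lit 0x98a8a08881a) (nat_lit 0) (p (nat_lit 0x109088988079a) (nat_lit 0) (p (nat_lit 0x8880907871a) (nat_lit 0) (p (nat_lit 0x8000000000800080887068a) (nat_lit 0) (p (nat_lit 0x10888068602) (nat_lit 0) (p (nat_lit 0x807860582) (nat_lit 0) (p (nat_lit 0x10607058502) (nat_lit 0) (p (nat_lit 0x586850482) (nat_lit 0) (p (nat_lit 0x16000c) (nat_lit 0) (p (nat_lit 0x68612) (nat_lit 0) (p (nat_lit 0x50592) (nat_lit 0) (p (nat_lit 0x40512) (nat_lit 0) (p (nat_lit 0x50312) (nat_lit 0) (p (nat_lit 0x38292) (nat_lit 0) (p (nat_lit 0x28212) (nat_lit 0) (p (nat_lit 0x38112) (nat_lit 0) (p (nat_lit 0x20092) (nat_lit 0) (p (nat_lit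 0x10012) (nat_lit 0) pn)))))))))))))))))))))))))) :=
  Cl.node (nat_lit 0x444aa) (nat_lit 12) (by decide +kernel) (ClAll.succ (ClAll.succ (ClAll.succ (ClAll.succ (ClAll.succ (ClAll.succ (ClAll.succ (ClAll.succ (ClAll.succ (ClAll.succ (ClAll.succ (ClAll.succ ClAll.zero s484) s485) s486) s487) s488) s489) s490) n461) s507) s508) s509) s510)

def n523 : Cl (O (nat_lit 5)) (R (nat_lit 14353))
    (p (nat_lit 0x111) (nat_lit 0) (p (nat_lit 0x101) (nat_lit 0) (p (nat_lit 0xc1) (nat_lit 1) (p (nat_lit 0x119) (nat_lit 1) (p (nat_lit 0xc9) (nat_lit 0) (p (nat_lit 0x89) (nat_lit 1) (p (nat_lit 0x41) (nat_lit 0) (p (nat_lit 0x10a0b0a89089a) (nat_lit 0) (p (nat_lit 0x98a8a08881a) (nat_lit 0) (p (nat_lit 0x109088988079a) (nat_lit 0) (p (nat_lit 0x8880907871a) (nat_lit 0) (p (nat_lit 0x8000000000800080887068a) (nat_lit 0) (p (nat_lit 0x10888068602) (nat_lit 0) (p (nat_lit 0x807860582)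 (nat_lit 0) (p (nat_lit 0x10607058502) (nat_lit 0) (p (nat_lit 0x586850482) (nat_lit 0) (p (nat_lit 0x16000c) (nat_lit 0) (p (nat_lit 0x68612) (nat_lit 0) (p (nat_lit 0x50592) (nat_lit 0) (p (nat_lit 0x40512) (nat_lit 0) (p (nat_lit 0x50312) (nat_lit 0) (p (nat_lit 0x38292) (nat_lit 0) (p (nat_lit 0x28212) (nat_lit 0) (p (nat_lit 0x38112) (nat_lit 0) (p (nat_lit 0x20092) (nat_lit 0) (p (nat_lit 0x10012) (nat_lit 0) pn)))))))))))))))))))))))))) :=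
  Cl.node (nat_lit 0x44c2a) (nat_lit 12) (by decide +kernel) (ClAll.succ (ClAll.succ (ClAll.succ (ClAll.succ (ClAll.succ (ClAll.succ (ClAll.succ (ClAll.succ (ClAll.succ (ClAll.succ (ClAll.succ (ClAll.succ ClAll.zero s511) s512) s513) s514) s515) s516) s517) s518) s519) s520) s521) s522)

def n524 : Cl (O (nat_lit 5)) (R (nat_lit 14353))
    (p (nat_lit 0x111) (nat_lit 1) (p (nat_lit 0x101) (nat_lit 0) (p (nat_lit 0xc1) (nat_lit 1) (p (nat_lit 0x119) (nat_lit 1) (p (nat_lit 0xc9) (nat_lit 0) (p (nat_lit 0x89) (nat_lit 1) (p (nat_lit 0x41) (nat_lit 0) (p (nat_lit 0x10a0b0a89089a) (nat_lit 0) (p (nat_lit 0x98a8a08881a) (nat_lit 0) (p (nat_lit 0x109088988079a) (nat_lit 0) (p (nat_lit 0x8880907871a) (nat_lit 0) (p (nat_lit 0x8000000000800080887068a) (nat_lit 0) (p (nat_lit 0x10888068602) (nat_lit 0) (p (nat_lit 0x807860582) (nat_lit 0) (p (nat_lit 0x10607058502) (nat_lit 0) (p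 (nat_lit 0x586850482) (nat_lit 0) (p (nat_lit 0x16000c) (nat_lit 0) (p (nat_lit 0x68612) (nat_lit 0) (p (nat_lit 0x50592) (nat_lit 0) (p (nat_lit 0x40512) (nat_lit 0) (p (nat_lit 0x50312) (nat_lit 0) (p (nat_lit 0x38292) (nat_lit 0) (p (nat_lit 0x28212) (nat_lit 0) (p (nat_lit 0x38112) (nat_lit 0) (p (nat_lit 0x20092) (nat_lit 0) (p (nat_lit 0x10012) (nat_lit 0) pn)))))))))))))))))))))))))) :=
  Cl.node (nat_lit 0x444aa) (nat_lit 12) (by decide +kernel) (ClAll.succ (ClAll.succ (ClAll.succ (ClAll.succ (ClAll.succ (ClAll.succ (ClAll.succ (ClAll.succ (ClAll.succ (ClAll.succ (ClAll.succ (ClAll.succ ClAll.zero s523) s524) s525) s526) s527) s528) s529) n462) s541) s542) s543) s544)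

def n525 : Cl (O (nat_lit 5)) (R (nat_lit 14353))
    (p (nat_lit 0x89) (nat_lit 0) (p (nat_lit 0x109) (nat_lit 1) (p (nat_lit 0x101) (nat_lit 0) (p (nat_lit 0x119) (nat_lit 0) (p (nat_lit 0xd1) (nat_lit 0) (p (nat_lit 0x81) (nat_lit 0) (p (nat_lit 0x41) (nat_lit 1) (p (nat_lit 0x10a0b0a89089a) (nat_lit 0) (p (nat_lit 0x98a8a08881a) (nat_lit 0) (p (nat_lit 0x109088988079a) (nat_lit 0) (p (nat_lit 0x8880907871a) (nat_lit 0) (p (nat_lit 0x8000000000800080887068a) (nat_lit 0) (p (nat_lit 0x10888068602) (nat_lit 0) (p (nat_lit 0x807860582) (nat_lit 0) (p (nat_lit 0x10607058502) (nat_lit 0) (p (nat_lit 0x586850482) (nat_lit 0) (p (nat_lit 0x16000c) (nat_lit 0) (p (nat_lit 0x68612) (nat_lit 0) (p (nat_lit 0x50592) (nat_lit 0) (p (nat_lit 0x40512) (nat_lit 0) (p (nat_lit 0x50312) (nat_lit 0) (p (nat_lit 0x38292) (nat_lit 0) (p (nat_lit 0x28212) (nat_lit 0) (p (nat_lit 0x38112)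 (nat_lit 0) (p (nat_lit 0x20092) (nat_lit 0) (p (nat_lit 0x10012) (nat_lit 0) pn)))))))))))))))))))))))))) :=
  Cl.node (nat_lit 0x111) (nat_lit 2) (by decide +kernel) (ClAll.succ (ClAll.succ ClAll.zero n463) n464)

def n526 : Cl (O (nat_lit 5)) (R (nat_lit 14353))
    (p (nat_lit 0x89) (nat_lit 1) (p (nat_lit 0x109) (nat_lit 1) (p (nat_lit 0x101) (nat_lit 0) (p (nat_lit 0x119) (nat_lit 0) (p (nat_lit 0xd1) (nat_lit 0) (p (nat_lit 0x81) (nat_lit 0) (p (nat_lit 0x41) (nat_lit 1) (p (nat_lit 0x10a0b0a89089a) (nat_lit 0) (p (nat_lit 0x98a8a08881a) (nat_lit 0) (p (nat_lit 0x109088988079a) (nat_lit 0) (p (nat_lit 0x8880907871a) (nat_lit 0) (p (nat_lit 0x8000000000800080887068a) (nat_lit 0) (p (nat_lit 0x10888068602) (nat_lit 0) (p (nat_lit 0x807860582) (nat_lit 0) (p (nat_lit 0x10607058502) (nat_lit 0) (p (nat_lit 0x586850482) (nat_lit 0) (p (nat_lit 0x16000c) (nat_lit 0) (p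 (nat_lit 0x68612) (nat_lit 0) (p (nat_lit 0x50592) (nat_lit 0) (p (nat_lit 0x40512) (nat_lit 0) (p (nat_lit 0x50312) (nat_lit 0) (p (nat_lit 0x38292) (nat_lit 0) (p (nat_lit 0x28212) (nat_lit 0) (p (nat_lit 0x38112) (nat_lit 0) (p (nat_lit 0x20092) (nat_lit 0) (p (nat_lit 0x10012) (nat_lit 0) pn)))))))))))))))))))))))))) :=
  Cl.node (nat_lit 0xc9) (nat_lit 2) (by decide +kernel) (ClAll.succ (ClAll.succ ClAll.zero n465) n466)

def n527 : Cl (O (nat_lit 5)) (R (nat_lit 14353))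
    (p (nat_lit 0x89) (nat_lit 0) (p (nat_lit 0xc1) (nat_lit 0) (p (nat_lit 0x101) (nat_lit 1) (p (nat_lit 0x119) (nat_lit 0) (p (nat_lit 0xd1) (nat_lit 0) (p (nat_lit 0x81) (nat_lit 0) (p (nat_lit 0x41) (nat_lit 1) (p (nat_lit 0x10a0b0a89089a) (nat_lit 0) (p (nat_lit 0x98a8a08881a) (nat_lit 0) (p (nat_lit 0x109088988079a) (nat_lit 0) (p (nat_lit 0x8880907871a) (nat_lit 0) (p (nat_lit 0x8000000000800080887068a) (nat_lit 0) (p (nat_lit 0x10888068602) (nat_lit 0) (p (nat_lit 0x807860582) (nat_lit 0) (p (nat_lit 0x10607058502) (nat_lit 0) (p (nat_lit 0x586850482) (nat_lit 0) (p (nat_lit 0x16000c) (nat_lit 0) (p (nat_lit 0x68612) (nat_lit 0) (p (nat_lit 0x50592) (nat_lit 0) (p (nat_lit 0x40512) (nat_lit 0) (p (nat_lit 0x50312) (nat_lit 0) (p (nat_lit 0x38292) (nat_lit 0) (p (nat_lit 0x28212) (nat_lit 0) (p (nat_lit 0x38112) (nat_lit 0) (p (nat_lit 0x20092) (nat_lit 0) (p (nat_lit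 0x10012) (nat_lit 0) pn)))))))))))))))))))))))))) :=
  Cl.node (nat_lit 0x3cc2a) (nat_lit 12) (by decide +kernel) (ClAll.succ (ClAll.succ (ClAll.succ (ClAll.succ (ClAll.succ (ClAll.succ (ClAll.succ (ClAll.succ (ClAll.succ (ClAll.succ (ClAll.succ (ClAll.succ ClAll.zero s643) s644) s645) s646) s647) s648) s649) s650) s651) s652) n467) n468)

def n528 : Cl (O (nat_lit 5)) (R (nat_lit 14353))
    (p (nat_lit 0x89) (nat_lit 1) (p (nat_lit 0xc1) (nat_lit 0) (p (nat_lit 0x101) (nat_lit 1) (p (nat_lit 0x119) (nat_lit 0) (p (nat_lit 0xd1) (nat_lit 0) (p (nat_lit 0x81) (nat_lit 0) (p (nat_lit 0x41) (nat_lit 1) (p (nat_lit 0x10a0b0a89089a) (nat_lit 0) (p (nat_lit 0x98a8a08881a) (nat_lit 0) (p (nat_lit 0x109088988079a) (nat_lit 0) (p (nat_lit 0x8880907871a) (nat_lit 0) (p (nat_lit 0x8000000000800080887068a) (nat_lit 0) (p (nat_lit 0x10888068602) (nat_lit 0) (p (nat_lit 0x807860582)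 (nat_lit 0) (p (nat_lit 0x10607058502) (nat_lit 0) (p (nat_lit 0x586850482) (nat_lit 0) (p (nat_lit 0x16000c) (nat_lit 0) (p (nat_lit 0x68612) (nat_lit 0) (p (nat_lit 0x50592) (nat_lit 0) (p (nat_lit 0x40512) (nat_lit 0) (p (nat_lit 0x50312) (nat_lit 0) (p (nat_lit 0x38292) (nat_lit 0) (p (nat_lit 0x28212) (nat_lit 0) (p (nat_lit 0x38112) (nat_lit 0) (p (nat_lit 0x20092) (nat_lit 0) (p (nat_lit 0x10012) (nat_lit 0) pn)))))))))))))))))))))))))) :=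
  Cl.node (nat_lit 0xc9) (nat_lit 2) (by decide +kernel) (ClAll.succ (ClAll.succ ClAll.zero n469) n470)

def n529 : Cl (O (nat_lit 5)) (R (nat_lit 14353))
    (p (nat_lit 0x89) (nat_lit 0) (p (nat_lit 0xc1) (nat_lit 1) (p (nat_lit 0x101) (nat_lit 1) (p (nat_lit 0x119) (nat_lit 0) (p (nat_lit 0xd1) (nat_lit 0) (p (nat_lit 0x81) (nat_lit 0) (p (nat_lit 0x41) (nat_lit 1) (p (nat_lit 0x10a0b0a89089a) (nat_lit 0) (p (nat_lit 0x98a8a08881a) (nat_lit 0) (p (nat_lit 0x109088988079a) (nat_lit 0) (p (nat_lit 0x8880907871a) (nat_lit 0) (p (nat_lit 0x8000000000800080887068a) (nat_lit 0) (p (nat_lit 0x10888068602) (nat_lit 0) (p (nat_lit 0x807860582) (nat_lit 0) (p (nat_lit 0x10607058502) (nat_lit 0) (p (nat_lit 0x586850482) (nat_lit 0) (p (nat_lit 0x16000c) (nat_lit 0) (p (nat_lit 0x68612) (nat_lit 0) (p (nat_lit 0x50592) (nat_lit 0) (p (nat_lit 0x40512) (nat_lit 0) (p (nat_lit 0x50312)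 (nat_lit 0) (p (nat_lit 0x38292) (nat_lit 0) (p (nat_lit 0x28212) (nat_lit 0) (p (nat_lit 0x38112) (nat_lit 0) (p (nat_lit 0x20092) (nat_lit 0) (p (nat_lit 0x10012) (nat_lit 0) pn)))))))))))))))))))))))))) :=
  Cl.node (nat_lit 0x3cc2a) (nat_lit 12) (by decide +kernel) (ClAll.succ (ClAll.succ (ClAll.succ (ClAll.succ (ClAll.succ (ClAll.succ (ClAll.succ (ClAll.succ (ClAll.succ (ClAll.succ (ClAll.succ (ClAll.succ ClAll.zero s721) s722) s723) s724) s725) s726) s727) s728) s729) s730) s731) s732)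

def n530 : Cl (O (nat_lit 5)) (R (nat_lit 14353))
    (p (nat_lit 0x89) (nat_lit 1) (p (nat_lit 0xc1) (nat_lit 1) (p (nat_lit 0x101) (nat_lit 1) (p (nat_lit 0x119) (nat_lit 0) (p (nat_lit 0xd1) (nat_lit 0) (p (nat_lit 0x81) (nat_lit 0) (p (nat_lit 0x41) (nat_lit 1) (p (nat_lit 0x10a0b0a89089a) (nat_lit 0) (p (nat_lit 0x98a8a08881a) (nat_lit 0) (p (nat_lit 0x109088988079a) (nat_lit 0) (p (nat_lit 0x8880907871a) (nat_lit 0) (p (nat_lit 0x8000000000800080887068a) (nat_lit 0) (p (nat_lit 0x10888068602) (nat_lit 0) (p (nat_lit 0x807860582) (nat_lit 0) (p (nat_lit 0x10607058502) (nat_lit 0) (p (nat_lit 0x586850482) (nat_lit 0) (p (nat_lit 0x16000c) (nat_lit 0) (p (nat_lit 0x68612) (nat_lit 0) (p (nat_lit 0x50592) (nat_lit 0) (p (nat_lit 0x40512) (nat_lit 0) (p (nat_lit 0x50312) (nat_lit 0) (p (nat_lit 0x38292) (nat_lit 0) (p (nat_lit 0x28212) (nat_lit 0) (p (nat_lit 0x38112)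 (nat_lit 0) (p (nat_lit 0x20092) (nat_lit 0) (p (nat_lit 0x10012) (nat_lit 0) pn)))))))))))))))))))))))))) :=
  Cl.node (nat_lit 0x3c4aa) (nat_lit 12) (by decide +kernel) (ClAll.succ (ClAll.succ (ClAll.succ (ClAll.succ (ClAll.succ (ClAll.succ (ClAll.succ (ClAll.succ (ClAll.succ (ClAll.succ (ClAll.succ (ClAll.succ ClAll.zero s733) s734) s735) s736) s737) s738) s739) n471) s749) s750) n472) s754)

def n531 : Cl (O (nat_lit 5)) (R (nat_lit 14353))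
    (p (nat_lit 0x89) (nat_lit 0) (p (nat_lit 0xc9) (nat_lit 1) (p (nat_lit 0xc1) (nat_lit 0) (p (nat_lit 0x119) (nat_lit 1) (p (nat_lit 0xd1) (nat_lit 0) (p (nat_lit 0x81) (nat_lit 0) (p (nat_lit 0x41) (nat_lit 1) (p (nat_lit 0x10a0b0a89089a) (nat_lit 0) (p (nat_lit 0x98a8a08881a) (nat_lit 0) (p (nat_lit 0x109088988079a) (nat_lit 0) (p (nat_lit 0x8880907871a) (nat_lit 0) (p (nat_lit 0x8000000000800080887068a) (nat_lit 0) (p (nat_lit 0x10888068602) (nat_lit 0) (p (nat_lit 0x807860582) (nat_lit 0) (p (nat_lit 0x10607058502) (nat_lit 0) (p (nat_lit 0x586850482) (nat_lit 0) (p (nat_lit 0x16000c) (nat_lit 0) (p (nat_lit 0x68612) (nat_lit 0) (p (nat_lit 0x50592) (nat_lit 0) (p (nat_lit 0x40512) (nat_lit 0) (p (nat_lit 0x50312) (nat_lit 0) (p (nat_lit 0x38292) (nat_lit 0) (p (nat_lit 0x28212) (nat_lit 0) (p (nat_lit 0x38112) (nat_lit 0) (p (nat_lit 0x20092) (nat_lit 0) (p (nat_lit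 0x10012) (nat_lit 0) pn)))))))))))))))))))))))))) :=
  Cl.node (nat_lit 0x44c2a) (nat_lit 12) (by decide +kernel) (ClAll.succ (ClAll.succ (ClAll.succ (ClAll.succ (ClAll.succ (ClAll.succ (ClAll.succ (ClAll.succ (ClAll.succ (ClAll.succ (ClAll.succ (ClAll.succ ClAll.zero s756) s757) s758) s759) s760) s761) s762) s763) s764) s765) s766) s767)

def n532 : Cl (O (nat_lit 5)) (R (nat_lit 14353))
    (p (nat_lit 0x89) (nat_lit 1) (p (nat_lit 0xc9) (nat_lit 1) (p (nat_lit 0xc1) (nat_lit 0) (p (nat_lit 0x119) (nat_lit 1) (p (nat_lit 0xd1) (nat_lit 0) (p (nat_lit 0x81) (nat_lit 0) (p (nat_lit 0x41) (nat_lit 1) (p (nat_lit 0x10a0b0a89089a) (nat_lit 0) (p (nat_lit 0x98a8a08881a) (nat_lit 0) (p (nat_lit 0x109088988079a) (nat_lit 0) (p (nat_lit 0x8880907871a) (nat_lit 0) (p (nat_lit 0x8000000000800080887068a) (nat_lit 0) (p (nat_lit 0x10888068602) (nat_lit 0) (p (nat_lit 0x807860582) (nat_lit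 0) (p (nat_lit 0x10607058502) (nat_lit 0) (p (nat_lit 0x586850482) (nat_lit 0) (p (nat_lit 0x16000c) (nat_lit 0) (p (nat_lit 0x68612) (nat_lit 0) (p (nat_lit 0x50592) (nat_lit 0) (p (nat_lit 0x40512) (nat_lit 0) (p (nat_lit 0x50312) (nat_lit 0) (p (nat_lit 0x38292) (nat_lit 0) (p (nat_lit 0x28212) (nat_lit 0) (p (nat_lit 0x38112) (nat_lit 0) (p (nat_lit 0x20092) (nat_lit 0) (p (nat_lit 0x10012) (nat_lit 0) pn)))))))))))))))))))))))))) :=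
  Cl.node (nat_lit 0x109) (nat_lit 2) (by decide +kernel) (ClAll.succ (ClAll.succ ClAll.zero n473) n474)

def n533 : Cl (O (nat_lit 5)) (R (nat_lit 14353))
    (p (nat_lit 0x89) (nat_lit 1) (p (nat_lit 0x101) (nat_lit 0) (p (nat_lit 0xc1) (nat_lit 1) (p (nat_lit 0x119) (nat_lit 1) (p (nat_lit 0xd1) (nat_lit 0) (p (nat_lit 0x81) (nat_lit 0) (p (nat_lit 0x41) (nat_lit 1) (p (nat_lit 0x10a0b0a89089a) (nat_lit 0) (p (nat_lit 0x98a8a08881a) (nat_lit 0) (p (nat_lit 0x109088988079a) (nat_lit 0) (p (nat_lit 0x8880907871a) (nat_lit 0) (p (nat_lit 0x8000000000800080887068a) (nat_lit 0) (p (nat_lit 0x10888068602) (nat_lit 0) (p (nat_lit 0x807860582) (nat_lit 0) (p (nat_lit 0x10607058502) (nat_lit 0) (p (nat_lit 0x586850482) (nat_lit 0) (p (nat_lit 0x16000c) (nat_lit 0) (p (nat_lit 0x68612) (nat_lit 0) (p (nat_lit 0x50592) (nat_lit 0) (p (nat_lit 0x40512) (nat_lit 0) (p (nat_lit 0x50312)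 (nat_lit 0) (p (nat_lit 0x38292) (nat_lit 0) (p (nat_lit 0x28212) (nat_lit 0) (p (nat_lit 0x38112) (nat_lit 0) (p (nat_lit 0x20092) (nat_lit 0) (p (nat_lit 0x10012) (nat_lit 0) pn)))))))))))))))))))))))))) :=
  Cl.node (nat_lit 0x109) (nat_lit 2) (by decide +kernel) (ClAll.succ (ClAll.succ ClAll.zero n475) n476)

def n534 : Cl (O (nat_lit 5)) (R (nat_lit 14353))
    (p (nat_lit 0x89) (nat_lit 0) (p (nat_lit 0x101) (nat_lit 1) (p (nat_lit 0xc1) (nat_lit 1) (p (nat_lit 0x119) (nat_lit 1) (p (nat_lit 0xd1) (nat_lit 0) (p (nat_lit 0x81) (nat_lit 0) (p (nat_lit 0x41) (nat_lit 1) (p (nat_lit 0x10a0b0a89089a) (nat_lit 0) (p (nat_lit 0x98a8a08881a) (nat_lit 0) (p (nat_lit 0x109088988079a) (nat_lit 0) (p (nat_lit 0x8880907871a) (nat_lit 0) (p (nat_lit 0x8000000000800080887068a) (nat_lit 0) (p (nat_lit 0x10888068602) (nat_lit 0) (p (nat_lit 0x807860582) (nat_lit 0) (p (nat_lit 0x10607058502)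 (nat_lit 0) (p (nat_lit 0x586850482) (nat_lit 0) (p (nat_lit 0x16000c) (nat_lit 0) (p (nat_lit 0x68612) (nat_lit 0) (p (nat_lit 0x50592) (nat_lit 0) (p (nat_lit 0x40512) (nat_lit 0) (p (nat_lit 0x50312) (nat_lit 0) (p (nat_lit 0x38292) (nat_lit 0) (p (nat_lit 0x28212) (nat_lit 0) (p (nat_lit 0x38112) (nat_lit 0) (p (nat_lit 0x20092) (nat_lit 0) (p (nat_lit 0x10012) (nat_lit 0) pn)))))))))))))))))))))))))) :=
  Cl.node (nat_lit 0x3cc2a) (nat_lit 12) (by decide +kernel) (ClAll.succ (ClAll.succ (ClAll.succ (ClAll.succ (ClAll.succ (ClAll.succ (ClAll.succ (ClAll.succ (ClAll.succ (ClAll.succ (ClAll.succ (ClAll.succ ClAll.zero s893) s894) s895) s896) s897) s898) s899) s900) s901) s902) n477) n478)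

def n535 : Cl (O (nat_lit 5)) (R (nat_lit 14353))
    (p (nat_lit 0x89) (nat_lit 1) (p (nat_lit 0x101) (nat_lit 1) (p (nat_lit 0xc1) (nat_lit 1) (p (nat_lit 0x119) (nat_lit 1) (p (nat_lit 0xd1) (nat_lit 0) (p (nat_lit 0x81) (nat_lit 0) (p (nat_lit 0x41) (nat_lit 1) (p (nat_lit 0x10a0b0a89089a) (nat_lit 0) (p (nat_lit 0x98a8a08881a) (nat_lit 0) (p (nat_lit 0x109088988079a) (nat_lit 0) (p (nat_lit 0x8880907871a) (nat_lit 0) (p (nat_lit 0x8000000000800080887068a) (nat_lit 0) (p (nat_lit 0x10888068602) (nat_lit 0) (p (nat_lit 0x807860582) (nat_lit 0) (p (nat_lit 0x10607058502) (nat_lit 0) (p (nat_lit 0x586850482) (nat_lit 0) (p (nat_lit 0x16000c) (nat_lit 0) (p (nat_lit 0x68612) (nat_lit 0) (p (nat_lit 0x50592) (nat_lit 0) (p (nat_lit 0x40512) (nat_lit 0) (p (nat_lit 0x50312) (nat_lit 0) (p (nat_lit 0x38292) (nat_lit 0) (p (nat_lit 0x28212) (nat_lit 0) (p (nat_lit 0x38112)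 (nat_lit 0) (p (nat_lit 0x20092) (nat_lit 0) (p (nat_lit 0x10012) (nat_lit 0) pn)))))))))))))))))))))))))) :=
  Cl.node (nat_lit 0x3c4aa) (nat_lit 12) (by decide +kernel) (ClAll.succ (ClAll.succ (ClAll.succ (ClAll.succ (ClAll.succ (ClAll.succ (ClAll.succ (ClAll.succ (ClAll.succ (ClAll.succ (ClAll.succ (ClAll.succ ClAll.zero s908) s909) s910) s911) s912) s913) s914) n479) s930) n480) n481) s943)

def n536 : Cl (O (nat_lit 5)) (R (nat_lit 14353))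
    (p (nat_lit 0x89) (nat_lit 0) (p (nat_lit 0x109) (nat_lit 1) (p (nat_lit 0x101) (nat_lit 0) (p (nat_lit 0x111) (nat_lit 0) (p (nat_lit 0xd1) (nat_lit 1) (p (nat_lit 0x81) (nat_lit 0) (p (nat_lit 0x41) (nat_lit 1) (p (nat_lit 0x10a0b0a89089a) (nat_lit 0) (p (nat_lit 0x98a8a08881a) (nat_lit 0) (p (nat_lit 0x109088988079a) (nat_lit 0) (p (nat_lit 0x8880907871a) (nat_lit 0) (p (nat_lit 0x8000000000800080887068a) (nat_lit 0) (p (nat_lit 0x10888068602) (nat_lit 0) (p (nat_lit 0x807860582) (nat_lit 0) (p (nat_lit 0x10607058502) (nat_lit 0) (p (nat_lit 0x586850482) (nat_lit 0) (p (nat_lit 0x16000c) (nat_lit 0) (p (nat_lit 0x68612) (nat_lit 0) (p (nat_lit 0x50592) (nat_lit 0) (p (nat_lit 0x40512) (nat_lit 0) (p (nat_lit 0x50312) (nat_lit 0) (p (nat_lit 0x38292) (nat_lit 0) (p (nat_lit 0x28212) (nat_lit 0) (p (nat_lit 0x38112) (nat_lit 0) (p (nat_lit 0x20092) (nat_lit 0) (p (nat_lit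 0x10012) (nat_lit 0) pn)))))))))))))))))))))))))) :=
  Cl.node (nat_lit 0x119) (nat_lit 2) (by decide +kernel) (ClAll.succ (ClAll.succ ClAll.zero s945) n482)

def n537 : Cl (O (nat_lit 5)) (R (nat_lit 14353))
    (p (nat_lit 0x89) (nat_lit 1) (p (nat_lit 0x109) (nat_lit 1) (p (nat_lit 0x101) (nat_lit 0) (p (nat_lit 0x111) (nat_lit 0) (p (nat_lit 0xd1) (nat_lit 1) (p (nat_lit 0x81) (nat_lit 0) (p (nat_lit 0x41) (nat_lit 1) (p (nat_lit 0x10a0b0a89089a) (nat_lit 0) (p (nat_lit 0x98a8a08881a) (nat_lit 0) (p (nat_lit 0x109088988079a) (nat_lit 0) (p (nat_lit 0x8880907871a) (nat_lit 0) (p (nat_lit 0x8000000000800080887068a) (nat_lit 0) (p (nat_lit 0x10888068602) (nat_lit 0) (p (nat_lit 0x807860582) (nat_lit 0) (p (nat_lit 0x10607058502) (nat_lit 0) (p (nat_lit 0x586850482) (nat_lit 0) (p (nat_lit 0x16000c) (nat_lit 0) (p (nat_lit 0x68612) (nat_lit 0) (p (nat_lit 0x50592) (nat_lit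 0) (p (nat_lit 0x40512) (nat_lit 0) (p (nat_lit 0x50312) (nat_lit 0) (p (nat_lit 0x38292) (nat_lit 0) (p (nat_lit 0x28212) (nat_lit 0) (p (nat_lit 0x38112) (nat_lit 0) (p (nat_lit 0x20092) (nat_lit 0) (p (nat_lit 0x10012) (nat_lit 0) pn)))))))))))))))))))))))))) :=
  Cl.node (nat_lit 0xc9) (nat_lit 2) (by decide +kernel) (ClAll.succ (ClAll.succ ClAll.zero n483) n484)

def n538 : Cl (O (nat_lit 5)) (R (nat_lit 14353))
    (p (nat_lit 0x3cc2a) (nat_lit 0) (p (nat_lit 0x89) (nat_lit 0) (p (nat_lit 0x101) (nat_lit 1) (p (nat_lit 0x111) (nat_lit 0) (p (nat_lit 0xd1) (nat_lit 1) (p (nat_lit 0x81) (nat_lit 0) (p (nat_lit 0x41) (nat_lit 1) (p (nat_lit 0x10a0b0a89089a) (nat_lit 0) (p (nat_lit 0x98a8a08881a) (nat_lit 0) (p (nat_lit 0x109088988079a) (nat_lit 0) (p (nat_lit 0x8880907871a) (nat_lit 0) (p (nat_lit 0x8000000000800080887068a) (nat_lit 0) (p (nat_lit 0x10888068602) (nat_lit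 0) (p (nat_lit 0x807860582) (nat_lit 0) (p (nat_lit 0x10607058502) (nat_lit 0) (p (nat_lit 0x586850482) (nat_lit 0) (p (nat_lit 0x16000c) (nat_lit 0) (p (nat_lit 0x68612) (nat_lit 0) (p (nat_lit 0x50592) (nat_lit 0) (p (nat_lit 0x40512) (nat_lit 0) (p (nat_lit 0x50312) (nat_lit 0) (p (nat_lit 0x38292) (nat_lit 0) (p (nat_lit 0x28212) (nat_lit 0) (p (nat_lit 0x38112) (nat_lit 0) (p (nat_lit 0x20092) (nat_lit 0) (p (nat_lit 0x10012) (nat_lit 0) pn)))))))))))))))))))))))))) :=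
  Cl.node (nat_lit 0x380c2) (nat_lit 1) (by decide +kernel) (ClAll.succ ClAll.zero n485)

def n539 : Cl (O (nat_lit 5)) (R (nat_lit 14353))
    (p (nat_lit 0x3cc2a) (nat_lit 1) (p (nat_lit 0x89) (nat_lit 0) (p (nat_lit 0x101) (nat_lit 1) (p (nat_lit 0x111) (nat_lit 0) (p (nat_lit 0xd1) (nat_lit 1) (p (nat_lit 0x81) (nat_lit 0) (p (nat_lit 0x41) (nat_lit 1) (p (nat_lit 0x10a0b0a89089a) (nat_lit 0) (p (nat_lit 0x98a8a08881a) (nat_lit 0) (p (nat_lit 0x109088988079a) (nat_lit 0) (p (nat_lit 0x8880907871a) (nat_lit 0) (p (nat_lit 0x8000000000800080887068a) (nat_lit 0) (p (nat_lit 0x10888068602) (nat_lit 0) (p (nat_lit 0x807860582) (nat_lit 0) (p (nat_lit 0x10607058502) (nat_lit 0) (p (nat_lit 0x586850482) (nat_lit 0) (p (nat_lit 0x16000c) (nat_lit 0) (p (nat_lit 0x68612) (nat_lit 0) (p (nat_lit 0x50592) (nat_lit 0) (p (nat_lit 0x40512) (nat_lit 0) (p (nat_lit 0x50312) (nat_lit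 0) (p (nat_lit 0x38292) (nat_lit 0) (p (nat_lit 0x28212) (nat_lit 0) (p (nat_lit 0x38112) (nat_lit 0) (p (nat_lit 0x20092) (nat_lit 0) (p (nat_lit 0x10012) (nat_lit 0) pn)))))))))))))))))))))))))) :=
  Cl.node (nat_lit 0x380c2) (nat_lit 2) (by decide +kernel) (ClAll.succ (ClAll.succ ClAll.zero n486) s1036)

def n540 : Cl (O (nat_lit 5)) (R (nat_lit 14353))
    (p (nat_lit 0xc9) (nat_lit 0) (p (nat_lit 0x89) (nat_lit 1) (p (nat_lit 0x101) (nat_lit 1) (p (nat_lit 0x111) (nat_lit 0) (p (nat_lit 0xd1) (nat_lit 1) (p (nat_lit 0x81) (nat_lit 0) (p (nat_lit 0x41) (nat_lit 1) (p (nat_lit 0x10a0b0a89089a) (nat_lit 0) (p (nat_lit 0x98a8a08881a) (nat_lit 0) (p (nat_lit 0x109088988079a) (nat_lit 0) (p (nat_lit 0x8880907871a) (nat_lit 0) (p (nat_lit 0x8000000000800080887068a) (nat_lit 0) (p (nat_lit 0x10888068602) (nat_lit 0) (p (nat_lit 0x807860582) (nat_lit 0) (p (nat_lit 0x10607058502)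 (nat_lit 0) (p (nat_lit 0x586850482) (nat_lit 0) (p (nat_lit 0x16000c) (nat_lit 0) (p (nat_lit 0x68612) (nat_lit 0) (p (nat_lit 0x50592) (nat_lit 0) (p (nat_lit 0x40512) (nat_lit 0) (p (nat_lit 0x50312) (nat_lit 0) (p (nat_lit 0x38292) (nat_lit 0) (p (nat_lit 0x28212) (nat_lit 0) (p (nat_lit 0x38112) (nat_lit 0) (p (nat_lit 0x20092) (nat_lit 0) (p (nat_lit 0x10012) (nat_lit 0) pn)))))))))))))))))))))))))) :=
  Cl.node (nat_lit 0x3cc2a) (nat_lit 12) (by decide +kernel) (ClAll.succ (ClAll.succ (ClAll.succ (ClAll.succ (ClAll.succ (ClAll.succ (ClAll.succ (ClAll.succ (ClAll.succ (ClAll.succ (ClAll.succ (ClAll.succ ClAll.zero n487) n488) s1064) s1065) s1066) s1067) s1068) s1069) s1070) s1071) n489) s1076)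

def n541 : Cl (O (nat_lit 5)) (R (nat_lit 14353))
    (p (nat_lit 0xc9) (nat_lit 1) (p (nat_lit 0x89) (nat_lit 1) (p (nat_lit 0x101) (nat_lit 1) (p (nat_lit 0x111) (nat_lit 0) (p (nat_lit 0xd1) (nat_lit 1) (p (nat_lit 0x81) (nat_lit 0) (p (nat_lit 0x41) (nat_lit 1) (p (nat_lit 0x10a0b0a89089a) (nat_lit 0) (p (nat_lit 0x98a8a08881a) (nat_lit 0) (p (nat_lit 0x109088988079a) (nat_lit 0) (p (nat_lit 0x8880907871a) (nat_lit 0) (p (nat_lit 0x8000000000800080887068a) (nat_lit 0) (p (nat_lit 0x10888068602) (nat_lit 0) (p (nat_lit 0x807860582) (nat_lit 0) (p (nat_lit 0x10607058502) (nat_lit 0) (p (nat_lit 0x586850482) (nat_lit 0) (p (nat_lit 0x16000c) (nat_lit 0) (p (nat_lit 0x68612) (nat_lit 0) (p (nat_lit 0x50592) (nat_lit 0) (p (nat_lit 0x40512) (nat_lit 0) (p (nat_lit 0x50312) (nat_lit 0) (p (nat_lit 0x38292) (nat_lit 0) (p (nat_lit 0x28212) (nat_lit 0) (p (nat_lit 0x38112)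 (nat_lit 0) (p (nat_lit 0x20092) (nat_lit 0) (p (nat_lit 0x10012) (nat_lit 0) pn)))))))))))))))))))))))))) :=
  Cl.node (nat_lit 0x3c4aa) (nat_lit 12) (by decide +kernel) (ClAll.succ (ClAll.succ (ClAll.succ (ClAll.succ (ClAll.succ (ClAll.succ (ClAll.succ (ClAll.succ (ClAll.succ (ClAll.succ (ClAll.succ (ClAll.succ ClAll.zero s1077) s1078) s1079) s1080) s1081) s1082) s1083) n490) s1087) s1088) s1089) s1090)

def n542 : Cl (O (nat_lit 5)) (R (nat_lit 14353))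
    (p (nat_lit 0x109) (nat_lit 0) (p (nat_lit 0xc9) (nat_lit 1) (p (nat_lit 0x89) (nat_lit 1) (p (nat_lit 0x111) (nat_lit 1) (p (nat_lit 0xd1) (nat_lit 1) (p (nat_lit 0x81) (nat_lit 0) (p (nat_lit 0x41) (nat_lit 1) (p (nat_lit 0x10a0b0a89089a) (nat_lit 0) (p (nat_lit 0x98a8a08881a) (nat_lit 0) (p (nat_lit 0x109088988079a) (nat_lit 0) (p (nat_lit 0x8880907871a) (nat_lit 0) (p (nat_lit 0x8000000000800080887068a) (nat_lit 0) (p (nat_lit 0x10888068602) (nat_lit 0) (p (nat_lit 0x807860582) (nat_lit 0) (p (nat_lit 0x10607058502) (nat_lit 0) (p (nat_lit 0x586850482) (nat_lit 0) (p (nat_lit 0x16000c) (nat_lit 0) (p (nat_lit 0x68612) (nat_lit 0) (p (nat_lit 0x50592) (nat_lit 0) (p (nat_lit 0x40512) (nat_lit 0) (p (nat_lit 0x50312) (nat_lit 0) (p (nat_lit 0x38292) (nat_lit 0) (p (nat_lit 0x28212) (nat_lit 0) (p (nat_lit 0x38112) (nat_lit 0) (p (nat_lit 0x20092) (nat_lit 0) (p (nat_lit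 0x10012) (nat_lit 0) pn)))))))))))))))))))))))))) :=
  Cl.node (nat_lit 0x3cc2a) (nat_lit 12) (by decide +kernel) (ClAll.succ (ClAll.succ (ClAll.succ (ClAll.succ (ClAll.succ (ClAll.succ (ClAll.succ (ClAll.succ (ClAll.succ (ClAll.succ (ClAll.succ (ClAll.succ ClAll.zero n491) s1098) s1099) s1100) s1101) s1102) s1103) s1104) s1105) s1106) s1107) s1108)

def n543 : Cl (O (nat_lit 5)) (R (nat_lit 14353))
    (p (nat_lit 0x109) (nat_lit 1) (p (nat_lit 0xc9) (nat_lit 1) (p (nat_lit 0x89) (nat_lit 1) (p (nat_lit 0x111) (nat_lit 1) (p (nat_lit 0xd1) (nat_lit 1) (p (nat_lit 0x81) (nat_lit 0) (p (nat_lit 0x41) (nat_lit 1) (p (nat_lit 0x10a0b0a89089a) (nat_lit 0) (p (nat_lit 0x98a8a08881a) (nat_lit 0) (p (nat_lit 0x109088988079a) (nat_lit 0) (p (nat_lit 0x8880907871a) (nat_lit 0) (p (nat_lit 0x8000000000800080887068a) (nat_lit 0) (p (nat_lit 0x10888068602) (nat_lit 0) (p (nat_lit 0x807860582)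 (nat_lit 0) (p (nat_lit 0x10607058502) (nat_lit 0) (p (nat_lit 0x586850482) (nat_lit 0) (p (nat_lit 0x16000c) (nat_lit 0) (p (nat_lit 0x68612) (nat_lit 0) (p (nat_lit 0x50592) (nat_lit 0) (p (nat_lit 0x40512) (nat_lit 0) (p (nat_lit 0x50312) (nat_lit 0) (p (nat_lit 0x38292) (nat_lit 0) (p (nat_lit 0x28212) (nat_lit 0) (p (nat_lit 0x38112) (nat_lit 0) (p (nat_lit 0x20092) (nat_lit 0) (p (nat_lit 0x10012) (nat_lit 0) pn)))))))))))))))))))))))))) :=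
  Cl.node (nat_lit 0x3c4aa) (nat_lit 12) (by decide +kernel) (ClAll.succ (ClAll.succ (ClAll.succ (ClAll.succ (ClAll.succ (ClAll.succ (ClAll.succ (ClAll.succ (ClAll.succ (ClAll.succ (ClAll.succ (ClAll.succ ClAll.zero s1109) s1110) s1111) s1112) s1113) s1114) s1115) s1116) s1117) s1118) s1119) s1120)

def n544 : Cl (O (nat_lit 5)) (R (nat_lit 14353))
    (p (nat_lit 0x111) (nat_lit 1) (p (nat_lit 0x109) (nat_lit 0) (p (nat_lit 0x101) (nat_lit 0) (p (nat_lit 0x119) (nat_lit 0) (p (nat_lit 0xc1) (nat_lit 0) (p (nat_lit 0x81) (nat_lit 1) (p (nat_lit 0x41) (nat_lit 1) (p (nat_lit 0x10a0b0a89089a) (nat_lit 0) (p (nat_lit 0x98a8a08881a) (nat_lit 0) (p (nat_lit 0x109088988079a) (nat_lit 0) (p (nat_lit 0x8880907871a) (nat_lit 0) (p (nat_lit 0x8000000000800080887068a) (nat_lit 0) (p (nat_lit 0x10888068602) (nat_lit 0) (p (nat_lit 0x807860582) (nat_lit 0) (p (nat_lit 0x10607058502)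 (nat_lit 0) (p (nat_lit 0x586850482) (nat_lit 0) (p (nat_lit 0x16000c) (nat_lit 0) (p (nat_lit 0x68612) (nat_lit 0) (p (nat_lit 0x50592) (nat_lit 0) (p (nat_lit 0x40512) (nat_lit 0) (p (nat_lit 0x50312) (nat_lit 0) (p (nat_lit 0x38292) (nat_lit 0) (p (nat_lit 0x28212) (nat_lit 0) (p (nat_lit 0x38112) (nat_lit 0) (p (nat_lit 0x20092) (nat_lit 0) (p (nat_lit 0x10012) (nat_lit 0) pn)))))))))))))))))))))))))) :=
  Cl.node (nat_lit 0xd1) (nat_lit 2) (by decide +kernel) (ClAll.succ (ClAll.succ ClAll.zero s1122) n492)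

def n545 : Cl (O (nat_lit 5)) (R (nat_lit 14353))
    (p (nat_lit 0xc9) (nat_lit 0) (p (nat_lit 0x109) (nat_lit 1) (p (nat_lit 0x101) (nat_lit 0) (p (nat_lit 0x119) (nat_lit 0) (p (nat_lit 0xc1) (nat_lit 0) (p (nat_lit 0x81) (nat_lit 1) (p (nat_lit 0x41) (nat_lit 1) (p (nat_lit 0x10a0b0a89089a) (nat_lit 0) (p (nat_lit 0x98a8a08881a) (nat_lit 0) (p (nat_lit 0x109088988079a) (nat_lit 0) (p (nat_lit 0x8880907871a) (nat_lit 0) (p (nat_lit 0x8000000000800080887068a) (nat_lit 0) (p (nat_lit 0x10888068602) (nat_lit 0) (p (nat_lit 0x807860582) (nat_lit 0) (p (nat_lit 0x10607058502) (nat_lit 0) (p (nat_lit 0x586850482) (nat_lit 0) (p (nat_lit 0x16000c) (nat_lit 0) (p (nat_lit 0x68612) (nat_lit 0) (p (nat_lit 0x50592) (nat_lit 0) (p (nat_lit 0x40512) (nat_lit 0) (p (nat_lit 0x50312) (nat_lit 0) (p (nat_lit 0x38292) (nat_lit 0) (p (nat_lit 0x28212) (nat_lit 0) (p (nat_lit 0x38112)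 (nat_lit 0) (p (nat_lit 0x20092) (nat_lit 0) (p (nat_lit 0x10012) (nat_lit 0) pn)))))))))))))))))))))))))) :=
  Cl.node (nat_lit 0xd1) (nat_lit 2) (by decide +kernel) (ClAll.succ (ClAll.succ ClAll.zero s1181) n493)

def n546 : Cl (O (nat_lit 5)) (R (nat_lit 14353))
    (p (nat_lit 0xd1) (nat_lit 0) (p (nat_lit 0xc9) (nat_lit 0) (p (nat_lit 0x101) (nat_lit 1) (p (nat_lit 0x119) (nat_lit 0) (p (nat_lit 0xc1) (nat_lit 0) (p (nat_lit 0x81) (nat_lit 1) (p (nat_lit 0x41) (nat_lit 1) (p (nat_lit 0x10a0b0a89089a) (nat_lit 0) (p (nat_lit 0x98a8a08881a) (nat_lit 0) (p (nat_lit 0x109088988079a) (nat_lit 0) (p (nat_lit 0x8880907871a) (nat_lit 0) (p (nat_lit 0x8000000000800080887068a) (nat_lit 0) (p (nat_lit 0x10888068602) (nat_lit 0) (p (nat_lit 0x807860582) (nat_lit 0) (p (nat_lit 0x10607058502) (nat_lit 0) (p (nat_lit 0x586850482) (nat_lit 0) (p (nat_lit 0x16000c) (nat_lit 0) (p (nat_lit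 0x68612) (nat_lit 0) (p (nat_lit 0x50592) (nat_lit 0) (p (nat_lit 0x40512) (nat_lit 0) (p (nat_lit 0x50312) (nat_lit 0) (p (nat_lit 0x38292) (nat_lit 0) (p (nat_lit 0x28212) (nat_lit 0) (p (nat_lit 0x38112) (nat_lit 0) (p (nat_lit 0x20092) (nat_lit 0) (p (nat_lit 0x10012) (nat_lit 0) pn)))))))))))))))))))))))))) :=
  Cl.node (nat_lit 0x44c2a) (nat_lit 12) (by decide +kernel) (ClAll.succ (ClAll.succ (ClAll.succ (ClAll.succ (ClAll.succ (ClAll.succ (ClAll.succ (ClAll.succ (ClAll.succ (ClAll.succ (ClAll.succ (ClAll.succ ClAll.zero n494) n495) s1231) s1232) s1233) s1234) s1235) s1236) s1237) s1238) s1239) s1240)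

def n547 : Cl (O (nat_lit 5)) (R (nat_lit 14353))
    (p (nat_lit 0xd1) (nat_lit 1) (p (nat_lit 0xc9) (nat_lit 0) (p (nat_lit 0x101) (nat_lit 1) (p (nat_lit 0x119) (nat_lit 0) (p (nat_lit 0xc1) (nat_lit 0) (p (nat_lit 0x81) (nat_lit 1) (p (nat_lit 0x41) (nat_lit 1) (p (nat_lit 0x10a0b0a89089a) (nat_lit 0) (p (nat_lit 0x98a8a08881a) (nat_lit 0) (p (nat_lit 0x109088988079a) (nat_lit 0) (p (nat_lit 0x8880907871a) (nat_lit 0) (p (nat_lit 0x8000000000800080887068a) (nat_lit 0) (p (nat_lit 0x10888068602) (nat_lit 0) (p (nat_lit 0x807860582) (nat_lit 0) (p (nat_lit 0x10607058502) (nat_lit 0) (p (nat_lit 0x586850482) (nat_lit 0) (p (nat_lit 0x16000c) (nat_lit 0) (p (nat_lit 0x68612) (nat_lit 0) (p (nat_lit 0x50592) (nat_lit 0) (p (nat_lit 0x40512) (nat_lit 0) (p (nat_lit 0x50312) (nat_lit 0) (p (nat_lit 0x38292) (nat_lit 0) (p (nat_lit 0x28212) (nat_lit 0) (p (nat_lit 0x38112)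 (nat_lit 0) (p (nat_lit 0x20092) (nat_lit 0) (p (nat_lit 0x10012) (nat_lit 0) pn)))))))))))))))))))))))))) :=
  Cl.node (nat_lit 0x3c4aa) (nat_lit 12) (by decide +kernel) (ClAll.succ (ClAll.succ (ClAll.succ (ClAll.succ (ClAll.succ (ClAll.succ (ClAll.succ (ClAll.succ (ClAll.succ (ClAll.succ (ClAll.succ (ClAll.succ ClAll.zero s1241) s1242) s1243) s1244) s1245) s1246) s1247) n496) s1279) s1280) s1281) s1282)

def n548 : Cl (O (nat_lit 5)) (R (nat_lit 14353))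
    (p (nat_lit 0x111) (nat_lit 1) (p (nat_lit 0xd1) (nat_lit 1) (p (nat_lit 0xc9) (nat_lit 0) (p (nat_lit 0x119) (nat_lit 1) (p (nat_lit 0xc1) (nat_lit 0) (p (nat_lit 0x81) (nat_lit 1) (p (nat_lit 0x41) (nat_lit 1) (p (nat_lit 0x10a0b0a89089a) (nat_lit 0) (p (nat_lit 0x98a8a08881a) (nat_lit 0) (p (nat_lit 0x109088988079a) (nat_lit 0) (p (nat_lit 0x8880907871a) (nat_lit 0) (p (nat_lit 0x8000000000800080887068a) (nat_lit 0) (p (nat_lit 0x10888068602) (nat_lit 0) (p (nat_lit 0x807860582) (nat_lit 0) (p (nat_lit 0x10607058502) (nat_lit 0) (p (nat_lit 0x586850482) (nat_lit 0) (p (nat_lit 0x16000c) (nat_lit 0) (p (nat_lit 0x68612) (nat_lit 0) (p (nat_lit 0x50592) (nat_lit 0) (p (nat_lit 0x40512) (nat_lit 0) (p (nat_lit 0x50312) (nat_lit 0) (p (nat_lit 0x38292) (nat_lit 0) (p (nat_lit 0x28212) (nat_lit 0) (p (nat_lit 0x38112) (nat_lit 0) (p (nat_lit 0x20092) (nat_lit 0) (p (nat_lit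 0x10012) (nat_lit 0) pn)))))))))))))))))))))))))) :=
  Cl.node (nat_lit 0x3c4aa) (nat_lit 12) (by decide +kernel) (ClAll.succ (ClAll.succ (ClAll.succ (ClAll.succ (ClAll.succ (ClAll.succ (ClAll.succ (ClAll.succ (ClAll.succ (ClAll.succ (ClAll.succ (ClAll.succ ClAll.zero s1286) s1287) s1288) s1289) s1290) s1291) s1292) n497) s1310) s1311) n498) s1316)

def n549 : Cl (O (nat_lit 5)) (R (nat_lit 14353))
    (p (nat_lit 0x111) (nat_lit 0) (p (nat_lit 0x109) (nat_lit 0) (p (nat_lit 0xc9) (nat_lit 1) (p (nat_lit 0x119) (nat_lit 1) (p (nat_lit 0xc1) (nat_lit 0) (p (nat_lit 0x81) (nat_lit 1) (p (nat_lit 0x41) (nat_lit 1) (p (nat_lit 0x10a0b0a89089a) (nat_lit 0) (p (nat_lit 0x98a8a08881a) (nat_lit 0) (p (nat_lit 0x109088988079a) (nat_lit 0) (p (nat_lit 0x8880907871a) (nat_lit 0) (p (nat_lit 0x8000000000800080887068a) (nat_lit 0) (p (nat_lit 0x10888068602) (nat_lit 0) (p (nat_lit 0x807860582)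 (nat_lit 0) (p (nat_lit 0x10607058502) (nat_lit 0) (p (nat_lit 0x586850482) (nat_lit 0) (p (nat_lit 0x16000c) (nat_lit 0) (p (nat_lit 0x68612) (nat_lit 0) (p (nat_lit 0x50592) (nat_lit 0) (p (nat_lit 0x40512) (nat_lit 0) (p (nat_lit 0x50312) (nat_lit 0) (p (nat_lit 0x38292) (nat_lit 0) (p (nat_lit 0x28212) (nat_lit 0) (p (nat_lit 0x38112) (nat_lit 0) (p (nat_lit 0x20092) (nat_lit 0) (p (nat_lit 0x10012) (nat_lit 0) pn)))))))))))))))))))))))))) :=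
  Cl.node (nat_lit 0x44c2a) (nat_lit 12) (by decide +kernel) (ClAll.succ (ClAll.succ (ClAll.succ (ClAll.succ (ClAll.succ (ClAll.succ (ClAll.succ (ClAll.succ (ClAll.succ (ClAll.succ (ClAll.succ (ClAll.succ ClAll.zero n499) s1321) s1322) s1323) s1324) s1325) s1326) s1327) s1328) s1329) s1330) s1331)

def n550 : Cl (O (nat_lit 5)) (R (nat_lit 14353))
    (p (nat_lit 0x111) (nat_lit 1) (p (nat_lit 0x109) (nat_lit 0) (p (nat_lit 0xc9) (nat_lit 1) (p (nat_lit 0x119) (nat_lit 1) (p (nat_lit 0xc1) (nat_lit 0) (p (nat_lit 0x81) (nat_lit 1) (p (nat_lit 0x41) (nat_lit 1) (p (nat_lit 0x10a0b0a89089a) (nat_lit 0) (p (nat_lit 0x98a8a08881a) (nat_lit 0) (p (nat_lit 0x109088988079a) (nat_lit 0) (p (nat_lit 0x8880907871a) (nat_lit 0) (p (nat_lit 0x8000000000800080887068a) (nat_lit 0) (p (nat_lit 0x10888068602) (nat_lit 0) (p (nat_lit 0x807860582) (nat_lit 0) (p (nat_lit 0x10607058502) (nat_lit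 0) (p (nat_lit 0x586850482) (nat_lit 0) (p (nat_lit 0x16000c) (nat_lit 0) (p (nat_lit 0x68612) (nat_lit 0) (p (nat_lit 0x50592) (nat_lit 0) (p (nat_lit 0x40512) (nat_lit 0) (p (nat_lit 0x50312) (nat_lit 0) (p (nat_lit 0x38292) (nat_lit 0) (p (nat_lit 0x28212) (nat_lit 0) (p (nat_lit 0x38112) (nat_lit 0) (p (nat_lit 0x20092) (nat_lit 0) (p (nat_lit 0x10012) (nat_lit 0) pn)))))))))))))))))))))))))) :=
  Cl.node (nat_lit 0x3c4aa) (nat_lit 12) (by decide +kernel) (ClAll.succ (ClAll.succ (ClAll.succ (ClAll.succ (ClAll.succ (ClAll.succ (ClAll.succ (ClAll.succ (ClAll.succ (ClAll.succ (ClAll.succ (ClAll.succ ClAll.zero s1332) s1333) s1334) s1335) s1336) s1337) s1338) n500) s1361) s1362) n501) s1366)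

def n551 : Cl (O (nat_lit 5)) (R (nat_lit 14353))
    (p (nat_lit 0x3c4aa) (nat_lit 10) (p (nat_lit 0x109) (nat_lit 1) (p (nat_lit 0xc9) (nat_lit 1) (p (nat_lit 0x119) (nat_lit 1) (p (nat_lit 0xc1) (nat_lit 0) (p (nat_lit 0x81) (nat_lit 1) (p (nat_lit 0x41) (nat_lit 1) (p (nat_lit 0x10a0b0a89089a) (nat_lit 0) (p (nat_lit 0x98a8a08881a) (nat_lit 0) (p (nat_lit 0x109088988079a) (nat_lit 0) (p (nat_lit 0x8880907871a) (nat_lit 0) (p (nat_lit 0x8000000000800080887068a) (nat_lit 0) (p (nat_lit 0x10888068602) (nat_lit 0) (p (nat_lit 0x807860582) (nat_lit 0) (p (nat_lit 0x10607058502) (nat_lit 0) (p (nat_lit 0x586850482) (nat_lit 0) (p (nat_lit 0x16000c) (nat_lit 0) (p (nat_lit 0x68612) (nat_lit 0) (p (nat_lit 0x50592) (nat_lit 0) (p (nat_lit 0x40512) (nat_lit 0) (p (nat_lit 0x50312) (nat_lit 0) (p (nat_lit 0x38292) (nat_lit 0) (p (nat_lit 0x28212) (nat_lit 0) (p (nat_lit 0x38112)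 (nat_lit 0) (p (nat_lit 0x20092) (nat_lit 0) (p (nat_lit 0x10012) (nat_lit 0) pn)))))))))))))))))))))))))) :=
  Cl.node (nat_lit 0x380c2) (nat_lit 2) (by decide +kernel) (ClAll.succ (ClAll.succ ClAll.zero s1377) s1378)

def n552 : Cl (O (nat_lit 5)) (R (nat_lit 14353))
    (p (nat_lit 0x3c4aa) (nat_lit 7) (p (nat_lit 0x111) (nat_lit 1) (p (nat_lit 0x109) (nat_lit 0) (p (nat_lit 0x101) (nat_lit 0) (p (nat_lit 0xc1) (nat_lit 1) (p (nat_lit 0x81) (nat_lit 1) (p (nat_lit 0x41) (nat_lit 1) (p (nat_lit 0x10a0b0a89089a) (nat_lit 0) (p (nat_lit 0x98a8a08881a) (nat_lit 0) (p (nat_lit 0x109088988079a) (nat_lit 0) (p (nat_lit 0x8880907871a) (nat_lit 0) (p (nat_lit 0x8000000000800080887068a) (nat_lit 0) (p (nat_lit 0x10888068602) (nat_lit 0) (p (nat_lit 0x807860582) (nat_lit 0) (p (nat_lit 0x10607058502) (nat_lit 0) (p (nat_lit 0x586850482) (nat_lit 0) (p (nat_lit 0x16000c) (nat_lit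 0) (p (nat_lit 0x68612) (nat_lit 0) (p (nat_lit 0x50592) (nat_lit 0) (p (nat_lit 0x40512) (nat_lit 0) (p (nat_lit 0x50312) (nat_lit 0) (p (nat_lit 0x38292) (nat_lit 0) (p (nat_lit 0x28212) (nat_lit 0) (p (nat_lit 0x38112) (nat_lit 0) (p (nat_lit 0x20092) (nat_lit 0) (p (nat_lit 0x10012) (nat_lit 0) pn)))))))))))))))))))))))))) :=
  Cl.node (nat_lit 0x380c2) (nat_lit 2) (by decide +kernel) (ClAll.succ (ClAll.succ ClAll.zero s1389) s1390)

def n553 : Cl (O (nat_lit 5)) (R (nat_lit 14353))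
    (p (nat_lit 0x109) (nat_lit 1) (p (nat_lit 0x101) (nat_lit 0) (p (nat_lit 0x119) (nat_lit 0) (p (nat_lit 0xd1) (nat_lit 0) (p (nat_lit 0x89) (nat_lit 0) (p (nat_lit 0x41) (nat_lit 0) (p (nat_lit 0x10a0b0a89089a) (nat_lit 0) (p (nat_lit 0x98a8a08881a) (nat_lit 0) (p (nat_lit 0x109088988079a) (nat_lit 0) (p (nat_lit 0x8880907871a) (nat_lit 0) (p (nat_lit 0x8000000000800080887068a) (nat_lit 0) (p (nat_lit 0x10888068602) (nat_lit 0) (p (nat_lit 0x807860582) (nat_lit 0) (p (nat_lit 0x10607058502) (nat_lit 0) (p (nat_lit 0x586850482) (nat_lit 0) (p (nat_lit 0x16000c) (nat_lit 0) (p (nat_lit 0x68612) (nat_lit 0) (p (nat_lit 0x50592) (nat_lit 0) (p (nat_lit 0x40512) (nat_lit 0) (p (nat_lit 0x50312) (nat_lit 0) (p (nat_lit 0x38292) (nat_lit 0) (p (nat_lit 0x28212) (nat_lit 0) (p (nat_lit 0x38112) (nat_lit 0) (p (nat_lit 0x20092) (nat_lit 0) (p (nat_lit 0x10012) (nat_lit 0) pn)))))))))))))))))))))))))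 :=
  Cl.node (nat_lit 0xc9) (nat_lit 2) (by decide +kernel) (ClAll.succ (ClAll.succ ClAll.zero s1) n502)

def n554 : Cl (O (nat_lit 5)) (R (nat_lit 14353))
    (p (nat_lit 0x81) (nat_lit 0) (p (nat_lit 0x101) (nat_lit 1) (p (nat_lit 0x119) (nat_lit 0) (p (nat_lit 0xd1) (nat_lit 0) (p (nat_lit 0x89) (nat_lit 0) (p (nat_lit 0x41) (nat_lit 0) (p (nat_lit 0x10a0b0a89089a) (nat_lit 0) (p (nat_lit 0x98a8a08881a) (nat_lit 0) (p (nat_lit 0x109088988079a) (nat_lit 0) (p (nat_lit 0x8880907871a) (nat_lit 0) (p (nat_lit 0x8000000000800080887068a) (nat_lit 0) (p (nat_lit 0x10888068602) (nat_lit 0) (p (nat_lit 0x807860582) (nat_lit 0) (p (nat_lit 0x10607058502) (nat_lit 0) (p (nat_lit 0x586850482) (nat_lit 0) (p (nat_lit 0x16000c) (nat_lit 0) (p (nat_lit 0x68612) (nat_lit 0) (p (nat_lit 0x50592) (nat_lit 0) (p (nat_lit 0x40512) (nat_lit 0) (p (nat_lit 0x50312) (nat_lit 0) (p (nat_lit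 0x38292) (nat_lit 0) (p (nat_lit 0x28212) (nat_lit 0) (p (nat_lit 0x38112) (nat_lit 0) (p (nat_lit 0x20092) (nat_lit 0) (p (nat_lit 0x10012) (nat_lit 0) pn))))))))))))))))))))))))) :=
  Cl.node (nat_lit 0xc9) (nat_lit 2) (by decide +kernel) (ClAll.succ (ClAll.succ ClAll.zero n503) n504)

def n555 : Cl (O (nat_lit 5)) (R (nat_lit 14353))
    (p (nat_lit 0x81) (nat_lit 1) (p (nat_lit 0x101) (nat_lit 1) (p (nat_lit 0x119) (nat_lit 0) (p (nat_lit 0xd1) (nat_lit 0) (p (nat_lit 0x89) (nat_lit 0) (p (nat_lit 0x41) (nat_lit 0) (p (nat_lit 0x10a0b0a89089a) (nat_lit 0) (p (nat_lit 0x98a8a08881a) (nat_lit 0) (p (nat_lit 0x109088988079a) (nat_lit 0) (p (nat_lit 0x8880907871a) (nat_lit 0) (p (nat_lit 0x8000000000800080887068a) (nat_lit 0) (p (nat_lit 0x10888068602) (nat_lit 0) (p (nat_lit 0x807860582) (nat_lit 0) (p (nat_lit 0x10607058502) (nat_lit 0) (p (nat_lit 0x586850482) (nat_lit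 0) (p (nat_lit 0x16000c) (nat_lit 0) (p (nat_lit 0x68612) (nat_lit 0) (p (nat_lit 0x50592) (nat_lit 0) (p (nat_lit 0x40512) (nat_lit 0) (p (nat_lit 0x50312) (nat_lit 0) (p (nat_lit 0x38292) (nat_lit 0) (p (nat_lit 0x28212) (nat_lit 0) (p (nat_lit 0x38112) (nat_lit 0) (p (nat_lit 0x20092) (nat_lit 0) (p (nat_lit 0x10012) (nat_lit 0) pn))))))))))))))))))))))))) :=
  Cl.node (nat_lit 0xc1) (nat_lit 2) (by decide +kernel) (ClAll.succ (ClAll.succ ClAll.zero n505) s112)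

def n556 : Cl (O (nat_lit 5)) (R (nat_lit 14353))
    (p (nat_lit 0xc9) (nat_lit 1) (p (nat_lit 0xc1) (nat_lit 0) (p (nat_lit 0x119) (nat_lit 1) (p (nat_lit 0xd1) (nat_lit 0) (p (nat_lit 0x89) (nat_lit 0) (p (nat_lit 0x41) (nat_lit 0) (p (nat_lit 0x10a0b0a89089a) (nat_lit 0) (p (nat_lit 0x98a8a08881a) (nat_lit 0) (p (nat_lit 0x109088988079a) (nat_lit 0) (p (nat_lit 0x8880907871a) (nat_lit 0) (p (nat_lit 0x8000000000800080887068a) (nat_lit 0) (p (nat_lit 0x10888068602) (nat_lit 0) (p (nat_lit 0x807860582) (nat_lit 0) (p (nat_lit 0x10607058502) (nat_lit 0) (p (nat_lit 0x586850482) (nat_lit 0) (p (nat_lit 0x16000c) (nat_lit 0) (p (nat_lit 0x68612) (nat_lit 0) (p (nat_lit 0x50592) (nat_lit 0) (p (nat_lit 0x40512) (nat_lit 0) (p (nat_lit 0x50312) (nat_lit 0) (p (nat_lit 0x38292) (nat_lit 0) (p (nat_lit 0x28212) (nat_lit 0) (p (nat_lit 0x38112) (nat_lit 0) (p (nat_lit 0x20092)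 (nat_lit 0) (p (nat_lit 0x10012) (nat_lit 0) pn))))))))))))))))))))))))) :=
  Cl.node (nat_lit 0x109) (nat_lit 2) (by decide +kernel) (ClAll.succ (ClAll.succ ClAll.zero s114) n506)

def n557 : Cl (O (nat_lit 5)) (R (nat_lit 14353))
    (p (nat_lit 0x81) (nat_lit 0) (p (nat_lit 0xc1) (nat_lit 1) (p (nat_lit 0x119) (nat_lit 1) (p (nat_lit 0xd1) (nat_lit 0) (p (nat_lit 0x89) (nat_lit 0) (p (nat_lit 0x41) (nat_lit 0) (p (nat_lit 0x10a0b0a89089a) (nat_lit 0) (p (nat_lit 0x98a8a08881a) (nat_lit 0) (p (nat_lit 0x109088988079a) (nat_lit 0) (p (nat_lit 0x8880907871a) (nat_lit 0) (p (nat_lit 0x8000000000800080887068a) (nat_lit 0) (p (nat_lit 0x10888068602) (nat_lit 0) (p (nat_lit 0x807860582) (nat_lit 0) (p (nat_lit 0x10607058502) (nat_lit 0) (p (nat_lit 0x586850482) (nat_lit 0) (p (nat_lit 0x16000c) (nat_lit 0) (p (nat_lit 0x68612) (nat_lit 0) (p (nat_lit 0x50592) (nat_lit 0) (p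 (nat_lit 0x40512) (nat_lit 0) (p (nat_lit 0x50312) (nat_lit 0) (p (nat_lit 0x38292) (nat_lit 0) (p (nat_lit 0x28212) (nat_lit 0) (p (nat_lit 0x38112) (nat_lit 0) (p (nat_lit 0x20092) (nat_lit 0) (p (nat_lit 0x10012) (nat_lit 0) pn))))))))))))))))))))))))) :=
  Cl.node (nat_lit 0x109) (nat_lit 2) (by decide +kernel) (ClAll.succ (ClAll.succ ClAll.zero n507) n508)

def n558 : Cl (O (nat_lit 5)) (R (nat_lit 14353))
    (p (nat_lit 0x81) (nat_lit 1) (p (nat_lit 0xc1) (nat_lit 1) (p (nat_lit 0x119) (nat_lit 1) (p (nat_lit 0xd1) (nat_lit 0) (p (nat_lit 0x89) (nat_lit 0) (p (nat_lit 0x41) (nat_lit 0) (p (nat_lit 0x10a0b0a89089a) (nat_lit 0) (p (nat_lit 0x98a8a08881a) (nat_lit 0) (p (nat_lit 0x109088988079a) (nat_lit 0) (p (nat_lit 0x8880907871a) (nat_lit 0) (p (nat_lit 0x8000000000800080887068a) (nat_lit 0) (p (nat_lit 0x10888068602) (nat_lit 0) (p (nat_lit 0x807860582) (nat_lit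 0) (p (nat_lit 0x10607058502) (nat_lit 0) (p (nat_lit 0x586850482) (nat_lit 0) (p (nat_lit 0x16000c) (nat_lit 0) (p (nat_lit 0x68612) (nat_lit 0) (p (nat_lit 0x50592) (nat_lit 0) (p (nat_lit 0x40512) (nat_lit 0) (p (nat_lit 0x50312) (nat_lit 0) (p (nat_lit 0x38292) (nat_lit 0) (p (nat_lit 0x28212) (nat_lit 0) (p (nat_lit 0x38112) (nat_lit 0) (p (nat_lit 0x20092) (nat_lit 0) (p (nat_lit 0x10012) (nat_lit 0) pn))))))))))))))))))))))))) :=
  Cl.node (nat_lit 0x101) (nat_lit 2) (by decide +kernel) (ClAll.succ (ClAll.succ ClAll.zero n509) n510)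

def n559 : Cl (O (nat_lit 5)) (R (nat_lit 14353))
    (p (nat_lit 0x109) (nat_lit 1) (p (nat_lit 0x101) (nat_lit 0) (p (nat_lit 0x111) (nat_lit 0) (p (nat_lit 0xd1) (nat_lit 1) (p (nat_lit 0x89) (nat_lit 0) (p (nat_lit 0x41) (nat_lit 0) (p (nat_lit 0x10a0b0a89089a) (nat_lit 0) (p (nat_lit 0x98a8a08881a) (nat_lit 0) (p (nat_lit 0x109088988079a) (nat_lit 0) (p (nat_lit 0x8880907871a) (nat_lit 0) (p (nat_lit 0x8000000000800080887068a) (nat_lit 0) (p (nat_lit 0x10888068602) (nat_lit 0) (p (nat_lit 0x807860582) (nat_lit 0) (p (nat_lit 0x10607058502) (nat_lit 0) (p (nat_lit 0x586850482) (nat_lit 0) (p (nat_lit 0x16000c) (nat_lit 0) (p (nat_lit 0x68612) (nat_lit 0) (p (nat_lit 0x50592) (nat_lit 0) (p (nat_lit 0x40512) (nat_lit 0) (p (nat_lit 0x50312) (nat_lit 0) (p (nat_lit 0x38292) (nat_lit 0) (p (nat_lit 0x28212) (nat_lit 0) (p (nat_lit 0x38112) (nat_lit 0) (p (nat_lit 0x20092)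 (nat_lit 0) (p (nat_lit 0x10012) (nat_lit 0) pn))))))))))))))))))))))))) :=
  Cl.node (nat_lit 0xc1) (nat_lit 2) (by decide +kernel) (ClAll.succ (ClAll.succ ClAll.zero s237) n511)

def n560 : Cl (O (nat_lit 5)) (R (nat_lit 14353))
    (p (nat_lit 0x81) (nat_lit 0) (p (nat_lit 0x101) (nat_lit 1) (p (nat_lit 0x111) (nat_lit 0) (p (nat_lit 0xd1) (nat_lit 1) (p (nat_lit 0x89) (nat_lit 0) (p (nat_lit 0x41) (nat_lit 0) (p (nat_lit 0x10a0b0a89089a) (nat_lit 0) (p (nat_lit 0x98a8a08881a) (nat_lit 0) (p (nat_lit 0x109088988079a) (nat_lit 0) (p (nat_lit 0x8880907871a) (nat_lit 0) (p (nat_lit 0x8000000000800080887068a) (nat_lit 0) (p (nat_lit 0x10888068602) (nat_lit 0) (p (nat_lit 0x807860582) (nat_lit 0) (p (nat_lit 0x10607058502) (nat_lit 0) (p (nat_lit 0x586850482) (nat_lit 0) (p (nat_lit 0x16000c) (nat_lit 0) (p (nat_lit 0x68612) (nat_lit 0) (p (nat_lit 0x50592) (nat_lit 0) (p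 (nat_lit 0x40512) (nat_lit 0) (p (nat_lit 0x50312) (nat_lit 0) (p (nat_lit 0x38292) (nat_lit 0) (p (nat_lit 0x28212) (nat_lit 0) (p (nat_lit 0x38112) (nat_lit 0) (p (nat_lit 0x20092) (nat_lit 0) (p (nat_lit 0x10012) (nat_lit 0) pn))))))))))))))))))))))))) :=
  Cl.node (nat_lit 0x119) (nat_lit 2) (by decide +kernel) (ClAll.succ (ClAll.succ ClAll.zero n512) n513)

def n561 : Cl (O (nat_lit 5)) (R (nat_lit 14353))
    (p (nat_lit 0x81) (nat_lit 1) (p (nat_lit 0x101) (nat_lit 1) (p (nat_lit 0x111) (nat_lit 0) (p (nat_lit 0xd1) (nat_lit 1) (p (nat_lit 0x89) (nat_lit 0) (p (nat_lit 0x41) (nat_lit 0) (p (nat_lit 0x10a0b0a89089a) (nat_lit 0) (p (nat_lit 0x98a8a08881a) (nat_lit 0) (p (nat_lit 0x109088988079a) (nat_lit 0) (p (nat_lit 0x8880907871a) (nat_lit 0) (p (nat_lit 0x8000000000800080887068a) (nat_lit 0) (p (nat_lit 0x10888068602) (nat_lit 0) (p (nat_lit 0x807860582) (nat_lit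 0) (p (nat_lit 0x10607058502) (nat_lit 0) (p (nat_lit 0x586850482) (nat_lit 0) (p (nat_lit 0x16000c) (nat_lit 0) (p (nat_lit 0x68612) (nat_lit 0) (p (nat_lit 0x50592) (nat_lit 0) (p (nat_lit 0x40512) (nat_lit 0) (p (nat_lit 0x50312) (nat_lit 0) (p (nat_lit 0x38292) (nat_lit 0) (p (nat_lit 0x28212) (nat_lit 0) (p (nat_lit 0x38112) (nat_lit 0) (p (nat_lit 0x20092) (nat_lit 0) (p (nat_lit 0x10012) (nat_lit 0) pn))))))))))))))))))))))))) :=
  Cl.node (nat_lit 0xc1) (nat_lit 2) (by decide +kernel) (ClAll.succ (ClAll.succ ClAll.zero n514) s323)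

def n562 : Cl (O (nat_lit 5)) (R (nat_lit 14353))
    (p (nat_lit 0xc1) (nat_lit 1) (p (nat_lit 0x81) (nat_lit 1) (p (nat_lit 0x111) (nat_lit 1) (p (nat_lit 0xd1) (nat_lit 1) (p (nat_lit 0x89) (nat_lit 0) (p (nat_lit 0x41) (nat_lit 0) (p (nat_lit 0x10a0b0a89089a) (nat_lit 0) (p (nat_lit 0x98a8a08881a) (nat_lit 0) (p (nat_lit 0x109088988079a) (nat_lit 0) (p (nat_lit 0x8880907871a) (nat_lit 0) (p (nat_lit 0x8000000000800080887068a) (nat_lit 0) (p (nat_lit 0x10888068602) (nat_lit 0) (p (nat_lit 0x807860582) (nat_lit 0) (p (nat_lit 0x10607058502) (nat_lit 0) (p (nat_lit 0x586850482) (nat_lit 0) (p (nat_lit 0x16000c) (nat_lit 0) (p (nat_lit 0x68612) (nat_lit 0) (p (nat_lit 0x50592) (nat_lit 0) (p (nat_lit 0x40512) (nat_lit 0) (p (nat_lit 0x50312) (nat_lit 0) (p (nat_lit 0x38292) (nat_lit 0) (p (nat_lit 0x28212) (nat_lit 0) (p (nat_lit 0x38112) (nat_lit 0) (p (nat_lit 0x20092)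 (nat_lit 0) (p (nat_lit 0x10012) (nat_lit 0) pn))))))))))))))))))))))))) :=
  Cl.node (nat_lit 0x101) (nat_lit 2) (by decide +kernel) (ClAll.succ (ClAll.succ ClAll.zero n515) n516)

def n563 : Cl (O (nat_lit 5)) (R (nat_lit 14353))
    (p (nat_lit 0x109) (nat_lit 0) (p (nat_lit 0x101) (nat_lit 0) (p (nat_lit 0x119) (nat_lit 0) (p (nat_lit 0xc9) (nat_lit 0) (p (nat_lit 0x89) (nat_lit 1) (p (nat_lit 0x41) (nat_lit 0) (p (nat_lit 0x10a0b0a89089a) (nat_lit 0) (p (nat_lit 0x98a8a08881a) (nat_lit 0) (p (nat_lit 0x109088988079a) (nat_lit 0) (p (nat_lit 0x8880907871a) (nat_lit 0) (p (nat_lit 0x8000000000800080887068a) (nat_lit 0) (p (nat_lit 0x10888068602) (nat_lit 0) (p (nat_lit 0x807860582) (nat_lit 0) (p (nat_lit 0x10607058502) (nat_lit 0) (p (nat_lit 0x586850482) (nat_lit 0) (p (nat_lit 0x16000c) (nat_lit 0) (p (nat_lit 0x68612) (nat_lit 0) (p (nat_lit 0x50592) (nat_lit 0) (p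 (nat_lit 0x40512) (nat_lit 0) (p (nat_lit 0x50312) (nat_lit 0) (p (nat_lit 0x38292) (nat_lit 0) (p (nat_lit 0x28212) (nat_lit 0) (p (nat_lit 0x38112) (nat_lit 0) (p (nat_lit 0x20092) (nat_lit 0) (p (nat_lit 0x10012) (nat_lit 0) pn))))))))))))))))))))))))) :=
  Cl.node (nat_lit 0x111) (nat_lit 2) (by decide +kernel) (ClAll.succ (ClAll.succ ClAll.zero s352) n517)

def n564 : Cl (O (nat_lit 5)) (R (nat_lit 14353))
    (p (nat_lit 0x109) (nat_lit 1) (p (nat_lit 0x101) (nat_lit 0) (p (nat_lit 0x119) (nat_lit 0) (p (nat_lit 0xc9) (nat_lit 0) (p (nat_lit 0x89) (nat_lit 1) (p (nat_lit 0x41) (nat_lit 0) (p (nat_lit 0x10a0b0a89089a) (nat_lit 0) (p (nat_lit 0x98a8a08881a) (nat_lit 0) (p (nat_lit 0x109088988079a) (nat_lit 0) (p (nat_lit 0x8880907871a) (nat_lit 0) (p (nat_lit 0x8000000000800080887068a) (nat_lit 0) (p (nat_lit 0x10888068602) (nat_lit 0) (p (nat_lit 0x807860582) (nat_lit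 0) (p (nat_lit 0x10607058502) (nat_lit 0) (p (nat_lit 0x586850482) (nat_lit 0) (p (nat_lit 0x16000c) (nat_lit 0) (p (nat_lit 0x68612) (nat_lit 0) (p (nat_lit 0x50592) (nat_lit 0) (p (nat_lit 0x40512) (nat_lit 0) (p (nat_lit 0x50312) (nat_lit 0) (p (nat_lit 0x38292) (nat_lit 0) (p (nat_lit 0x28212) (nat_lit 0) (p (nat_lit 0x38112) (nat_lit 0) (p (nat_lit 0x20092) (nat_lit 0) (p (nat_lit 0x10012) (nat_lit 0) pn))))))))))))))))))))))))) :=
  Cl.node (nat_lit 0xd1) (nat_lit 2) (by decide +kernel) (ClAll.succ (ClAll.succ ClAll.zero n518) n519)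

def n565 : Cl (O (nat_lit 5)) (R (nat_lit 14353))
    (p (nat_lit 0xc1) (nat_lit 0) (p (nat_lit 0x101) (nat_lit 1) (p (nat_lit 0x119) (nat_lit 0) (p (nat_lit 0xc9) (nat_lit 0) (p (nat_lit 0x89) (nat_lit 1) (p (nat_lit 0x41) (nat_lit 0) (p (nat_lit 0x10a0b0a89089a) (nat_lit 0) (p (nat_lit 0x98a8a08881a) (nat_lit 0) (p (nat_lit 0x109088988079a) (nat_lit 0) (p (nat_lit 0x8880907871a) (nat_lit 0) (p (nat_lit 0x8000000000800080887068a) (nat_lit 0) (p (nat_lit 0x10888068602) (nat_lit 0) (p (nat_lit 0x807860582) (nat_lit 0) (p (nat_lit 0x10607058502) (nat_lit 0) (p (nat_lit 0x586850482) (nat_lit 0) (p (nat_lit 0x16000c) (nat_lit 0) (p (nat_lit 0x68612) (nat_lit 0) (p (nat_lit 0x50592) (nat_lit 0) (p (nat_lit 0x40512) (nat_lit 0) (p (nat_lit 0x50312) (nat_lit 0) (p (nat_lit 0x38292) (nat_lit 0) (p (nat_lit 0x28212) (nat_lit 0) (p (nat_lit 0x38112) (nat_lit 0) (p (nat_lit 0x20092)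 (nat_lit 0) (p (nat_lit 0x10012) (nat_lit 0) pn))))))))))))))))))))))))) :=
  Cl.node (nat_lit 0xd1) (nat_lit 2) (by decide +kernel) (ClAll.succ (ClAll.succ ClAll.zero n520) n521)

def n566 : Cl (O (nat_lit 5)) (R (nat_lit 14353))
    (p (nat_lit 0xd1) (nat_lit 1) (p (nat_lit 0xc1) (nat_lit 0) (p (nat_lit 0x119) (nat_lit 1) (p (nat_lit 0xc9) (nat_lit 0) (p (nat_lit 0x89) (nat_lit 1) (p (nat_lit 0x41) (nat_lit 0) (p (nat_lit 0x10a0b0a89089a) (nat_lit 0) (p (nat_lit 0x98a8a08881a) (nat_lit 0) (p (nat_lit 0x109088988079a) (nat_lit 0) (p (nat_lit 0x8880907871a) (nat_lit 0) (p (nat_lit 0x8000000000800080887068a) (nat_lit 0) (p (nat_lit 0x10888068602) (nat_lit 0) (p (nat_lit 0x807860582) (nat_lit 0) (p (nat_lit 0x10607058502) (nat_lit 0) (p (nat_lit 0x586850482) (nat_lit 0) (p (nat_lit 0x16000c) (nat_lit 0) (p (nat_lit 0x68612) (nat_lit 0) (p (nat_lit 0x50592) (nat_lit 0) (p (nat_lit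 0x40512) (nat_lit 0) (p (nat_lit 0x50312) (nat_lit 0) (p (nat_lit 0x38292) (nat_lit 0) (p (nat_lit 0x28212) (nat_lit 0) (p (nat_lit 0x38112) (nat_lit 0) (p (nat_lit 0x20092) (nat_lit 0) (p (nat_lit 0x10012) (nat_lit 0) pn))))))))))))))))))))))))) :=
  Cl.node (nat_lit 0x111) (nat_lit 2) (by decide +kernel) (ClAll.succ (ClAll.succ ClAll.zero s483) n522)

def n567 : Cl (O (nat_lit 5)) (R (nat_lit 14353))
    (p (nat_lit 0x101) (nat_lit 0) (p (nat_lit 0xc1) (nat_lit 1) (p (nat_lit 0x119) (nat_lit 1) (p (nat_lit 0xc9) (nat_lit 0) (p (nat_lit 0x89) (nat_lit 1) (p (nat_lit 0x41) (nat_lit 0) (p (nat_lit 0x10a0b0a89089a) (nat_lit 0) (p (nat_lit 0x98a8a08881a) (nat_lit 0) (p (nat_lit 0x109088988079a) (nat_lit 0) (p (nat_lit 0x8880907871a) (nat_lit 0) (p (nat_lit 0x8000000000800080887068a) (nat_lit 0) (p (nat_lit 0x10888068602) (nat_lit 0) (p (nat_lit 0x807860582) (nat_lit 0) (p (nat_lit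 0x10607058502) (nat_lit 0) (p (nat_lit 0x586850482) (nat_lit 0) (p (nat_lit 0x16000c) (nat_lit 0) (p (nat_lit 0x68612) (nat_lit 0) (p (nat_lit 0x50592) (nat_lit 0) (p (nat_lit 0x40512) (nat_lit 0) (p (nat_lit 0x50312) (nat_lit 0) (p (nat_lit 0x38292) (nat_lit 0) (p (nat_lit 0x28212) (nat_lit 0) (p (nat_lit 0x38112) (nat_lit 0) (p (nat_lit 0x20092) (nat_lit 0) (p (nat_lit 0x10012) (nat_lit 0) pn))))))))))))))))))))))))) :=
  Cl.node (nat_lit 0x111) (nat_lit 2) (by decide +kernel) (ClAll.succ (ClAll.succ ClAll.zero n523) n524)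

def n568 : Cl (O (nat_lit 5)) (R (nat_lit 14353))
    (p (nat_lit 0x109) (nat_lit 1) (p (nat_lit 0x101) (nat_lit 0) (p (nat_lit 0x119) (nat_lit 0) (p (nat_lit 0xd1) (nat_lit 0) (p (nat_lit 0x81) (nat_lit 0) (p (nat_lit 0x41) (nat_lit 1) (p (nat_lit 0x10a0b0a89089a) (nat_lit 0) (p (nat_lit 0x98a8a08881a) (nat_lit 0) (p (nat_lit 0x109088988079a) (nat_lit 0) (p (nat_lit 0x8880907871a) (nat_lit 0) (p (nat_lit 0x8000000000800080887068a) (nat_lit 0) (p (nat_lit 0x10888068602) (nat_lit 0) (p (nat_lit 0x807860582) (nat_lit 0) (p (nat_lit 0x10607058502) (nat_lit 0) (p (nat_lit 0x586850482) (nat_lit 0) (p (nat_lit 0x16000c) (nat_lit 0) (p (nat_lit 0x68612) (nat_lit 0) (p (nat_lit 0x50592) (nat_lit 0) (p (nat_lit 0x40512) (nat_lit 0) (p (nat_lit 0x50312) (nat_lit 0) (p (nat_lit 0x38292) (nat_lit 0) (p (nat_lit 0x28212) (nat_lit 0) (p (nat_lit 0x38112) (nat_lit 0) (p (nat_lit 0x20092)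 (nat_lit 0) (p (nat_lit 0x10012) (nat_lit 0) pn))))))))))))))))))))))))) :=
  Cl.node (nat_lit 0x89) (nat_lit 2) (by decide +kernel) (ClAll.succ (ClAll.succ ClAll.zero n525) n526)

def n569 : Cl (O (nat_lit 5)) (R (nat_lit 14353))
    (p (nat_lit 0xc1) (nat_lit 0) (p (nat_lit 0x101) (nat_lit 1) (p (nat_lit 0x119) (nat_lit 0) (p (nat_lit 0xd1) (nat_lit 0) (p (nat_lit 0x81) (nat_lit 0) (p (nat_lit 0x41) (nat_lit 1) (p (nat_lit 0x10a0b0a89089a) (nat_lit 0) (p (nat_lit 0x98a8a08881a) (nat_lit 0) (p (nat_lit 0x109088988079a) (nat_lit 0) (p (nat_lit 0x8880907871a) (nat_lit 0) (p (nat_lit 0x8000000000800080887068a) (nat_lit 0) (p (nat_lit 0x10888068602) (nat_lit 0) (p (nat_lit 0x807860582) (nat_lit 0) (p (nat_lit 0x10607058502) (nat_lit 0) (p (nat_lit 0x586850482) (nat_lit 0) (p (nat_lit 0x16000c) (nat_lit 0) (p (nat_lit 0x68612) (nat_lit 0) (p (nat_lit 0x50592) (nat_lit 0) (p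 (nat_lit 0x40512) (nat_lit 0) (p (nat_lit 0x50312) (nat_lit 0) (p (nat_lit 0x38292) (nat_lit 0) (p (nat_lit 0x28212) (nat_lit 0) (p (nat_lit 0x38112) (nat_lit 0) (p (nat_lit 0x20092) (nat_lit 0) (p (nat_lit 0x10012) (nat_lit 0) pn))))))))))))))))))))))))) :=
  Cl.node (nat_lit 0x89) (nat_lit 2) (by decide +kernel) (ClAll.succ (ClAll.succ ClAll.zero n527) n528)

def n570 : Cl (O (nat_lit 5)) (R (nat_lit 14353))
    (p (nat_lit 0xc1) (nat_lit 1) (p (nat_lit 0x101) (nat_lit 1) (p (nat_lit 0x119) (nat_lit 0) (p (nat_lit 0xd1) (nat_lit 0) (p (nat_lit 0x81) (nat_lit 0) (p (nat_lit 0x41) (nat_lit 1) (p (nat_lit 0x10a0b0a89089a) (nat_lit 0) (p (nat_lit 0x98a8a08881a) (nat_lit 0) (p (nat_lit 0x109088988079a) (nat_lit 0) (p (nat_lit 0x8880907871a) (nat_lit 0) (p (nat_lit 0x8000000000800080887068a) (nat_lit 0) (p (nat_lit 0x10888068602) (nat_lit 0) (p (nat_lit 0x807860582) (nat_lit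 0) (p (nat_lit 0x10607058502) (nat_lit 0) (p (nat_lit 0x586850482) (nat_lit 0) (p (nat_lit 0x16000c) (nat_lit 0) (p (nat_lit 0x68612) (nat_lit 0) (p (nat_lit 0x50592) (nat_lit 0) (p (nat_lit 0x40512) (nat_lit 0) (p (nat_lit 0x50312) (nat_lit 0) (p (nat_lit 0x38292) (nat_lit 0) (p (nat_lit 0x28212) (nat_lit 0) (p (nat_lit 0x38112) (nat_lit 0) (p (nat_lit 0x20092) (nat_lit 0) (p (nat_lit 0x10012) (nat_lit 0) pn))))))))))))))))))))))))) :=
  Cl.node (nat_lit 0x89) (nat_lit 2) (by decide +kernel) (ClAll.succ (ClAll.succ ClAll.zero n529) n530)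

def n571 : Cl (O (nat_lit 5)) (R (nat_lit 14353))
    (p (nat_lit 0xc9) (nat_lit 1) (p (nat_lit 0xc1) (nat_lit 0) (p (nat_lit 0x119) (nat_lit 1) (p (nat_lit 0xd1) (nat_lit 0) (p (nat_lit 0x81) (nat_lit 0) (p (nat_lit 0x41) (nat_lit 1) (p (nat_lit 0x10a0b0a89089a) (nat_lit 0) (p (nat_lit 0x98a8a08881a) (nat_lit 0) (p (nat_lit 0x109088988079a) (nat_lit 0) (p (nat_lit 0x8880907871a) (nat_lit 0) (p (nat_lit 0x8000000000800080887068a) (nat_lit 0) (p (nat_lit 0x10888068602) (nat_lit 0) (p (nat_lit 0x807860582) (nat_lit 0) (p (nat_lit 0x10607058502) (nat_lit 0) (p (nat_lit 0x586850482) (nat_lit 0) (p (nat_lit 0x16000c) (nat_lit 0) (p (nat_lit 0x68612) (nat_lit 0) (p (nat_lit 0x50592) (nat_lit 0) (p (nat_lit 0x40512) (nat_lit 0) (p (nat_lit 0x50312) (nat_lit 0) (p (nat_lit 0x38292) (nat_lit 0) (p (nat_lit 0x28212) (nat_lit 0) (p (nat_lit 0x38112) (nat_lit 0) (p (nat_lit 0x20092)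 (nat_lit 0) (p (nat_lit 0x10012) (nat_lit 0) pn))))))))))))))))))))))))) :=
  Cl.node (nat_lit 0x89) (nat_lit 2) (by decide +kernel) (ClAll.succ (ClAll.succ ClAll.zero n531) n532)

def n572 : Cl (O (nat_lit 5)) (R (nat_lit 14353))
    (p (nat_lit 0x101) (nat_lit 0) (p (nat_lit 0xc1) (nat_lit 1) (p (nat_lit 0x119) (nat_lit 1) (p (nat_lit 0xd1) (nat_lit 0) (p (nat_lit 0x81) (nat_lit 0) (p (nat_lit 0x41) (nat_lit 1) (p (nat_lit 0x10a0b0a89089a) (nat_lit 0) (p (nat_lit 0x98a8a08881a) (nat_lit 0) (p (nat_lit 0x109088988079a) (nat_lit 0) (p (nat_lit 0x8880907871a) (nat_lit 0) (p (nat_lit 0x8000000000800080887068a) (nat_lit 0) (p (nat_lit 0x10888068602) (nat_lit 0) (p (nat_lit 0x807860582) (nat_lit 0) (p (nat_lit 0x10607058502) (nat_lit 0) (p (nat_lit 0x586850482) (nat_lit 0) (p (nat_lit 0x16000c) (nat_lit 0) (p (nat_lit 0x68612) (nat_lit 0) (p (nat_lit 0x50592) (nat_lit 0) (p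 (nat_lit 0x40512) (nat_lit 0) (p (nat_lit 0x50312) (nat_lit 0) (p (nat_lit 0x38292) (nat_lit 0) (p (nat_lit 0x28212) (nat_lit 0) (p (nat_lit 0x38112) (nat_lit 0) (p (nat_lit 0x20092) (nat_lit 0) (p (nat_lit 0x10012) (nat_lit 0) pn))))))))))))))))))))))))) :=
  Cl.node (nat_lit 0x89) (nat_lit 2) (by decide +kernel) (ClAll.succ (ClAll.succ ClAll.zero s832) n533)

def n573 : Cl (O (nat_lit 5)) (R (nat_lit 14353))
    (p (nat_lit 0x101) (nat_lit 1) (p (nat_lit 0xc1) (nat_lit 1) (p (nat_lit 0x119) (nat_lit 1) (p (nat_lit 0xd1) (nat_lit 0) (p (nat_lit 0x81) (nat_lit 0) (p (nat_lit 0x41) (nat_lit 1) (p (nat_lit 0x10a0b0a89089a) (nat_lit 0) (p (nat_lit 0x98a8a08881a) (nat_lit 0) (p (nat_lit 0x109088988079a) (nat_lit 0) (p (nat_lit 0x8880907871a) (nat_lit 0) (p (nat_lit 0x8000000000800080887068a) (nat_lit 0) (p (nat_lit 0x10888068602) (nat_lit 0) (p (nat_lit 0x807860582) (nat_lit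 0) (p (nat_lit 0x10607058502) (nat_lit 0) (p (nat_lit 0x586850482) (nat_lit 0) (p (nat_lit 0x16000c) (nat_lit 0) (p (nat_lit 0x68612) (nat_lit 0) (p (nat_lit 0x50592) (nat_lit 0) (p (nat_lit 0x40512) (nat_lit 0) (p (nat_lit 0x50312) (nat_lit 0) (p (nat_lit 0x38292) (nat_lit 0) (p (nat_lit 0x28212) (nat_lit 0) (p (nat_lit 0x38112) (nat_lit 0) (p (nat_lit 0x20092) (nat_lit 0) (p (nat_lit 0x10012) (nat_lit 0) pn))))))))))))))))))))))))) :=
  Cl.node (nat_lit 0x89) (nat_lit 2) (by decide +kernel) (ClAll.succ (ClAll.succ ClAll.zero n534) n535)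

def n574 : Cl (O (nat_lit 5)) (R (nat_lit 14353))
    (p (nat_lit 0x109) (nat_lit 1) (p (nat_lit 0x101) (nat_lit 0) (p (nat_lit 0x111) (nat_lit 0) (p (nat_lit 0xd1) (nat_lit 1) (p (nat_lit 0x81) (nat_lit 0) (p (nat_lit 0x41) (nat_lit 1) (p (nat_lit 0x10a0b0a89089a) (nat_lit 0) (p (nat_lit 0x98a8a08881a) (nat_lit 0) (p (nat_lit 0x109088988079a) (nat_lit 0) (p (nat_lit 0x8880907871a) (nat_lit 0) (p (nat_lit 0x8000000000800080887068a) (nat_lit 0) (p (nat_lit 0x10888068602) (nat_lit 0) (p (nat_lit 0x807860582) (nat_lit 0) (p (nat_lit 0x10607058502) (nat_lit 0) (p (nat_lit 0x586850482) (nat_lit 0) (p (nat_lit 0x16000c) (nat_lit 0) (p (nat_lit 0x68612) (nat_lit 0) (p (nat_lit 0x50592) (nat_lit 0) (p (nat_lit 0x40512) (nat_lit 0) (p (nat_lit 0x50312) (nat_lit 0) (p (nat_lit 0x38292) (nat_lit 0) (p (nat_lit 0x28212) (nat_lit 0) (p (nat_lit 0x38112) (nat_lit 0) (p (nat_lit 0x20092)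 (nat_lit 0) (p (nat_lit 0x10012) (nat_lit 0) pn))))))))))))))))))))))))) :=
  Cl.node (nat_lit 0x89) (nat_lit 2) (by decide +kernel) (ClAll.succ (ClAll.succ ClAll.zero n536) n537)

def n575 : Cl (O (nat_lit 5)) (R (nat_lit 14353))
    (p (nat_lit 0x89) (nat_lit 0) (p (nat_lit 0x101) (nat_lit 1) (p (nat_lit 0x111) (nat_lit 0) (p (nat_lit 0xd1) (nat_lit 1) (p (nat_lit 0x81) (nat_lit 0) (p (nat_lit 0x41) (nat_lit 1) (p (nat_lit 0x10a0b0a89089a) (nat_lit 0) (p (nat_lit 0x98a8a08881a) (nat_lit 0) (p (nat_lit 0x109088988079a) (nat_lit 0) (p (nat_lit 0x8880907871a) (nat_lit 0) (p (nat_lit 0x8000000000800080887068a) (nat_lit 0) (p (nat_lit 0x10888068602) (nat_lit 0) (p (nat_lit 0x807860582) (nat_lit 0) (p (nat_lit 0x10607058502) (nat_lit 0) (p (nat_lit 0x586850482) (nat_lit 0) (p (nat_lit 0x16000c) (nat_lit 0) (p (nat_lit 0x68612) (nat_lit 0) (p (nat_lit 0x50592) (nat_lit 0) (p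 (nat_lit 0x40512) (nat_lit 0) (p (nat_lit 0x50312) (nat_lit 0) (p (nat_lit 0x38292) (nat_lit 0) (p (nat_lit 0x28212) (nat_lit 0) (p (nat_lit 0x38112) (nat_lit 0) (p (nat_lit 0x20092) (nat_lit 0) (p (nat_lit 0x10012) (nat_lit 0) pn))))))))))))))))))))))))) :=
  Cl.node (nat_lit 0x3cc2a) (nat_lit 12) (by decide +kernel) (ClAll.succ (ClAll.succ (ClAll.succ (ClAll.succ (ClAll.succ (ClAll.succ (ClAll.succ (ClAll.succ (ClAll.succ (ClAll.succ (ClAll.succ (ClAll.succ ClAll.zero n538) n539) s1037) s1038) s1039) s1040) s1041) s1042) s1043) s1044) s1045) s1046)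

def n576 : Cl (O (nat_lit 5)) (R (nat_lit 14353))
    (p (nat_lit 0x89) (nat_lit 1) (p (nat_lit 0x101) (nat_lit 1) (p (nat_lit 0x111) (nat_lit 0) (p (nat_lit 0xd1) (nat_lit 1) (p (nat_lit 0x81) (nat_lit 0) (p (nat_lit 0x41) (nat_lit 1) (p (nat_lit 0x10a0b0a89089a) (nat_lit 0) (p (nat_lit 0x98a8a08881a) (nat_lit 0) (p (nat_lit 0x109088988079a) (nat_lit 0) (p (nat_lit 0x8880907871a) (nat_lit 0) (p (nat_lit 0x8000000000800080887068a) (nat_lit 0) (p (nat_lit 0x10888068602) (nat_lit 0) (p (nat_lit 0x807860582) (nat_lit 0) (p (nat_lit 0x10607058502) (nat_lit 0) (p (nat_lit 0x586850482) (nat_lit 0) (p (nat_lit 0x16000c) (nat_lit 0) (p (nat_lit 0x68612) (nat_lit 0) (p (nat_lit 0x50592) (nat_lit 0) (p (nat_lit 0x40512) (nat_lit 0) (p (nat_lit 0x50312) (nat_lit 0) (p (nat_lit 0x38292) (nat_lit 0) (p (nat_lit 0x28212) (nat_lit 0) (p (nat_lit 0x38112) (nat_lit 0) (p (nat_lit 0x20092)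 (nat_lit 0) (p (nat_lit 0x10012) (nat_lit 0) pn))))))))))))))))))))))))) :=
  Cl.node (nat_lit 0xc9) (nat_lit 2) (by decide +kernel) (ClAll.succ (ClAll.succ ClAll.zero n540) n541)

def n577 : Cl (O (nat_lit 5)) (R (nat_lit 14353))
    (p (nat_lit 0xc9) (nat_lit 1) (p (nat_lit 0x89) (nat_lit 1) (p (nat_lit 0x111) (nat_lit 1) (p (nat_lit 0xd1) (nat_lit 1) (p (nat_lit 0x81) (nat_lit 0) (p (nat_lit 0x41) (nat_lit 1) (p (nat_lit 0x10a0b0a89089a) (nat_lit 0) (p (nat_lit 0x98a8a08881a) (nat_lit 0) (p (nat_lit 0x109088988079a) (nat_lit 0) (p (nat_lit 0x8880907871a) (nat_lit 0) (p (nat_lit 0x8000000000800080887068a) (nat_lit 0) (p (nat_lit 0x10888068602) (nat_lit 0) (p (nat_lit 0x807860582) (nat_lit 0) (p (nat_lit 0x10607058502) (nat_lit 0) (p (nat_lit 0x586850482) (nat_lit 0) (p (nat_lit 0x16000c) (nat_lit 0) (p (nat_lit 0x68612) (nat_lit 0) (p (nat_lit 0x50592) (nat_lit 0) (p (nat_lit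 0x40512) (nat_lit 0) (p (nat_lit 0x50312) (nat_lit 0) (p (nat_lit 0x38292) (nat_lit 0) (p (nat_lit 0x28212) (nat_lit 0) (p (nat_lit 0x38112) (nat_lit 0) (p (nat_lit 0x20092) (nat_lit 0) (p (nat_lit 0x10012) (nat_lit 0) pn))))))))))))))))))))))))) :=
  Cl.node (nat_lit 0x109) (nat_lit 2) (by decide +kernel) (ClAll.succ (ClAll.succ ClAll.zero n542) n543)

def n578 : Cl (O (nat_lit 5)) (R (nat_lit 14353))
    (p (nat_lit 0x109) (nat_lit 0) (p (nat_lit 0x101) (nat_lit 0) (p (nat_lit 0x119) (nat_lit 0) (p (nat_lit 0xc1) (nat_lit 0) (p (nat_lit 0x81) (nat_lit 1) (p (nat_lit 0x41) (nat_lit 1) (p (nat_lit 0x10a0b0a89089a) (nat_lit 0) (p (nat_lit 0x98a8a08881a) (nat_lit 0) (p (nat_lit 0x109088988079a) (nat_lit 0) (p (nat_lit 0x8880907871a) (nat_lit 0) (p (nat_lit 0x8000000000800080887068a) (nat_lit 0) (p (nat_lit 0x10888068602) (nat_lit 0) (p (nat_lit 0x807860582) (nat_lit 0) (p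 (nat_lit 0x10607058502) (nat_lit 0) (p (nat_lit 0x586850482) (nat_lit 0) (p (nat_lit 0x16000c) (nat_lit 0) (p (nat_lit 0x68612) (nat_lit 0) (p (nat_lit 0x50592) (nat_lit 0) (p (nat_lit 0x40512) (nat_lit 0) (p (nat_lit 0x50312) (nat_lit 0) (p (nat_lit 0x38292) (nat_lit 0) (p (nat_lit 0x28212) (nat_lit 0) (p (nat_lit 0x38112) (nat_lit 0) (p (nat_lit 0x20092) (nat_lit 0) (p (nat_lit 0x10012) (nat_lit 0) pn))))))))))))))))))))))))) :=
  Cl.node (nat_lit 0x111) (nat_lit 2) (by decide +kernel) (ClAll.succ (ClAll.succ ClAll.zero s1121) n544)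

def n579 : Cl (O (nat_lit 5)) (R (nat_lit 14353))
    (p (nat_lit 0x109) (nat_lit 1) (p (nat_lit 0x101) (nat_lit 0) (p (nat_lit 0x119) (nat_lit 0) (p (nat_lit 0xc1) (nat_lit 0) (p (nat_lit 0x81) (nat_lit 1) (p (nat_lit 0x41) (nat_lit 1) (p (nat_lit 0x10a0b0a89089a) (nat_lit 0) (p (nat_lit 0x98a8a08881a) (nat_lit 0) (p (nat_lit 0x109088988079a) (nat_lit 0) (p (nat_lit 0x8880907871a) (nat_lit 0) (p (nat_lit 0x8000000000800080887068a) (nat_lit 0) (p (nat_lit 0x10888068602) (nat_lit 0) (p (nat_lit 0x807860582) (nat_lit 0) (p (nat_lit 0x10607058502) (nat_lit 0) (p (nat_lit 0x586850482) (nat_lit 0) (p (nat_lit 0x16000c) (nat_lit 0) (p (nat_lit 0x68612) (nat_lit 0) (p (nat_lit 0x50592) (nat_lit 0) (p (nat_lit 0x40512) (nat_lit 0) (p (nat_lit 0x50312) (nat_lit 0) (p (nat_lit 0x38292) (nat_lit 0) (p (nat_lit 0x28212) (nat_lit 0) (p (nat_lit 0x38112) (nat_lit 0) (p (nat_lit 0x20092)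 (nat_lit 0) (p (nat_lit 0x10012) (nat_lit 0) pn))))))))))))))))))))))))) :=
  Cl.node (nat_lit 0xc9) (nat_lit 2) (by decide +kernel) (ClAll.succ (ClAll.succ ClAll.zero n545) s1208)

def n580 : Cl (O (nat_lit 5)) (R (nat_lit 14353))
    (p (nat_lit 0xc9) (nat_lit 0) (p (nat_lit 0x101) (nat_lit 1) (p (nat_lit 0x119) (nat_lit 0) (p (nat_lit 0xc1) (nat_lit 0) (p (nat_lit 0x81) (nat_lit 1) (p (nat_lit 0x41) (nat_lit 1) (p (nat_lit 0x10a0b0a89089a) (nat_lit 0) (p (nat_lit 0x98a8a08881a) (nat_lit 0) (p (nat_lit 0x109088988079a) (nat_lit 0) (p (nat_lit 0x8880907871a) (nat_lit 0) (p (nat_lit 0x8000000000800080887068a) (nat_lit 0) (p (nat_lit 0x10888068602) (nat_lit 0) (p (nat_lit 0x807860582) (nat_lit 0) (p (nat_lit 0x10607058502) (nat_lit 0) (p (nat_lit 0x586850482) (nat_lit 0) (p (nat_lit 0x16000c) (nat_lit 0) (p (nat_lit 0x68612) (nat_lit 0) (p (nat_lit 0x50592) (nat_lit 0) (p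 (nat_lit 0x40512) (nat_lit 0) (p (nat_lit 0x50312) (nat_lit 0) (p (nat_lit 0x38292) (nat_lit 0) (p (nat_lit 0x28212) (nat_lit 0) (p (nat_lit 0x38112) (nat_lit 0) (p (nat_lit 0x20092) (nat_lit 0) (p (nat_lit 0x10012) (nat_lit 0) pn))))))))))))))))))))))))) :=
  Cl.node (nat_lit 0xd1) (nat_lit 2) (by decide +kernel) (ClAll.succ (ClAll.succ ClAll.zero n546) n547)

def n581 : Cl (O (nat_lit 5)) (R (nat_lit 14353))
    (p (nat_lit 0xd1) (nat_lit 1) (p (nat_lit 0xc9) (nat_lit 0) (p (nat_lit 0x119) (nat_lit 1) (p (nat_lit 0xc1) (nat_lit 0) (p (nat_lit 0x81) (nat_lit 1) (p (nat_lit 0x41) (nat_lit 1) (p (nat_lit 0x10a0b0a89089a) (nat_lit 0) (p (nat_lit 0x98a8a08881a) (nat_lit 0) (p (nat_lit 0x109088988079a) (nat_lit 0) (p (nat_lit 0x8880907871a) (nat_lit 0) (p (nat_lit 0x8000000000800080887068a) (nat_lit 0) (p (nat_lit 0x10888068602) (nat_lit 0) (p (nat_lit 0x807860582) (nat_lit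 0) (p (nat_lit 0x10607058502) (nat_lit 0) (p (nat_lit 0x586850482) (nat_lit 0) (p (nat_lit 0x16000c) (nat_lit 0) (p (nat_lit 0x68612) (nat_lit 0) (p (nat_lit 0x50592) (nat_lit 0) (p (nat_lit 0x40512) (nat_lit 0) (p (nat_lit 0x50312) (nat_lit 0) (p (nat_lit 0x38292) (nat_lit 0) (p (nat_lit 0x28212) (nat_lit 0) (p (nat_lit 0x38112) (nat_lit 0) (p (nat_lit 0x20092) (nat_lit 0) (p (nat_lit 0x10012) (nat_lit 0) pn))))))))))))))))))))))))) :=
  Cl.node (nat_lit 0x111) (nat_lit 2) (by decide +kernel) (ClAll.succ (ClAll.succ ClAll.zero s1285) n548)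

def n582 : Cl (O (nat_lit 5)) (R (nat_lit 14353))
    (p (nat_lit 0x109) (nat_lit 0) (p (nat_lit 0xc9) (nat_lit 1) (p (nat_lit 0x119) (nat_lit 1) (p (nat_lit 0xc1) (nat_lit 0) (p (nat_lit 0x81) (nat_lit 1) (p (nat_lit 0x41) (nat_lit 1) (p (nat_lit 0x10a0b0a89089a) (nat_lit 0) (p (nat_lit 0x98a8a08881a) (nat_lit 0) (p (nat_lit 0x109088988079a) (nat_lit 0) (p (nat_lit 0x8880907871a) (nat_lit 0) (p (nat_lit 0x8000000000800080887068a) (nat_lit 0) (p (nat_lit 0x10888068602) (nat_lit 0) (p (nat_lit 0x807860582) (nat_lit 0) (p (nat_lit 0x10607058502) (nat_lit 0) (p (nat_lit 0x586850482) (nat_lit 0) (p (nat_lit 0x16000c) (nat_lit 0) (p (nat_lit 0x68612) (nat_lit 0) (p (nat_lit 0x50592) (nat_lit 0) (p (nat_lit 0x40512) (nat_lit 0) (p (nat_lit 0x50312) (nat_lit 0) (p (nat_lit 0x38292) (nat_lit 0) (p (nat_lit 0x28212) (nat_lit 0) (p (nat_lit 0x38112) (nat_lit 0) (p (nat_lit 0x20092)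 (nat_lit 0) (p (nat_lit 0x10012) (nat_lit 0) pn))))))))))))))))))))))))) :=
  Cl.node (nat_lit 0x111) (nat_lit 2) (by decide +kernel) (ClAll.succ (ClAll.succ ClAll.zero n549) n550)

def n583 : Cl (O (nat_lit 5)) (R (nat_lit 14353))
    (p (nat_lit 0x109) (nat_lit 1) (p (nat_lit 0xc9) (nat_lit 1) (p (nat_lit 0x119) (nat_lit 1) (p (nat_lit 0xc1) (nat_lit 0) (p (nat_lit 0x81) (nat_lit 1) (p (nat_lit 0x41) (nat_lit 1) (p (nat_lit 0x10a0b0a89089a) (nat_lit 0) (p (nat_lit 0x98a8a08881a) (nat_lit 0) (p (nat_lit 0x109088988079a) (nat_lit 0) (p (nat_lit 0x8880907871a) (nat_lit 0) (p (nat_lit 0x8000000000800080887068a) (nat_lit 0) (p (nat_lit 0x10888068602) (nat_lit 0) (p (nat_lit 0x807860582) (nat_lit 0) (p (nat_lit 0x10607058502) (nat_lit 0) (p (nat_lit 0x586850482) (nat_lit 0) (p (nat_lit 0x16000c) (nat_lit 0) (p (nat_lit 0x68612) (nat_lit 0) (p (nat_lit 0x50592) (nat_lit 0) (p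 (nat_lit 0x40512) (nat_lit 0) (p (nat_lit 0x50312) (nat_lit 0) (p (nat_lit 0x38292) (nat_lit 0) (p (nat_lit 0x28212) (nat_lit 0) (p (nat_lit 0x38112) (nat_lit 0) (p (nat_lit 0x20092) (nat_lit 0) (p (nat_lit 0x10012) (nat_lit 0) pn))))))))))))))))))))))))) :=
  Cl.node (nat_lit 0x3c4aa) (nat_lit 12) (by decide +kernel) (ClAll.succ (ClAll.succ (ClAll.succ (ClAll.succ (ClAll.succ (ClAll.succ (ClAll.succ (ClAll.succ (ClAll.succ (ClAll.succ (ClAll.succ (ClAll.succ ClAll.zero s1367) s1368) s1369) s1370) s1371) s1372) s1373) s1374) s1375) s1376) n551) s1379)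

def n584 : Cl (O (nat_lit 5)) (R (nat_lit 14353))
    (p (nat_lit 0x111) (nat_lit 0) (p (nat_lit 0x109) (nat_lit 0) (p (nat_lit 0x101) (nat_lit 0) (p (nat_lit 0xc1) (nat_lit 1) (p (nat_lit 0x81) (nat_lit 1) (p (nat_lit 0x41) (nat_lit 1) (p (nat_lit 0x10a0b0a89089a) (nat_lit 0) (p (nat_lit 0x98a8a08881a) (nat_lit 0) (p (nat_lit 0x109088988079a) (nat_lit 0) (p (nat_lit 0x8880907871a) (nat_lit 0) (p (nat_lit 0x8000000000800080887068a) (nat_lit 0) (p (nat_lit 0x10888068602) (nat_lit 0) (p (nat_lit 0x807860582) (nat_lit 0) (p (nat_lit 0x10607058502) (nat_lit 0) (p (nat_lit 0x586850482) (nat_lit 0) (p (nat_lit 0x16000c) (nat_lit 0) (p (nat_lit 0x68612) (nat_lit 0) (p (nat_lit 0x50592) (nat_lit 0) (p (nat_lit 0x40512) (nat_lit 0) (p (nat_lit 0x50312) (nat_lit 0) (p (nat_lit 0x38292) (nat_lit 0) (p (nat_lit 0x28212) (nat_lit 0) (p (nat_lit 0x38112) (nat_lit 0) (p (nat_lit 0x20092)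 (nat_lit 0) (p (nat_lit 0x10012) (nat_lit 0) pn))))))))))))))))))))))))) :=
  Cl.node (nat_lit 0x119) (nat_lit 2) (by decide +kernel) (ClAll.succ (ClAll.succ ClAll.zero s1380) s1381)

def n585 : Cl (O (nat_lit 5)) (R (nat_lit 14353))
    (p (nat_lit 0x111) (nat_lit 1) (p (nat_lit 0x109) (nat_lit 0) (p (nat_lit 0x101) (nat_lit 0) (p (nat_lit 0xc1) (nat_lit 1) (p (nat_lit 0x81) (nat_lit 1) (p (nat_lit 0x41) (nat_lit 1) (p (nat_lit 0x10a0b0a89089a) (nat_lit 0) (p (nat_lit 0x98a8a08881a) (nat_lit 0) (p (nat_lit 0x109088988079a) (nat_lit 0) (p (nat_lit 0x8880907871a) (nat_lit 0) (p (nat_lit 0x8000000000800080887068a) (nat_lit 0) (p (nat_lit 0x10888068602) (nat_lit 0) (p (nat_lit 0x807860582) (nat_lit 0) (p (nat_lit 0x10607058502) (nat_lit 0) (p (nat_lit 0x586850482) (nat_lit 0) (p (nat_lit 0x16000c) (nat_lit 0) (p (nat_lit 0x68612) (nat_lit 0) (p (nat_lit 0x50592) (nat_lit 0)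 (p (nat_lit 0x40512) (nat_lit 0) (p (nat_lit 0x50312) (nat_lit 0) (p (nat_lit 0x38292) (nat_lit 0) (p (nat_lit 0x28212) (nat_lit 0) (p (nat_lit 0x38112) (nat_lit 0) (p (nat_lit 0x20092) (nat_lit 0) (p (nat_lit 0x10012) (nat_lit 0) pn))))))))))))))))))))))))) :=
  Cl.node (nat_lit 0x3c4aa) (nat_lit 12) (by decide +kernel) (ClAll.succ (ClAll.succ (ClAll.succ (ClAll.succ (ClAll.succ (ClAll.succ (ClAll.succ (ClAll.succ (ClAll.succ (ClAll.succ (ClAll.succ (ClAll.succ ClAll.zero s1382) s1383) s1384) s1385) s1386) s1387) s1388) n552) s1391) s1392) s1393) s1394)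

def n586 : Cl (O (nat_lit 5)) (R (nat_lit 14353))
    (p (nat_lit 0x101) (nat_lit 0) (p (nat_lit 0x119) (nat_lit 0) (p (nat_lit 0xd1) (nat_lit 0) (p (nat_lit 0x89) (nat_lit 0) (p (nat_lit 0x41) (nat_lit 0) (p (nat_lit 0x10a0b0a89089a) (nat_lit 0) (p (nat_lit 0x98a8a08881a) (nat_lit 0) (p (nat_lit 0x109088988079a) (nat_lit 0) (p (nat_lit 0x8880907871a) (nat_lit 0) (p (nat_lit 0x8000000000800080887068a) (nat_lit 0) (p (nat_lit 0x10888068602) (nat_lit 0) (p (nat_lit 0x807860582) (nat_lit 0) (p (nat_lit 0x10607058502) (nat_lit 0) (p (nat_lit 0x586850482) (nat_lit 0) (p (nat_lit 0x16000c) (nat_lit 0) (p (nat_lit 0x68612) (nat_lit 0) (p (nat_lit 0x50592) (nat_lit 0) (p (nat_lit 0x40512) (nat_lit 0) (p (nat_lit 0x50312) (nat_lit 0) (p (nat_lit 0x38292) (nat_lit 0) (p (nat_lit 0x28212) (nat_lit 0) (p (nat_lit 0x38112) (nat_lit 0) (p (nat_lit 0x20092) (nat_lit 0) (p (nat_lit 0x10012)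 (nat_lit 0) pn)))))))))))))))))))))))) :=
  Cl.node (nat_lit 0x109) (nat_lit 2) (by decide +kernel) (ClAll.succ (ClAll.succ ClAll.zero s0) n553)

def n587 : Cl (O (nat_lit 5)) (R (nat_lit 14353))
    (p (nat_lit 0x101) (nat_lit 1) (p (nat_lit 0x119) (nat_lit 0) (p (nat_lit 0xd1) (nat_lit 0) (p (nat_lit 0x89) (nat_lit 0) (p (nat_lit 0x41) (nat_lit 0) (p (nat_lit 0x10a0b0a89089a) (nat_lit 0) (p (nat_lit 0x98a8a08881a) (nat_lit 0) (p (nat_lit 0x109088988079a) (nat_lit 0) (p (nat_lit 0x8880907871a) (nat_lit 0) (p (nat_lit 0x8000000000800080887068a) (nat_lit 0) (p (nat_lit 0x10888068602) (nat_lit 0) (p (nat_lit 0x807860582) (nat_lit 0) (p (nat_lit 0x10607058502) (nat_lit 0) (p (nat_lit 0x586850482) (nat_lit 0) (p (nat_lit 0x16000c) (nat_lit 0) (p (nat_lit 0x68612) (nat_lit 0) (p (nat_lit 0x50592) (nat_lit 0) (p (nat_lit 0x40512) (nat_lit 0) (p (nat_lit 0x50312) (nat_lit 0) (p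 (nat_lit 0x38292) (nat_lit 0) (p (nat_lit 0x28212) (nat_lit 0) (p (nat_lit 0x38112) (nat_lit 0) (p (nat_lit 0x20092) (nat_lit 0) (p (nat_lit 0x10012) (nat_lit 0) pn)))))))))))))))))))))))) :=
  Cl.node (nat_lit 0x81) (nat_lit 2) (by decide +kernel) (ClAll.succ (ClAll.succ ClAll.zero n554) n555)

def n588 : Cl (O (nat_lit 5)) (R (nat_lit 14353))
    (p (nat_lit 0xc1) (nat_lit 0) (p (nat_lit 0x119) (nat_lit 1) (p (nat_lit 0xd1) (nat_lit 0) (p (nat_lit 0x89) (nat_lit 0) (p (nat_lit 0x41) (nat_lit 0) (p (nat_lit 0x10a0b0a89089a) (nat_lit 0) (p (nat_lit 0x98a8a08881a) (nat_lit 0) (p (nat_lit 0x109088988079a) (nat_lit 0) (p (nat_lit 0x8880907871a) (nat_lit 0) (p (nat_lit 0x8000000000800080887068a) (nat_lit 0) (p (nat_lit 0x10888068602) (nat_lit 0) (p (nat_lit 0x807860582) (nat_lit 0) (p (nat_lit 0x10607058502) (nat_lit 0) (p (nat_lit 0x586850482) (nat_lit 0) (p (nat_lit 0x16000c)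 (nat_lit 0) (p (nat_lit 0x68612) (nat_lit 0) (p (nat_lit 0x50592) (nat_lit 0) (p (nat_lit 0x40512) (nat_lit 0) (p (nat_lit 0x50312) (nat_lit 0) (p (nat_lit 0x38292) (nat_lit 0) (p (nat_lit 0x28212) (nat_lit 0) (p (nat_lit 0x38112) (nat_lit 0) (p (nat_lit 0x20092) (nat_lit 0) (p (nat_lit 0x10012) (nat_lit 0) pn)))))))))))))))))))))))) :=
  Cl.node (nat_lit 0xc9) (nat_lit 2) (by decide +kernel) (ClAll.succ (ClAll.succ ClAll.zero s113) n556)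

def n589 : Cl (O (nat_lit 5)) (R (nat_lit 14353))
    (p (nat_lit 0xc1) (nat_lit 1) (p (nat_lit 0x119) (nat_lit 1) (p (nat_lit 0xd1) (nat_lit 0) (p (nat_lit 0x89) (nat_lit 0) (p (nat_lit 0x41) (nat_lit 0) (p (nat_lit 0x10a0b0a89089a) (nat_lit 0) (p (nat_lit 0x98a8a08881a) (nat_lit 0) (p (nat_lit 0x109088988079a) (nat_lit 0) (p (nat_lit 0x8880907871a) (nat_lit 0) (p (nat_lit 0x8000000000800080887068a) (nat_lit 0) (p (nat_lit 0x10888068602) (nat_lit 0) (p (nat_lit 0x807860582) (nat_lit 0) (p (nat_lit 0x10607058502) (nat_lit 0) (p (nat_lit 0x586850482) (nat_lit 0) (p (nat_lit 0x16000c) (nat_lit 0) (p (nat_lit 0x68612) (nat_lit 0) (p (nat_lit 0x50592) (nat_lit 0) (p (nat_lit 0x40512) (nat_lit 0) (p (nat_lit 0x50312) (nat_lit 0) (p (nat_lit 0x38292) (nat_lit 0) (p (nat_lit 0x28212) (nat_lit 0) (p (nat_lit 0x38112) (nat_lit 0) (p (nat_lit 0x20092) (nat_lit 0) (p (nat_lit 0x10012)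 (nat_lit 0) pn)))))))))))))))))))))))) :=
  Cl.node (nat_lit 0x81) (nat_lit 2) (by decide +kernel) (ClAll.succ (ClAll.succ ClAll.zero n557) n558)

def n590 : Cl (O (nat_lit 5)) (R (nat_lit 14353))
    (p (nat_lit 0x101) (nat_lit 0) (p (nat_lit 0x111) (nat_lit 0) (p (nat_lit 0xd1) (nat_lit 1) (p (nat_lit 0x89) (nat_lit 0) (p (nat_lit 0x41) (nat_lit 0) (p (nat_lit 0x10a0b0a89089a) (nat_lit 0) (p (nat_lit 0x98a8a08881a) (nat_lit 0) (p (nat_lit 0x109088988079a) (nat_lit 0) (p (nat_lit 0x8880907871a) (nat_lit 0) (p (nat_lit 0x8000000000800080887068a) (nat_lit 0) (p (nat_lit 0x10888068602) (nat_lit 0) (p (nat_lit 0x807860582) (nat_lit 0) (p (nat_lit 0x10607058502) (nat_lit 0) (p (nat_lit 0x586850482) (nat_lit 0) (p (nat_lit 0x16000c) (nat_lit 0) (p (nat_lit 0x68612) (nat_lit 0) (p (nat_lit 0x50592) (nat_lit 0) (p (nat_lit 0x40512) (nat_lit 0) (p (nat_lit 0x50312) (nat_lit 0) (p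 (nat_lit 0x38292) (nat_lit 0) (p (nat_lit 0x28212) (nat_lit 0) (p (nat_lit 0x38112) (nat_lit 0) (p (nat_lit 0x20092) (nat_lit 0) (p (nat_lit 0x10012) (nat_lit 0) pn)))))))))))))))))))))))) :=
  Cl.node (nat_lit 0x109) (nat_lit 2) (by decide +kernel) (ClAll.succ (ClAll.succ ClAll.zero s236) n559)

def n591 : Cl (O (nat_lit 5)) (R (nat_lit 14353))
    (p (nat_lit 0x101) (nat_lit 1) (p (nat_lit 0x111) (nat_lit 0) (p (nat_lit 0xd1) (nat_lit 1) (p (nat_lit 0x89) (nat_lit 0) (p (nat_lit 0x41) (nat_lit 0) (p (nat_lit 0x10a0b0a89089a) (nat_lit 0) (p (nat_lit 0x98a8a08881a) (nat_lit 0) (p (nat_lit 0x109088988079a) (nat_lit 0) (p (nat_lit 0x8880907871a) (nat_lit 0) (p (nat_lit 0x8000000000800080887068a) (nat_lit 0) (p (nat_lit 0x10888068602) (nat_lit 0) (p (nat_lit 0x807860582) (nat_lit 0) (p (nat_lit 0x10607058502) (nat_lit 0) (p (nat_lit 0x586850482) (nat_lit 0) (p (nat_lit 0x16000c)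 (nat_lit 0) (p (nat_lit 0x68612) (nat_lit 0) (p (nat_lit 0x50592) (nat_lit 0) (p (nat_lit 0x40512) (nat_lit 0) (p (nat_lit 0x50312) (nat_lit 0) (p (nat_lit 0x38292) (nat_lit 0) (p (nat_lit 0x28212) (nat_lit 0) (p (nat_lit 0x38112) (nat_lit 0) (p (nat_lit 0x20092) (nat_lit 0) (p (nat_lit 0x10012) (nat_lit 0) pn)))))))))))))))))))))))) :=
  Cl.node (nat_lit 0x81) (nat_lit 2) (by decide +kernel) (ClAll.succ (ClAll.succ ClAll.zero n560) n561)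

def n592 : Cl (O (nat_lit 5)) (R (nat_lit 14353))
    (p (nat_lit 0x81) (nat_lit 1) (p (nat_lit 0x111) (nat_lit 1) (p (nat_lit 0xd1) (nat_lit 1) (p (nat_lit 0x89) (nat_lit 0) (p (nat_lit 0x41) (nat_lit 0) (p (nat_lit 0x10a0b0a89089a) (nat_lit 0) (p (nat_lit 0x98a8a08881a) (nat_lit 0) (p (nat_lit 0x109088988079a) (nat_lit 0) (p (nat_lit 0x8880907871a) (nat_lit 0) (p (nat_lit 0x8000000000800080887068a) (nat_lit 0) (p (nat_lit 0x10888068602) (nat_lit 0) (p (nat_lit 0x807860582) (nat_lit 0) (p (nat_lit 0x10607058502) (nat_lit 0) (p (nat_lit 0x586850482) (nat_lit 0) (p (nat_lit 0x16000c) (nat_lit 0) (p (nat_lit 0x68612) (nat_lit 0) (p (nat_lit 0x50592) (nat_lit 0) (p (nat_lit 0x40512) (nat_lit 0) (p (nat_lit 0x50312) (nat_lit 0) (p (nat_lit 0x38292) (nat_lit 0) (p (nat_lit 0x28212) (nat_lit 0) (p (nat_lit 0x38112) (nat_lit 0) (p (nat_lit 0x20092) (nat_lit 0) (p (nat_lit 0x10012)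 (nat_lit 0) pn)))))))))))))))))))))))) :=
  Cl.node (nat_lit 0xc1) (nat_lit 2) (by decide +kernel) (ClAll.succ (ClAll.succ ClAll.zero s325) n562)

def n593 : Cl (O (nat_lit 5)) (R (nat_lit 14353))
    (p (nat_lit 0x101) (nat_lit 0) (p (nat_lit 0x119) (nat_lit 0) (p (nat_lit 0xc9) (nat_lit 0) (p (nat_lit 0x89) (nat_lit 1) (p (nat_lit 0x41) (nat_lit 0) (p (nat_lit 0x10a0b0a89089a) (nat_lit 0) (p (nat_lit 0x98a8a08881a) (nat_lit 0) (p (nat_lit 0x109088988079a) (nat_lit 0) (p (nat_lit 0x8880907871a) (nat_lit 0) (p (nat_lit 0x8000000000800080887068a) (nat_lit 0) (p (nat_lit 0x10888068602) (nat_lit 0) (p (nat_lit 0x807860582) (nat_lit 0) (p (nat_lit 0x10607058502) (nat_lit 0) (p (nat_lit 0x586850482) (nat_lit 0) (p (nat_lit 0x16000c) (nat_lit 0) (p (nat_lit 0x68612) (nat_lit 0) (p (nat_lit 0x50592) (nat_lit 0) (p (nat_lit 0x40512) (nat_lit 0) (p (nat_lit 0x50312) (nat_lit 0) (p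 (nat_lit 0x38292) (nat_lit 0) (p (nat_lit 0x28212) (nat_lit 0) (p (nat_lit 0x38112) (nat_lit 0) (p (nat_lit 0x20092) (nat_lit 0) (p (nat_lit 0x10012) (nat_lit 0) pn)))))))))))))))))))))))) :=
  Cl.node (nat_lit 0x109) (nat_lit 2) (by decide +kernel) (ClAll.succ (ClAll.succ ClAll.zero n563) n564)

def n594 : Cl (O (nat_lit 5)) (R (nat_lit 14353))
    (p (nat_lit 0x101) (nat_lit 1) (p (nat_lit 0x119) (nat_lit 0) (p (nat_lit 0xc9) (nat_lit 0) (p (nat_lit 0x89) (nat_lit 1) (p (nat_lit 0x41) (nat_lit 0) (p (nat_lit 0x10a0b0a89089a) (nat_lit 0) (p (nat_lit 0x98a8a08881a) (nat_lit 0) (p (nat_lit 0x109088988079a) (nat_lit 0) (p (nat_lit 0x8880907871a) (nat_lit 0) (p (nat_lit 0x8000000000800080887068a) (nat_lit 0) (p (nat_lit 0x10888068602) (nat_lit 0) (p (nat_lit 0x807860582) (nat_lit 0) (p (nat_lit 0x10607058502) (nat_lit 0) (p (nat_lit 0x586850482) (nat_lit 0) (p (nat_lit 0x16000c)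 (nat_lit 0) (p (nat_lit 0x68612) (nat_lit 0) (p (nat_lit 0x50592) (nat_lit 0) (p (nat_lit 0x40512) (nat_lit 0) (p (nat_lit 0x50312) (nat_lit 0) (p (nat_lit 0x38292) (nat_lit 0) (p (nat_lit 0x28212) (nat_lit 0) (p (nat_lit 0x38112) (nat_lit 0) (p (nat_lit 0x20092) (nat_lit 0) (p (nat_lit 0x10012) (nat_lit 0) pn)))))))))))))))))))))))) :=
  Cl.node (nat_lit 0xc1) (nat_lit 2) (by decide +kernel) (ClAll.succ (ClAll.succ ClAll.zero n565) s481)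

def n595 : Cl (O (nat_lit 5)) (R (nat_lit 14353))
    (p (nat_lit 0xc1) (nat_lit 0) (p (nat_lit 0x119) (nat_lit 1) (p (nat_lit 0xc9) (nat_lit 0) (p (nat_lit 0x89) (nat_lit 1) (p (nat_lit 0x41) (nat_lit 0) (p (nat_lit 0x10a0b0a89089a) (nat_lit 0) (p (nat_lit 0x98a8a08881a) (nat_lit 0) (p (nat_lit 0x109088988079a) (nat_lit 0) (p (nat_lit 0x8880907871a) (nat_lit 0) (p (nat_lit 0x8000000000800080887068a) (nat_lit 0) (p (nat_lit 0x10888068602) (nat_lit 0) (p (nat_lit 0x807860582) (nat_lit 0) (p (nat_lit 0x10607058502) (nat_lit 0) (p (nat_lit 0x586850482) (nat_lit 0) (p (nat_lit 0x16000c) (nat_lit 0) (p (nat_lit 0x68612) (nat_lit 0) (p (nat_lit 0x50592) (nat_lit 0) (p (nat_lit 0x40512) (nat_lit 0) (p (nat_lit 0x50312) (nat_lit 0) (p (nat_lit 0x38292) (nat_lit 0) (p (nat_lit 0x28212) (nat_lit 0) (p (nat_lit 0x38112) (nat_lit 0) (p (nat_lit 0x20092) (nat_lit 0) (p (nat_lit 0x10012)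 (nat_lit 0) pn)))))))))))))))))))))))) :=
  Cl.node (nat_lit 0xd1) (nat_lit 2) (by decide +kernel) (ClAll.succ (ClAll.succ ClAll.zero s482) n566)

def n596 : Cl (O (nat_lit 5)) (R (nat_lit 14353))
    (p (nat_lit 0xc1) (nat_lit 1) (p (nat_lit 0x119) (nat_lit 1) (p (nat_lit 0xc9) (nat_lit 0) (p (nat_lit 0x89) (nat_lit 1) (p (nat_lit 0x41) (nat_lit 0) (p (nat_lit 0x10a0b0a89089a) (nat_lit 0) (p (nat_lit 0x98a8a08881a) (nat_lit 0) (p (nat_lit 0x109088988079a) (nat_lit 0) (p (nat_lit 0x8880907871a) (nat_lit 0) (p (nat_lit 0x8000000000800080887068a) (nat_lit 0) (p (nat_lit 0x10888068602) (nat_lit 0) (p (nat_lit 0x807860582) (nat_lit 0) (p (nat_lit 0x10607058502) (nat_lit 0) (p (nat_lit 0x586850482) (nat_lit 0) (p (nat_lit 0x16000c) (nat_lit 0) (p (nat_lit 0x68612) (nat_lit 0) (p (nat_lit 0x50592) (nat_lit 0) (p (nat_lit 0x40512) (nat_lit 0) (p (nat_lit 0x50312) (nat_lit 0) (p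 (nat_lit 0x38292) (nat_lit 0) (p (nat_lit 0x28212) (nat_lit 0) (p (nat_lit 0x38112) (nat_lit 0) (p (nat_lit 0x20092) (nat_lit 0) (p (nat_lit 0x10012) (nat_lit 0) pn)))))))))))))))))))))))) :=
  Cl.node (nat_lit 0x101) (nat_lit 2) (by decide +kernel) (ClAll.succ (ClAll.succ ClAll.zero n567) s545)

def n597 : Cl (O (nat_lit 5)) (R (nat_lit 14353))
    (p (nat_lit 0x101) (nat_lit 0) (p (nat_lit 0x109) (nat_lit 0) (p (nat_lit 0xc9) (nat_lit 1) (p (nat_lit 0x89) (nat_lit 1) (p (nat_lit 0x41) (nat_lit 0) (p (nat_lit 0x10a0b0a89089a) (nat_lit 0) (p (nat_lit 0x98a8a08881a) (nat_lit 0) (p (nat_lit 0x109088988079a) (nat_lit 0) (p (nat_lit 0x8880907871a) (nat_lit 0) (p (nat_lit 0x8000000000800080887068a) (nat_lit 0) (p (nat_lit 0x10888068602) (nat_lit 0) (p (nat_lit 0x807860582) (nat_lit 0) (p (nat_lit 0x10607058502) (nat_lit 0) (p (nat_lit 0x586850482) (nat_lit 0) (p (nat_lit 0x16000c)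 (nat_lit 0) (p (nat_lit 0x68612) (nat_lit 0) (p (nat_lit 0x50592) (nat_lit 0) (p (nat_lit 0x40512) (nat_lit 0) (p (nat_lit 0x50312) (nat_lit 0) (p (nat_lit 0x38292) (nat_lit 0) (p (nat_lit 0x28212) (nat_lit 0) (p (nat_lit 0x38112) (nat_lit 0) (p (nat_lit 0x20092) (nat_lit 0) (p (nat_lit 0x10012) (nat_lit 0) pn)))))))))))))))))))))))) :=
  Cl.node (nat_lit 0x111) (nat_lit 2) (by decide +kernel) (ClAll.succ (ClAll.succ ClAll.zero s546) s547)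

def n598 : Cl (O (nat_lit 5)) (R (nat_lit 14353))
    (p (nat_lit 0x101) (nat_lit 0) (p (nat_lit 0x119) (nat_lit 0) (p (nat_lit 0xd1) (nat_lit 0) (p (nat_lit 0x81) (nat_lit 0) (p (nat_lit 0x41) (nat_lit 1) (p (nat_lit 0x10a0b0a89089a) (nat_lit 0) (p (nat_lit 0x98a8a08881a) (nat_lit 0) (p (nat_lit 0x109088988079a) (nat_lit 0) (p (nat_lit 0x8880907871a) (nat_lit 0) (p (nat_lit 0x8000000000800080887068a) (nat_lit 0) (p (nat_lit 0x10888068602) (nat_lit 0) (p (nat_lit 0x807860582) (nat_lit 0) (p (nat_lit 0x10607058502) (nat_lit 0) (p (nat_lit 0x586850482) (nat_lit 0) (p (nat_lit 0x16000c) (nat_lit 0) (p (nat_lit 0x68612) (nat_lit 0) (p (nat_lit 0x50592) (nat_lit 0) (p (nat_lit 0x40512) (nat_lit 0) (p (nat_lit 0x50312) (nat_lit 0) (p (nat_lit 0x38292) (nat_lit 0) (p (nat_lit 0x28212) (nat_lit 0) (p (nat_lit 0x38112) (nat_lit 0) (p (nat_lit 0x20092) (nat_lit 0) (p (nat_lit 0x10012)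 (nat_lit 0) pn)))))))))))))))))))))))) :=
  Cl.node (nat_lit 0x109) (nat_lit 2) (by decide +kernel) (ClAll.succ (ClAll.succ ClAll.zero s550) n568)

def n599 : Cl (O (nat_lit 5)) (R (nat_lit 14353))
    (p (nat_lit 0x101) (nat_lit 1) (p (nat_lit 0x119) (nat_lit 0) (p (nat_lit 0xd1) (nat_lit 0) (p (nat_lit 0x81) (nat_lit 0) (p (nat_lit 0x41) (nat_lit 1) (p (nat_lit 0x10a0b0a89089a) (nat_lit 0) (p (nat_lit 0x98a8a08881a) (nat_lit 0) (p (nat_lit 0x109088988079a) (nat_lit 0) (p (nat_lit 0x8880907871a) (nat_lit 0) (p (nat_lit 0x8000000000800080887068a) (nat_lit 0) (p (nat_lit 0x10888068602) (nat_lit 0) (p (nat_lit 0x807860582) (nat_lit 0) (p (nat_lit 0x10607058502) (nat_lit 0) (p (nat_lit 0x586850482) (nat_lit 0) (p (nat_lit 0x16000c) (nat_lit 0) (p (nat_lit 0x68612) (nat_lit 0) (p (nat_lit 0x50592) (nat_lit 0) (p (nat_lit 0x40512) (nat_lit 0) (p (nat_lit 0x50312) (nat_lit 0)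 (p (nat_lit 0x38292) (nat_lit 0) (p (nat_lit 0x28212) (nat_lit 0) (p (nat_lit 0x38112) (nat_lit 0) (p (nat_lit 0x20092) (nat_lit 0) (p (nat_lit 0x10012) (nat_lit 0) pn)))))))))))))))))))))))) :=
  Cl.node (nat_lit 0xc1) (nat_lit 2) (by decide +kernel) (ClAll.succ (ClAll.succ ClAll.zero n569) n570)

def n600 : Cl (O (nat_lit 5)) (R (nat_lit 14353))
    (p (nat_lit 0xc1) (nat_lit 0) (p (nat_lit 0x119) (nat_lit 1) (p (nat_lit 0xd1) (nat_lit 0) (p (nat_lit 0x81) (nat_lit 0) (p (nat_lit 0x41) (nat_lit 1) (p (nat_lit 0x10a0b0a89089a) (nat_lit 0) (p (nat_lit 0x98a8a08881a) (nat_lit 0) (p (nat_lit 0x109088988079a) (nat_lit 0) (p (nat_lit 0x8880907871a) (nat_lit 0) (p (nat_lit 0x8000000000800080887068a) (nat_lit 0) (p (nat_lit 0x10888068602) (nat_lit 0) (p (nat_lit 0x807860582) (nat_lit 0) (p (nat_lit 0x10607058502) (nat_lit 0) (p (nat_lit 0x586850482) (nat_lit 0) (p (nat_lit 0x16000c)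 (nat_lit 0) (p (nat_lit 0x68612) (nat_lit 0) (p (nat_lit 0x50592) (nat_lit 0) (p (nat_lit 0x40512) (nat_lit 0) (p (nat_lit 0x50312) (nat_lit 0) (p (nat_lit 0x38292) (nat_lit 0) (p (nat_lit 0x28212) (nat_lit 0) (p (nat_lit 0x38112) (nat_lit 0) (p (nat_lit 0x20092) (nat_lit 0) (p (nat_lit 0x10012) (nat_lit 0) pn)))))))))))))))))))))))) :=
  Cl.node (nat_lit 0xc9) (nat_lit 2) (by decide +kernel) (ClAll.succ (ClAll.succ ClAll.zero s755) n571)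

def n601 : Cl (O (nat_lit 5)) (R (nat_lit 14353))
    (p (nat_lit 0xc1) (nat_lit 1) (p (nat_lit 0x119) (nat_lit 1) (p (nat_lit 0xd1) (nat_lit 0) (p (nat_lit 0x81) (nat_lit 0) (p (nat_lit 0x41) (nat_lit 1) (p (nat_lit 0x10a0b0a89089a) (nat_lit 0) (p (nat_lit 0x98a8a08881a) (nat_lit 0) (p (nat_lit 0x109088988079a) (nat_lit 0) (p (nat_lit 0x8880907871a) (nat_lit 0) (p (nat_lit 0x8000000000800080887068a) (nat_lit 0) (p (nat_lit 0x10888068602) (nat_lit 0) (p (nat_lit 0x807860582) (nat_lit 0) (p (nat_lit 0x10607058502) (nat_lit 0) (p (nat_lit 0x586850482) (nat_lit 0) (p (nat_lit 0x16000c) (nat_lit 0) (p (nat_lit 0x68612) (nat_lit 0) (p (nat_lit 0x50592) (nat_lit 0) (p (nat_lit 0x40512) (nat_lit 0) (p (nat_lit 0x50312) (nat_lit 0) (p (nat_lit 0x38292) (nat_lit 0) (p (nat_lit 0x28212) (nat_lit 0) (p (nat_lit 0x38112) (nat_lit 0) (p (nat_lit 0x20092) (nat_lit 0) (p (nat_lit 0x10012)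 (nat_lit 0) pn)))))))))))))))))))))))) :=
  Cl.node (nat_lit 0x101) (nat_lit 2) (by decide +kernel) (ClAll.succ (ClAll.succ ClAll.zero n572) n573)

def n602 : Cl (O (nat_lit 5)) (R (nat_lit 14353))
    (p (nat_lit 0x101) (nat_lit 0) (p (nat_lit 0x111) (nat_lit 0) (p (nat_lit 0xd1) (nat_lit 1) (p (nat_lit 0x81) (nat_lit 0) (p (nat_lit 0x41) (nat_lit 1) (p (nat_lit 0x10a0b0a89089a) (nat_lit 0) (p (nat_lit 0x98a8a08881a) (nat_lit 0) (p (nat_lit 0x109088988079a) (nat_lit 0) (p (nat_lit 0x8880907871a) (nat_lit 0) (p (nat_lit 0x8000000000800080887068a) (nat_lit 0) (p (nat_lit 0x10888068602) (nat_lit 0) (p (nat_lit 0x807860582) (nat_lit 0) (p (nat_lit 0x10607058502) (nat_lit 0) (p (nat_lit 0x586850482) (nat_lit 0) (p (nat_lit 0x16000c) (nat_lit 0) (p (nat_lit 0x68612) (nat_lit 0) (p (nat_lit 0x50592) (nat_lit 0) (p (nat_lit 0x40512) (nat_lit 0) (p (nat_lit 0x50312) (nat_lit 0)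 (p (nat_lit 0x38292) (nat_lit 0) (p (nat_lit 0x28212) (nat_lit 0) (p (nat_lit 0x38112) (nat_lit 0) (p (nat_lit 0x20092) (nat_lit 0) (p (nat_lit 0x10012) (nat_lit 0) pn)))))))))))))))))))))))) :=
  Cl.node (nat_lit 0x109) (nat_lit 2) (by decide +kernel) (ClAll.succ (ClAll.succ ClAll.zero s944) n574)

def n603 : Cl (O (nat_lit 5)) (R (nat_lit 14353))
    (p (nat_lit 0x101) (nat_lit 1) (p (nat_lit 0x111) (nat_lit 0) (p (nat_lit 0xd1) (nat_lit 1) (p (nat_lit 0x81) (nat_lit 0) (p (nat_lit 0x41) (nat_lit 1) (p (nat_lit 0x10a0b0a89089a) (nat_lit 0) (p (nat_lit 0x98a8a08881a) (nat_lit 0) (p (nat_lit 0x109088988079a) (nat_lit 0) (p (nat_lit 0x8880907871a) (nat_lit 0) (p (nat_lit 0x8000000000800080887068a) (nat_lit 0) (p (nat_lit 0x10888068602) (nat_lit 0) (p (nat_lit 0x807860582) (nat_lit 0) (p (nat_lit 0x10607058502) (nat_lit 0) (p (nat_lit 0x586850482) (nat_lit 0) (p (nat_lit 0x16000c)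 (nat_lit 0) (p (nat_lit 0x68612) (nat_lit 0) (p (nat_lit 0x50592) (nat_lit 0) (p (nat_lit 0x40512) (nat_lit 0) (p (nat_lit 0x50312) (nat_lit 0) (p (nat_lit 0x38292) (nat_lit 0) (p (nat_lit 0x28212) (nat_lit 0) (p (nat_lit 0x38112) (nat_lit 0) (p (nat_lit 0x20092) (nat_lit 0) (p (nat_lit 0x10012) (nat_lit 0) pn)))))))))))))))))))))))) :=
  Cl.node (nat_lit 0x89) (nat_lit 2) (by decide +kernel) (ClAll.succ (ClAll.succ ClAll.zero n575) n576)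

def n604 : Cl (O (nat_lit 5)) (R (nat_lit 14353))
    (p (nat_lit 0x89) (nat_lit 1) (p (nat_lit 0x111) (nat_lit 1) (p (nat_lit 0xd1) (nat_lit 1) (p (nat_lit 0x81) (nat_lit 0) (p (nat_lit 0x41) (nat_lit 1) (p (nat_lit 0x10a0b0a89089a) (nat_lit 0) (p (nat_lit 0x98a8a08881a) (nat_lit 0) (p (nat_lit 0x109088988079a) (nat_lit 0) (p (nat_lit 0x8880907871a) (nat_lit 0) (p (nat_lit 0x8000000000800080887068a) (nat_lit 0) (p (nat_lit 0x10888068602) (nat_lit 0) (p (nat_lit 0x807860582) (nat_lit 0) (p (nat_lit 0x10607058502) (nat_lit 0) (p (nat_lit 0x586850482) (nat_lit 0) (p (nat_lit 0x16000c) (nat_lit 0) (p (nat_lit 0x68612) (nat_lit 0) (p (nat_lit 0x50592) (nat_lit 0) (p (nat_lit 0x40512) (nat_lit 0) (p (nat_lit 0x50312) (nat_lit 0) (p (nat_lit 0x38292) (nat_lit 0) (p (nat_lit 0x28212) (nat_lit 0) (p (nat_lit 0x38112) (nat_lit 0) (p (nat_lit 0x20092) (nat_lit 0) (p (nat_lit 0x10012)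 (nat_lit 0) pn)))))))))))))))))))))))) :=
  Cl.node (nat_lit 0xc9) (nat_lit 2) (by decide +kernel) (ClAll.succ (ClAll.succ ClAll.zero s1092) n577)

def n605 : Cl (O (nat_lit 5)) (R (nat_lit 14353))
    (p (nat_lit 0x101) (nat_lit 0) (p (nat_lit 0x119) (nat_lit 0) (p (nat_lit 0xc1) (nat_lit 0) (p (nat_lit 0x81) (nat_lit 1) (p (nat_lit 0x41) (nat_lit 1) (p (nat_lit 0x10a0b0a89089a) (nat_lit 0) (p (nat_lit 0x98a8a08881a) (nat_lit 0) (p (nat_lit 0x109088988079a) (nat_lit 0) (p (nat_lit 0x8880907871a) (nat_lit 0) (p (nat_lit 0x8000000000800080887068a) (nat_lit 0) (p (nat_lit 0x10888068602) (nat_lit 0) (p (nat_lit 0x807860582) (nat_lit 0) (p (nat_lit 0x10607058502) (nat_lit 0) (p (nat_lit 0x586850482) (nat_lit 0) (p (nat_lit 0x16000c) (nat_lit 0) (p (nat_lit 0x68612) (nat_lit 0) (p (nat_lit 0x50592) (nat_lit 0) (p (nat_lit 0x40512) (nat_lit 0) (p (nat_lit 0x50312) (nat_lit 0)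 (p (nat_lit 0x38292) (nat_lit 0) (p (nat_lit 0x28212) (nat_lit 0) (p (nat_lit 0x38112) (nat_lit 0) (p (nat_lit 0x20092) (nat_lit 0) (p (nat_lit 0x10012) (nat_lit 0) pn)))))))))))))))))))))))) :=
  Cl.node (nat_lit 0x109) (nat_lit 2) (by decide +kernel) (ClAll.succ (ClAll.succ ClAll.zero n578) n579)

def n606 : Cl (O (nat_lit 5)) (R (nat_lit 14353))
    (p (nat_lit 0x101) (nat_lit 1) (p (nat_lit 0x119) (nat_lit 0) (p (nat_lit 0xc1) (nat_lit 0) (p (nat_lit 0x81) (nat_lit 1) (p (nat_lit 0x41) (nat_lit 1) (p (nat_lit 0x10a0b0a89089a) (nat_lit 0) (p (nat_lit 0x98a8a08881a) (nat_lit 0) (p (nat_lit 0x109088988079a) (nat_lit 0) (p (nat_lit 0x8880907871a) (nat_lit 0) (p (nat_lit 0x8000000000800080887068a) (nat_lit 0) (p (nat_lit 0x10888068602) (nat_lit 0) (p (nat_lit 0x807860582) (nat_lit 0) (p (nat_lit 0x10607058502) (nat_lit 0) (p (nat_lit 0x586850482) (nat_lit 0) (p (nat_lit 0x16000c)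 (nat_lit 0) (p (nat_lit 0x68612) (nat_lit 0) (p (nat_lit 0x50592) (nat_lit 0) (p (nat_lit 0x40512) (nat_lit 0) (p (nat_lit 0x50312) (nat_lit 0) (p (nat_lit 0x38292) (nat_lit 0) (p (nat_lit 0x28212) (nat_lit 0) (p (nat_lit 0x38112) (nat_lit 0) (p (nat_lit 0x20092) (nat_lit 0) (p (nat_lit 0x10012) (nat_lit 0) pn)))))))))))))))))))))))) :=
  Cl.node (nat_lit 0xc9) (nat_lit 2) (by decide +kernel) (ClAll.succ (ClAll.succ ClAll.zero n580) s1283)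

def n607 : Cl (O (nat_lit 5)) (R (nat_lit 14353))
    (p (nat_lit 0xc9) (nat_lit 0) (p (nat_lit 0x119) (nat_lit 1) (p (nat_lit 0xc1) (nat_lit 0) (p (nat_lit 0x81) (nat_lit 1) (p (nat_lit 0x41) (nat_lit 1) (p (nat_lit 0x10a0b0a89089a) (nat_lit 0) (p (nat_lit 0x98a8a08881a) (nat_lit 0) (p (nat_lit 0x109088988079a) (nat_lit 0) (p (nat_lit 0x8880907871a) (nat_lit 0) (p (nat_lit 0x8000000000800080887068a) (nat_lit 0) (p (nat_lit 0x10888068602) (nat_lit 0) (p (nat_lit 0x807860582) (nat_lit 0) (p (nat_lit 0x10607058502) (nat_lit 0) (p (nat_lit 0x586850482) (nat_lit 0) (p (nat_lit 0x16000c) (nat_lit 0) (p (nat_lit 0x68612) (nat_lit 0) (p (nat_lit 0x50592) (nat_lit 0) (p (nat_lit 0x40512) (nat_lit 0) (p (nat_lit 0x50312) (nat_lit 0) (p (nat_lit 0x38292) (nat_lit 0) (p (nat_lit 0x28212) (nat_lit 0) (p (nat_lit 0x38112) (nat_lit 0) (p (nat_lit 0x20092) (nat_lit 0) (p (nat_lit 0x10012)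 (nat_lit 0) pn)))))))))))))))))))))))) :=
  Cl.node (nat_lit 0xd1) (nat_lit 2) (by decide +kernel) (ClAll.succ (ClAll.succ ClAll.zero s1284) n581)

def n608 : Cl (O (nat_lit 5)) (R (nat_lit 14353))
    (p (nat_lit 0xc9) (nat_lit 1) (p (nat_lit 0x119) (nat_lit 1) (p (nat_lit 0xc1) (nat_lit 0) (p (nat_lit 0x81) (nat_lit 1) (p (nat_lit 0x41) (nat_lit 1) (p (nat_lit 0x10a0b0a89089a) (nat_lit 0) (p (nat_lit 0x98a8a08881a) (nat_lit 0) (p (nat_lit 0x109088988079a) (nat_lit 0) (p (nat_lit 0x8880907871a) (nat_lit 0) (p (nat_lit 0x8000000000800080887068a) (nat_lit 0) (p (nat_lit 0x10888068602) (nat_lit 0) (p (nat_lit 0x807860582) (nat_lit 0) (p (nat_lit 0x10607058502) (nat_lit 0) (p (nat_lit 0x586850482) (nat_lit 0) (p (nat_lit 0x16000c) (nat_lit 0) (p (nat_lit 0x68612) (nat_lit 0) (p (nat_lit 0x50592) (nat_lit 0) (p (nat_lit 0x40512) (nat_lit 0) (p (nat_lit 0x50312) (nat_lit 0) (p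 (nat_lit 0x38292) (nat_lit 0) (p (nat_lit 0x28212) (nat_lit 0) (p (nat_lit 0x38112) (nat_lit 0) (p (nat_lit 0x20092) (nat_lit 0) (p (nat_lit 0x10012) (nat_lit 0) pn)))))))))))))))))))))))) :=
  Cl.node (nat_lit 0x109) (nat_lit 2) (by decide +kernel) (ClAll.succ (ClAll.succ ClAll.zero n582) n583)

def n609 : Cl (O (nat_lit 5)) (R (nat_lit 14353))
    (p (nat_lit 0x109) (nat_lit 0) (p (nat_lit 0x101) (nat_lit 0) (p (nat_lit 0xc1) (nat_lit 1) (p (nat_lit 0x81) (nat_lit 1) (p (nat_lit 0x41) (nat_lit 1) (p (nat_lit 0x10a0b0a89089a) (nat_lit 0) (p (nat_lit 0x98a8a08881a) (nat_lit 0) (p (nat_lit 0x109088988079a) (nat_lit 0) (p (nat_lit 0x8880907871a) (nat_lit 0) (p (nat_lit 0x8000000000800080887068a) (nat_lit 0) (p (nat_lit 0x10888068602) (nat_lit 0) (p (nat_lit 0x807860582) (nat_lit 0) (p (nat_lit 0x10607058502) (nat_lit 0) (p (nat_lit 0x586850482) (nat_lit 0) (p (nat_lit 0x16000c)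 (nat_lit 0) (p (nat_lit 0x68612) (nat_lit 0) (p (nat_lit 0x50592) (nat_lit 0) (p (nat_lit 0x40512) (nat_lit 0) (p (nat_lit 0x50312) (nat_lit 0) (p (nat_lit 0x38292) (nat_lit 0) (p (nat_lit 0x28212) (nat_lit 0) (p (nat_lit 0x38112) (nat_lit 0) (p (nat_lit 0x20092) (nat_lit 0) (p (nat_lit 0x10012) (nat_lit 0) pn)))))))))))))))))))))))) :=
  Cl.node (nat_lit 0x111) (nat_lit 2) (by decide +kernel) (ClAll.succ (ClAll.succ ClAll.zero n584) n585)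

def n610 : Cl (O (nat_lit 5)) (R (nat_lit 14353))
    (p (nat_lit 0x119) (nat_lit 0) (p (nat_lit 0xd1) (nat_lit 0) (p (nat_lit 0x89) (nat_lit 0) (p (nat_lit 0x41) (nat_lit 0) (p (nat_lit 0x10a0b0a89089a) (nat_lit 0) (p (nat_lit 0x98a8a08881a) (nat_lit 0) (p (nat_lit 0x109088988079a) (nat_lit 0) (p (nat_lit 0x8880907871a) (nat_lit 0) (p (nat_lit 0x8000000000800080887068a) (nat_lit 0) (p (nat_lit 0x10888068602) (nat_lit 0) (p (nat_lit 0x807860582) (nat_lit 0) (p (nat_lit 0x10607058502) (nat_lit 0) (p (nat_lit 0x586850482) (nat_lit 0) (p (nat_lit 0x16000c) (nat_lit 0) (p (nat_lit 0x68612) (nat_lit 0) (p (nat_lit 0x50592) (nat_lit 0) (p (nat_lit 0x40512) (nat_lit 0) (p (nat_lit 0x50312) (nat_lit 0) (p (nat_lit 0x38292) (nat_lit 0) (p (nat_lit 0x28212) (nat_lit 0) (p (nat_lit 0x38112) (nat_lit 0) (p (nat_lit 0x20092) (nat_lit 0) (p (nat_lit 0x10012) (nat_lit 0) pn)))))))))))))))))))))))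 :=
  Cl.node (nat_lit 0x101) (nat_lit 2) (by decide +kernel) (ClAll.succ (ClAll.succ ClAll.zero n586) n587)

def n611 : Cl (O (nat_lit 5)) (R (nat_lit 14353))
    (p (nat_lit 0x119) (nat_lit 1) (p (nat_lit 0xd1) (nat_lit 0) (p (nat_lit 0x89) (nat_lit 0) (p (nat_lit 0x41) (nat_lit 0) (p (nat_lit 0x10a0b0a89089a) (nat_lit 0) (p (nat_lit 0x98a8a08881a) (nat_lit 0) (p (nat_lit 0x109088988079a) (nat_lit 0) (p (nat_lit 0x8880907871a) (nat_lit 0) (p (nat_lit 0x8000000000800080887068a) (nat_lit 0) (p (nat_lit 0x10888068602) (nat_lit 0) (p (nat_lit 0x807860582) (nat_lit 0) (p (nat_lit 0x10607058502) (nat_lit 0) (p (nat_lit 0x586850482) (nat_lit 0) (p (nat_lit 0x16000c) (nat_lit 0) (p (nat_lit 0x68612) (nat_lit 0) (p (nat_lit 0x50592) (nat_lit 0) (p (nat_lit 0x40512) (nat_lit 0) (p (nat_lit 0x50312) (nat_lit 0) (p (nat_lit 0x38292) (nat_lit 0) (p (nat_lit 0x28212) (nat_lit 0) (p (nat_lit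 0x38112) (nat_lit 0) (p (nat_lit 0x20092) (nat_lit 0) (p (nat_lit 0x10012) (nat_lit 0) pn))))))))))))))))))))))) :=
  Cl.node (nat_lit 0xc1) (nat_lit 2) (by decide +kernel) (ClAll.succ (ClAll.succ ClAll.zero n588) n589)

def n612 : Cl (O (nat_lit 5)) (R (nat_lit 14353))
    (p (nat_lit 0x111) (nat_lit 0) (p (nat_lit 0xd1) (nat_lit 1) (p (nat_lit 0x89) (nat_lit 0) (p (nat_lit 0x41) (nat_lit 0) (p (nat_lit 0x10a0b0a89089a) (nat_lit 0) (p (nat_lit 0x98a8a08881a) (nat_lit 0) (p (nat_lit 0x109088988079a) (nat_lit 0) (p (nat_lit 0x8880907871a) (nat_lit 0) (p (nat_lit 0x8000000000800080887068a) (nat_lit 0) (p (nat_lit 0x10888068602) (nat_lit 0) (p (nat_lit 0x807860582) (nat_lit 0) (p (nat_lit 0x10607058502) (nat_lit 0) (p (nat_lit 0x586850482) (nat_lit 0) (p (nat_lit 0x16000c) (nat_lit 0) (p (nat_lit 0x68612) (nat_lit 0) (p (nat_lit 0x50592) (nat_lit 0) (p (nat_lit 0x40512) (nat_lit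 0) (p (nat_lit 0x50312) (nat_lit 0) (p (nat_lit 0x38292) (nat_lit 0) (p (nat_lit 0x28212) (nat_lit 0) (p (nat_lit 0x38112) (nat_lit 0) (p (nat_lit 0x20092) (nat_lit 0) (p (nat_lit 0x10012) (nat_lit 0) pn))))))))))))))))))))))) :=
  Cl.node (nat_lit 0x101) (nat_lit 2) (by decide +kernel) (ClAll.succ (ClAll.succ ClAll.zero n590) n591)

def n613 : Cl (O (nat_lit 5)) (R (nat_lit 14353))
    (p (nat_lit 0x111) (nat_lit 1) (p (nat_lit 0xd1) (nat_lit 1) (p (nat_lit 0x89) (nat_lit 0) (p (nat_lit 0x41) (nat_lit 0) (p (nat_lit 0x10a0b0a89089a) (nat_lit 0) (p (nat_lit 0x98a8a08881a) (nat_lit 0) (p (nat_lit 0x109088988079a) (nat_lit 0) (p (nat_lit 0x8880907871a) (nat_lit 0) (p (nat_lit 0x8000000000800080887068a) (nat_lit 0) (p (nat_lit 0x10888068602) (nat_lit 0) (p (nat_lit 0x807860582) (nat_lit 0) (p (nat_lit 0x10607058502) (nat_lit 0) (p (nat_lit 0x586850482) (nat_lit 0) (p (nat_lit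 0x16000c) (nat_lit 0) (p (nat_lit 0x68612) (nat_lit 0) (p (nat_lit 0x50592) (nat_lit 0) (p (nat_lit 0x40512) (nat_lit 0) (p (nat_lit 0x50312) (nat_lit 0) (p (nat_lit 0x38292) (nat_lit 0) (p (nat_lit 0x28212) (nat_lit 0) (p (nat_lit 0x38112) (nat_lit 0) (p (nat_lit 0x20092) (nat_lit 0) (p (nat_lit 0x10012) (nat_lit 0) pn))))))))))))))))))))))) :=
  Cl.node (nat_lit 0x81) (nat_lit 2) (by decide +kernel) (ClAll.succ (ClAll.succ ClAll.zero s324) n592)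

def n614 : Cl (O (nat_lit 5)) (R (nat_lit 14353))
    (p (nat_lit 0x119) (nat_lit 0) (p (nat_lit 0xc9) (nat_lit 0) (p (nat_lit 0x89) (nat_lit 1) (p (nat_lit 0x41) (nat_lit 0) (p (nat_lit 0x10a0b0a89089a) (nat_lit 0) (p (nat_lit 0x98a8a08881a) (nat_lit 0) (p (nat_lit 0x109088988079a) (nat_lit 0) (p (nat_lit 0x8880907871a) (nat_lit 0) (p (nat_lit 0x8000000000800080887068a) (nat_lit 0) (p (nat_lit 0x10888068602) (nat_lit 0) (p (nat_lit 0x807860582) (nat_lit 0) (p (nat_lit 0x10607058502) (nat_lit 0) (p (nat_lit 0x586850482) (nat_lit 0) (p (nat_lit 0x16000c) (nat_lit 0) (p (nat_lit 0x68612) (nat_lit 0) (p (nat_lit 0x50592) (nat_lit 0) (p (nat_lit 0x40512) (nat_lit 0) (p (nat_lit 0x50312) (nat_lit 0) (p (nat_lit 0x38292) (nat_lit 0) (p (nat_lit 0x28212) (nat_lit 0) (p (nat_lit 0x38112) (nat_lit 0) (p (nat_lit 0x20092) (nat_lit 0) (p (nat_lit 0x10012) (nat_lit 0) pn)))))))))))))))))))))))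 :=
  Cl.node (nat_lit 0x101) (nat_lit 2) (by decide +kernel) (ClAll.succ (ClAll.succ ClAll.zero n593) n594)

def n615 : Cl (O (nat_lit 5)) (R (nat_lit 14353))
    (p (nat_lit 0x119) (nat_lit 1) (p (nat_lit 0xc9) (nat_lit 0) (p (nat_lit 0x89) (nat_lit 1) (p (nat_lit 0x41) (nat_lit 0) (p (nat_lit 0x10a0b0a89089a) (nat_lit 0) (p (nat_lit 0x98a8a08881a) (nat_lit 0) (p (nat_lit 0x109088988079a) (nat_lit 0) (p (nat_lit 0x8880907871a) (nat_lit 0) (p (nat_lit 0x8000000000800080887068a) (nat_lit 0) (p (nat_lit 0x10888068602) (nat_lit 0) (p (nat_lit 0x807860582) (nat_lit 0) (p (nat_lit 0x10607058502) (nat_lit 0) (p (nat_lit 0x586850482) (nat_lit 0) (p (nat_lit 0x16000c) (nat_lit 0) (p (nat_lit 0x68612) (nat_lit 0) (p (nat_lit 0x50592) (nat_lit 0) (p (nat_lit 0x40512) (nat_lit 0) (p (nat_lit 0x50312) (nat_lit 0) (p (nat_lit 0x38292) (nat_lit 0) (p (nat_lit 0x28212) (nat_lit 0) (p (nat_lit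 0x38112) (nat_lit 0) (p (nat_lit 0x20092) (nat_lit 0) (p (nat_lit 0x10012) (nat_lit 0) pn))))))))))))))))))))))) :=
  Cl.node (nat_lit 0xc1) (nat_lit 2) (by decide +kernel) (ClAll.succ (ClAll.succ ClAll.zero n595) n596)

def n616 : Cl (O (nat_lit 5)) (R (nat_lit 14353))
    (p (nat_lit 0x109) (nat_lit 0) (p (nat_lit 0xc9) (nat_lit 1) (p (nat_lit 0x89) (nat_lit 1) (p (nat_lit 0x41) (nat_lit 0) (p (nat_lit 0x10a0b0a89089a) (nat_lit 0) (p (nat_lit 0x98a8a08881a) (nat_lit 0) (p (nat_lit 0x109088988079a) (nat_lit 0) (p (nat_lit 0x8880907871a) (nat_lit 0) (p (nat_lit 0x8000000000800080887068a) (nat_lit 0) (p (nat_lit 0x10888068602) (nat_lit 0) (p (nat_lit 0x807860582) (nat_lit 0) (p (nat_lit 0x10607058502) (nat_lit 0) (p (nat_lit 0x586850482) (nat_lit 0) (p (nat_lit 0x16000c) (nat_lit 0) (p (nat_lit 0x68612) (nat_lit 0) (p (nat_lit 0x50592) (nat_lit 0) (p (nat_lit 0x40512) (nat_lit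 0) (p (nat_lit 0x50312) (nat_lit 0) (p (nat_lit 0x38292) (nat_lit 0) (p (nat_lit 0x28212) (nat_lit 0) (p (nat_lit 0x38112) (nat_lit 0) (p (nat_lit 0x20092) (nat_lit 0) (p (nat_lit 0x10012) (nat_lit 0) pn))))))))))))))))))))))) :=
  Cl.node (nat_lit 0x101) (nat_lit 2) (by decide +kernel) (ClAll.succ (ClAll.succ ClAll.zero n597) s548)

def n617 : Cl (O (nat_lit 5)) (R (nat_lit 14353))
    (p (nat_lit 0x119) (nat_lit 0) (p (nat_lit 0xd1) (nat_lit 0) (p (nat_lit 0x81) (nat_lit 0) (p (nat_lit 0x41) (nat_lit 1) (p (nat_lit 0x10a0b0a89089a) (nat_lit 0) (p (nat_lit 0x98a8a08881a) (nat_lit 0) (p (nat_lit 0x109088988079a) (nat_lit 0) (p (nat_lit 0x8880907871a) (nat_lit 0) (p (nat_lit 0x8000000000800080887068a) (nat_lit 0) (p (nat_lit 0x10888068602) (nat_lit 0) (p (nat_lit 0x807860582) (nat_lit 0) (p (nat_lit 0x10607058502) (nat_lit 0) (p (nat_lit 0x586850482) (nat_lit 0) (p (nat_lit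 0x16000c) (nat_lit 0) (p (nat_lit 0x68612) (nat_lit 0) (p (nat_lit 0x50592) (nat_lit 0) (p (nat_lit 0x40512) (nat_lit 0) (p (nat_lit 0x50312) (nat_lit 0) (p (nat_lit 0x38292) (nat_lit 0) (p (nat_lit 0x28212) (nat_lit 0) (p (nat_lit 0x38112) (nat_lit 0) (p (nat_lit 0x20092) (nat_lit 0) (p (nat_lit 0x10012) (nat_lit 0) pn))))))))))))))))))))))) :=
  Cl.node (nat_lit 0x101) (nat_lit 2) (by decide +kernel) (ClAll.succ (ClAll.succ ClAll.zero n598) n599)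

def n618 : Cl (O (nat_lit 5)) (R (nat_lit 14353))
    (p (nat_lit 0x119) (nat_lit 1) (p (nat_lit 0xd1) (nat_lit 0) (p (nat_lit 0x81) (nat_lit 0) (p (nat_lit 0x41) (nat_lit 1) (p (nat_lit 0x10a0b0a89089a) (nat_lit 0) (p (nat_lit 0x98a8a08881a) (nat_lit 0) (p (nat_lit 0x109088988079a) (nat_lit 0) (p (nat_lit 0x8880907871a) (nat_lit 0) (p (nat_lit 0x8000000000800080887068a) (nat_lit 0) (p (nat_lit 0x10888068602) (nat_lit 0) (p (nat_lit 0x807860582) (nat_lit 0) (p (nat_lit 0x10607058502) (nat_lit 0) (p (nat_lit 0x586850482) (nat_lit 0) (p (nat_lit 0x16000c) (nat_lit 0) (p (nat_lit 0x68612) (nat_lit 0) (p (nat_lit 0x50592) (nat_lit 0) (p (nat_lit 0x40512) (nat_lit 0) (p (nat_lit 0x50312) (nat_lit 0) (p (nat_lit 0x38292) (nat_lit 0) (p (nat_lit 0x28212) (nat_lit 0) (p (nat_lit 0x38112) (nat_lit 0) (p (nat_lit 0x20092) (nat_lit 0) (p (nat_lit 0x10012) (nat_lit 0) pn)))))))))))))))))))))))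 :=
  Cl.node (nat_lit 0xc1) (nat_lit 2) (by decide +kernel) (ClAll.succ (ClAll.succ ClAll.zero n600) n601)

def n619 : Cl (O (nat_lit 5)) (R (nat_lit 14353))
    (p (nat_lit 0x111) (nat_lit 0) (p (nat_lit 0xd1) (nat_lit 1) (p (nat_lit 0x81) (nat_lit 0) (p (nat_lit 0x41) (nat_lit 1) (p (nat_lit 0x10a0b0a89089a) (nat_lit 0) (p (nat_lit 0x98a8a08881a) (nat_lit 0) (p (nat_lit 0x109088988079a) (nat_lit 0) (p (nat_lit 0x8880907871a) (nat_lit 0) (p (nat_lit 0x8000000000800080887068a) (nat_lit 0) (p (nat_lit 0x10888068602) (nat_lit 0) (p (nat_lit 0x807860582) (nat_lit 0) (p (nat_lit 0x10607058502) (nat_lit 0) (p (nat_lit 0x586850482) (nat_lit 0) (p (nat_lit 0x16000c) (nat_lit 0) (p (nat_lit 0x68612) (nat_lit 0) (p (nat_lit 0x50592) (nat_lit 0) (p (nat_lit 0x40512) (nat_lit 0) (p (nat_lit 0x50312) (nat_lit 0) (p (nat_lit 0x38292) (nat_lit 0) (p (nat_lit 0x28212) (nat_lit 0) (p (nat_lit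 0x38112) (nat_lit 0) (p (nat_lit 0x20092) (nat_lit 0) (p (nat_lit 0x10012) (nat_lit 0) pn))))))))))))))))))))))) :=
  Cl.node (nat_lit 0x101) (nat_lit 2) (by decide +kernel) (ClAll.succ (ClAll.succ ClAll.zero n602) n603)

def n620 : Cl (O (nat_lit 5)) (R (nat_lit 14353))
    (p (nat_lit 0x111) (nat_lit 1) (p (nat_lit 0xd1) (nat_lit 1) (p (nat_lit 0x81) (nat_lit 0) (p (nat_lit 0x41) (nat_lit 1) (p (nat_lit 0x10a0b0a89089a) (nat_lit 0) (p (nat_lit 0x98a8a08881a) (nat_lit 0) (p (nat_lit 0x109088988079a) (nat_lit 0) (p (nat_lit 0x8880907871a) (nat_lit 0) (p (nat_lit 0x8000000000800080887068a) (nat_lit 0) (p (nat_lit 0x10888068602) (nat_lit 0) (p (nat_lit 0x807860582) (nat_lit 0) (p (nat_lit 0x10607058502) (nat_lit 0) (p (nat_lit 0x586850482) (nat_lit 0) (p (nat_lit 0x16000c) (nat_lit 0) (p (nat_lit 0x68612) (nat_lit 0) (p (nat_lit 0x50592) (nat_lit 0) (p (nat_lit 0x40512) (nat_lit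 0) (p (nat_lit 0x50312) (nat_lit 0) (p (nat_lit 0x38292) (nat_lit 0) (p (nat_lit 0x28212) (nat_lit 0) (p (nat_lit 0x38112) (nat_lit 0) (p (nat_lit 0x20092) (nat_lit 0) (p (nat_lit 0x10012) (nat_lit 0) pn))))))))))))))))))))))) :=
  Cl.node (nat_lit 0x89) (nat_lit 2) (by decide +kernel) (ClAll.succ (ClAll.succ ClAll.zero s1091) n604)

def n621 : Cl (O (nat_lit 5)) (R (nat_lit 14353))
    (p (nat_lit 0x119) (nat_lit 0) (p (nat_lit 0xc1) (nat_lit 0) (p (nat_lit 0x81) (nat_lit 1) (p (nat_lit 0x41) (nat_lit 1) (p (nat_lit 0x10a0b0a89089a) (nat_lit 0) (p (nat_lit 0x98a8a08881a) (nat_lit 0) (p (nat_lit 0x109088988079a) (nat_lit 0) (p (nat_lit 0x8880907871a) (nat_lit 0) (p (nat_lit 0x8000000000800080887068a) (nat_lit 0) (p (nat_lit 0x10888068602) (nat_lit 0) (p (nat_lit 0x807860582) (nat_lit 0) (p (nat_lit 0x10607058502) (nat_lit 0) (p (nat_lit 0x586850482) (nat_lit 0) (p (nat_lit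 0x16000c) (nat_lit 0) (p (nat_lit 0x68612) (nat_lit 0) (p (nat_lit 0x50592) (nat_lit 0) (p (nat_lit 0x40512) (nat_lit 0) (p (nat_lit 0x50312) (nat_lit 0) (p (nat_lit 0x38292) (nat_lit 0) (p (nat_lit 0x28212) (nat_lit 0) (p (nat_lit 0x38112) (nat_lit 0) (p (nat_lit 0x20092) (nat_lit 0) (p (nat_lit 0x10012) (nat_lit 0) pn))))))))))))))))))))))) :=
  Cl.node (nat_lit 0x101) (nat_lit 2) (by decide +kernel) (ClAll.succ (ClAll.succ ClAll.zero n605) n606)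

def n622 : Cl (O (nat_lit 5)) (R (nat_lit 14353))
    (p (nat_lit 0x119) (nat_lit 1) (p (nat_lit 0xc1) (nat_lit 0) (p (nat_lit 0x81) (nat_lit 1) (p (nat_lit 0x41) (nat_lit 1) (p (nat_lit 0x10a0b0a89089a) (nat_lit 0) (p (nat_lit 0x98a8a08881a) (nat_lit 0) (p (nat_lit 0x109088988079a) (nat_lit 0) (p (nat_lit 0x8880907871a) (nat_lit 0) (p (nat_lit 0x8000000000800080887068a) (nat_lit 0) (p (nat_lit 0x10888068602) (nat_lit 0) (p (nat_lit 0x807860582) (nat_lit 0) (p (nat_lit 0x10607058502) (nat_lit 0) (p (nat_lit 0x586850482) (nat_lit 0) (p (nat_lit 0x16000c) (nat_lit 0) (p (nat_lit 0x68612) (nat_lit 0) (p (nat_lit 0x50592) (nat_lit 0) (p (nat_lit 0x40512) (nat_lit 0) (p (nat_lit 0x50312) (nat_lit 0) (p (nat_lit 0x38292) (nat_lit 0) (p (nat_lit 0x28212) (nat_lit 0) (p (nat_lit 0x38112) (nat_lit 0) (p (nat_lit 0x20092) (nat_lit 0) (p (nat_lit 0x10012) (nat_lit 0) pn)))))))))))))))))))))))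 :=
  Cl.node (nat_lit 0xc9) (nat_lit 2) (by decide +kernel) (ClAll.succ (ClAll.succ ClAll.zero n607) n608)

def n623 : Cl (O (nat_lit 5)) (R (nat_lit 14353))
    (p (nat_lit 0x101) (nat_lit 0) (p (nat_lit 0xc1) (nat_lit 1) (p (nat_lit 0x81) (nat_lit 1) (p (nat_lit 0x41) (nat_lit 1) (p (nat_lit 0x10a0b0a89089a) (nat_lit 0) (p (nat_lit 0x98a8a08881a) (nat_lit 0) (p (nat_lit 0x109088988079a) (nat_lit 0) (p (nat_lit 0x8880907871a) (nat_lit 0) (p (nat_lit 0x8000000000800080887068a) (nat_lit 0) (p (nat_lit 0x10888068602) (nat_lit 0) (p (nat_lit 0x807860582) (nat_lit 0) (p (nat_lit 0x10607058502) (nat_lit 0) (p (nat_lit 0x586850482) (nat_lit 0) (p (nat_lit 0x16000c) (nat_lit 0) (p (nat_lit 0x68612) (nat_lit 0) (p (nat_lit 0x50592) (nat_lit 0) (p (nat_lit 0x40512) (nat_lit 0) (p (nat_lit 0x50312) (nat_lit 0) (p (nat_lit 0x38292) (nat_lit 0) (p (nat_lit 0x28212) (nat_lit 0) (p (nat_lit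 0x38112) (nat_lit 0) (p (nat_lit 0x20092) (nat_lit 0) (p (nat_lit 0x10012) (nat_lit 0) pn))))))))))))))))))))))) :=
  Cl.node (nat_lit 0x109) (nat_lit 2) (by decide +kernel) (ClAll.succ (ClAll.succ ClAll.zero n609) s1395)

def n624 : Cl (O (nat_lit 5)) (R (nat_lit 14353))
    (p (nat_lit 0xd1) (nat_lit 0) (p (nat_lit 0x89) (nat_lit 0) (p (nat_lit 0x41) (nat_lit 0) (p (nat_lit 0x10a0b0a89089a) (nat_lit 0) (p (nat_lit 0x98a8a08881a) (nat_lit 0) (p (nat_lit 0x109088988079a) (nat_lit 0) (p (nat_lit 0x8880907871a) (nat_lit 0) (p (nat_lit 0x8000000000800080887068a) (nat_lit 0) (p (nat_lit 0x10888068602) (nat_lit 0) (p (nat_lit 0x807860582) (nat_lit 0) (p (nat_lit 0x10607058502) (nat_lit 0) (p (nat_lit 0x586850482) (nat_lit 0) (p (nat_lit 0x16000c) (nat_lit 0) (p (nat_lit 0x68612) (nat_lit 0) (p (nat_lit 0x50592) (nat_lit 0) (p (nat_lit 0x40512) (nat_lit 0) (p (nat_lit 0x50312)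 (nat_lit 0) (p (nat_lit 0x38292) (nat_lit 0) (p (nat_lit 0x28212) (nat_lit 0) (p (nat_lit 0x38112) (nat_lit 0) (p (nat_lit 0x20092) (nat_lit 0) (p (nat_lit 0x10012) (nat_lit 0) pn)))))))))))))))))))))) :=
  Cl.node (nat_lit 0x119) (nat_lit 2) (by decide +kernel) (ClAll.succ (ClAll.succ ClAll.zero n610) n611)

def n625 : Cl (O (nat_lit 5)) (R (nat_lit 14353))
    (p (nat_lit 0xd1) (nat_lit 1) (p (nat_lit 0x89) (nat_lit 0) (p (nat_lit 0x41) (nat_lit 0) (p (nat_lit 0x10a0b0a89089a) (nat_lit 0) (p (nat_lit 0x98a8a08881a) (nat_lit 0) (p (nat_lit 0x109088988079a) (nat_lit 0) (p (nat_lit 0x8880907871a) (nat_lit 0) (p (nat_lit 0x8000000000800080887068a) (nat_lit 0) (p (nat_lit 0x10888068602) (nat_lit 0) (p (nat_lit 0x807860582) (nat_lit 0) (p (nat_lit 0x10607058502) (nat_lit 0) (p (nat_lit 0x586850482) (nat_lit 0) (p (nat_lit 0x16000c) (nat_lit 0) (p (nat_lit 0x68612) (nat_lit 0)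 (p (nat_lit 0x50592) (nat_lit 0) (p (nat_lit 0x40512) (nat_lit 0) (p (nat_lit 0x50312) (nat_lit 0) (p (nat_lit 0x38292) (nat_lit 0) (p (nat_lit 0x28212) (nat_lit 0) (p (nat_lit 0x38112) (nat_lit 0) (p (nat_lit 0x20092) (nat_lit 0) (p (nat_lit 0x10012) (nat_lit 0) pn)))))))))))))))))))))) :=
  Cl.node (nat_lit 0x111) (nat_lit 2) (by decide +kernel) (ClAll.succ (ClAll.succ ClAll.zero n612) n613)

def n626 : Cl (O (nat_lit 5)) (R (nat_lit 14353))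
    (p (nat_lit 0xc9) (nat_lit 0) (p (nat_lit 0x89) (nat_lit 1) (p (nat_lit 0x41) (nat_lit 0) (p (nat_lit 0x10a0b0a89089a) (nat_lit 0) (p (nat_lit 0x98a8a08881a) (nat_lit 0) (p (nat_lit 0x109088988079a) (nat_lit 0) (p (nat_lit 0x8880907871a) (nat_lit 0) (p (nat_lit 0x8000000000800080887068a) (nat_lit 0) (p (nat_lit 0x10888068602) (nat_lit 0) (p (nat_lit 0x807860582) (nat_lit 0) (p (nat_lit 0x10607058502) (nat_lit 0) (p (nat_lit 0x586850482) (nat_lit 0) (p (nat_lit 0x16000c) (nat_lit 0) (p (nat_lit 0x68612) (nat_lit 0) (p (nat_lit 0x50592) (nat_lit 0) (p (nat_lit 0x40512) (nat_lit 0) (p (nat_lit 0x50312) (nat_lit 0) (p (nat_lit 0x38292) (nat_lit 0) (p (nat_lit 0x28212) (nat_lit 0) (p (nat_lit 0x38112) (nat_lit 0) (p (nat_lit 0x20092) (nat_lit 0) (p (nat_lit 0x10012) (nat_lit 0) pn)))))))))))))))))))))) :=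
  Cl.node (nat_lit 0x119) (nat_lit 2) (by decide +kernel) (ClAll.succ (ClAll.succ ClAll.zero n614) n615)

def n627 : Cl (O (nat_lit 5)) (R (nat_lit 14353))
    (p (nat_lit 0xc9) (nat_lit 1) (p (nat_lit 0x89) (nat_lit 1) (p (nat_lit 0x41) (nat_lit 0) (p (nat_lit 0x10a0b0a89089a) (nat_lit 0) (p (nat_lit 0x98a8a08881a) (nat_lit 0) (p (nat_lit 0x109088988079a) (nat_lit 0) (p (nat_lit 0x8880907871a) (nat_lit 0) (p (nat_lit 0x8000000000800080887068a) (nat_lit 0) (p (nat_lit 0x10888068602) (nat_lit 0) (p (nat_lit 0x807860582) (nat_lit 0) (p (nat_lit 0x10607058502) (nat_lit 0) (p (nat_lit 0x586850482) (nat_lit 0) (p (nat_lit 0x16000c) (nat_lit 0) (p (nat_lit 0x68612) (nat_lit 0) (p (nat_lit 0x50592) (nat_lit 0) (p (nat_lit 0x40512) (nat_lit 0) (p (nat_lit 0x50312) (nat_lit 0) (p (nat_lit 0x38292) (nat_lit 0) (p (nat_lit 0x28212) (nat_lit 0) (p (nat_lit 0x38112) (nat_lit 0) (p (nat_lit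 0x20092) (nat_lit 0) (p (nat_lit 0x10012) (nat_lit 0) pn)))))))))))))))))))))) :=
  Cl.node (nat_lit 0x109) (nat_lit 2) (by decide +kernel) (ClAll.succ (ClAll.succ ClAll.zero n616) s549)

def n628 : Cl (O (nat_lit 5)) (R (nat_lit 14353))
    (p (nat_lit 0xd1) (nat_lit 0) (p (nat_lit 0x81) (nat_lit 0) (p (nat_lit 0x41) (nat_lit 1) (p (nat_lit 0x10a0b0a89089a) (nat_lit 0) (p (nat_lit 0x98a8a08881a) (nat_lit 0) (p (nat_lit 0x109088988079a) (nat_lit 0) (p (nat_lit 0x8880907871a) (nat_lit 0) (p (nat_lit 0x8000000000800080887068a) (nat_lit 0) (p (nat_lit 0x10888068602) (nat_lit 0) (p (nat_lit 0x807860582) (nat_lit 0) (p (nat_lit 0x10607058502) (nat_lit 0) (p (nat_lit 0x586850482) (nat_lit 0) (p (nat_lit 0x16000c) (nat_lit 0) (p (nat_lit 0x68612) (nat_lit 0) (p (nat_lit 0x50592) (nat_lit 0) (p (nat_lit 0x40512) (nat_lit 0) (p (nat_lit 0x50312) (nat_lit 0) (p (nat_lit 0x38292) (nat_lit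 0) (p (nat_lit 0x28212) (nat_lit 0) (p (nat_lit 0x38112) (nat_lit 0) (p (nat_lit 0x20092) (nat_lit 0) (p (nat_lit 0x10012) (nat_lit 0) pn)))))))))))))))))))))) :=
  Cl.node (nat_lit 0x119) (nat_lit 2) (by decide +kernel) (ClAll.succ (ClAll.succ ClAll.zero n617) n618)

def n629 : Cl (O (nat_lit 5)) (R (nat_lit 14353))
    (p (nat_lit 0xd1) (nat_lit 1) (p (nat_lit 0x81) (nat_lit 0) (p (nat_lit 0x41) (nat_lit 1) (p (nat_lit 0x10a0b0a89089a) (nat_lit 0) (p (nat_lit 0x98a8a08881a) (nat_lit 0) (p (nat_lit 0x109088988079a) (nat_lit 0) (p (nat_lit 0x8880907871a) (nat_lit 0) (p (nat_lit 0x8000000000800080887068a) (nat_lit 0) (p (nat_lit 0x10888068602) (nat_lit 0) (p (nat_lit 0x807860582) (nat_lit 0) (p (nat_lit 0x10607058502) (nat_lit 0) (p (nat_lit 0x586850482) (nat_lit 0) (p (nat_lit 0x16000c) (nat_lit 0) (p (nat_lit 0x68612) (nat_lit 0) (p (nat_lit 0x50592) (nat_lit 0) (p (nat_lit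 0x40512) (nat_lit 0) (p (nat_lit 0x50312) (nat_lit 0) (p (nat_lit 0x38292) (nat_lit 0) (p (nat_lit 0x28212) (nat_lit 0) (p (nat_lit 0x38112) (nat_lit 0) (p (nat_lit 0x20092) (nat_lit 0) (p (nat_lit 0x10012) (nat_lit 0) pn)))))))))))))))))))))) :=
  Cl.node (nat_lit 0x111) (nat_lit 2) (by decide +kernel) (ClAll.succ (ClAll.succ ClAll.zero n619) n620)

def n630 : Cl (O (nat_lit 5)) (R (nat_lit 14353))
    (p (nat_lit 0xc1) (nat_lit 0) (p (nat_lit 0x81) (nat_lit 1) (p (nat_lit 0x41) (nat_lit 1) (p (nat_lit 0x10a0b0a89089a) (nat_lit 0) (p (nat_lit 0x98a8a08881a) (nat_lit 0) (p (nat_lit 0x109088988079a) (nat_lit 0) (p (nat_lit 0x8880907871a) (nat_lit 0) (p (nat_lit 0x8000000000800080887068a) (nat_lit 0) (p (nat_lit 0x10888068602) (nat_lit 0) (p (nat_lit 0x807860582) (nat_lit 0) (p (nat_lit 0x10607058502) (nat_lit 0) (p (nat_lit 0x586850482) (nat_lit 0) (p (nat_lit 0x16000c) (nat_lit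 0) (p (nat_lit 0x68612) (nat_lit 0) (p (nat_lit 0x50592) (nat_lit 0) (p (nat_lit 0x40512) (nat_lit 0) (p (nat_lit 0x50312) (nat_lit 0) (p (nat_lit 0x38292) (nat_lit 0) (p (nat_lit 0x28212) (nat_lit 0) (p (nat_lit 0x38112) (nat_lit 0) (p (nat_lit 0x20092) (nat_lit 0) (p (nat_lit 0x10012) (nat_lit 0) pn)))))))))))))))))))))) :=
  Cl.node (nat_lit 0x119) (nat_lit 2) (by decide +kernel) (ClAll.succ (ClAll.succ ClAll.zero n621) n622)

def n631 : Cl (O (nat_lit 5)) (R (nat_lit 14353))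
    (p (nat_lit 0xc1) (nat_lit 1) (p (nat_lit 0x81) (nat_lit 1) (p (nat_lit 0x41) (nat_lit 1) (p (nat_lit 0x10a0b0a89089a) (nat_lit 0) (p (nat_lit 0x98a8a08881a) (nat_lit 0) (p (nat_lit 0x109088988079a) (nat_lit 0) (p (nat_lit 0x8880907871a) (nat_lit 0) (p (nat_lit 0x8000000000800080887068a) (nat_lit 0) (p (nat_lit 0x10888068602) (nat_lit 0) (p (nat_lit 0x807860582) (nat_lit 0) (p (nat_lit 0x10607058502) (nat_lit 0) (p (nat_lit 0x586850482) (nat_lit 0) (p (nat_lit 0x16000c) (nat_lit 0) (p (nat_lit 0x68612) (nat_lit 0) (p (nat_lit 0x50592) (nat_lit 0) (p (nat_lit 0x40512) (nat_lit 0) (p (nat_lit 0x50312) (nat_lit 0) (p (nat_lit 0x38292) (nat_lit 0) (p (nat_lit 0x28212) (nat_lit 0) (p (nat_lit 0x38112) (nat_lit 0) (p (nat_lit 0x20092) (nat_lit 0) (p (nat_lit 0x10012) (nat_lit 0) pn)))))))))))))))))))))) :=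
  Cl.node (nat_lit 0x101) (nat_lit 2) (by decide +kernel) (ClAll.succ (ClAll.succ ClAll.zero n623) s1396)

def n632 : Cl (O (nat_lit 5)) (R (nat_lit 14353))
    (p (nat_lit 0x89) (nat_lit 0) (p (nat_lit 0x41) (nat_lit 0) (p (nat_lit 0x10a0b0a89089a) (nat_lit 0) (p (nat_lit 0x98a8a08881a) (nat_lit 0) (p (nat_lit 0x109088988079a) (nat_lit 0) (p (nat_lit 0x8880907871a) (nat_lit 0) (p (nat_lit 0x8000000000800080887068a) (nat_lit 0) (p (nat_lit 0x10888068602) (nat_lit 0) (p (nat_lit 0x807860582) (nat_lit 0) (p (nat_lit 0x10607058502) (nat_lit 0) (p (nat_lit 0x586850482) (nat_lit 0) (p (nat_lit 0x16000c) (nat_lit 0) (p (nat_lit 0x68612) (nat_lit 0) (p (nat_lit 0x50592) (nat_lit 0) (p (nat_lit 0x40512) (nat_lit 0) (p (nat_lit 0x50312) (nat_lit 0) (p (nat_lit 0x38292) (nat_lit 0) (p (nat_lit 0x28212) (nat_lit 0) (p (nat_lit 0x38112) (nat_lit 0) (p (nat_lit 0x20092) (nat_lit 0) (p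 (nat_lit 0x10012) (nat_lit 0) pn))))))))))))))))))))) :=
  Cl.node (nat_lit 0xd1) (nat_lit 2) (by decide +kernel) (ClAll.succ (ClAll.succ ClAll.zero n624) n625)

def n633 : Cl (O (nat_lit 5)) (R (nat_lit 14353))
    (p (nat_lit 0x89) (nat_lit 1) (p (nat_lit 0x41) (nat_lit 0) (p (nat_lit 0x10a0b0a89089a) (nat_lit 0) (p (nat_lit 0x98a8a08881a) (nat_lit 0) (p (nat_lit 0x109088988079a) (nat_lit 0) (p (nat_lit 0x8880907871a) (nat_lit 0) (p (nat_lit 0x8000000000800080887068a) (nat_lit 0) (p (nat_lit 0x10888068602) (nat_lit 0) (p (nat_lit 0x807860582) (nat_lit 0) (p (nat_lit 0x10607058502) (nat_lit 0) (p (nat_lit 0x586850482) (nat_lit 0) (p (nat_lit 0x16000c) (nat_lit 0) (p (nat_lit 0x68612) (nat_lit 0) (p (nat_lit 0x50592) (nat_lit 0) (p (nat_lit 0x40512) (nat_lit 0) (p (nat_lit 0x50312) (nat_lit 0) (p (nat_lit 0x38292) (nat_lit 0) (p (nat_lit 0x28212) (nat_lit 0) (p (nat_lit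 0x38112) (nat_lit 0) (p (nat_lit 0x20092) (nat_lit 0) (p (nat_lit 0x10012) (nat_lit 0) pn))))))))))))))))))))) :=
  Cl.node (nat_lit 0xc9) (nat_lit 2) (by decide +kernel) (ClAll.succ (ClAll.succ ClAll.zero n626) n627)

def n634 : Cl (O (nat_lit 5)) (R (nat_lit 14353))
    (p (nat_lit 0x81) (nat_lit 0) (p (nat_lit 0x41) (nat_lit 1) (p (nat_lit 0x10a0b0a89089a) (nat_lit 0) (p (nat_lit 0x98a8a08881a) (nat_lit 0) (p (nat_lit 0x109088988079a) (nat_lit 0) (p (nat_lit 0x8880907871a) (nat_lit 0) (p (nat_lit 0x8000000000800080887068a) (nat_lit 0) (p (nat_lit 0x10888068602) (nat_lit 0) (p (nat_lit 0x807860582) (nat_lit 0) (p (nat_lit 0x10607058502) (nat_lit 0) (p (nat_lit 0x586850482) (nat_lit 0) (p (nat_lit 0x16000c) (nat_lit 0) (p (nat_lit 0x68612) (nat_lit 0) (p (nat_lit 0x50592) (nat_lit 0) (p (nat_lit 0x40512) (nat_lit 0) (p (nat_lit 0x50312) (nat_lit 0) (p (nat_lit 0x38292)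 (nat_lit 0) (p (nat_lit 0x28212) (nat_lit 0) (p (nat_lit 0x38112) (nat_lit 0) (p (nat_lit 0x20092) (nat_lit 0) (p (nat_lit 0x10012) (nat_lit 0) pn))))))))))))))))))))) :=
  Cl.node (nat_lit 0xd1) (nat_lit 2) (by decide +kernel) (ClAll.succ (ClAll.succ ClAll.zero n628) n629)

def n635 : Cl (O (nat_lit 5)) (R (nat_lit 14353))
    (p (nat_lit 0x81) (nat_lit 1) (p (nat_lit 0x41) (nat_lit 1) (p (nat_lit 0x10a0b0a89089a) (nat_lit 0) (p (nat_lit 0x98a8a08881a) (nat_lit 0) (p (nat_lit 0x109088988079a) (nat_lit 0) (p (nat_lit 0x8880907871a) (nat_lit 0) (p (nat_lit 0x8000000000800080887068a) (nat_lit 0) (p (nat_lit 0x10888068602) (nat_lit 0) (p (nat_lit 0x807860582) (nat_lit 0) (p (nat_lit 0x10607058502) (nat_lit 0) (p (nat_lit 0x586850482) (nat_lit 0) (p (nat_lit 0x16000c) (nat_lit 0) (p (nat_lit 0x68612) (nat_lit 0) (p (nat_lit 0x50592) (nat_lit 0) (p (nat_lit 0x40512) (nat_lit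 0) (p (nat_lit 0x50312) (nat_lit 0) (p (nat_lit 0x38292) (nat_lit 0) (p (nat_lit 0x28212) (nat_lit 0) (p (nat_lit 0x38112) (nat_lit 0) (p (nat_lit 0x20092) (nat_lit 0) (p (nat_lit 0x10012) (nat_lit 0) pn))))))))))))))))))))) :=
  Cl.node (nat_lit 0xc1) (nat_lit 2) (by decide +kernel) (ClAll.succ (ClAll.succ ClAll.zero n630) n631)

def n636 : Cl (O (nat_lit 5)) (R (nat_lit 14353))
    (p (nat_lit 0x41) (nat_lit 0) (p (nat_lit 0x10a0b0a89089a) (nat_lit 0) (p (nat_lit 0x98a8a08881a) (nat_lit 0) (p (nat_lit 0x109088988079a) (nat_lit 0) (p (nat_lit 0x8880907871a) (nat_lit 0) (p (nat_lit 0x8000000000800080887068a) (nat_lit 0) (p (nat_lit 0x10888068602) (nat_lit 0) (p (nat_lit 0x807860582) (nat_lit 0) (p (nat_lit 0x10607058502) (nat_lit 0) (p (nat_lit 0x586850482) (nat_lit 0) (p (nat_lit 0x16000c) (nat_lit 0) (p (nat_lit 0x68612) (nat_lit 0) (p (nat_lit 0x50592) (nat_lit 0) (p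 (nat_lit 0x40512) (nat_lit 0) (p (nat_lit 0x50312) (nat_lit 0) (p (nat_lit 0x38292) (nat_lit 0) (p (nat_lit 0x28212) (nat_lit 0) (p (nat_lit 0x38112) (nat_lit 0) (p (nat_lit 0x20092) (nat_lit 0) (p (nat_lit 0x10012) (nat_lit 0) pn)))))))))))))))))))) :=
  Cl.node (nat_lit 0x89) (nat_lit 2) (by decide +kernel) (ClAll.succ (ClAll.succ ClAll.zero n632) n633)

def n637 : Cl (O (nat_lit 5)) (R (nat_lit 14353))
    (p (nat_lit 0x41) (nat_lit 1) (p (nat_lit 0x10a0b0a89089a) (nat_lit 0) (p (nat_lit 0x98a8a08881a) (nat_lit 0) (p (nat_lit 0x109088988079a) (nat_lit 0) (p (nat_lit 0x8880907871a) (nat_lit 0) (p (nat_lit 0x8000000000800080887068a) (nat_lit 0) (p (nat_lit 0x10888068602) (nat_lit 0) (p (nat_lit 0x807860582) (nat_lit 0) (p (nat_lit 0x10607058502) (nat_lit 0) (p (nat_lit 0x586850482) (nat_lit 0) (p (nat_lit 0x16000c) (nat_lit 0) (p (nat_lit 0x68612) (nat_lit 0) (p (nat_lit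 0x50592) (nat_lit 0) (p (nat_lit 0x40512) (nat_lit 0) (p (nat_lit 0x50312) (nat_lit 0) (p (nat_lit 0x38292) (nat_lit 0) (p (nat_lit 0x28212) (nat_lit 0) (p (nat_lit 0x38112) (nat_lit 0) (p (nat_lit 0x20092) (nat_lit 0) (p (nat_lit 0x10012) (nat_lit 0) pn)))))))))))))))))))) :=
  Cl.node (nat_lit 0x81) (nat_lit 2) (by decide +kernel) (ClAll.succ (ClAll.succ ClAll.zero n634) n635)

def n638 : Cl (O (nat_lit 5)) (R (nat_lit 14353))
    (p (nat_lit 0x10a0b0a89089a) (nat_lit 0) (p (nat_lit 0x98a8a08881a) (nat_lit 0) (p (nat_lit 0x109088988079a) (nat_lit 0) (p (nat_lit 0x8880907871a) (nat_lit 0) (p (nat_lit 0x8000000000800080887068a) (nat_lit 0) (p (nat_lit 0x10888068602) (nat_lit 0) (p (nat_lit 0x807860582) (nat_lit 0) (p (nat_lit 0x10607058502) (nat_lit 0) (p (nat_lit 0x586850482) (nat_lit 0) (p (nat_lit 0x16000c) (nat_lit 0) (p (nat_lit 0x68612) (nat_lit 0) (p (nat_lit 0x50592)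 (nat_lit 0) (p (nat_lit 0x40512) (nat_lit 0) (p (nat_lit 0x50312) (nat_lit 0) (p (nat_lit 0x38292) (nat_lit 0) (p (nat_lit 0x28212) (nat_lit 0) (p (nat_lit 0x38112) (nat_lit 0) (p (nat_lit 0x20092) (nat_lit 0) (p (nat_lit 0x10012) (nat_lit 0) pn))))))))))))))))))) :=
  Cl.node (nat_lit 0x41) (nat_lit 2) (by decide +kernel) (ClAll.succ (ClAll.succ ClAll.zero n636) n637)

def n639 : Cl (O (nat_lit 5)) (R (nat_lit 14353))
    (p (nat_lit 0x98a8a08881a) (nat_lit 0) (p (nat_lit 0x109088988079a) (nat_lit 0) (p (nat_lit 0x8880907871a) (nat_lit 0) (p (nat_lit 0x8000000000800080887068a) (nat_lit 0) (p (nat_lit 0x10888068602) (nat_lit 0) (p (nat_lit 0x807860582) (nat_lit 0) (p (nat_lit 0x10607058502) (nat_lit 0) (p (nat_lit 0x586850482) (nat_lit 0) (p (nat_lit 0x16000c) (nat_lit 0) (p (nat_lit 0x68612) (nat_lit 0) (p (nat_lit 0x50592) (nat_lit 0) (p (nat_lit 0x40512) (nat_lit 0) (p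 (nat_lit 0x50312) (nat_lit 0) (p (nat_lit 0x38292) (nat_lit 0) (p (nat_lit 0x28212) (nat_lit 0) (p (nat_lit 0x38112) (nat_lit 0) (p (nat_lit 0x20092) (nat_lit 0) (p (nat_lit 0x10012) (nat_lit 0) pn)))))))))))))))))) :=
  Cl.node (nat_lit 0x10a0b0a89089a) (nat_lit 1) (by decide +kernel) (ClAll.succ ClAll.zero n638)

def n640 : Cl (O (nat_lit 5)) (R (nat_lit 14353))
    (p (nat_lit 0x109088988079a) (nat_lit 0) (p (nat_lit 0x8880907871a) (nat_lit 0) (p (nat_lit 0x8000000000800080887068a) (nat_lit 0) (p (nat_lit 0x10888068602) (nat_lit 0) (p (nat_lit 0x807860582) (nat_lit 0) (p (nat_lit 0x10607058502) (nat_lit 0) (p (nat_lit 0x586850482) (nat_lit 0) (p (nat_lit 0x16000c) (nat_lit 0) (p (nat_lit 0x68612) (nat_lit 0) (p (nat_lit 0x50592) (nat_lit 0) (p (nat_lit 0x40512) (nat_lit 0) (p (nat_lit 0x50312) (nat_lit 0) (p (nat_lit 0x38292) (nat_lit 0) (p (nat_lit 0x28212) (nat_lit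 0) (p (nat_lit 0x38112) (nat_lit 0) (p (nat_lit 0x20092) (nat_lit 0) (p (nat_lit 0x10012) (nat_lit 0) pn))))))))))))))))) :=
  Cl.node (nat_lit 0x98a8a08881a) (nat_lit 1) (by decide +kernel) (ClAll.succ ClAll.zero n639)

def n641 : Cl (O (nat_lit 5)) (R (nat_lit 14353))
    (p (nat_lit 0x8880907871a) (nat_lit 0) (p (nat_lit 0x8000000000800080887068a) (nat_lit 0) (p (nat_lit 0x10888068602) (nat_lit 0) (p (nat_lit 0x807860582) (nat_lit 0) (p (nat_lit 0x10607058502) (nat_lit 0) (p (nat_lit 0x586850482) (nat_lit 0) (p (nat_lit 0x16000c) (nat_lit 0) (p (nat_lit 0x68612) (nat_lit 0) (p (nat_lit 0x50592) (nat_lit 0) (p (nat_lit 0x40512) (nat_lit 0) (p (nat_lit 0x50312) (nat_lit 0) (p (nat_lit 0x38292) (nat_lit 0) (p (nat_lit 0x28212) (nat_lit 0) (p (nat_lit 0x38112) (nat_lit 0) (p (nat_lit 0x20092) (nat_lit 0) (p (nat_lit 0x10012) (nat_lit 0) pn)))))))))))))))) :=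
  Cl.node (nat_lit 0x109088988079a) (nat_lit 1) (by decide +kernel) (ClAll.succ ClAll.zero n640)

def n642 : Cl (O (nat_lit 5)) (R (nat_lit 14353))
    (p (nat_lit 0x8000000000800080887068a) (nat_lit 0) (p (nat_lit 0x10888068602) (nat_lit 0) (p (nat_lit 0x807860582) (nat_lit 0) (p (nat_lit 0x10607058502) (nat_lit 0) (p (nat_lit 0x586850482) (nat_lit 0) (p (nat_lit 0x16000c) (nat_lit 0) (p (nat_lit 0x68612) (nat_lit 0) (p (nat_lit 0x50592) (nat_lit 0) (p (nat_lit 0x40512) (nat_lit 0) (p (nat_lit 0x50312) (nat_lit 0) (p (nat_lit 0x38292) (nat_lit 0) (p (nat_lit 0x28212) (nat_lit 0) (p (nat_lit 0x38112) (nat_lit 0) (p (nat_lit 0x20092) (nat_lit 0) (p (nat_lit 0x10012) (nat_lit 0) pn))))))))))))))) :=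
  Cl.node (nat_lit 0x8880907871a) (nat_lit 1) (by decide +kernel) (ClAll.succ ClAll.zero n641)

def n643 : Cl (O (nat_lit 5)) (R (nat_lit 14353))
    (p (nat_lit 0x10888068602) (nat_lit 0) (p (nat_lit 0x807860582) (nat_lit 0) (p (nat_lit 0x10607058502) (nat_lit 0) (p (nat_lit 0x586850482) (nat_lit 0) (p (nat_lit 0x16000c) (nat_lit 0) (p (nat_lit 0x68612) (nat_lit 0) (p (nat_lit 0x50592) (nat_lit 0) (p (nat_lit 0x40512) (nat_lit 0) (p (nat_lit 0x50312) (nat_lit 0) (p (nat_lit 0x38292) (nat_lit 0) (p (nat_lit 0x28212) (nat_lit 0) (p (nat_lit 0x38112) (nat_lit 0) (p (nat_lit 0x20092) (nat_lit 0) (p (nat_lit 0x10012) (nat_lit 0) pn)))))))))))))) :=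
  Cl.node (nat_lit 0x8000000000800080887068a) (nat_lit 1) (by decide +kernel) (ClAll.succ ClAll.zero n642)

def n644 : Cl (O (nat_lit 5)) (R (nat_lit 14353))
    (p (nat_lit 0x807860582) (nat_lit 0) (p (nat_lit 0x10607058502) (nat_lit 0) (p (nat_lit 0x586850482) (nat_lit 0) (p (nat_lit 0x16000c) (nat_lit 0) (p (nat_lit 0x68612) (nat_lit 0) (p (nat_lit 0x50592) (nat_lit 0) (p (nat_lit 0x40512) (nat_lit 0) (p (nat_lit 0x50312) (nat_lit 0) (p (nat_lit 0x38292) (nat_lit 0) (p (nat_lit 0x28212) (nat_lit 0) (p (nat_lit 0x38112) (nat_lit 0) (p (nat_lit 0x20092) (nat_lit 0) (p (nat_lit 0x10012) (nat_lit 0) pn))))))))))))) :=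
  Cl.node (nat_lit 0x10888068602) (nat_lit 1) (by decide +kernel) (ClAll.succ ClAll.zero n643)

def n645 : Cl (O (nat_lit 5)) (R (nat_lit 14353))
    (p (nat_lit 0x10607058502) (nat_lit 0) (p (nat_lit 0x586850482) (nat_lit 0) (p (nat_lit 0x16000c) (nat_lit 0) (p (nat_lit 0x68612) (nat_lit 0) (p (nat_lit 0x50592) (nat_lit 0) (p (nat_lit 0x40512) (nat_lit 0) (p (nat_lit 0x50312) (nat_lit 0) (p (nat_lit 0x38292) (nat_lit 0) (p (nat_lit 0x28212) (nat_lit 0) (p (nat_lit 0x38112) (nat_lit 0) (p (nat_lit 0x20092) (nat_lit 0) (p (nat_lit 0x10012) (nat_lit 0) pn)))))))))))) :=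
  Cl.node (nat_lit 0x807860582) (nat_lit 1) (by decide +kernel) (ClAll.succ ClAll.zero n644)

def n646 : Cl (O (nat_lit 5)) (R (nat_lit 14353))
    (p (nat_lit 0x586850482) (nat_lit 0) (p (nat_lit 0x16000c) (nat_lit 0) (p (nat_lit 0x68612) (nat_lit 0) (p (nat_lit 0x50592) (nat_lit 0) (p (nat_lit 0x40512) (nat_lit 0) (p (nat_lit 0x50312) (nat_lit 0) (p (nat_lit 0x38292) (nat_lit 0) (p (nat_lit 0x28212) (nat_lit 0) (p (nat_lit 0x38112) (nat_lit 0) (p (nat_lit 0x20092) (nat_lit 0) (p (nat_lit 0x10012) (nat_lit 0) pn))))))))))) :=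
  Cl.node (nat_lit 0x10607058502) (nat_lit 1) (by decide +kernel) (ClAll.succ ClAll.zero n645)

def n647 : Cl (O (nat_lit 5)) (R (nat_lit 14353))
    (p (nat_lit 0x16000c) (nat_lit 0) (p (nat_lit 0x68612) (nat_lit 0) (p (nat_lit 0x50592) (nat_lit 0) (p (nat_lit 0x40512) (nat_lit 0) (p (nat_lit 0x50312) (nat_lit 0) (p (nat_lit 0x38292) (nat_lit 0) (p (nat_lit 0x28212) (nat_lit 0) (p (nat_lit 0x38112) (nat_lit 0) (p (nat_lit 0x20092) (nat_lit 0) (p (nat_lit 0x10012) (nat_lit 0) pn)))))))))) :=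
  Cl.node (nat_lit 0x586850482) (nat_lit 1) (by decide +kernel) (ClAll.succ ClAll.zero n646)

def n648 : Cl (O (nat_lit 5)) (R (nat_lit 14353))
    (p (nat_lit 0x68612) (nat_lit 0) (p (nat_lit 0x50592) (nat_lit 0) (p (nat_lit 0x40512) (nat_lit 0) (p (nat_lit 0x50312) (nat_lit 0) (p (nat_lit 0x38292) (nat_lit 0) (p (nat_lit 0x28212) (nat_lit 0) (p (nat_lit 0x38112) (nat_lit 0) (p (nat_lit 0x20092) (nat_lit 0) (p (nat_lit 0x10012) (nat_lit 0) pn))))))))) :=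
  Cl.node (nat_lit 0x16000c) (nat_lit 2) (by decide +kernel) (ClAll.succ (ClAll.succ ClAll.zero n647) s1397)

def n649 : Cl (O (nat_lit 5)) (R (nat_lit 14353))
    (p (nat_lit 0x50592) (nat_lit 0) (p (nat_lit 0x40512) (nat_lit 0) (p (nat_lit 0x50312) (nat_lit 0) (p (nat_lit 0x38292) (nat_lit 0) (p (nat_lit 0x28212) (nat_lit 0) (p (nat_lit 0x38112) (nat_lit 0) (p (nat_lit 0x20092) (nat_lit 0) (p (nat_lit 0x10012) (nat_lit 0) pn)))))))) :=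
  Cl.node (nat_lit 0x68612) (nat_lit 1) (by decide +kernel) (ClAll.succ ClAll.zero n648)

def n650 : Cl (O (nat_lit 5)) (R (nat_lit 14353))
    (p (nat_lit 0x40512) (nat_lit 0) (p (nat_lit 0x50312) (nat_lit 0) (p (nat_lit 0x38292) (nat_lit 0) (p (nat_lit 0x28212) (nat_lit 0) (p (nat_lit 0x38112) (nat_lit 0) (p (nat_lit 0x20092) (nat_lit 0) (p (nat_lit 0x10012) (nat_lit 0) pn))))))) :=
  Cl.node (nat_lit 0x50592) (nat_lit 1) (by decide +kernel) (ClAll.succ ClAll.zero n649)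

def n651 : Cl (O (nat_lit 5)) (R (nat_lit 14353))
    (p (nat_lit 0x50312) (nat_lit 0) (p (nat_lit 0x38292) (nat_lit 0) (p (nat_lit 0x28212) (nat_lit 0) (p (nat_lit 0x38112) (nat_lit 0) (p (nat_lit 0x20092) (nat_lit 0) (p (nat_lit 0x10012) (nat_lit 0) pn)))))) :=
  Cl.node (nat_lit 0x40512) (nat_lit 1) (by decide +kernel) (ClAll.succ ClAll.zero n650)

def n652 : Cl (O (nat_lit 5)) (R (nat_lit 14353))
    (p (nat_lit 0x38292) (nat_lit 0) (p (nat_lit 0x28212) (nat_lit 0) (p (nat_lit 0x38112) (nat_lit 0) (p (nat_lit 0x20092) (nat_lit 0) (p (nat_lit 0x10012) (nat_lit 0) pn))))) :=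
  Cl.node (nat_lit 0x50312) (nat_lit 1) (by decide +kernel) (ClAll.succ ClAll.zero n651)

def n653 : Cl (O (nat_lit 5)) (R (nat_lit 14353))
    (p (nat_lit 0x28212) (nat_lit 0) (p (nat_lit 0x38112) (nat_lit 0) (p (nat_lit 0x20092) (nat_lit 0) (p (nat_lit 0x10012) (nat_lit 0) pn)))) :=
  Cl.node (nat_lit 0x38292) (nat_lit 1) (by decide +kernel) (ClAll.succ ClAll.zero n652)

def n654 : Cl (O (nat_lit 5)) (R (nat_lit 14353))
    (p (nat_lit 0x38112) (nat_lit 0) (p (nat_lit 0x20092) (nat_lit 0) (p (nat_lit 0x10012) (nat_lit 0) pn))) :=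
  Cl.node (nat_lit 0x28212) (nat_lit 1) (by decide +kernel) (ClAll.succ ClAll.zero n653)

def n655 : Cl (O (nat_lit 5)) (R (nat_lit 14353))
    (p (nat_lit 0x20092) (nat_lit 0) (p (nat_lit 0x10012) (nat_lit 0) pn)) :=
  Cl.node (nat_lit 0x38112) (nat_lit 1) (by decide +kernel) (ClAll.succ ClAll.zero n654)

def n656 : Cl (O (nat_lit 5)) (R (nat_lit 14353))
    (p (nat_lit 0x10012) (nat_lit 0) pn) :=
  Cl.node (nat_lit 0x20092) (nat_lit 1) (by decide +kernel) (ClAll.succ ClAll.zero n655)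

def n657 : Cl (O (nat_lit 5)) (R (nat_lit 14353))
    pn :=
  Cl.node (nat_lit 0x10012) (nat_lit 1) (by decide +kernel) (ClAll.succ ClAll.zero n656)

theorem top : Cl (O (nat_lit 5)) (R (nat_lit 14353)) pn := n657

end Pool.Agent.Gen.F5.X12CD3Cm5
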